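import Pool.Agent.LocH.GDef

/-!
# Valid pairs and their types

A pair `(C, M)`: a set of colours and a monomial.  It is valid of level `n` if `C ⊆ W`, the support of
`M` is a face of the restriction to `W`, the colours in `W \ C` are covered by `M`, and
`deg M + |C| = n`.  The vertex `w` types it if `w` is in `M` and at least three colours outside `C` are
covered by the one factor `w` only.
-/

set_option autoImplicit false

open Finset

namespace Pool.Agent.LH4

open Pool.Agent.LocH

variable {X Ω : Type} [Fintype X] [DecidableEq X] [Fintype Ω] [DecidableEq Ω] (S : Sub X Ω)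

/-- A valid pair of level `n`. -/
structure VP (W : Finset Ω) (n : ℕ) (C : Finset Ω) (M : X →₀ ℕ) : Prop where
  sub : C ⊆ W
  fcs : M.support ∈ S.fcs W
  cov : W \ C ⊆ S.cr M.support
  deg : M.degree + C.card = n

/-- The vertex `w` types the pair. -/
structure Ty (w : X) (C : Finset Ω) (M : X →₀ ℕ) : Prop where
  mem : w ∈ M.support
  big : 3 ≤ ((S.car w \ S.cr (M - Finsupp.single w 1).support) \ C).card

/-- The coboundary. -/
noncomputable def dl (r : Finset Ω → (X →₀ ℕ) → S.K) (C : Finset Ω) (M : X →₀ ℕ) : S.K :=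
  ∑ c ∈ C, ∑ v, S.a v c * r (C.erase c) (Finsupp.single v 1 + M)

/-- A set of valid pairs which is closed for the coboundary. -/
structure Cl (W : Finset Ω) (n : ℕ) (P : Finset Ω → (X →₀ ℕ) → Prop) : Prop where
  vp : ∀ C M, P C M → VP S W n C M
  cl : ∀ C M c v, VP S W n C M → c ∈ C → c ∈ S.car v → P (C.erase c) (Finsupp.single v 1 + M) →
    P C M

/-- Cocycles supported on `P` are coboundaries of cochains supported on `P`. -/
def Exa (W : Finset Ω) (n : ℕ) (P : Finset Ω → (X →₀ ℕ) → Prop) : Prop :=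
  ∀ r : Finset Ω → (X →₀ ℕ) → S.K, (∀ C M, r C M ≠ 0 → P C M) →
    (∀ C M, VP S W n C M → dl S r C M = 0) →
    ∃ e : Finset Ω → (X →₀ ℕ) → S.K, (∀ C M, e C M ≠ 0 → P C M) ∧
      ∀ C M, VP S W n C M → r C M = dl S e C M

/-- The valid pairs which are typed by all members of `Y`. -/
def OS (W : Finset Ω) (n : ℕ) (Y : Finset X) (C : Finset Ω) (M : X →₀ ℕ) : Prop :=
  VP S W n C M ∧ ∀ w ∈ Y, Ty S w C M

/-- A linear form in degree `|V| - 4` which kills the relations, `λ J` and the good monomials. -/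
structure Tf (V : Finset Ω) (t : S.T →ₗ[S.K] S.K) : Prop where
  face : ∀ n : X →₀ ℕ, n.degree + 4 = V.card → n.support ∉ S.fcs V → t (S.mo n) = 0
  th : ∀ c ∈ V, ∀ M : X →₀ ℕ, M.degree + 5 = V.card → V.erase c ⊆ S.cr M.support →
    t (S.th c * S.mo M) = 0
  lam : ∀ M : X →₀ ℕ, M.degree + 5 = V.card → V ⊆ S.cr M.support → t (S.lam V * S.mo M) = 0
  gd : ∀ n : X →₀ ℕ, n.degree + 4 = V.card → S.Good V n → t (S.mo n) = 0

end Pool.Agent.LH4
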