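import Pool.Agent.LH4.Sq2

/-!
# The square functional as a linear form on polynomials; the combinatorics of `N(s)`
-/

set_option autoImplicit false

open Finset

namespace Pool.Agent.LH4

variable {X Ω K : Type} [Fintype X] [DecidableEq X] [DecidableEq Ω]

/-! ### The linear form -/

section lin

variable [Field K] {car : X → Finset Ω} {a : X → Ω → K} {D : X → Ω → K → K} {W : Finset Ω}

omit [Fintype X] [DecidableEq X] [DecidableEq Ω] in
/-- The values of a linear form at the monomials. -/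
noncomputable def mon (A : MvPolynomial X K →ₗ[K] K) (N : X →₀ ℕ) : K :=
  A (MvPolynomial.monomial N 1)

omit [DecidableEq X] [DecidableEq Ω] in
/-- The square functional as a linear form. -/
noncomputable def sqL (a : X → Ω → K) (W : Finset Ω) (A : MvPolynomial X K →ₗ[K] K) :
    MvPolynomial X K →ₗ[K] K :=
  (MvPolynomial.basisMonomials X K).constr K fun s => sqW a W (mon A) s

omit [DecidableEq X] [DecidableEq Ω] in
theorem sqL_mon (A : MvPolynomial X K →ₗ[K] K) (s : X →₀ ℕ) :
    mon (sqL a W A) s = sqW a W (mon A) s := by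
  have h := (MvPolynomial.basisMonomials X K).constr_basis K (fun s => sqW a W (mon A) s) s
  rw [MvPolynomial.coe_basisMonomials] at h
  exact h

/-- The linear form with the coefficients `κ`. -/
noncomputable def lf (κ : X → K) : MvPolynomial X K :=
  ∑ v, MvPolynomial.C (κ v) * MvPolynomial.X v

omit [Fintype X] [DecidableEq X] in
theorem comp_mul (A : MvPolynomial X K →ₗ[K] K) (p y : MvPolynomial X K) :
    (A ∘ₗ LinearMap.mulLeft K p) y = A (p * y) := rfl

omit [DecidableEq X] in
theorem lf_mul_mon (A : MvPolynomial X K →ₗ[K] K) (κ : X → K) (M : X →₀ ℕ) :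
    A (lf κ * MvPolynomial.monomial M 1) = ∑ v, κ v * mon A (Finsupp.single v 1 + M) := by
  rw [lf, Finset.sum_mul, map_sum]
  refine Finset.sum_congr rfl fun v _ => ?_
  rw [MvPolynomial.X, MvPolynomial.C_mul_monomial, MvPolynomial.monomial_mul, mul_one, mul_one,
    mon, ← smul_eq_mul, ← map_smul, MvPolynomial.smul_monomial, smul_eq_mul, mul_one]

omit [DecidableEq X] in
theorem mon_lf (A : MvPolynomial X K →ₗ[K] K) (κ : X → K) :
    mon (A ∘ₗ LinearMap.mulLeft K (lf κ)) = fun M => ∑ v, κ v * mon A (Finsupp.single v 1 + M) := by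
  funext M
  exact lf_mul_mon A κ M

omit [Fintype X] [DecidableEq X] in
theorem ext_mon {A B : MvPolynomial X K →ₗ[K] K} (h : ∀ s, mon A s = mon B s) : A = B := by
  refine (MvPolynomial.basisMonomials X K).ext fun s => ?_
  rw [MvPolynomial.coe_basisMonomials]
  exact h s

omit [DecidableEq X] in
/-- (ii) -/
theorem sqL_th [CharP K 2] {c : Ω} (hc : c ∈ W) (A : MvPolynomial X K →ₗ[K] K) :
    sqL a W A ∘ₗ LinearMap.mulLeft K (lf fun v => a v c) =
      sqL a (W.erase c) (A ∘ₗ LinearMap.mulLeft K (lf fun v => a v c)) := by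
  refine ext_mon fun s => ?_
  rw [mon_lf, sqL_mon, mon_lf]
  simp only [sqL_mon]
  exact sqW_th hc (mon A) s

omit [DecidableEq X] [DecidableEq Ω] in
theorem lf_sq [CharP K 2] (κ : X → K) :
    (lf κ) ^ 2 = ∑ v, MvPolynomial.C (κ v ^ 2) * MvPolynomial.monomial (2 • Finsupp.single v 1) 1 := by
  have : CharP (MvPolynomial X K) 2 := inferInstance
  rw [lf, sum_pow_char 2]
  refine Finset.sum_congr rfl fun v _ => ?_
  rw [mul_pow, ← map_pow, MvPolynomial.X, MvPolynomial.monomial_pow, one_pow]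

omit [DecidableEq X] [DecidableEq Ω] in
/-- (iii) -/
theorem sqL_lam [CharP K 2] (κ : X → K) (A : MvPolynomial X K →ₗ[K] K) :
    sqL a W A ∘ₗ LinearMap.mulLeft K (lf κ ^ 2) =
      sqL a W (A ∘ₗ LinearMap.mulLeft K (lf κ)) := by
  refine ext_mon fun s => ?_
  rw [sqL_mon, mon_lf, ← sqW_lam, mon, comp_mul, lf_sq, Finset.sum_mul, map_sum]
  refine Finset.sum_congr rfl fun v _ => ?_
  rw [MvPolynomial.C_mul_monomial, MvPolynomial.monomial_mul, mul_one, mul_one,
    ← sqL_mon (a := a) (W := W), mon, ← smul_eq_mul, ← map_smul, MvPolynomial.smul_monomial,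
    smul_eq_mul, mul_one]

/-- The linear form is zero at the monomial `s` if and only if `A` is zero on `N(s)`. -/
theorem sqL_mon_zero [CharP K 2] (hD : Drv car a D) [Nonempty X] (A : MvPolynomial X K →ₗ[K] K)
    (s : X →₀ ℕ) : sqL a W A (MvPolynomial.monomial s 1) = 0 ↔
      ∀ N, NN car W s N → A (MvPolynomial.monomial N 1) = 0 := by
  change mon (sqL a W A) s = 0 ↔ _
  rw [sqL_mon, sqW_eq_zero hD]
  exact Iff.rfl

omit [Fintype X] [DecidableEq X] in
theorem apply_zero {A : MvPolynomial X K →ₗ[K] K} {y : MvPolynomial X K}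
    (h : ∀ s ∈ y.support, mon A s = 0) : A y = 0 := by
  rw [y.as_sum, map_sum]
  refine Finset.sum_eq_zero fun s hs => ?_
  have h1 : MvPolynomial.monomial s (MvPolynomial.coeff s y) =
      MvPolynomial.coeff s y • MvPolynomial.monomial s (1 : K) := by
    rw [MvPolynomial.smul_monomial, smul_eq_mul, mul_one]
  rw [h1, map_smul]
  have h2 := h s hs
  rw [mon] at h2
  rw [h2, smul_zero]

/-- (ii) `f(θ_c y) = 0` if `A` kills all available relations. -/
theorem sqL_th_zero [CharP K 2] (hD : Drv car a D) [Nonempty X] {c : Ω} (hc : c ∈ W)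
    (A : MvPolynomial X K →ₗ[K] K) (y : MvPolynomial X K)
    (h : ∀ s ∈ y.support, ∀ M, NN car (W.erase c) s M →
      A ((lf fun v => a v c) * MvPolynomial.monomial M 1) = 0) :
    sqL a W A ((lf fun v => a v c) * y) = 0 := by
  have h1 := LinearMap.congr_fun (sqL_th (a := a) hc A) y
  rw [comp_mul] at h1
  rw [h1]
  refine apply_zero fun s hs => ?_
  exact (sqL_mon_zero hD _ s).2 (h s hs)

/-- (iii) `f(λ² y) = 0` if `A` kills all available relations. -/
theorem sqL_lam_zero [CharP K 2] (hD : Drv car a D) [Nonempty X] (κ : X → K)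
    (A : MvPolynomial X K →ₗ[K] K) (y : MvPolynomial X K)
    (h : ∀ s ∈ y.support, ∀ M, NN car W s M → A (lf κ * MvPolynomial.monomial M 1) = 0) :
    sqL a W A (lf κ ^ 2 * y) = 0 := by
  have h1 := LinearMap.congr_fun (sqL_lam (a := a) (W := W) κ A) y
  rw [comp_mul] at h1
  rw [h1]
  refine apply_zero fun s hs => ?_
  exact (sqL_mon_zero hD _ s).2 (h s hs)

end lin

/-! ### Combinatorics -/

omit [DecidableEq X] in
/-- The degree of the part of `n` in the vertices with carrier contained in `U`. -/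
def dgU (car : X → Finset Ω) (U : Finset Ω) (n : X →₀ ℕ) : ℕ :=
  ∑ v ∈ univ.filter (fun v => car v ⊆ U), n v

section comb

variable {car : X → Finset Ω} {W : Finset Ω}

omit [DecidableEq X] in
theorem dgU_add (U : Finset Ω) (m n : X →₀ ℕ) : dgU car U (m + n) = dgU car U m + dgU car U n := by
  rw [dgU, dgU, dgU, ← Finset.sum_add_distrib]
  exact Finset.sum_congr rfl fun v _ => Finsupp.add_apply m n v

theorem dgU_sum (U : Finset Ω) (J : Ω → X) (W : Finset Ω) :
    dgU car U (∑ c ∈ W, Finsupp.single (J c) 1) = (W.filter fun c => car (J c) ⊆ U).card := by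
  rw [dgU, Finset.card_filter]
  simp only [Finsupp.finsetSum_apply]
  rw [Finset.sum_comm]
  refine Finset.sum_congr rfl fun c _ => ?_
  simp only [Finsupp.single_apply]
  rw [Finset.sum_ite_eq]
  refine if_congr ?_ rfl rfl
  rw [Finset.mem_filter]
  exact ⟨fun h => h.2, fun h => ⟨Finset.mem_univ _, h⟩⟩

omit [DecidableEq X] in
theorem dgU_two (U : Finset Ω) (n : X →₀ ℕ) : dgU car U (2 • n) = 2 * dgU car U n := by
  rw [two_nsmul, dgU_add, two_mul]

/-- (v) -/
theorem NN.dgU_eq {s N : X →₀ ℕ} (h : NN car W s N) : ∃ J : Ω → X, (∀ c ∈ W, c ∈ car (J c)) ∧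
    ∀ U : Finset Ω, 2 * dgU car U N = dgU car U s + (W.filter fun c => car (J c) ⊆ U).card := by
  obtain ⟨J, hJ, h⟩ := h
  refine ⟨J, hJ, fun U => ?_⟩
  rw [← dgU_two, ← h, dgU_add, dgU_sum]
  ring

/-- (v) -/
theorem NN.dgU_le {s N : X →₀ ℕ} (h : NN car W s N) (U : Finset Ω) :
    2 * dgU car U N ≤ dgU car U s + (W ∩ U).card := by
  obtain ⟨J, hJ, h⟩ := h.dgU_eq
  rw [h U]
  refine Nat.add_le_add_left (Finset.card_le_card fun c hc => ?_) _
  rw [Finset.mem_filter] at hc
  exact Finset.mem_inter.2 ⟨hc.1, hc.2 (hJ c hc.1)⟩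

omit [Fintype X] [DecidableEq X] [DecidableEq Ω] in
theorem NN.degree_eq {s N : X →₀ ℕ} (h : NN car W s N) : 2 * N.degree = s.degree + W.card := by
  obtain ⟨J, -, h⟩ := h
  have h1 := congrArg Finsupp.degree h
  simp only [map_add, map_sum, Finsupp.degree_single, Finset.sum_const, smul_eq_mul, mul_one,
    map_nsmul] at h1
  omega

omit [Fintype X] [DecidableEq X] [DecidableEq Ω] in
theorem NN.le {s N : X →₀ ℕ} (h : NN car W s N) : s ≤ 2 • N := by
  obtain ⟨J, -, h⟩ := h
  rw [← h]
  exact le_add_self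

omit [Fintype X] [DecidableEq X] [DecidableEq Ω] in
theorem NN.support {s N : X →₀ ℕ} (h : NN car W s N) : s.support ⊆ N.support := by
  intro v hv
  have h1 := h.le v
  rw [Finsupp.smul_apply, smul_eq_mul] at h1
  rw [Finsupp.mem_support_iff] at hv ⊢
  omega

omit [Fintype X] [DecidableEq X] [DecidableEq Ω] in
/-- The carrier of a member of `N(s)` contains `W`. -/
theorem NN.exists_mem {s N : X →₀ ℕ} (h : NN car W s N) {c : Ω} (hc : c ∈ W) :
    ∃ v ∈ N.support, c ∈ car v := by
  obtain ⟨J, hJ, h⟩ := h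
  refine ⟨J c, ?_, hJ c hc⟩
  have h1 := DFunLike.congr_fun h (J c)
  rw [Finsupp.add_apply, Finsupp.finsetSum_apply, Finsupp.smul_apply, smul_eq_mul] at h1
  have h2 : 1 ≤ ∑ c' ∈ W, (Finsupp.single (J c') 1 : X →₀ ℕ) (J c) := by
    refine le_trans ?_ (Finset.single_le_sum (f := fun c' =>
      (Finsupp.single (J c') 1 : X →₀ ℕ) (J c)) (fun _ _ => Nat.zero_le _) hc)
    rw [Finsupp.single_eq_same]
  rw [Finsupp.mem_support_iff]
  omega

/-- (v), the converse (Hall's theorem). -/
theorem NN.of_le [Nonempty X] {s N : X →₀ ℕ} (hs : s ≤ 2 • N)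
    (hdeg : 2 * N.degree = s.degree + W.card) (hcar : ∀ v ∈ N.support, car v ⊆ W)
    (hU : ∀ U ⊆ W, 2 * dgU car U N ≤ dgU car U s + U.card) : NN car W s N := by
  classical
  obtain ⟨k, hk⟩ : ∃ k : X →₀ ℕ, k + s = 2 • N := ⟨2 • N - s, tsub_add_cancel_of_le hs⟩
  have hkv : ∀ v, k v + s v = 2 * N v := by
    intro v
    have h1 := DFunLike.congr_fun hk v
    rw [Finsupp.add_apply, Finsupp.smul_apply, smul_eq_mul] at h1
    exact h1
  have hkdeg : k.degree = W.card := by
    have h1 := congrArg Finsupp.degree hk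
    rw [map_add, map_nsmul, smul_eq_mul] at h1
    omega
  have hksum : ∑ v, k v = W.card := by
    rw [← hkdeg, Finsupp.degree_eq_sum]
  let t : {c // c ∈ W} → Finset (Σ _ : X, ℕ) := fun c =>
    (univ.filter (fun v => (c : Ω) ∈ car v)).sigma (fun v => range (k v))
  have hall : ∀ C : Finset {c // c ∈ W}, C.card ≤ (C.biUnion t).card := by
    intro C
    set C' : Finset Ω := C.map (Function.Embedding.subtype _) with hC'
    have hC'W : C' ⊆ W := by
      intro c hc
      rw [hC', Finset.mem_map] at hc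
      obtain ⟨c', _, rfl⟩ := hc
      exact c'.2
    have hcard : C'.card = C.card := Finset.card_map _
    have h1 := hU (W \ C') Finset.sdiff_subset
    have h2 : ((univ.filter (fun v => ¬ Disjoint (car v) C')).sigma (fun v => range (k v))) ⊆
        C.biUnion t := by
      rintro ⟨v, i⟩ hvi
      rw [Finset.mem_sigma, Finset.mem_filter] at hvi
      obtain ⟨⟨_, hv⟩, hi⟩ := hvi
      rw [Finset.not_disjoint_iff] at hv
      obtain ⟨c, hc, hc'⟩ := hv
      rw [hC', Finset.mem_map] at hc'
      obtain ⟨c', hcs, rfl⟩ := hc'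
      rw [Finset.mem_biUnion]
      refine ⟨c', hcs, ?_⟩
      rw [Finset.mem_sigma, Finset.mem_filter]
      exact ⟨⟨Finset.mem_univ _, hc⟩, hi⟩
    refine le_trans ?_ (Finset.card_le_card h2)
    rw [Finset.card_sigma]
    simp only [Finset.card_range]
    have h3 : ∑ v, k v = ∑ v ∈ univ.filter (fun v => ¬ Disjoint (car v) C'), k v +
        ∑ v ∈ univ.filter (fun v => Disjoint (car v) C'), k v := by
      rw [add_comm]
      exact (Finset.sum_filter_add_sum_filter_not univ _ _).symm
    have h4 : ∑ v ∈ univ.filter (fun v => Disjoint (car v) C'), k v ≤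
        ∑ v ∈ univ.filter (fun v => car v ⊆ W \ C'), k v := by
      rw [← Finset.sum_filter_ne_zero]
      refine Finset.sum_le_sum_of_subset fun v hv => ?_
      rw [Finset.mem_filter, Finset.mem_filter] at hv
      obtain ⟨⟨-, hd⟩, hkv0⟩ := hv
      rw [Finset.mem_filter]
      refine ⟨Finset.mem_univ _, ?_⟩
      have h5 : v ∈ N.support := by
        rw [Finsupp.mem_support_iff]
        have := hkv v
        omega
      exact Finset.subset_sdiff.2 ⟨hcar v h5, hd⟩
    have h5 : dgU car (W \ C') k + dgU car (W \ C') s = 2 * dgU car (W \ C') N := by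
      rw [← dgU_add, hk, dgU_two]
    have h6 : (W \ C').card + C'.card = W.card := Finset.card_sdiff_add_card_eq_card hC'W
    rw [dgU] at h5
    omega
  obtain ⟨f, hf, hft⟩ := (Finset.all_card_le_biUnion_card_iff_exists_injective t).1 hall
  have hft' : ∀ c : {c // c ∈ W}, (c : Ω) ∈ car (f c).1 ∧ (f c).2 < k (f c).1 := by
    intro c
    have h1 := hft c
    rw [Finset.mem_sigma, Finset.mem_filter, Finset.mem_range] at h1
    exact ⟨h1.1.2, h1.2⟩
  set J : Ω → X := fun c => if h : c ∈ W then (f ⟨c, h⟩).1 else Classical.arbitrary X with hJ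
  have hJW : ∀ c (h : c ∈ W), J c = (f ⟨c, h⟩).1 := fun c h => by rw [hJ]; exact dif_pos h
  have hle : ∀ v, (W.filter (fun c => J c = v)).card ≤ k v := by
    intro v
    have h1 : k v = (range (k v)).card := (Finset.card_range _).symm
    rw [h1]
    refine Finset.card_le_card_of_injOn (fun c => if h : c ∈ W then (f ⟨c, h⟩).2 else 0) ?_ ?_
    · intro c hc
      rw [Finset.mem_coe, Finset.mem_filter] at hc
      obtain ⟨hc, hcv⟩ := hc
      rw [hJW c hc] at hcv
      beta_reduce
      rw [dif_pos hc, Finset.mem_coe, Finset.mem_range, ← hcv]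
      exact (hft' ⟨c, hc⟩).2
    · intro c hc c' hc' hcc
      rw [Finset.mem_coe, Finset.mem_filter] at hc hc'
      obtain ⟨hc, hcv⟩ := hc
      obtain ⟨hc', hcv'⟩ := hc'
      rw [hJW c hc] at hcv
      rw [hJW c' hc'] at hcv'
      beta_reduce at hcc
      rw [dif_pos hc, dif_pos hc'] at hcc
      have h1 : f ⟨c, hc⟩ = f ⟨c', hc'⟩ := by
        rw [Sigma.ext_iff]
        exact ⟨hcv.trans hcv'.symm, heq_of_eq hcc⟩
      exact congrArg Subtype.val (hf h1)
  have hcnt : ∀ v, (∑ c ∈ W, Finsupp.single (J c) 1 : X →₀ ℕ) v =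
      (W.filter fun c => J c = v).card := by
    intro v
    rw [Finsupp.finsetSum_apply, Finset.card_filter]
    exact Finset.sum_congr rfl fun c _ => by rw [Finsupp.single_apply]
  have hsum : ∑ v, (W.filter (fun c => J c = v)).card = ∑ v, k v := by
    rw [hksum]
    exact (Finset.card_eq_sum_card_fiberwise (f := J) (t := univ)
      (fun _ _ => Finset.mem_coe.2 (Finset.mem_univ _))).symm
  have heq := (Finset.sum_eq_sum_iff_of_le fun v _ => hle v).1 hsum
  refine ⟨J, fun c hc => ?_, ?_⟩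
  · rw [hJW c hc]
    exact (hft' ⟨c, hc⟩).1
  · rw [← hk]
    congr 1
    ext v
    rw [hcnt, heq v (Finset.mem_univ v)]

end comb

end Pool.Agent.LH4
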