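import Pool.Agent.LocH.GDef
import Pool.Agent.LocH.Var
import Pool.Agent.LH4.Sq3

/-!
# The square functional over the field of the subdivision
-/

set_option autoImplicit false

open Finset

namespace Pool.Agent.LH4

open Pool.Agent.LocH

variable {X Ω : Type} [Fintype X] [DecidableEq X] [Fintype Ω] [DecidableEq Ω] (S : Sub X Ω)

theorem drv_sub : Drv S.car S.a S.pa where
  add := S.pa_add
  mul := S.pa_mul
  a_zero := fun _ _ h => S.a_zero h
  a_der := fun _ _ h v' c' => S.pa_a h v' c'

omit [Fintype X] [Fintype Ω] in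
theorem DI_sub (J : Ω → X) (l : List Ω) (x : S.K) : DI S.pa J l x = S.DI J l x := rfl

omit [Fintype Ω] in
theorem dgU_sub (U : Finset Ω) (n : X →₀ ℕ) : dgU S.car U n = S.dgI U n := rfl

omit [Fintype Ω] in
theorem lf_sub (c : Ω) : lf (fun v => S.a v c) = S.th c := rfl

end Pool.Agent.LH4
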