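import Pool.Agent.LH4.Rep
import Pool.Agent.LH4.Sq4

/-!
# Linear forms on the monomials of a complex, restricted to the subcomplexes
-/

set_option autoImplicit false

open Finset

namespace Pool.Agent.LH4

open Pool.Agent.LocH

variable {X Ω : Type} [Fintype X] [DecidableEq X] [Fintype Ω] [DecidableEq Ω] {S : Sub X Ω}

/-! ### Monomials -/

omit [Fintype X] [Fintype Ω] in
theorem mo_H (s : X →₀ ℕ) : S.mo s ∈ S.H s.degree := by
  refine (MvPolynomial.mem_homogeneousSubmodule _ _).2 ?_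
  exact MvPolynomial.isHomogeneous_monomial 1 rfl

omit [Fintype X] [Fintype Ω] in
theorem deg_of_H {y : S.T} {n : ℕ} (hy : y ∈ S.H n) {s : X →₀ ℕ} (hs : s ∈ y.support) :
    s.degree = n := by
  have h1 := (MvPolynomial.mem_homogeneousSubmodule _ _).1 hy (MvPolynomial.mem_support_iff.1 hs)
  rw [← h1, Finsupp.degree_eq_weight_one]
  rfl

omit [Fintype X] [Fintype Ω] in
theorem supp_mo (s : X →₀ ℕ) : (S.mo s).support = {s} := by
  rw [Sub.mo, MvPolynomial.support_monomial, if_neg one_ne_zero]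

omit [Fintype X] [Fintype Ω] in
theorem form_zero {F : S.T →ₗ[S.K] S.K} {y : S.T} (h : ∀ s ∈ y.support, F (S.mo s) = 0) :
    F y = 0 := apply_zero h

omit [Fintype X] [Fintype Ω] in
theorem form_mul_zero {F : S.T →ₗ[S.K] S.K} (p : S.T) {y : S.T}
    (h : ∀ s ∈ y.support, F (p * S.mo s) = 0) : F (p * y) = 0 :=
  form_zero (F := F ∘ₗ LinearMap.mulLeft S.K p) h

theorem mo_I {U : Finset Ω} {s : X →₀ ℕ} (h : s.support ∉ S.fcs U) : S.mo s ∈ S.I U := by
  rw [S.mem_I]
  intro t ht
  rw [supp_mo, Finset.mem_singleton] at ht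
  rwa [ht]

theorem mo_J {U V : Finset Ω} {s : X →₀ ℕ} (h : s.support ∈ S.fcs U → V ⊆ S.cr s.support) :
    S.mo s ∈ S.J U V := by
  rw [S.mem_J]
  intro t ht
  rw [supp_mo, Finset.mem_singleton] at ht
  rwa [ht]

omit [Fintype X] [Fintype Ω] in
theorem X_mul_mo (v : X) (s : X →₀ ℕ) :
    MvPolynomial.X v * S.mo s = S.mo (Finsupp.single v 1 + s) := by
  rw [Sub.mo, Sub.mo, MvPolynomial.X, MvPolynomial.monomial_mul, mul_one]

omit [Fintype X] [Fintype Ω] in
theorem supp_single_add (v : X) (s : X →₀ ℕ) :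
    (Finsupp.single v 1 + s).support = insert v s.support := by
  ext x
  rw [Finsupp.mem_support_iff, Finset.mem_insert, Finsupp.mem_support_iff, Finsupp.add_apply,
    Finsupp.single_apply]
  by_cases hx : v = x
  · simp [hx]
  · rw [if_neg hx, zero_add]
    constructor
    · exact Or.inr
    · rintro (h | h)
      · exact absurd h.symm hx
      · exact h

omit [Fintype X] [Fintype Ω] [DecidableEq X] in
theorem deg_single_add (v : X) (s : X →₀ ℕ) :
    (Finsupp.single v 1 + s).degree = s.degree + 1 := by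
  rw [map_add, Finsupp.degree_single, add_comm]

omit [Fintype X] [Fintype Ω] in
theorem cr_insert (v : X) (F : Finset X) : S.cr (insert v F) = S.car v ∪ S.cr F := by
  unfold Sub.cr
  rw [Finset.biUnion_insert]

theorem mem_fcs' {U : Finset Ω} {F : Finset X} : F ∈ S.fcs U ↔ F ∈ S.Gam ∧ S.cr F ⊆ U := by
  unfold Sub.fcs
  rw [Finset.mem_filter]

omit [Fintype Ω] in
theorem th_mul_mo' (c : Ω) (s : X →₀ ℕ) :
    S.th c * S.mo s = ∑ v, S.a v c • S.mo (Finsupp.single v 1 + s) := by
  unfold Sub.th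
  rw [Finset.sum_mul]
  refine Finset.sum_congr rfl fun v _ => ?_
  rw [mul_assoc, X_mul_mo, MvPolynomial.smul_eq_C_mul]

omit [Fintype Ω] in
theorem lam_mul_mo (U : Finset Ω) (s : X →₀ ℕ) :
    S.lam U * S.mo s = ∑ v ∈ univ.filter (fun v => S.car v ⊆ U), S.mo (Finsupp.single v 1 + s) := by
  unfold Sub.lam
  rw [Finset.sum_mul]
  exact Finset.sum_congr rfl fun v _ => X_mul_mo v s

/-! ### The restriction of a linear form -/

/-- The linear form `f` on the monomials of the restriction to `U`, zero on the other monomials. -/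
noncomputable def rs (S : Sub X Ω) (U : Finset Ω) (f : S.T →ₗ[S.K] S.K) : S.T →ₗ[S.K] S.K :=
  (MvPolynomial.basisMonomials X S.K).constr S.K fun s =>
    if s.support ∈ S.fcs U then f (S.mo s) else 0

theorem rs_mo (U : Finset Ω) (f : S.T →ₗ[S.K] S.K) (s : X →₀ ℕ) :
    rs S U f (S.mo s) = if s.support ∈ S.fcs U then f (S.mo s) else 0 := by
  have h := (MvPolynomial.basisMonomials X S.K).constr_basis S.K (fun s : X →₀ ℕ =>
    if s.support ∈ S.fcs U then f (S.mo s) else 0) s
  rw [MvPolynomial.coe_basisMonomials] at h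
  exact h

theorem rs_mo_eq {U : Finset Ω} {f : S.T →ₗ[S.K] S.K} {s : X →₀ ℕ}
    (h : s.support ∉ S.fcs U → f (S.mo s) = 0) : rs S U f (S.mo s) = f (S.mo s) := by
  rw [rs_mo]
  by_cases h1 : s.support ∈ S.fcs U
  · rw [if_pos h1]
  · rw [if_neg h1, h h1]

theorem rs_I {U : Finset Ω} (f : S.T →ₗ[S.K] S.K) {y : S.T} (hy : y ∈ S.I U) :
    rs S U f y = 0 := by
  refine form_zero fun s hs => ?_
  rw [rs_mo, if_neg (S.mem_I.1 hy s hs)]

/-- A linear form on the monomials of degree `d` which kills the non-faces and the relations. -/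
structure Fz (S : Sub X Ω) (W : Finset Ω) (d : ℕ) (f : S.T →ₗ[S.K] S.K) : Prop where
  face : ∀ s : X →₀ ℕ, s.degree = d → s.support ∉ S.fcs W → f (S.mo s) = 0
  th : ∀ c ∈ W, ∀ s : X →₀ ℕ, s.degree + 1 = d → f (S.th c * S.mo s) = 0

/-- The linear form kills the monomials of degree `d` whose carrier contains `U` properly. -/
def Dd (S : Sub X Ω) (W U : Finset Ω) (d : ℕ) (f : S.T →ₗ[S.K] S.K) : Prop :=
  ∀ s : X →₀ ℕ, s.degree = d → s.support ∈ S.fcs W → U ⊂ S.cr s.support → f (S.mo s) = 0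

theorem Fz.zero {W U : Finset Ω} {d : ℕ} {f : S.T →ₗ[S.K] S.K} (hf : Fz S W d f)
    (hd : Dd S W U d f) {s : X →₀ ℕ} (hs : s.degree = d) (hU : U ⊆ S.cr s.support)
    (h : s.support ∉ S.fcs U) : f (S.mo s) = 0 := by
  by_cases h1 : s.support ∈ S.fcs W
  · refine hd s hs h1 ⟨hU, fun h2 => h ?_⟩
    exact mem_fcs'.2 ⟨(mem_fcs'.1 h1).1, h2⟩
  · exact hf.face s hs h1

theorem kil_rs {W U : Finset Ω} {d : ℕ} {f : S.T →ₗ[S.K] S.K} (hf : Fz S W d f)
    (hd : Dd S W U d f) (hU : U ⊆ W) : Kil S U d (rs S U f) := by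
  refine ⟨fun y hy _ => rs_I f hy, fun c hc k hk y hy hyk => ?_⟩
  refine form_mul_zero _ fun s hs => ?_
  have hsk : s.degree = k := deg_of_H hyk hs
  by_cases h1 : s.support ∈ S.fcs U
  · have h2 : U.erase c ⊆ S.cr s.support := S.mem_J.1 hy s hs h1
    have h3 : ∀ v, S.a v c • rs S U f (S.mo (Finsupp.single v 1 + s)) =
        S.a v c • f (S.mo (Finsupp.single v 1 + s)) := by
      intro v
      by_cases hv : c ∈ S.car v
      · rw [rs_mo_eq]
        intro h4
        refine hf.zero hd ?_ ?_ h4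
        · rw [deg_single_add, hsk, hk]
        · rw [supp_single_add, cr_insert]
          intro e he
          by_cases hec : e = c
          · rw [hec]
            exact Finset.mem_union_left _ hv
          · exact Finset.mem_union_right _ (h2 (Finset.mem_erase.2 ⟨hec, he⟩))
      · rw [S.a_zero hv, zero_smul, zero_smul]
    rw [th_mul_mo', map_sum]
    have h4 := hf.th c (hU hc) s (by rw [hsk, hk])
    rw [th_mul_mo', map_sum] at h4
    rw [← h4]
    refine Finset.sum_congr rfl fun v _ => ?_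
    rw [map_smul, map_smul, h3]
  · exact rs_I f (S.mul_I (mo_I h1) _)

end Pool.Agent.LH4
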