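import Pool.Agent.LH4.Kos
import Pool.Agent.LH4.Ty
import Pool.Agent.LH4.Vgf1

/-!
# Cochains of linear forms

The values of a linear form at the relations `θ_c M` as a cochain of level `|W| - 2`, the values at
`λ M` as a cochain of level `|W| - 3`.
-/

set_option autoImplicit false

open Finset

namespace Pool.Agent.LH4

open Pool.Agent.LocH

variable {X Ω : Type} [Fintype X] [DecidableEq X] [Fintype Ω] [DecidableEq Ω] {S : Sub X Ω}

/-- The statement of the splitting theorem for cochains. -/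
def SplitP (S : Sub X Ω) : Prop :=
  ∀ (W : Finset Ω) (n : ℕ), W.card ≤ n + 3 → ∀ (T : Finset X)
    (r : Finset Ω → (X →₀ ℕ) → S.K) (q : X → Finset Ω → (X →₀ ℕ) → S.K),
    (∀ C M, r C M ≠ 0 → VP S W n C M ∧ ∃ w ∈ T, Ty S w C M) →
    (∀ w ∈ T, ∀ C M, q w C M ≠ 0 → VP S W n C M ∧ Ty S w C M) →
    (∀ w ∈ T, ∀ C M, VP S W n C M → dl S (q w) C M = 0) →
    (∀ C M, VP S W n C M → dl S r C M = ∑ w ∈ T, q w C M) →
    ∃ r' : X → Finset Ω → (X →₀ ℕ) → S.K,
      (∀ w ∈ T, ∀ C M, r' w C M ≠ 0 → VP S W n C M ∧ Ty S w C M) ∧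
      (∀ w ∈ T, ∀ C M, VP S W n C M → dl S (r' w) C M = q w C M) ∧
      ∀ C M, r C M = ∑ w ∈ T, r' w C M

/-- The linear form with given values at the monomials. -/
noncomputable def lfm (S : Sub X Ω) (r : (X →₀ ℕ) → S.K) : S.T →ₗ[S.K] S.K :=
  (MvPolynomial.basisMonomials X S.K).constr S.K r

omit [Fintype X] [Fintype Ω] in
theorem lfm_mo (r : (X →₀ ℕ) → S.K) (s : X →₀ ℕ) : lfm S r (S.mo s) = r s := by
  have h := (MvPolynomial.basisMonomials X S.K).constr_basis S.K r s
  rw [MvPolynomial.coe_basisMonomials] at h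
  exact h

omit [Fintype Ω] in
theorem th_apply (F : S.T →ₗ[S.K] S.K) (c : Ω) (M : X →₀ ℕ) :
    F (S.th c * S.mo M) = ∑ v, S.a v c * F (S.mo (Finsupp.single v 1 + M)) := by
  rw [th_mul_mo', map_sum]
  exact Finset.sum_congr rfl fun v _ => by rw [map_smul, smul_eq_mul]

omit [Fintype Ω] in
theorem lam_apply (F : S.T →ₗ[S.K] S.K) (W : Finset Ω) (M : X →₀ ℕ) :
    F (S.lam W * S.mo M) = ∑ v ∈ univ.filter (fun v => S.car v ⊆ W),
      F (S.mo (Finsupp.single v 1 + M)) := by
  rw [lam_mul_mo, map_sum]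

theorem lam_H' (W : Finset Ω) {f : S.T} {n : ℕ} (hf : f ∈ S.H n) : S.lam W * f ∈ S.H (n + 1) := by
  have h1 : S.lam W ∈ S.H 1 := by
    unfold Sub.lam
    exact Submodule.sum_mem _ fun v _ => (MvPolynomial.mem_homogeneousSubmodule _ _).2
      (MvPolynomial.isHomogeneous_X _ _)
  have h2 := S.mul_H h1 hf
  rwa [add_comm] at h2

omit [Fintype X] [Fintype Ω] in
theorem two_zero (x : S.K) : x + x = 0 := CharTwo.add_self_eq_zero x

omit [Fintype X] [Fintype Ω] in
theorem eq_of_add_zero {x y : S.K} (h : x + y = 0) : x = y := by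
  have h1 : x + y + y = 0 + y := by rw [h]
  rwa [add_assoc, two_zero, add_zero, zero_add] at h1

variable {W : Finset Ω}

/-- A monomial which is not a face stays so. -/
theorem nface_add {M : X →₀ ℕ} (h : M.support ∉ S.fcs W) (v : X) :
    (Finsupp.single v 1 + M).support ∉ S.fcs W := by
  rw [supp_single_add]
  intro h1
  have h2 := mem_fcs'.1 h1
  exact h (mem_fcs'.2 ⟨S.down _ h2.1 _ (Finset.subset_insert v M.support),
    (Finset.biUnion_subset_biUnion_of_subset_left _ (Finset.subset_insert v M.support)).trans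
      h2.2⟩)

theorem car_sub_of_mem {F : Finset X} (hF : F ∈ S.fcs W) {v : X} (hv : v ∈ F) : S.car v ⊆ W :=
  (Finset.subset_biUnion_of_mem S.car hv).trans (mem_fcs'.1 hF).2

/-- `F` kills the monomials of degree `n` which are not faces. -/
def Nf (S : Sub X Ω) (W : Finset Ω) (n : ℕ) (F : S.T →ₗ[S.K] S.K) : Prop :=
  ∀ M : X →₀ ℕ, M.degree = n → M.support ∉ S.fcs W → F (S.mo M) = 0

theorem Nf.I {n : ℕ} {F : S.T →ₗ[S.K] S.K} (hF : Nf S W n F) {y : S.T} (hy : y ∈ S.I W)
    (hn : y ∈ S.H n) : F y = 0 :=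
  form_zero fun s hs => hF s (deg_of_H hn hs) (S.mem_I.1 hy s hs)

theorem Nf.th_mo {n : ℕ} {F : S.T →ₗ[S.K] S.K} (hF : Nf S W (n + 1) F) (c : Ω) {M : X →₀ ℕ}
    (hM : M.degree = n) (h : M.support ∉ S.fcs W) : F (S.th c * S.mo M) = 0 := by
  rw [th_apply]
  refine Finset.sum_eq_zero fun v _ => ?_
  rw [hF _ (by rw [deg_single_add, hM]) (nface_add h v), mul_zero]

theorem Nf.lam_mo {n : ℕ} {F : S.T →ₗ[S.K] S.K} (hF : Nf S W (n + 1) F) {M : X →₀ ℕ}
    (hM : M.degree = n) (h : M.support ∉ S.fcs W) : F (S.lam W * S.mo M) = 0 := by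
  rw [lam_apply]
  refine Finset.sum_eq_zero fun v _ => ?_
  rw [hF _ (by rw [deg_single_add, hM]) (nface_add h v)]

/-- The multiplication of a linear form by a polynomial. -/
noncomputable def ml (F : S.T →ₗ[S.K] S.K) (p : S.T) : S.T →ₗ[S.K] S.K :=
  F ∘ₗ LinearMap.mulLeft S.K p

omit [Fintype X] [Fintype Ω] in
theorem ml_apply (F : S.T →ₗ[S.K] S.K) (p y : S.T) : ml F p y = F (p * y) := rfl

omit [Fintype X] [Fintype Ω] in
/-- Two linear forms agree if they agree at the monomials of the polynomial. -/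
theorem form_eq {F G : S.T →ₗ[S.K] S.K} {y : S.T} (h : ∀ s ∈ y.support, F (S.mo s) = G (S.mo s)) :
    F y = G y := by
  have h1 : (F - G) y = 0 := form_zero fun s hs => by
    rw [LinearMap.sub_apply, h s hs, sub_self]
  rw [LinearMap.sub_apply] at h1
  exact sub_eq_zero.1 h1

/-! ### Types -/

omit [Fintype X] [Fintype Ω] in
/-- Removing factors keeps the type. -/
theorem Ty.mono {w : X} {C : Finset Ω} {M N : X →₀ ℕ} (h : Ty S w C (N + M))
    (hw : w ∈ M.support) : Ty S w C M := by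
  refine ⟨hw, h.big.trans (Finset.card_le_card ?_)⟩
  refine Finset.sdiff_subset_sdiff (Finset.sdiff_subset_sdiff subset_rfl ?_) subset_rfl
  refine Finset.biUnion_subset_biUnion_of_subset_left _ fun v hv => ?_
  rw [Finsupp.mem_support_iff] at hv ⊢
  rw [Finsupp.tsub_apply] at hv ⊢
  rw [Finsupp.add_apply]
  omega

omit [Fintype X] [Fintype Ω] in
/-- The private colours of `w` are not covered by a part of the monomial which does not need `w`. -/
theorem Ty.big_of_le {w : X} {C : Finset Ω} {M N : X →₀ ℕ} (h : Ty S w C (N + M))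
    (hw : w ∈ N.support) : 3 ≤ ((S.car w \ S.cr M.support) \ C).card := by
  refine h.big.trans (Finset.card_le_card ?_)
  refine Finset.sdiff_subset_sdiff (Finset.sdiff_subset_sdiff subset_rfl ?_) subset_rfl
  refine Finset.biUnion_subset_biUnion_of_subset_left _ fun v hv => ?_
  rw [Finsupp.mem_support_iff] at hv hw ⊢
  rw [Finsupp.tsub_apply, Finsupp.add_apply, Finsupp.single_apply]
  by_cases hvw : w = v
  · subst hvw
    rw [if_pos rfl]
    omega
  · rw [if_neg hvw]
    omega

omit [Fintype X] [Fintype Ω] in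
/-- A typed monomial which covers the colours outside `C` without the new factor. -/
theorem Ty.of_single {w v : X} {C : Finset Ω} {M : X →₀ ℕ} (h : Ty S w C (Finsupp.single v 1 + M))
    (hcov : S.car w \ C ⊆ S.cr M.support) : Ty S w C M := by
  by_cases hw : w ∈ M.support
  · exact h.mono hw
  · exfalso
    have h1 := h.mem
    rw [supp_single_add, Finset.mem_insert] at h1
    have h2 : w ∈ (Finsupp.single v 1 : X →₀ ℕ).support := by
      rw [Finsupp.mem_support_iff, (h1.resolve_right hw), Finsupp.single_eq_same]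
      exact one_ne_zero
    have h3 := h.big_of_le h2
    have h4 : (S.car w \ S.cr M.support) \ C = ∅ := by
      rw [Finset.sdiff_eq_empty_iff_subset]
      intro c hc
      rw [Finset.mem_sdiff] at hc
      by_contra hcC
      exact hc.2 (hcov (Finset.mem_sdiff.2 ⟨hc.1, hcC⟩))
    rw [h4, Finset.card_empty] at h3
    omega

end Pool.Agent.LH4
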