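import Pool.Agent.LH4.As1

/-!
# The first splitting: the values at the relations `θ_c M`
-/

set_option autoImplicit false

open Finset

namespace Pool.Agent.LH4

open Pool.Agent.LocH

variable {X Ω : Type} [Fintype X] [DecidableEq X] [Fintype Ω] [DecidableEq Ω] {S : Sub X Ω}
  {W : Finset Ω}

/-- A linear form on the monomials of degree `|W| - 2` which kills the non-faces, the relations of the
untyped pairs, and the products of `λ` and the untyped monomials. -/
structure Inp (S : Sub X Ω) (W : Finset Ω) (A : S.T →ₗ[S.K] S.K) : Prop where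
  face : ∀ M : X →₀ ℕ, M.degree + 2 = W.card → M.support ∉ S.fcs W → A (S.mo M) = 0
  th : ∀ c ∈ W, ∀ M : X →₀ ℕ, M.degree + 3 = W.card → M.support ∈ S.fcs W →
    W.erase c ⊆ S.cr M.support → (∀ w, ¬ Ty S w {c} M) → A (S.th c * S.mo M) = 0
  lam : ∀ M : X →₀ ℕ, M.degree + 3 = W.card → M.support ∈ S.fcs W →
    W ⊆ S.cr M.support → (∀ w, ¬ Ty S w ∅ M) → A (S.lam W * S.mo M) = 0

/-- The result of the first splitting. -/
structure Sp1 (S : Sub X Ω) (W : Finset Ω) (k : ℕ) (A : S.T →ₗ[S.K] S.K)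
    (al : X → S.T →ₗ[S.K] S.K) (ρ : X → Ω → S.T →ₗ[S.K] S.K) : Prop where
  nf : ∀ w, Nf S W (k + 2) (al w)
  ty : ∀ w c M, ρ w c (S.mo M) ≠ 0 → VP S W (k + 2) {c} M ∧ Ty S w {c} M
  th : ∀ w, ∀ c ∈ W, ∀ y ∈ S.J W (W.erase c), y ∈ S.H (k + 1) → al w (S.th c * y) = ρ w c y
  com : ∀ w, ∀ c ∈ W, ∀ c' ∈ W, c ≠ c' → ∀ z ∈ S.J W ((W.erase c).erase c'), z ∈ S.H k →
    ρ w c (S.th c' * z) = ρ w c' (S.th c * z)
  tot : ∀ c ∈ W, ∀ y ∈ S.J W (W.erase c), y ∈ S.H (k + 1) → A (S.th c * y) = ∑ w, ρ w c y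

/-- The sum over the new factor in a coboundary. -/
theorem sum_th {n m : ℕ} {F : S.T →ₗ[S.K] S.K} (hF : Nf S W m F) {C : Finset Ω} {c : Ω}
    {M : X →₀ ℕ} (hc : c ∈ C) (hV : VP S W n C M) (hm : M.degree + 1 = m) (f : (X →₀ ℕ) → S.K)
    (hf : ∀ N, VP S W n (C.erase c) N → f N = F (S.mo N))
    (hf' : ∀ N, ¬ VP S W n (C.erase c) N → f N = 0) :
    ∑ v, S.a v c * f (Finsupp.single v 1 + M) = F (S.th c * S.mo M) := by
  rw [th_apply]
  refine Finset.sum_congr rfl fun v _ => ?_
  by_cases hv : c ∈ S.car v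
  · by_cases hs : (Finsupp.single v 1 + M).support ∈ S.fcs W
    · rw [hf]
      refine ⟨(Finset.erase_subset c C).trans hV.sub, hs, ?_, ?_⟩
      · intro e he
        rw [supp_single_add, cr_insert, Finset.mem_union]
        rw [Finset.mem_sdiff, Finset.mem_erase] at he
        by_cases hec : e = c
        · left
          rw [hec]
          exact hv
        · right
          exact hV.cov (Finset.mem_sdiff.2 ⟨he.1, fun h => he.2 ⟨hec, h⟩⟩)
      · rw [deg_single_add, Finset.card_erase_of_mem hc]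
        have h1 := hV.deg
        have h2 := Finset.card_pos.2 ⟨c, hc⟩
        omega
    · rw [hf' _ fun h => hs h.fcs, hF _ (by rw [deg_single_add, hm]) hs]
  · rw [S.a_zero hv, zero_mul, zero_mul]

/-- The cochain of one colour of a family of linear forms. -/
noncomputable def co1 (S : Sub X Ω) (W : Finset Ω) (n : ℕ) (R : Ω → S.T →ₗ[S.K] S.K)
    (C : Finset Ω) (M : X →₀ ℕ) : S.K :=
  open Classical in if VP S W n C M ∧ C.card = 1 then ∑ c ∈ C, R c (S.mo M) else 0

omit [Fintype X] [Fintype Ω] in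
theorem co1_one {n : ℕ} {R : Ω → S.T →ₗ[S.K] S.K} {c : Ω} {M : X →₀ ℕ}
    (hV : VP S W n {c} M) : co1 S W n R {c} M = R c (S.mo M) := by
  rw [co1, if_pos ⟨hV, Finset.card_singleton c⟩, Finset.sum_singleton]

omit [Fintype X] [Fintype Ω] in
theorem co1_non {n : ℕ} {R : Ω → S.T →ₗ[S.K] S.K} {C : Finset Ω} {M : X →₀ ℕ}
    (hV : ¬ (VP S W n C M ∧ C.card = 1)) : co1 S W n R C M = 0 := by
  rw [co1, if_neg hV]

theorem dl_co1 {n : ℕ} {R : Ω → S.T →ₗ[S.K] S.K} (hR : ∀ c ∈ W, Nf S W n (R c))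
    (hc2 : ∀ c ∈ W, ∀ c' ∈ W, c ≠ c' → ∀ M : X →₀ ℕ, VP S W (n + 1) {c, c'} M →
      R c (S.th c' * S.mo M) = R c' (S.th c * S.mo M))
    {C : Finset Ω} {M : X →₀ ℕ} (hV : VP S W (n + 1) C M) :
    dl S (co1 S W (n + 1) R) C M = 0 := by
  by_cases h2 : C.card = 2
  · obtain ⟨c, c', hcc, rfl⟩ := Finset.card_eq_two.1 h2
    have hc : c ∈ W := hV.sub (Finset.mem_insert_self _ _)
    have hc' : c' ∈ W := hV.sub (Finset.mem_insert_of_mem (Finset.mem_singleton_self _))
    have hd : M.degree + 1 = n := by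
      have h3 := hV.deg
      rw [h2] at h3
      omega
    have he1 : ({c, c'} : Finset Ω).erase c = {c'} :=
      Finset.erase_insert (by rwa [Finset.mem_singleton])
    have he2 : ({c, c'} : Finset Ω).erase c' = {c} := by
      rw [Finset.pair_comm]
      exact Finset.erase_insert (by rwa [Finset.mem_singleton, eq_comm])
    unfold dl
    rw [Finset.sum_pair hcc]
    rw [sum_th (hR c' hc') (Finset.mem_insert_self c {c'}) hV hd _
      (fun N hN => by rw [he1] at hN ⊢; exact co1_one hN)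
      (fun N hN => by exact co1_non fun h => hN h.1),
      sum_th (hR c hc) (Finset.mem_insert_of_mem (Finset.mem_singleton_self c')) hV hd _
      (fun N hN => by rw [he2] at hN ⊢; exact co1_one hN)
      (fun N hN => by exact co1_non fun h => hN h.1), hc2 c hc c' hc' hcc M hV, two_zero]
  · unfold dl
    refine Finset.sum_eq_zero fun c hc => Finset.sum_eq_zero fun v _ => ?_
    rw [co1_non, mul_zero]
    rintro ⟨-, h3⟩
    rw [Finset.card_erase_of_mem hc] at h3
    have h4 := Finset.card_pos.2 ⟨c, hc⟩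
    omega

theorem sp1_exists (hT : S.Top S.K) (hS : SplitP S) {k : ℕ} (hk : W.card = k + 4)
    {A : S.T →ₗ[S.K] S.K} (hA : Inp S W A) :
    ∃ (al : X → S.T →ₗ[S.K] S.K) (ρ : X → Ω → S.T →ₗ[S.K] S.K), Sp1 S W k A al ρ := by
  have hA0 : Nf S W (k + 2) A := fun M hM h => hA.face M (by omega) h
  have hR : ∀ c ∈ W, Nf S W (k + 1) (ml A (S.th c)) := fun c _ M hM h => hA0.th_mo c hM h
  set r := co1 S W (k + 2) (fun c => ml A (S.th c)) with hr
  obtain ⟨r', h1, h2, h3⟩ := hS W (k + 2) (by omega) univ r (fun _ _ _ => 0) (by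
    intro C M hne
    have hV : VP S W (k + 2) C M ∧ C.card = 1 := by
      by_contra hcon
      exact hne (co1_non hcon)
    obtain ⟨c, rfl⟩ := Finset.card_eq_one.1 hV.2
    refine ⟨hV.1, ?_⟩
    by_contra hcon
    push Not at hcon
    have h4 := hV.1.deg
    rw [Finset.card_singleton] at h4
    refine hne ?_
    rw [hr, co1_one hV.1]
    refine hA.th c (hV.1.sub (Finset.mem_singleton_self c)) M (by omega) hV.1.fcs ?_
      fun w => hcon w (Finset.mem_univ w)
    rw [Finset.erase_eq]
    exact hV.1.cov)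
    (fun _ _ _ _ h => absurd rfl h) (by
    intro _ _ C M _
    unfold dl
    exact Finset.sum_eq_zero fun c _ => Finset.sum_eq_zero fun v _ => mul_zero _) (by
    intro C M hV
    rw [Finset.sum_const_zero]
    refine dl_co1 hR (fun c _ c' _ _ M _ => ?_) hV
    rw [ml_apply, ml_apply, ← mul_assoc, ← mul_assoc, mul_comm (S.th c)])
  have h4 : ∀ w c M, lfm S (fun N => r' w {c} N) (S.mo M) = r' w {c} M := fun w c M => lfm_mo _ M
  have h5 : ∀ w, ∀ c ∈ W, ∀ c' ∈ W, c ≠ c' → ∀ z ∈ S.J W ((W.erase c).erase c'), z ∈ S.H k →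
      lfm S (fun N => r' w {c} N) (S.th c' * z) = lfm S (fun N => r' w {c'} N) (S.th c * z) := by
    intro w c hc c' hc' hcc z hz hzk
    refine form_eq (F := ml (lfm S (fun N => r' w {c} N)) (S.th c'))
      (G := ml (lfm S (fun N => r' w {c'} N)) (S.th c)) fun M hM => ?_
    rw [ml_apply, ml_apply, th_apply, th_apply]
    simp only [h4]
    by_cases hf : M.support ∈ S.fcs W
    · have hV : VP S W (k + 2) {c, c'} M := by
        refine ⟨Finset.insert_subset hc (Finset.singleton_subset_iff.2 hc'), hf, ?_, ?_⟩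
        · intro e he
          rw [Finset.mem_sdiff, Finset.mem_insert, Finset.mem_singleton] at he
          push Not at he
          exact S.mem_J.1 hz M hM hf (Finset.mem_erase.2 ⟨he.2.2, Finset.mem_erase.2
            ⟨he.2.1, he.1⟩⟩)
        · rw [Finset.card_pair hcc, deg_of_H hzk hM]
      have h6 := h2 w (Finset.mem_univ w) {c, c'} M hV
      unfold dl at h6
      rw [Finset.sum_pair hcc, Finset.erase_insert (by rwa [Finset.mem_singleton]),
        Finset.pair_comm, Finset.erase_insert (by rwa [Finset.mem_singleton, eq_comm])] at h6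
      exact (eq_of_add_zero h6).symm
    · have h6 : ∀ (e : Ω) (v : X), r' w {e} (Finsupp.single v 1 + M) = 0 := by
        intro e v
        by_contra hcon
        exact nface_add hf v (h1 w (Finset.mem_univ w) _ _ hcon).1.fcs
      simp only [h6, mul_zero]
  choose al hal1 hal2 using fun w => kos hT (subset_refl W) (n := k + 1)
    (fun c => lfm S (fun N => r' w {c} N)) (fun c _ y hy _ => form_zero fun M hM => by
      rw [h4]
      by_contra hcon
      exact S.mem_I.1 hy M hM (h1 w (Finset.mem_univ w) _ _ hcon).1.fcs)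
    (fun c hc c' hc' hcc k' hk' z hz hzk => by
      have hkk : k' = k := by omega
      subst hkk
      exact h5 w c hc c' hc' hcc z hz hzk)
  refine ⟨al, fun w c => lfm S (fun N => r' w {c} N), ?_, ?_, ?_, h5, ?_⟩
  · intro w M hM h
    exact hal1 w _ (mo_I h) (by rw [← hM]; exact mo_H M)
  · intro w c M hne
    rw [h4] at hne
    exact h1 w (Finset.mem_univ w) _ _ hne
  · exact fun w c hc y hy hyn => hal2 w c hc y hy hyn
  · intro c hc y hy hyn
    have h6 : A (S.th c * y) = (∑ w, lfm S (fun N => r' w {c} N)) y := by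
      refine form_eq (F := ml A (S.th c)) fun M hM => ?_
      rw [LinearMap.sum_apply]
      simp only [h4]
      by_cases hf : M.support ∈ S.fcs W
      · have hV : VP S W (k + 2) {c} M := by
          refine ⟨Finset.singleton_subset_iff.2 hc, hf, ?_, ?_⟩
          · rw [← Finset.erase_eq]
            exact S.mem_J.1 hy M hM hf
          · rw [Finset.card_singleton, deg_of_H hyn hM]
        rw [← h3 {c} M, hr, co1_one hV]
      · rw [hR c hc M (deg_of_H hyn hM) hf]
        refine (Finset.sum_eq_zero fun w _ => ?_).symm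
        by_contra hcon
        exact hf (h1 w (Finset.mem_univ w) _ _ hcon).1.fcs
    rw [h6, LinearMap.sum_apply]

end Pool.Agent.LH4
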