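import Pool.Agent.LH4.As2

/-!
# The second splitting: the values at `λ M`; the elements `g_w`, `h`
-/

set_option autoImplicit false

open Finset

namespace Pool.Agent.LH4

open Pool.Agent.LocH

variable {X Ω : Type} [Fintype X] [DecidableEq X] [Fintype Ω] [DecidableEq Ω] {S : Sub X Ω}
  {W : Finset Ω}

/-- The pieces of the linear form `A`. -/
structure Spl (S : Sub X Ω) (W : Finset Ω) (A : S.T →ₗ[S.K] S.K)
    (al s : X → S.T →ₗ[S.K] S.K) (g : X → S.T) (h : S.T) : Prop where
  face : ∀ w, ∀ M : X →₀ ℕ, M.degree + 2 = W.card → M.support ∉ S.fcs W → al w (S.mo M) = 0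
  th : ∀ w, ∀ c ∈ W, ∀ M : X →₀ ℕ, M.degree + 3 = W.card → W.erase c ⊆ S.cr M.support →
    ¬ Ty S w {c} M → al w (S.th c * S.mo M) = 0
  sI : ∀ w, ∀ M : X →₀ ℕ, M.support ∉ S.fcs W → s w (S.mo M) = 0
  s0 : ∀ w, ∀ M : X →₀ ℕ, ¬ Ty S w ∅ M → s w (S.mo M) = 0
  gJ : ∀ w, g w ∈ S.J W W
  gH : ∀ w, g w ∈ S.H 3
  hJ : h ∈ S.J W W
  hH : h ∈ S.H 2
  gg : ∀ w, ∀ y ∈ S.J W W, y ∈ S.H (W.card - 3) →
    S.Tr W (g w * y) = s w y + al w (S.lam W * y)
  hh : ∀ y ∈ S.J W W, y ∈ S.H (W.card - 2) → S.Tr W (h * y) = A y + ∑ w, al w y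
  gs : ∀ y ∈ S.J W W, y ∈ S.H (W.card - 3) →
    ∑ w, S.Tr W (g w * y) = S.Tr W (h * (S.lam W * y))

/-- The cochain without colours of a linear form. -/
noncomputable def co0 (S : Sub X Ω) (W : Finset Ω) (n : ℕ) (R : S.T →ₗ[S.K] S.K)
    (C : Finset Ω) (M : X →₀ ℕ) : S.K :=
  open Classical in if VP S W n C M ∧ C = ∅ then R (S.mo M) else 0

omit [Fintype X] [Fintype Ω] in
theorem co0_one {n : ℕ} {R : S.T →ₗ[S.K] S.K} {M : X →₀ ℕ}
    (hV : VP S W n ∅ M) : co0 S W n R ∅ M = R (S.mo M) := by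
  rw [co0, if_pos ⟨hV, rfl⟩]

omit [Fintype X] [Fintype Ω] in
theorem co0_non {n : ℕ} {R : S.T →ₗ[S.K] S.K} {C : Finset Ω} {M : X →₀ ℕ}
    (hV : ¬ (VP S W n C M ∧ C = ∅)) : co0 S W n R C M = 0 := by
  rw [co0, if_neg hV]

/-- A coloured relation of a monomial in the interior ideal up to one colour. -/
theorem mo_J_of_VP {n : ℕ} {c : Ω} {M : X →₀ ℕ} (hV : VP S W n {c} M) :
    S.mo M ∈ S.J W (W.erase c) := by
  refine mo_J fun _ => ?_
  rw [Finset.erase_eq]
  exact hV.cov

theorem spl_exists (hT : S.Top S.K) (hS : SplitP S) {k : ℕ} (hk : W.card = k + 4)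
    {A : S.T →ₗ[S.K] S.K} (hA : Inp S W A) :
    ∃ (al s : X → S.T →ₗ[S.K] S.K) (g : X → S.T) (h : S.T), Spl S W A al s g h := by
  obtain ⟨al, ρ, h1⟩ := sp1_exists hT hS hk hA
  have hA0 : Nf S W (k + 2) A := fun M hM h => hA.face M (by omega) h
  have hA1 : Nf S W (k + 1) (ml A (S.lam W)) := fun M hM h => hA0.lam_mo hM h
  have hρ0 : ∀ w c, Nf S W (k + 1) (ρ w c) := fun w c M hM h => by
    by_contra hcon
    exact h (h1.ty w c M hcon).1.fcs
  have hρ1 : ∀ w, ∀ c ∈ W, Nf S W k (ml (ρ w c) (S.lam W)) :=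
    fun w c _ M hM h => (hρ0 w c).lam_mo hM h
  have e1 : W.card - 3 = k + 1 := by omega
  have e2 : W.card - 2 = k + 2 := by omega
  set r := co0 S W (k + 1) (ml A (S.lam W)) with hr
  set q : X → Finset Ω → (X →₀ ℕ) → S.K :=
    fun w => co1 S W (k + 1) (fun c => ml (ρ w c) (S.lam W)) with hq
  obtain ⟨s', h2, h3, h4⟩ := hS W (k + 1) (by omega) univ r q (by
    intro C M hne
    have hV : VP S W (k + 1) C M ∧ C = ∅ := by
      by_contra hcon
      exact hne (co0_non hcon)
    obtain ⟨hV, rfl⟩ := hV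
    refine ⟨hV, ?_⟩
    by_contra hcon
    push Not at hcon
    refine hne ?_
    rw [hr, co0_one hV]
    have h5 := hV.deg
    rw [Finset.card_empty] at h5
    refine hA.lam M (by omega) hV.fcs ?_ fun w => hcon w (Finset.mem_univ w)
    have h6 := hV.cov
    rwa [Finset.sdiff_empty] at h6) (by
    intro w _ C M hne
    have hV : VP S W (k + 1) C M ∧ C.card = 1 := by
      by_contra hcon
      exact hne (co1_non hcon)
    obtain ⟨c, rfl⟩ := Finset.card_eq_one.1 hV.2
    refine ⟨hV.1, ?_⟩
    rw [hq] at hne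
    dsimp only at hne
    rw [co1_one hV.1, ml_apply, lam_apply] at hne
    obtain ⟨v, -, hv⟩ := Finset.exists_ne_zero_of_sum_ne_zero hne
    obtain ⟨h5, h6⟩ := h1.ty w c _ hv
    refine h6.of_single fun e he => ?_
    rw [Finset.mem_sdiff] at he
    exact hV.1.cov (Finset.mem_sdiff.2 ⟨car_sub_of_mem h5.fcs h6.mem he.1, he.2⟩)) (by
    intro w _ C M hV
    refine dl_co1 (hρ1 w) (fun c hc c' hc' hcc M hV' => ?_) hV
    rw [ml_apply, ml_apply]
    have h5 := hV'.deg
    rw [Finset.card_pair hcc] at h5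
    have h6 : S.mo M ∈ S.J W ((W.erase c).erase c') := by
      refine mo_J fun _ e he => ?_
      rw [Finset.mem_erase, Finset.mem_erase] at he
      refine hV'.cov (Finset.mem_sdiff.2 ⟨he.2.2, ?_⟩)
      rw [Finset.mem_insert, Finset.mem_singleton]
      push Not
      exact ⟨he.2.1, he.1⟩
    have h7 := h1.com w c hc c' hc' hcc (S.lam W * S.mo M) (S.mul_J h6 _) (by
      have h8 : k = M.degree + 1 := by omega
      rw [h8]
      exact lam_H' W (mo_H M))
    rw [mul_left_comm (S.lam W), mul_left_comm (S.lam W)]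
    exact h7) (by
    intro C M hV
    by_cases hC1 : C.card = 1
    · obtain ⟨c, rfl⟩ := Finset.card_eq_one.1 hC1
      have hc : c ∈ W := hV.sub (Finset.mem_singleton_self c)
      have h5 := hV.deg
      rw [Finset.card_singleton] at h5
      have he : ({c} : Finset Ω).erase c = ∅ := Finset.erase_singleton c
      unfold dl
      rw [Finset.sum_singleton, sum_th hA1 (Finset.mem_singleton_self c) hV (by omega) _
        (fun N hN => by rw [he] at hN ⊢; exact co0_one hN)
        (fun N hN => co0_non fun h => hN h.1), ml_apply, mul_left_comm,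
        h1.tot c hc _ (S.mul_J (mo_J_of_VP hV) _) (by
          have h8 : k = M.degree := by omega
          rw [h8]
          exact lam_H' W (mo_H M))]
      refine Finset.sum_congr rfl fun w _ => ?_
      rw [hq]
      dsimp only
      rw [co1_one hV, ml_apply]
    · rw [Finset.sum_eq_zero fun w _ => co1_non fun h => hC1 h.2]
      unfold dl
      refine Finset.sum_eq_zero fun c hc => Finset.sum_eq_zero fun v _ => ?_
      rw [hr, co0_non, mul_zero]
      rintro ⟨-, h5⟩
      have h6 := Finset.card_erase_of_mem hc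
      rw [h5, Finset.card_empty] at h6
      have h7 := Finset.card_pos.2 ⟨c, hc⟩
      omega)
  set s : X → S.T →ₗ[S.K] S.K := fun w => lfm S (fun N => s' w ∅ N) with hs
  have h5 : ∀ w M, s w (S.mo M) = s' w ∅ M := fun w M => lfm_mo _ M
  have h6 : ∀ w M, s w (S.mo M) ≠ 0 → VP S W (k + 1) ∅ M ∧ Ty S w ∅ M := fun w M h => by
    rw [h5] at h
    exact h2 w (Finset.mem_univ w) _ _ h
  have h7 : ∀ w, Kil S W (k + 1) (s w + ml (al w) (S.lam W)) := by
    refine fun w => ⟨fun y hy hyn => ?_, fun c hc j hj y hy hyn => ?_⟩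
    · rw [LinearMap.add_apply, ml_apply, (h1.nf w).I (S.mul_I hy _) (lam_H' W hyn), add_zero]
      refine form_zero fun M hM => ?_
      by_contra hcon
      exact S.mem_I.1 hy M hM (h6 w M hcon).1.fcs
    · have hjk : j = k := by omega
      subst hjk
      have h8 : ml (s w) (S.th c) y = ml (ρ w c) (S.lam W) y := by
        refine form_eq fun M hM => ?_
        by_cases hf : M.support ∈ S.fcs W
        · have hV : VP S W (j + 1) {c} M := by
            refine ⟨Finset.singleton_subset_iff.2 hc, hf, ?_, ?_⟩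
            · rw [← Finset.erase_eq]
              exact S.mem_J.1 hy M hM hf
            · rw [Finset.card_singleton, deg_of_H hyn hM]
          have h9 := h3 w (Finset.mem_univ w) {c} M hV
          rw [hq] at h9
          dsimp only at h9
          rw [co1_one hV] at h9
          rw [← h9, ml_apply, th_apply]
          unfold dl
          rw [Finset.sum_singleton, Finset.erase_singleton]
          exact Finset.sum_congr rfl fun v _ => by rw [h5]
        · rw [hρ1 w c hc M (deg_of_H hyn hM) hf, ml_apply, th_apply]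
          refine Finset.sum_eq_zero fun v _ => ?_
          have h9 : s w (S.mo (Finsupp.single v 1 + M)) = 0 := by
            by_contra hcon
            exact nface_add hf v (h6 w _ hcon).1.fcs
          rw [h9, mul_zero]
      rw [ml_apply, ml_apply] at h8
      rw [LinearMap.add_apply, ml_apply, h8, mul_left_comm,
        h1.th w c hc _ (S.mul_J hy _) (lam_H' W hyn), two_zero]
  have h8 : Kil S W (k + 2) (A + ∑ w, al w) := by
    refine ⟨fun y hy hyn => ?_, fun c hc j hj y hy hyn => ?_⟩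
    · rw [LinearMap.add_apply, LinearMap.sum_apply, hA0.I hy hyn, zero_add]
      exact Finset.sum_eq_zero fun w _ => (h1.nf w).I hy hyn
    · have hjk : j = k + 1 := by omega
      subst hjk
      rw [LinearMap.add_apply, LinearMap.sum_apply, h1.tot c hc y hy hyn,
        Finset.sum_congr rfl fun w _ => h1.th w c hc y hy hyn, two_zero]
  choose g hg1 hg2 hg3 using fun w => rep hT (show k + 1 + 3 = W.card by omega) (h7 w)
  obtain ⟨h, hh1, hh2, hh3⟩ := rep hT (show k + 2 + 2 = W.card by omega) h8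
  have h9 : ∀ y ∈ S.J W W, y ∈ S.H (k + 1) → ∑ w, s w y = A (S.lam W * y) := by
    intro y hy hyn
    rw [← LinearMap.sum_apply, ← ml_apply]
    refine form_eq fun M hM => ?_
    rw [LinearMap.sum_apply]
    by_cases hf : M.support ∈ S.fcs W
    · have hV : VP S W (k + 1) ∅ M := by
        refine ⟨Finset.empty_subset _, hf, ?_, ?_⟩
        · rw [Finset.sdiff_empty]
          exact S.mem_J.1 hy M hM hf
        · rw [Finset.card_empty, deg_of_H hyn hM, add_zero]
      have h10 := h4 ∅ M
      rw [hr, co0_one hV] at h10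
      rw [h10]
      exact Finset.sum_congr rfl fun w _ => h5 w M
    · rw [hA1 M (deg_of_H hyn hM) hf]
      refine Finset.sum_eq_zero fun w _ => ?_
      by_contra hcon
      exact hf (h6 w M hcon).1.fcs
  refine ⟨al, s, g, h, ?_, ?_, ?_, ?_, hg1, hg2, hh1, hh2, ?_, ?_, ?_⟩
  · exact fun w M hM hf => h1.nf w M (by omega) hf
  · intro w c hc M hM hcov hty
    by_cases hf : M.support ∈ S.fcs W
    · rw [h1.th w c hc (S.mo M) (mo_J fun _ => hcov) (by
        have h10 : k + 1 = M.degree := by omega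
        rw [h10]
        exact mo_H M)]
      by_contra hcon
      exact hty (h1.ty w c M hcon).2
    · exact (h1.nf w).th_mo c (by omega) hf
  · intro w M hf
    by_contra hcon
    exact hf (h6 w M hcon).1.fcs
  · intro w M hty
    by_contra hcon
    exact hty (h6 w M hcon).2
  · intro w y hy hyn
    rw [e1] at hyn
    rw [← hg3 w y hy hyn, LinearMap.add_apply, ml_apply]
  · intro y hy hyn
    rw [e2] at hyn
    rw [← hh3 y hy hyn, LinearMap.add_apply, LinearMap.sum_apply]
  · intro y hy hyn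
    rw [e1] at hyn
    rw [← hh3 _ (S.mul_J hy _) (lam_H' W hyn), LinearMap.add_apply, LinearMap.sum_apply,
      ← h9 y hy hyn, ← Finset.sum_add_distrib]
    refine Finset.sum_congr rfl fun w _ => ?_
    rw [← hg3 w y hy hyn, LinearMap.add_apply, ml_apply]

end Pool.Agent.LH4
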