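import Pool.Agent.LH4.Vgf1
import Pool.Agent.LocH.PP
import Pool.Agent.LocH.Res

/-!
# The square functional of the trace is the trace

`sqW_fun`: the square functional as a sum over all functions.
`int_zero`: a linear form on monomials of degree `n` which kills the relations, the nonfaces and the
squarefree interior monomials is zero at the interior monomials.
`tr_sq`: in degree `|W|` the square functional of the trace is the trace.
`p5`: the version with a factor.
-/

set_option autoImplicit false

open Finset

namespace Pool.Agent.LH4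

section fun_

variable {X Ω K : Type} [Fintype X] [Field K] (a : X → Ω → K)

/-- The linear form `N ↦ (rt α N) ^ 2`. -/
noncomputable def rho (α : (X →₀ ℕ) → K) : MvPolynomial X K →ₗ[K] K :=
  (MvPolynomial.basisMonomials X K).constr K fun N => rt α N ^ 2

theorem rho_mon (α : (X →₀ ℕ) → K) (N : X →₀ ℕ) :
    rho α (MvPolynomial.monomial N 1) = rt α N ^ 2 := by
  have h := (MvPolynomial.basisMonomials X K).constr_basis K (fun N => rt α N ^ 2) N
  rw [MvPolynomial.coe_basisMonomials] at h
  exact h

theorem sq_rho (l : List Ω) (α : (X →₀ ℕ) → K) (s : X →₀ ℕ) :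
    sq a l α s = rho α ((l.map fun c => lf fun v => a v c).prod * MvPolynomial.monomial s 1) := by
  induction l generalizing s with
  | nil => rw [List.map_nil, List.prod_nil, one_mul, rho_mon, sq_nil]
  | cons c l ih =>
    rw [sq_cons, List.map_cons, List.prod_cons]
    have h1 : (lf fun v => a v c) * (l.map fun c => lf fun v => a v c).prod *
        MvPolynomial.monomial s 1 = (l.map fun c => lf fun v => a v c).prod *
          ((lf fun v => a v c) * MvPolynomial.monomial s 1) := by ring
    rw [h1]
    have h2 := lf_mul_mon (rho α ∘ₗ LinearMap.mulLeft K (l.map fun c => lf fun v => a v c).prod)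
      (fun v => a v c) s
    rw [comp_mul] at h2
    rw [h2]
    refine Finset.sum_congr rfl fun v _ => ?_
    rw [ih]
    rfl

/-- The square functional as a sum over all functions. -/
theorem sqW_fun [DecidableEq Ω] (W : Finset Ω) (α : (X →₀ ℕ) → K) (s : X →₀ ℕ) :
    sqW a W α s = ∑ I : {c // c ∈ W} → X, (∏ c, a (I c) c) *
      rt α (∑ c, Finsupp.single (I c) 1 + s) ^ 2 := by
  rw [sqW, sq_rho, Finset.prod_map_toList, ← Finset.prod_coe_sort W]
  simp only [lf]
  rw [Finset.prod_univ_sum, Fintype.piFinset_univ, Finset.sum_mul, map_sum]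
  refine Finset.sum_congr rfl fun I _ => ?_
  have h1 : ∏ c : {c // c ∈ W}, (MvPolynomial.C (a (I c) c) * MvPolynomial.X (I c) :
      MvPolynomial X K) = MvPolynomial.C (∏ c, a (I c) c) *
        MvPolynomial.monomial (∑ c, Finsupp.single (I c) 1) 1 := by
    rw [Finset.prod_mul_distrib, map_prod, MvPolynomial.monomial_sum_one]
    rfl
  rw [h1, mul_assoc, MvPolynomial.monomial_mul, mul_one, ← MvPolynomial.smul_eq_C_mul, map_smul,
    rho_mon, smul_eq_mul]

end fun_

open Pool.Agent.LocH

variable {X Ω : Type} [Fintype X] [DecidableEq X] [Fintype Ω] [DecidableEq Ω] {S : Sub X Ω}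
  {W : Finset Ω}

/-- The squarefree monomial of a set of vertices. -/
noncomputable def chi (F : Finset X) : X →₀ ℕ := ∑ v ∈ F, Finsupp.single v 1

omit [Fintype X] in
theorem chi_apply (F : Finset X) (v : X) : chi F v = if v ∈ F then 1 else 0 := by
  rw [chi, Finsupp.finsetSum_apply]
  simp [Finsupp.single_apply]

omit [Fintype X] in
theorem chi_supp (F : Finset X) : (chi F).support = F := by
  ext v
  rw [Finsupp.mem_support_iff, chi_apply]
  simp

omit [Fintype X] [DecidableEq X] in
theorem chi_degree (F : Finset X) : (chi F).degree = F.card := by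
  rw [chi, map_sum]
  simp

omit [Fintype X] [Fintype Ω] in
theorem mo_chi (F : Finset X) : S.mo (chi F) = ∏ v ∈ F, MvPolynomial.X v := by
  rw [Sub.mo, chi, MvPolynomial.monomial_sum_one]
  rfl

/-- The square functional at the monomial of a facet. -/
theorem sqW_chi {F : Finset X} (hF : F ∈ S.fac W) (α : (X →₀ ℕ) → S.K) :
    sqW S.a W α (chi F) = S.dA F * α (chi F) ^ 2 := by
  classical
  obtain ⟨h1, h2, h3⟩ := S.mem_fac.1 hF
  subst h2
  rw [sqW_fun, Sub.dA, Finset.sum_mul]
  symm
  refine Finset.sum_of_injOn (fun g : {v // v ∈ F} ≃ {c // c ∈ S.cr F} => fun c => (g.symm c : X))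
    ?_ (fun _ _ => Finset.mem_coe.2 (Finset.mem_univ _)) ?_ ?_
  · intro g _ g' _ h
    have h4 : g.symm = g'.symm := by
      ext c
      exact congrFun h c
    rw [← g.symm_symm, h4, g'.symm_symm]
  · intro I _ hI
    by_cases hr : ∃ n : X →₀ ℕ, ∑ c, Finsupp.single (I c) 1 + chi F = 2 • n
    · exfalso
      obtain ⟨n, hn⟩ := hr
      have hv : ∀ v, (univ.filter fun c => I c = v).card + chi F v = 2 * n v := by
        intro v
        have h5 := DFunLike.congr_fun hn v
        rw [Finsupp.add_apply, Finsupp.finsetSum_apply, Finsupp.smul_apply, smul_eq_mul] at h5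
        rw [← h5, Finset.card_filter]
        congr 1
        refine Finset.sum_congr rfl fun c _ => ?_
        rw [Finsupp.single_apply]
      have hpos : ∀ v ∈ F, 1 ≤ (univ.filter fun c => I c = v).card := by
        intro v hvF
        have h5 := hv v
        rw [chi_apply, if_pos hvF] at h5
        omega
      have hsum : ∑ v, (univ.filter fun c => I c = v).card = F.card := by
        rw [← Finset.card_eq_sum_card_fiberwise (f := I) (t := univ)
          (fun _ _ => Finset.mem_coe.2 (Finset.mem_univ _)), Finset.card_univ, Fintype.card_coe, h3]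
      have hF' : ∑ v ∈ F, (univ.filter fun c => I c = v).card ≤ F.card := by
        rw [← hsum]
        exact Finset.sum_le_sum_of_subset (Finset.subset_univ F)
      have hone : ∀ v ∈ F, (univ.filter fun c => I c = v).card = 1 := by
        have h5 : ∑ v ∈ F, 1 = ∑ v ∈ F, (univ.filter fun c => I c = v).card := by
          refine le_antisymm (Finset.sum_le_sum hpos) ?_
          rw [← Finset.card_eq_sum_ones]
          exact hF'
        intro v hvF
        exact ((Finset.sum_eq_sum_iff_of_le hpos).1 h5 v hvF).symm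
      have hmem : ∀ c, I c ∈ F := by
        intro c
        by_contra hc
        have h5 : ∑ v ∈ insert (I c) F, (univ.filter fun c => I c = v).card ≤ F.card := by
          rw [← hsum]
          exact Finset.sum_le_sum_of_subset (Finset.subset_univ _)
        rw [Finset.sum_insert hc, Finset.sum_congr rfl hone, ← Finset.card_eq_sum_ones] at h5
        have h6 : 0 < (univ.filter fun c' => I c' = I c).card :=
          Finset.card_pos.2 ⟨c, Finset.mem_filter.2 ⟨Finset.mem_univ _, rfl⟩⟩
        omega
      have hinj : Function.Injective I := by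
        intro c c' hcc
        obtain ⟨d, hd⟩ := Finset.card_eq_one.1 (hone (I c) (hmem c))
        have h5 : c ∈ univ.filter fun d => I d = I c :=
          Finset.mem_filter.2 ⟨Finset.mem_univ _, rfl⟩
        have h6 : c' ∈ univ.filter fun d => I d = I c :=
          Finset.mem_filter.2 ⟨Finset.mem_univ _, hcc.symm⟩
        rw [hd, Finset.mem_singleton] at h5 h6
        rw [h5, h6]
      let J : {c // c ∈ S.cr F} → {v // v ∈ F} := fun c => ⟨I c, hmem c⟩
      have hJ : Function.Bijective J := by
        rw [Fintype.bijective_iff_injective_and_card]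
        refine ⟨fun c c' hcc => hinj (congrArg Subtype.val hcc), ?_⟩
        rw [Fintype.card_coe, Fintype.card_coe, h3]
      refine hI ⟨(Equiv.ofBijective J hJ).symm, Finset.mem_coe.2 (Finset.mem_univ _), ?_⟩
      funext c
      rfl
    · push Not at hr
      rw [rt_non hr]
      ring
  · intro g _
    beta_reduce
    have h4 : ∑ c, Finsupp.single ((g.symm c : {v // v ∈ F}) : X) 1 + chi F = 2 • chi F := by
      rw [two_smul]
      congr 1
      rw [chi, Equiv.sum_comp g.symm (fun v : {v // v ∈ F} => Finsupp.single (v : X) 1),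
        Finset.sum_coe_sort F (fun v => Finsupp.single v 1)]
    rw [h4, rt_two]
    congr 1
    rw [← Equiv.prod_comp g.symm]
    refine Finset.prod_congr rfl fun c _ => ?_
    rw [Equiv.apply_symm_apply]

/-- The support of a product with a vertex of the support. -/
theorem supp_single_add_mem {v : X} {s : X →₀ ℕ} (h : v ∈ s.support) :
    (Finsupp.single v 1 + s).support = s.support := by
  rw [supp_single_add, Finset.insert_eq_of_mem h]

theorem deg_supp_eq {z : X →₀ ℕ} (h : ∀ v, z v ≤ 1) : z = chi z.support := by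
  ext v
  rw [chi_apply]
  by_cases h1 : v ∈ z.support
  · rw [if_pos h1]
    have h2 := Finsupp.mem_support_iff.1 h1
    have h3 := h v
    omega
  · rw [if_neg h1]
    exact Finsupp.notMem_support_iff.1 h1

/-- A linear form which kills the nonfaces, the relations `θ_c M`, `M` interior, and the squarefree
interior monomials of degree `n` is zero at the interior monomials. -/
theorem int_zero (hT : S.Top S.K) {n : ℕ} {L : S.T →ₗ[S.K] S.K}
    (h0 : ∀ z : X →₀ ℕ, z.degree = n → z.support ∉ S.fcs W → L (S.mo z) = 0)
    (h1 : ∀ c ∈ W, ∀ M : X →₀ ℕ, M.degree + 1 = n → M.support ∈ S.fcs W → W ⊆ S.cr M.support →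
      L (S.th c * S.mo M) = 0)
    (h2 : ∀ F ∈ S.fcs W, F.card = n → W ⊆ S.cr F → L (S.mo (chi F)) = 0) {z : X →₀ ℕ}
    (hz : z.degree = n) (hi : z.support ∈ S.fcs W → W ⊆ S.cr z.support) : L (S.mo z) = 0 := by
  have key : ∀ k : ℕ, ∀ z : X →₀ ℕ, z.degree = n → (z.support ∈ S.fcs W → W ⊆ S.cr z.support) →
      Fintype.card X - z.support.card = k → L (S.mo z) = 0 := by
    intro k
    induction k using Nat.strong_induction_on with
    | _ k ih =>
      intro z hz hi hk
      by_cases hf : z.support ∈ S.fcs W
      swap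
      · exact h0 z hz hf
      have hW := hi hf
      by_cases hsq : ∃ v, 2 ≤ z v
      swap
      · push Not at hsq
        have h3 := deg_supp_eq (z := z) fun v => by have := hsq v; omega
        rw [h3]
        refine h2 _ hf ?_ hW
        rw [← chi_degree, ← h3, hz]
      obtain ⟨v, hv⟩ := hsq
      obtain ⟨M, rfl⟩ : ∃ M : X →₀ ℕ, z = Finsupp.single v 1 + M := by
        refine ⟨z - Finsupp.single v 1, ?_⟩
        rw [add_tsub_cancel_of_le]
        rw [Finsupp.single_le_iff]
        omega
      have hvM : v ∈ M.support := by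
        rw [Finsupp.add_apply, Finsupp.single_eq_same] at hv
        rw [Finsupp.mem_support_iff]
        omega
      have hs := supp_single_add_mem hvM
      rw [hs] at hf hW hk
      rw [deg_single_add] at hz
      obtain ⟨F, hF, hMF⟩ := Sub.exists_fac hT hf
      have hvF : v ∈ F := hMF hvM
      have h3 : ∑ c ∈ W, S.pt c (S.q F v) * L (S.th c * S.mo M) = 0 :=
        Finset.sum_eq_zero fun c hc => by rw [h1 c hc M hz hf hW, mul_zero]
      have h4 : ∑ c ∈ W, S.pt c (S.q F v) * L (S.th c * S.mo M) =
          ∑ u, (∑ c ∈ W, S.pt c (S.q F v) * S.a u c) * L (S.mo (Finsupp.single u 1 + M)) := by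
        have h5 : ∀ c ∈ W, S.pt c (S.q F v) * L (S.th c * S.mo M) =
            ∑ u, S.pt c (S.q F v) * S.a u c * L (S.mo (Finsupp.single u 1 + M)) := by
          intro c _
          rw [th_mul_mo', map_sum, Finset.mul_sum]
          refine Finset.sum_congr rfl fun u _ => ?_
          rw [map_smul, smul_eq_mul, mul_assoc]
        rw [Finset.sum_congr rfl h5, Finset.sum_comm]
        exact Finset.sum_congr rfl fun u _ => by rw [Finset.sum_mul]
      rw [h4, Finset.sum_eq_single v, S.om_spec hF hvF hvF, if_pos rfl, one_mul] at h3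
      · exact h3
      · intro u _ huv
        by_cases huM : u ∈ M.support
        · rw [S.om_spec hF (hMF huM) hvF, if_neg huv, zero_mul]
        · have h5 : (Finsupp.single u 1 + M).support.card = M.support.card + 1 := by
            rw [supp_single_add, Finset.card_insert_of_notMem huM]
          have h6 : (Finsupp.single u 1 + M).support.card ≤ Fintype.card X :=
            Finset.card_le_univ _
          rw [ih _ (by omega) _ (by rw [deg_single_add, hz]) ?_ rfl, mul_zero]
          intro _
          rw [supp_single_add, cr_insert]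
          exact hW.trans Finset.subset_union_right
      · intro h
        exact absurd (Finset.mem_univ v) h
  exact key _ z hz hi rfl

/-- In degree `|W|` the square functional of the trace is the trace. -/
theorem tr_sq (hT : S.Top S.K) [Nonempty X] {z : X →₀ ℕ} (hz : z.degree = W.card)
    (hi : z.support ∈ S.fcs W → W ⊆ S.cr z.support) :
    sqL S.a W (S.Tr W) (S.mo z) = S.Tr W (S.mo z) := by
  have := S.charP_K
  have hD := drv_sub S
  have key : (sqL S.a W (S.Tr W) + S.Tr W) (S.mo z) = 0 := by
    refine int_zero hT (n := W.card) (W := W) ?_ ?_ ?_ hz hi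
    · intro z _ hz'
      rw [LinearMap.add_apply, S.Tr_I (mo_I hz'), add_zero]
      refine (sqL_mon_zero hD _ z).2 fun N hN => ?_
      refine S.Tr_I (mo_I fun h => hz' ?_)
      have h3 := mem_fcs'.1 h
      exact mem_fcs'.2 ⟨S.down _ h3.1 _ hN.support,
        (Finset.biUnion_subset_biUnion_of_subset_left _ hN.support).trans h3.2⟩
    · intro c hc M hM _ hMW
      have h4 : ∀ M' : X →₀ ℕ, M'.degree + 1 = W.card → W ⊆ S.cr M'.support →
          S.Tr W (S.th c * S.mo M') = 0 := by
        intro M' hM' hW'
        rw [S.Tr_th hc, S.res hT (mo_J fun _ => hW') (mo_H M') (by omega), mul_zero]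
      rw [LinearMap.add_apply, h4 M hM hMW, add_zero]
      have h5 := sqL_th_zero hD hc (S.Tr W) (S.mo M) ?_
      · rw [lf_sub] at h5
        exact h5
      · intro s hs M' hM'
        rw [supp_mo, Finset.mem_singleton] at hs
        subst hs
        rw [lf_sub]
        have h6 := hM'.degree_eq
        rw [Finset.card_erase_of_mem hc] at h6
        refine h4 M' (by omega) ?_
        exact hMW.trans (Finset.biUnion_subset_biUnion_of_subset_left _ hM'.support)
    · intro F hF hFc hFW
      have h7 := mem_fcs'.1 hF
      have h8 : F ∈ S.fac W := S.mem_fac.2 ⟨h7.1, Finset.Subset.antisymm h7.2 hFW, hFc⟩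
      have h9 := sqL_mon (a := S.a) (W := W) (S.Tr W) (chi F)
      rw [LinearMap.add_apply]
      change mon (sqL S.a W (S.Tr W)) (chi F) + _ = 0
      rw [h9, sqW_chi h8]
      change S.dA F * S.Tr W (S.mo (chi F)) ^ 2 + _ = 0
      rw [mo_chi, S.Tr_fac h8]
      have h10 := S.dA_ne h8
      have h11 : S.dA F * (S.dA F)⁻¹ ^ 2 = (S.dA F)⁻¹ := by
        field_simp
      rw [h11]
      exact add_self _
  rw [LinearMap.add_apply] at key
  exact CharTwo.add_eq_zero.1 key

/-- The values of a linear form at the multiples of a polynomial. -/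
theorem form_mul_mo (F : S.T →ₗ[S.K] S.K) (b : S.T) (N : X →₀ ℕ) :
    F (b * S.mo N) = ∑ n ∈ b.support, b.coeff n * F (S.mo (n + N)) := by
  conv_lhs => rw [b.as_sum]
  rw [Finset.sum_mul, map_sum]
  refine Finset.sum_congr rfl fun n _ => ?_
  have h1 : (MvPolynomial.monomial n (b.coeff n) : S.T) * S.mo N =
      b.coeff n • S.mo (n + N) := by
    rw [Sub.mo, Sub.mo, MvPolynomial.monomial_mul, mul_one, MvPolynomial.smul_monomial,
      smul_eq_mul, mul_one]
  rw [h1, map_smul, smul_eq_mul]

theorem form_sq_mo (F : S.T →ₗ[S.K] S.K) (b : S.T) (s : X →₀ ℕ) :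
    F (b ^ 2 * S.mo s) = ∑ n ∈ b.support, b.coeff n ^ 2 * F (S.mo (2 • n + s)) := by
  have := S.charP_K
  have h2 : CharP S.T 2 := inferInstance
  conv_lhs => rw [b.as_sum]
  rw [sum_pow_char 2, Finset.sum_mul, map_sum]
  refine Finset.sum_congr rfl fun n _ => ?_
  have h1 : (MvPolynomial.monomial n (b.coeff n) : S.T) ^ 2 * S.mo s =
      b.coeff n ^ 2 • S.mo (2 • n + s) := by
    rw [MvPolynomial.monomial_pow, Sub.mo, Sub.mo, MvPolynomial.monomial_mul, mul_one,
      MvPolynomial.smul_monomial, smul_eq_mul, mul_one]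
  rw [h1, map_smul, smul_eq_mul]

/-- The square functional of a multiple of the trace at a monomial. -/
theorem p5_mo (hT : S.Top S.K) [Nonempty X] {b : S.T} {s : X →₀ ℕ}
    (h : ∀ n ∈ b.support, (2 • n + s).degree = W.card ∧
      ((2 • n + s).support ∈ S.fcs W → W ⊆ S.cr (2 • n + s).support)) :
    sqL S.a W (S.Tr W ∘ₗ LinearMap.mulLeft S.K b) (S.mo s) = S.Tr W (b ^ 2 * S.mo s) := by
  have := S.charP_K
  have h1 : mon (S.Tr W ∘ₗ LinearMap.mulLeft S.K b) =
      fun N => ∑ n ∈ b.support, b.coeff n * mon (S.Tr W) (n + N) := by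
    funext N
    exact form_mul_mo (S.Tr W) b N
  have h2 := sqL_mon (a := S.a) (W := W) (S.Tr W ∘ₗ LinearMap.mulLeft S.K b) s
  rw [h1, sqW_sum] at h2
  change mon (sqL S.a W (S.Tr W ∘ₗ LinearMap.mulLeft S.K b)) s = _
  rw [h2, form_sq_mo]
  refine Finset.sum_congr rfl fun n hn => ?_
  rw [sqW_smul, ← tr_sq hT (h n hn).1 (h n hn).2]
  congr 1
  change _ = mon (sqL S.a W (S.Tr W)) (2 • n + s)
  rw [sqL_mon]
  exact (sq_mul S.a n W.toList (mon (S.Tr W)) s).symm

/-- The square functional of a multiple of the trace. -/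
theorem p5 (hT : S.Top S.K) [Nonempty X] {b y : S.T}
    (h : ∀ s ∈ y.support, ∀ n ∈ b.support, (2 • n + s).degree = W.card ∧
      ((2 • n + s).support ∈ S.fcs W → W ⊆ S.cr (2 • n + s).support)) :
    sqL S.a W (S.Tr W ∘ₗ LinearMap.mulLeft S.K b) y = S.Tr W (b ^ 2 * y) := by
  have := S.charP_K
  have key : (sqL S.a W (S.Tr W ∘ₗ LinearMap.mulLeft S.K b) +
      S.Tr W ∘ₗ LinearMap.mulLeft S.K (b ^ 2)) y = 0 := by
    refine form_zero fun s hs => ?_
    rw [LinearMap.add_apply, p5_mo hT (h s hs)]
    exact add_self _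
  rw [LinearMap.add_apply] at key
  exact CharTwo.add_eq_zero.1 key

/-- Two linear forms which agree on the `N(s)`, `s` a monomial of `y`, have the same square
functional at `y`. -/
theorem sqL_congr [Nonempty X] {A B : S.T →ₗ[S.K] S.K} {y : S.T}
    (h : ∀ s ∈ y.support, ∀ N, NN S.car W s N → A (S.mo N) = B (S.mo N)) :
    sqL S.a W A y = sqL S.a W B y := by
  have := S.charP_K
  have hD := drv_sub S
  have key : (sqL S.a W A + sqL S.a W B) y = 0 := by
    refine form_zero fun s hs => ?_
    have h1 : (sqL S.a W A + sqL S.a W B) (S.mo s) = sqL S.a W (A + B) (S.mo s) := by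
      rw [LinearMap.add_apply]
      change mon (sqL S.a W A) s + mon (sqL S.a W B) s = mon (sqL S.a W (A + B)) s
      rw [sqL_mon, sqL_mon, sqL_mon, ← sqW_add]
      rfl
    rw [h1]
    refine (sqL_mon_zero hD _ s).2 fun N hN => ?_
    change A (S.mo N) + B (S.mo N) = 0
    rw [h s hs N hN]
    exact add_self _
  rw [LinearMap.add_apply] at key
  exact CharTwo.add_eq_zero.1 key

end Pool.Agent.LH4
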