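import Pool.Agent.LH4.Ty
import Pool.Agent.LocH.GDef
import Pool.Agent.LH4.Sq3

/-!
# The pieces of a linear form, one for each vertex
-/

set_option autoImplicit false

open Finset

namespace Pool.Agent.LH4

open Pool.Agent.LocH

variable {X Ω : Type} [Fintype X] [DecidableEq X] [Fintype Ω] [DecidableEq Ω]

/-- A piece of the vertex `w`: the linear form `al` in degree `|W| - 2` kills the nonfaces and the
relations which are not typed by `w`; `g` represents the sum of `al (lam W * .)` and of `s`, which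
is zero at the monomials not typed by `w`. -/
structure Pce (S : Sub X Ω) (W : Finset Ω) (w : X) (al s : S.T →ₗ[S.K] S.K) (g : S.T) :
    Prop where
  face : ∀ M : X →₀ ℕ, M.degree + 2 = W.card → M.support ∉ S.fcs W → al (S.mo M) = 0
  th : ∀ c ∈ W, ∀ M : X →₀ ℕ, M.degree + 3 = W.card → W.erase c ⊆ S.cr M.support →
    ¬ Ty S w {c} M → al (S.th c * S.mo M) = 0
  s0 : ∀ M : X →₀ ℕ, M.degree + 3 = W.card → (M.support ∈ S.fcs W → W ⊆ S.cr M.support) →
    ¬ Ty S w ∅ M → s (S.mo M) = 0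
  gJ : g ∈ S.J W W
  gH : g ∈ S.H 3
  gTr : ∀ y ∈ S.J W W, y ∈ S.H (W.card - 3) → S.Tr W (g * y) = s y + al (S.lam W * y)

/-- `f (lam y) + al (y g)`, where `f` is the square functional of `al`. -/
noncomputable def ee (S : Sub X Ω) (W : Finset Ω) (al : S.T →ₗ[S.K] S.K) (g : S.T) :
    S.T →ₗ[S.K] S.K :=
  sqL S.a W al ∘ₗ LinearMap.mulLeft S.K (S.lam W) + al ∘ₗ LinearMap.mulLeft S.K g

/-- `al (y g') + al' (y g)`. -/
noncomputable def dd2 (S : Sub X Ω) (al al' : S.T →ₗ[S.K] S.K) (g g' : S.T) :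
    S.T →ₗ[S.K] S.K :=
  al ∘ₗ LinearMap.mulLeft S.K g' + al' ∘ₗ LinearMap.mulLeft S.K g

variable {S : Sub X Ω} {W : Finset Ω}

theorem ee_apply (al : S.T →ₗ[S.K] S.K) (g y : S.T) :
    ee S W al g y = sqL S.a W al (S.lam W * y) + al (g * y) := rfl

theorem dd2_apply (al al' : S.T →ₗ[S.K] S.K) (g g' y : S.T) :
    dd2 S al al' g g' y = al (g' * y) + al' (g * y) := rfl

end Pool.Agent.LH4
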