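import Pool.Agent.LH4.As3
import Pool.Agent.LH4.P5
import Pool.Agent.LH4.Pce

/-!
# The square functional of a linear form and its pieces
-/

set_option autoImplicit false

open Finset

namespace Pool.Agent.LH4

open Pool.Agent.LocH

variable {X Ω : Type} [Fintype X] [DecidableEq X] [Fintype Ω] [DecidableEq Ω] {S : Sub X Ω}
  {W : Finset Ω}

omit [Fintype Ω] in
theorem Spl.pce {A : S.T →ₗ[S.K] S.K} {al s : X → S.T →ₗ[S.K] S.K} {g : X → S.T} {h : S.T}
    (hs : Spl S W A al s g h) (w : X) : Pce S W w (al w) (s w) (g w) :=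
  ⟨hs.face w, hs.th w, fun M _ _ hty => hs.s0 w M hty, hs.gJ w, hs.gH w, hs.gg w⟩

/-- The product of a monomial which covers almost everything and of an interior monomial is untyped. -/
theorem untyped {M z : X →₀ ℕ} (hM : W.card ≤ (S.cr M.support).card + 2)
    (hf : (z + M).support ∈ S.fcs W) {C : Finset Ω} (hz : W \ C ⊆ S.cr z.support) (w : X) :
    ¬ Ty S w C (z + M) := by
  intro h
  have hw : S.car w ⊆ W := car_sub_of_mem hf h.mem
  have hMz : M.support ⊆ (z + M).support := by
    intro v hv
    rw [Finsupp.mem_support_iff] at hv ⊢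
    rw [Finsupp.add_apply]
    omega
  have hMW : S.cr M.support ⊆ W :=
    (Finset.biUnion_subset_biUnion_of_subset_left _ hMz).trans (mem_fcs'.1 hf).2
  by_cases hwM : w ∈ M.support
  · rw [add_comm] at h
    have h1 := h.big_of_le hwM
    have h2 : (S.car w \ S.cr z.support) \ C = ∅ := by
      rw [Finset.sdiff_eq_empty_iff_subset]
      intro c hc
      rw [Finset.mem_sdiff] at hc
      by_contra hcC
      exact hc.2 (hz (Finset.mem_sdiff.2 ⟨hw hc.1, hcC⟩))
    rw [h2, Finset.card_empty] at h1
    omega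
  · have hwz : w ∈ z.support := by
      have h1 := h.mem
      rw [Finsupp.mem_support_iff] at h1 hwM ⊢
      rw [Finsupp.add_apply] at h1
      push Not at hwM
      omega
    have h1 := h.big_of_le hwz
    have h2 : ((S.car w \ S.cr M.support) \ C).card ≤ (W \ S.cr M.support).card :=
      Finset.card_le_card (Finset.sdiff_subset.trans (Finset.sdiff_subset_sdiff hw subset_rfl))
    rw [Finset.card_sdiff_of_subset hMW] at h2
    omega

omit [Fintype X] [Fintype Ω] in
theorem nn_cov {s N : X →₀ ℕ} (h : NN S.car W s N) : W ⊆ S.cr N.support := by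
  obtain ⟨J, hJ, hN⟩ := h
  intro c hc
  refine Finset.mem_biUnion.2 ⟨J c, ?_, hJ c hc⟩
  have h1 := DFunLike.congr_fun hN (J c)
  rw [Finsupp.add_apply, Finsupp.smul_apply, Finsupp.finsetSum_apply, smul_eq_mul] at h1
  have h2 : (Finsupp.single (J c) 1 : X →₀ ℕ) (J c) ≤
      ∑ e ∈ W, (Finsupp.single (J e) 1 : X →₀ ℕ) (J c) :=
    Finset.single_le_sum (f := fun e => (Finsupp.single (J e) 1 : X →₀ ℕ) (J c))
      (fun _ _ => Nat.zero_le _) hc
  rw [Finsupp.single_eq_same] at h2
  rw [Finsupp.mem_support_iff]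
  omega

omit [Fintype X] [Fintype Ω] in
theorem mo_mul (z M : X →₀ ℕ) : S.mo z * S.mo M = S.mo (z + M) := by
  rw [Sub.mo, Sub.mo, Sub.mo, MvPolynomial.monomial_mul, mul_one]

/-- `A` kills the product of a monomial which covers almost everything and the sum of the `g w`. -/
theorem Spl.sum_g (hT : S.Top S.K) {A : S.T →ₗ[S.K] S.K} (hA : Inp S W A)
    {al s : X → S.T →ₗ[S.K] S.K} {g : X → S.T} {h : S.T} (hs : Spl S W A al s g h)
    {M : X →₀ ℕ} (hd : M.degree + 5 = W.card) (hM : W.card ≤ (S.cr M.support).card + 2) :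
    ∑ w, A (g w * S.mo M) = 0 := by
  obtain ⟨k, hk⟩ : ∃ k, W.card = k + 5 := ⟨M.degree, by omega⟩
  have hA0 : Nf S W (k + 3) A := fun N hN hf => hA.face N (by omega) hf
  set D : S.T := ∑ w, g w + S.lam W * h with hDdef
  have hDJ : D ∈ S.J W W :=
    Submodule.add_mem _ (Submodule.sum_mem _ fun w _ => hs.gJ w) (S.mul_J hs.hJ _)
  have hDH : D ∈ S.H 3 :=
    Submodule.add_mem _ (Submodule.sum_mem _ fun w _ => hs.gH w) (lam_H' W hs.hH)
  have hDN : D ∈ S.N W 3 := by
    refine ⟨hDJ, hDH, fun y hy hyn => ?_⟩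
    rw [hDdef, add_mul, map_add, Finset.sum_mul, map_sum, hs.gs y hy hyn]
    have h1 : S.lam W * h * y = h * (S.lam W * y) := by ring
    rw [h1, two_zero]
  have hDB := S.nd hT (Sub.dim hT) (by omega) hDN
  have hF : Kil S W 3 (ml A (S.mo M)) := by
    refine ⟨fun y hy hyn => ?_, fun c hc j hj y hy hyn => ?_⟩
    · rw [ml_apply]
      refine hA0.I (S.mul_I hy _) ?_
      have h1 := S.mul_H (mo_H M) hyn
      have h2 : M.degree + 3 = k + 3 := by omega
      rwa [h2] at h1
    · rw [ml_apply, mul_left_comm, mul_comm (S.mo M)]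
      refine form_zero (F := ml A (S.th c)) (y := y * S.mo M) fun s hs' => ?_
      obtain ⟨z, hz, N, hN, rfl⟩ := Finset.mem_add.1 (MvPolynomial.support_mul y (S.mo M) hs')
      rw [supp_mo, Finset.mem_singleton] at hN
      subst hN
      have hzd := deg_of_H hyn hz
      by_cases hf : (z + N).support ∈ S.fcs W
      · have hzs : z.support ∈ S.fcs W := by
          have h1 := mem_fcs'.1 hf
          have h2 : z.support ⊆ (z + N).support := by
            intro v hv
            rw [Finsupp.mem_support_iff] at hv ⊢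
            rw [Finsupp.add_apply]
            omega
          exact mem_fcs'.2 ⟨S.down _ h1.1 _ h2,
            (Finset.biUnion_subset_biUnion_of_subset_left _ h2).trans h1.2⟩
        have hzc := S.mem_J.1 hy z hz hzs
        refine hA.th c hc (z + N) (by rw [map_add]; omega) hf ?_ fun w => ?_
        · refine hzc.trans (Finset.biUnion_subset_biUnion_of_subset_left _ ?_)
          intro v hv
          rw [Finsupp.mem_support_iff] at hv ⊢
          rw [Finsupp.add_apply]
          omega
        · refine untyped hM hf ?_ w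
          rw [← Finset.erase_eq]
          exact hzc
      · exact hA0.th_mo c (by rw [map_add]; omega) hf
  have h1 := F_zero hT hF hDJ hDH hDB
  rw [ml_apply, hDdef, mul_add, map_add, Finset.mul_sum, map_sum] at h1
  have h2 : A (S.mo M * (S.lam W * h)) = 0 := by
    rw [mul_left_comm, mul_comm (S.mo M)]
    refine form_zero (F := ml A (S.lam W)) (y := h * S.mo M) fun s hs' => ?_
    obtain ⟨z, hz, N, hN, rfl⟩ := Finset.mem_add.1 (MvPolynomial.support_mul h (S.mo M) hs')
    rw [supp_mo, Finset.mem_singleton] at hN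
    subst hN
    have hzd := deg_of_H hs.hH hz
    by_cases hf : (z + N).support ∈ S.fcs W
    · have h3 : z.support ⊆ (z + N).support := by
        intro v hv
        rw [Finsupp.mem_support_iff] at hv ⊢
        rw [Finsupp.add_apply]
        omega
      have hzs : z.support ∈ S.fcs W := by
        have h1 := mem_fcs'.1 hf
        exact mem_fcs'.2 ⟨S.down _ h1.1 _ h3,
          (Finset.biUnion_subset_biUnion_of_subset_left _ h3).trans h1.2⟩
      have hzc := S.mem_J.1 hs.hJ z hz hzs
      refine hA.lam (z + N) (by rw [map_add]; omega) hf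
        (hzc.trans (Finset.biUnion_subset_biUnion_of_subset_left _ h3)) fun w => ?_
      refine untyped hM hf ?_ w
      rw [Finset.sdiff_empty]
      exact hzc
    · exact hA0.lam_mo (by rw [map_add]; omega) hf
  rw [h2, add_zero] at h1
  rw [← h1]
  exact Finset.sum_congr rfl fun w _ => by rw [mul_comm]

theorem sqL_add (A B : S.T →ₗ[S.K] S.K) (y : S.T) :
    sqL S.a W (A + B) y = sqL S.a W A y + sqL S.a W B y := by
  have := S.charP_K
  rw [← LinearMap.add_apply]
  congr 1
  refine ext_mon fun s => ?_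
  have h1 : mon (sqL S.a W A + sqL S.a W B) s = mon (sqL S.a W A) s + mon (sqL S.a W B) s := rfl
  rw [h1, sqL_mon, sqL_mon, sqL_mon, ← sqW_add]
  rfl

theorem sqL_sum (t : Finset X) (A : X → S.T →ₗ[S.K] S.K) (y : S.T) :
    sqL S.a W (∑ w ∈ t, A w) y = ∑ w ∈ t, sqL S.a W (A w) y := by
  have := S.charP_K
  induction t using Finset.induction_on with
  | empty =>
    rw [Finset.sum_empty, Finset.sum_empty]
    refine form_zero fun s _ => ?_
    change mon (sqL S.a W 0) s = 0
    rw [sqL_mon]
    exact sq_zero S.a _ s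
  | insert w t hw ih => rw [Finset.sum_insert hw, Finset.sum_insert hw, sqL_add, ih]

/-- The square functional of `A` at `λ M` is the sum of the contributions of the pieces. -/
theorem Spl.formula (hT : S.Top S.K) [Nonempty X] {A : S.T →ₗ[S.K] S.K} (hA : Inp S W A)
    {al s : X → S.T →ₗ[S.K] S.K} {g : X → S.T} {h : S.T} (hs : Spl S W A al s g h)
    {M : X →₀ ℕ} (hd : M.degree + 5 = W.card) (hM : W.card ≤ (S.cr M.support).card + 2) :
    sqL S.a W A (S.lam W * S.mo M) =
      ∑ w, sqL S.a W (al w) (S.lam W * S.mo M) + ∑ w, ∑ w', al w' (g w * S.mo M) := by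
  have hA0 : Nf S W (W.card - 2) A := fun N hN hf => hA.face N (by omega) hf
  set y : S.T := S.lam W * S.mo M with hy
  have hyH : y ∈ S.H (M.degree + 1) := lam_H' W (mo_H M)
  have h1 : A = (A + ∑ w, al w) + ∑ w, al w := by
    refine LinearMap.ext fun z => ?_
    rw [LinearMap.add_apply, LinearMap.add_apply, add_assoc, two_zero, add_zero]
  have h2 : sqL S.a W (A + ∑ w, al w) y = S.Tr W (h ^ 2 * y) := by
    rw [← p5 hT (b := h) (y := y)]
    · refine sqL_congr fun s' hs' N hN => ?_
      have hdN : N.degree = W.card - 2 := by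
        have h3 := hN.degree_eq
        have h4 := deg_of_H hyH hs'
        omega
      change (A + ∑ w, al w) (S.mo N) = S.Tr W (h * S.mo N)
      by_cases hf : N.support ∈ S.fcs W
      · rw [hs.hh (S.mo N) (mo_J fun _ => nn_cov hN) (by rw [← hdN]; exact mo_H N),
          LinearMap.add_apply, LinearMap.sum_apply]
      · rw [S.Tr_I (S.mul_I (mo_I hf) h), LinearMap.add_apply, LinearMap.sum_apply,
          hA0 N hdN hf, zero_add]
        exact Finset.sum_eq_zero fun w _ => hs.face w N (by omega) hf
    · intro s' hs' n hn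
      have h3 := deg_of_H hyH hs'
      have h4 := deg_of_H hs.hH hn
      refine ⟨?_, fun hf => ?_⟩
      · rw [map_add, map_nsmul, smul_eq_mul, h3, h4]
        omega
      · have h5 : n.support ⊆ (2 • n + s').support := by
          intro v hv
          rw [Finsupp.mem_support_iff] at hv ⊢
          rw [Finsupp.add_apply, Finsupp.smul_apply, smul_eq_mul]
          omega
        have h6 := mem_fcs'.1 hf
        have h7 : n.support ∈ S.fcs W := mem_fcs'.2 ⟨S.down _ h6.1 _ h5,
          (Finset.biUnion_subset_biUnion_of_subset_left _ h5).trans h6.2⟩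
        exact (S.mem_J.1 hs.hJ n hn h7).trans
          (Finset.biUnion_subset_biUnion_of_subset_left _ h5)
  have h3 : S.Tr W (h ^ 2 * y) = ∑ w, ∑ w', al w' (g w * S.mo M) := by
    have h4 : h ^ 2 * y = h * (S.lam W * (h * S.mo M)) := by
      rw [hy]
      ring
    have e1 : W.card - 3 = 2 + M.degree := by omega
    have e2 : W.card - 2 = 3 + M.degree := by omega
    have h5 : h * S.mo M ∈ S.J W W := by
      rw [mul_comm]
      exact S.mul_J hs.hJ _
    rw [h4, ← hs.gs (h * S.mo M) h5 (by rw [e1]; exact S.mul_H hs.hH (mo_H M))]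
    have h6 : ∀ w, S.Tr W (g w * (h * S.mo M)) =
        A (g w * S.mo M) + ∑ w', al w' (g w * S.mo M) := by
      intro w
      have h7 : g w * (h * S.mo M) = h * (g w * S.mo M) := by ring
      have h8 : g w * S.mo M ∈ S.J W W := by
        rw [mul_comm]
        exact S.mul_J (hs.gJ w) _
      rw [h7, hs.hh _ h8 (by rw [e2]; exact S.mul_H (hs.gH w) (mo_H M))]
    rw [Finset.sum_congr rfl fun w _ => h6 w, Finset.sum_add_distrib, hs.sum_g hT hA hd hM,
      zero_add]
  conv_lhs => rw [h1]
  rw [sqL_add, h2, h3, sqL_sum, add_comm]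

/-- The square functional of `A` is zero at `λ M` if the contributions are zero. -/
theorem Spl.zero (hT : S.Top S.K) [Nonempty X] {A : S.T →ₗ[S.K] S.K} (hA : Inp S W A)
    {al s : X → S.T →ₗ[S.K] S.K} {g : X → S.T} {h : S.T} (hs : Spl S W A al s g h)
    {M : X →₀ ℕ} (hd : M.degree + 5 = W.card) (hM : W.card ≤ (S.cr M.support).card + 2)
    (he : ∀ w, ee S W (al w) (g w) (S.mo M) = 0)
    (hdd : ∀ w w', w ≠ w' → dd2 S (al w) (al w') (g w) (g w') (S.mo M) = 0) :
    sqL S.a W A (S.lam W * S.mo M) = 0 := by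
  have := S.charP_K
  rw [hs.formula hT hA hd hM, sum_diag, ← Finset.sum_add_distrib]
  · exact Finset.sum_eq_zero fun w _ => by
      have h1 := he w
      rwa [ee_apply] at h1
  · intro w w'
    by_cases hw : w = w'
    · rw [hw]
    · have h1 := hdd w w' hw
      rw [dd2_apply] at h1
      exact (eq_of_add_zero h1).symm

end Pool.Agent.LH4
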