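import Pool.Agent.LH4.As4

/-!
# The derivatives pick one vertex: from `f(λ M) = 0` to `α(N) = 0`, `N ∈ N(u M)`
-/

set_option autoImplicit false

open Finset

namespace Pool.Agent.LH4

open Pool.Agent.LocH

variable {X Ω : Type} [Fintype X] [DecidableEq X] [Fintype Ω] [DecidableEq Ω] {S : Sub X Ω}
  {W : Finset Ω}

/-- If the square functional of `A` is zero at `λ M` then `A` is zero at all `N` with
`N ^ 2 = x_J u M`. -/
theorem lam_NN {A : S.T →ₗ[S.K] S.K} {M : X →₀ ℕ} (h : sqL S.a W A (S.lam W * S.mo M) = 0)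
    {u : X} (hu : S.car u ⊆ W) {N : X →₀ ℕ} (hN : NN S.car W (Finsupp.single u 1 + M) N) :
    A (S.mo N) = 0 := by
  have := S.charP_K
  have hD := drv_sub S
  obtain ⟨J, hJ, hJN⟩ := hN
  rw [lam_apply] at h
  have h1 : ∀ v, sqL S.a W A (S.mo (Finsupp.single v 1 + M)) =
      sqW S.a W (mon A) (Finsupp.single v 1 + M) := fun v => sqL_mon A _
  rw [Finset.sum_congr rfl fun v _ => h1 v] at h
  have h2 := congrArg (DI S.pa J W.toList) h
  rw [DI_zero hD, DI_sum hD, Finset.sum_eq_single u] at h2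
  · rw [DI_sqW hD J (Finset.nodup_toList W) (Finset.toList_toFinset W) hJ, rt_eq hJN] at h2
    exact (pow_eq_zero_iff two_ne_zero).1 h2
  · intro v _ hv
    rw [DI_sqW hD J (Finset.nodup_toList W) (Finset.toList_toFinset W) hJ, rt_non,
      zero_pow two_ne_zero]
    intro n hn
    have h3 := DFunLike.congr_fun hJN u
    have h4 := DFunLike.congr_fun hn u
    rw [Finsupp.add_apply, Finsupp.add_apply, Finsupp.single_eq_same, Finsupp.smul_apply,
      smul_eq_mul] at h3
    rw [Finsupp.add_apply, Finsupp.add_apply, Finsupp.single_apply, if_neg hv, Finsupp.smul_apply,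
      smul_eq_mul] at h4
    omega
  · intro hcon
    exact absurd (Finset.mem_filter.2 ⟨Finset.mem_univ u, hu⟩) hcon

omit [Fintype X] [Fintype Ω] in
/-- The factors of `s` are factors of `N`. -/
theorem nn_supp {s N : X →₀ ℕ} (h : NN S.car W s N) : s.support ⊆ N.support := by
  obtain ⟨J, -, hN⟩ := h
  intro v hv
  rw [Finsupp.mem_support_iff] at hv ⊢
  have h1 := DFunLike.congr_fun hN v
  rw [Finsupp.add_apply, Finsupp.smul_apply, smul_eq_mul] at h1
  omega

/-- The hypothesis (H0) of the descent. -/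
theorem H0_of {A : S.T →ₗ[S.K] S.K}
    (hface : ∀ N : X →₀ ℕ, N.degree + 2 = W.card → N.support ∉ S.fcs W → A (S.mo N) = 0)
    (h : ∀ M : X →₀ ℕ, M.degree + 5 = W.card → M.support ∈ S.fcs W →
      W.card ≤ (S.cr M.support).card + 2 → sqL S.a W A (S.lam W * S.mo M) = 0) :
    ∀ M : X →₀ ℕ, M.degree + 5 = W.card → M.support ∈ S.fcs W →
      W.card ≤ (S.cr M.support).card + 2 → ∀ (u : X) (N : X →₀ ℕ),
      NN S.car W (Finsupp.single u 1 + M) N → A (S.mo N) = 0 := by
  intro M hM hf hc u N hN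
  by_cases hu : S.car u ⊆ W
  · exact lam_NN (h M hM hf hc) hu hN
  · have h1 := hN.degree_eq
    rw [deg_single_add] at h1
    refine hface N (by omega) fun h2 => hu ?_
    refine car_sub_of_mem h2 (nn_supp hN ?_)
    rw [supp_single_add]
    exact Finset.mem_insert_self u _

end Pool.Agent.LH4
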