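import Pool.Agent.LH4.As2

/-!
# The bridge from a set of coordinates `V` to `V \ Z`

`t` is a linear form in degree `|V| - 4`, `Z` is a set of three coordinates in the carrier of `w`.
The values of `t` at the products of `w` and the untyped monomials of the restriction to `V \ Z` are
an input (`Inp`) for `V \ Z`.
-/

set_option autoImplicit false

open Finset

namespace Pool.Agent.LH4

open Pool.Agent.LocH

variable {X Ω : Type} [Fintype X] [DecidableEq X] [Fintype Ω] [DecidableEq Ω] {S : Sub X Ω}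
  {V Z D : Finset Ω} {t : S.T →ₗ[S.K] S.K} {w : X}

omit [Fintype X] [Fintype Ω] in
/-- A factor `y` of `M` which types `N` types `M` outside `D`, if `N` divided by `y` covers `D` and
what `M` divided by `y` covers. -/
theorem Ty.of_cov {y : X} {M N : X →₀ ℕ} (h : Ty S y ∅ N) (hy : y ∈ M.support)
    (hD : D ⊆ S.cr (N - Finsupp.single y 1).support)
    (hM : S.cr (M - Finsupp.single y 1).support ⊆ S.cr (N - Finsupp.single y 1).support) :
    Ty S y D M := by
  refine ⟨hy, h.big.trans (Finset.card_le_card ?_)⟩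
  intro c hc
  rw [Finset.sdiff_empty, Finset.mem_sdiff] at hc
  rw [Finset.mem_sdiff, Finset.mem_sdiff]
  exact ⟨⟨hc.1, fun h1 => hc.2 (hM h1)⟩, fun h1 => hc.2 (hD h1)⟩

omit [Fintype X] [Fintype Ω] in
/-- The other factors stay. -/
theorem supp_sub_single {y v : X} {N : X →₀ ℕ} (hv : v ∈ N.support) (h : v ≠ y) :
    v ∈ (N - Finsupp.single y 1).support := by
  rw [Finsupp.mem_support_iff] at hv ⊢
  rw [Finsupp.tsub_apply, Finsupp.single_apply, if_neg (Ne.symm h), Nat.sub_zero]
  exact hv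

omit [Fintype X] [Fintype Ω] [DecidableEq X] in
theorem supp_sub_add {y : X} (M N : X →₀ ℕ) :
    (M - Finsupp.single y 1).support ⊆ (N + M - Finsupp.single y 1).support := by
  intro v hv
  rw [Finsupp.mem_support_iff] at hv ⊢
  rw [Finsupp.tsub_apply] at hv ⊢
  rw [Finsupp.add_apply]
  omega

omit [Fintype X] [Fintype Ω] in
theorem cr_mono_br {F G : Finset X} (h : F ⊆ G) : S.cr F ⊆ S.cr G :=
  Finset.biUnion_subset_biUnion_of_subset_left _ h

omit [Fintype X] [Fintype Ω] in
theorem car_sub_cr {v : X} {F : Finset X} (h : v ∈ F) : S.car v ⊆ S.cr F :=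
  Finset.subset_biUnion_of_mem S.car h

omit [Fintype X] [Fintype Ω] in
/-- A new factor which covers `D`, inside the restriction. -/
theorem unty_in {U : Finset Ω} {M : X →₀ ℕ} {v : X} (hD : D ⊆ S.car v) (hD1 : D.card ≤ 1)
    (hcov : U \ D ⊆ S.cr M.support) (hM : ∀ y, ¬ Ty S y D M) (hv : S.car v ⊆ U) (y : X) :
    ¬ Ty S y ∅ (Finsupp.single v 1 + M) := by
  intro h
  by_cases hy : y = v
  · subst hy
    have h1 := h.big
    rw [add_tsub_cancel_left, Finset.sdiff_empty] at h1
    have h2 : S.car y \ S.cr M.support ⊆ D := by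
      intro c hc
      rw [Finset.mem_sdiff] at hc
      by_contra hcD
      exact hc.2 (hcov (Finset.mem_sdiff.2 ⟨hv hc.1, hcD⟩))
    have h3 := Finset.card_le_card h2
    omega
  · have h1 := h.mem
    rw [supp_single_add, Finset.mem_insert] at h1
    refine hM y (h.of_cov (h1.resolve_left hy) ?_ (cr_mono_br (supp_sub_add M _)))
    exact hD.trans (car_sub_cr (supp_sub_single
      (by rw [supp_single_add]; exact Finset.mem_insert_self _ _) (Ne.symm hy)))

omit [Fintype X] [Fintype Ω] in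
/-- A new factor which covers `D` and meets `Z`. -/
theorem unty_out (hZ3 : Z.card = 3) (hw : Z ⊆ S.car w) {M : X →₀ ℕ} {v : X} (hD : D ⊆ S.car v)
    (hD1 : D.card ≤ 1) (hcov : (V \ Z) \ D ⊆ S.cr M.support) (hM : ∀ y, ¬ Ty S y D M)
    (hwV : S.car w ⊆ V) (hvV : S.car v ⊆ V) (hvZ : ¬ S.car v ⊆ V \ Z) (y : X) :
    ¬ Ty S y ∅ (Finsupp.single w 1 + (Finsupp.single v 1 + M)) := by
  intro h
  by_cases hyw : y = w
  · subst hyw
    have h1 := h.big
    rw [add_tsub_cancel_left, Finset.sdiff_empty] at h1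
    obtain ⟨z, hz, hz'⟩ : ∃ z ∈ S.car v, z ∈ Z := by
      by_contra h2
      push Not at h2
      exact hvZ fun c hc => Finset.mem_sdiff.2 ⟨hvV hc, h2 c hc⟩
    have h2 : S.car y \ S.cr (Finsupp.single v 1 + M).support ⊆ Z.erase z := by
      intro c hc
      rw [supp_single_add, cr_insert, Finset.mem_sdiff, Finset.mem_union, not_or] at hc
      rw [Finset.mem_erase]
      refine ⟨fun h3 => hc.2.1 (h3 ▸ hz), ?_⟩
      by_contra hcZ
      exact hc.2.2 (hcov (Finset.mem_sdiff.2 ⟨Finset.mem_sdiff.2 ⟨hwV hc.1, hcZ⟩,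
        fun h3 => hc.2.1 (hD h3)⟩))
    have h3 := Finset.card_le_card h2
    rw [Finset.card_erase_of_mem hz'] at h3
    omega
  · have hwm : w ∈ (Finsupp.single w 1 + (Finsupp.single v 1 + M) - Finsupp.single y 1).support :=
      supp_sub_single (by rw [supp_single_add]; exact Finset.mem_insert_self _ _) (Ne.symm hyw)
    have hmon := supp_sub_add (y := y) (Finsupp.single v 1 + M) (Finsupp.single w 1)
    by_cases hyv : y = v
    · subst hyv
      have h1 := h.big
      have h2 : (S.car y \ S.cr (Finsupp.single w 1 + (Finsupp.single y 1 + M) -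
          Finsupp.single y 1).support) \ ∅ ⊆ D := by
        intro c hc
        rw [Finset.sdiff_empty, Finset.mem_sdiff] at hc
        by_contra hcD
        refine hc.2 ?_
        by_cases hcZ : c ∈ Z
        · exact car_sub_cr hwm (hw hcZ)
        · have h3 := hcov (Finset.mem_sdiff.2 ⟨Finset.mem_sdiff.2 ⟨hvV hc.1, hcZ⟩, hcD⟩)
          refine cr_mono_br hmon ?_
          rwa [add_tsub_cancel_left]
      have h3 := Finset.card_le_card h2
      omega
    · have h1 := h.mem
      rw [supp_single_add, supp_single_add, Finset.mem_insert, Finset.mem_insert] at h1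
      have hyM := (h1.resolve_left hyw).resolve_left hyv
      refine hM y (h.of_cov hyM ?_ (cr_mono_br ((supp_sub_add M _).trans hmon)))
      refine hD.trans (car_sub_cr (supp_sub_single ?_ (Ne.symm hyv)))
      rw [supp_single_add, supp_single_add]
      exact Finset.mem_insert_of_mem (Finset.mem_insert_self _ _)

/-- The values of the bridge. -/
noncomputable def brv (S : Sub X Ω) (U : Finset Ω) (w : X) (t : S.T →ₗ[S.K] S.K) (N : X →₀ ℕ) :
    S.K :=
  open Classical in if N.support ∈ S.fcs U ∧ U ⊆ S.cr N.support ∧ ∀ v, ¬ Ty S v ∅ N then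
    t (S.mo (Finsupp.single w 1 + N)) else 0

/-- The values of the bridge at `v M`. -/
theorem brv_eq (ht : Tf S V t)
    (h1 : ∀ n : X →₀ ℕ, n.degree + 4 = V.card → (n.support ∈ S.fcs V → V ⊆ S.cr n.support) →
      (∀ w, ¬ Ty S w ∅ n) → t (S.mo n) = 0)
    (hZ3 : Z.card = 3) (hw : Z ⊆ S.car w) {M : X →₀ ℕ} (hd : M.degree + 6 = V.card) {v : X}
    (hD : D ⊆ S.car v) (hD1 : D.card ≤ 1) (hcov : (V \ Z) \ D ⊆ S.cr M.support)
    (hM : ∀ y, ¬ Ty S y D M) (hf0 : M.support ∈ S.fcs (V \ Z)) :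
    brv S (V \ Z) w t (Finsupp.single v 1 + M) =
      t (S.mo (Finsupp.single w 1 + (Finsupp.single v 1 + M))) := by
  have hU : V \ Z ⊆ S.cr (Finsupp.single v 1 + M).support := by
    intro c hc
    rw [supp_single_add, cr_insert, Finset.mem_union]
    by_cases hcD : c ∈ D
    · exact Or.inl (hD hcD)
    · exact Or.inr (hcov (Finset.mem_sdiff.2 ⟨hc, hcD⟩))
  by_cases hf : (Finsupp.single v 1 + M).support ∈ S.fcs (V \ Z)
  · have hv : S.car v ⊆ V \ Z := car_sub_of_mem hf
      (by rw [supp_single_add]; exact Finset.mem_insert_self _ _)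
    rw [brv, if_pos ⟨hf, hU, unty_in hD hD1 hcov hM hv⟩]
  · rw [brv, if_neg fun h => hf h.1]
    symm
    by_cases hg : (Finsupp.single w 1 + (Finsupp.single v 1 + M)).support ∈ S.fcs V
    · have hwV : S.car w ⊆ V := car_sub_of_mem hg
        (by rw [supp_single_add]; exact Finset.mem_insert_self _ _)
      have hvV : S.car v ⊆ V := car_sub_of_mem hg
        (by rw [supp_single_add, supp_single_add]
            exact Finset.mem_insert_of_mem (Finset.mem_insert_self _ _))
      have hvZ : ¬ S.car v ⊆ V \ Z := by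
        intro h2
        refine hf (mem_fcs'.2 ⟨S.down _ (mem_fcs'.1 hg).1 _ ?_, ?_⟩)
        · rw [supp_single_add w]
          exact Finset.subset_insert _ _
        · rw [supp_single_add, cr_insert]
          exact Finset.union_subset h2 (mem_fcs'.1 hf0).2
      refine h1 _ (by rw [deg_single_add, deg_single_add]; omega) (fun _ => ?_)
        (unty_out hZ3 hw hD hD1 hcov hM hwV hvV hvZ)
      intro c hc
      rw [supp_single_add, cr_insert, Finset.mem_union]
      by_cases hcZ : c ∈ Z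
      · exact Or.inl (hw hcZ)
      · exact Or.inr (hU (Finset.mem_sdiff.2 ⟨hc, hcZ⟩))
    · exact ht.face _ (by rw [deg_single_add, deg_single_add]; omega) hg

/-- The bridge. -/
theorem br0 (ht : Tf S V t)
    (h1 : ∀ n : X →₀ ℕ, n.degree + 4 = V.card → (n.support ∈ S.fcs V → V ⊆ S.cr n.support) →
      (∀ w, ¬ Ty S w ∅ n) → t (S.mo n) = 0)
    (hZ : Z ⊆ V) (hZ3 : Z.card = 3) (hw : Z ⊆ S.car w) :
    ∃ A0 : S.T →ₗ[S.K] S.K, Inp S (V \ Z) A0 ∧
      ∀ N : X →₀ ℕ, N.degree + 5 = V.card → N.support ∈ S.fcs (V \ Z) →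
        V \ Z ⊆ S.cr N.support → (∀ v, ¬ Ty S v ∅ N) →
        A0 (S.mo N) = t (S.mo (Finsupp.single w 1 + N)) := by
  have hc : (V \ Z).card + 3 = V.card := by
    rw [Finset.card_sdiff_of_subset hZ, hZ3]
    have h2 := Finset.card_le_card hZ
    omega
  refine ⟨lfm S (brv S (V \ Z) w t), ⟨?_, ?_, ?_⟩, ?_⟩
  · intro M _ hs
    rw [lfm_mo, brv, if_neg fun h => hs h.1]
  · intro c hcU M hM hs hcov hun
    have hV : c ∈ V := (Finset.mem_sdiff.1 hcU).1
    have h2 : t (S.th c * S.mo (Finsupp.single w 1 + M)) = 0 := by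
      refine ht.th c hV _ (by rw [deg_single_add]; omega) ?_
      intro e he
      rw [Finset.mem_erase] at he
      rw [supp_single_add, cr_insert, Finset.mem_union]
      by_cases heZ : e ∈ Z
      · exact Or.inl (hw heZ)
      · exact Or.inr (hcov (Finset.mem_erase.2 ⟨he.1, Finset.mem_sdiff.2 ⟨he.2, heZ⟩⟩))
    rw [th_apply] at h2 ⊢
    rw [← h2]
    refine Finset.sum_congr rfl fun v _ => ?_
    by_cases hv : c ∈ S.car v
    · rw [lfm_mo, brv_eq ht h1 hZ3 hw (D := {c}) (by omega) (Finset.singleton_subset_iff.2 hv)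
        (Finset.card_singleton c).le (by rwa [Finset.sdiff_singleton_eq_erase]) hun hs,
        add_left_comm]
    · rw [S.a_zero hv, zero_mul, zero_mul]
  · intro M hM hs hcov hun
    have h2 : t (S.lam V * S.mo (Finsupp.single w 1 + M)) = 0 := by
      refine ht.lam _ (by rw [deg_single_add]; omega) ?_
      intro e he
      rw [supp_single_add, cr_insert, Finset.mem_union]
      by_cases heZ : e ∈ Z
      · exact Or.inl (hw heZ)
      · exact Or.inr (hcov (Finset.mem_sdiff.2 ⟨he, heZ⟩))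
    rw [lam_apply] at h2 ⊢
    rw [← h2]
    have h3 : ∀ v, lfm S (brv S (V \ Z) w t) (S.mo (Finsupp.single v 1 + M)) =
        t (S.mo (Finsupp.single v 1 + (Finsupp.single w 1 + M))) := fun v => by
      rw [lfm_mo, brv_eq ht h1 hZ3 hw (D := ∅) (by omega) (Finset.empty_subset _)
        (by rw [Finset.card_empty]; omega) (by rwa [Finset.sdiff_empty]) hun hs, add_left_comm]
    rw [Finset.sum_congr rfl fun v _ => h3 v]
    refine Finset.sum_subset ?_ ?_
    · intro v hv
      rw [Finset.mem_filter] at hv ⊢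
      exact ⟨hv.1, hv.2.trans Finset.sdiff_subset⟩
    · intro v _ hv
      rw [Finset.mem_filter, not_and] at hv
      rw [← h3, lfm_mo, brv, if_neg]
      intro h4
      refine hv (Finset.mem_univ v) (car_sub_of_mem h4.1 ?_)
      rw [supp_single_add]
      exact Finset.mem_insert_self _ _
  · intro N hN hs hcov hun
    rw [lfm_mo, brv, if_pos ⟨hs, hcov, hun⟩]

/-- The bridge, with the hypotheses of the first application. -/
theorem br (_hT : S.Top S.K) (_hV : 12 ≤ V.card) (ht : Tf S V t)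
    (h1 : ∀ n : X →₀ ℕ, n.degree + 4 = V.card → (n.support ∈ S.fcs V → V ⊆ S.cr n.support) →
      (∀ w, ¬ Ty S w ∅ n) → t (S.mo n) = 0)
    (hZ : Z ⊆ V) (hZ3 : Z.card = 3) (hw : Z ⊆ S.car w) :
    ∃ A0 : S.T →ₗ[S.K] S.K, Inp S (V \ Z) A0 ∧
      ∀ N : X →₀ ℕ, N.degree + 5 = V.card → N.support ∈ S.fcs (V \ Z) →
        V \ Z ⊆ S.cr N.support → (∀ v, ¬ Ty S v ∅ N) →
        A0 (S.mo N) = t (S.mo (Finsupp.single w 1 + N)) :=
  br0 ht h1 hZ hZ3 hw

end Pool.Agent.LH4
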