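import Pool.Agent.LH4.Vgf4

/-!
# Functionals on the good monomials of degree at least `|W| - 1`
-/

set_option autoImplicit false

open Finset

namespace Pool.Agent.LH4

open Pool.Agent.LocH

variable {X Ω : Type} [Fintype X] [DecidableEq X] [Fintype Ω] [DecidableEq Ω] {S : Sub X Ω}

/-- The descent in degrees at least `|W|`. -/
theorem descent_zero (hT : S.Top S.K) {W : Finset Ω} {d : ℕ} {f : S.T →ₗ[S.K] S.K}
    (hf : Fz S W d f) (hd1 : 1 ≤ d) (hd2 : W.card ≤ d) :
    ∀ s : X →₀ ℕ, s.degree = d → f (S.mo s) = 0 := by
  have key : ∀ k : ℕ, ∀ s : X →₀ ℕ, s.degree = d → s.support ∈ S.fcs W →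
      W.card - (S.cr s.support).card = k → f (S.mo s) = 0 := by
    intro k
    induction k using Nat.strong_induction_on with
    | _ k ih =>
      intro s hs hsW hk
      have hd : Dd S W (S.cr s.support) d f := by
        intro r hr hrW h2
        have h3 := Finset.card_lt_card h2
        have h4 := Finset.card_le_card (mem_fcs'.1 hrW).2
        exact ih _ (by omega) r hr hrW rfl
      refine lev_zero hT hf hs hsW hd ?_ ((Finset.card_le_card (mem_fcs'.1 hsW).2).trans hd2)
      have h3 : s ≠ 0 := by
        rintro rfl
        rw [map_zero] at hs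
        omega
      obtain ⟨v, hv⟩ := Finsupp.support_nonempty_iff.2 h3
      have h4 : ({v} : Finset X) ∈ S.Gam := S.vert v
      have h5 := S.card_le _ h4
      rw [Finset.card_singleton, Finset.singleton_biUnion] at h5
      exact h5.trans (Finset.card_le_card (Finset.subset_biUnion_of_mem S.car hv))
  intro s hs
  by_cases h : s.support ∈ S.fcs W
  · exact key _ s hs h rfl
  · exact hf.face s hs h

variable [Nonempty X] {W : Finset Ω}

/-- A form on the monomials of degree `n ≥ |W| - 1` which kills the available relations, and for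
`n = |W| - 1` also the products of the good monomials of degree `n - 1` with the sum of the
variables, is zero at all good monomials. -/
theorem ck (hT : S.Top S.K) {n : ℕ} (hn : W.card ≤ n + 1) (hn2 : W.card < 2 * n)
    (h7 : n < W.card → 7 ≤ W.card) (A : S.T →ₗ[S.K] S.K)
    (hface : ∀ N : X →₀ ℕ, N.degree = n → N.support ∉ S.fcs W → A (S.mo N) = 0)
    (hth : ∀ c ∈ W, ∀ M : X →₀ ℕ, M.degree + 1 = n →
      (∀ U ⊆ W, c ∈ U → 2 * S.dgI U M + W.card + 2 ≤ 2 * n + U.card) → A (S.th c * S.mo M) = 0)
    (hlam : n < W.card → ∀ M : X →₀ ℕ, M.degree + 1 = n →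
      (∀ U ⊆ W, 2 * S.dgI U M + W.card + 2 ≤ 2 * n + U.card) → A (S.lam W * S.mo M) = 0) :
    ∀ N : X →₀ ℕ, N.degree = n → (∀ U ⊆ W, 2 * S.dgI U N + W.card ≤ 2 * n + U.card) →
      A (S.mo N) = 0 := by
  have := S.charP_K
  have hD := drv_sub S
  obtain ⟨d, hd⟩ : ∃ d, d + W.card = 2 * n := ⟨2 * n - W.card, by omega⟩
  have hmon : ∀ s : X →₀ ℕ, sqL S.a W A (S.mo s) = 0 ↔
      ∀ N, NN S.car W s N → A (S.mo N) = 0 := fun s => sqL_mon_zero hD A s
  have hf : Fz S W d (sqL S.a W A) := by
    refine ⟨fun s hs h => (hmon s).2 fun N hN => ?_, fun c hc s hs => ?_⟩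
    · have h1 := hN.degree_eq
      refine hface N (by omega) fun h2 => h ?_
      have h3 := mem_fcs'.1 h2
      exact mem_fcs'.2 ⟨S.down _ h3.1 _ hN.support,
        (Finset.biUnion_subset_biUnion_of_subset_left _ hN.support).trans h3.2⟩
    · have h1 := sqL_th_zero hD hc A (S.mo s) ?_
      · rw [lf_sub] at h1
        exact h1
      · intro s' hs' M hM
        rw [supp_mo, Finset.mem_singleton] at hs'
        subst hs'
        rw [lf_sub]
        have h2 := hM.degree_eq
        have h0 : 1 ≤ W.card := Finset.card_pos.2 ⟨c, hc⟩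
        rw [Finset.card_erase_of_mem hc] at h2
        refine hth c hc M (by omega) fun U hU hcU => ?_
        have h3 := hM.dgU_le U
        rw [dgU_sub, dgU_sub] at h3
        have h4 := dgI_le_degree (S := S) U s'
        have h5 : (W.erase c ∩ U).card ≤ (U.erase c).card := by
          refine Finset.card_le_card fun e he => ?_
          rw [Finset.mem_inter, Finset.mem_erase] at he
          exact Finset.mem_erase.2 ⟨he.1.1, he.2⟩
        rw [Finset.card_erase_of_mem hcU] at h5
        have h6 : 1 ≤ U.card := Finset.card_pos.2 ⟨c, hcU⟩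
        omega
  have hall : ∀ s : X →₀ ℕ, s.degree = d → sqL S.a W A (S.mo s) = 0 := by
    rcases Nat.lt_or_ge n W.card with hnW | hnW
    · have h8 := h7 hnW
      refine descent hT hf (by omega) (fun k hk t ht => ?_) (t := W.card)
        (fun s _ hsW h => ?_) fun U hU _ j hj hjU => ?_
      · have h1 := sqL_lam_zero (W := W) hD (fun v => if S.car v ⊆ W then (1 : S.K) else 0) A
          (S.mo t) ?_
        · rw [lf_lam] at h1
          exact h1
        · intro s' hs' M hM
          rw [supp_mo, Finset.mem_singleton] at hs'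
          subst hs'
          rw [lf_lam]
          have h2 := hM.degree_eq
          refine hlam hnW M (by omega) fun U hU => ?_
          have h3 := hM.dgU_le U
          rw [dgU_sub, dgU_sub] at h3
          have h4 := dgI_le_degree (S := S) U s'
          have h5 : (W ∩ U).card ≤ U.card := Finset.card_le_card Finset.inter_subset_right
          omega
      · have h1 := Finset.card_le_card (mem_fcs'.1 hsW).2
        omega
      · have h1 := Finset.card_le_card hU
        exact ⟨by omega, TJ_le hT (by omega) (by omega), TJ_le hT (by omega) (by omega)⟩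
    · exact descent_zero hT hf (by omega) (by omega)
  intro N hN hU
  by_cases hs : N.support ∈ S.fcs W
  · have h1 := mem_fcs'.1 hs
    obtain ⟨s, hs⟩ := NN.of_good (car := S.car) (W := W) (N := N)
      (fun v hv => (Finset.subset_biUnion_of_mem S.car hv).trans h1.2) (fun U hUW => by
        rw [dgU_sub, hN]
        have := hU U hUW
        omega)
    have h2 := hs.degree_eq
    exact (hmon s).1 (hall s (by omega)) N hs
  · exact hface N hN hs

end Pool.Agent.LH4
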