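import Pool.Agent.LH4.Sq4

/-!
# Vertices on an affine hyperplane are independent

If `∑ c ∈ U, lin c * a v c = ψ ≠ 0` for the vertices `v ∈ T` then the vectors `a v` are linearly
independent on `U`.  Proof: the relations are closed under `r ↦ D_t r + r_t e_t`, where `D_t` is the
Euler derivation of the row `t`.
-/

set_option autoImplicit false

open Finset

namespace Pool.Agent.LH4

open Pool.Agent.LocH

variable {X Ω : Type} [Fintype X] [DecidableEq X] [Fintype Ω] [DecidableEq Ω] {S : Sub X Ω}

/-- The Euler derivation of the row `t`. -/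
noncomputable def eul (S : Sub X Ω) (t : X) (x : S.K) : S.K :=
  ∑ c ∈ S.car t, S.a t c * S.pa t c x

theorem eul_add (t : X) (x y : S.K) : eul S t (x + y) = eul S t x + eul S t y := by
  unfold eul
  rw [← Finset.sum_add_distrib]
  exact Finset.sum_congr rfl fun c _ => by rw [S.pa_add, mul_add]

theorem eul_mul (t : X) (x y : S.K) : eul S t (x * y) = x * eul S t y + y * eul S t x := by
  unfold eul
  rw [Finset.mul_sum, Finset.mul_sum, ← Finset.sum_add_distrib]
  exact Finset.sum_congr rfl fun c _ => by rw [S.pa_mul]; ring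

theorem eul_zero (t : X) : eul S t 0 = 0 := by
  have h := eul_add (S := S) t 0 0
  rw [add_zero] at h
  exact left_eq_add.1 h

theorem eul_sum {κ : Type} (t : X) (s : Finset κ) (f : κ → S.K) :
    eul S t (∑ i ∈ s, f i) = ∑ i ∈ s, eul S t (f i) := by
  classical
  induction s using Finset.induction_on with
  | empty => rw [Finset.sum_empty, Finset.sum_empty, eul_zero]
  | insert i s hi ih => rw [Finset.sum_insert hi, Finset.sum_insert hi, eul_add, ih]

theorem eul_a (t v : X) (c : Ω) : eul S t (S.a v c) = if v = t then S.a t c else 0 := by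
  unfold eul
  by_cases hc : c ∈ S.car t
  · by_cases hv : v = t
    · subst hv
      rw [if_pos rfl, Finset.sum_eq_single c]
      · rw [S.pa_a hc, if_pos ⟨rfl, rfl⟩, mul_one]
      · intro b hb hbc
        rw [S.pa_a hb, if_neg fun h => hbc h.2, mul_zero]
      · exact fun h => absurd hc h
    · rw [if_neg hv]
      refine Finset.sum_eq_zero fun b hb => ?_
      rw [S.pa_a hb, if_neg fun h => hv h.1.symm, mul_zero]
  · have h1 : (if v = t then S.a t c else 0) = 0 := by
      rw [S.a_zero hc]
      exact ite_self 0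
    rw [h1]
    refine Finset.sum_eq_zero fun b hb => ?_
    rw [S.pa_a hb, if_neg, mul_zero]
    rintro ⟨-, rfl⟩
    exact hc hb

/-- There are no linear relations between the vertices on an affine hyperplane. -/
theorem rel_zero {U : Finset Ω} (T : Finset X) {psi : S.K} (hpsi : psi ≠ 0) (lin : Ω → S.K)
    (h : ∀ v ∈ T, ∑ c ∈ U, lin c * S.a v c = psi) (r : X → S.K)
    (hr : ∀ c ∈ U, ∑ y ∈ T, r y * S.a y c = 0) : ∀ t ∈ T, r t = 0 := by
  intro t ht
  have hsum : ∀ r : X → S.K, (∀ c ∈ U, ∑ y ∈ T, r y * S.a y c = 0) → ∑ y ∈ T, r y = 0 := by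
    intro r hr
    have h1 : (∑ y ∈ T, r y) * psi = 0 := by
      rw [Finset.sum_mul]
      have h2 : ∀ y ∈ T, r y * psi = ∑ c ∈ U, lin c * (r y * S.a y c) := by
        intro y hy
        rw [← h y hy, Finset.mul_sum]
        exact Finset.sum_congr rfl fun c _ => by ring
      rw [Finset.sum_congr rfl h2, Finset.sum_comm]
      refine Finset.sum_eq_zero fun c hc => ?_
      rw [← Finset.mul_sum, hr c hc, mul_zero]
    exact (mul_eq_zero.1 h1).resolve_right hpsi
  have h1 := hsum (fun y => eul S t (r y) + if y = t then r t else 0) (by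
    intro c hc
    have h2 := congrArg (eul S t) (hr c hc)
    rw [eul_sum, eul_zero] at h2
    refine Eq.trans (Finset.sum_congr rfl fun y _ => ?_) h2
    rw [eul_mul, eul_a]
    by_cases hy : y = t
    · rw [if_pos hy, if_pos hy, hy]
      ring
    · rw [if_neg hy, if_neg hy]
      ring)
  rw [Finset.sum_add_distrib, ← eul_sum, hsum r hr, eul_zero, zero_add, Finset.sum_ite_eq',
    if_pos ht] at h1
  exact h1

/-- The dual vectors. -/
theorem ind_of_lin {U : Finset Ω} (T : Finset X) (_hT : ∀ v ∈ T, S.car v ⊆ U) {psi : S.K}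
    (hpsi : psi ≠ 0) (lin : Ω → S.K) (h : ∀ v ∈ T, ∑ c ∈ U, lin c * S.a v c = psi) :
    ∀ v ∈ T, ∃ mu : Ω → S.K, ∀ u ∈ T, ∑ c ∈ U, mu c * S.a u c = if u = v then 1 else 0 := by
  intro v hv
  let f : (Ω → S.K) →ₗ[S.K] (T → S.K) :=
    LinearMap.pi fun u => ∑ c ∈ U, S.a u c • LinearMap.proj c
  have hf : ∀ mu u, f mu u = ∑ c ∈ U, mu c * S.a u c := by
    intro mu u
    change (∑ c ∈ U, S.a (u : X) c • (LinearMap.proj c : (Ω → S.K) →ₗ[S.K] S.K)) mu = _
    rw [LinearMap.sum_apply]
    refine Finset.sum_congr rfl fun c _ => ?_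
    rw [LinearMap.smul_apply, LinearMap.proj_apply, smul_eq_mul, mul_comm]
  have hsurj : LinearMap.range f = ⊤ := by
    by_contra hne
    obtain ⟨φ, hφ, hker⟩ := Submodule.exists_le_ker_of_lt_top _ (lt_top_iff_ne_top.2 hne)
    refine hφ (LinearMap.pi_ext' fun u => LinearMap.ext_ring ?_)
    have key : ∀ x : T → S.K, φ x = ∑ u, φ (Pi.single u 1) * x u := by
      intro x
      conv_lhs => rw [← Finset.univ_sum_single x]
      rw [map_sum]
      refine Finset.sum_congr rfl fun i _ => ?_
      have h1 : (Pi.single i (x i) : T → S.K) = x i • Pi.single i 1 := by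
        rw [← Pi.single_smul]
        simp
      rw [h1, map_smul, smul_eq_mul, mul_comm]
    let r : X → S.K := fun y => if hy : y ∈ T then φ (Pi.single ⟨y, hy⟩ 1) else 0
    have hr0 : ∀ u : T, r u = φ (Pi.single u 1) := fun u => dif_pos u.2
    have h2 := rel_zero T hpsi lin h r (by
      intro c hc
      have h3 : φ (f (Pi.single c 1)) = 0 := hker ⟨_, rfl⟩
      rw [key] at h3
      rw [← Finset.sum_coe_sort, ← h3]
      refine Finset.sum_congr rfl fun u _ => ?_
      rw [hr0, hf, Finset.sum_eq_single c]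
      · rw [Pi.single_eq_same, one_mul]
      · intro b _ hb
        rw [Pi.single_eq_of_ne hb, zero_mul]
      · exact fun h => absurd hc h) u u.2
    change φ (Pi.single u 1) = 0
    rw [← hr0, h2]
  obtain ⟨mu, hmu⟩ : (fun u : T => if (u : X) = v then (1 : S.K) else 0) ∈ LinearMap.range f := by
    rw [hsurj]
    trivial
  refine ⟨mu, fun u hu => ?_⟩
  have h3 := congrFun hmu ⟨u, hu⟩
  rw [hf] at h3
  exact h3

end Pool.Agent.LH4
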