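import Pool.Agent.LH4.Zk2

/-!
# The decomposition of a piece into classes, from the decomposition for one set `Z`
-/

set_option autoImplicit false

open Finset

namespace Pool.Agent.LH4

open Pool.Agent.LocH

variable {X Ω : Type} [Fintype X] [DecidableEq X] [Fintype Ω] [DecidableEq Ω] {S : Sub X Ω}
  {W : Finset Ω} {w : X} {al s : S.T →ₗ[S.K] S.K} {g : S.T}

/-- The decomposition of the flux at the missing colours `Z`. -/
def OneZ (S : Sub X Ω) (W : Finset Ω) (w : X) (k : ℕ) (Z : Finset Ω) : Prop :=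
  ∀ (r : Finset Ω → (X →₀ ℕ) → S.K) (sU : (X →₀ ℕ) → S.K),
    (∀ C M, r C M ≠ 0 → OZ S W (k + 2) w univ Z C M) →
    (∀ C M, VP S W (k + 2) C M → dl S r C M = 0) →
    (∀ N : X →₀ ℕ, insert w N.support ∉ S.fcs W → sU N = 0) →
    (∀ c ∈ W \ Z, ∀ K : X →₀ ℕ, K.degree + 2 = (W \ Z).card → K.support ∈ S.fcs (W \ Z) →
      (W \ Z) \ {c} ⊆ S.cr K.support →
      ∑ v ∈ univ.filter (fun v => S.car v ⊆ W \ Z), S.a v c * sU (Finsupp.single v 1 + K) =
        ∑ v ∈ univ.filter (fun v => S.car v ⊆ W \ Z),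
          r {c} (Finsupp.single w 1 + (Finsupp.single v 1 + K))) →
    ∃ (I : Finset (S.K × (Ω → S.K))) (V : S.K × (Ω → S.K) → Finset X)
      (A : S.K × (Ω → S.K) → S.T →ₗ[S.K] S.K) (e : Finset Ω → (X →₀ ℕ) → S.K),
      (∀ i ∈ I, Cs S W w Z (V i) (A i)) ∧ (∀ C M, e C M ≠ 0 → OZ S W (k + 2) w univ Z C M) ∧
      ∀ c ∈ W, ∀ M, VP S W (k + 2) {c} M →
        r {c} M = ∑ i ∈ I, A i (S.th c * S.mo M) + dl S e {c} M

theorem Pce.zd_of (P : Pce S W w al s g) (hT : S.Top S.K) {k : ℕ} (hk : W.card = k + 4)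
    (hwW : S.car w ⊆ W) {r' : Finset Ω → Finset Ω → (X →₀ ℕ) → S.K}
    (h1 : ∀ Z ∈ (S.car w).powersetCard 3, ∀ C M, r' Z C M ≠ 0 → OZ S W (k + 2) w univ Z C M)
    (h2 : ∀ Z ∈ (S.car w).powersetCard 3, ∀ C M, VP S W (k + 2) C M → dl S (r' Z) C M = 0)
    (h3 : ∀ C M, co1 S W (k + 2) (fun c => ml al (S.th c)) C M =
      ∑ Z ∈ (S.car w).powersetCard 3, r' Z C M)
    (h4 : ∀ Z ∈ (S.car w).powersetCard 3, OneZ S W w k Z) :
    ∃ (ι : Type) (I : Finset ι) (Z : ι → Finset Ω) (V : ι → Finset X)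
      (A : ι → S.T →ₗ[S.K] S.K) (h : S.T), Zd S W w al I Z V A h := by
  classical
  have hA0 : Nf S W (k + 2) al := fun M hM h => P.face M (by omega) h
  have h5 : ∀ Z, ∃ (I : Finset (S.K × (Ω → S.K))) (V : S.K × (Ω → S.K) → Finset X)
      (A : S.K × (Ω → S.K) → S.T →ₗ[S.K] S.K) (e : Finset Ω → (X →₀ ℕ) → S.K),
      Z ∈ (S.car w).powersetCard 3 →
      (∀ i ∈ I, Cs S W w Z (V i) (A i)) ∧ (∀ C M, e C M ≠ 0 → OZ S W (k + 2) w univ Z C M) ∧
      ∀ c ∈ W, ∀ M, VP S W (k + 2) {c} M →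
        r' Z {c} M = ∑ i ∈ I, A i (S.th c * S.mo M) + dl S e {c} M := by
    intro Z
    by_cases hZ : Z ∈ (S.car w).powersetCard 3
    · obtain ⟨I, V, A, e, h6⟩ := h4 Z hZ (r' Z)
        (fun N => if insert w N.support ∈ S.fcs W then s (S.mo (Finsupp.single w 1 + N)) else 0)
        (h1 Z hZ) (h2 Z hZ) (fun N hN => if_neg hN) (fun c hc K hK hKU hcov => by
          have h7 := P.rs hT hk hwW h1 h3 hZ hc hK hKU hcov
          rw [← h7])
      exact ⟨I, V, A, e, fun _ => h6⟩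
    · exact ⟨∅, fun _ => ∅, fun _ => 0, fun _ _ => 0, fun h => absurd h hZ⟩
  choose I V A e h6 using h5
  set J : Finset (Σ _ : Finset Ω, S.K × (Ω → S.K)) := ((S.car w).powersetCard 3).sigma I with hJ
  have hcs : ∀ i ∈ J, Cs S W w i.1 (V i.1 i.2) (A i.1 i.2) := fun i hi => by
    obtain ⟨h7, h8⟩ := Finset.mem_sigma.1 hi
    exact (h6 i.1 h7).1 i.2 h8
  set E : Finset Ω → (X →₀ ℕ) → S.K := fun C M =>
    ∑ Z ∈ (S.car w).powersetCard 3, e Z C M with hE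
  have hEs : ∀ C M, E C M ≠ 0 → ∃ Z ∈ (S.car w).powersetCard 3, OZ S W (k + 2) w univ Z C M := by
    intro C M h
    obtain ⟨Z, hZ, h7⟩ := Finset.exists_ne_zero_of_sum_ne_zero h
    exact ⟨Z, hZ, (h6 Z hZ).2.1 C M h7⟩
  set B : S.T →ₗ[S.K] S.K := al + ∑ i ∈ J, A i.1 i.2 with hB
  have hBn : Nf S W (k + 2) B := by
    intro M hM h
    rw [hB, LinearMap.add_apply, LinearMap.sum_apply, hA0 M hM h, zero_add]
    exact Finset.sum_eq_zero fun i hi => (hcs i hi).nf M (by omega) h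
  obtain ⟨h, hh1, hh2, hh3⟩ := rep_rem hT hk hBn (e := E)
    (fun C M h => by
      obtain ⟨Z, -, h7⟩ := hEs C M h
      exact h7.1) (fun c hc M hV => by
      have h7 := h3 {c} M
      rw [co1_one hV, ml_apply] at h7
      have h8 : ∑ i ∈ J, A i.1 i.2 (S.th c * S.mo M) =
          ∑ Z ∈ (S.car w).powersetCard 3, ∑ i ∈ I Z, A Z i (S.th c * S.mo M) := by
        rw [hJ, Finset.sum_sigma]
      have h9 : dl S E {c} M = ∑ Z ∈ (S.car w).powersetCard 3, dl S (e Z) {c} M :=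
        dl_sum _ e {c} M
      rw [hB, LinearMap.add_apply, LinearMap.sum_apply, h7,
        Finset.sum_congr rfl fun Z hZ => (h6 Z hZ).2.2 c hc M hV, Finset.sum_add_distrib, h8, h9,
        add_right_comm, two_zero, zero_add])
  refine ⟨_, J, fun i => i.1, fun i => V i.1 i.2, fun i => A i.1 i.2, h, hcs, hh1, hh2, ?_⟩
  intro N hN hc ht
  by_cases hf : N.support ∈ S.fcs W
  · have h7 := hh3 N (by omega) (hc hf) (by
      by_contra h8
      obtain ⟨Z, hZ, h9⟩ := hEs _ _ h8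
      obtain ⟨hZ1, hZ2⟩ := Finset.mem_powersetCard.1 hZ
      exact ht (h9.ty hZ1 hZ2.ge))
    rw [hB, LinearMap.add_apply, LinearMap.sum_apply] at h7
    rw [← h7, add_left_comm, two_zero, add_zero]
  · rw [hA0 N (by omega) hf, S.Tr_I (S.mul_I (mo_I hf) h), add_zero]
    exact (Finset.sum_eq_zero fun i hi => (hcs i hi).nf N hN hf).symm

end Pool.Agent.LH4
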