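import Pool.Agent.LH4.Zc1
import Pool.Agent.LH4.Zk3
import Pool.Agent.LH4.Indl

/-!
# The classes of the flux of one vertex over one triple of colours

`oneZ`: a cocycle of level `|W| - 2` which is supported on the pairs in which the three colours `Z` are
private for `w` is the sum of the values at the relations of linear forms, one for each class of
missing faces, and of a coboundary.
-/

set_option autoImplicit false

open Finset

namespace Pool.Agent.LH4

open Pool.Agent.LocH

variable {X Ω : Type} [Fintype X] [DecidableEq X] [Fintype Ω] [DecidableEq Ω] {S : Sub X Ω}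
  {W U Z : Finset Ω} {n : ℕ} {w : X} {V : Finset X}

/-- The statement on the classes of missing faces. -/
def ClsP (S : Sub X Ω) : Prop :=
  ∀ U : Finset Ω, 2 ≤ U.card → ∀ Ms : Finset X → Prop,
    (∀ G G' : Finset X, G' ∈ S.fcs U → G ⊆ G' → Ms G → Ms G') →
    (∀ G : Finset X, G ∉ S.Gam → Ms G) →
    ∀ (R : Ω → (X →₀ ℕ) → S.K) (sU : (X →₀ ℕ) → S.K),
    (∀ (c : Ω) (K : X →₀ ℕ), Ms K.support → R c K = 0) →
    (∀ N : X →₀ ℕ, Ms N.support → sU N = 0) →
    (∀ c ∈ U, ∀ c' ∈ U, c ≠ c' → ∀ K : X →₀ ℕ, K.degree + 2 = U.card → K.support ∈ S.fcs U →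
      U \ {c, c'} ⊆ S.cr K.support →
      ∑ v ∈ univ.filter (fun v => S.car v ⊆ U), S.a v c * R c' (Finsupp.single v 1 + K) =
      ∑ v ∈ univ.filter (fun v => S.car v ⊆ U), S.a v c' * R c (Finsupp.single v 1 + K)) →
    (∀ c ∈ U, ∀ K : X →₀ ℕ, K.degree + 2 = U.card → K.support ∈ S.fcs U →
      U \ {c} ⊆ S.cr K.support →
      ∑ v ∈ univ.filter (fun v => S.car v ⊆ U), S.a v c * sU (Finsupp.single v 1 + K) =
      ∑ v ∈ univ.filter (fun v => S.car v ⊆ U), R c (Finsupp.single v 1 + K)) →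
    ∃ (β : (X →₀ ℕ) → S.K) (cl : Finset X → S.K × (Ω → S.K)) (l : X → S.K),
      (∀ N : X →₀ ℕ, β N ≠ 0 →
        N.support ∈ S.fcs U ∧ S.cr N.support = U ∧ N.degree = U.card) ∧
      (∀ c ∈ U, ∀ K : X →₀ ℕ, K.degree + 1 = U.card → K.support ∈ S.fcs U →
        U \ {c} ⊆ S.cr K.support →
        ∑ v ∈ univ.filter (fun v => S.car v ⊆ U), S.a v c * β (Finsupp.single v 1 + K) =
          R c K) ∧
      (∀ G G' : Finset X, G' ∈ S.fcs U → G ⊆ G' → Ms G → cl G = cl G') ∧
      (∀ N : X →₀ ℕ, N.support ∈ S.fcs U → Ms N.support → (cl N.support).1 = 0 → β N = 0) ∧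
      (∀ G ∈ S.fcs U, Ms G → ∀ v ∈ G, ∑ c ∈ U, (cl G).2 c * S.a v c = (cl G).1 + l v) ∧
      ∀ v, S.car v ≠ U → l v = 0

/-- The part of `β` on the missing monomials of the class `i`. -/
noncomputable def bi (S : Sub X Ω) (W U : Finset Ω) (w : X) (β : (X →₀ ℕ) → S.K)
    (cl : Finset X → S.K × (Ω → S.K)) (i : S.K × (Ω → S.K)) (N : X →₀ ℕ) : S.K :=
  open Classical in
  if N.support ∈ S.fcs U ∧ insert w N.support ∉ S.fcs W ∧ cl N.support = i then β N else 0

/-- The vertices of the class `i`. -/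
noncomputable def Vi (S : Sub X Ω) (W U : Finset Ω) (w : X)
    (cl : Finset X → S.K × (Ω → S.K)) (i : S.K × (Ω → S.K)) : Finset X :=
  open Classical in
  univ.filter fun y => ∃ G ∈ S.fcs U, insert w G ∉ S.fcs W ∧ cl G = i ∧ y ∈ G

theorem mem_Vi {cl : Finset X → S.K × (Ω → S.K)} {i : S.K × (Ω → S.K)} {y : X} :
    y ∈ Vi S W U w cl i ↔ ∃ G ∈ S.fcs U, insert w G ∉ S.fcs W ∧ cl G = i ∧ y ∈ G := by
  classical
  simp only [Vi, Finset.mem_filter, Finset.mem_univ, true_and]

omit [Fintype X] in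
theorem bi_ne {β : (X →₀ ℕ) → S.K} {cl : Finset X → S.K × (Ω → S.K)} {i : S.K × (Ω → S.K)}
    {N : X →₀ ℕ} (h : bi S W U w β cl i N ≠ 0) :
    (N.support ∈ S.fcs U ∧ insert w N.support ∉ S.fcs W ∧ cl N.support = i) ∧ β N ≠ 0 := by
  unfold bi at h
  by_cases h1 : N.support ∈ S.fcs U ∧ insert w N.support ∉ S.fcs W ∧ cl N.support = i
  · rw [if_pos h1] at h
    exact ⟨h1, h⟩
  · rw [if_neg h1] at h
    exact absurd rfl h

omit [Fintype X] [Fintype Ω] in
theorem ms_up {G G' : Finset X} (h : G ⊆ G') (hG : insert w G ∉ S.fcs W) :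
    insert w G' ∉ S.fcs W := fun h' => hG (fcs_sub h' (Finset.insert_subset_insert w h))

/-- The part of `β` on the missing monomials of a class kills the relations of the missing
monomials. -/
theorem bp_bi {β : (X →₀ ℕ) → S.K} {cl : Finset X → S.K × (Ω → S.K)}
    {r : Finset Ω → (X →₀ ℕ) → S.K} (h1 : ∀ C M, r C M ≠ 0 → VP S W n C M)
    (c1 : ∀ N : X →₀ ℕ, β N ≠ 0 → N.support ∈ S.fcs U ∧ S.cr N.support = U ∧
      N.degree = U.card)
    (c2 : ∀ c ∈ U, ∀ K : X →₀ ℕ, K.degree + 1 = U.card → K.support ∈ S.fcs U →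
        U \ {c} ⊆ S.cr K.support →
        ∑ v ∈ univ.filter (fun v => S.car v ⊆ U), S.a v c * β (Finsupp.single v 1 + K) =
          r {c} (Finsupp.single w 1 + K))
    (c3 : ∀ G G' : Finset X, G' ∈ S.fcs U → G ⊆ G' → insert w G ∉ S.fcs W → cl G = cl G')
    (i : S.K × (Ω → S.K)) : Bp S W w U (Vi S W U w cl i) (bi S W U w β cl i) := by
  refine ⟨fun N h => (bi_ne h).1.1, fun N h y hy => ?_, fun c hc K hK hf hcov hms => ?_⟩
  · obtain ⟨⟨h2, h3, h4⟩, -⟩ := bi_ne h
    exact mem_Vi.2 ⟨_, h2, h3, h4, hy⟩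
  · have hr : r {c} (Finsupp.single w 1 + K) = 0 := by
      by_contra hne
      have h2 := (h1 _ _ hne).fcs
      rw [supp_add1] at h2
      exact hms h2
    have h2 := c2 c hc K hK hf hcov
    rw [hr] at h2
    by_cases hi : cl K.support = i
    · refine Eq.trans (Finset.sum_congr rfl fun v _ => ?_) h2
      congr 1
      unfold bi
      by_cases h3 : (Finsupp.single v 1 + K).support ∈ S.fcs U ∧
          insert w (Finsupp.single v 1 + K).support ∉ S.fcs W ∧
          cl (Finsupp.single v 1 + K).support = i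
      · rw [if_pos h3]
      · rw [if_neg h3]
        by_contra hne
        have h4 := (c1 _ (Ne.symm hne)).1
        have h5 : K.support ⊆ (Finsupp.single v 1 + K).support := by
          rw [supp_add1]
          exact Finset.subset_insert _ _
        exact h3 ⟨h4, ms_up h5 hms, by rw [← hi]; exact (c3 _ _ h4 h5 hms).symm⟩
    · refine Finset.sum_eq_zero fun v _ => ?_
      have h3 : bi S W U w β cl i (Finsupp.single v 1 + K) = 0 := by
        by_contra hne
        obtain ⟨⟨h4, -, h6⟩, -⟩ := bi_ne hne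
        have h5 : K.support ⊆ (Finsupp.single v 1 + K).support := by
          rw [supp_add1]
          exact Finset.subset_insert _ _
        exact hi ((c3 _ _ h4 h5 hms).trans h6)
      rw [h3, mul_zero]

omit [Fintype X] in
/-- The sum of the parts of `β`. -/
theorem bi_sum {β : (X →₀ ℕ) → S.K} {cl : Finset X → S.K × (Ω → S.K)}
    (c1 : ∀ N : X →₀ ℕ, β N ≠ 0 → N.support ∈ S.fcs U ∧ S.cr N.support = U ∧
      N.degree = U.card)
    (c4 : ∀ N : X →₀ ℕ, N.support ∈ S.fcs U → insert w N.support ∉ S.fcs W →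
      (cl N.support).1 = 0 → β N = 0)
    {I : Finset (S.K × (Ω → S.K))}
    (hI : ∀ G ∈ S.fcs U, insert w G ∉ S.fcs W → (cl G).1 ≠ 0 → cl G ∈ I) (N : X →₀ ℕ)
    (hN : insert w N.support ∉ S.fcs W) : ∑ i ∈ I, bi S W U w β cl i N = β N := by
  by_cases h0 : β N = 0
  · rw [h0]
    refine Finset.sum_eq_zero fun i _ => ?_
    by_contra hne
    exact (bi_ne hne).2 h0
  · have h1 := (c1 N h0).1
    have h2 : cl N.support ∈ I := hI _ h1 hN fun h => h0 (c4 N h1 hN h)
    rw [Finset.sum_eq_single_of_mem _ h2 fun i _ hi => ?_]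
    · unfold bi
      rw [if_pos ⟨h1, hN, rfl⟩]
    · by_contra hne
      exact hi (bi_ne hne).1.2.2.symm

omit [Fintype X] in
theorem bi_sum' {β : (X →₀ ℕ) → S.K} {cl : Finset X → S.K × (Ω → S.K)}
    (I : Finset (S.K × (Ω → S.K))) (N : X →₀ ℕ)
    (hN : insert w N.support ∈ S.fcs W) : ∑ i ∈ I, bi S W U w β cl i N = 0 := by
  refine Finset.sum_eq_zero fun i _ => ?_
  by_contra hne
  exact (bi_ne hne).1.2.1 hN

/-- The cochain of `β` on the faces. -/
noncomputable def b0 (S : Sub X Ω) (W : Finset Ω) (n : ℕ) (w : X) (U : Finset Ω)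
    (β : (X →₀ ℕ) → S.K) (C : Finset Ω) (M : X →₀ ℕ) : S.K :=
  open Classical in
  if C = ∅ ∧ VP S W n C M ∧ M w = 1 ∧ M.support.erase w ∈ S.fcs U then
    β (M - Finsupp.single w 1) else 0

omit [Fintype X] [Fintype Ω] in
theorem b0_ne {β : (X →₀ ℕ) → S.K} {C : Finset Ω} {M : X →₀ ℕ}
    (h : b0 S W n w U β C M ≠ 0) :
    (C = ∅ ∧ VP S W n C M ∧ M w = 1 ∧ M.support.erase w ∈ S.fcs U) ∧
      β (M - Finsupp.single w 1) ≠ 0 := by
  unfold b0 at h
  by_cases h1 : C = ∅ ∧ VP S W n C M ∧ M w = 1 ∧ M.support.erase w ∈ S.fcs U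
  · rw [if_pos h1] at h
    exact ⟨h1, h⟩
  · rw [if_neg h1] at h
    exact absurd rfl h

theorem b0_OZ {β : (X →₀ ℕ) → S.K} {C : Finset Ω} {M : X →₀ ℕ}
    (h : b0 S W n w (W \ Z) β C M ≠ 0) : OZ S W n w univ Z C M := by
  obtain ⟨⟨rfl, h1, h2, h3⟩, -⟩ := b0_ne h
  refine ⟨h1, h2, Finset.disjoint_empty_right _, ?_, Finset.subset_univ _⟩
  rw [Finset.disjoint_left]
  intro z hz hzc
  exact (Finset.mem_sdiff.1 ((mem_fcs'.1 h3).2 hzc)).2 hz

/-- The coboundary of `b0` at a pair with the private colours `Z` only. -/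
theorem dl_b0 {β : (X →₀ ℕ) → S.K}
    (c1 : ∀ N : X →₀ ℕ, β N ≠ 0 → N.support ∈ S.fcs U ∧ S.cr N.support = U ∧
      N.degree = U.card) (hwU : ¬ S.car w ⊆ U)
    {c : Ω} {M : X →₀ ℕ} (hV : VP S W n {c} M) (hM : M w = 1) :
    open Classical in
    dl S (b0 S W n w U β) {c} M = ∑ v ∈ vx S U, S.a v c *
      if insert w (Finsupp.single v 1 + (M - Finsupp.single w 1)).support ∈ S.fcs W then
        β (Finsupp.single v 1 + (M - Finsupp.single w 1)) else 0 := by
  classical
  have hwF : w ∈ M.support := by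
    rw [Finsupp.mem_support_iff, hM]
    exact one_ne_zero
  unfold dl
  rw [Finset.sum_singleton, Finset.erase_singleton]
  have hout : ∀ v, v ∉ vx S U → S.a v c * b0 S W n w U β ∅ (Finsupp.single v 1 + M) = 0 := by
    intro v hv
    rw [mem_vx] at hv
    have h1 : b0 S W n w U β ∅ (Finsupp.single v 1 + M) = 0 := by
      by_contra hne
      obtain ⟨⟨-, -, h1, h2⟩, -⟩ := b0_ne hne
      have hvw : v ≠ w := by
        rintro rfl
        rw [Finsupp.add_apply, Finsupp.single_eq_same] at h1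
        omega
      rw [supp_add1, Finset.erase_insert_of_ne hvw] at h2
      exact hv (car_sub_of_mem h2 (Finset.mem_insert_self v _))
    rw [h1, mul_zero]
  rw [← Finset.sum_subset (Finset.subset_univ (vx S U)) fun v _ hv => hout v hv]
  refine Finset.sum_congr rfl fun v hv => ?_
  by_cases ha : S.a v c = 0
  · rw [ha, zero_mul, zero_mul]
  congr 1
  rw [mem_vx] at hv
  have hvw : v ≠ w := by
    rintro rfl
    exact hwU hv
  have hsup : (Finsupp.single v 1 + (M - Finsupp.single w 1)).support =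
      insert v (M.support.erase w) := by
    rw [supp_add1, supp_sub1 hM]
  have hMs : (Finsupp.single v 1 + M).support.erase w = insert v (M.support.erase w) := by
    rw [supp_add1, Finset.erase_insert_of_ne hvw]
  have hins : insert w (Finsupp.single v 1 + (M - Finsupp.single w 1)).support =
      (Finsupp.single v 1 + M).support := by
    rw [hsup, Finset.insert_comm, Finset.insert_erase hwF, ← supp_add1]
  rw [hins]
  by_cases hg : (Finsupp.single v 1 + M).support ∈ S.fcs W
  · rw [if_pos hg]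
    have hVP := hV.up (Finset.mem_singleton_self c) (a_mem ha) hg
    rw [Finset.erase_singleton] at hVP
    have h1 : (Finsupp.single v 1 + M : X →₀ ℕ) w = 1 := by
      rw [Finsupp.add_apply, Finsupp.single_eq_of_ne (Ne.symm hvw), zero_add]
      exact hM
    unfold b0
    by_cases hf : (Finsupp.single v 1 + M).support.erase w ∈ S.fcs U
    · rw [if_pos ⟨rfl, hVP, h1, hf⟩, sub_add_w hM]
    · rw [if_neg fun h => hf h.2.2.2]
      by_contra hne
      have h2 := (c1 _ (Ne.symm hne)).1
      rw [hsup, ← hMs] at h2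
      exact hf h2
  · rw [if_neg hg]
    by_contra hne
    exact hg (b0_ne hne).1.2.1.fcs

/-- The classes of the flux of one vertex over one triple of colours. -/
theorem oneZ (hT : S.Top S.K) (hC : ClsP S) {k : ℕ} (hk : W.card = k + 4)
    (hk3 : 3 ≤ k) (hw : S.car w ⊆ W) (hZ : Z ⊆ S.car w) (hZ3 : Z.card = 3) :
    OneZ S W w k Z := by
  classical
  intro r sU h1 h2 hs0 hRs
  have := S.charP_K
  have hZW : Z ⊆ W := hZ.trans hw
  have hU : (W \ Z).card = k + 1 := by
    have h3 := Finset.card_sdiff_add_card_eq_card hZW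
    omega
  have hwU : ¬ S.car w ⊆ W \ Z := by
    intro h
    obtain ⟨z, hz⟩ := Finset.card_pos.1 (by omega : 0 < Z.card)
    exact (Finset.mem_sdiff.1 (h (hZ hz))).2 hz
  have h1V : ∀ C M, r C M ≠ 0 → VP S W (k + 2) C M := fun C M h => (h1 C M h).1
  -- the relations of the values
  have hRc : ∀ c ∈ W \ Z, ∀ c' ∈ W \ Z, c ≠ c' → ∀ K : X →₀ ℕ,
      K.degree + 2 = (W \ Z).card → K.support ∈ S.fcs (W \ Z) →
      (W \ Z) \ {c, c'} ⊆ S.cr K.support →
      ∑ v ∈ univ.filter (fun v => S.car v ⊆ W \ Z), S.a v c *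
        r {c'} (Finsupp.single w 1 + (Finsupp.single v 1 + K)) =
      ∑ v ∈ univ.filter (fun v => S.car v ⊆ W \ Z), S.a v c' *
        r {c} (Finsupp.single w 1 + (Finsupp.single v 1 + K)) := by
    intro c hc c' hc' hcc K hK hf hcov
    have hfil : ∀ x x' : Ω, ∑ v ∈ univ.filter (fun v => S.car v ⊆ W \ Z), S.a v x *
        r {x'} (Finsupp.single w 1 + (Finsupp.single v 1 + K)) =
        ∑ v, S.a v x * r {x'} (Finsupp.single v 1 + (Finsupp.single w 1 + K)) := by
      intro x x'
      rw [← Finset.sum_subset (Finset.subset_univ (univ.filter fun v => S.car v ⊆ W \ Z))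
        fun v _ hv => ?_]
      · exact Finset.sum_congr rfl fun v _ => by
          rw [add_left_comm (Finsupp.single w 1) (Finsupp.single v 1) K]
      · have h3 : r {x'} (Finsupp.single v 1 + (Finsupp.single w 1 + K)) = 0 := by
          by_contra hne
          obtain ⟨h4, h5, -, h6, -⟩ := h1 _ _ hne
          have hvw : v ≠ w := by
            rintro rfl
            rw [Finsupp.add_apply, Finsupp.add_apply, Finsupp.single_eq_same] at h5
            omega
          refine hv (Finset.mem_filter.2 ⟨Finset.mem_univ v, fun x hx => ?_⟩)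
          have h7 : v ∈ (Finsupp.single v 1 + (Finsupp.single w 1 + K)).support := by
            rw [supp_add1]
            exact Finset.mem_insert_self v _
          refine Finset.mem_sdiff.2 ⟨car_sub_of_mem h4.fcs h7 hx, fun hxZ => ?_⟩
          exact Finset.disjoint_left.1 h6 hxZ
            (mem_cr.2 ⟨v, Finset.mem_erase.2 ⟨hvw, h7⟩, hx⟩)
        rw [h3, mul_zero]
    rw [hfil, hfil]
    by_cases hms : insert w K.support ∈ S.fcs W
    · have hV : VP S W (k + 2) {c, c'} (Finsupp.single w 1 + K) := by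
        refine ⟨?_, ?_, ?_, ?_⟩
        · intro x hx
          rcases Finset.mem_insert.1 hx with h | h
          · rw [h]
            exact (Finset.mem_sdiff.1 hc).1
          · rw [Finset.mem_singleton.1 h]
            exact (Finset.mem_sdiff.1 hc').1
        · rw [supp_add1]
          exact hms
        · intro x hx
          rw [Finset.mem_sdiff] at hx
          rw [supp_add1]
          by_cases hxZ : x ∈ Z
          · exact mem_cr.2 ⟨w, Finset.mem_insert_self w _, hZ hxZ⟩
          · obtain ⟨u, hu, hu'⟩ := mem_cr.1 (hcov (Finset.mem_sdiff.2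
              ⟨Finset.mem_sdiff.2 ⟨hx.1, hxZ⟩, hx.2⟩))
            exact mem_cr.2 ⟨u, Finset.mem_insert_of_mem hu, hu'⟩
        · rw [map_add, Finsupp.degree_single, Finset.card_pair hcc]
          omega
      have h3 := h2 _ _ hV
      rw [dl_pair hcc] at h3
      exact eq_of_add_zero h3
    · have h3 : ∀ (x : Ω) (v : X), r {x} (Finsupp.single v 1 + (Finsupp.single w 1 + K)) = 0 := by
        intro x v
        by_contra hne
        have h4 := (h1V _ _ hne).fcs
        rw [supp_add1, supp_add1] at h4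
        exact hms (fcs_sub h4 (Finset.subset_insert _ _))
      rw [Finset.sum_eq_zero fun v _ => by rw [h3, mul_zero],
        Finset.sum_eq_zero fun v _ => by rw [h3, mul_zero]]
  obtain ⟨β, cl, l, c1, c2, c3, c4, c5, c6⟩ := hC (W \ Z) (by omega)
    (fun G => insert w G ∉ S.fcs W) (fun G G' _ h hG => ms_up h hG)
    (fun G hG h => hG (S.down _ (mem_fcs'.1 h).1 _ (Finset.subset_insert w G)))
    (fun c K => r {c} (Finsupp.single w 1 + K)) sU (fun c K hms => by
      by_contra hne
      have h3 := (h1V _ _ hne).fcs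
      rw [supp_add1] at h3
      exact hms h3) hs0 hRc hRs
  set I : Finset (S.K × (Ω → S.K)) :=
    (((S.fcs (W \ Z)).filter fun G => insert w G ∉ S.fcs W).image cl).filter fun i => i.1 ≠ 0
    with hIdef
  have hI1 : ∀ i ∈ I, i.1 ≠ 0 := fun i hi => (Finset.mem_filter.1 hi).2
  have hI2 : ∀ G ∈ S.fcs (W \ Z), insert w G ∉ S.fcs W → (cl G).1 ≠ 0 → cl G ∈ I :=
    fun G hG hms h => Finset.mem_filter.2
      ⟨Finset.mem_image_of_mem _ (Finset.mem_filter.2 ⟨hG, hms⟩), h⟩
  have hb : ∀ i, Bp S W w (W \ Z) (Vi S W (W \ Z) w cl i) (bi S W (W \ Z) w β cl i) :=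
    fun i => bp_bi h1V c1 c2 c3 i
  choose A hA1 hA2 e he1 he2 hA3 using fun i => bp_form hT hk (hb i) hZW hZ hZ3
  have hViU : ∀ i, ∀ v ∈ Vi S W (W \ Z) w cl i, S.car v ⊆ W \ Z := by
    intro i v hv
    obtain ⟨G, hG, -, -, hvG⟩ := mem_Vi.1 hv
    exact car_sub_of_mem hG hvG
  have hcs : ∀ i ∈ I, Cs S W w Z (Vi S W (W \ Z) w cl i) (A i) := by
    intro i hi
    refine ⟨hZ, hZ3, ?_, ?_, ?_, ?_⟩
    · intro v hv
      rw [Finset.disjoint_left]
      exact fun z hz hzZ => (Finset.mem_sdiff.1 (hViU i v hv hz)).2 hzZ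
    · intro v hv hvU
      obtain ⟨μ, hμ⟩ := ind_of_lin (U := W \ Z)
        ((Vi S W (W \ Z) w cl i).filter fun v => S.car v ≠ W \ Z)
        (fun v hv => hViU i v (Finset.mem_filter.1 hv).1) (hI1 i hi) i.2
        (fun v hv => by
          rw [Finset.mem_filter] at hv
          obtain ⟨G, hG, hms, hGi, hvG⟩ := mem_Vi.1 hv.1
          have h3 := c5 G hG hms v hvG
          rw [hGi, c6 v hv.2, add_zero] at h3
          exact h3) v (Finset.mem_filter.2 ⟨hv, hvU⟩)
      refine ⟨μ, fun u hu huU => ?_⟩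
      rw [← hμ u (Finset.mem_filter.2 ⟨hu, huU⟩)]
      refine (Finset.sum_subset Finset.sdiff_subset fun c hc hcU => ?_).symm
      rw [S.a_zero fun h => hcU (hViU i u hu h), mul_zero]
    · exact fun M hM h => hA1 i M (by omega) h
    · exact fun c hc M hM hcov hne => hA2 i c hc M (by omega) hcov hne
  -- the remainder
  have hb0 : ∀ C M, b0 S W (k + 2) w (W \ Z) β C M ≠ 0 → OZ S W (k + 2) w univ Z C M :=
    fun C M h => b0_OZ h
  have hclZ : Cl S W (k + 2) (OZ S W (k + 2) w univ Z) :=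
    cl_OZ S W (k + 2) w univ hZW (by omega)
  have hdb0 : ∀ C M, dv S W (k + 2) (b0 S W (k + 2) w (W \ Z) β) C M ≠ 0 →
      OZ S W (k + 2) w univ Z C M := dv_supp hclZ hb0
  have hrbO : ∀ i C M, rb S W (k + 2) w (W \ Z) (bi S W (W \ Z) w β cl i) C M ≠ 0 →
      OZ S W (k + 2) w univ Z C M := by
    intro i C M h
    obtain ⟨⟨-, h3, h4, h5, h6, -⟩, -⟩ := rb_ne h
    refine ⟨h3, h4, ?_, ?_, Finset.subset_univ _⟩
    · rw [Finset.disjoint_left]
      exact fun z hz hzC => (Finset.mem_sdiff.1 (h5 hzC)).2 hz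
    · rw [Finset.disjoint_left]
      exact fun z hz hzc => (Finset.mem_sdiff.1 ((mem_fcs'.1 h6).2 hzc)).2 hz
  have heO : ∀ i C M, e i C M ≠ 0 → OZ S W (k + 2) w univ Z C M := by
    intro i C M h
    obtain ⟨u, -, h3, h4, h5, h6, -⟩ := he1 i C M h
    exact ⟨h3, h4, (Finset.disjoint_insert_left.1 h5).2, (Finset.disjoint_insert_left.1 h6).2,
      Finset.subset_univ _⟩
  let q : Finset Ω → (X →₀ ℕ) → S.K := fun C M =>
    r C M + (∑ i ∈ I, (rb S W (k + 2) w (W \ Z) (bi S W (W \ Z) w β cl i) C M + e i C M) +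
      dv S W (k + 2) (b0 S W (k + 2) w (W \ Z) β) C M)
  let g : Finset Ω → (X →₀ ℕ) → S.K := fun C M => if C.card = 1 then q C M else 0
  have hqO : ∀ C M, q C M ≠ 0 → OZ S W (k + 2) w univ Z C M := by
    intro C M h
    by_contra hO
    refine h ?_
    change r C M + (∑ i ∈ I, (rb S W (k + 2) w (W \ Z) (bi S W (W \ Z) w β cl i) C M + e i C M) +
      dv S W (k + 2) (b0 S W (k + 2) w (W \ Z) β) C M) = 0
    have h3 : r C M = 0 := by
      by_contra hne
      exact hO (h1 C M hne)
    have h4 : dv S W (k + 2) (b0 S W (k + 2) w (W \ Z) β) C M = 0 := by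
      by_contra hne
      exact hO (hdb0 C M hne)
    rw [h3, h4, zero_add, add_zero]
    refine Finset.sum_eq_zero fun i _ => ?_
    have h5 : rb S W (k + 2) w (W \ Z) (bi S W (W \ Z) w β cl i) C M = 0 := by
      by_contra hne
      exact hO (hrbO i C M hne)
    have h6 : e i C M = 0 := by
      by_contra hne
      exact hO (heO i C M hne)
    rw [h5, h6, add_zero]
  have hdq : ∀ C M, VP S W (k + 2) C M → dl S q C M = 0 := by
    intro C M hV
    have h3 : dl S q C M = dl S r C M + (∑ i ∈ I,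
        (dl S (rb S W (k + 2) w (W \ Z) (bi S W (W \ Z) w β cl i)) C M + dl S (e i) C M) +
        dl S (dv S W (k + 2) (b0 S W (k + 2) w (W \ Z) β)) C M) := by
      change dl S (fun C M => r C M + (∑ i ∈ I, (rb S W (k + 2) w (W \ Z)
        (bi S W (W \ Z) w β cl i) C M + e i C M) +
        dv S W (k + 2) (b0 S W (k + 2) w (W \ Z) β) C M)) C M = _
      rw [dl_add r, dl_add (fun C M => ∑ i ∈ I, (rb S W (k + 2) w (W \ Z)
        (bi S W (W \ Z) w β cl i) C M + e i C M)), dl_sum I (fun i C M => rb S W (k + 2) w (W \ Z)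
        (bi S W (W \ Z) w β cl i) C M + e i C M)]
      congr 2
      exact Finset.sum_congr rfl fun i _ => dl_add _ _ C M
    rw [h3, h2 C M hV, dl_dv (fun C M h => (hb0 C M h).1) hV, zero_add, add_zero]
    refine Finset.sum_eq_zero fun i _ => ?_
    rw [he2 i C M hV, CharTwo.add_self_eq_zero]
  have hdg : ∀ C M, VP S W (k + 2) C M → dl S g C M = 0 := by
    intro C M hV
    by_cases h3 : C.card = 2
    · rw [← hdq C M hV]
      unfold dl
      refine Finset.sum_congr rfl fun c hc => Finset.sum_congr rfl fun v _ => ?_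
      change _ * (if (C.erase c).card = 1 then q (C.erase c) (Finsupp.single v 1 + M) else 0) = _
      rw [if_pos (by rw [Finset.card_erase_of_mem hc, h3])]
    · unfold dl
      refine Finset.sum_eq_zero fun c hc => Finset.sum_eq_zero fun v _ => ?_
      change _ * (if (C.erase c).card = 1 then q (C.erase c) (Finsupp.single v 1 + M) else 0) = 0
      rw [if_neg fun h => h3 (by
        have h4 := Finset.card_erase_add_one hc
        omega), mul_zero]
  -- the support of the remainder
  have hgO : ∀ C M, g C M ≠ 0 → ∃ u ∈ W \ Z, OZ S W (k + 2) w univ (insert u Z) C M := by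
    intro C M hne
    have hC1 : C.card = 1 := by
      by_contra h
      exact hne (if_neg h)
    have hgq : g C M = q C M := if_pos hC1
    rw [hgq] at hne
    obtain ⟨c, rfl⟩ := Finset.card_eq_one.1 hC1
    obtain ⟨hV, hM, hZC, hZF, -⟩ := hqO _ _ hne
    have hcW : c ∈ W := hV.sub (Finset.mem_singleton_self c)
    have hcU : c ∈ W \ Z := Finset.mem_sdiff.2 ⟨hcW, fun h =>
      Finset.disjoint_left.1 hZC h (Finset.mem_singleton_self c)⟩
    have hwF : w ∈ M.support := by
      rw [Finsupp.mem_support_iff, hM]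
      exact one_ne_zero
    have hF : M.support.erase w ∈ S.fcs (W \ Z) := by
      have h3 := fcs_sub hV.fcs (Finset.erase_subset w M.support)
      refine mem_fcs'.2 ⟨(mem_fcs'.1 h3).1, fun x hx => ?_⟩
      exact Finset.mem_sdiff.2 ⟨(mem_fcs'.1 h3).2 hx, fun h => Finset.disjoint_left.1 hZF h hx⟩
    by_cases hcov : (W \ Z) \ {c} ⊆ S.cr (M.support.erase w)
    · exfalso
      refine hne ?_
      have hei : ∀ i, e i {c} M = 0 := by
        intro i
        by_contra hne'
        obtain ⟨u, hu, -, -, h3, h4, -⟩ := he1 i _ _ hne'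
        rw [Finset.disjoint_insert_left] at h3 h4
        exact h4.1 (hcov (Finset.mem_sdiff.2 ⟨hu, h3.1⟩))
      have hK : (M - Finsupp.single w 1).support = M.support.erase w := supp_sub1 hM
      have hKd : (M - Finsupp.single w 1).degree + 1 = (W \ Z).card := by
        have h3 : (Finsupp.single w 1 + (M - Finsupp.single w 1)).degree = M.degree := by
          rw [add_sub_w hM]
        rw [map_add, Finsupp.degree_single] at h3
        have h4 := hV.deg
        rw [Finset.card_singleton] at h4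
        omega
      have hrM : r {c} M = ∑ v ∈ vx S (W \ Z), S.a v c *
          β (Finsupp.single v 1 + (M - Finsupp.single w 1)) := by
        have h3 := c2 c hcU (M - Finsupp.single w 1) hKd (by rw [hK]; exact hF)
          (by rw [hK]; exact hcov)
        rw [add_sub_w hM] at h3
        exact h3.symm
      have hvM : dv S W (k + 2) (b0 S W (k + 2) w (W \ Z) β) {c} M =
          ∑ v ∈ vx S (W \ Z), S.a v c *
          if insert w (Finsupp.single v 1 + (M - Finsupp.single w 1)).support ∈ S.fcs W then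
            β (Finsupp.single v 1 + (M - Finsupp.single w 1)) else 0 := by
        rw [dv_pos hV, dl_b0 c1 hwU hV hM]
      have hsM : ∑ i ∈ I, (rb S W (k + 2) w (W \ Z) (bi S W (W \ Z) w β cl i) {c} M +
          e i {c} M) = ∑ v ∈ vx S (W \ Z), S.a v c * ∑ i ∈ I, bi S W (W \ Z) w β cl i
            (Finsupp.single v 1 + (M - Finsupp.single w 1)) := by
        have h3 : ∀ i ∈ I, rb S W (k + 2) w (W \ Z) (bi S W (W \ Z) w β cl i) {c} M +
            e i {c} M = ∑ v ∈ vx S (W \ Z), S.a v c * bi S W (W \ Z) w β cl i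
            (Finsupp.single v 1 + (M - Finsupp.single w 1)) := fun i _ => by
          rw [hei i, add_zero, rb_one hV hM hcU hF hcov]
        rw [Finset.sum_congr rfl h3, Finset.sum_comm]
        exact Finset.sum_congr rfl fun v _ => by rw [Finset.mul_sum]
      change r {c} M + (∑ i ∈ I, (rb S W (k + 2) w (W \ Z) (bi S W (W \ Z) w β cl i) {c} M +
        e i {c} M) + dv S W (k + 2) (b0 S W (k + 2) w (W \ Z) β) {c} M) = 0
      rw [hrM, hsM, hvM, ← Finset.sum_add_distrib, ← Finset.sum_add_distrib]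
      refine Finset.sum_eq_zero fun v _ => ?_
      rw [← mul_add, ← mul_add]
      by_cases hg : insert w (Finsupp.single v 1 + (M - Finsupp.single w 1)).support ∈ S.fcs W
      · rw [if_pos hg, bi_sum' I _ hg, zero_add, CharTwo.add_self_eq_zero, mul_zero]
      · rw [if_neg hg, add_zero, bi_sum c1 c4 hI2 _ hg, CharTwo.add_self_eq_zero, mul_zero]
    · rw [Finset.not_subset] at hcov
      obtain ⟨u, hu, hu'⟩ := hcov
      rw [Finset.mem_sdiff] at hu
      refine ⟨u, hu.1, hV, hM, ?_, ?_, Finset.subset_univ _⟩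
      · rw [Finset.disjoint_insert_left]
        exact ⟨hu.2, hZC⟩
      · rw [Finset.disjoint_insert_left]
        exact ⟨hu', hZF⟩
  obtain ⟨e', he'1, he'2⟩ := exa_ins (S := S) (w := w) (V := univ) hZW hZ3
    (n := k + 2) (by omega) g hgO hdg
  refine ⟨I, fun i => Vi S W (W \ Z) w cl i, A,
    fun C M => b0 S W (k + 2) w (W \ Z) β C M + e' C M, hcs, fun C M h => ?_, ?_⟩
  · by_cases h3 : b0 S W (k + 2) w (W \ Z) β C M = 0
    · beta_reduce at h
      rw [h3, zero_add] at h
      obtain ⟨u, -, h4, h5, h6, h7, h8⟩ := he'1 C M h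
      exact ⟨h4, h5, (Finset.disjoint_insert_left.1 h6).2, (Finset.disjoint_insert_left.1 h7).2,
        h8⟩
    · exact hb0 C M h3
  · intro c hc M hV
    have h3 := he'2 {c} M hV
    have h4 : g {c} M = q {c} M := if_pos (Finset.card_singleton c)
    have hdeg : M.degree = k + 1 := by
      have h5 := hV.deg
      rw [Finset.card_singleton] at h5
      omega
    have hcov : W.erase c ⊆ S.cr M.support := by
      rw [Finset.erase_eq]
      exact hV.cov
    have h5 : ∑ i ∈ I, A i (S.th c * S.mo M) =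
        ∑ i ∈ I, (rb S W (k + 2) w (W \ Z) (bi S W (W \ Z) w β cl i) {c} M + e i {c} M) :=
      Finset.sum_congr rfl fun i _ => hA3 i c hc M hdeg hcov
    rw [h5, dl_add, ← h3, h4, ← dv_pos hV]
    change _ = _ + (_ + (r {c} M + (_ + _)))
    have h6 : ∀ a b d : S.K, a = b + (d + (a + (b + d))) := by
      intro a b d
      have h7 : b + (d + (a + (b + d))) = a + ((b + b) + (d + d)) := by ring
      rw [h7, CharTwo.add_self_eq_zero, CharTwo.add_self_eq_zero, add_zero, add_zero]
    exact h6 _ _ _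

end Pool.Agent.LH4
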