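import Pool.Agent.LH4.Kap
import Pool.Agent.LH4.Zc2

/-!
# The classes of the missing faces

`R c` is a cocycle on the restriction to `U` which is zero at the missing monomials, so it is the
coboundary of a function `β` on the monomials of degree `|U|`.  On the star of a missing face `G`
the form `β` is a multiple `ψ` of the trace and `l + ψ λ` is a relation `∑ lin_c θ_c`; the pair
`(ψ, lin)` is the class of `G`.
-/

set_option autoImplicit false

open Finset

namespace Pool.Agent.LH4

open Pool.Agent.LocH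

variable {X Ω : Type} [Fintype X] [DecidableEq X] [Fintype Ω] [DecidableEq Ω] {S : Sub X Ω}
  {U : Finset Ω}

/-- The hypotheses on the values `R` and the form `sU`. -/
structure Ch (S : Sub X Ω) (U : Finset Ω) (Ms : Finset X → Prop) (R : Ω → (X →₀ ℕ) → S.K)
    (sU : (X →₀ ℕ) → S.K) : Prop where
  up : ∀ G G' : Finset X, G' ∈ S.fcs U → G ⊆ G' → Ms G → Ms G'
  nf : ∀ G : Finset X, G ∉ S.Gam → Ms G
  R0 : ∀ (c : Ω) (K : X →₀ ℕ), Ms K.support → R c K = 0
  s0 : ∀ N : X →₀ ℕ, Ms N.support → sU N = 0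
  Rc : ∀ c ∈ U, ∀ c' ∈ U, c ≠ c' → ∀ K : X →₀ ℕ, K.degree + 2 = U.card → K.support ∈ S.fcs U →
    U \ {c, c'} ⊆ S.cr K.support →
    ∑ v ∈ univ.filter (fun v => S.car v ⊆ U), S.a v c * R c' (Finsupp.single v 1 + K) =
      ∑ v ∈ univ.filter (fun v => S.car v ⊆ U), S.a v c' * R c (Finsupp.single v 1 + K)
  Rs : ∀ c ∈ U, ∀ K : X →₀ ℕ, K.degree + 2 = U.card → K.support ∈ S.fcs U →
    U \ {c} ⊆ S.cr K.support →
    ∑ v ∈ univ.filter (fun v => S.car v ⊆ U), S.a v c * sU (Finsupp.single v 1 + K) =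
      ∑ v ∈ univ.filter (fun v => S.car v ⊆ U), R c (Finsupp.single v 1 + K)

/-- A vertex over `U` and a face over `U` which do not form a face over `U` are no face. -/
theorem ngam_add {v : X} {K : X →₀ ℕ} (hv : S.car v ⊆ U) (hK : K.support ∈ S.fcs U)
    (h : (Finsupp.single v 1 + K).support ∉ S.fcs U) :
    (Finsupp.single v 1 + K).support ∉ S.Gam := by
  intro h1
  refine h (mem_fcs'.2 ⟨h1, ?_⟩)
  rw [supp_single_add, cr_insert]
  exact Finset.union_subset hv (mem_fcs'.1 hK).2

theorem car_of_add {v : X} {K : X →₀ ℕ} (h : (Finsupp.single v 1 + K).support ∈ S.fcs U) :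
    S.car v ⊆ U := by
  refine car_sub_of_mem h ?_
  rw [supp_single_add]
  exact Finset.mem_insert_self v _

/-- The sum over the vertices over `U` of a function which is zero at the nonfaces. -/
theorem sum_fcs {K : X →₀ ℕ} (hK : K.support ∈ S.fcs U) (f : (X →₀ ℕ) → S.K) (a : X → S.K)
    (hf : ∀ N : X →₀ ℕ, N.support ∉ S.Gam → f N = 0) :
    ∑ v, a v * (if (Finsupp.single v 1 + K).support ∈ S.fcs U then
      f (Finsupp.single v 1 + K) else 0) =
    ∑ v ∈ univ.filter (fun v => S.car v ⊆ U), a v * f (Finsupp.single v 1 + K) := by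
  rw [Finset.sum_filter]
  refine Finset.sum_congr rfl fun v _ => ?_
  by_cases hv : S.car v ⊆ U
  · rw [if_pos hv]
    by_cases h : (Finsupp.single v 1 + K).support ∈ S.fcs U
    · rw [if_pos h]
    · rw [if_neg h, hf _ (ngam_add hv hK h)]
  · rw [if_neg hv, if_neg fun h => hv (car_of_add h), mul_zero]

variable {Ms : Finset X → Prop} {R : Ω → (X →₀ ℕ) → S.K} {sU : (X →₀ ℕ) → S.K}

/-- The form `φ` with `φ (θ_c K) = R c K`. -/
theorem Ch.phi (h : Ch S U Ms R sU) (hT : S.Top S.K) (hU : 2 ≤ U.card) :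
    ∃ φ : S.T →ₗ[S.K] S.K, (∀ y ∈ S.I U, φ y = 0) ∧
      ∀ c ∈ U, ∀ K : X →₀ ℕ, K.degree + 1 = U.card → K.support ∈ S.fcs U →
        U.erase c ⊆ S.cr K.support → φ (S.th c * S.mo K) = R c K := by
  classical
  obtain ⟨n, hn⟩ : ∃ n, n + 1 = U.card := ⟨U.card - 1, by omega⟩
  let ρ : Ω → S.T →ₗ[S.K] S.K := fun c =>
    lfm S fun K => if K.support ∈ S.fcs U then R c K else 0
  have hρ : ∀ (c : Ω) (K : X →₀ ℕ), ρ c (S.mo K) = if K.support ∈ S.fcs U then R c K else 0 :=
    fun c K => lfm_mo _ K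
  have hρI : ∀ c, ∀ y ∈ S.I U, ρ c y = 0 := by
    intro c y hy
    refine form_zero fun s hs => ?_
    rw [hρ, if_neg (S.mem_I.1 hy s hs)]
  obtain ⟨φ, h1, h2⟩ := kos hT (Finset.Subset.refl U) (n := n) ρ
    (fun c _ y hy _ => hρI c y hy) (by
    intro c hc c' hc' hcc k hk z hz hzk
    have key : ∀ K ∈ z.support, ρ c (S.th c' * S.mo K) = ρ c' (S.th c * S.mo K) := by
      intro K hK
      by_cases hf : K.support ∈ S.fcs U
      · rw [th_apply, th_apply]
        simp only [hρ]
        rw [sum_fcs hf (R c) (fun v => S.a v c') fun N hN => h.R0 c N (h.nf _ hN),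
          sum_fcs hf (R c') (fun v => S.a v c) fun N hN => h.R0 c' N (h.nf _ hN)]
        refine h.Rc c' hc' c hc hcc.symm K ?_ hf ?_
        · have h3 := deg_of_H hzk hK
          omega
        · have h3 := S.mem_J.1 hz K hK hf
          refine Finset.Subset.trans ?_ h3
          intro e he
          rw [Finset.mem_sdiff, Finset.mem_insert, Finset.mem_singleton, not_or] at he
          exact Finset.mem_erase.2 ⟨he.2.1, Finset.mem_erase.2 ⟨he.2.2, he.1⟩⟩
      · rw [hρI c _ (S.mul_I (mo_I hf) _), hρI c' _ (S.mul_I (mo_I hf) _)]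
    exact form_eq (F := ρ c ∘ₗ LinearMap.mulLeft S.K (S.th c'))
      (G := ρ c' ∘ₗ LinearMap.mulLeft S.K (S.th c)) key)
  refine ⟨rs S U φ, fun y hy => rs_I φ hy, fun c hc K hK hf hcov => ?_⟩
  have hJ : S.mo K ∈ S.J U (U.erase c) := mo_J fun _ => hcov
  have hKn : K.degree = n := by omega
  have h3 := h2 c hc (S.mo K) hJ (hKn ▸ mo_H K)
  rw [hρ, if_pos hf] at h3
  rw [← h3, th_apply, th_apply]
  refine Finset.sum_congr rfl fun v _ => ?_
  rw [rs_mo_eq fun hnf => h1 _ (mo_I hnf) ?_]
  have h4 : (Finsupp.single v 1 + K).degree = n + 1 := by rw [deg_single_add, hKn]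
  exact h4 ▸ mo_H _

/-- The form `sU + λ φ`. -/
theorem Ch.bb (h : Ch S U Ms R sU) (hT : S.Top S.K) (hU : 2 ≤ U.card) {φ : S.T →ₗ[S.K] S.K}
    (hφ : ∀ y ∈ S.I U, φ y = 0)
    (hR : ∀ c ∈ U, ∀ K : X →₀ ℕ, K.degree + 1 = U.card → K.support ∈ S.fcs U →
      U.erase c ⊆ S.cr K.support → φ (S.th c * S.mo K) = R c K) :
    ∃ (B : S.T →ₗ[S.K] S.K) (g : S.T), Hon S U 1 B ∅ g ∧ ∀ K : X →₀ ℕ, B (S.mo K) =
      (if K.support ∈ S.fcs U then sU K else 0) + φ (S.lam U * S.mo K) := by
  classical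
  have := S.charP_K
  let B : S.T →ₗ[S.K] S.K := lfm S fun K =>
    (if K.support ∈ S.fcs U then sU K else 0) + φ (S.lam U * S.mo K)
  have hB : ∀ K : X →₀ ℕ, B (S.mo K) =
      (if K.support ∈ S.fcs U then sU K else 0) + φ (S.lam U * S.mo K) := fun K => lfm_mo _ K
  obtain ⟨g, hg⟩ := kap_ld (W := U) (k := 1) (B := B) (τ := ∅) hT
    (by rw [Finset.card_empty]; omega)
    (fun M _ hM => by
      rw [hB, if_neg hM, hφ _ (S.mul_I (mo_I hM) _), add_zero])
    (fun c hc M hM _ hf hcov => by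
      rw [th_apply]
      simp only [hB, mul_add]
      rw [Finset.sum_add_distrib,
        sum_fcs hf sU (fun v => S.a v c) fun N hN => h.s0 N (h.nf _ hN),
        h.Rs c hc M hM hf (by rw [← Finset.erase_eq]; exact hcov)]
      have h1 : ∑ v, S.a v c * φ (S.lam U * S.mo (Finsupp.single v 1 + M)) =
          φ (S.th c * (S.lam U * S.mo M)) := by
        have h2 := th_apply (φ ∘ₗ LinearMap.mulLeft S.K (S.lam U)) c M
        change φ (S.lam U * (S.th c * S.mo M)) =
          ∑ v, S.a v c * φ (S.lam U * S.mo (Finsupp.single v 1 + M)) at h2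
        rw [← h2]
        congr 1
        ring
      have h3 : φ (S.th c * (S.lam U * S.mo M)) =
          ∑ v ∈ univ.filter (fun v => S.car v ⊆ U), R c (Finsupp.single v 1 + M) := by
        have h2 := lam_apply (φ ∘ₗ LinearMap.mulLeft S.K (S.th c)) U M
        change φ (S.th c * (S.lam U * S.mo M)) = ∑ v ∈ univ.filter (fun v => S.car v ⊆ U),
          φ (S.th c * S.mo (Finsupp.single v 1 + M)) at h2
        rw [h2]
        refine Finset.sum_congr rfl fun v hv => ?_
        have hv' := (Finset.mem_filter.1 hv).2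
        by_cases h4 : (Finsupp.single v 1 + M).support ∈ S.fcs U
        · refine hR c hc _ (by rw [deg_single_add]; omega) h4 ?_
          rw [supp_single_add, cr_insert]
          exact hcov.trans Finset.subset_union_right
        · rw [hφ _ (S.mul_I (mo_I h4) _), h.R0 c _ (h.nf _ (ngam_add hv' hf h4))]
      rw [h1, h3]
      exact two_zero _)
  exact ⟨B, g, hg, hB⟩

/-- The class of a missing face. -/
structure Pcl (S : Sub X Ω) (U : Finset Ω) (φ : S.T →ₗ[S.K] S.K) (l : X → S.K) (G : Finset X)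
    (x : S.K × (Ω → S.K)) : Prop where
  ph : ∀ N : X →₀ ℕ, G ⊆ N.support → N.support ∈ S.fcs U → S.cr N.support = U →
    N.degree = U.card → φ (S.mo N) = x.1 * S.Tr U (S.mo N)
  lin : ∀ v, insert v G ∈ S.fcs U → ∑ c ∈ U, x.2 c * S.a v c = x.1 + l v
  out : ∀ c ∉ U, x.2 c = 0

theorem Pcl.mono {φ : S.T →ₗ[S.K] S.K} {l : X → S.K} {G G' : Finset X}
    {x : S.K × (Ω → S.K)} (h : Pcl S U φ l G x) (hG : G ⊆ G') : Pcl S U φ l G' x :=
  ⟨fun N h1 h2 h3 h4 => h.ph N (hG.trans h1) h2 h3 h4,
    fun v hv => h.lin v (face_mono (Finset.insert_subset_insert v hG) hv), h.out⟩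

theorem Tr_chi (S : Sub X Ω) {σ : Finset X} (hσ : σ ∈ S.fac U) : S.Tr U (S.mo (chi σ)) ≠ 0 := by
  rw [mo_chi, S.Tr_fac hσ]
  exact inv_ne_zero (S.dA_ne hσ)

theorem Pcl.uniq (hT : S.Top S.K) {φ : S.T →ₗ[S.K] S.K} {l : X → S.K} {G : Finset X}
    (hG : G ∈ S.fcs U) {x y : S.K × (Ω → S.K)} (hx : Pcl S U φ l G x) (hy : Pcl S U φ l G y) :
    x = y := by
  obtain ⟨σ, hσ, hGσ⟩ := Sub.exists_fac hT hG
  have hσ' := S.mem_fac.1 hσ
  have hσf : σ ∈ S.fcs U := mem_fcs'.2 ⟨hσ'.1, hσ'.2.1.le⟩
  have h1 : x.1 = y.1 := by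
    have h2 := hx.ph (chi σ) (by rw [chi_supp]; exact hGσ) (by rw [chi_supp]; exact hσf)
      (by rw [chi_supp]; exact hσ'.2.1) (by rw [chi_degree]; exact hσ'.2.2)
    have h3 := hy.ph (chi σ) (by rw [chi_supp]; exact hGσ) (by rw [chi_supp]; exact hσf)
      (by rw [chi_supp]; exact hσ'.2.1) (by rw [chi_degree]; exact hσ'.2.2)
    rw [h2] at h3
    exact mul_right_cancel₀ (Tr_chi S hσ) h3
  have h2 : ∀ c ∈ U, x.2 c - y.2 c = 0 := by
    refine S.form_zero (ω := fun c => x.2 c - y.2 c) hσ fun v hv => ?_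
    have hv' : insert v G ∈ S.fcs U := face_mono (Finset.insert_subset hv hGσ) hσf
    have h3 := hx.lin v hv'
    have h4 := hy.lin v hv'
    unfold Sub.lf
    simp only [sub_mul]
    rw [Finset.sum_sub_distrib, h3, h4, h1, sub_self]
  refine Prod.ext h1 (funext fun c => ?_)
  by_cases hc : c ∈ U
  · exact sub_eq_zero.1 (h2 c hc)
  · rw [hx.out c hc, hy.out c hc]

omit [Fintype X] [Fintype Ω] in
/-- An element of degree zero is a constant. -/
theorem H_zero {h0 : S.T} (hh : h0 ∈ S.H 0) : h0 = MvPolynomial.C (MvPolynomial.coeff 0 h0) := by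
  ext m
  rw [MvPolynomial.coeff_C]
  by_cases hm : 0 = m
  · rw [if_pos hm, ← hm]
  · rw [if_neg hm]
    by_contra hne
    have h1 := deg_of_H hh (MvPolynomial.mem_support_iff.2 hne)
    exact hm ((Finsupp.degree_eq_zero_iff m).1 h1).symm

/-- The missing faces have a class. -/
theorem Ch.cls (h : Ch S U Ms R sU) (hT : S.Top S.K) {φ : S.T →ₗ[S.K] S.K}
    (hφ : ∀ y ∈ S.I U, φ y = 0)
    (hR : ∀ c ∈ U, ∀ K : X →₀ ℕ, K.degree + 1 = U.card → K.support ∈ S.fcs U →
      U.erase c ⊆ S.cr K.support → φ (S.th c * S.mo K) = R c K)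
    {B : S.T →ₗ[S.K] S.K} {g : S.T} (hg : Hon S U 1 B ∅ g) (hB : ∀ K : X →₀ ℕ, B (S.mo K) =
      (if K.support ∈ S.fcs U then sU K else 0) + φ (S.lam U * S.mo K)) {l : X → S.K}
    (hl : ∀ v, l v = if S.car v = U then MvPolynomial.coeff (Finsupp.single v 1) g else 0)
    {G : Finset X} (hG : G ∈ S.fcs U) (hMs : Ms G) : ∃ x, Pcl S U φ l G x := by
  classical
  have := S.charP_K
  have hGc : G.card ≤ U.card :=
    (S.card_le G (mem_fcs'.1 hG).1).trans (Finset.card_le_card (mem_fcs'.1 hG).2)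
  have hms : ∀ K : X →₀ ℕ, K.support ∈ S.fcs U → G ⊆ K.support → Ms K.support :=
    fun K hf hGK => h.up G _ hf hGK hMs
  obtain ⟨h0, hh0⟩ := kap_ld (W := U) (k := 0) (B := φ) (τ := G) hT (by omega)
    (fun M _ hM => hφ _ (mo_I hM))
    (fun c hc M hM hGM hf hcov => by
      rw [hR c hc M (by omega) hf hcov, h.R0 c M (hms M hf hGM)])
  set ψ : S.K := MvPolynomial.coeff 0 h0 with hψ
  have hph : ∀ y : S.T, Ok S U G U.card y → φ y = ψ * S.Tr U y := by
    intro y hy
    rw [hh0.eq U.card y hy (add_zero _), H_zero hh0.H, ← hψ, ← MvPolynomial.smul_eq_C_mul,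
      map_smul, smul_eq_mul]
  have hph' : ∀ N : X →₀ ℕ, G ⊆ N.support → N.support ∈ S.fcs U → S.cr N.support = U →
      N.degree = U.card → φ (S.mo N) = ψ * S.Tr U (S.mo N) := by
    intro N h1 _ h3 h4
    refine hph _ ?_
    rw [← h4]
    exact ok_mo h1 fun _ => h3.ge
  rcases hGc.eq_or_lt with hc | hc
  · -- a facet
    have hω : ∀ v : X, ∃ ω : Ω → S.K, v ∈ G → S.lf U ω v = 1 ∧
        ∀ u ∈ G, u ≠ v → S.lf U ω u = 0 := by
      intro v
      by_cases hv : v ∈ G
      · obtain ⟨ω, h1⟩ := S.exists_form hG hv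
        exact ⟨ω, fun _ => h1⟩
      · exact ⟨0, fun h1 => absurd h1 hv⟩
    choose ω hω using hω
    refine ⟨(ψ, fun c => if c ∈ U then ∑ v ∈ G, (ψ + l v) * ω v c else 0), hph', ?_,
      fun c hc => if_neg hc⟩
    intro u hu
    have huG : u ∈ G := by
      by_contra hcon
      have h1 := (S.card_le _ (mem_fcs'.1 hu).1).trans (Finset.card_le_card (mem_fcs'.1 hu).2)
      rw [Finset.card_insert_of_notMem hcon] at h1
      omega
    have h1 : ∑ c ∈ U, (if c ∈ U then ∑ v ∈ G, (ψ + l v) * ω v c else 0) * S.a u c =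
        ∑ v ∈ G, (ψ + l v) * S.lf U (ω v) u := by
      unfold Sub.lf
      simp only [Finset.mul_sum]
      rw [Finset.sum_comm]
      refine Finset.sum_congr rfl fun c hc => ?_
      rw [if_pos hc, Finset.sum_mul]
      exact Finset.sum_congr rfl fun v _ => mul_assoc _ _ _
    change ∑ c ∈ U, (if c ∈ U then ∑ v ∈ G, (ψ + l v) * ω v c else 0) * S.a u c = ψ + l u
    rw [h1, Finset.sum_eq_single u, (hω u huG).1, mul_one]
    · intro v hv hvu
      rw [(hω v hv).2 u huG (Ne.symm hvu), mul_zero]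
    · exact fun h2 => absurd huG h2
  · -- not a facet
    have h1 : ψ • S.lam U + g ∈ S.IT G U ⊔ S.thm U ⊤ := by
      refine ndT hT (mem_fcs'.1 hG).1 (i := 1) (k := U.card - 1 - G.card) (by omega) ?_ ?_
      · exact Submodule.add_mem _ (Submodule.smul_mem _ _ (lam_H U)) hg.H
      · intro y hy hyk
        rw [← mul_assoc]
        refine form_mul_zero _ fun t ht => ?_
        have h2 : S.xT G * (ψ • S.lam U + g) * S.mo t =
            ψ • (S.lam U * S.mo (chi G + t)) + g * S.mo (chi G + t) := by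
          rw [← xT_mul_mo, MvPolynomial.smul_eq_C_mul, MvPolynomial.smul_eq_C_mul]
          ring
        have hd : (chi G + t).degree + 1 = U.card := by
          rw [map_add, chi_degree, deg_of_H hyk ht]
          omega
        have hsup : (chi G + t).support = t.support ∪ G := by
          rw [supp_add_sup, chi_supp, Finset.union_comm]
        rw [h2, map_add, map_smul, smul_eq_mul]
        by_cases hf : (chi G + t).support ∈ S.fcs U
        · have hcov : U ⊆ S.cr (chi G + t).support := by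
            rw [hsup]
            refine S.mem_JT.1 hy t ht ?_
            rw [← hsup]
            exact hf
          have hGs : G ⊆ (chi G + t).support := by
            rw [hsup]
            exact Finset.subset_union_right
          have h3 := hph (S.lam U * S.mo (chi G + t)) (by
            rw [← hd]
            exact (ok_mo hGs fun _ => hcov).mul_lam)
          have h4 := hg.eq _ (S.mo (chi G + t)) (ok_mo (Finset.empty_subset _) fun _ => hcov) hd
          rw [hB, if_pos hf, h.s0 _ (hms _ hf hGs), zero_add] at h4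
          rw [← h3, ← h4]
          exact two_zero _
        · rw [S.Tr_I (S.mul_I (mo_I hf) _), S.Tr_I (S.mul_I (mo_I hf) _), mul_zero, add_zero]
    obtain ⟨q, hq, hq'⟩ := S.splitG_succ (n := 0) S.grd_IT S.grd_top h1
      (Submodule.add_mem _ (Submodule.smul_mem _ _ (lam_H U)) hg.H)
    refine ⟨(ψ, fun c => if c ∈ U then MvPolynomial.coeff 0 (q c) else 0), hph', ?_,
      fun c hc => if_neg hc⟩
    intro v hv
    have hvU : S.car v ⊆ U := car_sub_of_mem hv (Finset.mem_insert_self v G)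
    have h2 : MvPolynomial.coeff (Finsupp.single v 1)
        (ψ • S.lam U + g - ∑ c ∈ U, S.th c * q c) = 0 := by
      by_contra hne
      refine S.mem_IT.1 hq' _ (MvPolynomial.mem_support_iff.2 hne) ?_
      have h3 : (Finsupp.single v 1 : X →₀ ℕ).support ∪ G = insert v G := by
        rw [Finsupp.support_single v one_ne_zero, Finset.insert_eq]
      rw [h3]
      exact hv
    have h3 : MvPolynomial.coeff (Finsupp.single v 1) g = l v := by
      rw [hl]
      by_cases hcv : S.car v = U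
      · rw [if_pos hcv]
      · rw [if_neg hcv]
        by_contra hne
        have h4 := S.mem_JT.1 hg.JT _ (MvPolynomial.mem_support_iff.2 hne)
        have h5 : (Finsupp.single v 1 : X →₀ ℕ).support ∪ ∅ = {v} := by
          rw [Finsupp.support_single v one_ne_zero, Finset.union_empty]
        rw [h5] at h4
        have h6 : ({v} : Finset X) ∈ S.fcs U :=
          face_mono (Finset.singleton_subset_iff.2 (Finset.mem_insert_self v G)) hv
        have h7 := h4 h6
        unfold Sub.cr at h7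
        rw [Finset.singleton_biUnion] at h7
        exact hcv (Finset.Subset.antisymm hvU h7)
    have h4 : MvPolynomial.coeff (Finsupp.single v 1) (S.lam U) = 1 := by
      unfold Sub.lam
      rw [MvPolynomial.coeff_sum, Finset.sum_eq_single v]
      · rw [MvPolynomial.coeff_X, if_pos rfl]
      · intro u _ huv
        rw [MvPolynomial.coeff_X, if_neg]
        intro h5
        exact huv (Finsupp.single_left_injective one_ne_zero h5)
      · exact fun h5 => absurd (Finset.mem_filter.2 ⟨Finset.mem_univ v, hvU⟩) h5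
    have h5 : ∀ c ∈ U, MvPolynomial.coeff (Finsupp.single v 1) (S.th c * q c) =
        MvPolynomial.coeff 0 (q c) * S.a v c := by
      intro c hc
      rw [H_zero (hq c hc).2, mul_comm (S.th c), MvPolynomial.coeff_C_mul, MvPolynomial.coeff_C,
        if_pos rfl]
      congr 1
      unfold Sub.th
      rw [MvPolynomial.coeff_sum, Finset.sum_eq_single v]
      · rw [MvPolynomial.coeff_C_mul, MvPolynomial.coeff_X, if_pos rfl, mul_one]
      · intro u _ huv
        rw [MvPolynomial.coeff_C_mul, MvPolynomial.coeff_X, if_neg, mul_zero]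
        intro h5
        exact huv (Finsupp.single_left_injective one_ne_zero h5)
      · exact fun h5 => absurd (Finset.mem_univ v) h5
    rw [MvPolynomial.coeff_sub, MvPolynomial.coeff_add, MvPolynomial.coeff_smul, h4, smul_eq_mul,
      mul_one, h3, MvPolynomial.coeff_sum, Finset.sum_congr rfl h5, sub_eq_zero] at h2
    change ∑ c ∈ U, (if c ∈ U then MvPolynomial.coeff 0 (q c) else 0) * S.a v c = ψ + l v
    rw [h2]
    exact Finset.sum_congr rfl fun c hc => by rw [if_pos hc]

/-- The classes of the missing faces. -/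
theorem Ch.all (h : Ch S U Ms R sU) (hT : S.Top S.K) (hU : 2 ≤ U.card) :
    ∃ (β : (X →₀ ℕ) → S.K) (cl : Finset X → S.K × (Ω → S.K)) (l : X → S.K),
      (∀ N : X →₀ ℕ, β N ≠ 0 →
        N.support ∈ S.fcs U ∧ S.cr N.support = U ∧ N.degree = U.card) ∧
      (∀ c ∈ U, ∀ K : X →₀ ℕ, K.degree + 1 = U.card → K.support ∈ S.fcs U →
        U \ {c} ⊆ S.cr K.support →
        ∑ v ∈ univ.filter (fun v => S.car v ⊆ U), S.a v c * β (Finsupp.single v 1 + K) =
          R c K) ∧
      (∀ G G' : Finset X, G' ∈ S.fcs U → G ⊆ G' → Ms G → cl G = cl G') ∧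
      (∀ N : X →₀ ℕ, N.support ∈ S.fcs U → Ms N.support → (cl N.support).1 = 0 → β N = 0) ∧
      (∀ G ∈ S.fcs U, Ms G → ∀ v ∈ G, ∑ c ∈ U, (cl G).2 c * S.a v c = (cl G).1 + l v) ∧
      ∀ v, S.car v ≠ U → l v = 0 := by
  classical
  obtain ⟨φ, hφ, hR⟩ := h.phi hT hU
  obtain ⟨B, g, hg, hB⟩ := h.bb hT hU hφ hR
  let l : X → S.K := fun v => if S.car v = U then MvPolynomial.coeff (Finsupp.single v 1) g else 0
  have hex : ∀ G : Finset X, G ∈ S.fcs U ∧ Ms G → ∃ x, Pcl S U φ l G x :=
    fun G hG => h.cls hT hφ hR hg hB (fun _ => rfl) hG.1 hG.2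
  let cl : Finset X → S.K × (Ω → S.K) := fun G =>
    if hG : G ∈ S.fcs U ∧ Ms G then (hex G hG).choose else 0
  have hcl : ∀ G ∈ S.fcs U, Ms G → Pcl S U φ l G (cl G) := by
    intro G hG hMs
    change Pcl S U φ l G (if hG : G ∈ S.fcs U ∧ Ms G then (hex G hG).choose else 0)
    rw [dif_pos ⟨hG, hMs⟩]
    exact (hex G ⟨hG, hMs⟩).choose_spec
  refine ⟨fun N => if N.support ∈ S.fcs U ∧ S.cr N.support = U ∧ N.degree = U.card then
    φ (S.mo N) else 0, cl, l, ?_, ?_, ?_, ?_, ?_, fun v hv => if_neg hv⟩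
  · intro N hN
    by_contra hcon
    exact hN (if_neg hcon)
  · intro c hc K hK hf hcov
    rw [← Finset.erase_eq] at hcov
    rw [← hR c hc K hK hf hcov, th_apply, Finset.sum_filter]
    refine Finset.sum_congr rfl fun v _ => ?_
    by_cases hv : S.car v ⊆ U
    · rw [if_pos hv]
      by_cases hcv : c ∈ S.car v
      · congr 1
        by_cases hN : (Finsupp.single v 1 + K).support ∈ S.fcs U
        · refine if_pos ⟨hN, Finset.Subset.antisymm (mem_fcs'.1 hN).2 ?_,
            by rw [deg_single_add]; omega⟩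
          rw [supp_single_add, cr_insert]
          intro e he
          by_cases hec : e = c
          · rw [hec]
            exact Finset.mem_union_left _ hcv
          · exact Finset.mem_union_right _ (hcov (Finset.mem_erase.2 ⟨hec, he⟩))
        · rw [hφ _ (mo_I hN)]
          exact if_neg fun h1 => hN h1.1
      · rw [S.a_zero hcv, zero_mul, zero_mul]
    · rw [if_neg hv, hφ _ (mo_I fun h1 => hv (car_of_add h1)), mul_zero]
  · intro G G' hG' hGG hMs
    exact ((hcl G (face_mono hGG hG') hMs).mono hGG).uniq hT hG'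
      (hcl G' hG' (h.up G G' hG' hGG hMs))
  · intro N hf hMs h0
    by_cases hN : N.support ∈ S.fcs U ∧ S.cr N.support = U ∧ N.degree = U.card
    · change (if N.support ∈ S.fcs U ∧ S.cr N.support = U ∧ N.degree = U.card then
        φ (S.mo N) else 0) = 0
      rw [if_pos hN, (hcl N.support hf hMs).ph N (Finset.Subset.refl _) hf hN.2.1 hN.2.2, h0,
        zero_mul]
    · exact if_neg hN
  · intro G hG hMs v hv
    refine (hcl G hG hMs).lin v ?_
    rw [Finset.insert_eq_of_mem hv]
    exact hG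

/-- The statement on the classes of missing faces holds. -/
theorem cls (hT : S.Top S.K) : ClsP S := fun _ hU _ h1 h2 _ _ h3 h4 h5 h6 =>
  (Ch.mk h1 h2 h3 h4 h5 h6).all hT hU

end Pool.Agent.LH4
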