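import Pool.Agent.LocH.Fin

/-!
# Linear forms on the interior ideal which kill the relations

`F_zero`: a linear form on the interior ideal in degree `n` which kills the ideal of the complex and all
`θ_c J_(A - c)` kills all relations.  `rep`: it is the trace of the multiplication by an element of the
interior ideal.  `rep_zero`: if it also kills `λ J` then it is zero, provided that the multiplication by
`λ` is injective in the complementary degree.
-/

set_option autoImplicit false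

open Finset

namespace Pool.Agent.LH4

open Pool.Agent.LocH

/-- A linear form which is zero at the common zeros of the forms `B g`, `g ∈ U`, is one of them. -/
theorem mem_forms {K E V : Type} [Field K] [AddCommGroup E] [Module K E] [AddCommGroup V]
    [Module K V] [FiniteDimensional K V] (B : E →ₗ[K] V →ₗ[K] K) (U : Submodule K E)
    (f : V →ₗ[K] K) (h : ∀ v, (∀ g ∈ U, B g v = 0) → f v = 0) : ∃ g ∈ U, B g = f := by
  have h1 : f ∈ (U.map B : Submodule K (Module.Dual K V)) := by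
    rw [← Subspace.dualCoannihilator_dualAnnihilator_eq (W := U.map B),
      Submodule.mem_dualAnnihilator]
    intro v hv
    rw [Submodule.mem_dualCoannihilator] at hv
    exact h v fun g hg => hv (B g) ⟨g, hg, rfl⟩
  exact h1

variable {X Ω : Type} [Fintype X] [DecidableEq X] [Fintype Ω] [DecidableEq Ω] {S : Sub X Ω}

/-- The multiplication by `lam` is injective in degree `i`. -/
def TJ (S : Sub X Ω) (A : Finset Ω) (i : ℕ) : Prop :=
  ∀ g ∈ S.J A A, g ∈ S.H i → S.lam A * g ∈ S.N A (i + 1) → g ∈ S.N A i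

/-- A linear form which kills `I` and all `θ_c J_(A - c)` in degree `n`. -/
structure Kil (S : Sub X Ω) (A : Finset Ω) (n : ℕ) (F : S.T →ₗ[S.K] S.K) : Prop where
  I : ∀ y ∈ S.I A, y ∈ S.H n → F y = 0
  th : ∀ c ∈ A, ∀ k, k + 1 = n → ∀ y ∈ S.J A (A.erase c), y ∈ S.H k → F (S.th c * y) = 0

theorem F_zero (hT : S.Top S.K) {A : Finset Ω} {n : ℕ} {F : S.T →ₗ[S.K] S.K}
    (hF : Kil S A n F) {y : S.T} (hy : y ∈ S.J A A) (hn : y ∈ S.H n)
    (h : y ∈ S.I A ⊔ S.thm A ⊤) : F y = 0 := by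
  rcases isEmpty_or_nonempty Ω with hΩ | hΩ
  · have hA : A = ∅ := Finset.eq_empty_of_isEmpty A
    refine hF.I y ?_ hn
    rw [hA] at h ⊢
    have h1 : S.thm ∅ ⊤ = ⊥ := by
      unfold Sub.thm
      simp
    rwa [h1, sup_bot_eq] at h
  · have := S.charP_K
    have := S.infinite_K
    have h0 : S.fm (S.I A ⊔ S.thm A ⊤) =
        S.toG.I S.K A ⊔ LocG.gn (LocG.mth S.a) A (LocG.TT S.K X) := by
      rw [S.fm_sup (S.hom_I A) (S.hom_thm S.hom_top A), S.fm_I, S.fm_thm S.hom_top, S.fm_top]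
    have h1 : y ∈ (S.toG.J S.K A A ⊓
        (S.toG.I S.K A ⊔ LocG.gn (LocG.mth S.a) A (LocG.TT S.K X))) n := by
      rw [← h0, ← S.fm_J]
      exact ⟨⟨hy, hn⟩, ⟨h, hn⟩⟩
    rw [LocG.Sub.J_inf_eq (Sub.top_toG hT) S.gen_toG] at h1
    have h2 : (S.toG.KU S.a A A ∅) n ≤ LinearMap.ker F := by
      unfold LocG.Sub.KU
      rw [Pi.sup_apply, Finset.sup_apply]
      refine sup_le ?_ (Finset.sup_le fun c hc => ?_)
      · rw [← S.fm_I]
        rintro z ⟨hz1, hz2⟩
        exact hF.I z hz1 hz2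
      · rw [Finset.union_empty, ← S.fm_J]
        cases n with
        | zero => exact bot_le
        | succ k =>
          rintro _ ⟨z, ⟨hz1, hz2⟩, rfl⟩
          exact hF.th c hc k rfl z hz1 hz2
    exact h2 h1

theorem rep (hT : S.Top S.K) {A : Finset Ω} {j n : ℕ} (hj : n + j = A.card)
    {F : S.T →ₗ[S.K] S.K} (hF : Kil S A n F) :
    ∃ g ∈ S.J A A, g ∈ S.H j ∧ ∀ y ∈ S.J A A, y ∈ S.H n → F y = S.Tr A (g * y) := by
  set V : Submodule S.K S.T := S.J A A ⊓ S.H n with hV
  have hVf : FiniteDimensional S.K V := by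
    have h1 : V = S.toG.J S.K A A n := by
      rw [← S.fm_J]
      rfl
    rw [h1]
    exact LocG.mf_fd _ n
  let B : S.T →ₗ[S.K] (V →ₗ[S.K] S.K) :=
    { toFun := fun g => (S.Tr A ∘ₗ LinearMap.mulLeft S.K g) ∘ₗ V.subtype
      map_add' := fun g g' => by
        ext y
        change S.Tr A ((g + g') * y) = S.Tr A (g * y) + S.Tr A (g' * y)
        rw [add_mul, map_add]
      map_smul' := fun r g => by
        ext y
        change S.Tr A ((r • g) * y) = r • S.Tr A (g * y)
        rw [smul_mul_assoc, map_smul] }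
  have hB : ∀ g (y : V), B g y = S.Tr A (g * y) := fun _ _ => rfl
  obtain ⟨g, ⟨hg1, hg2⟩, hg⟩ := mem_forms (V := V) B (S.J A A ⊓ S.H j) (F ∘ₗ V.subtype) (by
    intro v hv
    have h2 : (v : S.T) ∈ S.N A n := by
      refine ⟨v.2.1, v.2.2, fun g hg hg' => ?_⟩
      have h3 : A.card - n = j := by omega
      rw [h3] at hg'
      have h4 := hv g ⟨hg, hg'⟩
      rw [hB] at h4
      rwa [mul_comm]
    exact F_zero hT hF v.2.1 v.2.2 (S.nd hT (Sub.dim hT) (by omega) h2))
  refine ⟨g, hg1, hg2, fun y hy hn => ?_⟩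
  have h2 := LinearMap.congr_fun hg ⟨y, hy, hn⟩
  rw [hB] at h2
  exact h2.symm

theorem rep_zero (hT : S.Top S.K) {A : Finset Ω} {j n : ℕ} (hj : n + 1 + j = A.card)
    (hTJ : TJ S A j) {F : S.T →ₗ[S.K] S.K} (hF : Kil S A (n + 1) F)
    (hl : ∀ y ∈ S.J A A, y ∈ S.H n → F (S.lam A * y) = 0) {y : S.T} (hy : y ∈ S.J A A)
    (hn : y ∈ S.H (n + 1)) : F y = 0 := by
  obtain ⟨g, hg1, hg2, hg⟩ := rep hT hj hF
  have hlH : S.lam A ∈ S.H 1 := by
    unfold Sub.lam
    exact Submodule.sum_mem _ fun v _ => (MvPolynomial.mem_homogeneousSubmodule _ _).2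
      (MvPolynomial.isHomogeneous_X _ _)
  have h1 : S.lam A * g ∈ S.N A (j + 1) := by
    refine ⟨S.mul_J hg1 _, ?_, fun y hy hy' => ?_⟩
    · rw [add_comm]
      exact S.mul_H hlH hg2
    · have h2 : A.card - (j + 1) = n := by omega
      rw [h2] at hy'
      have h3 := hg _ (S.mul_J hy (S.lam A)) (by rw [add_comm]; exact S.mul_H hlH hy')
      rw [hl y hy hy'] at h3
      rw [mul_comm (S.lam A) g, mul_assoc]
      exact h3.symm
  have h4 := hTJ g hg1 hg2 h1
  rw [hg y hy hn]
  refine h4.2.2 y hy ?_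
  have h5 : A.card - j = n + 1 := by omega
  rw [h5]
  exact hn

end Pool.Agent.LH4
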