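import Pool.Agent.LH4.StD
import Pool.Agent.LocH.Ev

/-!
# The star of a face: the values at the facets of a spanning family span everything
-/

set_option autoImplicit false

open Finset

namespace Pool.Agent.LocH.Sub

variable {X Ω : Type} [Fintype X] [DecidableEq X] [Fintype Ω] [DecidableEq Ω] (S : Sub X Ω)
  {τ : Finset X} {W : Finset Ω}

private theorem te_th1 (c : Ω) : (S.th c).IsHomogeneous 1 := by
  refine MvPolynomial.IsHomogeneous.sum _ _ _ fun v _ => ?_
  have h := (MvPolynomial.isHomogeneous_C X (S.a v c)).mul (MvPolynomial.isHomogeneous_X S.K v)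
  rwa [zero_add] at h

private theorem te_hc {p : S.T} {k : ℕ} (hp : p.IsHomogeneous k) (q : S.T) (n : ℕ) :
    MvPolynomial.homogeneousComponent (n + k) (p * q) =
      p * MvPolynomial.homogeneousComponent n q := by
  have h1 : p * q = ∑ i ∈ range (q.totalDegree + 1 + n),
      p * MvPolynomial.homogeneousComponent i q := by
    rw [← Finset.mul_sum]
    congr 1
    conv_lhs => rw [← MvPolynomial.sum_homogeneousComponent q]
    refine Finset.sum_subset (Finset.range_mono (by omega)) fun i _ hi => ?_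
    apply MvPolynomial.homogeneousComponent_eq_zero
    rw [mem_range] at hi
    omega
  rw [h1, map_sum, Finset.sum_eq_single n]
  · rw [MvPolynomial.homogeneousComponent_of_mem
      (hp.mul (MvPolynomial.homogeneousComponent_isHomogeneous n q)), if_pos (add_comm n k)]
  · intro i _ hi
    rw [MvPolynomial.homogeneousComponent_of_mem
      (hp.mul (MvPolynomial.homogeneousComponent_isHomogeneous i q)), if_neg (by omega)]
  · intro h
    have h2 : MvPolynomial.homogeneousComponent n q = 0 :=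
      MvPolynomial.homogeneousComponent_eq_zero _ _ (by rw [mem_range] at h; omega)
    rw [h2, mul_zero, map_zero]

private theorem te_hc0 {p : S.T} (hp : p.IsHomogeneous 1) (q : S.T) :
    MvPolynomial.homogeneousComponent 0 (p * q) = 0 := by
  have h1 : p * q = ∑ i ∈ range (q.totalDegree + 1),
      p * MvPolynomial.homogeneousComponent i q := by
    rw [← Finset.mul_sum, MvPolynomial.sum_homogeneousComponent]
  rw [h1, map_sum]
  refine Finset.sum_eq_zero fun i _ => ?_
  rw [MvPolynomial.homogeneousComponent_of_mem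
    (hp.mul (MvPolynomial.homogeneousComponent_isHomogeneous i q)), if_neg (by omega)]

/-- The splitting of a homogeneous element of `I + ∑ θ_c A`, for a graded submodule `I`. -/
theorem splitG_succ {P : Finset Ω} {I A : Submodule S.K S.T} (hI : S.Grd I) (hA : S.Grd A)
    {f : S.T} {n : ℕ} (hf : f ∈ I ⊔ S.thm P A) (hn : f ∈ S.H (n + 1)) :
    ∃ g : Ω → S.T, (∀ c ∈ P, g c ∈ A ∧ g c ∈ S.H n) ∧ f - ∑ c ∈ P, S.th c * g c ∈ I := by
  obtain ⟨h, hh, k, hk, rfl⟩ := Submodule.mem_sup.1 hf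
  obtain ⟨g, hg, rfl⟩ := S.mem_thm.1 hk
  refine ⟨fun c => MvPolynomial.homogeneousComponent n (g c), fun c hc => ⟨hA n _ (hg c hc),
    MvPolynomial.homogeneousComponent_mem n (g c)⟩, ?_⟩
  have h1 := MvPolynomial.homogeneousComponent_of_mem (m := n + 1) hn
  rw [if_pos rfl, map_add, map_sum,
    Finset.sum_congr rfl fun c _ => S.te_hc (S.te_th1 c) (g c) n] at h1
  rw [← h1, add_sub_cancel_right]
  exact hI (n + 1) h hh

theorem splitG_zero {P : Finset Ω} {I A : Submodule S.K S.T} (hI : S.Grd I) {f : S.T}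
    (hf : f ∈ I ⊔ S.thm P A) (hn : f ∈ S.H 0) : f ∈ I := by
  obtain ⟨h, hh, k, hk, rfl⟩ := Submodule.mem_sup.1 hf
  obtain ⟨g, hg, rfl⟩ := S.mem_thm.1 hk
  have h1 := MvPolynomial.homogeneousComponent_of_mem (m := 0) hn
  rw [if_pos rfl, map_add, map_sum,
    Finset.sum_congr rfl fun c _ => S.te_hc0 (S.te_th1 c) (g c), Finset.sum_const_zero,
    add_zero] at h1
  rw [← h1]
  exact hI 0 h hh

theorem ev_IT {σ : Finset X} (hσ : σ ∈ S.facT τ W) {f : S.T} (hf : f ∈ S.IT τ W) :
    MvPolynomial.aeval (S.q σ) f = 0 := by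
  obtain ⟨hσ', hτ⟩ := S.mem_facT.1 hσ
  obtain ⟨h1, h2, h3⟩ := (S.mem_fac).1 hσ'
  rw [f.as_sum, map_sum]
  refine Finset.sum_eq_zero fun m hm => ?_
  have hm' : m.support ∪ τ ∉ S.fcs W := S.mem_IT.1 hf m hm
  have e : MvPolynomial.monomial m (MvPolynomial.coeff m f) =
      MvPolynomial.C (MvPolynomial.coeff m f) * MvPolynomial.monomial m (1 : S.K) := by
    rw [MvPolynomial.C_mul_monomial, mul_one]
  rw [e, map_mul, S.ev_mon, if_neg, mul_zero]
  intro hs
  have hs' : m.support ∪ τ ⊆ σ := union_subset hs hτ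
  refine hm' (Finset.mem_filter.2 ⟨S.down σ h1 _ hs', ?_⟩)
  rw [← h2]
  exact Finset.biUnion_subset_biUnion_of_subset_left _ hs'

/-- The value at `σ'` of the monomial of `σ`, divided by the monomial of `τ`. -/
theorem ev_xT {σ σ' : Finset X} (hσ : σ ∈ S.facT τ W) (hσ' : σ' ∈ S.facT τ W) :
    MvPolynomial.aeval (S.q σ') (S.xT (σ \ τ)) = if σ' = σ then ∏ v ∈ σ \ τ, S.q σ v else 0 := by
  obtain ⟨g1, g2⟩ := S.mem_facT.1 hσ
  obtain ⟨g3, g4⟩ := S.mem_facT.1 hσ'
  rw [xT, map_prod]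
  simp only [MvPolynomial.aeval_X]
  split_ifs with h
  · rw [h]
  · have : ¬ σ ⊆ σ' := by
      intro hs
      refine h (Finset.eq_of_subset_of_card_le hs ?_).symm
      rw [((S.mem_fac).1 g1).2.2, ((S.mem_fac).1 g3).2.2]
    obtain ⟨v, hv, hv'⟩ := Finset.not_subset.1 this
    exact Finset.prod_eq_zero (Finset.mem_sdiff.2 ⟨hv, fun h' => hv' (g4 h')⟩) (S.q_out hv')

/-- The value of the monomial of `τ` at a facet. -/
theorem ev_tau {σ : Finset X} (hσ : σ ∈ S.fac W) :
    MvPolynomial.aeval (S.q σ) (S.xT τ) = if τ ⊆ σ then ∏ v ∈ τ, S.q σ v else 0 := by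
  rw [xT, map_prod]
  simp only [MvPolynomial.aeval_X]
  split_ifs with h
  · rfl
  · obtain ⟨v, hv, hv'⟩ := Finset.not_subset.1 h
    exact Finset.prod_eq_zero hv (S.q_out hv')

/-- The values at the facets of `Γ_W` which contain `τ`. -/
noncomputable def evT (τ : Finset X) (W : Finset Ω) (f : S.T) : {σ // σ ∈ S.facT τ W} → S.K :=
  fun σ => MvPolynomial.aeval (S.q σ.1) f

theorem span_evT {A : Submodule S.K S.T} (hA : S.Grd A)
    (hfac : ∀ σ ∈ S.facT τ W, S.xT (σ \ τ) ∈ A) {N : ℕ}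
    (z : Fin N → S.T) (d : Fin N → ℕ) (hz : ∀ j, z j ∈ S.H (d j))
    (hs : ∀ n, A ⊓ S.H n ≤
      Submodule.span S.K (z '' {j | d j = n}) ⊔ (S.IT τ W ⊔ S.thm W A)) :
    Submodule.span S.K (Set.range fun j => S.evT τ W (z j)) = ⊤ := by
  classical
  set V : Submodule S.K ({σ // σ ∈ S.facT τ W} → S.K) :=
    Submodule.span S.K (Set.range fun j => S.evT τ W (z j)) with hV
  let E : S.T →ₗ[S.K] ({σ // σ ∈ S.facT τ W} → S.K) :=
    LinearMap.pi fun σ => (MvPolynomial.aeval (S.q σ.1)).toLinearMap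
  have hE : ∀ f, E f = S.evT τ W f := fun f => rfl
  have hEa : ∀ (f : S.T) (σ : {σ // σ ∈ S.facT τ W}),
      E f σ = MvPolynomial.aeval (S.q σ.1) f := fun f σ => rfl
  have hEI : ∀ f ∈ S.IT τ W, E f = 0 := by
    intro f hf
    funext σ
    rw [hEa, S.ev_IT σ.2 hf]
    rfl
  have hEth : ∀ c ∈ W, ∀ f, E (S.th c * f) = S.t c • E f := by
    intro c hc f
    funext σ
    rw [hEa, map_mul, S.ev_th (S.mem_facT.1 σ.2).1 hc, Pi.smul_apply, smul_eq_mul, hEa]
  have hEs : ∀ n, ∀ s ∈ Submodule.span S.K (z '' {j | d j = n}), E s ∈ V := by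
    intro n s hs'
    have h1 : E s ∈ (Submodule.span S.K (z '' {j | d j = n})).map E :=
      Submodule.mem_map_of_mem hs'
    rw [Submodule.map_span] at h1
    refine Submodule.span_mono ?_ h1
    rintro _ ⟨_, ⟨j, _, rfl⟩, rfl⟩
    exact ⟨j, rfl⟩
  have hHs : ∀ n, Submodule.span S.K (z '' {j | d j = n}) ≤ S.H n := by
    intro n
    rw [Submodule.span_le]
    rintro _ ⟨j, hj, rfl⟩
    have hj' : d j = n := hj
    have := hz j
    rw [hj'] at this
    exact this
  have key : ∀ n, ∀ f ∈ A, f ∈ S.H n → E f ∈ V := by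
    intro n
    induction n with
    | zero =>
      intro f hf hn
      have h1 := hs 0 (Submodule.mem_inf.2 ⟨hf, hn⟩)
      obtain ⟨s, hsm, b, hb, hsb⟩ := Submodule.mem_sup.1 h1
      have hbH : b ∈ S.H 0 := by
        have : b = f - s := by rw [← hsb]; ring
        rw [this]
        exact Submodule.sub_mem _ hn (hHs 0 hsm)
      have h2 := S.splitG_zero S.grd_IT hb hbH
      rw [← hsb, map_add, hEI b h2, add_zero]
      exact hEs 0 s hsm
    | succ n ih =>
      intro f hf hn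
      have h1 := hs (n + 1) (Submodule.mem_inf.2 ⟨hf, hn⟩)
      obtain ⟨s, hsm, b, hb, hsb⟩ := Submodule.mem_sup.1 h1
      have hbH : b ∈ S.H (n + 1) := by
        have : b = f - s := by rw [← hsb]; ring
        rw [this]
        exact Submodule.sub_mem _ hn (hHs (n + 1) hsm)
      obtain ⟨g, hg, hgI⟩ := S.splitG_succ S.grd_IT hA hb hbH
      have h3 : E b = ∑ c ∈ W, S.t c • E (g c) := by
        have h4 := hEI _ hgI
        rw [map_sub, sub_eq_zero, map_sum] at h4
        rw [h4]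
        exact Finset.sum_congr rfl fun c hc => hEth c hc (g c)
      rw [← hsb, map_add, h3]
      refine Submodule.add_mem _ (hEs _ s hsm) (Submodule.sum_mem _ fun c hc => ?_)
      exact Submodule.smul_mem _ _ (ih (g c) (hg c hc).1 (hg c hc).2)
  rw [eq_top_iff]
  intro x _
  rw [← Finset.univ_sum_single x]
  refine Submodule.sum_mem _ fun σ _ => ?_
  have hne : ∏ v ∈ σ.1 \ τ, S.q σ.1 v ≠ 0 := Finset.prod_ne_zero_iff.2 fun v hv =>
    S.q_ne (S.mem_facT.1 σ.2).1 (Finset.mem_sdiff.1 hv).1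
  have h5 : Pi.single σ (x σ) =
      (x σ * (∏ v ∈ σ.1 \ τ, S.q σ.1 v)⁻¹) • E (S.xT (σ.1 \ τ)) := by
    funext ρ
    rw [Pi.smul_apply, smul_eq_mul, hEa, S.ev_xT σ.2 ρ.2]
    by_cases h : ρ = σ
    · subst h
      rw [Pi.single_eq_same, if_pos rfl, mul_assoc, inv_mul_cancel₀ hne, mul_one]
    · rw [Pi.single_eq_of_ne h, if_neg fun h' => h (Subtype.ext h'), mul_zero]
  rw [h5]
  exact Submodule.smul_mem _ _ (key _ _ (hfac σ.1 σ.2) (S.xT_H _))

end Pool.Agent.LocH.Sub
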