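import Pool.Agent.LH4.StC
import Pool.Agent.LH4.StE
import Pool.Agent.LH4.Rep

/-!
# The star of a face: duality

`ndT`: an element which is orthogonal to the interior ideal of the star is a relation.
`repT`: a linear form on the interior ideal of the star which kills the relations is the trace of
the multiplication by the monomial of `τ` and an element of the interior ideal.
-/

set_option autoImplicit false

open Finset

namespace Pool.Agent.LocH.Sub

variable {X Ω : Type} [Fintype X] [DecidableEq X] [Fintype Ω] [DecidableEq Ω] (S : Sub X Ω)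
  {τ : Finset X} {W : Finset Ω}

/-- The trace of the multiples of the monomial of `τ`. -/
theorem Tr_xT (f : S.T) : S.Tr W (S.xT τ * f) =
    ∑ σ ∈ S.facT τ W, (S.w σ * ∏ v ∈ τ, S.q σ v) * MvPolynomial.aeval (S.q σ) f := by
  rw [S.Tr_apply, facT, Finset.sum_filter]
  refine Finset.sum_congr rfl fun σ hσ => ?_
  rw [map_mul, S.ev_tau hσ]
  split_ifs with h3
  · ring
  · rw [zero_mul, mul_zero]

theorem ndT (hT : S.Top S.K) (hD : S.DimT τ W) {i k : ℕ} (hi : i + k + τ.card = W.card)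
    {g : S.T} (hgi : g ∈ S.H i)
    (hg : ∀ y ∈ S.JT τ W W, y ∈ S.H k → S.Tr W (S.xT τ * (g * y)) = 0) :
    g ∈ S.IT τ W ⊔ S.thm W ⊤ := by
  classical
  by_contra hB
  set D : ℕ := W.card - τ.card with hDdef
  obtain ⟨r, hr⟩ : ∃ r : ℕ → ℕ, ∀ n, S.dm n ⊤ (S.IT τ W ⊔ S.thm W ⊤) = r n := ⟨_, fun _ => rfl⟩
  obtain ⟨s, hs⟩ : ∃ s : ℕ → ℕ, ∀ n,
      S.dm n (S.JT τ W W) (S.IT τ W ⊔ S.thm W (S.JT τ W W)) = s n := ⟨_, fun _ => rfl⟩
  have hr' : ∀ n, (r n : ℤ) = (S.hRT τ W).coeff n := fun n => by rw [← hr, hD.hR]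
  have hs' : ∀ n, (s n : ℤ) = (S.hST τ W).coeff n := fun n => by rw [← hs, hD.hS]
  have hr0 : ∀ n, D < n → r n = 0 := by
    intro n hn
    have h1 := hr' n
    rw [Polynomial.coeff_eq_zero_of_natDegree_lt (S.deg_hRT.trans_lt hn)] at h1
    exact_mod_cast h1
  have hs0 : ∀ n, D < n → s n = 0 := by
    intro n hn
    have h1 := hs' n
    rw [Polynomial.coeff_eq_zero_of_natDegree_lt (S.deg_hST.trans_lt hn)] at h1
    exact_mod_cast h1
  obtain ⟨a1, a2⟩ := sum_coeff (S.hRT τ W) S.deg_hRT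
  obtain ⟨b1, b2⟩ := sum_coeff (S.hST τ W) S.deg_hST
  have hrN : ∑ n ∈ range (D + 1), r n = (S.facT τ W).card := by
    have h1 : ((∑ n ∈ range (D + 1), r n : ℕ) : ℤ) = (S.facT τ W).card := by
      rw [Nat.cast_sum, Finset.sum_congr rfl fun n _ => hr' n, a1, S.eval_hRT]
    exact_mod_cast h1
  have hsN : ∑ n ∈ range (D + 1), s n = (S.facT τ W).card := by
    have h1 : ((∑ n ∈ range (D + 1), s n : ℕ) : ℤ) = (S.facT τ W).card := by
      rw [Nat.cast_sum, Finset.sum_congr rfl fun n _ => hs' n, b1, S.eval_hST]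
    exact_mod_cast h1
  have hsum : ∑ n ∈ range (D + 1), n * r n + ∑ n ∈ range (D + 1), n * s n =
      D * (S.facT τ W).card := by
    have h1 := S.der_sumT (τ := τ) (W := W) hT
    rw [← a2, ← b2] at h1
    have h2 : ((∑ n ∈ range (D + 1), n * r n + ∑ n ∈ range (D + 1), n * s n : ℕ) : ℤ) =
        ((D * (S.facT τ W).card : ℕ) : ℤ) := by
      push_cast
      simp only [hr', hs']
      exact h1
    exact_mod_cast h2
  obtain ⟨z, d, hz, hd, ⟨j0, hj0, hj0'⟩, hzs⟩ := S.exists_span' hr hr0 hrN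
    (Submodule.mem_top : g ∈ ⊤) hgi hB
  obtain ⟨y, e, hy, he, hys⟩ := S.exists_span hs hs0 hsN
  have hz1 := S.span_evT S.grd_top (fun _ _ => Submodule.mem_top) z d (fun j => (hz j).2) hzs
  have hy1 := S.span_evT S.grd_JT (fun σ hσ => S.fac_JT hσ) y e (fun j => (hy j).2) hys
  have hw : ∀ σ : {σ // σ ∈ S.facT τ W}, S.w σ.1 * ∏ v ∈ τ, S.q σ.1 v ≠ 0 := by
    intro σ
    obtain ⟨h1, h2⟩ := S.mem_facT.1 σ.2
    exact mul_ne_zero (S.w_ne h1) (Finset.prod_ne_zero_iff.2 fun v hv => S.q_ne h1 (h2 hv))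
  obtain ⟨π, hπ⟩ := exists_perm (Fintype.card_coe (S.facT τ W)) (fun j => S.evT τ W (z j))
    (fun j => S.evT τ W (y j)) hz1 hy1 (fun σ => S.w σ.1 * ∏ v ∈ τ, S.q σ.1 v) hw
  have hTr : ∀ j, S.Tr W (S.xT τ * (z j * y (π j))) ≠ 0 := by
    intro j
    have h1 := hπ j
    intro h2
    apply h1
    rw [← h2, S.Tr_xT, ← Finset.sum_coe_sort (S.facT τ W)]
    exact Finset.sum_congr rfl fun k _ => by
      rw [map_mul]
      rfl
  have hle : ∀ j, D ≤ d j + e (π j) := by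
    intro j
    by_contra hlt
    refine hTr j (S.res hT (S.xT_JT (S.mul_JT (hy (π j)).1 (z j)))
      (S.mul_H (S.xT_H τ) (S.mul_H (hz j).2 (hy (π j)).2)) ?_)
    omega
  have hall := all_eq d e π hle (by rw [hd, he, hsum]) j0
  have h3 : e (π j0) = k := by omega
  have h4 := (hy (π j0)).2
  rw [h3] at h4
  have h5 := hTr j0
  rw [hj0] at h5
  exact h5 (hg _ (hy (π j0)).1 h4)

/-- The form is represented by an element of the interior ideal. -/
theorem repT (hT : S.Top S.K) (hD : S.DimT τ W) {k n : ℕ} (hk : n + k + τ.card = W.card)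
    {F : S.T →ₗ[S.K] S.K} (hF : S.KilT τ W n F) :
    ∃ h ∈ S.JT τ W W, h ∈ S.H k ∧
      ∀ y ∈ S.JT τ W W, y ∈ S.H n → F y = S.Tr W (S.xT τ * (h * y)) := by
  set V : Submodule S.K S.T := S.JT τ W W ⊓ S.H n with hV
  have hVf : FiniteDimensional S.K V := by
    have : Module.Finite S.K (S.H n) :=
      Module.Finite.iff_fg.2 (MvPolynomial.homogeneousSubmodule_fg X S.K n)
    exact Submodule.finiteDimensional_of_le inf_le_right
  let B : S.T →ₗ[S.K] (V →ₗ[S.K] S.K) :=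
    { toFun := fun g => ((S.Tr W ∘ₗ LinearMap.mulLeft S.K (S.xT τ)) ∘ₗ
        LinearMap.mulLeft S.K g) ∘ₗ V.subtype
      map_add' := fun g g' => by
        ext y
        change S.Tr W (S.xT τ * ((g + g') * y)) =
          S.Tr W (S.xT τ * (g * y)) + S.Tr W (S.xT τ * (g' * y))
        rw [add_mul, mul_add, map_add]
      map_smul' := fun r g => by
        ext y
        change S.Tr W (S.xT τ * ((r • g) * y)) = r • S.Tr W (S.xT τ * (g * y))
        rw [smul_mul_assoc, mul_smul_comm, map_smul] }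
  have hB : ∀ g (y : V), B g y = S.Tr W (S.xT τ * (g * y)) := fun _ _ => rfl
  obtain ⟨g, ⟨hg1, hg2⟩, hg⟩ := LH4.mem_forms (V := V) B (S.JT τ W W ⊓ S.H k)
    (F ∘ₗ V.subtype) (by
    intro v hv
    refine hD.hZ n F hF v.1 v.2.1 v.2.2 (S.ndT hT hD hk v.2.2 fun y hy hy' => ?_)
    have h4 := hv y ⟨hy, hy'⟩
    rw [hB] at h4
    rwa [mul_comm (v : S.T)])
  refine ⟨g, hg1, hg2, fun y hy hn => ?_⟩
  have h2 := LinearMap.congr_fun hg ⟨y, hy, hn⟩
  rw [hB] at h2
  exact h2.symm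

end Pool.Agent.LocH.Sub
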