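import Pool.Agent.LH4.LD1f
import Pool.Agent.LH4.StN

/-!
# The star of a face: duality (final statements)
-/

set_option autoImplicit false

open Finset

namespace Pool.Agent.LH4

open Pool.Agent.LocH

variable {X Ω : Type} [Fintype X] [DecidableEq X] [Fintype Ω] [DecidableEq Ω] {S : Sub X Ω}
  {τ : Finset X} {W : Finset Ω}

theorem IT_eq (S : Sub X Ω) (τ : Finset X) (W : Finset Ω) : IT S τ W = S.IT τ W := rfl

theorem JT_eq (S : Sub X Ω) (τ : Finset X) (W U : Finset Ω) : JT S τ W U = S.JT τ W U := rfl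

theorem dimT (hT : S.Top S.K) (hτ : τ ∈ S.Gam) (W : Finset Ω) : S.DimT τ W where
  hR := fun n => dm_T hT hτ W n
  hS := fun n => by
    rw [Sub.hST, Finset.filter_filter]
    exact dm_J hT hτ W n
  hZ := fun n F hF y hy hn h => by
    refine J_inf hT hτ hF.I ?_ hy hn h
    intro c hc k hk z hz hz'
    exact hF.th c hc k hk z hz hz'

/-- A linear form on the interior ideal of the star of `τ` in degree `n` which kills the relations is
the trace of the multiplication by the monomial of `τ` and an element of the interior ideal. -/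
theorem repT (hT : S.Top S.K) (hτ : τ ∈ S.Gam) {k n : ℕ} (hk : n + k + τ.card = W.card)
    {F : S.T →ₗ[S.K] S.K} (hF : S.KilT τ W n F) :
    ∃ h ∈ S.JT τ W W, h ∈ S.H k ∧
      ∀ y ∈ S.JT τ W W, y ∈ S.H n → F y = S.Tr W (S.xT τ * (h * y)) :=
  S.repT hT (dimT hT hτ W) hk hF

/-- The pairing of the star is not degenerate. -/
theorem ndT (hT : S.Top S.K) (hτ : τ ∈ S.Gam) {i k : ℕ} (hi : i + k + τ.card = W.card)
    {g : S.T} (hgi : g ∈ S.H i)
    (hg : ∀ y ∈ S.JT τ W W, y ∈ S.H k → S.Tr W (S.xT τ * (g * y)) = 0) :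
    g ∈ S.IT τ W ⊔ S.thm W ⊤ :=
  S.ndT hT (dimT hT hτ W) hi hgi hg

end Pool.Agent.LH4
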