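import Pool.Agent.LH4.Pce
import Pool.Agent.LH4.P5
import Pool.Agent.LH4.StF

/-!
# The pieces at the untyped monomials, and at the monomials divisible by `w ^ 2`, `w w'`

`ho`, `ho2`: if the carrier of `w` has at most two colours outside the other vertices of `M` then
`e_w (M) = 0`, and `d_(w,w') (M) = 0` if this is true for both.  `two`: `e_w (w ^ 2 M) = 0`.
`two2`: `d_(w,w') (w ^ 2 M) = 0` if the condition holds for `w'`.  `ww2`: `d_(w,w') (w w' M) = 0`.
-/

set_option autoImplicit false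

open Finset

namespace Pool.Agent.LH4

open Pool.Agent.LocH

variable {X Ω : Type} [Fintype X] [DecidableEq X] [Fintype Ω] [DecidableEq Ω] {S : Sub X Ω}
  {W : Finset Ω}

/-! ### Polynomials in the interior ideal with monomials divisible by a face -/

/-- All monomials have degree `k`, contain `τ`, and are interior or nonfaces. -/
def Ok (S : Sub X Ω) (W : Finset Ω) (τ : Finset X) (k : ℕ) (y : S.T) : Prop :=
  ∀ N ∈ y.support, N.degree = k ∧ τ ⊆ N.support ∧ (N.support ∈ S.fcs W → W ⊆ S.cr N.support)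

theorem face_mono {F G : Finset X} (h : G ⊆ F) (hF : F ∈ S.fcs W) : G ∈ S.fcs W := by
  have h1 := mem_fcs'.1 hF
  exact mem_fcs'.2 ⟨S.down _ h1.1 _ h,
    (Finset.biUnion_subset_biUnion_of_subset_left _ h).trans h1.2⟩

theorem cr_mono {F G : Finset X} (h : G ⊆ F) : S.cr G ⊆ S.cr F :=
  Finset.biUnion_subset_biUnion_of_subset_left _ h

theorem mem_mul_mo {p : S.T} {M N : X →₀ ℕ} (h : N ∈ (p * S.mo M).support) :
    ∃ n ∈ p.support, N = n + M := by
  obtain ⟨a, ha, b, hb, rfl⟩ := Finset.mem_add.1 (MvPolynomial.support_mul _ _ h)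
  rw [supp_mo, Finset.mem_singleton] at hb
  exact ⟨a, ha, by rw [hb]⟩

theorem mem_mul_X {y : S.T} {w : X} {N : X →₀ ℕ}
    (h : N ∈ (MvPolynomial.X w * y).support) : ∃ n ∈ y.support, N = Finsupp.single w 1 + n := by
  obtain ⟨a, ha, b, hb, rfl⟩ := Finset.mem_add.1 (MvPolynomial.support_mul _ _ h)
  rw [MvPolynomial.support_X, Finset.mem_singleton] at ha
  exact ⟨b, hb, by rw [ha]⟩

theorem mem_mul_lam {y : S.T} {N : X →₀ ℕ} (h : N ∈ (S.lam W * y).support) :
    ∃ u, S.car u ⊆ W ∧ ∃ n ∈ y.support, N = Finsupp.single u 1 + n := by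
  unfold Sub.lam at h
  rw [Finset.sum_mul] at h
  obtain ⟨u, hu, h1⟩ := Finset.mem_biUnion.1 (MvPolynomial.support_sum h)
  obtain ⟨n, hn, h2⟩ := mem_mul_X h1
  exact ⟨u, (Finset.mem_filter.1 hu).2, n, hn, h2⟩

theorem supp_add_sup {a b : X →₀ ℕ} : (a + b).support = a.support ∪ b.support := by
  ext x
  rw [Finsupp.mem_support_iff, Finset.mem_union, Finsupp.mem_support_iff, Finsupp.mem_support_iff,
    Finsupp.add_apply]
  omega

theorem Ok.mul_X {τ : Finset X} {k : ℕ} {y : S.T} (h : Ok S W τ k y) (w : X) :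
    Ok S W τ (k + 1) (MvPolynomial.X w * y) := by
  intro N hN
  obtain ⟨n, hn, rfl⟩ := mem_mul_X hN
  obtain ⟨h1, h2, h3⟩ := h n hn
  have h4 : n.support ⊆ (Finsupp.single w 1 + n).support := by
    rw [supp_single_add]
    exact Finset.subset_insert _ _
  refine ⟨by rw [deg_single_add, h1], h2.trans h4, fun h5 => ?_⟩
  exact (h3 (face_mono h4 h5)).trans (cr_mono h4)

theorem Ok.mul_lam {τ : Finset X} {k : ℕ} {y : S.T} (h : Ok S W τ k y) :
    Ok S W τ (k + 1) (S.lam W * y) := by
  intro N hN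
  obtain ⟨u, -, n, hn, rfl⟩ := mem_mul_lam hN
  obtain ⟨h1, h2, h3⟩ := h n hn
  have h4 : n.support ⊆ (Finsupp.single u 1 + n).support := by
    rw [supp_single_add]
    exact Finset.subset_insert _ _
  refine ⟨by rw [deg_single_add, h1], h2.trans h4, fun h5 => ?_⟩
  exact (h3 (face_mono h4 h5)).trans (cr_mono h4)

theorem Ok.mem_J {τ : Finset X} {k : ℕ} {y : S.T} (h : Ok S W τ k y) : y ∈ S.J W W :=
  S.mem_J.2 fun m hm => (h m hm).2.2

theorem Ok.mem_H {τ : Finset X} {k : ℕ} {y : S.T} (h : Ok S W τ k y) : y ∈ S.H k := by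
  refine (MvPolynomial.mem_homogeneousSubmodule _ _).2 fun m hm => ?_
  rw [← (h m (MvPolynomial.mem_support_iff.2 hm)).1, Finsupp.degree_eq_weight_one]
  rfl

/-- A multiple of `M` by an element of the interior ideal. -/
theorem Ok.of_J {k : ℕ} {g : S.T} (hg : g ∈ S.J W W) (hk : g ∈ S.H k) (M : X →₀ ℕ) :
    Ok S W M.support (k + M.degree) (g * S.mo M) := by
  intro N hN
  obtain ⟨n, hn, rfl⟩ := mem_mul_mo hN
  have h4 : n.support ⊆ (n + M).support := by
    rw [supp_add_sup]
    exact Finset.subset_union_left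
  refine ⟨by rw [map_add, deg_of_H hk hn], ?_, fun h5 => ?_⟩
  · rw [supp_add_sup]
    exact Finset.subset_union_right
  · exact (S.mem_J.1 hg n hn (face_mono h4 h5)).trans (cr_mono h4)

/-- A multiple of `M` by an element of the interior ideal of the star. -/
theorem Ok.of_JT {k : ℕ} {τ : Finset X} {h : S.T} (hh : h ∈ S.JT τ W W) (hk : h ∈ S.H k)
    {M : X →₀ ℕ} (hM : M.support = τ) : Ok S W τ (k + M.degree) (h * S.mo M) := by
  intro N hN
  obtain ⟨n, hn, rfl⟩ := mem_mul_mo hN
  refine ⟨by rw [map_add, deg_of_H hk hn], ?_, fun h5 => ?_⟩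
  · rw [supp_add_sup, hM]
    exact Finset.subset_union_right
  · rw [supp_add_sup, hM] at h5 ⊢
    exact S.mem_JT.1 hh n hn h5

/-! ### The pieces -/

variable {w : X} {al s : S.T →ₗ[S.K] S.K} {g : S.T}

theorem Pce.al_zero (hP : Pce S W w al s g) {y : S.T}
    (h : ∀ N ∈ y.support, N.degree + 2 = W.card ∧ N.support ∉ S.fcs W) : al y = 0 :=
  form_zero fun N hN => hP.face N (h N hN).1 (h N hN).2

/-- The relation for a polynomial whose monomials are nonfaces. -/
theorem Pce.th_face (hP : Pce S W w al s g) {c : Ω} {N : X →₀ ℕ} (hd : N.degree + 3 = W.card)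
    (hN : N.support ∉ S.fcs W) : al (S.th c * S.mo N) = 0 := by
  rw [th_mul_mo', map_sum]
  refine Finset.sum_eq_zero fun u _ => ?_
  rw [map_smul, hP.face, smul_zero]
  · rw [deg_single_add]
    omega
  · rw [supp_single_add]
    exact fun h => hN (face_mono (Finset.subset_insert _ _) h)

theorem Pce.tr (hP : Pce S W w al s g) {τ : Finset X} {k : ℕ} {y : S.T} (hy : Ok S W τ k y)
    (hk : k + 3 = W.card) : S.Tr W (g * y) = s y + al (S.lam W * y) := by
  refine hP.gTr y hy.mem_J ?_
  have h1 : W.card - 3 = k := by omega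
  rw [h1]
  exact hy.mem_H

theorem Pce.s_face (hP : Pce S W w al s g) {z : X →₀ ℕ} (hd : z.degree + 3 = W.card)
    (hz : z.support ∉ S.fcs W) : s (S.mo z) = 0 := by
  have h1 : Ok S W ∅ z.degree (S.mo z) := by
    intro N hN
    rw [supp_mo, Finset.mem_singleton] at hN
    subst hN
    exact ⟨rfl, Finset.empty_subset _, fun h => absurd h hz⟩
  have h2 := hP.tr h1 hd
  rw [S.Tr_I (S.mul_I (mo_I hz) g), hP.al_zero, add_zero] at h2
  · exact h2.symm
  · intro N hN
    obtain ⟨u, -, n, hn, rfl⟩ := mem_mul_lam hN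
    rw [supp_mo, Finset.mem_singleton] at hn
    subst hn
    refine ⟨by rw [deg_single_add]; omega, ?_⟩
    rw [supp_single_add]
    exact fun h => hz (face_mono (Finset.subset_insert _ _) h)

theorem Pce.s_zero (hP : Pce S W w al s g) {τ : Finset X} {k : ℕ} {y : S.T}
    (hy : Ok S W τ k y) (hk : k + 3 = W.card)
    (h : ∀ z ∈ y.support, z.support ∈ S.fcs W → ¬ Ty S w ∅ z) : s y = 0 := by
  refine form_zero fun z hz => ?_
  obtain ⟨h1, -, h3⟩ := hy z hz
  by_cases h4 : z.support ∈ S.fcs W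
  · exact hP.s0 z (by omega) h3 (h z hz h4)
  · exact hP.s_face (by omega) h4

/-- The colours of `w` outside the other vertices. -/
theorem not_ty {τ : Finset X} {C : Finset Ω} {N : X →₀ ℕ} (h : τ ⊆ N.support)
    (h2 : (S.car w \ S.cr (τ.erase w)).card ≤ 2) : ¬ Ty S w C N := by
  intro h3
  have h4 := h3.big
  have h5 : τ.erase w ⊆ (N - Finsupp.single w 1).support := by
    intro v hv
    obtain ⟨hv1, hv2⟩ := Finset.mem_erase.1 hv
    have h6 := Finsupp.mem_support_iff.1 (h hv2)
    rw [Finsupp.mem_support_iff, Finsupp.tsub_apply, Finsupp.single_eq_of_ne hv1, Nat.sub_zero]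
    exact h6
  have h7 : (S.car w \ S.cr (N - Finsupp.single w 1).support) \ C ⊆
      S.car w \ S.cr (τ.erase w) := by
    intro c hc
    obtain ⟨hc1, -⟩ := Finset.mem_sdiff.1 hc
    obtain ⟨hc2, hc3⟩ := Finset.mem_sdiff.1 hc1
    exact Finset.mem_sdiff.2 ⟨hc2, fun h8 => hc3 (cr_mono h5 h8)⟩
  have h8 := Finset.card_le_card h7
  omega

/-- A product with `w` is not typed if the other factor covers the colours of `w`. -/
theorem not_ty_single {C : Finset Ω} {N : X →₀ ℕ} (h : S.car w ⊆ S.cr N.support ∪ C) :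
    ¬ Ty S w C (Finsupp.single w 1 + N) := by
  intro h3
  have h4 := h3.big
  rw [add_tsub_cancel_left] at h4
  have h5 : (S.car w \ S.cr N.support) \ C = ∅ := by
    rw [Finset.sdiff_eq_empty_iff_subset]
    intro c hc
    obtain ⟨h6, h7⟩ := Finset.mem_sdiff.1 hc
    exact (Finset.mem_union.1 (h h6)).resolve_left h7
  rw [h5, Finset.card_empty] at h4
  omega

theorem xT_mul_mo (τ : Finset X) (t : X →₀ ℕ) : S.xT τ * S.mo t = S.mo (chi τ + t) := by
  unfold Sub.xT
  rw [← mo_chi, Sub.mo, Sub.mo, Sub.mo, MvPolynomial.monomial_mul, mul_one]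

/-- Local duality for the piece, at a face which has at most two private colours for `w`. -/
theorem Pce.ld (hP : Pce S W w al s g) (hT : S.Top S.K) {τ : Finset X} (hτ : τ ∈ S.fcs W)
    (h2 : (S.car w \ S.cr (τ.erase w)).card ≤ 2) (hc : τ.card + 2 ≤ W.card) :
    ∃ h ∈ S.JT τ W W, h ∈ S.H 2 ∧ ∀ (k : ℕ) (y : S.T), Ok S W τ k y → k + 2 = W.card →
      al y = S.Tr W (h * y) := by
  obtain ⟨n, hn⟩ : ∃ n, n + 2 + τ.card = W.card := ⟨W.card - 2 - τ.card, by omega⟩
  have hK : S.KilT τ W n (al ∘ₗ LinearMap.mulLeft S.K (S.xT τ)) := by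
    refine ⟨fun y hy hyn => ?_, fun c hc k hk y hy hyk => ?_⟩
    · refine form_mul_zero _ fun t ht => ?_
      rw [xT_mul_mo]
      refine hP.face _ ?_ ?_
      · rw [map_add, chi_degree, deg_of_H hyn ht]
        omega
      · rw [supp_add_sup, chi_supp, Finset.union_comm]
        exact S.mem_IT.1 hy t ht
    · change al (S.xT τ * (S.th c * y)) = 0
      rw [← mul_assoc]
      refine form_mul_zero _ fun t ht => ?_
      have h3 : S.xT τ * S.th c * S.mo t = S.th c * S.mo (chi τ + t) := by
        rw [← xT_mul_mo]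
        ring
      rw [h3]
      have hd : (chi τ + t).degree + 3 = W.card := by
        rw [map_add, chi_degree, deg_of_H hyk ht]
        omega
      have hsup : (chi τ + t).support = t.support ∪ τ := by
        rw [supp_add_sup, chi_supp, Finset.union_comm]
      by_cases h4 : t.support ∪ τ ∈ S.fcs W
      · refine hP.th c hc _ hd ?_ (not_ty (τ := τ) ?_ h2)
        · rw [hsup]
          exact S.mem_JT.1 hy t ht h4
        · rw [hsup]
          exact Finset.subset_union_right
      · exact hP.th_face hd (by rw [hsup]; exact h4)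
  obtain ⟨h, hh1, hh2, hh3⟩ := repT hT (mem_fcs'.1 hτ).1 (k := 2) (n := n) (by omega) hK
  refine ⟨h, hh1, hh2, fun k y hy hk => ?_⟩
  have key : (al + S.Tr W ∘ₗ LinearMap.mulLeft S.K h) y = 0 := by
    refine form_zero fun N hN => ?_
    obtain ⟨h5, h6, h7⟩ := hy N hN
    obtain ⟨t, rfl⟩ : ∃ t : X →₀ ℕ, N = chi τ + t := by
      refine ⟨N - chi τ, ?_⟩
      rw [add_tsub_cancel_of_le]
      intro v
      rw [chi_apply]
      split_ifs with hv
      · have := Finsupp.mem_support_iff.1 (h6 hv)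
        omega
      · exact Nat.zero_le _
    have hsup : (chi τ + t).support = t.support ∪ τ := by
      rw [supp_add_sup, chi_supp, Finset.union_comm]
    rw [map_add, chi_degree] at h5
    have h8 := hh3 (S.mo t) ?_ ?_
    · rw [LinearMap.add_apply, ← xT_mul_mo]
      change al (S.xT τ * S.mo t) + S.Tr W (h * (S.xT τ * S.mo t)) = 0
      have h9 : h * (S.xT τ * S.mo t) = S.xT τ * (h * S.mo t) := by ring
      rw [h9, ← h8]
      exact add_self _
    · rw [S.mem_JT]
      intro m hm
      rw [supp_mo, Finset.mem_singleton] at hm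
      subst hm
      rw [← hsup]
      exact h7
    · have h9 : t.degree = n := by omega
      rw [← h9]
      exact mo_H t
  rw [LinearMap.add_apply] at key
  have := S.charP_K
  exact CharTwo.add_eq_zero.1 key

/-- The form `al (w .)` on the interior ideal. -/
theorem Pce.bw (hP : Pce S W w al s g) (hT : S.Top S.K) (hW : 3 ≤ W.card) :
    ∃ b ∈ S.J W W, b ∈ S.H 3 ∧ ∀ (τ : Finset X) (k : ℕ) (y : S.T), Ok S W τ k y →
      k + 3 = W.card → al (MvPolynomial.X w * y) = S.Tr W (b * y) := by
  obtain ⟨n, hn⟩ : ∃ n, n + 3 = W.card := ⟨W.card - 3, by omega⟩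
  have hK : Kil S W n (al ∘ₗ LinearMap.mulLeft S.K (MvPolynomial.X w)) := by
    refine ⟨fun y hy hyn => ?_, fun c hc k hk y hy hyk => ?_⟩
    · refine form_mul_zero _ fun t ht => ?_
      rw [X_mul_mo]
      refine hP.face _ ?_ ?_
      · rw [deg_single_add, deg_of_H hyn ht]
        omega
      · rw [supp_single_add]
        exact fun h => S.mem_I.1 hy t ht (face_mono (Finset.subset_insert _ _) h)
    · change al (MvPolynomial.X w * (S.th c * y)) = 0
      rw [← mul_assoc]
      refine form_mul_zero _ fun t ht => ?_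
      have h3 : MvPolynomial.X w * S.th c * S.mo t = S.th c * S.mo (Finsupp.single w 1 + t) := by
        rw [← X_mul_mo]
        ring
      rw [h3]
      have hd : (Finsupp.single w 1 + t).degree + 3 = W.card := by
        rw [deg_single_add, deg_of_H hyk ht]
        omega
      by_cases h4 : (Finsupp.single w 1 + t).support ∈ S.fcs W
      · have h5 : t.support ∈ S.fcs W := by
          rw [supp_single_add] at h4
          exact face_mono (Finset.subset_insert _ _) h4
        have h6 := S.mem_J.1 hy t ht h5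
        have h7 : S.car w ⊆ W := by
          rw [supp_single_add] at h4
          refine Finset.Subset.trans ?_ (mem_fcs'.1 h4).2
          rw [cr_insert]
          exact Finset.subset_union_left
        refine hP.th c hc _ hd ?_ (not_ty_single ?_)
        · rw [supp_single_add, cr_insert]
          exact h6.trans Finset.subset_union_right
        · intro e he
          rw [Finset.mem_union, Finset.mem_singleton]
          by_cases hec : e = c
          · exact Or.inr hec
          · exact Or.inl (h6 (Finset.mem_erase.2 ⟨hec, h7 he⟩))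
      · exact hP.th_face hd h4
  obtain ⟨b, hb1, hb2, hb3⟩ := rep hT (j := 3) (n := n) (by omega) hK
  refine ⟨b, hb1, hb2, fun τ k y hy hk => ?_⟩
  have h1 : k = n := by omega
  subst h1
  exact hb3 y hy.mem_J hy.mem_H

/-! ### The honest monomials -/

theorem mem_lam_mo {M N : X →₀ ℕ} (h : N ∈ (S.lam W * S.mo M).support) :
    ∃ u, S.car u ⊆ W ∧ N = Finsupp.single u 1 + M := by
  obtain ⟨u, hu, n, hn, rfl⟩ := mem_mul_lam h
  rw [supp_mo, Finset.mem_singleton] at hn
  exact ⟨u, hu, by rw [hn]⟩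

/-- A member of `N (s)` is interior. -/
theorem NN.cr {s N : X →₀ ℕ} (h : NN S.car W s N) : W ⊆ S.cr N.support := by
  intro c hc
  obtain ⟨v, hv, hcv⟩ := h.exists_mem hc
  exact Finset.mem_biUnion.2 ⟨v, hv, hcv⟩

theorem ok_mo {τ : Finset X} {N : X →₀ ℕ} (h1 : τ ⊆ N.support)
    (h2 : N.support ∈ S.fcs W → W ⊆ S.cr N.support) : Ok S W τ N.degree (S.mo N) := by
  intro m hm
  rw [supp_mo, Finset.mem_singleton] at hm
  subst hm
  exact ⟨rfl, h1, h2⟩

/-- The square functional at `lam M`, if `al` is a multiple of the trace at the multiples of `M`. -/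
theorem sqL_lam_tr (hT : S.Top S.K) [Nonempty X] {al : S.T →ₗ[S.K] S.K} {h : S.T} {k : ℕ}
    {M : X →₀ ℕ} (hh : h ∈ S.JT M.support W W) (hk : h ∈ S.H k)
    (hd : M.degree + 1 + 2 * k = W.card)
    (hal : ∀ N : X →₀ ℕ, N.degree + k = W.card → M.support ⊆ N.support → W ⊆ S.cr N.support →
      al (S.mo N) = S.Tr W (h * S.mo N)) :
    sqL S.a W al (S.lam W * S.mo M) = S.Tr W (h ^ 2 * (S.lam W * S.mo M)) := by
  rw [← p5 hT]
  · refine sqL_congr fun s hs N hN => ?_
    obtain ⟨u, -, rfl⟩ := mem_lam_mo hs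
    have h1 := hN.degree_eq
    rw [deg_single_add] at h1
    refine hal N (by omega) ?_ hN.cr
    refine Finset.Subset.trans ?_ hN.support
    rw [supp_single_add]
    exact Finset.subset_insert _ _
  · intro s hs n hn
    obtain ⟨u, -, rfl⟩ := mem_lam_mo hs
    refine ⟨?_, fun h5 => ?_⟩
    · rw [map_add, map_nsmul, deg_single_add, deg_of_H hk hn, smul_eq_mul]
      omega
    · have h6 : n.support ∪ M.support ⊆ (2 • n + (Finsupp.single u 1 + M)).support := by
        intro v hv
        rw [Finset.mem_union, Finsupp.mem_support_iff, Finsupp.mem_support_iff] at hv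
        rw [Finsupp.mem_support_iff, Finsupp.add_apply, Finsupp.add_apply, Finsupp.smul_apply,
          smul_eq_mul]
        omega
      exact (S.mem_JT.1 hh n hn (face_mono h6 h5)).trans (cr_mono h6)

/-- Nonfaces. -/
theorem Pce.ee_face (hP : Pce S W w al s g) [Nonempty X] {M : X →₀ ℕ}
    (hd : M.degree + 5 = W.card) (hM : M.support ∉ S.fcs W) : ee S W al g (S.mo M) = 0 := by
  have := S.charP_K
  rw [ee_apply, hP.al_zero, add_zero]
  · refine form_zero fun s hs => ?_
    obtain ⟨u, -, rfl⟩ := mem_lam_mo hs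
    refine (sqL_mon_zero (drv_sub S) _ _).2 fun N hN => ?_
    have h1 := hN.degree_eq
    rw [deg_single_add] at h1
    refine hP.face N (by omega) fun h2 => hM (face_mono ?_ h2)
    refine Finset.Subset.trans ?_ hN.support
    rw [supp_single_add]
    exact Finset.subset_insert _ _
  · intro N hN
    obtain ⟨n, hn, rfl⟩ := mem_mul_mo hN
    refine ⟨?_, fun h2 => hM (face_mono ?_ h2)⟩
    · rw [map_add, deg_of_H hP.gH hn]
      omega
    · rw [supp_add_sup]
      exact Finset.subset_union_right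

theorem supp_card_le_deg (M : X →₀ ℕ) : M.support.card ≤ M.degree := by
  rw [Finsupp.degree, Finset.card_eq_sum_ones]
  exact Finset.sum_le_sum fun v hv => Nat.one_le_iff_ne_zero.2 (Finsupp.mem_support_iff.1 hv)

/-- (1) for `e`. -/
theorem Pce.ho (hP : Pce S W w al s g) (hT : S.Top S.K) [Nonempty X] {M : X →₀ ℕ}
    (hd : M.degree + 5 = W.card) (h2 : (S.car w \ S.cr (M.support.erase w)).card ≤ 2) :
    ee S W al g (S.mo M) = 0 := by
  by_cases hM : M.support ∈ S.fcs W
  swap
  · exact hP.ee_face hd hM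
  have hcs := supp_card_le_deg M
  obtain ⟨h, hh1, hh2, hh3⟩ := hP.ld hT hM h2 (by omega)
  have k1 : Ok S W M.support (3 + M.degree) (g * S.mo M) := Ok.of_J hP.gJ hP.gH M
  have k2 : Ok S W M.support (2 + M.degree) (h * S.mo M) := Ok.of_JT hh1 hh2 rfl
  have e1 := sqL_lam_tr hT (al := al) (k := 2) hh1 hh2 (by omega) fun N hN h3 h4 =>
    hh3 _ _ (ok_mo h3 fun _ => h4) hN
  have e2 := hh3 _ _ k1 (by omega)
  have e3 := hP.tr k2 (by omega)
  have e4 := hP.s_zero k2 (by omega) fun z hz _ => not_ty (k2 z hz).2.1 h2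
  have e5 := hh3 _ _ k2.mul_lam (by omega)
  have e6 : h * (g * S.mo M) = g * (h * S.mo M) := by ring
  have e7 : h ^ 2 * (S.lam W * S.mo M) = h * (S.lam W * (h * S.mo M)) := by ring
  rw [ee_apply, e1, e2, e6, e3, e4, zero_add, e5, e7]
  exact add_self _

variable {w' : X} {al' s' : S.T →ₗ[S.K] S.K} {g' : S.T}

theorem Pce.dd_face (hP : Pce S W w al s g) (hP' : Pce S W w' al' s' g') {M : X →₀ ℕ}
    (hd : M.degree + 5 = W.card) (hM : M.support ∉ S.fcs W) :
    dd2 S al al' g g' (S.mo M) = 0 := by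
  have key : ∀ (p : S.T), p ∈ S.H 3 → ∀ N ∈ (p * S.mo M).support, N.degree + 2 = W.card ∧
      N.support ∉ S.fcs W := by
    intro p hp N hN
    obtain ⟨n, hn, rfl⟩ := mem_mul_mo hN
    refine ⟨?_, fun h2 => hM (face_mono ?_ h2)⟩
    · rw [map_add, deg_of_H hp hn]
      omega
    · rw [supp_add_sup]
      exact Finset.subset_union_right
  rw [dd2_apply, hP.al_zero (key _ hP'.gH), hP'.al_zero (key _ hP.gH), add_zero]

/-- (1) for `d`. -/
theorem Pce.ho2 (hP : Pce S W w al s g) (hP' : Pce S W w' al' s' g') (hT : S.Top S.K)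
    {M : X →₀ ℕ} (hd : M.degree + 5 = W.card)
    (h2 : (S.car w \ S.cr (M.support.erase w)).card ≤ 2)
    (h2' : (S.car w' \ S.cr (M.support.erase w')).card ≤ 2) :
    dd2 S al al' g g' (S.mo M) = 0 := by
  by_cases hM : M.support ∈ S.fcs W
  swap
  · exact hP.dd_face hP' hd hM
  have hcs := supp_card_le_deg M
  obtain ⟨h, hh1, hh2, hh3⟩ := hP.ld hT hM h2 (by omega)
  obtain ⟨h', hh1', hh2', hh3'⟩ := hP'.ld hT hM h2' (by omega)
  have k1 : Ok S W M.support (3 + M.degree) (g * S.mo M) := Ok.of_J hP.gJ hP.gH M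
  have k1' : Ok S W M.support (3 + M.degree) (g' * S.mo M) := Ok.of_J hP'.gJ hP'.gH M
  have k2 : Ok S W M.support (2 + M.degree) (h * S.mo M) := Ok.of_JT hh1 hh2 rfl
  have k2' : Ok S W M.support (2 + M.degree) (h' * S.mo M) := Ok.of_JT hh1' hh2' rfl
  have e1 : al (g' * S.mo M) = S.Tr W (h' * (S.lam W * (h * S.mo M))) := by
    have e6 : h * (g' * S.mo M) = g' * (h * S.mo M) := by ring
    rw [hh3 _ _ k1' (by omega), e6, hP'.tr k2 (by omega),
      hP'.s_zero k2 (by omega) fun z hz _ => not_ty (k2 z hz).2.1 h2', zero_add,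
      hh3' _ _ k2.mul_lam (by omega)]
  have e2 : al' (g * S.mo M) = S.Tr W (h * (S.lam W * (h' * S.mo M))) := by
    have e6 : h' * (g * S.mo M) = g * (h' * S.mo M) := by ring
    rw [hh3' _ _ k1 (by omega), e6, hP.tr k2' (by omega),
      hP.s_zero k2' (by omega) fun z hz _ => not_ty (k2' z hz).2.1 h2, zero_add,
      hh3 _ _ k2'.mul_lam (by omega)]
  have e3 : h * (S.lam W * (h' * S.mo M)) = h' * (S.lam W * (h * S.mo M)) := by ring
  rw [dd2_apply, e1, e2, e3]
  exact add_self _

/-! ### The monomials divisible by `w ^ 2` or by `w w'` -/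

/-- The square functional at a multiple of a square. -/
theorem sqL_X_sq (A : S.T →ₗ[S.K] S.K) (w : X) (y : S.T) :
    sqL S.a W A (MvPolynomial.X w * (MvPolynomial.X w * y)) =
      sqL S.a W (A ∘ₗ LinearMap.mulLeft S.K (MvPolynomial.X w)) y := by
  have := S.charP_K
  have key : sqL S.a W A ∘ₗ LinearMap.mulLeft S.K (MvPolynomial.X w * MvPolynomial.X w) =
      sqL S.a W (A ∘ₗ LinearMap.mulLeft S.K (MvPolynomial.X w)) := by
    refine ext_mon fun s => ?_
    have h1 : (MvPolynomial.X w * MvPolynomial.X w : S.T) * S.mo s =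
        S.mo (2 • Finsupp.single w 1 + s) := by
      rw [mul_assoc, X_mul_mo, X_mul_mo, two_nsmul, add_assoc]
    have h2 : mon (sqL S.a W A ∘ₗ LinearMap.mulLeft S.K
        (MvPolynomial.X w * MvPolynomial.X w)) s = mon (sqL S.a W A) (2 • Finsupp.single w 1 + s) :=
      congrArg (sqL S.a W A) h1
    have h3 : mon (A ∘ₗ LinearMap.mulLeft S.K (MvPolynomial.X w)) =
        fun N => mon A (Finsupp.single w 1 + N) := by
      funext N
      exact congrArg A (X_mul_mo w N)
    rw [h2, sqL_mon, sqL_mon, h3]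
    exact sq_mul S.a _ _ _ _
  have h4 := LinearMap.congr_fun key y
  rw [comp_mul, mul_assoc] at h4
  exact h4

theorem Pce.sqL_bw (hT : S.Top S.K) [Nonempty X] {al : S.T →ₗ[S.K] S.K} {w : X}
    {b : S.T} (hb1 : b ∈ S.J W W) (hb2 : b ∈ S.H 3)
    (hb3 : ∀ (τ : Finset X) (k : ℕ) (y : S.T), Ok S W τ k y →
      k + 3 = W.card → al (MvPolynomial.X w * y) = S.Tr W (b * y)) {M : X →₀ ℕ}
    (hd : M.degree + 7 = W.card) :
    sqL S.a W al (S.lam W * S.mo (Finsupp.single w 1 + (Finsupp.single w 1 + M))) =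
      S.Tr W (b ^ 2 * (S.lam W * S.mo M)) := by
  have h1 : S.lam W * S.mo (Finsupp.single w 1 + (Finsupp.single w 1 + M)) =
      MvPolynomial.X w * (MvPolynomial.X w * (S.lam W * S.mo M)) := by
    rw [← X_mul_mo, ← X_mul_mo]
    ring
  rw [h1, sqL_X_sq]
  refine sqL_lam_tr hT (k := 3) ?_ hb2 (by omega) fun N hN _ h4 =>
    hb3 ∅ N.degree _ (ok_mo (Finset.empty_subset _) fun _ => h4) hN
  rw [S.mem_JT]
  intro m hm h5
  exact (S.mem_J.1 hb1 m hm (face_mono Finset.subset_union_left h5)).trans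
    (cr_mono Finset.subset_union_left)

/-- A monomial of a product of an element of the interior ideal with `w'`. -/
theorem not_ty_J {b : S.T} (hb : b ∈ S.J W W) {u : X} {M z : X →₀ ℕ}
    (hz : z ∈ (b * S.mo (Finsupp.single u 1 + M)).support) (hf : z.support ∈ S.fcs W) :
    ¬ Ty S u ∅ z := by
  obtain ⟨n, hn, rfl⟩ := mem_mul_mo hz
  have h1 : n + (Finsupp.single u 1 + M) = Finsupp.single u 1 + (n + M) := by
    rw [add_left_comm]
  rw [h1] at hf ⊢
  refine not_ty_single ?_
  have h2 : n.support ⊆ (n + M).support := by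
    rw [supp_add_sup]
    exact Finset.subset_union_left
  have h3 : (n + M).support ⊆ (Finsupp.single u 1 + (n + M)).support := by
    rw [supp_single_add]
    exact Finset.subset_insert _ _
  have h4 := S.mem_J.1 hb n hn (face_mono (h2.trans h3) hf)
  rw [supp_single_add] at hf
  have h5 : S.car u ⊆ W := by
    refine Finset.Subset.trans ?_ (mem_fcs'.1 hf).2
    rw [cr_insert]
    exact Finset.subset_union_left
  exact (h5.trans (h4.trans (cr_mono h2))).trans Finset.subset_union_left

/-- (2) for `e`. -/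
theorem Pce.two (hP : Pce S W w al s g) (hT : S.Top S.K) [Nonempty X] {M : X →₀ ℕ}
    (hd : M.degree + 7 = W.card) :
    ee S W al g (S.mo (Finsupp.single w 1 + (Finsupp.single w 1 + M))) = 0 := by
  obtain ⟨b, hb1, hb2, hb3⟩ := hP.bw hT (by omega)
  have k1 : Ok S W (Finsupp.single w 1 + M).support (3 + (M.degree + 1))
      (g * S.mo (Finsupp.single w 1 + M)) := by
    have h := Ok.of_J hP.gJ hP.gH (Finsupp.single w 1 + M)
    rwa [deg_single_add] at h
  have k2 : Ok S W (Finsupp.single w 1 + M).support (3 + (M.degree + 1))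
      (b * S.mo (Finsupp.single w 1 + M)) := by
    have h := Ok.of_J hb1 hb2 (Finsupp.single w 1 + M)
    rwa [deg_single_add] at h
  have k3 : Ok S W _ (3 + M.degree) (b * S.mo M) := Ok.of_J hb1 hb2 M
  have e1 := Pce.sqL_bw hT hb1 hb2 hb3 hd
  have e2 : al (g * S.mo (Finsupp.single w 1 + (Finsupp.single w 1 + M))) =
      S.Tr W (b * (g * S.mo (Finsupp.single w 1 + M))) := by
    rw [← hb3 _ _ _ k1 (by omega), ← X_mul_mo w (Finsupp.single w 1 + M)]
    congr 1
    ring
  have e3 : S.Tr W (b * (g * S.mo (Finsupp.single w 1 + M))) =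
      al (S.lam W * (b * S.mo (Finsupp.single w 1 + M))) := by
    have e4 : b * (g * S.mo (Finsupp.single w 1 + M)) =
        g * (b * S.mo (Finsupp.single w 1 + M)) := by ring
    rw [e4, hP.tr k2 (by omega), hP.s_zero k2 (by omega) fun z hz hf => not_ty_J hb1 hz hf,
      zero_add]
  have e5 : al (S.lam W * (b * S.mo (Finsupp.single w 1 + M))) =
      S.Tr W (b * (S.lam W * (b * S.mo M))) := by
    rw [← hb3 _ _ _ k3.mul_lam (by omega), ← X_mul_mo w M]
    congr 1
    ring
  have e6 : b ^ 2 * (S.lam W * S.mo M) = b * (S.lam W * (b * S.mo M)) := by ring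
  rw [ee_apply, e1, e2, e3, e5, e6]
  exact add_self _

/-- (2) for `d`: the monomials divisible by `w w'`. -/
theorem Pce.ww2 (hP : Pce S W w al s g) (hP' : Pce S W w' al' s' g') (hT : S.Top S.K)
    {M : X →₀ ℕ} (hd : M.degree + 7 = W.card) :
    dd2 S al al' g g' (S.mo (Finsupp.single w 1 + (Finsupp.single w' 1 + M))) = 0 := by
  obtain ⟨b, hb1, hb2, hb3⟩ := hP.bw hT (by omega)
  obtain ⟨b', hb1', hb2', hb3'⟩ := hP'.bw hT (by omega)
  have kg : ∀ (p : S.T), p ∈ S.J W W → p ∈ S.H 3 → ∀ u, Ok S W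
      (Finsupp.single u 1 + M).support (3 + (M.degree + 1))
      (p * S.mo (Finsupp.single u 1 + M)) := by
    intro p hp1 hp2 u
    have h := Ok.of_J hp1 hp2 (Finsupp.single u 1 + M)
    rwa [deg_single_add] at h
  have k3 : Ok S W _ (3 + M.degree) (b * S.mo M) := Ok.of_J hb1 hb2 M
  have k3' : Ok S W _ (3 + M.degree) (b' * S.mo M) := Ok.of_J hb1' hb2' M
  have e1 : al (g' * S.mo (Finsupp.single w 1 + (Finsupp.single w' 1 + M))) =
      S.Tr W (b' * (S.lam W * (b * S.mo M))) := by
    have h1 : g' * S.mo (Finsupp.single w 1 + (Finsupp.single w' 1 + M)) =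
        MvPolynomial.X w * (g' * S.mo (Finsupp.single w' 1 + M)) := by
      rw [← X_mul_mo w (Finsupp.single w' 1 + M)]
      ring
    have h2 : b * (g' * S.mo (Finsupp.single w' 1 + M)) =
        g' * (b * S.mo (Finsupp.single w' 1 + M)) := by ring
    have h3 : S.lam W * (b * S.mo (Finsupp.single w' 1 + M)) =
        MvPolynomial.X w' * (S.lam W * (b * S.mo M)) := by
      rw [← X_mul_mo w' M]
      ring
    rw [h1, hb3 _ _ _ (kg g' hP'.gJ hP'.gH w') (by omega), h2, hP'.tr (kg b hb1 hb2 w') (by omega),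
      hP'.s_zero (kg b hb1 hb2 w') (by omega) fun z hz hf => not_ty_J hb1 hz hf, zero_add, h3,
      hb3' _ _ _ k3.mul_lam (by omega)]
  have e2 : al' (g * S.mo (Finsupp.single w 1 + (Finsupp.single w' 1 + M))) =
      S.Tr W (b * (S.lam W * (b' * S.mo M))) := by
    have h1 : g * S.mo (Finsupp.single w 1 + (Finsupp.single w' 1 + M)) =
        MvPolynomial.X w' * (g * S.mo (Finsupp.single w 1 + M)) := by
      rw [add_left_comm, ← X_mul_mo w' (Finsupp.single w 1 + M)]
      ring
    have h2 : b' * (g * S.mo (Finsupp.single w 1 + M)) =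
        g * (b' * S.mo (Finsupp.single w 1 + M)) := by ring
    have h3 : S.lam W * (b' * S.mo (Finsupp.single w 1 + M)) =
        MvPolynomial.X w * (S.lam W * (b' * S.mo M)) := by
      rw [← X_mul_mo w M]
      ring
    rw [h1, hb3' _ _ _ (kg g hP.gJ hP.gH w) (by omega), h2, hP.tr (kg b' hb1' hb2' w) (by omega),
      hP.s_zero (kg b' hb1' hb2' w) (by omega) fun z hz hf => not_ty_J hb1' hz hf, zero_add, h3,
      hb3 _ _ _ k3'.mul_lam (by omega)]
  have e3 : b * (S.lam W * (b' * S.mo M)) = b' * (S.lam W * (b * S.mo M)) := by ring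
  rw [dd2_apply, e1, e2, e3]
  exact add_self _

/-- A vertex of multiplicity at least two does not type. -/
theorem not_ty_two {C : Finset Ω} {z : X →₀ ℕ} (h : 2 ≤ z w) : ¬ Ty S w C z := by
  intro h3
  have h4 := h3.big
  have h5 : w ∈ (z - Finsupp.single w 1).support := by
    rw [Finsupp.mem_support_iff, Finsupp.tsub_apply, Finsupp.single_eq_same]
    omega
  have h6 : S.car w ⊆ S.cr (z - Finsupp.single w 1).support :=
    Finset.subset_biUnion_of_mem S.car h5
  rw [Finset.sdiff_eq_empty_iff_subset.2 h6, Finset.empty_sdiff, Finset.card_empty] at h4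
  omega

/-- (2) for `d`: the monomials divisible by `w ^ 2`. -/
theorem Pce.two2 (hP : Pce S W w al s g) (hP' : Pce S W w' al' s' g') (hT : S.Top S.K)
    {M : X →₀ ℕ} (hd : M.degree + 7 = W.card)
    (h2 : (S.car w' \ S.cr ((Finsupp.single w 1 + (Finsupp.single w 1 + M)).support.erase
      w')).card ≤ 2) :
    dd2 S al al' g g' (S.mo (Finsupp.single w 1 + (Finsupp.single w 1 + M))) = 0 := by
  have hd' : (Finsupp.single w 1 + (Finsupp.single w 1 + M)).degree + 5 = W.card := by
    rw [deg_single_add, deg_single_add]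
    omega
  by_cases hM : (Finsupp.single w 1 + (Finsupp.single w 1 + M)).support ∈ S.fcs W
  swap
  · exact hP.dd_face hP' hd' hM
  have hsup : (Finsupp.single w 1 + (Finsupp.single w 1 + M)).support =
      (Finsupp.single w 1 + M).support := by
    refine supp_single_add_mem ?_
    rw [supp_single_add]
    exact Finset.mem_insert_self _ _
  rw [hsup] at h2 hM
  have hcs := supp_card_le_deg (Finsupp.single w 1 + M)
  rw [deg_single_add] at hcs
  obtain ⟨b, hb1, hb2, hb3⟩ := hP.bw hT (by omega)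
  obtain ⟨h, hh1, hh2, hh3⟩ := hP'.ld hT hM h2 (by omega)
  have kg : ∀ (p : S.T), p ∈ S.J W W → p ∈ S.H 3 → Ok S W
      (Finsupp.single w 1 + M).support (3 + (M.degree + 1))
      (p * S.mo (Finsupp.single w 1 + M)) := by
    intro p hp1 hp2
    have h := Ok.of_J hp1 hp2 (Finsupp.single w 1 + M)
    rwa [deg_single_add] at h
  have kh : Ok S W (Finsupp.single w 1 + M).support (2 + (M.degree + 1))
      (h * S.mo (Finsupp.single w 1 + M)) := by
    have h' := Ok.of_JT hh1 hh2 (M := Finsupp.single w 1 + M) rfl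
    rwa [deg_single_add] at h'
  have kh2 : Ok S W (Finsupp.single w 1 + M).support (2 + (M.degree + 1 + 1))
      (h * S.mo (Finsupp.single w 1 + (Finsupp.single w 1 + M))) := by
    have h' := Ok.of_JT hh1 hh2 (M := Finsupp.single w 1 + (Finsupp.single w 1 + M)) hsup
    rwa [deg_single_add, deg_single_add] at h'
  have kg2 : Ok S W (Finsupp.single w 1 + M).support (3 + (M.degree + 1 + 1))
      (g * S.mo (Finsupp.single w 1 + (Finsupp.single w 1 + M))) := by
    have h' := Ok.of_J hP.gJ hP.gH (Finsupp.single w 1 + (Finsupp.single w 1 + M))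
    rwa [deg_single_add, deg_single_add, hsup] at h'
  have e1 : al (g' * S.mo (Finsupp.single w 1 + (Finsupp.single w 1 + M))) =
      S.Tr W (h * (S.lam W * (b * S.mo (Finsupp.single w 1 + M)))) := by
    have h1 : g' * S.mo (Finsupp.single w 1 + (Finsupp.single w 1 + M)) =
        MvPolynomial.X w * (g' * S.mo (Finsupp.single w 1 + M)) := by
      rw [← X_mul_mo w (Finsupp.single w 1 + M)]
      ring
    have h3 : b * (g' * S.mo (Finsupp.single w 1 + M)) =
        g' * (b * S.mo (Finsupp.single w 1 + M)) := by ring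
    rw [h1, hb3 _ _ _ (kg g' hP'.gJ hP'.gH) (by omega), h3, hP'.tr (kg b hb1 hb2) (by omega),
      hP'.s_zero (kg b hb1 hb2) (by omega) fun z hz _ => not_ty (kg b hb1 hb2 z hz).2.1 h2,
      zero_add, hh3 _ _ (kg b hb1 hb2).mul_lam (by omega)]
  have e2 : al' (g * S.mo (Finsupp.single w 1 + (Finsupp.single w 1 + M))) =
      S.Tr W (b * (S.lam W * (h * S.mo (Finsupp.single w 1 + M)))) := by
    have h3 : h * (g * S.mo (Finsupp.single w 1 + (Finsupp.single w 1 + M))) =
        g * (h * S.mo (Finsupp.single w 1 + (Finsupp.single w 1 + M))) := by ring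
    have h4 : S.lam W * (h * S.mo (Finsupp.single w 1 + (Finsupp.single w 1 + M))) =
        MvPolynomial.X w * (S.lam W * (h * S.mo (Finsupp.single w 1 + M))) := by
      rw [← X_mul_mo w (Finsupp.single w 1 + M)]
      ring
    rw [hh3 _ _ kg2 (by omega), h3, hP.tr kh2 (by omega), hP.s_zero kh2 (by omega), zero_add, h4,
      hb3 _ _ _ kh.mul_lam (by omega)]
    intro z hz _
    obtain ⟨n, hn, rfl⟩ := mem_mul_mo hz
    refine not_ty_two ?_
    rw [Finsupp.add_apply, Finsupp.add_apply, Finsupp.add_apply, Finsupp.single_eq_same]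
    omega
  have e3 : b * (S.lam W * (h * S.mo (Finsupp.single w 1 + M))) =
      h * (S.lam W * (b * S.mo (Finsupp.single w 1 + M))) := by ring
  rw [dd2_apply, e1, e2, e3]
  exact add_self _

theorem dd2_comm (al al' : S.T →ₗ[S.K] S.K) (g g' y : S.T) :
    dd2 S al al' g g' y = dd2 S al' al g' g y := by
  rw [dd2_apply, dd2_apply, add_comm]

end Pool.Agent.LH4
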