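import Pool.Agent.LH4.Vgf3

/-!
# Functionals on the good monomials of degree `|W| - 2`
-/

set_option autoImplicit false

open Finset

namespace Pool.Agent.LH4

/-! ### Every good monomial is in some `N(s)` -/

section comb

variable {X Ω : Type} [Fintype X] [DecidableEq X] [DecidableEq Ω] {car : X → Finset Ω}
  {W : Finset Ω}

/-- Hall's theorem: a good monomial is in some `N(s)`. -/
theorem NN.of_good [Nonempty X] {N : X →₀ ℕ} (hcar : ∀ v ∈ N.support, car v ⊆ W)
    (hU : ∀ U ⊆ W, 2 * dgU car U N + W.card ≤ 2 * N.degree + U.card) :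
    ∃ s : X →₀ ℕ, NN car W s N := by
  classical
  let t : {c // c ∈ W} → Finset (Σ _ : X, ℕ) := fun c =>
    (univ.filter (fun v => (c : Ω) ∈ car v)).sigma (fun v => range (2 * N v))
  have hall : ∀ C : Finset {c // c ∈ W}, C.card ≤ (C.biUnion t).card := by
    intro C
    set C' : Finset Ω := C.map (Function.Embedding.subtype _) with hC'
    have hC'W : C' ⊆ W := by
      intro c hc
      rw [hC', Finset.mem_map] at hc
      obtain ⟨c', _, rfl⟩ := hc
      exact c'.2
    have hcard : C'.card = C.card := Finset.card_map _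
    have h1 := hU (W \ C') Finset.sdiff_subset
    have h2 : ((univ.filter (fun v => ¬ Disjoint (car v) C')).sigma (fun v => range (2 * N v))) ⊆
        C.biUnion t := by
      rintro ⟨v, i⟩ hvi
      rw [Finset.mem_sigma, Finset.mem_filter] at hvi
      obtain ⟨⟨_, hv⟩, hi⟩ := hvi
      rw [Finset.not_disjoint_iff] at hv
      obtain ⟨c, hc, hc'⟩ := hv
      rw [hC', Finset.mem_map] at hc'
      obtain ⟨c', hcs, rfl⟩ := hc'
      rw [Finset.mem_biUnion]
      refine ⟨c', hcs, ?_⟩
      rw [Finset.mem_sigma, Finset.mem_filter]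
      exact ⟨⟨Finset.mem_univ _, hc⟩, hi⟩
    refine le_trans ?_ (Finset.card_le_card h2)
    rw [Finset.card_sigma]
    simp only [Finset.card_range]
    rw [← Finset.mul_sum]
    have h3 : ∑ v, N v = ∑ v ∈ univ.filter (fun v => ¬ Disjoint (car v) C'), N v +
        ∑ v ∈ univ.filter (fun v => Disjoint (car v) C'), N v := by
      rw [add_comm]
      exact (Finset.sum_filter_add_sum_filter_not univ _ _).symm
    have h4 : ∑ v ∈ univ.filter (fun v => Disjoint (car v) C'), N v ≤ dgU car (W \ C') N := by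
      rw [dgU, ← Finset.sum_filter_ne_zero]
      refine Finset.sum_le_sum_of_subset fun v hv => ?_
      rw [Finset.mem_filter, Finset.mem_filter] at hv
      obtain ⟨⟨-, hd⟩, hkv0⟩ := hv
      rw [Finset.mem_filter]
      refine ⟨Finset.mem_univ _, ?_⟩
      have h5 : v ∈ N.support := Finsupp.mem_support_iff.2 hkv0
      exact Finset.subset_sdiff.2 ⟨hcar v h5, hd⟩
    have h6 : (W \ C').card + C'.card = W.card := Finset.card_sdiff_add_card_eq_card hC'W
    have h7 : N.degree = ∑ v, N v := Finsupp.degree_eq_sum N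
    omega
  obtain ⟨f, hf, hft⟩ := (Finset.all_card_le_biUnion_card_iff_exists_injective t).1 hall
  have hft' : ∀ c : {c // c ∈ W}, (c : Ω) ∈ car (f c).1 ∧ (f c).2 < 2 * N (f c).1 := by
    intro c
    have h1 := hft c
    rw [Finset.mem_sigma, Finset.mem_filter, Finset.mem_range] at h1
    exact ⟨h1.1.2, h1.2⟩
  set J : Ω → X := fun c => if h : c ∈ W then (f ⟨c, h⟩).1 else Classical.arbitrary X with hJ
  have hJW : ∀ c (h : c ∈ W), J c = (f ⟨c, h⟩).1 := fun c h => by rw [hJ]; exact dif_pos h
  have hle : ∀ v, (W.filter (fun c => J c = v)).card ≤ 2 * N v := by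
    intro v
    have h1 : 2 * N v = (range (2 * N v)).card := (Finset.card_range _).symm
    rw [h1]
    refine Finset.card_le_card_of_injOn (fun c => if h : c ∈ W then (f ⟨c, h⟩).2 else 0) ?_ ?_
    · intro c hc
      rw [Finset.mem_coe, Finset.mem_filter] at hc
      obtain ⟨hc, hcv⟩ := hc
      rw [hJW c hc] at hcv
      beta_reduce
      rw [dif_pos hc, Finset.mem_coe, Finset.mem_range, ← hcv]
      exact (hft' ⟨c, hc⟩).2
    · intro c hc c' hc' hcc
      rw [Finset.mem_coe, Finset.mem_filter] at hc hc'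
      obtain ⟨hc, hcv⟩ := hc
      obtain ⟨hc', hcv'⟩ := hc'
      rw [hJW c hc] at hcv
      rw [hJW c' hc'] at hcv'
      beta_reduce at hcc
      rw [dif_pos hc, dif_pos hc'] at hcc
      have h1 : f ⟨c, hc⟩ = f ⟨c', hc'⟩ := by
        rw [Sigma.ext_iff]
        exact ⟨hcv.trans hcv'.symm, heq_of_eq hcc⟩
      exact congrArg Subtype.val (hf h1)
  have hcnt : ∀ v, (∑ c ∈ W, Finsupp.single (J c) 1 : X →₀ ℕ) v =
      (W.filter fun c => J c = v).card := by
    intro v
    rw [Finsupp.finsetSum_apply, Finset.card_filter]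
    exact Finset.sum_congr rfl fun c _ => by rw [Finsupp.single_apply]
  refine ⟨2 • N - ∑ c ∈ W, Finsupp.single (J c) 1, J, fun c hc => ?_, ?_⟩
  · rw [hJW c hc]
    exact (hft' ⟨c, hc⟩).1
  · refine add_tsub_cancel_of_le fun v => ?_
    rw [hcnt, Finsupp.smul_apply, smul_eq_mul]
    exact hle v

end comb

open Pool.Agent.LocH

variable {X Ω : Type} [Fintype X] [DecidableEq X] [Fintype Ω] [DecidableEq Ω] {S : Sub X Ω}

omit [Fintype Ω] in
theorem lf_lam (W : Finset Ω) :
    lf (fun v => if S.car v ⊆ W then (1 : S.K) else 0) = S.lam W := by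
  unfold lf Sub.lam
  rw [Finset.sum_filter]
  refine Finset.sum_congr rfl fun v _ => ?_
  beta_reduce
  by_cases h : S.car v ⊆ W
  · rw [if_pos h, if_pos h, map_one, one_mul]
  · rw [if_neg h, if_neg h, map_zero, zero_mul]

theorem dgI_le_degree (U : Finset Ω) (n : X →₀ ℕ) : S.dgI U n ≤ n.degree := by
  rw [Finsupp.degree_eq_sum]
  exact Finset.sum_le_sum_of_subset (Finset.subset_univ _)

variable [Nonempty X] {W : Finset Ω}

/-- The form `A` on the monomials of degree `|W| - 2` which kills the relations that are available,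
and is zero at the monomials `N` with `N ^ 2 = x_I u M` for all monomials `M` of degree `|W| - 5` with a
large carrier, is zero at all good monomials. -/
theorem vgf_main (hT : S.Top S.K) (hW : 8 ≤ W.card) (A : S.T →ₗ[S.K] S.K)
    (hface : ∀ N : X →₀ ℕ, N.degree + 2 = W.card → N.support ∉ S.fcs W → A (S.mo N) = 0)
    (hth : ∀ c ∈ W, ∀ M : X →₀ ℕ, M.degree + 3 = W.card →
      (∀ U ⊆ W, c ∈ U → 2 * S.dgI U M + 6 ≤ W.card + U.card) → A (S.th c * S.mo M) = 0)
    (hlam : ∀ M : X →₀ ℕ, M.degree + 3 = W.card →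
      (∀ U ⊆ W, 2 * S.dgI U M + 6 ≤ W.card + U.card) → A (S.lam W * S.mo M) = 0)
    (H0 : ∀ M : X →₀ ℕ, M.degree + 5 = W.card → M.support ∈ S.fcs W →
      W.card ≤ (S.cr M.support).card + 2 → ∀ (u : X) (N : X →₀ ℕ),
      NN S.car W (Finsupp.single u 1 + M) N → A (S.mo N) = 0) :
    ∀ N : X →₀ ℕ, N.degree + 2 = W.card → (∀ U ⊆ W, 2 * S.dgI U N + 4 ≤ W.card + U.card) →
      A (S.mo N) = 0 := by
  have := S.charP_K
  have hD := drv_sub S
  obtain ⟨d, hd⟩ : ∃ d, d + 4 = W.card := ⟨W.card - 4, by omega⟩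
  have hmon : ∀ s : X →₀ ℕ, sqL S.a W A (S.mo s) = 0 ↔
      ∀ N, NN S.car W s N → A (S.mo N) = 0 := fun s => sqL_mon_zero hD A s
  have hf : Fz S W d (sqL S.a W A) := by
    refine ⟨fun s hs h => (hmon s).2 fun N hN => ?_, fun c hc s hs => ?_⟩
    · have h1 := hN.degree_eq
      refine hface N (by omega) fun h2 => h ?_
      have h3 := mem_fcs'.1 h2
      exact mem_fcs'.2 ⟨S.down _ h3.1 _ hN.support,
        (Finset.biUnion_subset_biUnion_of_subset_left _ hN.support).trans h3.2⟩
    · have h1 := sqL_th_zero hD hc A (S.mo s) ?_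
      · rw [lf_sub] at h1
        exact h1
      · intro s' hs' M hM
        rw [supp_mo, Finset.mem_singleton] at hs'
        subst hs'
        rw [lf_sub]
        have h2 := hM.degree_eq
        rw [Finset.card_erase_of_mem hc] at h2
        refine hth c hc M (by omega) fun U hU hcU => ?_
        have h3 := hM.dgU_le U
        rw [dgU_sub, dgU_sub] at h3
        have h4 := dgI_le_degree (S := S) U s'
        have h5 : (W.erase c ∩ U).card ≤ (U.erase c).card := by
          refine Finset.card_le_card fun e he => ?_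
          rw [Finset.mem_inter, Finset.mem_erase] at he
          exact Finset.mem_erase.2 ⟨he.1.1, he.2⟩
        rw [Finset.card_erase_of_mem hcU] at h5
        have h6 : 1 ≤ U.card := Finset.card_pos.2 ⟨c, hcU⟩
        omega
  have hl : ∀ t : X →₀ ℕ, t.degree + 2 = d → sqL S.a W A (S.lam W ^ 2 * S.mo t) = 0 := by
    intro t ht
    have h1 := sqL_lam_zero (W := W) hD (fun v => if S.car v ⊆ W then (1 : S.K) else 0) A
      (S.mo t) ?_
    · rw [lf_lam] at h1
      exact h1
    · intro s' hs' M hM
      rw [supp_mo, Finset.mem_singleton] at hs'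
      subst hs'
      rw [lf_lam]
      have h2 := hM.degree_eq
      refine hlam M (by omega) fun U hU => ?_
      have h3 := hM.dgU_le U
      rw [dgU_sub, dgU_sub] at h3
      have h4 := dgI_le_degree (S := S) U s'
      have h5 : (W ∩ U).card ≤ U.card := Finset.card_le_card Finset.inter_subset_right
      omega
  have hall := vgf hT hW hd hf hl fun M hM hMW hc u => (hmon _).2 fun N hN =>
    H0 M (by omega) hMW hc u N hN
  intro N hN hU
  by_cases hs : N.support ∈ S.fcs W
  · have h1 := mem_fcs'.1 hs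
    obtain ⟨s, hs⟩ := NN.of_good (car := S.car) (W := W) (N := N)
      (fun v hv => (Finset.subset_biUnion_of_mem S.car hv).trans h1.2) (fun U hUW => by
        rw [dgU_sub]
        have := hU U hUW
        omega)
    have h2 := hs.degree_eq
    exact (hmon s).1 (hall s (by omega)) N hs
  · exact hface N hN hs

end Pool.Agent.LH4
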