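import Pool.Agent.LH4.Vgf2

/-!
# (We) The descent over the carriers for the two kinds of correction terms (row 1201, (4) and (5))
-/

set_option autoImplicit false

open Finset

namespace Pool.Agent.LH4

open Pool.Agent.LocH

variable {X Ω : Type} [Fintype X] [DecidableEq X] [Fintype Ω] [DecidableEq Ω] {S : Sub X Ω}

/-! ### One carrier -/

/-- The restriction of a form to `U`, when the relations are known only for the monomials of the
restriction to `U` whose carriers contain all but one element of `U`. -/
theorem kil_rs' {W U : Finset Ω} {d : ℕ} {f : S.T →ₗ[S.K] S.K}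
    (hface : ∀ s : X →₀ ℕ, s.degree = d → s.support ∉ S.fcs W → f (S.mo s) = 0)
    (hth : ∀ c ∈ U, ∀ s : X →₀ ℕ, s.degree + 1 = d → s.support ∈ S.fcs U →
      U.erase c ⊆ S.cr s.support → f (S.th c * S.mo s) = 0)
    (hd : Dd S W U d f) : Kil S U d (rs S U f) := by
  refine ⟨fun y hy _ => rs_I f hy, fun c hc k hk y hy hyk => ?_⟩
  refine form_mul_zero _ fun s hs => ?_
  have hsk : s.degree = k := deg_of_H hyk hs
  by_cases h1 : s.support ∈ S.fcs U
  · have h2 : U.erase c ⊆ S.cr s.support := S.mem_J.1 hy s hs h1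
    have h3 : ∀ v, S.a v c • rs S U f (S.mo (Finsupp.single v 1 + s)) =
        S.a v c • f (S.mo (Finsupp.single v 1 + s)) := by
      intro v
      by_cases hv : c ∈ S.car v
      · rw [rs_mo_eq]
        intro h4
        have h5 : (Finsupp.single v 1 + s).degree = d := by rw [deg_single_add, hsk, hk]
        have h6 : U ⊆ S.cr (Finsupp.single v 1 + s).support := by
          rw [supp_single_add, cr_insert]
          intro e he
          by_cases hec : e = c
          · rw [hec]
            exact Finset.mem_union_left _ hv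
          · exact Finset.mem_union_right _ (h2 (Finset.mem_erase.2 ⟨hec, he⟩))
        by_cases h7 : (Finsupp.single v 1 + s).support ∈ S.fcs W
        · refine hd _ h5 h7 ⟨h6, fun h8 => h4 ?_⟩
          exact mem_fcs'.2 ⟨(mem_fcs'.1 h7).1, h8⟩
        · exact hface _ h5 h7
      · rw [S.a_zero hv, zero_smul, zero_smul]
    rw [th_mul_mo', map_sum]
    have h4 := hth c hc s (by rw [hsk, hk]) h1 h2
    rw [th_mul_mo', map_sum] at h4
    rw [← h4]
    refine Finset.sum_congr rfl fun v _ => ?_
    rw [map_smul, map_smul, h3]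
  · exact rs_I f (S.mul_I (mo_I h1) _)

/-- One step of the descent. -/
theorem we_core (hT : S.Top S.K) {W U : Finset Ω} (hW : 9 ≤ W.card) (hU : U ⊆ W) {n : ℕ}
    (hn : n + 6 = W.card) {f : S.T →ₗ[S.K] S.K}
    (hface : ∀ s : X →₀ ℕ, s.degree = n → s.support ∉ S.fcs W → f (S.mo s) = 0)
    (hth : ∀ c ∈ U, ∀ s : X →₀ ℕ, s.degree + 1 = n → s.support ∈ S.fcs U →
      U.erase c ⊆ S.cr s.support → f (S.th c * S.mo s) = 0)
    (hlam : ∀ s : X →₀ ℕ, s.degree + 1 = n → s.support ∈ S.fcs U → S.cr s.support = U →
      f (S.lam W * S.mo s) = 0)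
    (hd : Dd S W U n f) (hU1 : 1 ≤ U.card) (hU2 : U.card ≤ n + 2) {s : X →₀ ℕ}
    (hs : s.degree = n) (hsW : s.support ∈ S.fcs W) (hsU : S.cr s.support = U) :
    f (S.mo s) = 0 := by
  have hK := kil_rs' hface hth hd
  have h3 : s.support ∈ S.fcs U := mem_fcs'.2 ⟨(mem_fcs'.1 hsW).1, hsU.subset⟩
  rw [← rs_mo_eq fun h => absurd h3 h]
  have h4 : S.mo s ∈ S.H n := hs ▸ mo_H s
  have h5 : S.mo s ∈ S.J U U := mo_J fun _ => hsU.symm.subset
  rcases Nat.lt_or_ge U.card n with h6 | h6
  · exact F_zero hT hK h5 h4 (H_le_top hT h6 h4)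
  rcases Nat.eq_or_lt_of_le h6 with h7 | h7
  · obtain ⟨g, hg1, hg2, hg⟩ := rep hT (j := 0) (n := n) (by omega) hK
    rw [hg _ h5 h4, J_H_zero hU1 hg1 hg2, zero_mul, map_zero]
  · obtain ⟨k, hk⟩ : ∃ k, k + 1 = n := ⟨n - 1, by omega⟩
    obtain ⟨j, hj⟩ : ∃ j, k + 1 + j = U.card := ⟨U.card - n, by omega⟩
    subst hk
    refine rep_zero hT hj (TJ_le hT (by omega) (by omega)) hK
      (fun y hy hyn => form_mul_zero _ fun t ht => ?_) h5 h4
    have hdt := deg_of_H hyn ht
    by_cases h8 : t.support ∈ S.fcs U
    · have h9 := mem_fcs'.1 h8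
      have h10 : S.cr t.support = U := Finset.Subset.antisymm h9.2 (S.mem_J.1 hy t ht h8)
      have h11 := hlam t (by omega) h8 h10
      rw [lam_mul_mo, map_sum] at h11
      rw [lam_mul_mo, map_sum, ← h11]
      have h12 : univ.filter (fun v => S.car v ⊆ U) ⊆ univ.filter (fun v => S.car v ⊆ W) := by
        intro v hv
        rw [Finset.mem_filter] at hv ⊢
        exact ⟨hv.1, hv.2.trans hU⟩
      refine Eq.trans (Finset.sum_congr rfl fun v hv => ?_)
        (Finset.sum_subset h12 fun v hv hvU => ?_)
      · have hv' := (Finset.mem_filter.1 hv).2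
        rw [rs_mo_eq]
        intro h13
        refine hface _ (by rw [deg_single_add, hdt]) fun h14 => h13 ?_
        refine mem_fcs'.2 ⟨(mem_fcs'.1 h14).1, ?_⟩
        rw [supp_single_add, cr_insert, h10]
        exact Finset.union_subset hv' (Finset.Subset.refl _)
      · have hv' : ¬ S.car v ⊆ U := fun h => hvU (Finset.mem_filter.2 ⟨Finset.mem_univ _, h⟩)
        have h14 : (Finsupp.single v 1 + t).degree = k + 1 := by rw [deg_single_add, hdt]
        by_cases h13 : (Finsupp.single v 1 + t).support ∈ S.fcs W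
        · refine hd _ h14 h13 ?_
          rw [supp_single_add, cr_insert, h10]
          refine ⟨Finset.subset_union_right, fun h => hv' (Finset.subset_union_left.trans h)⟩
        · exact hface _ h14 h13
    · exact rs_I f (S.mul_I (mo_I h8) _)

/-! ### The shift by a vertex -/

/-- The form `y ↦ f (x_w y)`. -/
noncomputable def sh (w : X) (f : S.T →ₗ[S.K] S.K) : S.T →ₗ[S.K] S.K :=
  f ∘ₗ LinearMap.mulLeft S.K (MvPolynomial.X w : S.T)

omit [Fintype X] [Fintype Ω] in
theorem sh_apply (w : X) (f : S.T →ₗ[S.K] S.K) (y : S.T) :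
    sh w f y = f (MvPolynomial.X w * y) := rfl

theorem sh_mo (w : X) (f : S.T →ₗ[S.K] S.K) (s : X →₀ ℕ) :
    sh w f (S.mo s) = f (S.mo (Finsupp.single w 1 + s)) := by
  rw [sh_apply, X_mul_mo]

theorem sh_mul_mo (w : X) (f : S.T →ₗ[S.K] S.K) (p : S.T) (s : X →₀ ℕ) :
    sh w f (p * S.mo s) = f (p * S.mo (Finsupp.single w 1 + s)) := by
  rw [sh_apply, ← X_mul_mo, mul_left_comm]

theorem fcs_of_single {W : Finset Ω} {w : X} {s : X →₀ ℕ}
    (h : (Finsupp.single w 1 + s).support ∈ S.fcs W) : s.support ∈ S.fcs W := by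
  have h1 := mem_fcs'.1 h
  have h2 : s.support ⊆ (Finsupp.single w 1 + s).support := by
    rw [supp_single_add]
    exact Finset.subset_insert _ _
  exact mem_fcs'.2 ⟨S.down _ h1.1 _ h2,
    (Finset.biUnion_subset_biUnion_of_subset_left _ h2).trans h1.2⟩

/-- A product of a linear form with a nonface. -/
theorem th_nonface {W : Finset Ω} {d : ℕ} {f : S.T →ₗ[S.K] S.K}
    (hface : ∀ s : X →₀ ℕ, s.degree = d → s.support ∉ S.fcs W → f (S.mo s) = 0) (c : Ω)
    {s : X →₀ ℕ} (hs : s.degree + 1 = d) (h : s.support ∉ S.fcs W) :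
    f (S.th c * S.mo s) = 0 := by
  rw [th_mul_mo', map_sum]
  refine Finset.sum_eq_zero fun v _ => ?_
  rw [map_smul, hface _ (by rw [deg_single_add, hs]) fun h1 => h (fcs_of_single h1), smul_zero]

theorem lam_nonface {W U : Finset Ω} {d : ℕ} {f : S.T →ₗ[S.K] S.K}
    (hface : ∀ s : X →₀ ℕ, s.degree = d → s.support ∉ S.fcs W → f (S.mo s) = 0)
    {s : X →₀ ℕ} (hs : s.degree + 1 = d) (h : s.support ∉ S.fcs W) :
    f (S.lam U * S.mo s) = 0 := by
  rw [lam_mul_mo, map_sum]
  exact Finset.sum_eq_zero fun v _ => hface _ (by rw [deg_single_add, hs]) fun h1 =>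
    h (fcs_of_single h1)

theorem one_le_cr {W : Finset Ω} {s : X →₀ ℕ} (h : s.support ∈ S.fcs W) (hs : 1 ≤ s.degree) :
    1 ≤ (S.cr s.support).card := by
  refine le_trans ?_ (S.card_le _ (mem_fcs'.1 h).1)
  refine Finset.card_pos.2 (Finset.nonempty_iff_ne_empty.2 fun h1 => ?_)
  rw [Finsupp.support_eq_empty] at h1
  rw [h1] at hs
  have : (0 : X →₀ ℕ).degree = 0 := map_zero _
  omega

/-! ### The terms of one vertex -/

/-- (4) of row 1201. -/
theorem we_e (hT : S.Top S.K) {W : Finset Ω} (hW : 9 ≤ W.card) {w : X} (hw : S.car w ⊆ W)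
    {e : S.T →ₗ[S.K] S.K}
    (hface : ∀ M : X →₀ ℕ, M.degree + 5 = W.card → M.support ∉ S.fcs W → e (S.mo M) = 0)
    (hth : ∀ c ∈ W, ∀ M : X →₀ ℕ, M.degree + 6 = W.card → M.support ∈ S.fcs W →
      ((S.car w \ S.cr M.support) \ {c}).card ≤ 2 → e (S.th c * S.mo M) = 0)
    (hlam : ∀ M : X →₀ ℕ, M.degree + 6 = W.card → M.support ∈ S.fcs W →
      (S.car w \ S.cr M.support).card ≤ 2 → e (S.lam W * S.mo M) = 0)
    (hho : ∀ M : X →₀ ℕ, M.degree + 5 = W.card → M.support ∈ S.fcs W →
      (S.car w \ S.cr (M.support.erase w)).card ≤ 2 → e (S.mo M) = 0)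
    (htwo : ∀ M : X →₀ ℕ, M.degree + 7 = W.card →
      e (S.mo (Finsupp.single w 1 + (Finsupp.single w 1 + M))) = 0)
    (M : X →₀ ℕ) (hM : M.degree + 6 = W.card) : e (S.mo (Finsupp.single w 1 + M)) = 0 := by
  classical
  obtain ⟨n, hn⟩ : ∃ n, n + 6 = W.card := ⟨W.card - 6, by omega⟩
  induction hk : W.card - (S.cr M.support).card using Nat.strong_induction_on generalizing M with
  | _ k ih =>
  by_cases hf : (Finsupp.single w 1 + M).support ∈ S.fcs W
  swap
  · exact hface _ (by rw [deg_single_add]; omega) hf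
  have hMf : M.support ∈ S.fcs W := fcs_of_single hf
  have hMW := (mem_fcs'.1 hMf).2
  by_cases hwM : w ∈ M.support
  · have hle : Finsupp.single w 1 ≤ M := by
      rw [Finsupp.single_le_iff]
      have := Finsupp.mem_support_iff.1 hwM
      omega
    obtain ⟨M2, hM2⟩ := exists_add_of_le hle
    rw [hM2]
    refine htwo M2 ?_
    rw [hM2, deg_single_add] at hM
    omega
  have herase : (Finsupp.single w 1 + M).support.erase w = M.support := by
    rw [supp_single_add, Finset.erase_insert hwM]
  by_cases h2 : (S.car w \ S.cr M.support).card ≤ 2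
  · exact hho _ (by rw [deg_single_add]; omega) hf (by rw [herase]; exact h2)
  have hsub : S.car w \ S.cr M.support ⊆ W \ S.cr M.support := Finset.sdiff_subset_sdiff hw
    (Finset.Subset.refl _)
  have hc1 : (W \ S.cr M.support).card + (S.cr M.support).card = W.card :=
    Finset.card_sdiff_add_card_eq_card hMW
  have hc2 := Finset.card_le_card hsub
  rcases Nat.lt_or_ge (n + 2) (S.cr M.support).card with h3 | h3
  · -- the relation of a point outside
    have h4 : (W \ S.cr M.support).card = 3 := by omega
    obtain ⟨b, hb⟩ : (S.car w \ S.cr M.support).Nonempty := Finset.card_pos.1 (by omega)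
    have hb' := Finset.mem_sdiff.1 hb
    have h5 : ((W \ S.cr M.support) \ {b}).card = 2 := by
      rw [Finset.card_sdiff_of_subset (Finset.singleton_subset_iff.2 (hsub hb)), h4,
        Finset.card_singleton]
    have h6 := hth b (hw hb'.1) M hM hMf
      ((Finset.card_le_card (Finset.sdiff_subset_sdiff hsub (Finset.Subset.refl _))).trans h5.le)
    rw [th_mul_mo', map_sum, Finset.sum_eq_single w] at h6
    · rw [map_smul, smul_eq_mul] at h6
      exact (mul_eq_zero.1 h6).resolve_left (S.a_ne hb'.1)
    · intro v _ hvw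
      rw [map_smul]
      by_cases hvb : b ∈ S.car v
      · by_cases hvf : (Finsupp.single v 1 + M).support ∈ S.fcs W
        · rw [hho _ (by rw [deg_single_add]; omega) hvf, smul_zero]
          have h7 : (Finsupp.single v 1 + M).support.erase w = insert v M.support := by
            rw [supp_single_add, Finset.erase_insert_of_ne hvw, Finset.erase_eq_of_notMem hwM]
          rw [h7, cr_insert]
          refine (Finset.card_le_card ?_).trans h5.le
          intro c hc
          rw [Finset.mem_sdiff, Finset.mem_union, not_or] at hc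
          rw [Finset.mem_sdiff, Finset.mem_sdiff, Finset.mem_singleton]
          refine ⟨⟨hw hc.1, hc.2.2⟩, fun h8 => hc.2.1 (h8 ▸ hvb)⟩
        · rw [hface _ (by rw [deg_single_add]; omega) hvf, smul_zero]
      · rw [S.a_zero hvb, zero_smul]
    · intro h
      exact absurd (Finset.mem_univ _) h
  · rw [← sh_mo]
    refine we_core hT hW hMW hn (f := sh w e) ?_ ?_ ?_ ?_ ?_ h3 (by omega) hMf rfl
    · intro s hs hsW
      rw [sh_mo]
      exact hface _ (by rw [deg_single_add]; omega) fun h => hsW (fcs_of_single h)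
    · intro c hc s hs hsU hcs
      rw [sh_mul_mo]
      by_cases h7 : (Finsupp.single w 1 + s).support ∈ S.fcs W
      · refine hth c (hMW hc) _ (by rw [deg_single_add]; omega) h7 ?_
        rw [supp_single_add, cr_insert]
        have : (S.car w \ (S.car w ∪ S.cr s.support)) = ∅ :=
          Finset.sdiff_eq_empty_iff_subset.2 Finset.subset_union_left
        rw [this, Finset.empty_sdiff, Finset.card_empty]
        exact Nat.zero_le _
      · exact th_nonface (d := n + 1) (fun t ht h => hface t (by omega) h) c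
          (by rw [deg_single_add]; omega) h7
    · intro s hs hsU hcs
      rw [sh_mul_mo]
      by_cases h7 : (Finsupp.single w 1 + s).support ∈ S.fcs W
      · refine hlam _ (by rw [deg_single_add]; omega) h7 ?_
        rw [supp_single_add, cr_insert]
        have : (S.car w \ (S.car w ∪ S.cr s.support)) = ∅ :=
          Finset.sdiff_eq_empty_iff_subset.2 Finset.subset_union_left
        rw [this, Finset.card_empty]
        exact Nat.zero_le _
      · exact lam_nonface (d := n + 1) (fun t ht h => hface t (by omega) h)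
          (by rw [deg_single_add]; omega) h7
    · intro s hs hsW hcs
      rw [sh_mo]
      refine ih (W.card - (S.cr s.support).card) ?_ s (by omega) rfl
      have h8 := Finset.card_lt_card hcs
      have h9 := Finset.card_le_card (mem_fcs'.1 hsW).2
      omega
    · exact one_le_cr hMf (by omega)

/-! ### Two vertices -/

omit [Fintype X] [Fintype Ω] in
/-- A minor of two rows is not zero. -/
theorem minor_two {w w' : X} (hww : w ≠ w') {b b' : Ω} (hbb : b ≠ b') (h1 : b ∈ S.car w)
    (h2 : b' ∈ S.car w) (h3 : b ∈ S.car w') (h4 : b' ∈ S.car w') :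
    S.a w b * S.a w' b' + S.a w b' * S.a w' b ≠ 0 := by
  classical
  unfold Sub.a
  rw [dif_pos h1, dif_pos h2, dif_pos h3, dif_pos h4, ← map_mul, ← map_mul, ← map_add]
  refine (map_ne_zero_iff _ (IsFractionRing.injective _ _)).2 fun h => ?_
  have h5 := congrArg (MvPolynomial.eval (fun i : S.Ix =>
    if i = Sum.inl ⟨(w, b), h1⟩ ∨ i = Sum.inl ⟨(w', b'), h4⟩ then (1 : ZMod 2) else 0)) h
  simp only [map_add, map_mul, MvPolynomial.eval_X, map_zero] at h5
  have e1 : ¬ (w = w' ∧ b = b') := fun h => hww h.1
  simp [hww, hww.symm, hbb, hbb.symm] at h5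

/-- The hypotheses of the descent for the terms of two vertices. -/
structure DH (S : Sub X Ω) (W : Finset Ω) (w w' : X) (d : S.T →ₗ[S.K] S.K) : Prop where
  face : ∀ M : X →₀ ℕ, M.degree + 5 = W.card → M.support ∉ S.fcs W → d (S.mo M) = 0
  th : ∀ c ∈ W, ∀ M : X →₀ ℕ, M.degree + 6 = W.card → M.support ∈ S.fcs W →
    ((S.car w \ S.cr M.support) \ {c}).card ≤ 2 → ((S.car w' \ S.cr M.support) \ {c}).card ≤ 2 →
    d (S.th c * S.mo M) = 0
  lam : ∀ M : X →₀ ℕ, M.degree + 6 = W.card → M.support ∈ S.fcs W →
    (S.car w \ S.cr M.support).card ≤ 2 → (S.car w' \ S.cr M.support).card ≤ 2 →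
    d (S.lam W * S.mo M) = 0
  ho : ∀ M : X →₀ ℕ, M.degree + 5 = W.card → M.support ∈ S.fcs W →
    (S.car w \ S.cr (M.support.erase w)).card ≤ 2 →
    (S.car w' \ S.cr (M.support.erase w')).card ≤ 2 → d (S.mo M) = 0
  ww : ∀ M : X →₀ ℕ, M.degree + 7 = W.card →
    d (S.mo (Finsupp.single w 1 + (Finsupp.single w' 1 + M))) = 0
  two : ∀ M : X →₀ ℕ, M.degree + 7 = W.card →
    (S.car w' \ S.cr ((insert w M.support).erase w')).card ≤ 2 →
    d (S.mo (Finsupp.single w 1 + (Finsupp.single w 1 + M))) = 0
  two' : ∀ M : X →₀ ℕ, M.degree + 7 = W.card →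
    (S.car w \ S.cr ((insert w' M.support).erase w)).card ≤ 2 →
    d (S.mo (Finsupp.single w' 1 + (Finsupp.single w' 1 + M))) = 0

omit [Fintype Ω] in
theorem DH.symm {W : Finset Ω} {w w' : X} {d : S.T →ₗ[S.K] S.K} (h : DH S W w w' d) :
    DH S W w' w d where
  face := h.face
  th := fun c hc M hM hf h1 h2 => h.th c hc M hM hf h2 h1
  lam := fun M hM hf h1 h2 => h.lam M hM hf h2 h1
  ho := fun M hM hf h1 h2 => h.ho M hM hf h2 h1
  ww := fun M hM => by
    have := h.ww M hM
    rwa [add_left_comm] at this
  two := h.two'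
  two' := h.two

omit [Fintype X] [DecidableEq X] in
theorem exists_single_add {w : X} {M : X →₀ ℕ} (h : w ∈ M.support) :
    ∃ M', M = Finsupp.single w 1 + M' := by
  have hle : Finsupp.single w 1 ≤ M := by
    rw [Finsupp.single_le_iff]
    have := Finsupp.mem_support_iff.1 h
    omega
  exact exists_add_of_le hle

theorem we_d1 (hT : S.Top S.K) {W : Finset Ω} (hW : 9 ≤ W.card) {w w' : X} (hww : w ≠ w')
    (hw : S.car w ⊆ W) (hw' : S.car w' ⊆ W) {d : S.T →ₗ[S.K] S.K} (hd : DH S W w w' d)
    (M : X →₀ ℕ) (hM : M.degree + 6 = W.card)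
    (hdom : (S.car w' \ (S.car w ∪ S.cr M.support)).card ≤ 2) :
    d (S.mo (Finsupp.single w 1 + M)) = 0 := by
  classical
  obtain ⟨n, hn⟩ : ∃ n, n + 6 = W.card := ⟨W.card - 6, by omega⟩
  induction hk : W.card - (S.cr M.support).card using Nat.strong_induction_on generalizing M with
  | _ k ih =>
  by_cases hf : (Finsupp.single w 1 + M).support ∈ S.fcs W
  swap
  · exact hd.face _ (by rw [deg_single_add]; omega) hf
  have hMf : M.support ∈ S.fcs W := fcs_of_single hf
  have hMW := (mem_fcs'.1 hMf).2
  by_cases hw'M : w' ∈ M.support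
  · obtain ⟨M2, hM2⟩ := exists_single_add hw'M
    rw [hM2]
    refine hd.ww M2 ?_
    rw [hM2, deg_single_add] at hM
    omega
  have herase' : (Finsupp.single w 1 + M).support.erase w' = insert w M.support := by
    rw [supp_single_add, Finset.erase_insert_of_ne hww, Finset.erase_eq_of_notMem hw'M]
  by_cases hwM : w ∈ M.support
  · obtain ⟨M2, hM2⟩ := exists_single_add hwM
    rw [hM2]
    refine hd.two M2 ?_ ?_
    · rw [hM2, deg_single_add] at hM
      omega
    · have h1 : insert w M2.support = M.support := by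
        rw [hM2, supp_single_add]
      rw [h1, Finset.erase_eq_of_notMem hw'M]
      refine (Finset.card_le_card ?_).trans hdom
      refine Finset.sdiff_subset_sdiff (Finset.Subset.refl _) ?_
      exact Finset.union_subset (Finset.subset_biUnion_of_mem S.car hwM) (Finset.Subset.refl _)
  have herase : (Finsupp.single w 1 + M).support.erase w = M.support := by
    rw [supp_single_add, Finset.erase_insert hwM]
  by_cases h2 : (S.car w \ S.cr M.support).card ≤ 2
  · exact hd.ho _ (by rw [deg_single_add]; omega) hf (by rw [herase]; exact h2)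
      (by rw [herase', cr_insert]; exact hdom)
  have hsub : S.car w \ S.cr M.support ⊆ W \ S.cr M.support := Finset.sdiff_subset_sdiff hw
    (Finset.Subset.refl _)
  have hsub' : S.car w' \ S.cr M.support ⊆ W \ S.cr M.support := Finset.sdiff_subset_sdiff hw'
    (Finset.Subset.refl _)
  have hc1 : (W \ S.cr M.support).card + (S.cr M.support).card = W.card :=
    Finset.card_sdiff_add_card_eq_card hMW
  have hc2 := Finset.card_le_card hsub
  rcases Nat.lt_or_ge (n + 2) (S.cr M.support).card with h3 | h3
  · -- the relations of the points outside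
    have h4 : (W \ S.cr M.support).card = 3 := by omega
    have h5 : ∀ b ∈ S.car w \ S.cr M.support, ((W \ S.cr M.support) \ {b}).card = 2 := by
      intro b hb
      rw [Finset.card_sdiff_of_subset (Finset.singleton_subset_iff.2 (hsub hb)), h4,
        Finset.card_singleton]
    have hrel : ∀ b ∈ S.car w \ S.cr M.support,
        S.a w b * d (S.mo (Finsupp.single w 1 + M)) +
          S.a w' b * d (S.mo (Finsupp.single w' 1 + M)) = 0 := by
      intro b hb
      have hb' := Finset.mem_sdiff.1 hb
      have h6 := hd.th b (hw hb'.1) M hM hMf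
        ((Finset.card_le_card (Finset.sdiff_subset_sdiff hsub (Finset.Subset.refl _))).trans
          (h5 b hb).le)
        ((Finset.card_le_card (Finset.sdiff_subset_sdiff hsub' (Finset.Subset.refl _))).trans
          (h5 b hb).le)
      rw [th_mul_mo', map_sum, ← Finset.sum_subset (Finset.subset_univ ({w, w'} : Finset X)),
        Finset.sum_pair hww] at h6
      · rw [map_smul, map_smul, smul_eq_mul, smul_eq_mul] at h6
        exact h6
      · intro v _ hv
        rw [Finset.mem_insert, Finset.mem_singleton, not_or] at hv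
        rw [map_smul]
        by_cases hvb : b ∈ S.car v
        · by_cases hvf : (Finsupp.single v 1 + M).support ∈ S.fcs W
          · have h8 : ∀ x : X, S.car x ⊆ W →
                (S.car x \ S.cr (insert v M.support)).card ≤ 2 := by
              intro x hx
              rw [cr_insert]
              refine (Finset.card_le_card ?_).trans (h5 b hb).le
              intro c hc
              rw [Finset.mem_sdiff, Finset.mem_union, not_or] at hc
              rw [Finset.mem_sdiff, Finset.mem_sdiff, Finset.mem_singleton]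
              refine ⟨⟨hx hc.1, hc.2.2⟩, fun h8 => hc.2.1 (h8 ▸ hvb)⟩
            rw [hd.ho _ (by rw [deg_single_add]; omega) hvf, smul_zero]
            · rw [supp_single_add, Finset.erase_insert_of_ne hv.1,
                Finset.erase_eq_of_notMem hwM]
              exact h8 w hw
            · rw [supp_single_add, Finset.erase_insert_of_ne hv.2,
                Finset.erase_eq_of_notMem hw'M]
              exact h8 w' hw'
          · rw [hd.face _ (by rw [deg_single_add]; omega) hvf, smul_zero]
        · rw [S.a_zero hvb, zero_smul]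
    obtain ⟨b, hb, b', hb', hbb⟩ := Finset.one_lt_card.1
      (show 1 < (S.car w \ S.cr M.support).card by omega)
    have r1 := hrel b hb
    have r2 := hrel b' hb'
    have hbw := (Finset.mem_sdiff.1 hb).1
    have hbw' := (Finset.mem_sdiff.1 hb').1
    by_cases h6 : b ∈ S.car w'
    · by_cases h7 : b' ∈ S.car w'
      · have h8 := minor_two hww hbb hbw hbw' h6 h7
        have h9 : (S.a w b * S.a w' b' + S.a w b' * S.a w' b) *
            d (S.mo (Finsupp.single w 1 + M)) = 0 := by
          have h10 : (S.a w b * S.a w' b' + S.a w b' * S.a w' b) *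
              d (S.mo (Finsupp.single w 1 + M)) =
              S.a w' b' * (S.a w b * d (S.mo (Finsupp.single w 1 + M)) +
                S.a w' b * d (S.mo (Finsupp.single w' 1 + M))) +
              S.a w' b * (S.a w b' * d (S.mo (Finsupp.single w 1 + M)) +
                S.a w' b' * d (S.mo (Finsupp.single w' 1 + M))) -
              (2 : S.K) * (S.a w' b * S.a w' b' * d (S.mo (Finsupp.single w' 1 + M))) := by ring
          have := S.charP_K
          have h11 : (2 : S.K) = 0 := CharTwo.two_eq_zero
          rw [h10, r1, r2, h11, zero_mul, mul_zero, mul_zero, add_zero, sub_zero]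
        exact (mul_eq_zero.1 h9).resolve_left h8
      · rw [S.a_zero h7, zero_mul, add_zero] at r2
        exact (mul_eq_zero.1 r2).resolve_left (S.a_ne hbw')
    · rw [S.a_zero h6, zero_mul, add_zero] at r1
      exact (mul_eq_zero.1 r1).resolve_left (S.a_ne hbw)
  · rw [← sh_mo]
    have hcard : ∀ s : X →₀ ℕ, (S.car w \ S.cr (Finsupp.single w 1 + s).support) = ∅ := by
      intro s
      rw [supp_single_add, cr_insert]
      exact Finset.sdiff_eq_empty_iff_subset.2 Finset.subset_union_left
    refine we_core hT hW hMW hn (f := sh w d) ?_ ?_ ?_ ?_ ?_ h3 (by omega) hMf rfl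
    · intro s hs hsW
      rw [sh_mo]
      exact hd.face _ (by rw [deg_single_add]; omega) fun h => hsW (fcs_of_single h)
    · intro c hc s hs hsU hcs
      rw [sh_mul_mo]
      by_cases h7 : (Finsupp.single w 1 + s).support ∈ S.fcs W
      · refine hd.th c (hMW hc) _ (by rw [deg_single_add]; omega) h7 ?_ ?_
        · rw [hcard, Finset.empty_sdiff, Finset.card_empty]
          exact Nat.zero_le _
        · refine (Finset.card_le_card ?_).trans hdom
          rw [supp_single_add, cr_insert]
          intro e he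
          rw [Finset.mem_sdiff, Finset.mem_sdiff, Finset.mem_union, not_or,
            Finset.mem_singleton] at he
          rw [Finset.mem_sdiff, Finset.mem_union, not_or]
          refine ⟨he.1.1, he.1.2.1, fun h8 => he.1.2.2 (hcs (Finset.mem_erase.2 ⟨he.2, h8⟩))⟩
      · exact th_nonface (d := n + 1) (fun t ht h => hd.face t (by omega) h) c
          (by rw [deg_single_add]; omega) h7
    · intro s hs hsU hcs
      rw [sh_mul_mo]
      by_cases h7 : (Finsupp.single w 1 + s).support ∈ S.fcs W
      · refine hd.lam _ (by rw [deg_single_add]; omega) h7 ?_ ?_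
        · rw [hcard, Finset.card_empty]
          exact Nat.zero_le _
        · rw [supp_single_add, cr_insert, hcs]
          exact hdom
      · exact lam_nonface (d := n + 1) (fun t ht h => hd.face t (by omega) h)
          (by rw [deg_single_add]; omega) h7
    · intro s hs hsW hcs
      rw [sh_mo]
      refine ih (W.card - (S.cr s.support).card) ?_ s (by omega) ?_ rfl
      · have h8 := Finset.card_lt_card hcs
        have h9 := Finset.card_le_card (mem_fcs'.1 hsW).2
        omega
      · refine (Finset.card_le_card ?_).trans hdom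
        exact Finset.sdiff_subset_sdiff (Finset.Subset.refl _)
          (Finset.union_subset_union (Finset.Subset.refl _) hcs.1)
    · exact one_le_cr hMf (by omega)

/-- (5) of row 1201. -/
theorem we_d (hT : S.Top S.K) {W : Finset Ω} (hW : 9 ≤ W.card) {w w' : X} (hww : w ≠ w')
    (hw : S.car w ⊆ W) (hw' : S.car w' ⊆ W) {d : S.T →ₗ[S.K] S.K} (hd : DH S W w w' d)
    (M : X →₀ ℕ) (hM : M.degree + 5 = W.card) (hc : W.card ≤ (S.cr M.support).card + 2) :
    d (S.mo M) = 0 := by
  classical
  by_cases hf : M.support ∈ S.fcs W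
  swap
  · exact hd.face M hM hf
  have hMW := (mem_fcs'.1 hf).2
  have h1 : (W \ S.cr M.support).card + (S.cr M.support).card = W.card :=
    Finset.card_sdiff_add_card_eq_card hMW
  have h2 : ∀ x : X, S.car x ⊆ W → (S.car x \ S.cr M.support).card ≤ 2 := fun x hx =>
    (Finset.card_le_card (Finset.sdiff_subset_sdiff hx (Finset.Subset.refl _))).trans (by omega)
  by_cases hwM : w ∈ M.support
  · obtain ⟨M2, hM2⟩ := exists_single_add hwM
    have h3 := h2 w' hw'
    rw [hM2, supp_single_add, cr_insert] at h3
    rw [hM2]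
    refine we_d1 hT hW hww hw hw' hd M2 ?_ h3
    rw [hM2, deg_single_add] at hM
    omega
  by_cases hw'M : w' ∈ M.support
  · obtain ⟨M2, hM2⟩ := exists_single_add hw'M
    have h3 := h2 w hw
    rw [hM2, supp_single_add, cr_insert] at h3
    rw [hM2]
    refine we_d1 hT hW hww.symm hw' hw hd.symm M2 ?_ h3
    rw [hM2, deg_single_add] at hM
    omega
  · refine hd.ho M hM hf ?_ ?_
    · rw [Finset.erase_eq_of_notMem hwM]
      exact h2 w hw
    · rw [Finset.erase_eq_of_notMem hw'M]
      exact h2 w' hw'

end Pool.Agent.LH4
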