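import Pool.Agent.LH4.Pce
import Pool.Agent.LH4.P5
import Pool.Agent.LH4.We
import Pool.Agent.LH4.Vgf4
import Pool.Agent.LH4.Ho

/-!
# (Ed) The relations of the correction terms (row 1201, relations (a) and (b))
-/

set_option autoImplicit false

open Finset

namespace Pool.Agent.LH4

open Pool.Agent.LocH

variable {X Ω : Type} [Fintype X] [DecidableEq X] [Fintype Ω] [DecidableEq Ω] {S : Sub X Ω}
  {W : Finset Ω} {w w' : X} {al s al' s' : S.T →ₗ[S.K] S.K} {g g' : S.T}

/-! ### Types of products and of square roots -/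

omit [Fintype X] [Fintype Ω] [DecidableEq X] in
theorem mem_supp_add {n M : X →₀ ℕ} {v : X} : v ∈ (n + M).support ↔ v ∈ n.support ∨ v ∈ M.support := by
  rw [Finsupp.mem_support_iff, Finsupp.mem_support_iff, Finsupp.mem_support_iff,
    Finsupp.add_apply]
  omega

omit [Fintype X] [Fintype Ω] in
theorem mem_supp_tsub {M : X →₀ ℕ} {v w : X} (h : v ∈ M.support) (hvw : v ≠ w) :
    v ∈ (M - Finsupp.single w 1).support := by
  rw [Finsupp.mem_support_iff] at h ⊢
  rw [Finsupp.tsub_apply, Finsupp.single_apply, if_neg (fun h => hvw h.symm)]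
  omega

/-- A product with an interior monomial is typed only by vertices of that monomial. -/
theorem not_Ty_add {C : Finset Ω} {n M : X →₀ ℕ} (hnM : (n + M).support ∈ S.fcs W)
    (hn : W ⊆ S.cr n.support) (h : ((S.car w \ S.cr M.support) \ C).card ≤ 2) :
    ¬ Ty S w C (n + M) := by
  intro ht
  have h1 := ht.big
  have h2 : S.car w ⊆ W := (Finset.subset_biUnion_of_mem S.car ht.mem).trans (mem_fcs'.1 hnM).2
  by_cases hw : w ∈ M.support
  · have h3 : n.support ⊆ (n + M - Finsupp.single w 1).support := by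
      intro v hv
      rw [Finsupp.mem_support_iff] at hv hw ⊢
      rw [Finsupp.tsub_apply, Finsupp.add_apply, Finsupp.single_apply]
      by_cases hvw : w = v
      · subst hvw
        rw [if_pos rfl]
        omega
      · rw [if_neg hvw]
        omega
    have h4 : S.car w \ S.cr (n + M - Finsupp.single w 1).support = ∅ :=
      Finset.sdiff_eq_empty_iff_subset.2 (h2.trans (hn.trans (cr_mono h3)))
    rw [h4, Finset.empty_sdiff, Finset.card_empty] at h1
    omega
  · have h3 : M.support ⊆ (n + M - Finsupp.single w 1).support := by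
      intro v hv
      refine mem_supp_tsub (mem_supp_add.2 (Or.inr hv)) fun hvw => hw (hvw ▸ hv)
    have h4 := Finset.card_le_card (Finset.sdiff_subset_sdiff (Finset.sdiff_subset_sdiff
      (Finset.Subset.refl (S.car w)) (cr_mono (S := S) h3)) (Finset.Subset.refl C))
    omega

/-- The square roots are never typed. -/
theorem NN.not_Ty {V : Finset Ω} {t M : X →₀ ℕ} {C : Finset Ω} (h : NN S.car V t M)
    (hM : M.support ∈ S.fcs W) (hC : W \ C ⊆ V) : ¬ Ty S w C M := by
  classical
  intro ht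
  have h1 := ht.big
  have h2 : S.car w ⊆ W := (Finset.subset_biUnion_of_mem S.car ht.mem).trans (mem_fcs'.1 hM).2
  obtain ⟨J, hJ, hs⟩ := h
  set P : Finset Ω := (S.car w \ S.cr (M - Finsupp.single w 1).support) \ C with hP
  have hPV : P ⊆ V := by
    intro c hc
    rw [hP, Finset.mem_sdiff, Finset.mem_sdiff] at hc
    exact hC (Finset.mem_sdiff.2 ⟨h2 hc.1.1, hc.2⟩)
  have hJw : ∀ c ∈ P, J c = w := by
    intro c hc
    by_contra hne
    have h3 : J c ∈ M.support := by
      have h4 := DFunLike.congr_fun hs (J c)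
      rw [Finsupp.add_apply, Finsupp.finsetSum_apply, Finsupp.smul_apply, smul_eq_mul] at h4
      have h5 : 1 ≤ ∑ c' ∈ V, (Finsupp.single (J c') 1 : X →₀ ℕ) (J c) := by
        refine le_trans ?_ (Finset.single_le_sum (f := fun c' =>
          (Finsupp.single (J c') 1 : X →₀ ℕ) (J c)) (fun _ _ => Nat.zero_le _) (hPV hc))
        rw [Finsupp.single_eq_same]
      rw [Finsupp.mem_support_iff]
      omega
    rw [hP, Finset.mem_sdiff, Finset.mem_sdiff] at hc
    exact hc.1.2 (Finset.mem_biUnion.2 ⟨J c, mem_supp_tsub h3 hne,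
      hJ c (hPV (by rw [hP, Finset.mem_sdiff, Finset.mem_sdiff]; exact hc))⟩)
  have h3 : 3 ≤ 2 * M w := by
    have h4 := DFunLike.congr_fun hs w
    rw [Finsupp.add_apply, Finsupp.finsetSum_apply, Finsupp.smul_apply, smul_eq_mul] at h4
    have h5 : P.card ≤ ∑ c' ∈ V, (Finsupp.single (J c') 1 : X →₀ ℕ) w := by
      calc P.card = ∑ c' ∈ P, 1 := Finset.card_eq_sum_ones P
        _ = ∑ c' ∈ P, (Finsupp.single (J c') 1 : X →₀ ℕ) w := by
          refine Finset.sum_congr rfl fun c' hc' => ?_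
          rw [hJw c' hc', Finsupp.single_eq_same]
        _ ≤ _ := Finset.sum_le_sum_of_subset hPV
    omega
  have h4 : w ∈ (M - Finsupp.single w 1).support := by
    rw [Finsupp.mem_support_iff, Finsupp.tsub_apply, Finsupp.single_eq_same]
    omega
  have h6 : S.car w ⊆ S.cr (M - Finsupp.single w 1).support :=
    Finset.subset_biUnion_of_mem S.car h4
  have h5 : P = ∅ := by
    rw [hP, Finset.sdiff_eq_empty_iff_subset.2 h6, Finset.empty_sdiff]
  rw [h5, Finset.card_empty] at h1
  omega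

omit [Fintype X] [Fintype Ω] in
theorem NN.subset_cr {V : Finset Ω} {t M : X →₀ ℕ} (h : NN S.car V t M) :
    V ⊆ S.cr M.support := by
  intro c hc
  obtain ⟨v, hv, hcv⟩ := h.exists_mem hc
  exact Finset.mem_biUnion.2 ⟨v, hv, hcv⟩

/-! ### One piece -/

omit [Fintype Ω] in
theorem Pce.face' (P : Pce S W w al s g) {d : ℕ} (hd : d + 2 = W.card) :
    ∀ M : X →₀ ℕ, M.degree = d → M.support ∉ S.fcs W → al (S.mo M) = 0 :=
  fun M hM h => P.face M (by omega) h

theorem Pce.al_th (P : Pce S W w al s g) (c : Ω) {M : X →₀ ℕ} (hM : M.degree + 3 = W.card)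
    (h : M.support ∉ S.fcs W) : al (S.th c * S.mo M) = 0 :=
  th_nonface (d := M.degree + 1) (fun t ht h => P.face t (by omega) h) c rfl h

theorem Pce.al_lam (P : Pce S W w al s g) {M : X →₀ ℕ} (hM : M.degree + 3 = W.card)
    (h : M.support ∉ S.fcs W) : al (S.lam W * S.mo M) = 0 :=
  lam_nonface (d := M.degree + 1) (fun t ht h => P.face t (by omega) h) rfl h

/-- The value of the trace form at the untyped monomials. -/
theorem Pce.gTr_mo (P : Pce S W w al s g) {M : X →₀ ℕ} (hM : M.degree + 3 = W.card)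
    (hc : M.support ∈ S.fcs W → W ⊆ S.cr M.support)
    (ht : M.support ∈ S.fcs W → ¬ Ty S w ∅ M) :
    S.Tr W (g * S.mo M) = al (S.lam W * S.mo M) := by
  have h1 := P.gTr (S.mo M) (mo_J hc) (by
    have : W.card - 3 = M.degree := by omega
    rw [this]
    exact mo_H M)
  have h2 : s (S.mo M) = 0 := by
    by_cases h : M.support ∈ S.fcs W
    · exact P.s0 M hM hc (ht h)
    · exact P.s_face hM h
  rw [h2, zero_add] at h1
  exact h1

/-- The products with an interior element. -/
theorem Pce.th_mul (P : Pce S W w al s g) {b : S.T} (hb : b ∈ S.J W W) (hb3 : b ∈ S.H 3) {c : Ω}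
    (hc : c ∈ W) {M : X →₀ ℕ} (hM : M.degree + 6 = W.card)
    (h : ((S.car w \ S.cr M.support) \ {c}).card ≤ 2) : al (b * (S.th c * S.mo M)) = 0 := by
  have h1 : b * (S.th c * S.mo M) = S.th c * (b * S.mo M) := by ring
  rw [h1]
  change (al ∘ₗ LinearMap.mulLeft S.K (S.th c)) (b * S.mo M) = 0
  rw [form_mul_mo]
  refine Finset.sum_eq_zero fun n hn => ?_
  have hdn : n.degree = 3 := deg_of_H hb3 hn
  have hd : (n + M).degree + 3 = W.card := by
    rw [map_add]
    omega
  change b.coeff n * al (S.th c * S.mo (n + M)) = 0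
  by_cases hf : (n + M).support ∈ S.fcs W
  · have h2 : n.support ∈ S.fcs W := by
      have h3 := mem_fcs'.1 hf
      have h4 : n.support ⊆ (n + M).support := fun v hv => mem_supp_add.2 (Or.inl hv)
      exact mem_fcs'.2 ⟨S.down _ h3.1 _ h4, (cr_mono h4).trans h3.2⟩
    have h3 : W ⊆ S.cr n.support := S.mem_J.1 hb n hn h2
    have h4 : W ⊆ S.cr (n + M).support :=
      h3.trans (cr_mono fun v hv => mem_supp_add.2 (Or.inl hv))
    rw [P.th c hc (n + M) hd ((Finset.erase_subset _ _).trans h4) (not_Ty_add hf h3 h), mul_zero]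
  · rw [P.al_th c hd hf, mul_zero]

theorem Pce.lam_mul (P : Pce S W w al s g) {b : S.T} (hb : b ∈ S.J W W) (hb3 : b ∈ S.H 3)
    {M : X →₀ ℕ} (hM : M.degree + 6 = W.card) (h : (S.car w \ S.cr M.support).card ≤ 2) :
    al (b * (S.lam W * S.mo M)) = S.Tr W (g * (b * S.mo M)) := by
  have h1 : b * (S.lam W * S.mo M) = S.lam W * (b * S.mo M) := by ring
  rw [h1]
  change (al ∘ₗ LinearMap.mulLeft S.K (S.lam W)) (b * S.mo M) =
    (S.Tr W ∘ₗ LinearMap.mulLeft S.K g) (b * S.mo M)
  rw [form_mul_mo, form_mul_mo]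
  refine Finset.sum_congr rfl fun n hn => ?_
  have hdn : n.degree = 3 := deg_of_H hb3 hn
  have hd : (n + M).degree + 3 = W.card := by
    rw [map_add]
    omega
  change b.coeff n * al (S.lam W * S.mo (n + M)) = b.coeff n * S.Tr W (g * S.mo (n + M))
  have h2 : (n + M).support ∈ S.fcs W → W ⊆ S.cr n.support := by
    intro hf
    have h3 := mem_fcs'.1 hf
    have h4 : n.support ⊆ (n + M).support := fun v hv => mem_supp_add.2 (Or.inl hv)
    exact S.mem_J.1 hb n hn (mem_fcs'.2 ⟨S.down _ h3.1 _ h4, (cr_mono h4).trans h3.2⟩)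
  rw [P.gTr_mo hd (fun hf => (h2 hf).trans (cr_mono fun v hv => mem_supp_add.2 (Or.inl hv)))
    (fun hf => not_Ty_add hf (h2 hf) (by rwa [Finset.sdiff_empty]))]

/-- The square functional kills the relations. -/
theorem Pce.sq_th (P : Pce S W w al s g) [Nonempty X] {c : Ω} (hc : c ∈ W) {y : S.T} {d : ℕ}
    (hy : y ∈ S.H d) (hd : d + 5 = W.card) : sqL S.a W al (S.th c * y) = 0 := by
  have := S.charP_K
  have hD := drv_sub S
  rw [← lf_sub]
  refine sqL_th_zero hD hc al y fun t ht M hM => ?_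
  rw [lf_sub]
  have h1 := hM.degree_eq
  rw [Finset.card_erase_of_mem hc, deg_of_H hy ht] at h1
  have h2 : M.degree + 3 = W.card := by omega
  change al (S.th c * S.mo M) = 0
  by_cases hf : M.support ∈ S.fcs W
  · refine P.th c hc M h2 hM.subset_cr (hM.not_Ty hf ?_)
    rw [Finset.sdiff_singleton_eq_erase]
  · exact P.al_th c h2 hf

/-- The square functional and the square of the sum of the variables. -/
theorem Pce.sq_lam (P : Pce S W w al s g) [Nonempty X] (hT : S.Top S.K) {M : X →₀ ℕ}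
    (hM : M.degree + 6 = W.card) :
    sqL S.a W al (S.lam W * (S.lam W * S.mo M)) = S.Tr W (g ^ 2 * S.mo M) := by
  have := S.charP_K
  have hD := drv_sub S
  have h1 := LinearMap.congr_fun (sqL_lam (a := S.a) (W := W)
    (fun v => if S.car v ⊆ W then (1 : S.K) else 0) al) (S.mo M)
  rw [lf_lam, comp_mul] at h1
  have h2 : S.lam W * (S.lam W * S.mo M) = S.lam W ^ 2 * S.mo M := by ring
  rw [h2, h1, ← p5_mo hT]
  · refine sqL_congr fun t ht N hN => ?_
    rw [supp_mo, Finset.mem_singleton] at ht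
    subst ht
    have h3 := hN.degree_eq
    have h4 : N.degree + 3 = W.card := by omega
    change al (S.lam W * S.mo N) = S.Tr W (g * S.mo N)
    rw [P.gTr_mo h4 (fun _ => hN.subset_cr) fun hf => hN.not_Ty hf Finset.sdiff_subset]
  · intro n hn
    have hdn : n.degree = 3 := deg_of_H P.gH hn
    refine ⟨by rw [map_add, map_nsmul, smul_eq_mul]; omega, fun hf => ?_⟩
    have h3 := mem_fcs'.1 hf
    have h4 : n.support ⊆ (2 • n + M).support := by
      intro v hv
      rw [mem_supp_add]
      left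
      rw [Finsupp.mem_support_iff] at hv ⊢
      rw [Finsupp.smul_apply, smul_eq_mul]
      omega
    exact (S.mem_J.1 P.gJ n hn (mem_fcs'.2 ⟨S.down _ h3.1 _ h4, (cr_mono h4).trans h3.2⟩)).trans
      (cr_mono h4)

/-- Relation (a) for one vertex. -/
theorem Pce.ee_th (P : Pce S W w al s g) [Nonempty X] {c : Ω} (hc : c ∈ W) {M : X →₀ ℕ}
    (hM : M.degree + 6 = W.card) (h : ((S.car w \ S.cr M.support) \ {c}).card ≤ 2) :
    ee S W al g (S.th c * S.mo M) = 0 := by
  rw [ee_apply, P.th_mul P.gJ P.gH hc hM h, add_zero]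
  have h1 : S.lam W * (S.th c * S.mo M) = S.th c * (S.lam W * S.mo M) := by ring
  rw [h1]
  refine P.sq_th hc (d := 1 + M.degree) ?_ (by omega)
  exact S.mul_H (lam_H W) (mo_H M)

/-- Relation (b) for one vertex. -/
theorem Pce.ee_lam (P : Pce S W w al s g) [Nonempty X] (hT : S.Top S.K) {M : X →₀ ℕ}
    (hM : M.degree + 6 = W.card) (h : (S.car w \ S.cr M.support).card ≤ 2) :
    ee S W al g (S.lam W * S.mo M) = 0 := by
  have := S.charP_K
  rw [ee_apply, P.sq_lam hT hM, P.lam_mul P.gJ P.gH hM h]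
  have h1 : g * (g * S.mo M) = g ^ 2 * S.mo M := by ring
  rw [h1]
  exact CharTwo.add_self_eq_zero _

/-- Relation (a) for two vertices. -/
theorem Pce.dd_th (P : Pce S W w al s g) (P' : Pce S W w' al' s' g') {c : Ω} (hc : c ∈ W)
    {M : X →₀ ℕ} (hM : M.degree + 6 = W.card) (h : ((S.car w \ S.cr M.support) \ {c}).card ≤ 2)
    (h' : ((S.car w' \ S.cr M.support) \ {c}).card ≤ 2) :
    dd2 S al al' g g' (S.th c * S.mo M) = 0 := by
  rw [dd2_apply, P.th_mul P'.gJ P'.gH hc hM h, P'.th_mul P.gJ P.gH hc hM h', add_zero]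

/-- Relation (b) for two vertices. -/
theorem Pce.dd_lam (P : Pce S W w al s g) (P' : Pce S W w' al' s' g')
    {M : X →₀ ℕ} (hM : M.degree + 6 = W.card) (h : (S.car w \ S.cr M.support).card ≤ 2)
    (h' : (S.car w' \ S.cr M.support).card ≤ 2) :
    dd2 S al al' g g' (S.lam W * S.mo M) = 0 := by
  have := S.charP_K
  rw [dd2_apply, P.lam_mul P'.gJ P'.gH hM h, P'.lam_mul P.gJ P.gH hM h']
  have h1 : g' * (g * S.mo M) = g * (g' * S.mo M) := by ring
  rw [h1]
  exact CharTwo.add_self_eq_zero _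

/-! ### The terms are zero -/

/-- A vertex whose carrier is not contained in `W` can be replaced by any vertex. -/
theorem Pce.change (P : Pce S W w al s g) (hw : ¬ S.car w ⊆ W) (hs : ∀ M : X →₀ ℕ,
    M.degree + 3 = W.card → M.support ∉ S.fcs W → s (S.mo M) = 0)
    (hth : ∀ c ∈ W, ∀ M : X →₀ ℕ, M.degree + 3 = W.card → M.support ∉ S.fcs W →
      al (S.th c * S.mo M) = 0) (v : X) : Pce S W v al s g where
  face := P.face
  th := fun c hc M hM hcr _ => by
    by_cases hf : M.support ∈ S.fcs W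
    · refine P.th c hc M hM hcr fun h => hw ?_
      exact (Finset.subset_biUnion_of_mem S.car h.mem).trans (mem_fcs'.1 hf).2
    · exact hth c hc M hM hf
  s0 := fun M hM hcr _ => by
    by_cases hf : M.support ∈ S.fcs W
    · refine P.s0 M hM hcr fun h => hw ?_
      exact (Finset.subset_biUnion_of_mem S.car h.mem).trans (mem_fcs'.1 hf).2
    · exact hs M hM hf
  gJ := P.gJ
  gH := P.gH
  gTr := P.gTr

/-- A vertex of the restriction to `W` which is different from `u`. -/
theorem exists_vertex (hT : S.Top S.K) (hW : 2 ≤ W.card) (u : X) : ∃ v, v ≠ u ∧ S.car v ⊆ W := by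
  have hW' : W.Nonempty := Finset.card_pos.1 (by omega)
  have h0 : ∅ ∈ S.fcs W := Finset.mem_filter.2 ⟨S.empty_mem, Finset.empty_subset _⟩
  obtain ⟨F, hF⟩ := hT.ne W ∅ hW' h0
  obtain ⟨hF1, -, hF2, hF3⟩ := Finset.mem_filter.1 hF
  obtain ⟨v, hv, hvu⟩ := Finset.exists_mem_ne (show 1 < F.card by omega) u
  exact ⟨v, hvu, (Finset.subset_biUnion_of_mem S.car hv).trans hF2.subset⟩

/-- The vertex of a piece can be chosen in the restriction to `W`, different from a given one. -/
theorem Pce.vertex (P : Pce S W w al s g) (hT : S.Top S.K) (hW : 2 ≤ W.card) {u : X}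
    (hu : w ≠ u) : ∃ v, v ≠ u ∧ S.car v ⊆ W ∧ Pce S W v al s g := by
  by_cases hw : S.car w ⊆ W
  · exact ⟨w, hu, hw, P⟩
  · obtain ⟨v, h1, h2⟩ := exists_vertex hT hW u
    exact ⟨v, h1, h2, P.change hw (fun M hM hf => P.s_face hM hf)
      (fun c _ M hM hf => P.al_th c hM hf) v⟩

/-- The terms of one vertex are zero. -/
theorem Pce.ee_zero (P : Pce S W w al s g) (hT : S.Top S.K) [Nonempty X] (hW : 9 ≤ W.card)
    {M : X →₀ ℕ} (hd : M.degree + 5 = W.card) (hM : W.card ≤ (S.cr M.support).card + 2) :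
    ee S W al g (S.mo M) = 0 := by
  classical
  obtain ⟨v, hv, P⟩ : ∃ v, S.car v ⊆ W ∧ Pce S W v al s g := by
    by_cases hw : S.car w ⊆ W
    · exact ⟨w, hw, P⟩
    · obtain ⟨v, -, h2⟩ := exists_vertex hT (by omega : 2 ≤ W.card) w
      exact ⟨v, h2, P.change hw (fun M hM hf => P.s_face hM hf)
        (fun c _ M hM hf => P.al_th c hM hf) v⟩
  by_cases hf : M.support ∈ S.fcs W
  swap
  · exact P.ee_face hd hf
  have hMW := (mem_fcs'.1 hf).2
  by_cases hvM : v ∈ M.support
  · obtain ⟨M2, hM2⟩ := exists_single_add hvM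
    rw [hM2]
    refine we_e hT hW hv (fun M hM hf => P.ee_face hM hf)
      (fun c hc M hM _ h => P.ee_th hc hM h) (fun M hM _ h => P.ee_lam hT hM h)
      (fun M hM _ h => P.ho hT hM h) (fun M hM => P.two hT hM) M2 ?_
    rw [hM2, deg_single_add] at hd
    omega
  · refine P.ho hT hd ?_
    rw [Finset.erase_eq_of_notMem hvM]
    have h1 : (W \ S.cr M.support).card + (S.cr M.support).card = W.card :=
      Finset.card_sdiff_add_card_eq_card hMW
    exact (Finset.card_le_card (Finset.sdiff_subset_sdiff hv (Finset.Subset.refl _))).trans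
      (by omega)

theorem Pce.dH (P : Pce S W w al s g) (P' : Pce S W w' al' s' g') (hT : S.Top S.K) :
    DH S W w w' (dd2 S al al' g g') where
  face := fun M hM hf => P.dd_face P' hM hf
  th := fun c hc M hM _ h h' => P.dd_th P' hc hM h h'
  lam := fun M hM _ h h' => P.dd_lam P' hM h h'
  ho := fun M hM _ h h' => P.ho2 P' hT hM h h'
  ww := fun M hM => P.ww2 P' hT hM
  two := fun M hM h => P.two2 P' hT hM (by
    rwa [supp_single_add, supp_single_add, Finset.insert_idem])
  two' := fun M hM h => by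
    rw [dd2_comm]
    refine P'.two2 P hT hM ?_
    rwa [supp_single_add, supp_single_add, Finset.insert_idem]

/-- The terms of two vertices are zero. -/
theorem Pce.dd_zero (P : Pce S W w al s g) (P' : Pce S W w' al' s' g') (hww : w ≠ w')
    (hT : S.Top S.K) (hW : 9 ≤ W.card) {M : X →₀ ℕ} (hd : M.degree + 5 = W.card)
    (hM : W.card ≤ (S.cr M.support).card + 2) : dd2 S al al' g g' (S.mo M) = 0 := by
  obtain ⟨v, hvw, hv, P⟩ := P.vertex hT (by omega) hww
  obtain ⟨v', hvw', hv', P'⟩ := P'.vertex hT (by omega) hvw.symm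
  exact we_d hT hW hvw'.symm hv hv' (P.dH P' hT) M hd hM

end Pool.Agent.LH4
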