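import Pool.Agent.LH4.Ov3

/-!
# The splitting of a cochain which is supported on typed pairs

`mv`: the Mayer-Vietoris argument.  `exa_US`: cocycles supported on the pairs which are typed by all
members of `Y` and by some member of `T` are coboundaries (`Y` not empty, `Y` and `T` disjoint).
`split`: a cochain supported on the pairs typed by some member of `T`, whose coboundary is a sum of
cocycles `q w` supported on the pairs typed by `w`, is a sum of cochains of the same kind.
-/

set_option autoImplicit false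

open Finset

namespace Pool.Agent.LH4

open Pool.Agent.LocH

variable {X Ω : Type} [Fintype X] [DecidableEq X] [Fintype Ω] [DecidableEq Ω] {S : Sub X Ω}
  {W : Finset Ω} {n : ℕ}

/-- The coboundary of a cochain supported on a closed set is supported there. -/
theorem dv_supp {P : Finset Ω → (X →₀ ℕ) → Prop} (hP : Cl S W n P)
    {r : Finset Ω → (X →₀ ℕ) → S.K} (hr : ∀ C M, r C M ≠ 0 → P C M) (C : Finset Ω)
    (M : X →₀ ℕ) (h : dv S W n r C M ≠ 0) : P C M := by
  have hV : VP S W n C M := by
    by_contra h'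
    exact h (dv_neg h')
  rw [dv_pos hV] at h
  obtain ⟨c, hcC, hc'⟩ := Finset.exists_ne_zero_of_sum_ne_zero h
  obtain ⟨v, -, hv⟩ := Finset.exists_ne_zero_of_sum_ne_zero hc'
  exact hP.cl C M c v hV hcC (a_mem (left_ne_zero_of_mul hv)) (hr _ _ (right_ne_zero_of_mul hv))

/-- The part of a cochain which is supported on `P`. -/
noncomputable def onP (P : Finset Ω → (X →₀ ℕ) → Prop) (r : Finset Ω → (X →₀ ℕ) → S.K)
    (C : Finset Ω) (M : X →₀ ℕ) : S.K :=
  open Classical in if P C M then r C M else 0

/-- The rest of a cochain. -/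
noncomputable def offP (P : Finset Ω → (X →₀ ℕ) → Prop) (r : Finset Ω → (X →₀ ℕ) → S.K)
    (C : Finset Ω) (M : X →₀ ℕ) : S.K :=
  open Classical in if P C M then 0 else r C M

omit [Fintype X] [Fintype Ω] in
theorem on_add_off (P : Finset Ω → (X →₀ ℕ) → Prop) (r : Finset Ω → (X →₀ ℕ) → S.K)
    (C : Finset Ω) (M : X →₀ ℕ) : onP P r C M + offP P r C M = r C M := by
  unfold onP offP
  by_cases h : P C M
  · rw [if_pos h, if_pos h, add_zero]
  · rw [if_neg h, if_neg h, zero_add]

omit [Fintype X] [Fintype Ω] in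
theorem onP_ne {P : Finset Ω → (X →₀ ℕ) → Prop} {r : Finset Ω → (X →₀ ℕ) → S.K}
    {C : Finset Ω} {M : X →₀ ℕ} (h : onP P r C M ≠ 0) : P C M ∧ r C M ≠ 0 := by
  unfold onP at h
  by_cases h' : P C M
  · rw [if_pos h'] at h
    exact ⟨h', h⟩
  · rw [if_neg h'] at h
    exact absurd rfl h

omit [Fintype X] [Fintype Ω] in
theorem offP_ne {P : Finset Ω → (X →₀ ℕ) → Prop} {r : Finset Ω → (X →₀ ℕ) → S.K}
    {C : Finset Ω} {M : X →₀ ℕ} (h : offP P r C M ≠ 0) : ¬ P C M ∧ r C M ≠ 0 := by
  unfold offP at h
  by_cases h' : P C M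
  · rw [if_pos h'] at h
    exact absurd rfl h
  · rw [if_neg h'] at h
    exact ⟨h', h⟩

theorem dl_on_off (P : Finset Ω → (X →₀ ℕ) → Prop) (r : Finset Ω → (X →₀ ℕ) → S.K)
    (C : Finset Ω) (M : X →₀ ℕ) : dl S (onP P r) C M + dl S (offP P r) C M = dl S r C M := by
  rw [← dl_add]
  have h : (fun C M => onP P r C M + offP P r C M) = r := by
    funext C M
    exact on_add_off P r C M
  rw [h]

/-- The Mayer-Vietoris argument. -/
theorem mv {P Q : Finset Ω → (X →₀ ℕ) → Prop} (hP : Cl S W n P) (hQ : Cl S W n Q)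
    (eP : Exa S W n P) (eQ : Exa S W n Q) (ePQ : Exa S W n (fun C M => P C M ∧ Q C M)) :
    Exa S W n (fun C M => P C M ∨ Q C M) := by
  have := S.charP_K
  intro r hr hc
  have h1 : ∀ C M, onP P r C M ≠ 0 → P C M := fun C M h => (onP_ne h).1
  have h2 : ∀ C M, offP P r C M ≠ 0 → Q C M := fun C M h =>
    (hr C M (offP_ne h).2).resolve_left (offP_ne h).1
  have h12 : ∀ C M, dv S W n (onP P r) C M = dv S W n (offP P r) C M := by
    intro C M
    by_cases hV : VP S W n C M
    · rw [dv_pos hV, dv_pos hV]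
      have h := dl_on_off P r C M
      rw [hc C M hV] at h
      exact CharTwo.add_eq_zero.1 h
    · rw [dv_neg hV, dv_neg hV]
  obtain ⟨e, he1, he2⟩ := ePQ (dv S W n (onP P r))
    (fun C M h => ⟨dv_supp hP h1 C M h, dv_supp hQ h2 C M (h12 C M ▸ h)⟩)
    (fun C M hV => dl_dv (fun C M h => hP.vp C M (h1 C M h)) hV)
  obtain ⟨e1, he11, he12⟩ := eP (fun C M => onP P r C M + e C M) (fun C M h => by
      by_cases h0 : onP P r C M = 0
      · rw [h0, zero_add] at h
        exact (he1 C M h).1
      · exact h1 C M h0) (fun C M hV => by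
      rw [dl_add, ← he2 C M hV, dv_pos hV, CharTwo.add_self_eq_zero])
  obtain ⟨e2, he21, he22⟩ := eQ (fun C M => offP P r C M + e C M) (fun C M h => by
      by_cases h0 : offP P r C M = 0
      · rw [h0, zero_add] at h
        exact (he1 C M h).2
      · exact h2 C M h0) (fun C M hV => by
      rw [dl_add, ← he2 C M hV, h12, dv_pos hV, CharTwo.add_self_eq_zero])
  refine ⟨fun C M => e1 C M + e2 C M, fun C M h => ?_, fun C M hV => ?_⟩
  · by_cases h0 : e1 C M = 0
    · beta_reduce at h
      rw [h0, zero_add] at h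
      exact Or.inr (he21 C M h)
    · exact Or.inl (he11 C M h0)
  · rw [dl_add, ← he12 C M hV, ← he22 C M hV, ← on_add_off P r C M, add_add_add_comm,
      CharTwo.add_self_eq_zero, add_zero]

/-- The valid pairs which are typed by all members of `Y` and by some member of `T`. -/
def US (S : Sub X Ω) (W : Finset Ω) (n : ℕ) (Y T : Finset X) (C : Finset Ω) (M : X →₀ ℕ) :
    Prop :=
  OS S W n Y C M ∧ ∃ w ∈ T, Ty S w C M

theorem cl_US (S : Sub X Ω) (W : Finset Ω) (n : ℕ) (Y T : Finset X) :
    Cl S W n (US S W n Y T) := by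
  refine ⟨fun C M h => h.1.1, fun C M c v hV hc hv h => ?_⟩
  obtain ⟨h1, w, hw, h2⟩ := h
  refine ⟨(cl_OS S W n Y).cl C M c v hV hc hv h1, w, hw, ?_⟩
  refine ((cl_OS S W n {w}).cl C M c v hV hc hv ⟨h1.1, fun w' hw' => ?_⟩).2 w
    (Finset.mem_singleton_self w)
  rw [Finset.mem_singleton.1 hw']
  exact h2

/-- Cocycles supported on the pairs typed by all members of `Y` and some member of `T` are
coboundaries. -/
theorem exa_US (hn : W.card ≤ n + 3) (T : Finset X) : ∀ Y : Finset X, 1 ≤ Y.card →
    Disjoint Y T → Exa S W n (US S W n Y T) := by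
  induction T using Finset.induction_on with
  | empty =>
    intro Y _ _ r hr _
    have h0 : ∀ C M, r C M = 0 := fun C M => by
      by_contra h
      obtain ⟨_, w, hw, _⟩ := hr C M h
      exact Finset.notMem_empty w hw
    refine ⟨fun _ _ => 0, fun _ _ h => absurd rfl h, fun C M _ => ?_⟩
    rw [h0]
    exact (Finset.sum_eq_zero fun c _ => Finset.sum_eq_zero fun v _ => mul_zero _).symm
  | insert t T htT ih =>
    intro Y hY hYT
    rw [Finset.disjoint_insert_right] at hYT
    have h1 : US S W n Y (insert t T) =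
        fun C M => OS S W n (insert t Y) C M ∨ US S W n Y T C M := by
      funext C M
      refine propext ⟨?_, ?_⟩
      · rintro ⟨h1, w, hw, h2⟩
        rcases Finset.mem_insert.1 hw with rfl | hw
        · refine Or.inl ⟨h1.1, fun w' hw' => ?_⟩
          rcases Finset.mem_insert.1 hw' with rfl | hw'
          · exact h2
          · exact h1.2 w' hw'
        · exact Or.inr ⟨h1, w, hw, h2⟩
      · rintro (h | ⟨h1, w, hw, h2⟩)
        · exact ⟨⟨h.1, fun w' hw' => h.2 w' (Finset.mem_insert_of_mem hw')⟩, t,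
            Finset.mem_insert_self t T, h.2 t (Finset.mem_insert_self t Y)⟩
        · exact ⟨h1, w, Finset.mem_insert_of_mem hw, h2⟩
    have h2 : US S W n (insert t Y) T =
        fun C M => OS S W n (insert t Y) C M ∧ US S W n Y T C M := by
      funext C M
      refine propext ⟨?_, ?_⟩
      · rintro ⟨h1, w, hw, h2⟩
        exact ⟨h1, ⟨h1.1, fun w' hw' => h1.2 w' (Finset.mem_insert_of_mem hw')⟩, w, hw, h2⟩
      · rintro ⟨h1, h2, w, hw, h3⟩
        exact ⟨h1, w, hw, h3⟩
    have h3 : (insert t Y).card = Y.card + 1 := Finset.card_insert_of_notMem hYT.1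
    rw [h1]
    refine mv (cl_OS S W n _) (cl_US S W n Y T) (exa_OS hn (by omega)) (ih Y hY hYT.2) ?_
    rw [← h2]
    refine ih (insert t Y) (by omega) ?_
    rw [Finset.disjoint_insert_left]
    exact ⟨htT, hYT.2⟩

/-- The splitting theorem. -/
theorem split (S : Sub X Ω) {W : Finset Ω} {n : ℕ} (hn : W.card ≤ n + 3) (T : Finset X)
    (r : Finset Ω → (X →₀ ℕ) → S.K) (q : X → Finset Ω → (X →₀ ℕ) → S.K)
    (hr : ∀ C M, r C M ≠ 0 → VP S W n C M ∧ ∃ w ∈ T, Ty S w C M)
    (hq : ∀ w ∈ T, ∀ C M, q w C M ≠ 0 → VP S W n C M ∧ Ty S w C M)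
    (hdq : ∀ w ∈ T, ∀ C M, VP S W n C M → dl S (q w) C M = 0)
    (hdr : ∀ C M, VP S W n C M → dl S r C M = ∑ w ∈ T, q w C M) :
    ∃ r' : X → Finset Ω → (X →₀ ℕ) → S.K,
      (∀ w ∈ T, ∀ C M, r' w C M ≠ 0 → VP S W n C M ∧ Ty S w C M) ∧
      (∀ w ∈ T, ∀ C M, VP S W n C M → dl S (r' w) C M = q w C M) ∧
      ∀ C M, r C M = ∑ w ∈ T, r' w C M := by
  have := S.charP_K
  induction T using Finset.induction_on generalizing r with
  | empty =>
    refine ⟨fun _ _ _ => 0, fun w hw => absurd hw (Finset.notMem_empty w),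
      fun w hw => absurd hw (Finset.notMem_empty w), fun C M => ?_⟩
    rw [Finset.sum_empty]
    by_contra h
    obtain ⟨_, w, hw, _⟩ := hr C M h
    exact Finset.notMem_empty w hw
  | insert w T hwT ih =>
    have hos : ∀ C M, OS S W n {w} C M ↔ VP S W n C M ∧ Ty S w C M := by
      intro C M
      refine ⟨fun h => ⟨h.1, h.2 w (Finset.mem_singleton_self w)⟩, fun h => ⟨h.1, ?_⟩⟩
      intro w' hw'
      rw [Finset.mem_singleton.1 hw']
      exact h.2
    have hwI : w ∈ insert w T := Finset.mem_insert_self w T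
    set P : Finset Ω → (X →₀ ℕ) → Prop := OS S W n {w} with hPdef
    have h1 : ∀ C M, onP P r C M ≠ 0 → P C M := fun C M h => (onP_ne h).1
    have h2 : ∀ C M, offP P r C M ≠ 0 → US S W n ∅ T C M := by
      intro C M h
      obtain ⟨h3, h4⟩ := offP_ne h
      obtain ⟨hV, w', hw', h5⟩ := hr C M h4
      refine ⟨⟨hV, fun x hx => absurd hx (Finset.notMem_empty x)⟩, w', ?_, h5⟩
      rcases Finset.mem_insert.1 hw' with rfl | hw'
      · exact absurd ((hos C M).2 ⟨hV, h5⟩) h3
      · exact hw'
    have hqT : ∀ C M, (∑ x ∈ T, q x C M) ≠ 0 → US S W n ∅ T C M := by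
      intro C M h
      obtain ⟨x, hx, hx'⟩ := Finset.exists_ne_zero_of_sum_ne_zero h
      have h3 := hq x (Finset.mem_insert_of_mem hx) C M hx'
      exact ⟨⟨h3.1, fun y hy => absurd hy (Finset.notMem_empty y)⟩, x, hx, h3.2⟩
    -- the coboundary of the first part, corrected
    have hg : ∀ C M, VP S W n C M →
        dl S (onP P r) C M + q w C M = dl S (offP P r) C M + ∑ x ∈ T, q x C M := by
      intro C M hV
      have h3 := hdr C M hV
      rw [Finset.sum_insert hwT, ← dl_on_off P r C M] at h3
      have h4 : dl S (onP P r) C M = q w C M + (∑ x ∈ T, q x C M) + dl S (offP P r) C M := by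
        rw [← h3, add_assoc, CharTwo.add_self_eq_zero, add_zero]
      rw [h4]
      have h5 : q w C M + (∑ x ∈ T, q x C M) + dl S (offP P r) C M + q w C M =
          (q w C M + q w C M) + (dl S (offP P r) C M + ∑ x ∈ T, q x C M) := by ring
      rw [h5, CharTwo.add_self_eq_zero, zero_add]
    obtain ⟨e, he1, he2⟩ := exa_US (S := S) hn T {w} (Finset.card_singleton w).ge
      (Finset.disjoint_singleton_left.2 hwT) (fun C M => dv S W n (onP P r) C M + q w C M)
      (fun C M h => by
        have hV : VP S W n C M := by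
          by_contra hV
          rw [dv_neg hV, zero_add] at h
          exact hV (hq w hwI C M h).1
        refine ⟨?_, ?_⟩
        · by_cases h3 : dv S W n (onP P r) C M = 0
          · rw [h3, zero_add] at h
            exact (hos C M).2 (hq w hwI C M h)
          · exact dv_supp (cl_OS S W n {w}) h1 C M h3
        · rw [dv_pos hV, hg C M hV] at h
          by_cases h3 : dl S (offP P r) C M = 0
          · rw [h3, zero_add] at h
            exact (hqT C M h).2
          · rw [← dv_pos hV] at h3
            exact (dv_supp (cl_US S W n ∅ T) h2 C M h3).2)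
      (fun C M hV => by
        rw [dl_add, dl_dv (fun C M h => (h1 C M h).1) hV, hdq w hwI C M hV, add_zero])
    obtain ⟨r'', hr1, hr2, hr3⟩ := ih (fun C M => offP P r C M + e C M)
      (fun C M h => by
        by_cases h3 : offP P r C M = 0
        · rw [h3, zero_add] at h
          exact ⟨(he1 C M h).1.1, (he1 C M h).2⟩
        · exact ⟨(h2 C M h3).1.1, (h2 C M h3).2⟩)
      (fun x hx => hq x (Finset.mem_insert_of_mem hx))
      (fun x hx => hdq x (Finset.mem_insert_of_mem hx))
      (fun C M hV => by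
        rw [dl_add, ← he2 C M hV, dv_pos hV, hg C M hV, ← add_assoc,
          CharTwo.add_self_eq_zero, zero_add])
    refine ⟨fun x => if x = w then fun C M => onP P r C M + e C M else r'' x, ?_, ?_, ?_⟩
    · intro x hx C M h
      beta_reduce at h
      by_cases hxw : x = w
      · subst hxw
        rw [if_pos rfl] at h
        by_cases h3 : onP P r C M = 0
        · rw [h3, zero_add] at h
          exact (hos C M).1 (he1 C M h).1
        · exact (hos C M).1 (h1 C M h3)
      · rw [if_neg hxw] at h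
        exact hr1 x ((Finset.mem_insert.1 hx).resolve_left hxw) C M h
    · intro x hx C M hV
      beta_reduce
      by_cases hxw : x = w
      · subst hxw
        rw [if_pos rfl, dl_add, ← he2 C M hV, dv_pos hV, ← add_assoc,
          CharTwo.add_self_eq_zero, zero_add]
      · rw [if_neg hxw]
        exact hr2 x ((Finset.mem_insert.1 hx).resolve_left hxw) C M hV
    · intro C M
      beta_reduce
      have h4 : ∀ x ∈ T, (if x = w then fun C M => onP P r C M + e C M else r'' x) C M =
          r'' x C M := fun x hx => by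
        have hxw : x ≠ w := fun h => hwT (h ▸ hx)
        rw [if_neg hxw]
      rw [Finset.sum_insert hwT, if_pos rfl, Finset.sum_congr rfl h4, ← hr3 C M,
        add_add_add_comm, CharTwo.add_self_eq_zero, add_zero, on_add_off]

end Pool.Agent.LH4
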