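import Pool.Agent.LH4.As5
import Pool.Agent.LH4.Ed
import Pool.Agent.LH4.Ov4
import Pool.Agent.LH4.Vgf4

/-!
# A linear form on the good monomials of degree `|W| - 2` which kills the relations of the untyped
pairs and the products of `λ` and the untyped monomials is zero
-/

set_option autoImplicit false

open Finset

namespace Pool.Agent.LH4

open Pool.Agent.LocH

variable {X Ω : Type} [Fintype X] [DecidableEq X] [Fintype Ω] [DecidableEq Ω] {S : Sub X Ω}
  {W : Finset Ω}

/-! ### Good monomials are untyped -/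

omit [Fintype Ω] in
theorem deg_le_dgI {U : Finset Ω} {M M' : X →₀ ℕ} (h : M' ≤ M)
    (hU : ∀ v ∈ M'.support, S.car v ⊆ U) : M'.degree ≤ S.dgI U M := by
  have h1 : M'.degree = ∑ v, M' v := Finsupp.degree_eq_sum M'
  rw [h1, Sub.dgI, ← Finset.sum_filter_add_sum_filter_not univ (fun v => S.car v ⊆ U)]
  have h2 : ∑ v ∈ univ.filter (fun v => ¬ S.car v ⊆ U), M' v = 0 := by
    refine Finset.sum_eq_zero fun v hv => ?_
    by_contra hne
    exact (Finset.mem_filter.1 hv).2 (hU v (Finsupp.mem_support_iff.2 hne))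
  rw [h2, add_zero]
  exact Finset.sum_le_sum fun v _ => h v

/-- A face of degree `|W| - 3` which is good for all the sets containing `C` gives an untyped valid
pair. -/
theorem untyped_of_dg {C : Finset Ω} (hC : C ⊆ W) {M : X →₀ ℕ} (hf : M.support ∈ S.fcs W)
    (hM : M.degree + 3 = W.card)
    (h : ∀ U ⊆ W, C ⊆ U → 2 * S.dgI U M + 6 ≤ W.card + U.card) :
    W \ C ⊆ S.cr M.support ∧ ∀ w, ¬ Ty S w C M := by
  have hcar : ∀ v ∈ M.support, S.car v ⊆ W := fun v hv => car_sub_of_mem hf hv
  constructor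
  · intro c hc
    obtain ⟨hcW, hcC⟩ := Finset.mem_sdiff.1 hc
    by_contra hcM
    have h1 := h (W.erase c) (Finset.erase_subset c W) fun e he =>
      Finset.mem_erase.2 ⟨fun h => hcC (h ▸ he), hC he⟩
    have h2 : M.degree ≤ S.dgI (W.erase c) M := deg_le_dgI le_rfl fun v hv e he =>
      Finset.mem_erase.2 ⟨fun h => hcM (Finset.mem_biUnion.2 ⟨v, hv, h ▸ he⟩), hcar v hv he⟩
    have h3 := Finset.card_erase_add_one hcW
    omega
  · intro w hw
    set Q : Finset Ω := (S.car w \ S.cr (M - Finsupp.single w 1).support) \ C with hQ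
    have hQW : Q ⊆ W := by
      intro e he
      rw [hQ, Finset.mem_sdiff, Finset.mem_sdiff] at he
      exact hcar w hw.mem he.1.1
    have h1 := h (W \ Q) Finset.sdiff_subset fun e he =>
      Finset.mem_sdiff.2 ⟨hC he, fun h => (Finset.mem_sdiff.1 h).2 he⟩
    have hle : M - Finsupp.single w 1 ≤ M := tsub_le_self
    have h2 : (M - Finsupp.single w 1).degree ≤ S.dgI (W \ Q) M := by
      refine deg_le_dgI hle fun v hv e he => ?_
      refine Finset.mem_sdiff.2 ⟨hcar v ?_ he, fun h => ?_⟩
      · rw [Finsupp.mem_support_iff] at hv ⊢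
        have := hle v
        omega
      · rw [hQ, Finset.mem_sdiff, Finset.mem_sdiff] at h
        exact h.1.2 (Finset.mem_biUnion.2 ⟨v, hv, he⟩)
    have hle' : Finsupp.single w 1 ≤ M := by
      rw [Finsupp.single_le_iff]
      have := Finsupp.mem_support_iff.1 hw.mem
      omega
    have h3 : M.degree = (M - Finsupp.single w 1).degree + 1 := by
      conv_lhs => rw [← add_tsub_cancel_of_le hle']
      rw [deg_single_add]
    have h4 : (W \ Q).card + Q.card = W.card := Finset.card_sdiff_add_card_eq_card hQW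
    have h5 : 3 ≤ Q.card := hw.big
    omega

/-! ### The theorem -/

theorem splitP (S : Sub X Ω) : SplitP S :=
  fun _ _ hn T r q hr hq hdq hdr => split S hn T r q hr hq hdq hdr

/-- The linear form `A` is zero at the good monomials of degree `|W| - 2`. -/
theorem cm2 (hT : S.Top S.K) (hW : 9 ≤ W.card) (A : S.T →ₗ[S.K] S.K) (hA : Inp S W A) :
    ∀ N : X →₀ ℕ, N.degree + 2 = W.card → (∀ U ⊆ W, 2 * S.dgI U N + 4 ≤ W.card + U.card) →
      A (S.mo N) = 0 := by
  rcases isEmpty_or_nonempty X with hX | hX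
  · intro N hN
    rw [show N = 0 from Finsupp.ext fun v => hX.elim v, map_zero] at hN
    omega
  obtain ⟨k, hk⟩ : ∃ k, W.card = k + 4 := ⟨W.card - 4, by omega⟩
  obtain ⟨al, s, g, h, hs⟩ := spl_exists hT (splitP S) hk hA
  have hA0 : Nf S W (k + 2) A := fun M hM h => hA.face M (by omega) h
  refine vgf_main hT (by omega) A hA.face (fun c hc M hM hU => ?_) (fun M hM hU => ?_)
    (H0_of hA.face fun M hd hf hcov => ?_)
  · by_cases hf : M.support ∈ S.fcs W
    · have h1 := untyped_of_dg (C := {c}) (Finset.singleton_subset_iff.2 hc) hf hM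
        fun U hUW hcU => hU U hUW (Finset.singleton_subset_iff.1 hcU)
      refine hA.th c hc M hM hf ?_ h1.2
      rw [Finset.erase_eq]
      exact h1.1
    · exact hA0.th_mo c (by omega) hf
  · by_cases hf : M.support ∈ S.fcs W
    · have h1 := untyped_of_dg (C := ∅) (Finset.empty_subset _) hf hM fun U hUW _ => hU U hUW
      refine hA.lam M hM hf ?_ h1.2
      have h2 := h1.1
      rwa [Finset.sdiff_empty] at h2
    · exact hA0.lam_mo (by omega) hf
  · exact hs.zero hT hA hd hcov (fun w => (hs.pce w).ee_zero hT hW hd hcov)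
      fun w w' hww => (hs.pce w).dd_zero (hs.pce w') hww hT hW hd hcov

end Pool.Agent.LH4
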