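import Pool.Agent.LH4.We

/-!
# (We) for eight points: the descent over the carriers, given the values at the faces whose carrier
has four points less than `W`
-/

set_option autoImplicit false

open Finset

namespace Pool.Agent.LH4

open Pool.Agent.LocH

variable {X Ω : Type} [Fintype X] [DecidableEq X] [Fintype Ω] [DecidableEq Ω] {S : Sub X Ω}

/-- One step of the descent. -/
theorem we_core8 (hT : S.Top S.K) {W U : Finset Ω} (hW : 8 ≤ W.card) (hU : U ⊆ W) {n : ℕ}
    (hn : n + 6 = W.card) {f : S.T →ₗ[S.K] S.K}
    (hface : ∀ s : X →₀ ℕ, s.degree = n → s.support ∉ S.fcs W → f (S.mo s) = 0)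
    (hth : ∀ c ∈ U, ∀ s : X →₀ ℕ, s.degree + 1 = n → s.support ∈ S.fcs U →
      U.erase c ⊆ S.cr s.support → f (S.th c * S.mo s) = 0)
    (hlam : ∀ s : X →₀ ℕ, s.degree + 1 = n → s.support ∈ S.fcs U → S.cr s.support = U →
      f (S.lam W * S.mo s) = 0)
    (hd : Dd S W U n f) (hU1 : 1 ≤ U.card) (hU2 : U.card ≤ n + 1) {s : X →₀ ℕ}
    (hs : s.degree = n) (hsW : s.support ∈ S.fcs W) (hsU : S.cr s.support = U) :
    f (S.mo s) = 0 := by
  have hK := kil_rs' hface hth hd
  have h3 : s.support ∈ S.fcs U := mem_fcs'.2 ⟨(mem_fcs'.1 hsW).1, hsU.subset⟩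
  rw [← rs_mo_eq fun h => absurd h3 h]
  have h4 : S.mo s ∈ S.H n := hs ▸ mo_H s
  have h5 : S.mo s ∈ S.J U U := mo_J fun _ => hsU.symm.subset
  rcases Nat.lt_or_ge U.card n with h6 | h6
  · exact F_zero hT hK h5 h4 (H_le_top hT h6 h4)
  rcases Nat.eq_or_lt_of_le h6 with h7 | h7
  · obtain ⟨g, hg1, hg2, hg⟩ := rep hT (j := 0) (n := n) (by omega) hK
    rw [hg _ h5 h4, J_H_zero hU1 hg1 hg2, zero_mul, map_zero]
  · obtain ⟨k, hk⟩ : ∃ k, k + 1 = n := ⟨n - 1, by omega⟩
    obtain ⟨j, hj⟩ : ∃ j, k + 1 + j = U.card := ⟨U.card - n, by omega⟩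
    subst hk
    refine rep_zero hT hj (TJ_le hT (by omega) (by omega)) hK
      (fun y hy hyn => form_mul_zero _ fun t ht => ?_) h5 h4
    have hdt := deg_of_H hyn ht
    by_cases h8 : t.support ∈ S.fcs U
    · have h9 := mem_fcs'.1 h8
      have h10 : S.cr t.support = U := Finset.Subset.antisymm h9.2 (S.mem_J.1 hy t ht h8)
      have h11 := hlam t (by omega) h8 h10
      rw [lam_mul_mo, map_sum] at h11
      rw [lam_mul_mo, map_sum, ← h11]
      have h12 : univ.filter (fun v => S.car v ⊆ U) ⊆ univ.filter (fun v => S.car v ⊆ W) := by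
        intro v hv
        rw [Finset.mem_filter] at hv ⊢
        exact ⟨hv.1, hv.2.trans hU⟩
      refine Eq.trans (Finset.sum_congr rfl fun v hv => ?_)
        (Finset.sum_subset h12 fun v hv hvU => ?_)
      · have hv' := (Finset.mem_filter.1 hv).2
        rw [rs_mo_eq]
        intro h13
        refine hface _ (by rw [deg_single_add, hdt]) fun h14 => h13 ?_
        refine mem_fcs'.2 ⟨(mem_fcs'.1 h14).1, ?_⟩
        rw [supp_single_add, cr_insert, h10]
        exact Finset.union_subset hv' (Finset.Subset.refl _)
      · have hv' : ¬ S.car v ⊆ U := fun h => hvU (Finset.mem_filter.2 ⟨Finset.mem_univ _, h⟩)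
        have h14 : (Finsupp.single v 1 + t).degree = k + 1 := by rw [deg_single_add, hdt]
        by_cases h13 : (Finsupp.single v 1 + t).support ∈ S.fcs W
        · refine hd _ h14 h13 ?_
          rw [supp_single_add, cr_insert, h10]
          refine ⟨Finset.subset_union_right, fun h => hv' (Finset.subset_union_left.trans h)⟩
        · exact hface _ h14 h13
    · exact rs_I f (S.mul_I (mo_I h8) _)

/-! ### The terms of one vertex -/

/-- The relation of a point: the value at `single w 1 + M` when `w` has three private colours. -/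
theorem we_t3 {W : Finset Ω} {w : X} (hw : S.car w ⊆ W) {e : S.T →ₗ[S.K] S.K}
    (hface : ∀ M : X →₀ ℕ, M.degree + 5 = W.card → M.support ∉ S.fcs W → e (S.mo M) = 0)
    (hth : ∀ c ∈ W, ∀ M : X →₀ ℕ, M.degree + 6 = W.card → M.support ∈ S.fcs W →
      ((S.car w \ S.cr M.support) \ {c}).card ≤ 2 → e (S.th c * S.mo M) = 0)
    (hho : ∀ M : X →₀ ℕ, M.degree + 5 = W.card → M.support ∈ S.fcs W →
      (S.car w \ S.cr (M.support.erase w)).card ≤ 2 → e (S.mo M) = 0)
    {M : X →₀ ℕ} (hM : M.degree + 6 = W.card) (hMf : M.support ∈ S.fcs W)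
    (hwM : w ∉ M.support) (h3 : (S.car w \ S.cr M.support).card = 3) :
    e (S.mo (Finsupp.single w 1 + M)) = 0 := by
  classical
  obtain ⟨b, hb⟩ : (S.car w \ S.cr M.support).Nonempty := Finset.card_pos.1 (by omega)
  have hb' := Finset.mem_sdiff.1 hb
  have h5 : ((S.car w \ S.cr M.support) \ {b}).card = 2 := by
    rw [Finset.card_sdiff_of_subset (Finset.singleton_subset_iff.2 hb), h3,
      Finset.card_singleton]
  have h6 := hth b (hw hb'.1) M hM hMf h5.le
  rw [th_mul_mo', map_sum, Finset.sum_eq_single w] at h6
  · rw [map_smul, smul_eq_mul] at h6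
    exact (mul_eq_zero.1 h6).resolve_left (S.a_ne hb'.1)
  · intro v _ hvw
    rw [map_smul]
    by_cases hvb : b ∈ S.car v
    · by_cases hvf : (Finsupp.single v 1 + M).support ∈ S.fcs W
      · rw [hho _ (by rw [deg_single_add]; omega) hvf, smul_zero]
        have h7 : (Finsupp.single v 1 + M).support.erase w = insert v M.support := by
          rw [supp_single_add, Finset.erase_insert_of_ne hvw, Finset.erase_eq_of_notMem hwM]
        rw [h7, cr_insert]
        refine (Finset.card_le_card ?_).trans h5.le
        intro c hc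
        rw [Finset.mem_sdiff, Finset.mem_union, not_or] at hc
        rw [Finset.mem_sdiff, Finset.mem_sdiff, Finset.mem_singleton]
        refine ⟨⟨hc.1, hc.2.2⟩, fun h8 => hc.2.1 (h8 ▸ hvb)⟩
      · rw [hface _ (by rw [deg_single_add]; omega) hvf, smul_zero]
    · rw [S.a_zero hvb, zero_smul]
  · intro h
    exact absurd (Finset.mem_univ _) h

/-- The terms of one vertex. -/
theorem we_e8 (hT : S.Top S.K) {W : Finset Ω} (hW : 8 ≤ W.card) {w : X} (hw : S.car w ⊆ W)
    {e : S.T →ₗ[S.K] S.K}
    (hface : ∀ M : X →₀ ℕ, M.degree + 5 = W.card → M.support ∉ S.fcs W → e (S.mo M) = 0)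
    (hth : ∀ c ∈ W, ∀ M : X →₀ ℕ, M.degree + 6 = W.card → M.support ∈ S.fcs W →
      ((S.car w \ S.cr M.support) \ {c}).card ≤ 2 → e (S.th c * S.mo M) = 0)
    (hlam : ∀ M : X →₀ ℕ, M.degree + 6 = W.card → M.support ∈ S.fcs W →
      (S.car w \ S.cr M.support).card ≤ 2 → e (S.lam W * S.mo M) = 0)
    (hho : ∀ M : X →₀ ℕ, M.degree + 5 = W.card → M.support ∈ S.fcs W →
      (S.car w \ S.cr (M.support.erase w)).card ≤ 2 → e (S.mo M) = 0)
    (htwo : ∀ M : X →₀ ℕ, M.degree + 7 = W.card →
      e (S.mo (Finsupp.single w 1 + (Finsupp.single w 1 + M))) = 0)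
    (hfour : ∀ M : X →₀ ℕ, M.degree + 6 = W.card → M.support ∈ S.fcs W →
      4 = (S.car w \ S.cr M.support).card → e (S.mo (Finsupp.single w 1 + M)) = 0)
    (M : X →₀ ℕ) (hM : M.degree + 6 = W.card) : e (S.mo (Finsupp.single w 1 + M)) = 0 := by
  classical
  obtain ⟨n, hn⟩ : ∃ n, n + 6 = W.card := ⟨W.card - 6, by omega⟩
  induction hk : W.card - (S.cr M.support).card using Nat.strong_induction_on generalizing M with
  | _ k ih =>
  by_cases hf : (Finsupp.single w 1 + M).support ∈ S.fcs W
  swap
  · exact hface _ (by rw [deg_single_add]; omega) hf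
  have hMf : M.support ∈ S.fcs W := fcs_of_single hf
  have hMW := (mem_fcs'.1 hMf).2
  by_cases hwM : w ∈ M.support
  · obtain ⟨M2, hM2⟩ := exists_single_add hwM
    rw [hM2]
    refine htwo M2 ?_
    rw [hM2, deg_single_add] at hM
    omega
  have herase : (Finsupp.single w 1 + M).support.erase w = M.support := by
    rw [supp_single_add, Finset.erase_insert hwM]
  by_cases h2 : (S.car w \ S.cr M.support).card ≤ 2
  · exact hho _ (by rw [deg_single_add]; omega) hf (by rw [herase]; exact h2)
  have hsub : S.car w \ S.cr M.support ⊆ W \ S.cr M.support := Finset.sdiff_subset_sdiff hw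
    (Finset.Subset.refl _)
  have hc1 : (W \ S.cr M.support).card + (S.cr M.support).card = W.card :=
    Finset.card_sdiff_add_card_eq_card hMW
  have hc2 := Finset.card_le_card hsub
  by_cases h30 : (S.car w \ S.cr M.support).card = 3
  · exact we_t3 hw hface hth hho hM hMf hwM h30
  by_cases h40 : 4 = (S.car w \ S.cr M.support).card
  · exact hfour M hM hMf h40
  · rw [← sh_mo]
    refine we_core8 hT hW hMW hn (f := sh w e) ?_ ?_ ?_ ?_ ?_ (by omega) (by omega) hMf rfl
    · intro s hs hsW
      rw [sh_mo]
      exact hface _ (by rw [deg_single_add]; omega) fun h => hsW (fcs_of_single h)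
    · intro c hc s hs hsU hcs
      rw [sh_mul_mo]
      by_cases h7 : (Finsupp.single w 1 + s).support ∈ S.fcs W
      · refine hth c (hMW hc) _ (by rw [deg_single_add]; omega) h7 ?_
        rw [supp_single_add, cr_insert]
        have : (S.car w \ (S.car w ∪ S.cr s.support)) = ∅ :=
          Finset.sdiff_eq_empty_iff_subset.2 Finset.subset_union_left
        rw [this, Finset.empty_sdiff, Finset.card_empty]
        exact Nat.zero_le _
      · exact th_nonface (d := n + 1) (fun t ht h => hface t (by omega) h) c
          (by rw [deg_single_add]; omega) h7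
    · intro s hs hsU hcs
      rw [sh_mul_mo]
      by_cases h7 : (Finsupp.single w 1 + s).support ∈ S.fcs W
      · refine hlam _ (by rw [deg_single_add]; omega) h7 ?_
        rw [supp_single_add, cr_insert]
        have : (S.car w \ (S.car w ∪ S.cr s.support)) = ∅ :=
          Finset.sdiff_eq_empty_iff_subset.2 Finset.subset_union_left
        rw [this, Finset.card_empty]
        exact Nat.zero_le _
      · exact lam_nonface (d := n + 1) (fun t ht h => hface t (by omega) h)
          (by rw [deg_single_add]; omega) h7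
    · intro s hs hsW hcs
      rw [sh_mo]
      refine ih (W.card - (S.cr s.support).card) ?_ s (by omega) rfl
      have h8 := Finset.card_lt_card hcs
      have h9 := Finset.card_le_card (mem_fcs'.1 hsW).2
      omega
    · exact one_le_cr hMf (by omega)

/-! ### Two vertices -/

theorem we_d18 (hT : S.Top S.K) {W : Finset Ω} (hW : 8 ≤ W.card) {w w' : X} (hww : w ≠ w')
    (hw : S.car w ⊆ W) (hw' : S.car w' ⊆ W) {d : S.T →ₗ[S.K] S.K} (hd : DH S W w w' d)
    (hfour : ∀ M : X →₀ ℕ, M.degree + 6 = W.card → M.support ∈ S.fcs W → w ∉ M.support →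
      w' ∉ M.support → (W \ S.cr M.support).card = 4 →
      (S.car w' \ (S.car w ∪ S.cr M.support)).card ≤ 2 →
      d (S.mo (Finsupp.single w 1 + M)) = 0)
    (M : X →₀ ℕ) (hM : M.degree + 6 = W.card)
    (hdom : (S.car w' \ (S.car w ∪ S.cr M.support)).card ≤ 2) :
    d (S.mo (Finsupp.single w 1 + M)) = 0 := by
  classical
  obtain ⟨n, hn⟩ : ∃ n, n + 6 = W.card := ⟨W.card - 6, by omega⟩
  induction hk : W.card - (S.cr M.support).card using Nat.strong_induction_on generalizing M with
  | _ k ih =>
  by_cases hf : (Finsupp.single w 1 + M).support ∈ S.fcs W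
  swap
  · exact hd.face _ (by rw [deg_single_add]; omega) hf
  have hMf : M.support ∈ S.fcs W := fcs_of_single hf
  have hMW := (mem_fcs'.1 hMf).2
  by_cases hw'M : w' ∈ M.support
  · obtain ⟨M2, hM2⟩ := exists_single_add hw'M
    rw [hM2]
    refine hd.ww M2 ?_
    rw [hM2, deg_single_add] at hM
    omega
  have herase' : (Finsupp.single w 1 + M).support.erase w' = insert w M.support := by
    rw [supp_single_add, Finset.erase_insert_of_ne hww, Finset.erase_eq_of_notMem hw'M]
  by_cases hwM : w ∈ M.support
  · obtain ⟨M2, hM2⟩ := exists_single_add hwM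
    rw [hM2]
    refine hd.two M2 ?_ ?_
    · rw [hM2, deg_single_add] at hM
      omega
    · have h1 : insert w M2.support = M.support := by
        rw [hM2, supp_single_add]
      rw [h1, Finset.erase_eq_of_notMem hw'M]
      refine (Finset.card_le_card ?_).trans hdom
      refine Finset.sdiff_subset_sdiff (Finset.Subset.refl _) ?_
      exact Finset.union_subset (Finset.subset_biUnion_of_mem S.car hwM) (Finset.Subset.refl _)
  have herase : (Finsupp.single w 1 + M).support.erase w = M.support := by
    rw [supp_single_add, Finset.erase_insert hwM]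
  by_cases h2 : (S.car w \ S.cr M.support).card ≤ 2
  · exact hd.ho _ (by rw [deg_single_add]; omega) hf (by rw [herase]; exact h2)
      (by rw [herase', cr_insert]; exact hdom)
  have hsub : S.car w \ S.cr M.support ⊆ W \ S.cr M.support := Finset.sdiff_subset_sdiff hw
    (Finset.Subset.refl _)
  have hsub' : S.car w' \ S.cr M.support ⊆ W \ S.cr M.support := Finset.sdiff_subset_sdiff hw'
    (Finset.Subset.refl _)
  have hc1 : (W \ S.cr M.support).card + (S.cr M.support).card = W.card :=
    Finset.card_sdiff_add_card_eq_card hMW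
  have hc2 := Finset.card_le_card hsub
  by_cases h40 : (W \ S.cr M.support).card = 4
  · exact hfour M hM hMf hwM hw'M h40 hdom
  rcases Nat.lt_or_ge (n + 2) (S.cr M.support).card with h3 | h3
  · -- the relations of the points outside
    have h4 : (W \ S.cr M.support).card = 3 := by omega
    have h5 : ∀ b ∈ S.car w \ S.cr M.support, ((W \ S.cr M.support) \ {b}).card = 2 := by
      intro b hb
      rw [Finset.card_sdiff_of_subset (Finset.singleton_subset_iff.2 (hsub hb)), h4,
        Finset.card_singleton]
    have hrel : ∀ b ∈ S.car w \ S.cr M.support,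
        S.a w b * d (S.mo (Finsupp.single w 1 + M)) +
          S.a w' b * d (S.mo (Finsupp.single w' 1 + M)) = 0 := by
      intro b hb
      have hb' := Finset.mem_sdiff.1 hb
      have h6 := hd.th b (hw hb'.1) M hM hMf
        ((Finset.card_le_card (Finset.sdiff_subset_sdiff hsub (Finset.Subset.refl _))).trans
          (h5 b hb).le)
        ((Finset.card_le_card (Finset.sdiff_subset_sdiff hsub' (Finset.Subset.refl _))).trans
          (h5 b hb).le)
      rw [th_mul_mo', map_sum, ← Finset.sum_subset (Finset.subset_univ ({w, w'} : Finset X)),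
        Finset.sum_pair hww] at h6
      · rw [map_smul, map_smul, smul_eq_mul, smul_eq_mul] at h6
        exact h6
      · intro v _ hv
        rw [Finset.mem_insert, Finset.mem_singleton, not_or] at hv
        rw [map_smul]
        by_cases hvb : b ∈ S.car v
        · by_cases hvf : (Finsupp.single v 1 + M).support ∈ S.fcs W
          · have h8 : ∀ x : X, S.car x ⊆ W →
                (S.car x \ S.cr (insert v M.support)).card ≤ 2 := by
              intro x hx
              rw [cr_insert]
              refine (Finset.card_le_card ?_).trans (h5 b hb).le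
              intro c hc
              rw [Finset.mem_sdiff, Finset.mem_union, not_or] at hc
              rw [Finset.mem_sdiff, Finset.mem_sdiff, Finset.mem_singleton]
              refine ⟨⟨hx hc.1, hc.2.2⟩, fun h8 => hc.2.1 (h8 ▸ hvb)⟩
            rw [hd.ho _ (by rw [deg_single_add]; omega) hvf, smul_zero]
            · rw [supp_single_add, Finset.erase_insert_of_ne hv.1,
                Finset.erase_eq_of_notMem hwM]
              exact h8 w hw
            · rw [supp_single_add, Finset.erase_insert_of_ne hv.2,
                Finset.erase_eq_of_notMem hw'M]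
              exact h8 w' hw'
          · rw [hd.face _ (by rw [deg_single_add]; omega) hvf, smul_zero]
        · rw [S.a_zero hvb, zero_smul]
    obtain ⟨b, hb, b', hb', hbb⟩ := Finset.one_lt_card.1
      (show 1 < (S.car w \ S.cr M.support).card by omega)
    have r1 := hrel b hb
    have r2 := hrel b' hb'
    have hbw := (Finset.mem_sdiff.1 hb).1
    have hbw' := (Finset.mem_sdiff.1 hb').1
    by_cases h6 : b ∈ S.car w'
    · by_cases h7 : b' ∈ S.car w'
      · have h8 := minor_two hww hbb hbw hbw' h6 h7
        have h9 : (S.a w b * S.a w' b' + S.a w b' * S.a w' b) *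
            d (S.mo (Finsupp.single w 1 + M)) = 0 := by
          have h10 : (S.a w b * S.a w' b' + S.a w b' * S.a w' b) *
              d (S.mo (Finsupp.single w 1 + M)) =
              S.a w' b' * (S.a w b * d (S.mo (Finsupp.single w 1 + M)) +
                S.a w' b * d (S.mo (Finsupp.single w' 1 + M))) +
              S.a w' b * (S.a w b' * d (S.mo (Finsupp.single w 1 + M)) +
                S.a w' b' * d (S.mo (Finsupp.single w' 1 + M))) -
              (2 : S.K) * (S.a w' b * S.a w' b' * d (S.mo (Finsupp.single w' 1 + M))) := by ring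
          have := S.charP_K
          have h11 : (2 : S.K) = 0 := CharTwo.two_eq_zero
          rw [h10, r1, r2, h11, zero_mul, mul_zero, mul_zero, add_zero, sub_zero]
        exact (mul_eq_zero.1 h9).resolve_left h8
      · rw [S.a_zero h7, zero_mul, add_zero] at r2
        exact (mul_eq_zero.1 r2).resolve_left (S.a_ne hbw')
    · rw [S.a_zero h6, zero_mul, add_zero] at r1
      exact (mul_eq_zero.1 r1).resolve_left (S.a_ne hbw)
  · rw [← sh_mo]
    have hcard : ∀ s : X →₀ ℕ, (S.car w \ S.cr (Finsupp.single w 1 + s).support) = ∅ := by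
      intro s
      rw [supp_single_add, cr_insert]
      exact Finset.sdiff_eq_empty_iff_subset.2 Finset.subset_union_left
    refine we_core8 hT hW hMW hn (f := sh w d) ?_ ?_ ?_ ?_ ?_ (by omega) (by omega) hMf rfl
    · intro s hs hsW
      rw [sh_mo]
      exact hd.face _ (by rw [deg_single_add]; omega) fun h => hsW (fcs_of_single h)
    · intro c hc s hs hsU hcs
      rw [sh_mul_mo]
      by_cases h7 : (Finsupp.single w 1 + s).support ∈ S.fcs W
      · refine hd.th c (hMW hc) _ (by rw [deg_single_add]; omega) h7 ?_ ?_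
        · rw [hcard, Finset.empty_sdiff, Finset.card_empty]
          exact Nat.zero_le _
        · refine (Finset.card_le_card ?_).trans hdom
          rw [supp_single_add, cr_insert]
          intro e he
          rw [Finset.mem_sdiff, Finset.mem_sdiff, Finset.mem_union, not_or,
            Finset.mem_singleton] at he
          rw [Finset.mem_sdiff, Finset.mem_union, not_or]
          refine ⟨he.1.1, he.1.2.1, fun h8 => he.1.2.2 (hcs (Finset.mem_erase.2 ⟨he.2, h8⟩))⟩
      · exact th_nonface (d := n + 1) (fun t ht h => hd.face t (by omega) h) c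
          (by rw [deg_single_add]; omega) h7
    · intro s hs hsU hcs
      rw [sh_mul_mo]
      by_cases h7 : (Finsupp.single w 1 + s).support ∈ S.fcs W
      · refine hd.lam _ (by rw [deg_single_add]; omega) h7 ?_ ?_
        · rw [hcard, Finset.card_empty]
          exact Nat.zero_le _
        · rw [supp_single_add, cr_insert, hcs]
          exact hdom
      · exact lam_nonface (d := n + 1) (fun t ht h => hd.face t (by omega) h)
          (by rw [deg_single_add]; omega) h7
    · intro s hs hsW hcs
      rw [sh_mo]
      refine ih (W.card - (S.cr s.support).card) ?_ s (by omega) ?_ rfl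
      · have h8 := Finset.card_lt_card hcs
        have h9 := Finset.card_le_card (mem_fcs'.1 hsW).2
        omega
      · refine (Finset.card_le_card ?_).trans hdom
        exact Finset.sdiff_subset_sdiff (Finset.Subset.refl _)
          (Finset.union_subset_union (Finset.Subset.refl _) hcs.1)
    · exact one_le_cr hMf (by omega)

/-- The terms of two vertices. -/
theorem we_d8 (hT : S.Top S.K) {W : Finset Ω} (hW : 8 ≤ W.card) {w w' : X} (hww : w ≠ w')
    (hw : S.car w ⊆ W) (hw' : S.car w' ⊆ W) {d : S.T →ₗ[S.K] S.K} (hd : DH S W w w' d)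
    (hfour : ∀ M : X →₀ ℕ, M.degree + 6 = W.card → M.support ∈ S.fcs W → w ∉ M.support →
      w' ∉ M.support → (W \ S.cr M.support).card = 4 →
      (S.car w' \ (S.car w ∪ S.cr M.support)).card ≤ 2 →
      d (S.mo (Finsupp.single w 1 + M)) = 0)
    (hfour' : ∀ M : X →₀ ℕ, M.degree + 6 = W.card → M.support ∈ S.fcs W → w' ∉ M.support →
      w ∉ M.support → (W \ S.cr M.support).card = 4 →
      (S.car w \ (S.car w' ∪ S.cr M.support)).card ≤ 2 →
      d (S.mo (Finsupp.single w' 1 + M)) = 0)
    (M : X →₀ ℕ) (hM : M.degree + 5 = W.card) (hc : W.card ≤ (S.cr M.support).card + 2) :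
    d (S.mo M) = 0 := by
  classical
  by_cases hf : M.support ∈ S.fcs W
  swap
  · exact hd.face M hM hf
  have hMW := (mem_fcs'.1 hf).2
  have h1 : (W \ S.cr M.support).card + (S.cr M.support).card = W.card :=
    Finset.card_sdiff_add_card_eq_card hMW
  have h2 : ∀ x : X, S.car x ⊆ W → (S.car x \ S.cr M.support).card ≤ 2 := fun x hx =>
    (Finset.card_le_card (Finset.sdiff_subset_sdiff hx (Finset.Subset.refl _))).trans (by omega)
  by_cases hwM : w ∈ M.support
  · obtain ⟨M2, hM2⟩ := exists_single_add hwM
    have h3 := h2 w' hw'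
    rw [hM2, supp_single_add, cr_insert] at h3
    rw [hM2]
    refine we_d18 hT hW hww hw hw' hd hfour M2 ?_ h3
    rw [hM2, deg_single_add] at hM
    omega
  by_cases hw'M : w' ∈ M.support
  · obtain ⟨M2, hM2⟩ := exists_single_add hw'M
    have h3 := h2 w hw
    rw [hM2, supp_single_add, cr_insert] at h3
    rw [hM2]
    refine we_d18 hT hW hww.symm hw' hw hd.symm hfour' M2 ?_ h3
    rw [hM2, deg_single_add] at hM
    omega
  · refine hd.ho M hM hf ?_ ?_
    · rw [Finset.erase_eq_of_notMem hwM]
      exact h2 w hw
    · rw [Finset.erase_eq_of_notMem hw'M]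
      exact h2 w' hw'

end Pool.Agent.LH4
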