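import Pool.Agent.LH4.Ed
import Pool.Agent.LH4.We8

/-!
# (Ed) for eight points: the terms of one vertex and of two vertices are zero, given the values at
the faces whose carrier has four points less than `W`
-/

set_option autoImplicit false

open Finset

namespace Pool.Agent.LH4

open Pool.Agent.LocH

variable {X Ω : Type} [Fintype X] [DecidableEq X] [Fintype Ω] [DecidableEq Ω] {S : Sub X Ω}
  {W : Finset Ω} {w w' : X} {al s al' s' : S.T →ₗ[S.K] S.K} {g g' : S.T}

/-- The terms of one vertex are zero at the monomials `single w 1 + M` in which the vertex has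
exactly four private colours. -/
def EE4 (S : Sub X Ω) (W : Finset Ω) : Prop :=
  ∀ (w : X) (al s : S.T →ₗ[S.K] S.K) (g : S.T), S.car w ⊆ W → Pce S W w al s g →
    ∀ M : X →₀ ℕ, M.degree + 6 = W.card → M.support ∈ S.fcs W →
      4 = (S.car w \ S.cr M.support).card → ee S W al g (S.mo (Finsupp.single w 1 + M)) = 0

/-- The terms of two vertices are zero at the monomials `single w 1 + M` for which the carrier of
`M` has four points less than `W` and the second vertex has at most two private colours. -/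
def DD4 (S : Sub X Ω) (W : Finset Ω) : Prop :=
  ∀ (w w' : X) (al s al' s' : S.T →ₗ[S.K] S.K) (g g' : S.T), S.car w ⊆ W → S.car w' ⊆ W →
    w ≠ w' → Pce S W w al s g → Pce S W w' al' s' g' →
    ∀ M : X →₀ ℕ, M.degree + 6 = W.card → M.support ∈ S.fcs W → w ∉ M.support →
      w' ∉ M.support → (W \ S.cr M.support).card = 4 →
      (S.car w' \ (S.car w ∪ S.cr M.support)).card ≤ 2 →
      dd2 S al al' g g' (S.mo (Finsupp.single w 1 + M)) = 0

/-- The terms of one vertex are zero. -/
theorem Pce.ee_zero8 (P : Pce S W w al s g) (hT : S.Top S.K) [Nonempty X] (hW : 8 ≤ W.card)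
    (hE : EE4 S W) {M : X →₀ ℕ} (hd : M.degree + 5 = W.card)
    (hM : W.card ≤ (S.cr M.support).card + 2) : ee S W al g (S.mo M) = 0 := by
  classical
  obtain ⟨v, hv, P⟩ : ∃ v, S.car v ⊆ W ∧ Pce S W v al s g := by
    by_cases hw : S.car w ⊆ W
    · exact ⟨w, hw, P⟩
    · obtain ⟨v, -, h2⟩ := exists_vertex hT (by omega : 2 ≤ W.card) w
      exact ⟨v, h2, P.change hw (fun M hM hf => P.s_face hM hf)
        (fun c _ M hM hf => P.al_th c hM hf) v⟩
  by_cases hf : M.support ∈ S.fcs W
  swap
  · exact P.ee_face hd hf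
  have hMW := (mem_fcs'.1 hf).2
  by_cases hvM : v ∈ M.support
  · obtain ⟨M2, hM2⟩ := exists_single_add hvM
    rw [hM2]
    refine we_e8 hT hW hv (fun M hM hf => P.ee_face hM hf)
      (fun c hc M hM _ h => P.ee_th hc hM h) (fun M hM _ h => P.ee_lam hT hM h)
      (fun M hM _ h => P.ho hT hM h) (fun M hM => P.two hT hM)
      (fun M hM hf h => hE v al s g hv P M hM hf h) M2 ?_
    rw [hM2, deg_single_add] at hd
    omega
  · refine P.ho hT hd ?_
    rw [Finset.erase_eq_of_notMem hvM]
    have h1 : (W \ S.cr M.support).card + (S.cr M.support).card = W.card :=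
      Finset.card_sdiff_add_card_eq_card hMW
    exact (Finset.card_le_card (Finset.sdiff_subset_sdiff hv (Finset.Subset.refl _))).trans
      (by omega)

/-- The terms of two vertices are zero. -/
theorem Pce.dd_zero8 (P : Pce S W w al s g) (P' : Pce S W w' al' s' g') (hww : w ≠ w')
    (hT : S.Top S.K) (hW : 8 ≤ W.card) (hD : DD4 S W) {M : X →₀ ℕ}
    (hd : M.degree + 5 = W.card) (hM : W.card ≤ (S.cr M.support).card + 2) :
    dd2 S al al' g g' (S.mo M) = 0 := by
  obtain ⟨v, hvw, hv, P⟩ := P.vertex hT (by omega) hww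
  obtain ⟨v', hvw', hv', P'⟩ := P'.vertex hT (by omega) hvw.symm
  refine we_d8 hT hW hvw'.symm hv hv' (P.dH P' hT) (fun M hM hf h1 h2 h3 h4 => ?_)
    (fun M hM hf h1 h2 h3 h4 => ?_) M hd hM
  · exact hD v v' al s al' s' g g' hv hv' hvw'.symm P P' M hM hf h1 h2 h3 h4
  · rw [dd2_comm]
    exact hD v' v al' s' al s g' g hv' hv hvw' P' P M hM hf h1 h2 h3 h4

end Pool.Agent.LH4
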