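import Pool.Agent.LH4.Cm2
import Pool.Agent.LH4.Ed8

/-!
# (Cm2) for eight points
-/

set_option autoImplicit false

open Finset

namespace Pool.Agent.LH4

open Pool.Agent.LocH

variable {X Ω : Type} [Fintype X] [DecidableEq X] [Fintype Ω] [DecidableEq Ω] {S : Sub X Ω}
  {W : Finset Ω}

/-- The linear form `A` is zero at the good monomials of degree `|W| - 2`. -/
theorem cm2_of (hT : S.Top S.K) (hW : 8 ≤ W.card) (hE : EE4 S W) (hD : DD4 S W)
    (A : S.T →ₗ[S.K] S.K) (hA : Inp S W A) :
    ∀ N : X →₀ ℕ, N.degree + 2 = W.card → (∀ U ⊆ W, 2 * S.dgI U N + 4 ≤ W.card + U.card) →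
      A (S.mo N) = 0 := by
  rcases isEmpty_or_nonempty X with hX | hX
  · intro N hN
    rw [show N = 0 from Finsupp.ext fun v => hX.elim v, map_zero] at hN
    omega
  obtain ⟨k, hk⟩ : ∃ k, W.card = k + 4 := ⟨W.card - 4, by omega⟩
  obtain ⟨al, s, g, h, hs⟩ := spl_exists hT (splitP S) hk hA
  have hA0 : Nf S W (k + 2) A := fun M hM h => hA.face M (by omega) h
  refine vgf_main hT hW A hA.face (fun c hc M hM hU => ?_) (fun M hM hU => ?_)
    (H0_of hA.face fun M hd hf hcov => ?_)
  · by_cases hf : M.support ∈ S.fcs W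
    · have h1 := untyped_of_dg (C := {c}) (Finset.singleton_subset_iff.2 hc) hf hM
        fun U hUW hcU => hU U hUW (Finset.singleton_subset_iff.1 hcU)
      refine hA.th c hc M hM hf ?_ h1.2
      rw [Finset.erase_eq]
      exact h1.1
    · exact hA0.th_mo c (by omega) hf
  · by_cases hf : M.support ∈ S.fcs W
    · have h1 := untyped_of_dg (C := ∅) (Finset.empty_subset _) hf hM fun U hUW _ => hU U hUW
      refine hA.lam M hM hf ?_ h1.2
      have h2 := h1.1
      rwa [Finset.sdiff_empty] at h2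
    · exact hA0.lam_mo (by omega) hf
  · exact hs.zero hT hA hd hcov (fun w => (hs.pce w).ee_zero8 hT hW hE hd hcov)
      fun w w' hww => (hs.pce w).dd_zero8 (hs.pce w') hww hT hW hD hd hcov

end Pool.Agent.LH4
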