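import Pool.Agent.LH4.Zdef
import Pool.Agent.LH4.Ed

/-!
# (D) of row 1250: the bookkeeping of the cross terms
-/

set_option autoImplicit false

open Finset

namespace Pool.Agent.LH4

open Pool.Agent.LocH

variable {X Ω : Type} [Fintype X] [DecidableEq X] [Fintype Ω] [DecidableEq Ω] {S : Sub X Ω}
  {W : Finset Ω} {w w' : X}

/-- The element `B` represents the form `A (w .)` at the multiples of the monomial `M`. -/
structure Obj (S : Sub X Ω) (W : Finset Ω) (w : X) (M : X →₀ ℕ) (A : S.T →ₗ[S.K] S.K)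
    (B : S.T) : Prop where
  JB : B * S.mo M ∈ S.J W W
  HB : B ∈ S.H 3
  eq : ∀ z : S.T, z * S.mo M ∈ S.J W W → z * S.mo M ∈ S.H (W.card - 3) →
    A (MvPolynomial.X w * (z * S.mo M)) = S.Tr W (B * (z * S.mo M))

/-- The element `k` represents the form `A` at the multiples of the monomial `M`. -/
structure HOb (S : Sub X Ω) (W : Finset Ω) (M : X →₀ ℕ) (A : S.T →ₗ[S.K] S.K)
    (k : S.T) : Prop where
  JB : k * S.mo M ∈ S.J W W
  HB : k ∈ S.H 2
  eq : ∀ z : S.T, z * S.mo M ∈ S.J W W → z * S.mo M ∈ S.H (W.card - 2) →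
    A (z * S.mo M) = S.Tr W (k * (z * S.mo M))

theorem X_H1 (w : X) : (MvPolynomial.X w : S.T) ∈ S.H 1 :=
  (MvPolynomial.mem_homogeneousSubmodule _ _).2 (MvPolynomial.isHomogeneous_X _ _)

theorem mul_J_left {p y : S.T} (hy : y ∈ S.J W W) : p * y ∈ S.J W W := by
  rw [S.mem_J]
  intro N hN hf
  obtain ⟨a, ha, b, hb, rfl⟩ := Finset.mem_add.1 (MvPolynomial.support_mul _ _ hN)
  have h1 : b.support ⊆ (a + b).support := by
    rw [supp_add_sup]
    exact Finset.subset_union_right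
  exact (S.mem_J.1 hy b hb (face_mono h1 hf)).trans (cr_mono h1)

theorem HOb.obj {M : X →₀ ℕ} {A : S.T →ₗ[S.K] S.K} {k : S.T} (h : HOb S W M A k)
    (hW : 3 ≤ W.card) (w : X) : Obj S W w M A (MvPolynomial.X w * k) where
  JB := by
    rw [mul_assoc]
    exact mul_J_left h.JB
  HB := S.mul_H (X_H1 w) h.HB
  eq := fun z hz hz3 => by
    have h1 : MvPolynomial.X w * (z * S.mo M) = MvPolynomial.X w * z * S.mo M := by ring
    have h2 : MvPolynomial.X w * k * (z * S.mo M) = k * (MvPolynomial.X w * z * S.mo M) := by ring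
    rw [h1, h2]
    refine h.eq _ ?_ ?_
    · rw [mul_assoc]
      exact mul_J_left hz
    · rw [mul_assoc]
      have h3 := S.mul_H (X_H1 w) hz3
      have h4 : 1 + (W.card - 3) = W.card - 2 := by omega
      rwa [h4] at h3

/-- An honest form on the right: the cross term is zero. -/
theorem Obj.cross {M : X →₀ ℕ} {A A' : S.T →ₗ[S.K] S.K} {B k' : S.T} (h : Obj S W w M A B)
    (h' : HOb S W M A' k') (hd : M.degree + 6 = W.card) :
    A' (S.lam W * (B * S.mo M)) + A (S.lam W * (MvPolynomial.X w * k' * S.mo M)) = 0 := by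
  have e1 : S.lam W * (B * S.mo M) = S.lam W * B * S.mo M := by ring
  have e2 : S.lam W * (MvPolynomial.X w * k' * S.mo M) =
      MvPolynomial.X w * (S.lam W * k' * S.mo M) := by ring
  have d1 : W.card - 2 = 1 + (3 + M.degree) := by omega
  have d2 : W.card - 3 = 1 + (2 + M.degree) := by omega
  rw [e1, e2, h'.eq (S.lam W * B), h.eq (S.lam W * k')]
  · have e3 : k' * (S.lam W * B * S.mo M) = B * (S.lam W * k' * S.mo M) := by ring
    rw [e3]
    exact add_self _
  · rw [mul_assoc]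
    exact mul_J_left h'.JB
  · rw [mul_assoc, d2]
    exact S.mul_H (lam_H W) (S.mul_H h'.HB (mo_H M))
  · rw [mul_assoc]
    exact mul_J_left h.JB
  · rw [mul_assoc, d1]
    exact S.mul_H (lam_H W) (S.mul_H h.HB (mo_H M))

/-- The bookkeeping: `d` is the sum of the remainders and of the cross terms. -/
theorem dd_abs {κ κ' : Type} (I : Finset κ) (I' : Finset κ') {M : X →₀ ℕ}
    (hd : M.degree + 6 = W.card) {al al' : S.T →ₗ[S.K] S.K} {g g' : S.T}
    (A : κ → S.T →ₗ[S.K] S.K) (A' : κ' → S.T →ₗ[S.K] S.K) (B : κ → S.T) (B' : κ' → S.T)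
    (hB : ∀ i ∈ I, Obj S W w M (A i) (B i)) (hB' : ∀ j ∈ I', Obj S W w M (A' j) (B' j))
    (gJ : g ∈ S.J W W) (gH : g ∈ S.H 3) (gJ' : g' ∈ S.J W W) (gH' : g' ∈ S.H 3)
    (tot : al (MvPolynomial.X w * (g' * S.mo M)) =
      ∑ i ∈ I, A i (MvPolynomial.X w * (g' * S.mo M)))
    (tot' : al' (MvPolynomial.X w * (g * S.mo M)) =
      ∑ j ∈ I', A' j (MvPolynomial.X w * (g * S.mo M)))
    (sp sp' : S.T →ₗ[S.K] S.K)
    (hs : ∀ y, y ∈ S.J W W → y ∈ S.H (W.card - 3) →
      S.Tr W (g * y) = sp y + ∑ i ∈ I, A i (S.lam W * y))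
    (hs' : ∀ y, y ∈ S.J W W → y ∈ S.H (W.card - 3) →
      S.Tr W (g' * y) = sp' y + ∑ j ∈ I', A' j (S.lam W * y)) :
    dd2 S al al' g g' (S.mo (Finsupp.single w 1 + M)) =
      ∑ i ∈ I, sp' (B i * S.mo M) + ∑ j ∈ I', sp (B' j * S.mo M) +
      ∑ i ∈ I, ∑ j ∈ I', (A' j (S.lam W * (B i * S.mo M)) + A i (S.lam W * (B' j * S.mo M))) := by
  have d1 : W.card - 3 = 3 + M.degree := by omega
  have hX : ∀ p : S.T, p * S.mo (Finsupp.single w 1 + M) = MvPolynomial.X w * (p * S.mo M) := by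
    intro p
    rw [← X_mul_mo]
    ring
  have h1 : ∀ i ∈ I, A i (MvPolynomial.X w * (g' * S.mo M)) =
      sp' (B i * S.mo M) + ∑ j ∈ I', A' j (S.lam W * (B i * S.mo M)) := by
    intro i hi
    have e1 : B i * (g' * S.mo M) = g' * (B i * S.mo M) := by ring
    rw [(hB i hi).eq g', e1, hs' _ (hB i hi).JB]
    · rw [d1]
      exact S.mul_H (hB i hi).HB (mo_H M)
    · rw [mul_comm]
      exact mul_J_left gJ'
    · rw [d1]
      exact S.mul_H gH' (mo_H M)
  have h2 : ∀ j ∈ I', A' j (MvPolynomial.X w * (g * S.mo M)) =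
      sp (B' j * S.mo M) + ∑ i ∈ I, A i (S.lam W * (B' j * S.mo M)) := by
    intro j hj
    have e1 : B' j * (g * S.mo M) = g * (B' j * S.mo M) := by ring
    rw [(hB' j hj).eq g, e1, hs _ (hB' j hj).JB]
    · rw [d1]
      exact S.mul_H (hB' j hj).HB (mo_H M)
    · rw [mul_comm]
      exact mul_J_left gJ
    · rw [d1]
      exact S.mul_H gH (mo_H M)
  rw [dd2_apply, hX, hX, tot, tot', Finset.sum_congr rfl h1, Finset.sum_congr rfl h2,
    Finset.sum_add_distrib, Finset.sum_add_distrib]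
  have h3 : ∑ i ∈ I, ∑ j ∈ I', (A' j (S.lam W * (B i * S.mo M)) +
      A i (S.lam W * (B' j * S.mo M))) =
      ∑ i ∈ I, ∑ j ∈ I', A' j (S.lam W * (B i * S.mo M)) +
      ∑ j ∈ I', ∑ i ∈ I, A i (S.lam W * (B' j * S.mo M)) := by
    rw [Finset.sum_comm (s := I') (t := I), ← Finset.sum_add_distrib]
    exact Finset.sum_congr rfl fun i _ => Finset.sum_add_distrib
  rw [h3]
  ring

end Pool.Agent.LH4
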