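import Pool.Agent.LH4.Dd1

/-!
# (D) of row 1250: the cross terms of two classes
-/

set_option autoImplicit false

open Finset

namespace Pool.Agent.LH4

open Pool.Agent.LocH

variable {X Ω : Type} [Fintype X] [DecidableEq X] [Fintype Ω] [DecidableEq Ω] {S : Sub X Ω}
  {W : Finset Ω} {w w' : X}

/-- A multiple of `M` by an element of the interior ideal of the star of a face of `M`. -/
theorem Ok.of_JT' {k : ℕ} {τ : Finset X} {h : S.T} (hh : h ∈ S.JT τ W W) (hk : h ∈ S.H k)
    {M : X →₀ ℕ} (hM : τ ⊆ M.support) : Ok S W τ (k + M.degree) (h * S.mo M) := by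
  intro N hN
  obtain ⟨n, hn, rfl⟩ := mem_mul_mo hN
  have h1 : n.support ∪ τ ⊆ (n + M).support := by
    rw [supp_add_sup]
    exact Finset.union_subset_union_right hM
  refine ⟨by rw [map_add, deg_of_H hk hn], Finset.subset_union_right.trans h1, fun h5 => ?_⟩
  exact (S.mem_JT.1 hh n hn (face_mono h1 h5)).trans (cr_mono h1)

theorem form_Lf (F : S.T →ₗ[S.K] S.K) (ν : X → S.K) (H : X → S.T) (p q : S.T) :
    F (p * (Lf S ν H * q)) = ∑ u, ν u * F (p * (MvPolynomial.X u * H u * q)) := by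
  unfold Lf
  rw [Finset.sum_mul, Finset.mul_sum, map_sum]
  refine Finset.sum_congr rfl fun u _ => ?_
  rw [smul_mul_assoc, mul_smul_comm, map_smul, smul_eq_mul]

/-- The value of a class at a lift of the other one. -/
theorem Lr.val {V : Finset X} {A : S.T →ₗ[S.K] S.K} {H : X → S.T} (hL : Lr S W w V A H) {u : X}
    (hu : u ≠ w) (huV : u ∉ V) (huW : S.car u ⊆ W) {k : S.T} (hk : k ∈ S.JT {u} W W)
    (hk2 : k ∈ S.H 2) {M : X →₀ ℕ} (hd : M.degree + 6 = W.card) :
    A (S.lam W * (MvPolynomial.X u * k * S.mo M)) =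
      S.Tr W (H u * (S.lam W * (MvPolynomial.X u * k * S.mo M))) := by
  have e1 : MvPolynomial.X u * k * S.mo M = k * S.mo (Finsupp.single u 1 + M) := by
    rw [← X_mul_mo]
    ring
  rw [e1]
  have h1 : Ok S W {u} (2 + (M.degree + 1)) (k * S.mo (Finsupp.single u 1 + M)) := by
    have h2 := Ok.of_JT' hk hk2 (M := Finsupp.single u 1 + M) (by
      rw [Finset.singleton_subset_iff, supp_single_add]
      exact Finset.mem_insert_self _ _)
    rwa [deg_single_add] at h2
  exact (hL.hon u hu huV huW).eq _ _ h1.mul_lam (by omega)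

/-- Two classes and a common vector. -/
theorem Lr.cross {V V' : Finset X} {A A' : S.T →ₗ[S.K] S.K} {H H' : X → S.T}
    (hL : Lr S W w V A H) (hL' : Lr S W w' V' A' H') (hww : w ≠ w') {ν : X → S.K}
    (hV : ∀ u ∈ V, ν u = 0) (hV' : ∀ u ∈ V', ν u = 0) (h1 : ν w = 1) (h2 : ν w' = 0)
    {M : X →₀ ℕ} (hd : M.degree + 6 = W.card) :
    A' (S.lam W * (Lf S ν H * S.mo M)) +
      A (S.lam W * (Lf S (ν + Pi.single w 1) H' * S.mo M)) = 0 := by
  have := S.charP_K
  rw [form_Lf, form_Lf, ← Finset.sum_add_distrib]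
  refine Finset.sum_eq_zero fun u _ => ?_
  by_cases huw : u = w
  · subst huw
    rw [hL.zero u fun h => h.1 rfl, mul_zero, zero_mul, mul_zero, map_zero, mul_zero, zero_add,
      Pi.add_apply, Pi.single_eq_same, h1, CharTwo.add_self_eq_zero, zero_mul]
  rw [Pi.add_apply, Pi.single_eq_of_ne huw, add_zero]
  by_cases hν : ν u = 0
  · rw [hν, zero_mul, zero_mul, add_zero]
  have huw' : u ≠ w' := fun h => hν (by rw [h, h2])
  have huV : u ∉ V := fun h => hν (hV u h)
  have huV' : u ∉ V' := fun h => hν (hV' u h)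
  by_cases hc : S.car u ⊆ W
  · have k1 := hL.hon u huw huV hc
    have k2 := hL'.hon u huw' huV' hc
    rw [hL'.val huw' huV' hc k1.JT k1.H hd, hL.val huw huV hc k2.JT k2.H hd]
    have e1 : H' u * (S.lam W * (MvPolynomial.X u * H u * S.mo M)) =
        H u * (S.lam W * (MvPolynomial.X u * H' u * S.mo M)) := by ring
    rw [e1]
    exact CharTwo.add_self_eq_zero _
  · rw [hL.zero u fun h => hc h.2.2, hL'.zero u fun h => hc h.2.2, mul_zero, zero_mul, mul_zero,
      map_zero, map_zero, mul_zero, add_zero]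

/-- A class which meets the monomial is honest. -/
theorem Lr.hob {V : Finset X} {A : S.T →ₗ[S.K] S.K} {H : X → S.T} (hL : Lr S W w V A H) {u : X}
    (hu : u ≠ w) (huV : u ∉ V) {M : X →₀ ℕ} (huM : u ∈ M.support) (hM : M.support ∈ S.fcs W)
    (hd : M.degree + 6 = W.card) : HOb S W M A (H u) := by
  have hc : S.car u ⊆ W := (Finset.subset_biUnion_of_mem S.car huM).trans (mem_fcs'.1 hM).2
  have k1 := hL.hon u hu huV hc
  refine ⟨(Ok.of_JT' k1.JT k1.H (Finset.singleton_subset_iff.2 huM)).mem_J, k1.H,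
    fun z hz hz2 => k1.eq (W.card - 2) _ (fun N hN => ⟨deg_of_H hz2 hN, ?_, S.mem_J.1 hz N hN⟩)
      (by omega)⟩
  obtain ⟨n, -, rfl⟩ := mem_mul_mo hN
  rw [Finset.singleton_subset_iff, supp_add_sup]
  exact Finset.mem_union_right _ huM

/-- The trace form is honest. -/
theorem hob_Tr {h : S.T} (hJ : h ∈ S.J W W) (hH : h ∈ S.H 2) (M : X →₀ ℕ) :
    HOb S W M (S.Tr W ∘ₗ LinearMap.mulLeft S.K h) h where
  JB := by
    rw [mul_comm]
    exact mul_J_left hJ
  HB := hH
  eq := fun _ _ _ => rfl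

end Pool.Agent.LH4
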