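import Pool.Agent.LH4.Zdef
import Pool.Agent.LH4.As4
import Pool.Agent.LH4.Ed

/-!
# The forms `G_Z` of a piece with a decomposition into classes

`sz`: the form `s'` with `Tr (g y) = s' y + Σ_i A_i (λ y) + Tr (h λ y)`; it is zero at the untyped
monomials.  `gz`: the part of `s'` at the monomials in which the set of private colours of `w` is `Z'`,
plus the sum of the `A_i (λ .)` over the classes with the missing colours `Z'`.  Its coboundary lives at
pairs in which `w` has at least four private colours.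
-/

set_option autoImplicit false

open Finset

namespace Pool.Agent.LH4

open Pool.Agent.LocH

variable {X Ω : Type} [Fintype X] [DecidableEq X] [Fintype Ω] [DecidableEq Ω] {S : Sub X Ω}
  {W : Finset Ω} {w : X} {al s : S.T →ₗ[S.K] S.K} {g : S.T} {ι : Type} {I : Finset ι}
  {Z : ι → Finset Ω} {V : ι → Finset X} {A : ι → S.T →ₗ[S.K] S.K} {h : S.T}

/-! ### A piece is the sum of its classes at the untyped monomials -/

theorem Zd.al_eq (P : Pce S W w al s g) (hz : Zd S W w al I Z V A h) {y : S.T}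
    (h1 : ∀ N ∈ y.support, N.degree + 2 = W.card ∧
      (N.support ∈ S.fcs W → W ⊆ S.cr N.support ∧ ¬ Ty S w ∅ N)) :
    al y = ∑ i ∈ I, A i y + S.Tr W (h * y) := by
  have h2 : al y = (∑ i ∈ I, A i + ml (S.Tr W) h) y := by
    refine form_eq fun N hN => ?_
    obtain ⟨h3, h4⟩ := h1 N hN
    rw [LinearMap.add_apply, LinearMap.sum_apply, ml_apply]
    by_cases hf : N.support ∈ S.fcs W
    · obtain ⟨h5, h6⟩ := h4 hf
      exact hz.tot N h3 (fun _ => h5) h6
    · rw [P.face N h3 hf, S.Tr_I (S.mul_I (mo_I hf) h), add_zero]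
      exact (Finset.sum_eq_zero fun i hi => (hz.cs i hi).nf N h3 hf).symm
  rw [h2, LinearMap.add_apply, LinearMap.sum_apply, ml_apply]

/-- The form `s'`. -/
noncomputable def sz (S : Sub X Ω) (W : Finset Ω) (g : S.T) (I : Finset ι)
    (A : ι → S.T →ₗ[S.K] S.K) (h : S.T) : S.T →ₗ[S.K] S.K :=
  ml (S.Tr W) g + ∑ i ∈ I, ml (A i) (S.lam W) + ml (S.Tr W) (h * S.lam W)

omit [Fintype Ω] in
theorem sz_apply (y : S.T) : sz S W g I A h y =
    S.Tr W (g * y) + ∑ i ∈ I, A i (S.lam W * y) + S.Tr W (h * (S.lam W * y)) := by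
  unfold sz
  rw [LinearMap.add_apply, LinearMap.add_apply, LinearMap.sum_apply, ml_apply, ml_apply, mul_assoc]
  rfl

theorem sz_face (hz : Zd S W w al I Z V A h) {N : X →₀ ℕ}
    (hd : N.degree + 3 = W.card) (hf : N.support ∉ S.fcs W) : sz S W g I A h (S.mo N) = 0 := by
  have h1 : ∀ i ∈ I, A i (S.lam W * S.mo N) = 0 := by
    intro i hi
    refine form_zero fun N' hN' => ?_
    obtain ⟨u, -, rfl⟩ := mem_lam_mo hN'
    exact (hz.cs i hi).nf _ (by rw [deg_single_add]; omega) (nface_add hf u)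
  have h2 : S.Tr W (h * (S.lam W * S.mo N)) = 0 := by
    have h3 : h * (S.lam W * S.mo N) = h * S.lam W * S.mo N := by ring
    rw [h3]
    exact S.Tr_I (S.mul_I (mo_I hf) _)
  rw [sz_apply, S.Tr_I (S.mul_I (mo_I hf) g), h2, Finset.sum_eq_zero h1, add_zero, add_zero]

/-- The form `s'` is zero at the untyped monomials. -/
theorem sz_zero (P : Pce S W w al s g) (hz : Zd S W w al I Z V A h) (hw : S.car w ⊆ W)
    {N : X →₀ ℕ} (hd : N.degree + 3 = W.card) (hJ : N.support ∈ S.fcs W → W ⊆ S.cr N.support)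
    (hty : ¬ Ty S w ∅ N) : sz S W g I A h (S.mo N) = 0 := by
  by_cases hf : N.support ∈ S.fcs W
  swap
  · exact sz_face hz hd hf
  have h1 : Ok S W ∅ N.degree (S.mo N) := ok_mo (Finset.empty_subset _) hJ
  have h2 := P.tr h1 hd
  have h3 : al (S.lam W * S.mo N) =
      ∑ i ∈ I, A i (S.lam W * S.mo N) + S.Tr W (h * (S.lam W * S.mo N)) := by
    refine Zd.al_eq P hz fun N' hN' => ?_
    obtain ⟨u, -, rfl⟩ := mem_lam_mo hN'
    refine ⟨by rw [deg_single_add]; omega, fun hf' => ⟨?_, fun ht => hty ?_⟩⟩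
    · rw [supp_single_add]
      exact (hJ hf).trans (cr_mono (Finset.subset_insert _ _))
    · refine ht.of_single ?_
      rw [Finset.sdiff_empty]
      exact hw.trans (hJ hf)
  rw [sz_apply, h2, P.s0 N hd hJ hty, h3, zero_add, add_assoc]
  exact two_zero _

/-! ### Private colours -/

/-- The colours of `w` outside the other vertices of the monomial. -/
def pz (S : Sub X Ω) (w : X) (N : X →₀ ℕ) : Finset Ω := S.car w \ S.cr (N.support.erase w)

omit [Fintype X] [Fintype Ω] in
theorem pz_add {N : X →₀ ℕ} {v : X} (hv : v ≠ w) :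
    pz S w (Finsupp.single v 1 + N) = pz S w N \ S.car v := by
  unfold pz
  rw [supp_single_add, Finset.erase_insert_of_ne hv, cr_insert]
  ext b
  rw [Finset.mem_sdiff, Finset.mem_sdiff, Finset.mem_sdiff, Finset.mem_union]
  tauto

omit [Fintype X] [Fintype Ω] in
/-- A vertex of multiplicity one. -/
theorem ty_pz {C : Finset Ω} {N : X →₀ ℕ} (hN : N w = 1) :
    Ty S w C N ↔ 3 ≤ (pz S w N \ C).card := by
  have h1 : (N - Finsupp.single w 1).support = N.support.erase w := by
    ext x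
    rw [Finset.mem_erase, Finsupp.mem_support_iff, Finsupp.mem_support_iff, Finsupp.tsub_apply,
      Finsupp.single_apply]
    by_cases hx : w = x
    · subst hx
      rw [if_pos rfl, hN]
      simp
    · rw [if_neg hx, Nat.sub_zero]
      exact ⟨fun h => ⟨fun h' => hx h'.symm, h⟩, fun h => h.2⟩
  constructor
  · intro ht
    have h2 := ht.big
    rwa [h1] at h2
  · intro ht
    refine ⟨by rw [Finsupp.mem_support_iff, hN]; exact one_ne_zero, ?_⟩
    rw [h1]
    exact ht

theorem Ty.one_z {C : Finset Ω} {N : X →₀ ℕ} (ht : Ty S w C N) : N w = 1 := by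
  have h1 := Finsupp.mem_support_iff.1 ht.mem
  by_contra h2
  exact not_ty_two (by omega) ht

/-! ### The forms `G_Z` -/

/-- The part of `s'` at the monomials in which the set of private colours of `w` is `Z'`. -/
noncomputable def tz (S : Sub X Ω) (W : Finset Ω) (w : X) (g : S.T) (I : Finset ι)
    (A : ι → S.T →ₗ[S.K] S.K) (h : S.T) (Z' : Finset Ω) : S.T →ₗ[S.K] S.K :=
  lfm S fun N => if N w = 1 ∧ pz S w N = Z' then sz S W g I A h (S.mo N) else 0

omit [Fintype Ω] in
theorem tz_mo (Z' : Finset Ω) (N : X →₀ ℕ) : tz S W w g I A h Z' (S.mo N) =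
    if N w = 1 ∧ pz S w N = Z' then sz S W g I A h (S.mo N) else 0 := lfm_mo _ _

/-- The form `G_Z`. -/
noncomputable def gz (S : Sub X Ω) (W : Finset Ω) (w : X) (g : S.T) (I : Finset ι)
    (Z : ι → Finset Ω) (A : ι → S.T →ₗ[S.K] S.K) (h : S.T) (Z' : Finset Ω) : S.T →ₗ[S.K] S.K :=
  tz S W w g I A h Z' + ∑ i ∈ I.filter (fun i => Z i = Z'), ml (A i) (S.lam W)

omit [Fintype Ω] in
theorem gz_apply (Z' : Finset Ω) (y : S.T) : gz S W w g I Z A h Z' y =
    tz S W w g I A h Z' y + ∑ i ∈ I.filter (fun i => Z i = Z'), A i (S.lam W * y) := by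
  unfold gz
  rw [LinearMap.add_apply, LinearMap.sum_apply]
  rfl

/-- A relation which is not zero for a class. -/
theorem Cs.th_lam {Z' : Finset Ω} {V' : Finset X} {A' : S.T →ₗ[S.K] S.K}
    (hC : Cs S W w Z' V' A') (hw : S.car w ⊆ W) {c : Ω} (hc : c ∈ W) {M : X →₀ ℕ}
    (hd : M.degree + 4 = W.card) (hcov : W.erase c ⊆ S.cr M.support)
    (hne : A' (S.lam W * (S.th c * S.mo M)) ≠ 0) :
    M w = 1 ∧ Z' ⊆ pz S w M \ {c} := by
  have h1 : S.lam W * (S.th c * S.mo M) = S.th c * (S.lam W * S.mo M) := by ring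
  rw [h1] at hne
  obtain ⟨N, hN, hN0⟩ : ∃ N ∈ (S.lam W * S.mo M).support, A' (S.th c * S.mo N) ≠ 0 := by
    by_contra h2
    push Not at h2
    exact hne (form_mul_zero _ h2)
  obtain ⟨u, -, rfl⟩ := mem_lam_mo hN
  have hsup : M.support ⊆ (Finsupp.single u 1 + M).support := by
    rw [supp_single_add]
    exact Finset.subset_insert _ _
  obtain ⟨h2, h3, h4⟩ := hC.th c hc _ (by rw [deg_single_add]; omega)
    (hcov.trans (cr_mono hsup)) hN0
  have key : ∀ F : Finset X, F ⊆ V' → Disjoint (S.cr F) Z' := by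
    intro F hF
    unfold Sub.cr
    rw [Finset.disjoint_biUnion_left]
    exact fun v hv => hC.VZ v (hF hv)
  rw [Finsupp.add_apply, Finsupp.single_apply] at h2
  have h5 : M w = 1 := by
    by_cases hu : u = w
    · exfalso
      rw [if_pos hu] at h2
      have h6 : w ∉ M.support := by
        rw [Finsupp.notMem_support_iff]
        omega
      have h7 : M.support ⊆ V' := by
        intro v hv
        exact h4 (Finset.mem_erase.2 ⟨fun h8 => h6 (h8 ▸ hv), hsup hv⟩)
      obtain ⟨b, hb⟩ : Z'.Nonempty := by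
        rw [← Finset.card_pos, hC.Zc]
        omega
      have h8 : b ∈ S.cr M.support :=
        hcov (Finset.mem_erase.2 ⟨fun h9 => h3 (h9 ▸ hb), hw (hC.Zs hb)⟩)
      exact Finset.disjoint_left.1 (key _ h7) h8 hb
    · rw [if_neg hu, zero_add] at h2
      exact h2
  refine ⟨h5, fun b hb => ?_⟩
  rw [Finset.mem_sdiff, Finset.mem_singleton]
  refine ⟨?_, fun h6 => h3 (h6 ▸ hb)⟩
  unfold pz
  rw [Finset.mem_sdiff]
  refine ⟨hC.Zs hb, fun h6 => ?_⟩
  have h7 : M.support.erase w ⊆ V' := (Finset.erase_subset_erase w hsup).trans h4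
  exact Finset.disjoint_left.1 (key _ h7) h6 hb

/-- A relation which is not zero for the part of `s'`. -/
theorem tz_th (P : Pce S W w al s g) (hz : Zd S W w al I Z V A h) (hw : S.car w ⊆ W)
    {Z' : Finset Ω} (hZ' : 2 ≤ Z'.card) {c : Ω} (_hc : c ∈ W) {M : X →₀ ℕ}
    (hcov : W.erase c ⊆ S.cr M.support)
    (hne : tz S W w g I A h Z' (S.th c * S.mo M) ≠ 0) : M w = 1 ∧ Z' ⊆ pz S w M \ {c} := by
  rw [th_apply] at hne
  obtain ⟨v, -, hv⟩ := Finset.exists_ne_zero_of_sum_ne_zero hne
  have h1 : c ∈ S.car v := by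
    by_contra h1
    rw [S.a_zero h1, zero_mul] at hv
    exact hv rfl
  rw [tz_mo] at hv
  have h2 : (Finsupp.single v 1 + M : X →₀ ℕ) w = 1 ∧ pz S w (Finsupp.single v 1 + M) = Z' := by
    by_contra h2
    rw [if_neg h2, mul_zero] at hv
    exact hv rfl
  obtain ⟨h3, h4⟩ := h2
  rw [Finsupp.add_apply, Finsupp.single_apply] at h3
  by_cases hvw : v = w
  · exfalso
    subst hvw
    rw [if_pos rfl] at h3
    have h5 : v ∉ M.support := by
      rw [Finsupp.notMem_support_iff]
      omega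
    have h6 : pz S v (Finsupp.single v 1 + M) ⊆ {c} := by
      unfold pz
      rw [supp_single_add, Finset.erase_insert h5]
      intro b hb
      obtain ⟨hb1, hb2⟩ := Finset.mem_sdiff.1 hb
      rw [Finset.mem_singleton]
      by_contra hbc
      exact hb2 (hcov (Finset.mem_erase.2 ⟨hbc, hw hb1⟩))
    rw [h4] at h6
    have h7 := Finset.card_le_card h6
    rw [Finset.card_singleton] at h7
    omega
  · rw [if_neg hvw, zero_add] at h3
    refine ⟨h3, ?_⟩
    rw [← h4, pz_add hvw]
    intro b hb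
    obtain ⟨hb1, hb2⟩ := Finset.mem_sdiff.1 hb
    rw [Finset.mem_sdiff, Finset.mem_singleton]
    exact ⟨hb1, fun h5 => hb2 (h5 ▸ h1)⟩

/-- The relation of `s'` at a pair with exactly three private colours. -/
theorem tz_three (P : Pce S W w al s g) (hz : Zd S W w al I Z V A h) (hw : S.car w ⊆ W)
    {Z' : Finset Ω} (hZ' : Z'.card = 3) {c : Ω} (_hc : c ∈ W) {M : X →₀ ℕ}
    (hd : M.degree + 4 = W.card) (hcov : W.erase c ⊆ S.cr M.support) (hMw : M w = 1)
    (hp : pz S w M \ {c} = Z') :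
    tz S W w g I A h Z' (S.th c * S.mo M) = sz S W g I A h (S.th c * S.mo M) := by
  rw [th_apply, th_apply]
  refine Finset.sum_congr rfl fun v _ => ?_
  by_cases hcv : c ∈ S.car v
  swap
  · rw [S.a_zero hcv, zero_mul, zero_mul]
  congr 1
  rw [tz_mo]
  split_ifs with h1
  · rfl
  symm
  have hdv : (Finsupp.single v 1 + M).degree + 3 = W.card := by
    rw [deg_single_add]
    omega
  have hJ : W ⊆ S.cr (Finsupp.single v 1 + M).support := by
    rw [supp_single_add, cr_insert]
    intro b hb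
    by_cases hbc : b = c
    · exact Finset.mem_union_left _ (hbc ▸ hcv)
    · exact Finset.mem_union_right _ (hcov (Finset.mem_erase.2 ⟨hbc, hb⟩))
  refine sz_zero P hz hw hdv (fun _ => hJ) fun ht => h1 ?_
  have h2 := ht.one_z
  refine ⟨h2, ?_⟩
  rw [Finsupp.add_apply, Finsupp.single_apply] at h2
  have hvw : v ≠ w := by
    intro hvw
    rw [if_pos hvw, hMw] at h2
    omega
  have h3 := (ty_pz ht.one_z).1 ht
  rw [Finset.sdiff_empty, pz_add hvw] at h3
  rw [pz_add hvw]
  have h4 : pz S w M \ S.car v ⊆ Z' := by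
    rw [← hp]
    refine Finset.sdiff_subset_sdiff (Finset.Subset.refl _) ?_
    rw [Finset.singleton_subset_iff]
    exact hcv
  exact Finset.eq_of_subset_of_card_le h4 (by omega)

/-- The trace of a relation. -/
theorem Tr_th_zero (hT : S.Top S.K) {c : Ω} (hc : c ∈ W) {p : S.T} (hp : p ∈ S.J W W) {k : ℕ}
    (hk : p ∈ S.H k) {M : X →₀ ℕ} (hd : k + M.degree < W.card) :
    S.Tr W (p * (S.th c * S.mo M)) = 0 := by
  have h1 : p * (S.th c * S.mo M) = S.th c * (S.mo M * p) := by ring
  rw [h1, S.Tr_th hc, S.res hT (S.mul_J hp _) (S.mul_H (mo_H M) hk) (by omega), mul_zero]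

/-- The form `s'` at a relation. -/
theorem sz_th (hT : S.Top S.K) (P : Pce S W w al s g) (hz : Zd S W w al I Z V A h) {c : Ω}
    (hc : c ∈ W) {M : X →₀ ℕ} (hd : M.degree + 4 = W.card) :
    sz S W g I A h (S.th c * S.mo M) = ∑ i ∈ I, A i (S.lam W * (S.th c * S.mo M)) := by
  have h1 : h * (S.lam W * (S.th c * S.mo M)) = (S.lam W * h) * (S.th c * S.mo M) := by ring
  rw [sz_apply, Tr_th_zero hT hc P.gJ P.gH (by omega), h1,
    Tr_th_zero hT hc (S.mul_J hz.hJ _) (lam_H' W hz.hH) (by omega), zero_add, add_zero]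

/-- The form `G_Z` is a form whose coboundary lives at pairs in which `w` has at least four private
colours. -/
theorem gz_Gt (hT : S.Top S.K) (P : Pce S W w al s g) (hz : Zd S W w al I Z V A h)
    (hw : S.car w ⊆ W) {Z' : Finset Ω} (hZ' : Z'.card = 3) :
    Gt S W w (gz S W w g I Z A h Z') := by
  refine ⟨fun M hd hf => ?_, fun c hc M hd hcov hne => ?_⟩
  · rw [gz_apply, tz_mo, sz_face hz hd hf, ite_self, zero_add]
    refine Finset.sum_eq_zero fun i hi => ?_
    refine form_zero fun N' hN' => ?_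
    obtain ⟨u, -, rfl⟩ := mem_lam_mo hN'
    exact (hz.cs i (Finset.mem_filter.1 hi).1).nf _ (by rw [deg_single_add]; omega)
      (nface_add hf u)
  · have h1 : M w = 1 ∧ Z' ⊆ pz S w M \ {c} := by
      rw [gz_apply] at hne
      by_cases h1 : tz S W w g I A h Z' (S.th c * S.mo M) = 0
      · rw [h1, zero_add] at hne
        obtain ⟨i, hi, hi0⟩ := Finset.exists_ne_zero_of_sum_ne_zero hne
        obtain ⟨hiI, hiZ⟩ := Finset.mem_filter.1 hi
        have h2 := (hz.cs i hiI).th_lam hw hc hd hcov hi0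
        rwa [hiZ] at h2
      · exact tz_th P hz hw (by omega) hc hcov h1
    refine ⟨h1.1, ?_⟩
    by_contra h2
    have h3 : pz S w M \ {c} = Z' := by
      refine (Finset.eq_of_subset_of_card_le h1.2 ?_).symm
      have h4 : (pz S w M \ {c}).card = ((S.car w \ S.cr (M.support.erase w)) \ {c}).card := rfl
      omega
    refine hne ?_
    rw [gz_apply, tz_three P hz hw hZ' hc hd hcov h1.1 h3, sz_th hT P hz hc hd]
    have h4 : ∑ i ∈ I.filter (fun i => Z i = Z'), A i (S.lam W * (S.th c * S.mo M)) =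
        ∑ i ∈ I, A i (S.lam W * (S.th c * S.mo M)) := by
      refine Finset.sum_subset (Finset.filter_subset _ _) fun i hi hi' => ?_
      by_contra h5
      refine hi' (Finset.mem_filter.2 ⟨hi, ?_⟩)
      have h6 := ((hz.cs i hi).th_lam hw hc hd hcov h5).2
      rw [h3] at h6
      exact Finset.eq_of_subset_of_card_le h6 (by rw [hZ', (hz.cs i hi).Zc])
    rw [h4]
    exact two_zero _

end Pool.Agent.LH4
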