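import Pool.Agent.LH4.Dd2
import Pool.Agent.LH4.Gz

/-!
# (D) of row 1250: the brackets
-/

set_option autoImplicit false

open Finset

namespace Pool.Agent.LH4

open Pool.Agent.LocH

variable {X Ω : Type} [Fintype X] [DecidableEq X] [Fintype Ω] [DecidableEq Ω] {S : Sub X Ω}
  {W : Finset Ω} {w : X} {al s : S.T →ₗ[S.K] S.K} {g : S.T} {ι : Type} {I : Finset ι}
  {Z : ι → Finset Ω} {V : ι → Finset X} {A : ι → S.T →ₗ[S.K] S.K} {h : S.T}

/-- A family of elements of degree two in the interior ideals of the stars of the vertices. -/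
structure FamH (S : Sub X Ω) (W : Finset Ω) (H : X → S.T) : Prop where
  JT : ∀ u, H u ∈ S.JT {u} W W
  H2 : ∀ u, H u ∈ S.H 2

theorem Lr.fam {V' : Finset X} {A' : S.T →ₗ[S.K] S.K} {H : X → S.T} (hL : Lr S W w V' A' H) :
    FamH S W H where
  JT := fun u => by
    by_cases hu : u ≠ w ∧ u ∉ V' ∧ S.car u ⊆ W
    · exact (hL.hon u hu.1 hu.2.1 hu.2.2).JT
    · rw [hL.zero u hu]
      exact Submodule.zero_mem _
  H2 := fun u => by
    by_cases hu : u ≠ w ∧ u ∉ V' ∧ S.car u ⊆ W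
    · exact (hL.hon u hu.1 hu.2.1 hu.2.2).H
    · rw [hL.zero u hu]
      exact Submodule.zero_mem _

/-- The monomials of one term of a lift. -/
theorem FamH.mon {H : X → S.T} (hH : FamH S W H) {u : X} {M N : X →₀ ℕ}
    (hN : N ∈ (MvPolynomial.X u * H u * S.mo M).support) :
    N.degree = M.degree + 3 ∧ insert u M.support ⊆ N.support ∧
      (N.support ∈ S.fcs W → W ⊆ S.cr N.support) := by
  have e1 : MvPolynomial.X u * H u * S.mo M = H u * S.mo (Finsupp.single u 1 + M) := by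
    rw [← X_mul_mo]
    ring
  rw [e1] at hN
  have h1 := Ok.of_JT' (hH.JT u) (hH.H2 u) (M := Finsupp.single u 1 + M) (by
    rw [Finset.singleton_subset_iff, supp_single_add]
    exact Finset.mem_insert_self _ _) N hN
  obtain ⟨n, -, rfl⟩ := mem_mul_mo hN
  refine ⟨?_, ?_, h1.2.2⟩
  · rw [h1.1, deg_single_add]
    omega
  · rw [supp_add_sup, supp_single_add]
    exact Finset.subset_union_right

theorem Lf_add (ν μ : X → S.K) (H : X → S.T) : Lf S (ν + μ) H = Lf S ν H + Lf S μ H := by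
  unfold Lf
  rw [← Finset.sum_add_distrib]
  exact Finset.sum_congr rfl fun u _ => add_smul _ _ _

theorem Lf_single (u : X) (H : X → S.T) : Lf S (Pi.single u 1) H = MvPolynomial.X u * H u := by
  unfold Lf
  rw [Finset.sum_eq_single u]
  · rw [Pi.single_eq_same, one_smul]
  · intro v _ hv
    rw [Pi.single_eq_of_ne hv, zero_smul]
  · exact fun h => absurd (Finset.mem_univ u) h

/-- Two forms agree at a lift if they agree at the monomials of its terms. -/
theorem Lf_congr {F G : S.T →ₗ[S.K] S.K} {ν : X → S.K} {H : X → S.T} {M : X →₀ ℕ}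
    (h : ∀ u, ν u ≠ 0 → ∀ N ∈ (MvPolynomial.X u * H u * S.mo M).support,
      F (S.mo N) = G (S.mo N)) : F (Lf S ν H * S.mo M) = G (Lf S ν H * S.mo M) := by
  have h1 := form_Lf F ν H 1 (S.mo M)
  have h2 := form_Lf G ν H 1 (S.mo M)
  simp only [one_mul] at h1 h2
  rw [h1, h2]
  refine Finset.sum_congr rfl fun u _ => ?_
  by_cases hu : ν u = 0
  · rw [hu, zero_mul, zero_mul]
  · rw [form_eq (h u hu)]

/-- The part of `s'` with the private colours `Z'` does not see the lifts along `Z'`. -/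
theorem tz_Lf {H : X → S.T} (hH : FamH S W H) {ν : X → S.K} {Z' : Finset Ω} (h0 : ν w = 0)
    (hν : ∀ u, ν u ≠ 0 → ∃ b ∈ Z', b ∈ S.car u) (M : X →₀ ℕ) :
    tz S W w g I A h Z' (Lf S ν H * S.mo M) = 0 := by
  have h1 : tz S W w g I A h Z' (Lf S ν H * S.mo M) =
      (0 : S.T →ₗ[S.K] S.K) (Lf S ν H * S.mo M) := by
    refine Lf_congr fun u hu N hN => ?_
    rw [tz_mo, LinearMap.zero_apply, if_neg]
    rintro ⟨-, h2⟩
    obtain ⟨b, hb, hbu⟩ := hν u hu
    have h3 := (hH.mon hN).2.1 (Finset.mem_insert_self _ _)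
    have h4 : u ≠ w := fun h5 => hu (by rw [h5, h0])
    rw [← h2] at hb
    exact (Finset.mem_sdiff.1 hb).2
      (Finset.mem_biUnion.2 ⟨u, Finset.mem_erase.2 ⟨h4, h3⟩, hbu⟩)
  rw [h1, LinearMap.zero_apply]

/-- The form `s'` is the sum of its parts at the lifts along a set of colours outside `M`. -/
theorem sum_tz (P : Pce S W w al s g) (hz : Zd S W w al I Z V A h) (hw : S.car w ⊆ W)
    {H : X → S.T} (hH : FamH S W H) {ν : X → S.K} {M : X →₀ ℕ} (hd : M.degree + 6 = W.card)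
    (hwM : w ∉ M.support) (h4 : (W \ S.cr M.support).card = 4) (h0 : ν w = 0)
    (hν : ∀ u, ν u ≠ 0 → ∃ b ∈ W \ S.cr M.support, b ∈ S.car u) :
    ∑ Z' ∈ (S.car w \ S.cr M.support).powersetCard 3,
      tz S W w g I A h Z' (Lf S ν H * S.mo M) = sz S W g I A h (Lf S ν H * S.mo M) := by
  have e1 : ∑ Z' ∈ (S.car w \ S.cr M.support).powersetCard 3,
      tz S W w g I A h Z' (Lf S ν H * S.mo M) =
      (∑ Z' ∈ (S.car w \ S.cr M.support).powersetCard 3, tz S W w g I A h Z')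
        (Lf S ν H * S.mo M) := by
    rw [LinearMap.sum_apply]
  rw [e1]
  refine Lf_congr fun u hu N hN => ?_
  rw [LinearMap.sum_apply]
  obtain ⟨h1, h2, h3⟩ := hH.mon hN
  by_cases hs : sz S W g I A h (S.mo N) = 0
  · rw [hs]
    refine Finset.sum_eq_zero fun Z' _ => ?_
    rw [tz_mo, hs, ite_self]
  have ht : Ty S w ∅ N := by
    by_contra ht
    exact hs (sz_zero P hz hw (by omega) h3 ht)
  have h5 := ht.one_z
  have h6 := (ty_pz h5).1 ht
  rw [Finset.sdiff_empty] at h6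
  obtain ⟨b, hb, hbu⟩ := hν u hu
  have h7 : u ≠ w := fun h8 => hu (by rw [h8, h0])
  have h8 : pz S w N ⊆ S.car w \ S.cr M.support := by
    intro c hc
    obtain ⟨hc1, hc2⟩ := Finset.mem_sdiff.1 hc
    refine Finset.mem_sdiff.2 ⟨hc1, fun h9 => hc2 (cr_mono ?_ h9)⟩
    intro v hv
    exact Finset.mem_erase.2 ⟨fun h9 => hwM (h9 ▸ hv), h2 (Finset.mem_insert_of_mem hv)⟩
  have h9 : (pz S w N).card ≤ 3 := by
    have h10 : pz S w N ⊆ (W \ S.cr M.support).erase b := by
      intro c hc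
      refine Finset.mem_erase.2 ⟨?_, Finset.sdiff_subset_sdiff hw (Finset.Subset.refl _) (h8 hc)⟩
      rintro rfl
      exact (Finset.mem_sdiff.1 hc).2 (Finset.mem_biUnion.2
        ⟨u, Finset.mem_erase.2 ⟨h7, h2 (Finset.mem_insert_self _ _)⟩, hbu⟩)
    have h11 := Finset.card_le_card h10
    rw [Finset.card_erase_of_mem hb, h4] at h11
    exact h11
  rw [Finset.sum_eq_single (pz S w N)]
  · rw [tz_mo, if_pos ⟨h5, rfl⟩]
  · intro Z' _ hZ'
    rw [tz_mo, if_neg fun h => hZ' h.2.symm]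
  · intro h10
    exact absurd (Finset.mem_powersetCard.2 ⟨h8, le_antisymm h9 h6⟩) h10

/-- The bracket of one class of the other vertex. -/
theorem bracket [DecidableEq ι] (P : Pce S W w al s g) (hz : Zd S W w al I Z V A h)
    (hw : S.car w ⊆ W)
    {H : X → S.T} (hH : FamH S W H) {ν : X → S.K} {n : Finset Ω → X → S.K} {M : X →₀ ℕ}
    (hd : M.degree + 6 = W.card)
    (hwM : w ∉ M.support) (h4 : (W \ S.cr M.support).card = 4) (h0 : ν w = 0)
    (hν : ∀ u, ν u ≠ 0 → ∃ b ∈ W \ S.cr M.support, b ∈ S.car u)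
    (hn0 : ∀ Z' ∈ (S.car w \ S.cr M.support).powersetCard 3, n Z' w = 0)
    (hn : ∀ Z' ∈ (S.car w \ S.cr M.support).powersetCard 3, ∀ u, n Z' u ≠ 0 →
      ∃ b ∈ Z', b ∈ S.car u)
    (hk : ∀ Z' ∈ (S.car w \ S.cr M.support).powersetCard 3,
      gz S W w g I Z A h Z' (Lf S (ν + n Z') H * S.mo M) = 0) :
    sz S W g I A h (Lf S ν H * S.mo M) +
      ∑ i ∈ I.filter (fun i => Disjoint (Z i) (S.cr M.support)),
        A i (S.lam W * (Lf S (ν + n (Z i)) H * S.mo M)) = 0 := by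
  set T := (S.car w \ S.cr M.support).powersetCard 3 with hT
  have h1 : ∑ Z' ∈ T, gz S W w g I Z A h Z' (Lf S (ν + n Z') H * S.mo M) = 0 :=
    Finset.sum_eq_zero hk
  have h2 : ∀ Z' ∈ T, gz S W w g I Z A h Z' (Lf S (ν + n Z') H * S.mo M) =
      tz S W w g I A h Z' (Lf S ν H * S.mo M) +
      ∑ i ∈ (I.filter fun i => Disjoint (Z i) (S.cr M.support)).filter (fun i => Z i = Z'),
        A i (S.lam W * (Lf S (ν + n (Z i)) H * S.mo M)) := by
    intro Z' hZ'
    have h3 : tz S W w g I A h Z' (Lf S (ν + n Z') H * S.mo M) =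
        tz S W w g I A h Z' (Lf S ν H * S.mo M) := by
      rw [Lf_add, add_mul, map_add, tz_Lf hH (hn0 Z' hZ') (hn Z' hZ'), add_zero]
    rw [gz_apply, h3]
    congr 1
    have h5 : I.filter (fun i => Z i = Z') =
        (I.filter fun i => Disjoint (Z i) (S.cr M.support)).filter (fun i => Z i = Z') := by
      ext i
      rw [Finset.mem_filter, Finset.mem_filter, Finset.mem_filter]
      refine ⟨fun h => ⟨⟨h.1, ?_⟩, h.2⟩, fun h => ⟨h.1.1, h.2⟩⟩
      rw [h.2]
      exact Finset.disjoint_left.2 fun c hc =>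
        (Finset.mem_sdiff.1 ((Finset.mem_powersetCard.1 hZ').1 hc)).2
    rw [h5]
    refine Finset.sum_congr rfl fun i hi => ?_
    rw [(Finset.mem_filter.1 hi).2]
  rw [Finset.sum_congr rfl h2, Finset.sum_add_distrib,
    sum_tz P hz hw hH hd hwM h4 h0 hν] at h1
  rw [← h1]
  congr 1
  symm
  refine Finset.sum_fiberwise_of_maps_to (g := Z) (fun i hi => ?_) _
  obtain ⟨hi1, hi2⟩ := Finset.mem_filter.1 hi
  refine Finset.mem_powersetCard.2 ⟨fun c hc => ?_, (hz.cs i hi1).Zc⟩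
  exact Finset.mem_sdiff.2 ⟨(hz.cs i hi1).Zs hc, Finset.disjoint_left.1 hi2 hc⟩

end Pool.Agent.LH4
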