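import Pool.Agent.LH4.Rep

/-!
# Injectivity of the multiplication by `λ` in degrees at most three; forms which kill `λ ^ 2 J`
-/

set_option autoImplicit false

open Finset

namespace Pool.Agent.LH4

open Pool.Agent.LocH

variable {X Ω : Type} [Fintype X] [DecidableEq X] [Fintype Ω] [DecidableEq Ω] {S : Sub X Ω}

theorem lam_H (A : Finset Ω) : S.lam A ∈ S.H 1 := by
  unfold Sub.lam
  exact Submodule.sum_mem _ fun v _ => (MvPolynomial.mem_homogeneousSubmodule _ _).2
    (MvPolynomial.isHomogeneous_X _ _)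

theorem th_H (c : Ω) : S.th c ∈ S.H 1 := by
  unfold Sub.th
  exact Submodule.sum_mem _ fun v _ => (MvPolynomial.mem_homogeneousSubmodule _ _).2
    (MvPolynomial.isHomogeneous_C_mul_X _ _)

theorem J_H_zero {A : Finset Ω} (hA : 1 ≤ A.card) {g : S.T} (hg : g ∈ S.J A A)
    (hg' : g ∈ S.H 0) : g = 0 := by
  refine MvPolynomial.support_eq_empty.1 (Finset.eq_empty_of_forall_notMem fun m hm => ?_)
  have h1 : m.degree = 0 := by
    rw [Finsupp.degree_eq_weight_one]
    exact (MvPolynomial.mem_homogeneousSubmodule _ _).1 hg' (MvPolynomial.mem_support_iff.1 hm)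
  have h2 : m = 0 := (Finsupp.degree_eq_zero_iff _).1 h1
  have h3 := (MvPolynomial.mem_restrictSupport_iff _).1 hg hm
  rw [h2] at h3
  have h4 : A ⊆ S.cr (0 : X →₀ ℕ).support := h3 (by
    rw [Finsupp.support_zero]
    exact Finset.mem_filter.2 ⟨S.empty_mem, Finset.empty_subset _⟩)
  rw [Finsupp.support_zero] at h4
  have h5 : A = ∅ := Finset.subset_empty.1 h4
  rw [h5, Finset.card_empty] at hA
  omega

/-- The multiplication by `lam` is injective in the degrees at most three. -/
theorem TJ_le (hT : S.Top S.K) {A : Finset Ω} {i : ℕ} (hi : i ≤ 3) (h : 2 * i < A.card) :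
    TJ S A i := by
  have hP := S.trP hT
  have hQ := S.qp
  intro g hg hg' hl
  interval_cases i
  · rw [J_H_zero (by omega) hg hg']
    exact zero_mem _
  · exact S.orth hP (by omega) ((S.span_one (by omega)).trans le_sup_left) hg hg' hl
  · refine S.orth hP (by omega)
      (((S.span_two hT (by omega)).trans (sup_le_sup_right (sup_le_sup_right ?_ _) _)).trans
        le_sup_left) hg hg' hl
    rw [Submodule.span_le]
    rintro _ ⟨n, hn, rfl⟩
    have h1 := S.GG_Gd (by omega) hn
    exact Submodule.subset_span ⟨n, h1.1, h1.2, rfl⟩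
  · refine S.orth hP (by omega) ?_ hg hg' hl
    have hY : S.GM A (A.card - 3) ⊔ S.I A ⊔ S.thm A ⊤ ⊔
        (S.J A A ⊓ S.H (A.card - 3 - 1)).map (LinearMap.mulLeft S.K (S.lam A)) = S.Y3 A := by
      rw [Nat.sub_sub]
      rfl
    rw [hY]
    have hI : S.I A ≤ S.Y3 A := by
      unfold Sub.Y3
      exact le_sup_of_le_left (le_sup_of_le_left le_sup_right)
    have hθ : S.thm A ⊤ ≤ S.Y3 A := by
      unfold Sub.Y3
      exact le_sup_of_le_left le_sup_right
    exact S.sq (Nat.sub_le _ _) hI hθ fun F hF => S.face_Ex1 hT (by omega) hI hθ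
      (fun n hn => S.mem_Y3 hT hQ hP (by omega) hn) hF

/-- A linear form which kills `I`, all `θ_c J_(A - c)` and `λ ^ 2 J` in degree `n + 2` is zero. -/
theorem rep_sq (hT : S.Top S.K) {A : Finset Ω} {j n : ℕ} (hj : n + 2 + j = A.card)
    (h1 : TJ S A j) (h2 : TJ S A (j + 1)) {F : S.T →ₗ[S.K] S.K} (hF : Kil S A (n + 2) F)
    (hl : ∀ y ∈ S.J A A, y ∈ S.H n → F (S.lam A ^ 2 * y) = 0) {y : S.T} (hy : y ∈ S.J A A)
    (hn : y ∈ S.H (n + 2)) : F y = 0 := by
  obtain ⟨g, hg1, hg2, hg⟩ := rep hT hj hF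
  have e1 : S.lam A * g ∈ S.J A A := S.mul_J hg1 _
  have e2 : S.lam A * g ∈ S.H (j + 1) := by
    rw [add_comm]
    exact S.mul_H (lam_H A) hg2
  have h3 : S.lam A * (S.lam A * g) ∈ S.N A (j + 1 + 1) := by
    refine ⟨S.mul_J e1 _, ?_, fun y hy hy' => ?_⟩
    · rw [add_comm]
      exact S.mul_H (lam_H A) e2
    · have h4 : A.card - (j + 1 + 1) = n := by omega
      rw [h4] at hy'
      have e3 : S.lam A ^ 2 * y ∈ S.H (n + 2) := by
        have e4 := S.mul_H (lam_H A) (S.mul_H (lam_H A) hy')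
        rw [← mul_assoc, ← pow_two] at e4
        have e5 : 1 + (1 + n) = n + 2 := by omega
        rwa [e5] at e4
      have h5 := hg _ (S.mul_J hy (S.lam A ^ 2)) e3
      rw [hl y hy hy'] at h5
      have e6 : S.lam A * (S.lam A * g) * y = g * (S.lam A ^ 2 * y) := by ring
      rw [e6]
      exact h5.symm
  have h4 := h1 g hg1 hg2 (h2 _ e1 e2 h3)
  rw [hg y hy hn]
  refine h4.2.2 y hy ?_
  have h5 : A.card - j = n + 2 := by omega
  rw [h5]
  exact hn

end Pool.Agent.LH4
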