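import Pool.Agent.LH4.As3
import Pool.Agent.LH4.Ov4

/-!
# Linear forms with a given coboundary

`coc_form`: a cocycle of level `k + 2` is the family of the values at the relations `θ_c M` of a
linear form.  `rep_rem`: a linear form whose values at the relations are a sum of such values and of
a coboundary.
-/

set_option autoImplicit false

open Finset

namespace Pool.Agent.LH4

open Pool.Agent.LocH

variable {X Ω : Type} [Fintype X] [DecidableEq X] [Fintype Ω] [DecidableEq Ω] {S : Sub X Ω}
  {W : Finset Ω}

/-- A cocycle is the coboundary of a linear form. -/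
theorem coc_form (hT : S.Top S.K) {k : ℕ} {r : Finset Ω → (X →₀ ℕ) → S.K}
    (h1 : ∀ C M, r C M ≠ 0 → VP S W (k + 2) C M)
    (h2 : ∀ C M, VP S W (k + 2) C M → dl S r C M = 0) :
    ∃ A : S.T →ₗ[S.K] S.K, Nf S W (k + 2) A ∧ ∀ c ∈ W, ∀ M : X →₀ ℕ, M.degree = k + 1 →
      W.erase c ⊆ S.cr M.support → A (S.th c * S.mo M) = r {c} M := by
  have h4 : ∀ c M, lfm S (fun N => r {c} N) (S.mo M) = r {c} M := fun c M => lfm_mo _ M
  have h5 : ∀ c ∈ W, ∀ c' ∈ W, c ≠ c' → ∀ z ∈ S.J W ((W.erase c).erase c'), z ∈ S.H k →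
      lfm S (fun N => r {c} N) (S.th c' * z) = lfm S (fun N => r {c'} N) (S.th c * z) := by
    intro c hc c' hc' hcc z hz hzk
    refine form_eq (F := ml (lfm S (fun N => r {c} N)) (S.th c'))
      (G := ml (lfm S (fun N => r {c'} N)) (S.th c)) fun M hM => ?_
    rw [ml_apply, ml_apply, th_apply, th_apply]
    simp only [h4]
    by_cases hf : M.support ∈ S.fcs W
    · have hV : VP S W (k + 2) {c, c'} M := by
        refine ⟨Finset.insert_subset hc (Finset.singleton_subset_iff.2 hc'), hf, ?_, ?_⟩
        · intro e he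
          rw [Finset.mem_sdiff, Finset.mem_insert, Finset.mem_singleton] at he
          push Not at he
          exact S.mem_J.1 hz M hM hf (Finset.mem_erase.2 ⟨he.2.2, Finset.mem_erase.2
            ⟨he.2.1, he.1⟩⟩)
        · rw [Finset.card_pair hcc, deg_of_H hzk hM]
      have h6 := h2 {c, c'} M hV
      unfold dl at h6
      rw [Finset.sum_pair hcc, Finset.erase_insert (by rwa [Finset.mem_singleton]),
        Finset.pair_comm, Finset.erase_insert (by rwa [Finset.mem_singleton, eq_comm])] at h6
      exact (eq_of_add_zero h6).symm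
    · have h6 : ∀ (e : Ω) (v : X), r {e} (Finsupp.single v 1 + M) = 0 := by
        intro e v
        by_contra hcon
        exact nface_add hf v (h1 _ _ hcon).fcs
      simp only [h6, mul_zero]
  obtain ⟨A, hA1, hA2⟩ := kos hT (subset_refl W) (n := k + 1)
    (fun c => lfm S (fun N => r {c} N)) (fun c _ y hy _ => form_zero fun M hM => by
      rw [h4]
      by_contra hcon
      exact S.mem_I.1 hy M hM (h1 _ _ hcon).fcs)
    (fun c hc c' hc' hcc k' hk' z hz hzk => by
      have hkk : k' = k := by omega
      subst hkk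
      exact h5 c hc c' hc' hcc z hz hzk)
  refine ⟨A, fun M hM h => hA1 _ (mo_I h) (by rw [← hM]; exact mo_H M), fun c hc M hM h => ?_⟩
  rw [hA2 c hc (S.mo M) (mo_J fun _ => h) (by rw [← hM]; exact mo_H M), h4]

/-- A linear form whose values at the relations are a coboundary is represented at the monomials
where this cochain is zero. -/
theorem rep_rem (hT : S.Top S.K) {k : ℕ} (hk : W.card = k + 4) {A : S.T →ₗ[S.K] S.K}
    (hA : Nf S W (k + 2) A) {e : Finset Ω → (X →₀ ℕ) → S.K}
    (he : ∀ C M, e C M ≠ 0 → VP S W (k + 2) C M)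
    (h : ∀ c ∈ W, ∀ M : X →₀ ℕ, VP S W (k + 2) {c} M →
      A (S.th c * S.mo M) = dl S e {c} M) :
    ∃ g ∈ S.J W W, g ∈ S.H 2 ∧ ∀ M : X →₀ ℕ, M.degree = k + 2 → W ⊆ S.cr M.support →
      e ∅ M = 0 → A (S.mo M) = S.Tr W (g * S.mo M) := by
  have h0 : ∀ M, lfm S (fun N => e ∅ N) (S.mo M) = e ∅ M := fun M => lfm_mo _ M
  have h8 : Kil S W (k + 2) (A + lfm S (fun N => e ∅ N)) := by
    refine ⟨fun y hy hyn => ?_, fun c hc j hj y hy hyn => ?_⟩
    · rw [LinearMap.add_apply, hA.I hy hyn, zero_add]
      refine form_zero fun M hM => ?_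
      rw [h0]
      by_contra hcon
      exact S.mem_I.1 hy M hM (he _ _ hcon).fcs
    · have hjk : j = k + 1 := by omega
      subst hjk
      rw [LinearMap.add_apply]
      have h9 : A (S.th c * y) = lfm S (fun N => e ∅ N) (S.th c * y) := by
        refine form_eq (F := ml A (S.th c)) (G := ml (lfm S (fun N => e ∅ N)) (S.th c))
          fun M hM => ?_
        by_cases hf : M.support ∈ S.fcs W
        · have hV : VP S W (k + 2) {c} M := by
            refine ⟨Finset.singleton_subset_iff.2 hc, hf, ?_, ?_⟩
            · rw [← Finset.erase_eq]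
              exact S.mem_J.1 hy M hM hf
            · rw [Finset.card_singleton, deg_of_H hyn hM]
          rw [ml_apply, ml_apply, h c hc M hV, th_apply]
          unfold dl
          rw [Finset.sum_singleton, Finset.erase_singleton]
          exact Finset.sum_congr rfl fun v _ => by rw [h0]
        · rw [ml_apply, ml_apply, hA.th_mo c (deg_of_H hyn hM) hf, th_apply]
          refine (Finset.sum_eq_zero fun v _ => ?_).symm
          have h9 : lfm S (fun N => e ∅ N) (S.mo (Finsupp.single v 1 + M)) = 0 := by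
            rw [h0]
            by_contra hcon
            exact nface_add hf v (he _ _ hcon).fcs
          rw [h9, mul_zero]
      rw [h9, two_zero]
  obtain ⟨g, hg1, hg2, hg3⟩ := rep hT (show k + 2 + 2 = W.card by omega) h8
  refine ⟨g, hg1, hg2, fun M hM hc h1 => ?_⟩
  have h2 := hg3 (S.mo M) (mo_J fun _ => hc) (by rw [← hM]; exact mo_H M)
  rw [LinearMap.add_apply, h0, h1, add_zero] at h2
  exact h2

end Pool.Agent.LH4
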