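import Pool.Agent.LH4.Oz2
import Pool.Agent.LH4.Zk1
import Pool.Agent.LH4.Rep2

/-!
# The lift of a class is invisible for the forms with four private colours

`kap`: if `G` is a linear form of degree `|W| - 3` whose coboundary lives at the pairs in which `w'` has
at least four private colours, then `G (M · Σ δ(u) u h_u) = 0` for the local representatives `h_u` of
a class `Z`, if `δ` is in the span of the `θ_b`, `b ∈ Z`, and zero at `w`, `w'`.
-/

set_option autoImplicit false

open Finset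

namespace Pool.Agent.LH4

open Pool.Agent.LocH

variable {X Ω : Type} [Fintype X] [DecidableEq X] [Fintype Ω] [DecidableEq Ω] {S : Sub X Ω}
  {W : Finset Ω}

/-! ### Multiples -/

theorem Ok.mul_H {τ : Finset X} {k j : ℕ} {y p : S.T} (h : Ok S W τ k y) (hp : p ∈ S.H j) :
    Ok S W τ (j + k) (p * y) := by
  intro N hN
  obtain ⟨a, ha, n, hn, rfl⟩ := Finset.mem_add.1 (MvPolynomial.support_mul _ _ hN)
  obtain ⟨h1, h2, h3⟩ := h n hn
  have h4 : n.support ⊆ (a + n).support := by
    rw [supp_add_sup]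
    exact Finset.subset_union_right
  refine ⟨by rw [map_add, h1, deg_of_H hp ha], h2.trans h4, fun h5 => ?_⟩
  exact (h3 (face_mono h4 h5)).trans (cr_mono h4)

/-- A multiple of `X_u` by an element of the interior ideal. -/
theorem Ok.X_J {k : ℕ} {g : S.T} (hg : g ∈ S.J W W) (hk : g ∈ S.H k) (u : X) :
    Ok S W {u} (k + 1) (MvPolynomial.X u * g) := by
  intro N hN
  obtain ⟨n, hn, rfl⟩ := mem_mul_X hN
  have h4 : n.support ⊆ (Finsupp.single u 1 + n).support := by
    rw [supp_single_add]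
    exact Finset.subset_insert _ _
  refine ⟨by rw [deg_single_add, deg_of_H hk hn], ?_, fun h5 => ?_⟩
  · rw [supp_single_add, Finset.singleton_subset_iff]
    exact Finset.mem_insert_self _ _
  · exact (S.mem_J.1 hg n hn (face_mono h4 h5)).trans (cr_mono h4)

/-- A multiple of `X_u` by an element of the interior ideal of the star of `u`. -/
theorem Ok.X_JT {k : ℕ} {u : X} {h : S.T} (hh : h ∈ S.JT {u} W W) (hk : h ∈ S.H k) :
    Ok S W {u} (k + 1) (MvPolynomial.X u * h) := by
  intro N hN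
  obtain ⟨n, hn, rfl⟩ := mem_mul_X hN
  have h4 : (Finsupp.single u 1 + n).support = n.support ∪ {u} := by
    rw [supp_single_add, Finset.union_comm, Finset.insert_eq]
  refine ⟨by rw [deg_single_add, deg_of_H hk hn], ?_, fun h5 => ?_⟩
  · rw [h4]
    exact Finset.subset_union_right
  · rw [h4] at h5 ⊢
    exact S.mem_JT.1 hh n hn h5

omit [Fintype X] [Fintype Ω] in
theorem X_H (u : X) : (MvPolynomial.X u : S.T) ∈ S.H 1 :=
  (MvPolynomial.mem_homogeneousSubmodule _ _).2 (MvPolynomial.isHomogeneous_X _ _)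

omit [Fintype Ω] in
/-- The value at a relation. -/
theorem F_th (F : S.T →ₗ[S.K] S.K) (c : Ω) (y : S.T) :
    F (S.th c * y) = ∑ u, S.a u c * F (MvPolynomial.X u * y) := by
  unfold Sub.th
  rw [Finset.sum_mul, map_sum]
  refine Finset.sum_congr rfl fun u _ => ?_
  rw [mul_assoc, ← MvPolynomial.smul_eq_C_mul, map_smul, smul_eq_mul]

omit [Fintype Ω] in
theorem F_NZ {Z : Finset Ω} {δ : X → S.K} {μ : Ω → S.K}
    (hμ : ∀ u, δ u = ∑ b ∈ Z, μ b * S.a u b) (F : S.T →ₗ[S.K] S.K) (y : S.T) :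
    ∑ u, δ u * F (MvPolynomial.X u * y) = ∑ b ∈ Z, μ b * F (S.th b * y) := by
  have h1 : ∀ u, δ u * F (MvPolynomial.X u * y) =
      ∑ b ∈ Z, μ b * (S.a u b * F (MvPolynomial.X u * y)) := by
    intro u
    rw [hμ u, Finset.sum_mul]
    exact Finset.sum_congr rfl fun b _ => mul_assoc _ _ _
  simp only [h1]
  rw [Finset.sum_comm]
  refine Finset.sum_congr rfl fun b _ => ?_
  rw [F_th, Finset.mul_sum]

omit [Fintype Ω] in
theorem Lf_apply (δ : X → S.K) (H : X → S.T) (F : S.T →ₗ[S.K] S.K) (y : S.T) :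
    F (Lf S δ H * y) = ∑ u, δ u * F (MvPolynomial.X u * H u * y) := by
  unfold Lf
  rw [Finset.sum_mul, map_sum]
  refine Finset.sum_congr rfl fun u _ => ?_
  rw [smul_mul_assoc, map_smul, smul_eq_mul]

/-- The form is zero at the multiples of a vertex which is not in the restriction. -/
theorem car_zero {n : ℕ} {F : S.T →ₗ[S.K] S.K} (hF : Nf S W n F) {u : X} (hu : ¬ S.car u ⊆ W)
    {τ : Finset X} (huτ : u ∈ τ) {y : S.T} (hy : Ok S W τ n y) : F y = 0 := by
  refine form_zero fun N hN => ?_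
  obtain ⟨h1, h2, -⟩ := hy N hN
  exact hF N h1 fun h => hu (car_sub_of_mem h (h2 huτ))

/-- Local duality. -/
theorem kap_ld (hT : S.Top S.K) {k : ℕ} {B : S.T →ₗ[S.K] S.K} {τ : Finset X}
    (hc : τ.card + k ≤ W.card)
    (hnf : ∀ M : X →₀ ℕ, M.degree + k = W.card → M.support ∉ S.fcs W → B (S.mo M) = 0)
    (hth : ∀ c ∈ W, ∀ M : X →₀ ℕ, M.degree + k + 1 = W.card → τ ⊆ M.support →
      M.support ∈ S.fcs W → W.erase c ⊆ S.cr M.support → B (S.th c * S.mo M) = 0) :
    ∃ h, Hon S W k B τ h := by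
  by_cases hτ : τ ∈ S.fcs W
  swap
  · refine ⟨0, Submodule.zero_mem _, Submodule.zero_mem _, fun j y hy hj => ?_⟩
    rw [zero_mul, map_zero]
    refine form_zero fun N hN => ?_
    obtain ⟨h1, h2, -⟩ := hy N hN
    exact hnf N (by omega) fun h => hτ (face_mono h2 h)
  obtain ⟨n, hn⟩ : ∃ n, n + k + τ.card = W.card := ⟨W.card - k - τ.card, by omega⟩
  have hK : S.KilT τ W n (B ∘ₗ LinearMap.mulLeft S.K (S.xT τ)) := by
    refine ⟨fun y hy hyn => ?_, fun c hc j hj y hy hyj => ?_⟩
    · refine form_mul_zero _ fun t ht => ?_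
      rw [xT_mul_mo]
      refine hnf _ ?_ ?_
      · rw [map_add, chi_degree, deg_of_H hyn ht]
        omega
      · rw [supp_add_sup, chi_supp, Finset.union_comm]
        exact S.mem_IT.1 hy t ht
    · change B (S.xT τ * (S.th c * y)) = 0
      rw [← mul_assoc]
      refine form_mul_zero _ fun t ht => ?_
      have h3 : S.xT τ * S.th c * S.mo t = S.th c * S.mo (chi τ + t) := by
        rw [← xT_mul_mo]
        ring
      rw [h3]
      have hd : (chi τ + t).degree + k + 1 = W.card := by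
        rw [map_add, chi_degree, deg_of_H hyj ht]
        omega
      have hsup : (chi τ + t).support = t.support ∪ τ := by
        rw [supp_add_sup, chi_supp, Finset.union_comm]
      by_cases h4 : t.support ∪ τ ∈ S.fcs W
      · refine hth c hc _ hd ?_ (by rw [hsup]; exact h4) ?_
        · rw [hsup]
          exact Finset.subset_union_right
        · rw [hsup]
          exact S.mem_JT.1 hy t ht h4
      · rw [th_apply]
        refine Finset.sum_eq_zero fun v _ => ?_
        rw [hnf _ (by rw [deg_single_add]; omega) (nface_add (by rw [hsup]; exact h4) v), mul_zero]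
  obtain ⟨h, hh1, hh2, hh3⟩ := repT hT (mem_fcs'.1 hτ).1 (k := k) (n := n) (by omega) hK
  refine ⟨h, hh1, hh2, fun j y hy hj => ?_⟩
  have key : (B - S.Tr W ∘ₗ LinearMap.mulLeft S.K h) y = 0 := by
    refine form_zero fun N hN => ?_
    obtain ⟨h5, h6, h7⟩ := hy N hN
    obtain ⟨t, rfl⟩ : ∃ t : X →₀ ℕ, N = chi τ + t := by
      refine ⟨N - chi τ, ?_⟩
      rw [add_tsub_cancel_of_le]
      intro v
      rw [chi_apply]
      split_ifs with hv
      · have := Finsupp.mem_support_iff.1 (h6 hv)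
        omega
      · exact Nat.zero_le _
    have hsup : (chi τ + t).support = t.support ∪ τ := by
      rw [supp_add_sup, chi_supp, Finset.union_comm]
    rw [map_add, chi_degree] at h5
    have h8 := hh3 (S.mo t) ?_ ?_
    · rw [LinearMap.sub_apply, ← xT_mul_mo]
      change B (S.xT τ * S.mo t) - S.Tr W (h * (S.xT τ * S.mo t)) = 0
      have h9 : h * (S.xT τ * S.mo t) = S.xT τ * (h * S.mo t) := by ring
      rw [h9, ← h8]
      exact sub_self _
    · rw [S.mem_JT]
      intro m hm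
      rw [supp_mo, Finset.mem_singleton] at hm
      subst hm
      rw [← hsup]
      exact h7
    · have h9 : t.degree = n := by omega
      rw [← h9]
      exact mo_H t
  rw [LinearMap.sub_apply] at key
  exact sub_eq_zero.1 key

/-! ### The class -/

section Cls

variable {w : X} {Z : Finset Ω} {V : Finset X} {A : S.T →ₗ[S.K] S.K} {H : X → S.T}

omit [Fintype Ω] in
theorem Cs.nf' (hC : Cs S W w Z V A) {n : ℕ} (hn : n + 2 = W.card) : Nf S W n A :=
  fun M hM h => hC.nf M (by omega) h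

/-- The class kills the relations of its colours. -/
theorem Cs.thZ (hC : Cs S W w Z V A) {b : Ω} (hb : b ∈ Z) {n : ℕ} (hn : n + 3 = W.card) {y : S.T}
    (hy : y ∈ S.J W W) (hyn : y ∈ S.H n) : A (S.th b * y) = 0 := by
  refine form_mul_zero _ fun M hM => ?_
  have hd : M.degree = n := deg_of_H hyn hM
  by_cases hf : M.support ∈ S.fcs W
  · by_cases hbW : b ∈ W
    · by_contra hcon
      exact (hC.th b hbW M (by omega)
        ((Finset.erase_subset _ _).trans (S.mem_J.1 hy M hM hf)) hcon).2.1 hb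
    · rw [th_apply]
      refine Finset.sum_eq_zero fun v _ => ?_
      by_cases hv : b ∈ S.car v
      · rw [hC.nf _ (by rw [deg_single_add]; omega), mul_zero]
        intro h1
        refine hbW (car_sub_of_mem h1 (v := v) ?_ hv)
        rw [supp_single_add]
        exact Finset.mem_insert_self _ _
      · rw [S.a_zero hv, zero_mul]
  · exact (hC.nf' (n := n + 1) (by omega)).th_mo b hd hf

theorem NZ.zero {δ : X → S.K} (hd : NZ S Z δ) {u : X} (hu : Disjoint (S.car u) Z) : δ u = 0 := by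
  obtain ⟨μ, hμ⟩ := hd
  rw [hμ u]
  refine Finset.sum_eq_zero fun b hb => ?_
  rw [S.a_zero (Finset.disjoint_right.1 hu hb), mul_zero]

/-- The lift of a class is invisible for the forms which are a trace on the interior ideal. -/
theorem kil_lift (hT : S.Top S.K) (hC : Cs S W w Z V A) (hL : Lr S W w V A H) {δ : X → S.K}
    (hd : NZ S Z δ) (hw : δ w = 0) {n : ℕ} (hn : n + 3 = W.card) {F : S.T →ₗ[S.K] S.K}
    (hF : Kil S W 3 F) : F (Lf S δ H) = 0 := by
  obtain ⟨b, hb1, hb2, hb3⟩ := rep hT (j := n) (n := 3) (by omega) hF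
  have h0 := Lf_apply δ H F 1
  rw [mul_one] at h0
  have h1 : ∀ u, δ u * F (MvPolynomial.X u * H u * 1) = δ u * A (MvPolynomial.X u * b) := by
    intro u
    rw [mul_one]
    by_cases hu : δ u = 0
    · rw [hu, zero_mul, zero_mul]
    have huw : u ≠ w := fun h => hu (by rw [h]; exact hw)
    have huV : u ∉ V := fun h => hu (hd.zero (hC.VZ u h))
    have hok : Ok S W {u} (n + 1) (MvPolynomial.X u * b) := Ok.X_J hb1 hb2 u
    by_cases hcu : S.car u ⊆ W
    · have hH := hL.hon u huw huV hcu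
      have hok2 : Ok S W {u} 3 (MvPolynomial.X u * H u) := Ok.X_JT hH.JT hH.H
      rw [hb3 _ hok2.mem_J hok2.mem_H, hH.eq _ _ hok (by omega)]
      congr 2
      ring
    · rw [hL.zero u fun h => hcu h.2.2, mul_zero, map_zero,
        car_zero (hC.nf' (n := n + 1) (by omega)) hcu (Finset.mem_singleton_self u) hok]
  rw [h0, Finset.sum_congr rfl fun u _ => h1 u]
  obtain ⟨μ, hμ⟩ := hd
  rw [F_NZ hμ]
  exact Finset.sum_eq_zero fun c hc => by rw [hC.thZ hc hn hb1 hb2, mul_zero]

end Cls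

/-! ### A form whose coboundary lives at the pairs in which the colours of `Q` are private -/

/-- The coboundary lives at the pairs in which `w'` has multiplicity one and the colours of `Q` are
private. -/
structure Gq (S : Sub X Ω) (W : Finset Ω) (w' : X) (Q : Finset Ω) (η : S.T →ₗ[S.K] S.K) :
    Prop where
  nf : ∀ M : X →₀ ℕ, M.degree + 3 = W.card → M.support ∉ S.fcs W → η (S.mo M) = 0
  th : ∀ c ∈ W, ∀ M : X →₀ ℕ, M.degree + 4 = W.card → W.erase c ⊆ S.cr M.support →
    η (S.th c * S.mo M) ≠ 0 → M w' = 1 ∧ c ∉ Q ∧ Disjoint Q (S.cr (M.support.erase w'))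

section Gqs

variable {w' : X} {Q : Finset Ω} {η : S.T →ₗ[S.K] S.K}

omit [Fintype Ω] in
theorem Gq.nf' (hG : Gq S W w' Q η) {n : ℕ} (hn : n + 3 = W.card) : Nf S W n η :=
  fun M hM h => hG.nf M (by omega) h

/-- The form kills the relations of the colours of `Q`. -/
theorem Gq.thQ (hG : Gq S W w' Q η) (hQW : Q ⊆ W) {b : Ω} (hb : b ∈ Q) {n : ℕ}
    (hn : n + 4 = W.card) {y : S.T} (hy : y ∈ S.J W W) (hyn : y ∈ S.H n) :
    η (S.th b * y) = 0 := by
  refine form_mul_zero _ fun M hM => ?_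
  have hd : M.degree = n := deg_of_H hyn hM
  by_cases hf : M.support ∈ S.fcs W
  · by_contra hcon
    exact (hG.th b (hQW hb) M (by omega)
      ((Finset.erase_subset _ _).trans (S.mem_J.1 hy M hM hf)) hcon).2.1 hb
  · exact (hG.nf' (n := n + 1) (by omega)).th_mo b hd hf

/-- The multiples of a monomial which covers a colour of `Q`. -/
theorem Gq.kil (hG : Gq S W w' Q η) (hQW : Q ⊆ W) {M : X →₀ ℕ} (hM : M.degree + 6 = W.card)
    {q : Ω} (hq : q ∈ Q) (hqM : q ∈ S.cr M.support) : Kil S W 3 (ml η (S.mo M)) := by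
  refine ⟨fun y hy hyn => ?_, fun c hc k hk y hy hyk => ?_⟩
  · rw [ml_apply]
    refine form_mul_zero _ fun N hN => ?_
    rw [Sub.mo, Sub.mo, MvPolynomial.monomial_mul, mul_one]
    refine hG.nf _ ?_ fun h => S.mem_I.1 hy N hN (face_mono ?_ h)
    · rw [map_add, deg_of_H hyn hN]
      omega
    · rw [supp_add_sup]
      exact Finset.subset_union_right
  · rw [ml_apply, ← mul_assoc]
    refine form_mul_zero _ fun N hN => ?_
    have h1 : S.mo M * S.th c * S.mo N = S.th c * S.mo (M + N) := by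
      have h2 : S.mo (M + N) = S.mo M * S.mo N := by
        rw [Sub.mo, Sub.mo, Sub.mo, MvPolynomial.monomial_mul, mul_one]
      rw [h2]
      ring
    rw [h1]
    have hd : (M + N).degree + 4 = W.card := by
      rw [map_add, deg_of_H hyk hN]
      omega
    by_cases hf : (M + N).support ∈ S.fcs W
    · have h3 : N.support ⊆ (M + N).support := by
        rw [supp_add_sup]
        exact Finset.subset_union_right
      have h4 : W.erase c ⊆ S.cr N.support := S.mem_J.1 hy N hN (face_mono h3 hf)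
      by_contra hcon
      obtain ⟨h5, h6, h7⟩ := hG.th c hc _ hd (h4.trans (cr_mono h3)) hcon
      rw [Finsupp.add_apply] at h5
      have h8 : ∀ P : X →₀ ℕ, P w' = 0 → P.support ⊆ (M + N).support →
          P.support ⊆ (M + N).support.erase w' := by
        intro P hP hPs v hv
        refine Finset.mem_erase.2 ⟨fun h => ?_, hPs hv⟩
        rw [h, Finsupp.mem_support_iff] at hv
        exact hv hP
      by_cases h9 : N w' = 0
      · have h10 := cr_mono (S := S) (h8 N h9 h3)
        have h11 : q ∈ W.erase c := Finset.mem_erase.2 ⟨fun h => h6 (by rw [← h]; exact hq), hQW hq⟩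
        exact Finset.disjoint_left.1 h7 hq (h10 (h4 h11))
      · have h10 := cr_mono (S := S) (h8 M (by omega) (by
          rw [supp_add_sup]
          exact Finset.subset_union_left))
        exact Finset.disjoint_left.1 h7 hq (h10 hqM)
    · exact (hG.nf' (n := (M + N).degree + 1) (by omega)).th_mo c rfl hf

/-- Local representatives. -/
theorem Gq.hon (hT : S.Top S.K) (hG : Gq S W w' Q η) (h4 : 4 ≤ W.card) {u : X} (hu : u ≠ w')
    {q : Ω} (hq : q ∈ Q) (hqu : q ∈ S.car u) : ∃ h, Hon S W 3 η {u} h := by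
  refine kap_ld hT (by rw [Finset.card_singleton]; omega) hG.nf fun c hc M hM huM _ hcov => ?_
  by_contra hcon
  obtain ⟨-, -, h7⟩ := hG.th c hc M (by omega) hcov hcon
  refine Finset.disjoint_left.1 h7 hq (Finset.mem_biUnion.2 ⟨u, ?_, hqu⟩)
  exact Finset.mem_erase.2 ⟨hu, huM (Finset.mem_singleton_self u)⟩

variable {w : X} {Z : Finset Ω} {V : Finset X} {A : S.T →ₗ[S.K] S.K} {H : X → S.T}
  {δ : X → S.K} {k : X → S.T}

/-- (K1) -/
theorem kap1 (hT : S.Top S.K) (hC : Cs S W w Z V A) (hL : Lr S W w V A H)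
    (hd : NZ S Z δ) (hw : δ w = 0) (hk : ∀ u, δ u ≠ 0 → Hon S W 3 η {u} (k u)) {b : Ω}
    (hb : b ∈ W) {M : X →₀ ℕ} (hM : M.degree + 7 = W.card) :
    η (Lf S δ H * (S.th b * S.mo M)) = 0 := by
  rw [Lf_apply]
  refine Finset.sum_eq_zero fun u _ => ?_
  by_cases hu : δ u = 0
  · rw [hu, zero_mul]
  have huw : u ≠ w := fun h => hu (by rw [h]; exact hw)
  have huV : u ∉ V := fun h => hu (hd.zero (hC.VZ u h))
  by_cases hcu : S.car u ⊆ W
  · have hH := hL.hon u huw huV hcu
    have hok2 : Ok S W {u} 3 (MvPolynomial.X u * H u) := Ok.X_JT hH.JT hH.H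
    have hok3 := (hok2.mul_H (mo_H M)).mul_H (th_H b)
    have e1 : MvPolynomial.X u * H u * (S.th b * S.mo M) =
        S.th b * (S.mo M * (MvPolynomial.X u * H u)) := by ring
    have e2 : k u * (S.th b * (S.mo M * (MvPolynomial.X u * H u))) =
        S.th b * (k u * (S.mo M * (MvPolynomial.X u * H u))) := by ring
    have hok4 := (hok2.mul_H (mo_H M)).mul_H (hk u hu).H
    rw [e1, (hk u hu).eq _ _ hok3 (by omega), e2, S.Tr_th hb,
      S.res hT hok4.mem_J hok4.mem_H (by omega), mul_zero, mul_zero]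
  · rw [hL.zero u fun h => hcu h.2.2, mul_zero, zero_mul, map_zero, mul_zero]

/-- (K2) -/
theorem kap2 (hG : Gq S W w' Q η) (hQW : Q ⊆ W) (hZQ : Z ⊆ Q) (hC : Cs S W w Z V A)
    (hL : Lr S W w V A H) (hd : NZ S Z δ) (hw : δ w = 0)
    (hk : ∀ u, δ u ≠ 0 → Hon S W 3 η {u} (k u)) {y : X} (hyw : y ≠ w) (hyV : y ∉ V)
    {M : X →₀ ℕ} (hM : M.degree + 7 = W.card) :
    η (Lf S δ H * S.mo (Finsupp.single y 1 + M)) = 0 := by
  have hX := X_mul_mo (S := S) y M
  by_cases hcy : S.car y ⊆ W
  swap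
  · rw [Lf_apply]
    refine Finset.sum_eq_zero fun u _ => ?_
    by_cases hcu : u ≠ w ∧ u ∉ V ∧ S.car u ⊆ W
    · have hH := hL.hon u hcu.1 hcu.2.1 hcu.2.2
      have hok2 : Ok S W {u} 3 (MvPolynomial.X u * H u) := Ok.X_JT hH.JT hH.H
      have hok3 := Ok.X_J (hok2.mul_H (mo_H M)).mem_J (hok2.mul_H (mo_H M)).mem_H y
      have e1 : MvPolynomial.X u * H u * S.mo (Finsupp.single y 1 + M) =
          MvPolynomial.X y * (S.mo M * (MvPolynomial.X u * H u)) := by
        rw [← hX]
        ring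
      rw [e1, car_zero (hG.nf' (n := M.degree + 3 + 1) (by omega)) hcy
        (Finset.mem_singleton_self y) hok3, mul_zero]
    · rw [hL.zero u hcu, mul_zero, zero_mul, map_zero, mul_zero]
  have hy := hL.hon y hyw hyV hcy
  have hoky : Ok S W {y} 3 (MvPolynomial.X y * H y) := Ok.X_JT hy.JT hy.H
  set z : S.T := S.mo M * (MvPolynomial.X y * H y) with hz
  have hokz : Ok S W {y} (M.degree + 3) z := hoky.mul_H (mo_H M)
  have h1 : ∀ u, δ u * η (MvPolynomial.X u * H u * S.mo (Finsupp.single y 1 + M)) =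
      δ u * η (MvPolynomial.X u * z) := by
    intro u
    by_cases hu : δ u = 0
    · rw [hu, zero_mul, zero_mul]
    have huw : u ≠ w := fun h => hu (by rw [h]; exact hw)
    have huV : u ∉ V := fun h => hu (hd.zero (hC.VZ u h))
    have hokx : Ok S W {u} (M.degree + 3 + 1) (MvPolynomial.X u * z) :=
      Ok.X_J hokz.mem_J hokz.mem_H u
    by_cases hcu : S.car u ⊆ W
    · have hH := hL.hon u huw huV hcu
      have hK := hk u hu
      -- `X_u k_u` in the interior ideal
      have o1 : Ok S W {u} 4 (MvPolynomial.X u * k u) := Ok.X_JT hK.JT hK.H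
      have o2 : Ok S W {u} (M.degree + 4) (S.mo M * (MvPolynomial.X u * k u)) :=
        o1.mul_H (mo_H M)
      have o3 : Ok S W {u} (1 + (M.degree + 4))
          (MvPolynomial.X y * (S.mo M * (MvPolynomial.X u * k u))) := o2.mul_H (X_H y)
      have o4 : Ok S W {y} (M.degree + 4 + 1)
          (MvPolynomial.X y * (S.mo M * (MvPolynomial.X u * k u))) := Ok.X_J o2.mem_J o2.mem_H y
      have o5 : Ok S W {u} 3 (MvPolynomial.X u * H u) := Ok.X_JT hH.JT hH.H
      have o6 := (o5.mul_H (mo_H M)).mul_H (X_H y)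
      have e1 : MvPolynomial.X u * H u * S.mo (Finsupp.single y 1 + M) =
          MvPolynomial.X y * (S.mo M * (MvPolynomial.X u * H u)) := by
        rw [← hX]
        ring
      have e2 : k u * (MvPolynomial.X y * (S.mo M * (MvPolynomial.X u * H u))) =
          H u * (MvPolynomial.X y * (S.mo M * (MvPolynomial.X u * k u))) := by ring
      have e3 : k u * (MvPolynomial.X u * z) =
          H y * (MvPolynomial.X y * (S.mo M * (MvPolynomial.X u * k u))) := by
        rw [hz]
        ring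
      rw [e1, hK.eq _ _ o6 (by omega), e2, ← hH.eq _ _ o3 (by omega), hK.eq _ _ hokx (by omega),
        e3, ← hy.eq _ _ o4 (by omega)]
    · rw [hL.zero u fun h => hcu h.2.2, mul_zero, zero_mul, map_zero,
        car_zero (hG.nf' (n := M.degree + 3 + 1) (by omega)) hcu (Finset.mem_singleton_self u) hokx]
  rw [Lf_apply, Finset.sum_congr rfl fun u _ => h1 u]
  obtain ⟨μ, hμ⟩ := hd
  rw [F_NZ hμ]
  exact Finset.sum_eq_zero fun c hc => by
    rw [hG.thQ hQW (hZQ hc) (n := M.degree + 3) (by omega) hokz.mem_J hokz.mem_H, mul_zero]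

/-- One form. -/
theorem kap_one (hT : S.Top S.K) (hG : Gq S W w' Q η) (hQW : Q ⊆ W) (hZQ : Z ⊆ Q)
    (hQ4 : Q.card = 4) (hC : Cs S W w Z V A) (hL : Lr S W w V A H) (hd : NZ S Z δ) (hw : δ w = 0)
    (hw' : δ w' = 0) {M : X →₀ ℕ} (hM : M.degree + 6 = W.card) (h7 : 7 ≤ W.card) :
    η (Lf S δ H * S.mo M) = 0 := by
  have hne : ∃ q ∈ Q, q ∉ Z := by
    by_contra hcon
    push Not at hcon
    have h1 := Finset.card_le_card (show Q ⊆ Z from hcon)
    rw [hQ4, hC.Zc] at h1
    omega
  obtain ⟨q0, hq0, hq0Z⟩ := hne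
  -- the monomials which cover a colour of `Q`
  have k3 : ∀ M : X →₀ ℕ, M.degree + 6 = W.card → ∀ q ∈ Q, q ∈ S.cr M.support →
      η (Lf S δ H * S.mo M) = 0 := by
    intro M hM q hq hqM
    have h1 := kil_lift hT hC hL hd hw (n := M.degree + 3) (by omega) (hG.kil hQW hM hq hqM)
    rw [ml_apply, mul_comm] at h1
    exact h1
  -- local representatives
  have hkex : ∀ u, ∃ h, δ u ≠ 0 → Hon S W 3 η {u} h := by
    intro u
    by_cases hu : δ u = 0
    · exact ⟨0, fun h => absurd hu h⟩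
    · have huw' : u ≠ w' := fun h => hu (by rw [h]; exact hw')
      have h1 : ¬ Disjoint (S.car u) Z := fun h => hu (hd.zero h)
      obtain ⟨b, hb1, hb2⟩ := Finset.not_disjoint_iff.1 h1
      obtain ⟨h, hh⟩ := hG.hon hT (by omega) huw' (hZQ hb2) hb1
      exact ⟨h, fun _ => hh⟩
  choose k hk using hkex
  obtain ⟨z1, hz1⟩ : ∃ z1, z1 ∈ Z := Finset.card_pos.1 (by rw [hC.Zc]; omega)
  -- a vertex of `M`
  have hMne : M.support.Nonempty := by
    rw [Finset.nonempty_iff_ne_empty]
    intro h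
    rw [Finsupp.support_eq_empty] at h
    rw [h, map_zero] at hM
    omega
  obtain ⟨v, hv⟩ := hMne
  by_cases hQM : ∃ q ∈ Q, q ∈ S.cr M.support
  · obtain ⟨q, hq, hqM⟩ := hQM
    exact k3 M hM q hq hqM
  push Not at hQM
  have hQv : ∀ q ∈ Q, q ∉ S.car v := fun q hq h => hQM q hq (Finset.mem_biUnion.2 ⟨v, hv, h⟩)
  obtain ⟨M2, rfl⟩ : ∃ M2 : X →₀ ℕ, M = Finsupp.single v 1 + M2 := by
    refine ⟨M - Finsupp.single v 1, ?_⟩
    rw [add_tsub_cancel_of_le]
    rw [Finsupp.single_le_iff]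
    exact Nat.one_le_iff_ne_zero.2 (Finsupp.mem_support_iff.1 hv)
  have hM2 : M2.degree + 7 = W.card := by
    rw [deg_single_add] at hM
    omega
  by_cases hvw : v = w
  · exact absurd (hC.Zs hz1) (by rw [← hvw]; exact hQv z1 (hZQ hz1))
  by_cases hvV : v ∈ V
  swap
  · exact kap2 hG hQW hZQ hC hL hd hw hk hvw hvV hM2
  have hvc : S.car v ≠ W \ Z := by
    intro h
    refine hQv q0 hq0 ?_
    rw [h]
    exact Finset.mem_sdiff.2 ⟨hQW hq0, hq0Z⟩
  obtain ⟨μ, hμ⟩ := hC.ind v hvV hvc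
  have h1 : ∑ c ∈ W, μ c * η (S.th c * (Lf S δ H * S.mo M2)) = 0 := by
    refine Finset.sum_eq_zero fun c hc => ?_
    rw [mul_left_comm, kap1 hT hC hL hd hw hk hc hM2, mul_zero]
  have h2 : ∑ c ∈ W, μ c * η (S.th c * (Lf S δ H * S.mo M2)) =
      ∑ u, (∑ c ∈ W, μ c * S.a u c) * η (Lf S δ H * S.mo (Finsupp.single u 1 + M2)) := by
    have h3 : ∀ u, η (MvPolynomial.X u * (Lf S δ H * S.mo M2)) =
        η (Lf S δ H * S.mo (Finsupp.single u 1 + M2)) := by
      intro u
      rw [← X_mul_mo, mul_left_comm]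
    simp only [F_th, h3, Finset.mul_sum, Finset.sum_mul]
    rw [Finset.sum_comm]
    exact Finset.sum_congr rfl fun u _ => Finset.sum_congr rfl fun c _ => (mul_assoc _ _ _).symm
  rw [h2, Finset.sum_eq_single v] at h1
  · rw [hμ v hvV hvc, if_pos rfl, one_mul] at h1
    exact h1
  · intro u _ huv
    by_cases huV : u ∈ V ∧ S.car u ≠ W \ Z
    · rw [hμ u huV.1 huV.2, if_neg huv, zero_mul]
    · have hMu : (Finsupp.single u 1 + M2).degree + 6 = W.card := by
        rw [deg_single_add]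
        omega
      have hcr : S.car u ⊆ S.cr (Finsupp.single u 1 + M2).support := by
        rw [supp_single_add, cr_insert]
        exact Finset.subset_union_left
      by_cases huV' : u ∈ V
      · have h3 : S.car u = W \ Z := by
          by_contra h
          exact huV ⟨huV', h⟩
        rw [k3 _ hMu q0 hq0 (hcr (by rw [h3]; exact Finset.mem_sdiff.2 ⟨hQW hq0, hq0Z⟩)), mul_zero]
      · by_cases huw : u = w
        · rw [k3 _ hMu z1 (hZQ hz1) (hcr (by rw [huw]; exact hC.Zs hz1)), mul_zero]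
        · rw [kap2 hG hQW hZQ hC hL hd hw hk huw huV' hM2, mul_zero]
  · exact fun h => absurd (Finset.mem_univ v) h

end Gqs

/-! ### The decomposition of `G` -/

/-- A form whose coboundary lives at the pairs in which `w'` has four private colours is a sum of forms
with the coboundary at the pairs in which the colours of `Q` are private, `|Q| = 4`, and a trace. -/
theorem Gt.split (hT : S.Top S.K) {w' : X} {G : S.T →ₗ[S.K] S.K} (hG : Gt S W w' G) {k : ℕ}
    (hk : k + 5 = W.card) :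
    ∃ η : Finset Ω → S.T →ₗ[S.K] S.K,
      (∀ Q ∈ (W ∩ S.car w').powersetCard 4, Gq S W w' Q (η Q)) ∧
      Kil S W (k + 2) (G - ∑ Q ∈ (W ∩ S.car w').powersetCard 4, η Q) := by
  have hG0 : Nf S W (k + 2) G := fun M hM h => hG.nf M (by omega) h
  set T : Finset (Finset Ω) := (W ∩ S.car w').powersetCard 4 with hTdef
  have hT1 : ∀ Q ∈ T, Q ⊆ W ∧ Q ⊆ S.car w' ∧ Q.card = 4 := by
    intro Q hQ
    obtain ⟨h1, h2⟩ := Finset.mem_powersetCard.1 hQ
    exact ⟨h1.trans Finset.inter_subset_left, h1.trans Finset.inter_subset_right, h2⟩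
  set r := co1 S W (k + 2) (fun c => ml G (S.th c)) with hr
  have hdr : ∀ C M, VP S W (k + 2) C M → dl S r C M = 0 := by
    intro C M hV
    refine dl_co1 (n := k + 1) (fun c _ M hM h => hG0.th_mo c hM h)
      (fun c _ c' _ _ M _ => ?_) hV
    rw [ml_apply, ml_apply, ← mul_assoc, ← mul_assoc, mul_comm (S.th c)]
  obtain ⟨r', h1, h2, h3⟩ := splitZ (S := S) (W := W) (n := k + 2) (w := w')
    (V := Finset.univ) T (fun Q hQ => (hT1 Q hQ).1) (fun Q hQ => by rw [(hT1 Q hQ).2.2]; omega)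
    (fun Q hQ Q' hQ' hne => by
      have e1 : 5 ≤ (Q ∪ Q').card := by
        by_contra hcon
        have e2 : (Q ∪ Q').card ≤ Q.card := by
          rw [(hT1 Q hQ).2.2]
          omega
        have e3 := Finset.eq_of_subset_of_card_le (Finset.subset_union_left (s₁ := Q) (s₂ := Q')) e2
        have e4 : Q' ⊆ Q := by
          rw [e3]
          exact Finset.subset_union_right
        have e5 := Finset.eq_of_subset_of_card_le e4 (by
          rw [(hT1 Q hQ).2.2, (hT1 Q' hQ').2.2])
        exact hne e5.symm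
      omega) r (fun C M hne => by
      have hV : VP S W (k + 2) C M ∧ C.card = 1 := by
        by_contra hcon
        exact hne (co1_non hcon)
      obtain ⟨c, rfl⟩ := Finset.card_eq_one.1 hV.2
      have hV1 := hV.1
      have hcW : c ∈ W := hV1.sub (Finset.mem_singleton_self c)
      have hcov : W.erase c ⊆ S.cr M.support := by
        rw [Finset.erase_eq]
        exact hV1.cov
      have hdg := hV1.deg
      rw [Finset.card_singleton] at hdg
      rw [hr, co1_one hV1, ml_apply] at hne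
      obtain ⟨h4, h5⟩ := hG.th c hcW M (by omega) hcov hne
      obtain ⟨Q, hQ1, hQ2⟩ := Finset.exists_subset_card_eq h5
      have hwM : w' ∈ M.support := by
        rw [Finsupp.mem_support_iff, h4]
        exact one_ne_zero
      have hQc : Q ⊆ S.car w' := fun q hq =>
        (Finset.mem_sdiff.1 (Finset.mem_sdiff.1 (hQ1 hq)).1).1
      have hQW : Q ⊆ W := hQc.trans (car_sub_of_mem hV1.fcs hwM)
      refine ⟨Q, Finset.mem_powersetCard.2 ⟨Finset.subset_inter hQW hQc, hQ2⟩, hV1, h4, ?_, ?_,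
        Finset.subset_univ _⟩
      · rw [Finset.disjoint_singleton_right]
        exact fun h => (Finset.mem_sdiff.1 (hQ1 h)).2 (Finset.mem_singleton_self c)
      · rw [Finset.disjoint_left]
        exact fun q hq => (Finset.mem_sdiff.1 (Finset.mem_sdiff.1 (hQ1 hq)).1).2) hdr
  have hex : ∀ Q, ∃ A : S.T →ₗ[S.K] S.K, Q ∈ T → Nf S W (k + 2) A ∧ ∀ c ∈ W, ∀ M : X →₀ ℕ,
      M.degree = k + 1 → W.erase c ⊆ S.cr M.support → A (S.th c * S.mo M) = r' Q {c} M := by
    intro Q
    by_cases hQ : Q ∈ T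
    · obtain ⟨A, hA⟩ := coc_form hT (k := k) (r := r' Q) (fun C M h => (h1 Q hQ C M h).1) (h2 Q hQ)
      exact ⟨A, fun _ => hA⟩
    · exact ⟨0, fun h => absurd h hQ⟩
  choose η hη using hex
  refine ⟨η, fun Q hQ => ⟨fun M hM h => (hη Q hQ).1 M (by omega) h,
    fun c hc M hM hcov hne => ?_⟩, ?_, ?_⟩
  · rw [(hη Q hQ).2 c hc M (by omega) hcov] at hne
    obtain ⟨-, h4, h5, h6, -⟩ := h1 Q hQ _ _ hne
    exact ⟨h4, Finset.disjoint_singleton_right.1 h5, h6⟩
  · intro y hy hyn
    rw [LinearMap.sub_apply, hG0.I hy hyn, LinearMap.sum_apply, zero_sub, neg_eq_zero]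
    exact Finset.sum_eq_zero fun Q hQ => (hη Q hQ).1.I hy hyn
  · intro c hc j hj y hy hyj
    have hjk : j = k + 1 := by omega
    subst hjk
    refine form_mul_zero _ fun M hM => ?_
    have hd : M.degree = k + 1 := deg_of_H hyj hM
    rw [LinearMap.sub_apply, LinearMap.sum_apply]
    by_cases hf : M.support ∈ S.fcs W
    · have hcov : W.erase c ⊆ S.cr M.support := S.mem_J.1 hy M hM hf
      have hV : VP S W (k + 2) {c} M := by
        refine ⟨Finset.singleton_subset_iff.2 hc, hf, ?_, ?_⟩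
        · rw [← Finset.erase_eq]
          exact hcov
        · rw [Finset.card_singleton, hd]
      have h4 := h3 {c} M
      rw [hr, co1_one hV, ml_apply] at h4
      rw [h4, sub_eq_zero]
      exact Finset.sum_congr rfl fun Q hQ => ((hη Q hQ).2 c hc M hd hcov).symm
    · rw [hG0.th_mo c hd hf, zero_sub, neg_eq_zero]
      exact Finset.sum_eq_zero fun Q hQ => (hη Q hQ).1.th_mo c hd hf

/-- The multiples of a monomial under a form which is a trace. -/
theorem Kil.mo {n d : ℕ} {F : S.T →ₗ[S.K] S.K} (hF : Kil S W (d + n) F) {M : X →₀ ℕ}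
    (hM : M.degree = d) : Kil S W n (ml F (S.mo M)) := by
  have hH : S.mo M ∈ S.H d := by
    rw [← hM]
    exact mo_H M
  refine ⟨fun y hy hyn => ?_, fun c hc k hk y hy hyk => ?_⟩
  · rw [ml_apply]
    exact hF.I _ (S.mul_I hy _) (S.mul_H hH hyn)
  · rw [ml_apply, mul_left_comm]
    exact hF.th c hc (d + k) (by omega) _ (S.mul_J hy _) (S.mul_H hH hyk)

/-- The lift of a class is invisible. -/
theorem kap (hT : S.Top S.K) {w w' : X} {Z : Finset Ω} {V : Finset X} {A : S.T →ₗ[S.K] S.K}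
    {H : X → S.T} {G : S.T →ₗ[S.K] S.K} {δ : X → S.K} (hC : Cs S W w Z V A)
    (hL : Lr S W w V A H) (hG : Gt S W w' G) (hd : NZ S Z δ) (hw : δ w = 0) (hw' : δ w' = 0)
    {M : X →₀ ℕ} (hM : M.degree + 6 = W.card) (hZM : Disjoint Z (S.cr M.support))
    (h4 : (S.car w' \ S.cr M.support).card ≤ 4)
    (h5 : (S.car w' \ S.cr M.support).card = 4 → Z ⊆ S.car w') (h7 : 7 ≤ W.card) :
    G (Lf S δ H * S.mo M) = 0 := by
  obtain ⟨k, hk⟩ : ∃ k, k + 5 = W.card := ⟨W.card - 5, by omega⟩
  obtain ⟨η, hη1, hη2⟩ := hG.split hT hk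
  have e1 : (G - ∑ Q ∈ (W ∩ S.car w').powersetCard 4, η Q) (S.mo M * Lf S δ H) = 0 := by
    have h8 : Kil S W (M.degree + 3) (G - ∑ Q ∈ (W ∩ S.car w').powersetCard 4, η Q) := by
      have h9 : M.degree + 3 = k + 2 := by omega
      rw [h9]
      exact hη2
    exact kil_lift hT hC hL hd hw (n := M.degree + 3) (by omega) (h8.mo rfl)
  rw [LinearMap.sub_apply, sub_eq_zero, mul_comm] at e1
  rw [e1, LinearMap.sum_apply]
  refine Finset.sum_eq_zero fun Q hQ => ?_
  obtain ⟨h8, h9⟩ := Finset.mem_powersetCard.1 hQ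
  have hQW : Q ⊆ W := h8.trans Finset.inter_subset_left
  have hQc : Q ⊆ S.car w' := h8.trans Finset.inter_subset_right
  by_cases hQM : ∃ q ∈ Q, q ∈ S.cr M.support
  · obtain ⟨q, hq, hqM⟩ := hQM
    have h1 := kil_lift hT hC hL hd hw (n := M.degree + 3) (by omega)
      ((hη1 Q hQ).kil hQW hM hq hqM)
    rw [ml_apply, mul_comm] at h1
    exact h1
  · push Not at hQM
    have h10 : Q ⊆ S.car w' \ S.cr M.support :=
      fun q hq => Finset.mem_sdiff.2 ⟨hQc hq, hQM q hq⟩
    have h11 := Finset.eq_of_subset_of_card_le h10 (by rw [h9]; exact h4)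
    have h12 : Z ⊆ Q := by
      rw [h11]
      exact fun z hz => Finset.mem_sdiff.2 ⟨h5 (by rw [← h11, h9]) hz,
        Finset.disjoint_left.1 hZM hz⟩
    exact kap_one hT (hη1 Q hQ) hQW h12 h9 hC hL hd hw hw' hM h7

end Pool.Agent.LH4
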