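import Pool.Agent.LH4.Dd3
import Pool.Agent.LH4.Kap

/-!
# (D) of row 1250: lifts and vectors
-/

set_option autoImplicit false

open Finset

namespace Pool.Agent.LH4

open Pool.Agent.LocH

variable {X Ω : Type} [Fintype X] [DecidableEq X] [Fintype Ω] [DecidableEq Ω] {S : Sub X Ω}
  {W : Finset Ω} {w w' : X}

/-- The local representatives of a class. -/
theorem Cs.exists_lr (hT : S.Top S.K) {Z : Finset Ω} {V : Finset X} {A : S.T →ₗ[S.K] S.K}
    (hC : Cs S W w Z V A) (hW : 3 ≤ W.card) : ∃ H : X → S.T, Lr S W w V A H := by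
  classical
  have h1 : ∀ u : X, ∃ k : S.T, (u ≠ w ∧ u ∉ V ∧ S.car u ⊆ W → Hon S W 2 A {u} k) ∧
      (¬ (u ≠ w ∧ u ∉ V ∧ S.car u ⊆ W) → k = 0) := by
    intro u
    by_cases hu : u ≠ w ∧ u ∉ V ∧ S.car u ⊆ W
    · obtain ⟨k, hk⟩ := kap_ld hT (k := 2) (B := A) (τ := {u}) (W := W)
        (by rw [Finset.card_singleton]; omega) (fun M hM h => hC.nf M (by omega) h)
        (fun c hc M hM huM _ hcov => by
          by_contra hcon
          obtain ⟨-, -, h5⟩ := hC.th c hc M (by omega) hcov hcon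
          exact hu.2.1 (h5 (Finset.mem_erase.2 ⟨hu.1, Finset.singleton_subset_iff.1 huM⟩)))
      exact ⟨k, fun _ => hk, fun h => absurd hu h⟩
    · exact ⟨0, fun h => absurd h hu, fun _ => rfl⟩
  choose H hH using h1
  exact ⟨H, fun u h2 h3 h4 => (hH u).1 ⟨h2, h3, h4⟩, fun u hu => (hH u).2 hu⟩

/-- The rule of the lifts. -/
theorem Lr.liftD {Z : Finset Ω} {V : Finset X} {A : S.T →ₗ[S.K] S.K} {H : X → S.T}
    (hL : Lr S W w V A H) (hC : Cs S W w Z V A) {ν : X → S.K} (hν : NZ S Z ν) {n : ℕ}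
    (hn : n + 3 = W.card) {y : S.T} (hy : y ∈ S.J W W) (hyn : y ∈ S.H n) :
    ν w * A (MvPolynomial.X w * y) = S.Tr W (Lf S ν H * y) := by
  have := S.charP_K
  obtain ⟨μ, hμ⟩ := hν
  have hν' : NZ S Z ν := ⟨μ, hμ⟩
  have h1 : ∑ u, ν u * A (MvPolynomial.X u * y) = 0 := by
    rw [F_NZ hμ A y]
    refine Finset.sum_eq_zero fun b hb => ?_
    rw [hC.thZ hb hn hy hyn, mul_zero]
  have h2 : ∀ u, ν u * A (MvPolynomial.X u * y) =
      ν u * S.Tr W (MvPolynomial.X u * H u * y) +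
        if u = w then ν w * A (MvPolynomial.X w * y) else 0 := by
    intro u
    by_cases huw : u = w
    · subst huw
      rw [if_pos rfl, hL.zero u fun h => h.1 rfl, mul_zero, zero_mul, map_zero, mul_zero, zero_add]
    rw [if_neg huw, add_zero]
    by_cases hu : ν u = 0
    · rw [hu, zero_mul, zero_mul]
    have huV : u ∉ V := fun h => hu (hν'.zero (hC.VZ u h))
    congr 1
    by_cases hcu : S.car u ⊆ W
    · have h3 := (hL.hon u huw huV hcu).eq (n + 1) (MvPolynomial.X u * y) (Ok.X_J hy hyn u)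
        (by omega)
      rw [h3]
      congr 1
      ring
    · rw [hL.zero u fun h => hcu h.2.2, mul_zero, zero_mul, map_zero]
      exact car_zero (hC.nf' (n := n + 1) (by omega)) hcu (Finset.mem_singleton_self u)
        (Ok.X_J hy hyn u)
  rw [Finset.sum_congr rfl fun u _ => h2 u, Finset.sum_add_distrib,
    Finset.sum_ite_eq' Finset.univ w, if_pos (Finset.mem_univ w), ← Lf_apply] at h1
  exact (CharTwo.add_eq_zero.1 h1).symm

theorem FamH.Lf {H : X → S.T} (hH : FamH S W H) (ν : X → S.K) :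
    Lf S ν H ∈ S.J W W ∧ Lf S ν H ∈ S.H 3 := by
  constructor
  · refine Submodule.sum_mem _ fun u _ => Submodule.smul_mem _ _ ?_
    exact (Ok.X_JT (hH.JT u) (hH.H2 u)).mem_J
  · refine Submodule.sum_mem _ fun u _ => Submodule.smul_mem _ _ ?_
    exact (Ok.X_JT (hH.JT u) (hH.H2 u)).mem_H

/-! ### Vectors -/

theorem NZ.th {Z : Finset Ω} {b : Ω} (hb : b ∈ Z) : NZ S Z (fun u => S.a u b) := by
  refine ⟨Pi.single b 1, fun u => ?_⟩
  rw [Finset.sum_eq_single b]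
  · rw [Pi.single_eq_same, one_mul]
  · intro b' _ hb'
    rw [Pi.single_eq_of_ne hb', zero_mul]
  · exact fun h => absurd hb h

theorem NZ.add {Z : Finset Ω} {ν μ : X → S.K} (hν : NZ S Z ν) (hμ : NZ S Z μ) :
    NZ S Z (ν + μ) := by
  obtain ⟨x, hx⟩ := hν
  obtain ⟨y, hy⟩ := hμ
  refine ⟨x + y, fun u => ?_⟩
  rw [Pi.add_apply, hx u, hy u, ← Finset.sum_add_distrib]
  exact Finset.sum_congr rfl fun b _ => by rw [Pi.add_apply, add_mul]

theorem NZ.smul {Z : Finset Ω} {ν : X → S.K} (hν : NZ S Z ν) (t : S.K) :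
    NZ S Z (fun u => t * ν u) := by
  obtain ⟨x, hx⟩ := hν
  refine ⟨fun b => t * x b, fun u => ?_⟩
  change t * ν u = _
  rw [hx u, Finset.mul_sum]
  exact Finset.sum_congr rfl fun b _ => (mul_assoc _ _ _).symm

theorem NZ.mono {Z Z' : Finset Ω} (h : Z ⊆ Z') {ν : X → S.K} (hν : NZ S Z ν) : NZ S Z' ν := by
  obtain ⟨x, hx⟩ := hν
  refine ⟨fun b => if b ∈ Z then x b else 0, fun u => ?_⟩
  rw [hx u, ← Finset.sum_subset h (f := fun b => (if b ∈ Z then x b else 0) * S.a u b)]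
  · exact Finset.sum_congr rfl fun b hb => by rw [if_pos hb]
  · intro b _ hb
    rw [if_neg hb, zero_mul]

/-- A combination of two relations with the values `1` at `w` and `0` at `w'`. -/
theorem exists_nu {Z : Finset Ω} (hww : w ≠ w') {b b' : Ω} (hb : b ∈ Z) (hb' : b' ∈ Z)
    (hbb : b ≠ b') (hbw : b ∈ S.car w) (hbw' : b' ∈ S.car w') :
    ∃ ν, NZ S Z ν ∧ ν w = 1 ∧ ν w' = 0 := by
  have := S.charP_K
  have hdet : S.a w b * S.a w' b' + S.a w b' * S.a w' b ≠ 0 := by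
    by_cases h1 : b' ∈ S.car w
    · by_cases h2 : b ∈ S.car w'
      · exact minor_two hww hbb hbw h1 h2 hbw'
      · rw [S.a_zero h2, mul_zero, add_zero]
        exact mul_ne_zero (S.a_ne hbw) (S.a_ne hbw')
    · rw [S.a_zero h1, zero_mul, add_zero]
      exact mul_ne_zero (S.a_ne hbw) (S.a_ne hbw')
  set D := S.a w b * S.a w' b' + S.a w b' * S.a w' b with hD
  refine ⟨_, ((NZ.th hb).smul (D⁻¹ * S.a w' b')).add ((NZ.th hb').smul (D⁻¹ * S.a w' b)), ?_, ?_⟩
  · rw [Pi.add_apply]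
    have h1 : D⁻¹ * S.a w' b' * S.a w b + D⁻¹ * S.a w' b * S.a w b' = D⁻¹ * D := by
      rw [hD]
      ring
    rw [h1, inv_mul_cancel₀ hdet]
  · rw [Pi.add_apply]
    have h1 : D⁻¹ * S.a w' b' * S.a w' b = D⁻¹ * S.a w' b * S.a w' b' := by ring
    rw [h1]
    exact CharTwo.add_self_eq_zero _

/-- A multiple of one relation with the values `1` at `w` and `0` at `w'`. -/
theorem exists_nu' {Z : Finset Ω} {b : Ω} (hb : b ∈ Z) (hbw : b ∈ S.car w)
    (hbw' : b ∉ S.car w') : ∃ ν, NZ S Z ν ∧ ν w = 1 ∧ ν w' = 0 := by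
  refine ⟨_, (NZ.th hb).smul (S.a w b)⁻¹, inv_mul_cancel₀ (S.a_ne hbw), ?_⟩
  change (S.a w b)⁻¹ * S.a w' b = 0
  rw [S.a_zero hbw', mul_zero]

theorem NZ.exists_mem {Z : Finset Ω} {ν : X → S.K} (hν : NZ S Z ν) {u : X} (hu : ν u ≠ 0) :
    ∃ b ∈ Z, b ∈ S.car u := by
  by_contra hcon
  push Not at hcon
  exact hu (hν.zero (Finset.disjoint_right.2 hcon))

end Pool.Agent.LH4
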