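import Pool.Agent.LH4.Dd4

/-!
# (D) of row 1250: the theorem
-/

set_option autoImplicit false

open Finset

namespace Pool.Agent.LH4

open Pool.Agent.LocH

variable {X Ω : Type} [Fintype X] [DecidableEq X] [Fintype Ω] [DecidableEq Ω] {S : Sub X Ω}
  {W : Finset Ω} {w w' : X} {al s al' s' : S.T →ₗ[S.K] S.K} {g g' : S.T} {ι ι' : Type}
  {I : Finset ι} {I' : Finset ι'} {Z : ι → Finset Ω} {Z' : ι' → Finset Ω} {V : ι → Finset X}
  {V' : ι' → Finset X} {A : ι → S.T →ₗ[S.K] S.K} {A' : ι' → S.T →ₗ[S.K] S.K} {h h' : S.T}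

/-- The forms of a decomposition, the trace form included. -/
noncomputable def oA (S : Sub X Ω) (W : Finset Ω) (A : ι → S.T →ₗ[S.K] S.K) (h : S.T) :
    Option ι → S.T →ₗ[S.K] S.K
  | none => S.Tr W ∘ₗ LinearMap.mulLeft S.K h
  | some i => A i

/-- The total of a decomposition. -/
theorem sum_oA (A : ι → S.T →ₗ[S.K] S.K) (h y : S.T) :
    ∑ o ∈ Finset.insertNone I, oA S W A h o y = ∑ i ∈ I, A i y + S.Tr W (h * y) := by
  rw [Finset.sum_insertNone, add_comm]
  rfl

theorem tr_sz (A : ι → S.T →ₗ[S.K] S.K) (h y : S.T) :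
    S.Tr W (g * y) = sz S W g I A h y +
      ∑ o ∈ Finset.insertNone I, oA S W A h o (S.lam W * y) := by
  have := S.charP_K
  rw [sum_oA, sz_apply]
  have h1 : ∀ a b c : S.K, a = a + b + c + (b + c) := by
    intro a b c
    have h2 : b + b = 0 := CharTwo.add_self_eq_zero b
    have h3 : c + c = 0 := CharTwo.add_self_eq_zero c
    linear_combination -h2 - h3
  exact h1 _ _ _

/-- The form `al (w .)` at a multiple of `M` by an element of the interior ideal. -/
theorem Zd.tot_w (P : Pce S W w al s g) (hz : Zd S W w al I Z V A h) {u : X} {M : X →₀ ℕ}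
    (hd : M.degree + 6 = W.card) {q : S.T} (hq : q ∈ S.J W W) (hq3 : q ∈ S.H 3)
    (hty : ∀ n : X →₀ ℕ, (Finsupp.single u 1 + (n + M)).support ∈ S.fcs W →
      W ⊆ S.cr n.support → ¬ Ty S w ∅ (Finsupp.single u 1 + (n + M))) :
    al (MvPolynomial.X u * (q * S.mo M)) =
      ∑ o ∈ Finset.insertNone I, oA S W A h o (MvPolynomial.X u * (q * S.mo M)) := by
  rw [sum_oA]
  refine Zd.al_eq P hz fun N hN => ?_
  obtain ⟨N', hN', rfl⟩ := mem_mul_X hN
  obtain ⟨n, hn, rfl⟩ := mem_mul_mo hN'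
  refine ⟨?_, fun hf => ?_⟩
  · rw [deg_single_add, map_add, deg_of_H hq3 hn]
    omega
  · have h1 : n.support ⊆ (Finsupp.single u 1 + (n + M)).support := by
      rw [supp_single_add, supp_add_sup]
      exact Finset.subset_union_left.trans (Finset.subset_insert _ _)
    have h2 := S.mem_J.1 hq n hn (face_mono h1 hf)
    exact ⟨h2.trans (cr_mono h1), hty n hf h2⟩

/-- A sum over all forms in which only the active classes contribute. -/
theorem sum_act {κ : Type} {E : Type} [AddCommMonoid E] (I : Finset κ) (p : κ → Prop)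
    [DecidablePred p] (F : Option κ → E) (h0 : F none = 0)
    (h1 : ∀ i ∈ I, ¬ p i → F (some i) = 0) :
    ∑ o ∈ Finset.insertNone I, F o = ∑ i ∈ I.filter p, F (some i) := by
  rw [Finset.sum_insertNone, h0, zero_add]
  symm
  refine Finset.sum_subset (Finset.filter_subset _ _) fun i hi hi' => ?_
  exact h1 i hi fun h => hi' (Finset.mem_filter.2 ⟨hi, h⟩)

/-- The chosen elements. -/
noncomputable def oB (S : Sub X Ω) (w : X) (p : ι → Prop) [DecidablePred p]
    (h : S.T) (L K : ι → S.T) : Option ι → S.T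
  | none => MvPolynomial.X w * h
  | some i => if p i then L i else MvPolynomial.X w * K i

theorem Pce.dd4 (P : Pce S W w al s g) (P' : Pce S W w' al' s' g') (hT : S.Top S.K)
    (hz : Zd S W w al I Z V A h) (hz' : Zd S W w' al' I' Z' V' A' h') (hww : w ≠ w')
    (hw : S.car w ⊆ W) (hw' : S.car w' ⊆ W) (h7 : 7 ≤ W.card) {M : X →₀ ℕ}
    (hd : M.degree + 6 = W.card) (hf : M.support ∈ S.fcs W) (hwM : w ∉ M.support)
    (hwM' : w' ∉ M.support) (h4 : (W \ S.cr M.support).card = 4)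
    (hq : (S.car w' \ (S.car w ∪ S.cr M.support)).card ≤ 2) :
    dd2 S al al' g g' (S.mo (Finsupp.single w 1 + M)) = 0 := by
  classical
  have := S.charP_K
  set R := S.cr M.support with hR
  -- the lifts
  have hH : ∀ i : ι, ∃ H : X → S.T, i ∈ I → Lr S W w (V i) (A i) H := by
    intro i
    by_cases hi : i ∈ I
    · obtain ⟨H, hH⟩ := (hz.cs i hi).exists_lr hT (by omega)
      exact ⟨H, fun _ => hH⟩
    · exact ⟨0, fun h => absurd h hi⟩
  choose H hH using hH
  have hH' : ∀ i : ι', ∃ H : X → S.T, i ∈ I' → Lr S W w' (V' i) (A' i) H := by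
    intro i
    by_cases hi : i ∈ I'
    · obtain ⟨H, hH⟩ := (hz'.cs i hi).exists_lr hT (by omega)
      exact ⟨H, fun _ => hH⟩
    · exact ⟨0, fun h => absurd h hi⟩
  choose H' hH' using hH'
  -- the vectors
  have n1 : ∀ i : ι, ∃ ν : X → S.K, i ∈ I → Disjoint (Z i) R →
      NZ S (Z i) ν ∧ ν w = 1 ∧ ν w' = 0 := by
    intro i
    by_cases hi : i ∈ I
    swap
    · exact ⟨0, fun h => absurd h hi⟩
    have h3 := (hz.cs i hi).Zc
    by_cases h5 : ∃ b' ∈ Z i, b' ∈ S.car w'
    · obtain ⟨b', hb', hbw'⟩ := h5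
      obtain ⟨b, hb, hbb⟩ := Finset.exists_mem_ne (s := Z i) (by omega) b'
      obtain ⟨ν, hν⟩ := exists_nu hww hb hb' hbb ((hz.cs i hi).Zs hb) hbw'
      exact ⟨ν, fun _ _ => hν⟩
    · push Not at h5
      obtain ⟨b, hb⟩ : (Z i).Nonempty := by
        rw [← Finset.card_pos]
        omega
      obtain ⟨ν, hν⟩ := exists_nu' hb ((hz.cs i hi).Zs hb) (h5 b hb)
      exact ⟨ν, fun _ _ => hν⟩
  choose ν1 hν1 using n1
  have mt : ∀ j ∈ I', Disjoint (Z' j) R → ∃ b ∈ Z' j, b ∈ S.car w := by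
    intro j hj hdj
    by_contra hcon
    push Not at hcon
    have h5 : Z' j ⊆ S.car w' \ (S.car w ∪ R) := by
      intro b hb
      refine Finset.mem_sdiff.2 ⟨(hz'.cs j hj).Zs hb, fun h6 => ?_⟩
      rcases Finset.mem_union.1 h6 with h6 | h6
      · exact hcon b hb h6
      · exact Finset.disjoint_left.1 hdj hb h6
    have h6 := Finset.card_le_card h5
    have h8 := (hz'.cs j hj).Zc
    omega
  have n2 : ∀ j : ι', ∃ ν : X → S.K, j ∈ I' → Disjoint (Z' j) R →
      NZ S (Z' j) ν ∧ ν w = 1 ∧ ν w' = 0 := by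
    intro j
    by_cases hj : j ∈ I'
    swap
    · exact ⟨0, fun h => absurd h hj⟩
    by_cases hdj : Disjoint (Z' j) R
    swap
    · exact ⟨0, fun _ h => absurd h hdj⟩
    obtain ⟨b, hb, hbw⟩ := mt j hj hdj
    have h3 := (hz'.cs j hj).Zc
    obtain ⟨b', hb', hbb⟩ := Finset.exists_mem_ne (s := Z' j) (by omega) b
    obtain ⟨ν, hν⟩ := exists_nu hww hb hb' (Ne.symm hbb) hbw ((hz'.cs j hj).Zs hb')
    exact ⟨ν, fun _ _ => hν⟩
  choose ν2 hν2 using n2
  have n3 : ∀ Q Q' : Finset Ω, ∃ ν : X → S.K, Q ∈ (S.car w \ R).powersetCard 3 →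
      Q' ∈ (S.car w' \ R).powersetCard 3 → NZ S Q ν ∧ NZ S Q' ν ∧ ν w = 1 ∧ ν w' = 0 := by
    intro Q Q'
    by_cases hQ : Q ∈ (S.car w \ R).powersetCard 3 ∧ Q' ∈ (S.car w' \ R).powersetCard 3
    swap
    · exact ⟨0, fun h1 h2 => absurd ⟨h1, h2⟩ hQ⟩
    obtain ⟨hQ1, hQ2⟩ := hQ
    obtain ⟨h1, h2⟩ := Finset.mem_powersetCard.1 hQ1
    obtain ⟨h3, h5⟩ := Finset.mem_powersetCard.1 hQ2
    have h6 : (Q ∪ Q').card ≤ 4 := by
      rw [← h4]
      refine Finset.card_le_card (Finset.union_subset ?_ ?_)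
      · exact h1.trans (Finset.sdiff_subset_sdiff hw (Finset.Subset.refl _))
      · exact h3.trans (Finset.sdiff_subset_sdiff hw' (Finset.Subset.refl _))
    have h8 := Finset.card_union_add_card_inter Q Q'
    obtain ⟨b, hb⟩ : (Q ∩ Q').Nonempty := by
      rw [← Finset.card_pos]
      omega
    obtain ⟨b', hb', hbb⟩ := Finset.exists_mem_ne (s := Q ∩ Q') (by omega) b
    obtain ⟨ν, hν⟩ := exists_nu hww hb hb' (Ne.symm hbb)
      (Finset.mem_sdiff.1 (h1 (Finset.mem_inter.1 hb).1)).1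
      (Finset.mem_sdiff.1 (h3 (Finset.mem_inter.1 hb').2)).1
    exact ⟨ν, fun _ _ => ⟨hν.1.mono Finset.inter_subset_left, hν.1.mono Finset.inter_subset_right,
      hν.2⟩⟩
  choose ν3 hν3 using n3
  have act1 : ∀ i ∈ I, Disjoint (Z i) R → Z i ∈ (S.car w \ R).powersetCard 3 := by
    intro i hi hdi
    refine Finset.mem_powersetCard.2 ⟨fun b hb => ?_, (hz.cs i hi).Zc⟩
    exact Finset.mem_sdiff.2 ⟨(hz.cs i hi).Zs hb, Finset.disjoint_left.1 hdi hb⟩
  have act2 : ∀ j ∈ I', Disjoint (Z' j) R → Z' j ∈ (S.car w' \ R).powersetCard 3 := by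
    intro j hj hdj
    refine Finset.mem_powersetCard.2 ⟨fun b hb => ?_, (hz'.cs j hj).Zc⟩
    exact Finset.mem_sdiff.2 ⟨(hz'.cs j hj).Zs hb, Finset.disjoint_left.1 hdj hb⟩
  -- the honest vertices of the inactive classes
  have m1 : ∀ i : ι, ∃ u : X, i ∈ I → ¬ Disjoint (Z i) R → u ∈ M.support ∧ u ∉ V i := by
    intro i
    by_cases hi : i ∈ I ∧ ¬ Disjoint (Z i) R
    swap
    · exact ⟨w, fun h1 h2 => absurd ⟨h1, h2⟩ hi⟩
    obtain ⟨b, hb1, hb2⟩ := Finset.not_disjoint_iff.1 hi.2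
    obtain ⟨u, hu, hbu⟩ := Finset.mem_biUnion.1 hb2
    exact ⟨u, fun _ _ => ⟨hu, fun h5 =>
      Finset.disjoint_left.1 ((hz.cs i hi.1).VZ u h5) hbu hb1⟩⟩
  choose u1 hu1 using m1
  have m2 : ∀ j : ι', ∃ u : X, j ∈ I' → ¬ Disjoint (Z' j) R → u ∈ M.support ∧ u ∉ V' j := by
    intro j
    by_cases hj : j ∈ I' ∧ ¬ Disjoint (Z' j) R
    swap
    · exact ⟨w, fun h1 h2 => absurd ⟨h1, h2⟩ hj⟩
    obtain ⟨b, hb1, hb2⟩ := Finset.not_disjoint_iff.1 hj.2
    obtain ⟨u, hu, hbu⟩ := Finset.mem_biUnion.1 hb2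
    exact ⟨u, fun _ _ => ⟨hu, fun h5 =>
      Finset.disjoint_left.1 ((hz'.cs j hj.1).VZ u h5) hbu hb1⟩⟩
  choose u2 hu2 using m2
  have hob1 : ∀ i ∈ I, ¬ Disjoint (Z i) R → HOb S W M (A i) (H i (u1 i)) := by
    intro i hi hdi
    obtain ⟨h1, h2⟩ := hu1 i hi hdi
    exact (hH i hi).hob (fun h3 => hwM (h3 ▸ h1)) h2 h1 hf hd
  have hob2 : ∀ j ∈ I', ¬ Disjoint (Z' j) R → HOb S W M (A' j) (H' j (u2 j)) := by
    intro j hj hdj
    obtain ⟨h1, h2⟩ := hu2 j hj hdj
    exact (hH' j hj).hob (fun h3 => hwM' (h3 ▸ h1)) h2 h1 hf hd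
  have hob0 : HOb S W M (oA S W A h none) h := hob_Tr hz.hJ hz.hH M
  have hob0' : HOb S W M (oA S W A' h' none) h' := hob_Tr hz'.hJ hz'.hH M
  -- the objects
  set B := oB S w (fun i => Disjoint (Z i) R) h (fun i => Lf S (ν1 i) (H i))
    (fun i => H i (u1 i)) with hB
  set B' := oB S w (fun j => Disjoint (Z' j) R) h' (fun j => Lf S (ν2 j + Pi.single w 1) (H' j))
    (fun j => H' j (u2 j)) with hB'
  have Bn : B none = MvPolynomial.X w * h := rfl
  have Bn' : B' none = MvPolynomial.X w * h' := rfl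
  have Ba : ∀ i, Disjoint (Z i) R → B (some i) = Lf S (ν1 i) (H i) := fun i hi => if_pos hi
  have Ba' : ∀ j, Disjoint (Z' j) R → B' (some j) = Lf S (ν2 j + Pi.single w 1) (H' j) :=
    fun j hj => if_pos hj
  have Bi : ∀ i, ¬ Disjoint (Z i) R → B (some i) = MvPolynomial.X w * H i (u1 i) :=
    fun i hi => if_neg hi
  have Bi' : ∀ j, ¬ Disjoint (Z' j) R → B' (some j) = MvPolynomial.X w * H' j (u2 j) :=
    fun j hj => if_neg hj
  have hLf : ∀ {H0 : X → S.T}, FamH S W H0 → ∀ ν : X → S.K, Lf S ν H0 * S.mo M ∈ S.J W W := by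
    intro H0 hF ν
    rw [mul_comm]
    exact mul_J_left (hF.Lf ν).1
  have ob1 : ∀ o ∈ Finset.insertNone I, Obj S W w M (oA S W A h o) (B o) := by
    intro o ho
    rcases o with _ | i
    · exact hob0.obj (by omega) w
    have hi : i ∈ I := Finset.some_mem_insertNone.1 ho
    by_cases hdi : Disjoint (Z i) R
    · rw [Ba i hdi]
      refine ⟨hLf (hH i hi).fam _, ((hH i hi).fam.Lf _).2, fun z hz1 hz2 => ?_⟩
      have h1 := (hH i hi).liftD (hz.cs i hi) (hν1 i hi hdi).1 (n := W.card - 3) (by omega) hz1 hz2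
      rw [(hν1 i hi hdi).2.1, one_mul] at h1
      exact h1
    · rw [Bi i hdi]
      exact (hob1 i hi hdi).obj (by omega) w
  have ob2 : ∀ o ∈ Finset.insertNone I', Obj S W w M (oA S W A' h' o) (B' o) := by
    intro o ho
    rcases o with _ | j
    · exact hob0'.obj (by omega) w
    have hj : j ∈ I' := Finset.some_mem_insertNone.1 ho
    by_cases hdj : Disjoint (Z' j) R
    · rw [Ba' j hdj]
      refine ⟨hLf (hH' j hj).fam _, ((hH' j hj).fam.Lf _).2, fun z hz1 hz2 => ?_⟩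
      have h1 := (hH' j hj).liftD (hz'.cs j hj) (hν2 j hj hdj).1 (n := W.card - 3) (by omega)
        hz1 hz2
      rw [(hν2 j hj hdj).2.2, zero_mul] at h1
      obtain ⟨b, hb, hbw⟩ := mt j hj hdj
      have h2 : w ∉ V' j := fun h3 =>
        Finset.disjoint_left.1 ((hz'.cs j hj).VZ w h3) hbw hb
      have h3 := ((hH' j hj).hon w hww h2 hw).eq (W.card - 3 + 1)
        (MvPolynomial.X w * (z * S.mo M)) (Ok.X_J hz1 hz2 w) (by omega)
      change A' j (MvPolynomial.X w * (z * S.mo M)) = _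
      rw [h3, Lf_add, Lf_single, add_mul, map_add, ← h1, zero_add]
      congr 1
      ring
    · rw [Bi' j hdj]
      exact (hob2 j hj hdj).obj (by omega) w
  have hcrw : ∀ n : X →₀ ℕ, insert w M.support ⊆ (Finsupp.single w 1 + (n + M)).support := by
    intro n
    rw [supp_single_add, supp_add_sup]
    exact Finset.insert_subset_insert _ Finset.subset_union_right
  have hins : (S.car w' \ S.cr ((insert w M.support).erase w')).card ≤ 2 := by
    have h1 : (insert w M.support).erase w' = insert w M.support := by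
      refine Finset.erase_eq_of_notMem fun h2 => ?_
      rcases Finset.mem_insert.1 h2 with h2 | h2
      · exact hww h2.symm
      · exact hwM' h2
    rw [h1, cr_insert]
    exact hq
  have tot1 := Zd.tot_w P hz (u := w) hd P'.gJ P'.gH (fun n hfn hn => not_ty_single (by
    refine hw.trans (hn.trans ((cr_mono ?_).trans Finset.subset_union_left))
    rw [supp_add_sup]
    exact Finset.subset_union_left))
  have tot2 := Zd.tot_w P' hz' (u := w) hd P.gJ P.gH (fun n hfn hn => not_ty (hcrw n) hins)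
  rw [dd_abs (Finset.insertNone I) (Finset.insertNone I') hd (oA S W A h) (oA S W A' h') B B'
    ob1 ob2 P.gJ P.gH P'.gJ P'.gH tot1 tot2 (sz S W g I A h) (sz S W g' I' A' h')
    (fun y _ _ => tr_sz A h y) (fun y _ _ => tr_sz A' h' y)]
  -- the terms of the honest forms
  have s1 : ∀ {k : S.T} {A0 : S.T →ₗ[S.K] S.K}, HOb S W M A0 k →
      sz S W g' I' A' h' (MvPolynomial.X w * k * S.mo M) = 0 := by
    intro k A0 hk
    have e1 : MvPolynomial.X w * k * S.mo M = MvPolynomial.X w * (k * S.mo M) := by ring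
    rw [e1]
    refine form_zero fun N hN => ?_
    obtain ⟨N', hN', rfl⟩ := mem_mul_X hN
    have h1 := S.mem_J.1 hk.JB N' hN'
    obtain ⟨n, hn, rfl⟩ := mem_mul_mo hN'
    refine sz_zero P' hz' hw' ?_ (fun hf' => ?_) (not_ty (hcrw n) hins)
    · rw [deg_single_add, map_add, deg_of_H hk.HB hn]
      omega
    · rw [supp_single_add] at hf' ⊢
      exact (h1 (face_mono (Finset.subset_insert _ _) hf')).trans
        (cr_mono (Finset.subset_insert _ _))
  have s2 : ∀ {k : S.T} {A0 : S.T →ₗ[S.K] S.K}, HOb S W M A0 k →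
      sz S W g I A h (MvPolynomial.X w * k * S.mo M) = 0 := by
    intro k A0 hk
    have e1 : MvPolynomial.X w * k * S.mo M = MvPolynomial.X w * (k * S.mo M) := by ring
    rw [e1]
    refine form_zero fun N hN => ?_
    obtain ⟨N', hN', rfl⟩ := mem_mul_X hN
    have h1 := S.mem_J.1 hk.JB N' hN'
    obtain ⟨n, hn, rfl⟩ := mem_mul_mo hN'
    by_cases hf' : (Finsupp.single w 1 + (n + M)).support ∈ S.fcs W
    swap
    · exact sz_face hz (by rw [deg_single_add, map_add, deg_of_H hk.HB hn]; omega) hf'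
    have h2 : W ⊆ S.cr (n + M).support := by
      refine h1 (face_mono ?_ hf')
      rw [supp_single_add]
      exact Finset.subset_insert _ _
    refine sz_zero P hz hw ?_ (fun _ => ?_) (not_ty_single ?_)
    · rw [deg_single_add, map_add, deg_of_H hk.HB hn]
      omega
    · rw [supp_single_add]
      exact h2.trans (cr_mono (Finset.subset_insert _ _))
    · exact (hw.trans h2).trans Finset.subset_union_left
  have cr1 : ∀ o ∈ Finset.insertNone I, ∀ {A0 : S.T →ₗ[S.K] S.K} {k : S.T}, HOb S W M A0 k →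
      A0 (S.lam W * (B o * S.mo M)) +
        oA S W A h o (S.lam W * (MvPolynomial.X w * k * S.mo M)) = 0 :=
    fun o ho A0 k hk => (ob1 o ho).cross hk hd
  have cr2 : ∀ o ∈ Finset.insertNone I', ∀ {A0 : S.T →ₗ[S.K] S.K} {k : S.T}, HOb S W M A0 k →
      oA S W A' h' o (S.lam W * (MvPolynomial.X w * k * S.mo M)) +
        A0 (S.lam W * (B' o * S.mo M)) = 0 := by
    intro o ho A0 k hk
    rw [add_comm]
    exact (ob2 o ho).cross hk hd
  have none1 : (none : Option ι) ∈ Finset.insertNone I := Finset.none_mem_insertNone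
  have none2 : (none : Option ι') ∈ Finset.insertNone I' := Finset.none_mem_insertNone
  have t1 : ∑ o ∈ Finset.insertNone I, sz S W g' I' A' h' (B o * S.mo M) =
      ∑ i ∈ I.filter (fun i => Disjoint (Z i) R),
        sz S W g' I' A' h' (Lf S (ν1 i) (H i) * S.mo M) := by
    rw [sum_act I (fun i => Disjoint (Z i) R) (fun o => sz S W g' I' A' h' (B o * S.mo M))
      (by rw [Bn]; exact s1 hob0) (fun i hi hdi => by rw [Bi i hdi]; exact s1 (hob1 i hi hdi))]
    refine Finset.sum_congr rfl fun i hi => ?_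
    rw [Ba i (Finset.mem_filter.1 hi).2]
  have t2 : ∑ o ∈ Finset.insertNone I', sz S W g I A h (B' o * S.mo M) =
      ∑ j ∈ I'.filter (fun j => Disjoint (Z' j) R),
        sz S W g I A h (Lf S (ν2 j + Pi.single w 1) (H' j) * S.mo M) := by
    rw [sum_act I' (fun j => Disjoint (Z' j) R) (fun o => sz S W g I A h (B' o * S.mo M))
      (by rw [Bn']; exact s2 hob0')
      (fun j hj hdj => by rw [Bi' j hdj]; exact s2 (hob2 j hj hdj))]
    refine Finset.sum_congr rfl fun j hj => ?_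
    rw [Ba' j (Finset.mem_filter.1 hj).2]
  have t3 : ∑ o ∈ Finset.insertNone I, ∑ o' ∈ Finset.insertNone I',
      (oA S W A' h' o' (S.lam W * (B o * S.mo M)) +
        oA S W A h o (S.lam W * (B' o' * S.mo M))) =
      ∑ i ∈ I.filter (fun i => Disjoint (Z i) R), ∑ j ∈ I'.filter (fun j => Disjoint (Z' j) R),
        (A' j (S.lam W * (Lf S (ν1 i + ν3 (Z i) (Z' j)) (H i) * S.mo M)) +
          A i (S.lam W * (Lf S (ν2 j + ν3 (Z i) (Z' j)) (H' j) * S.mo M))) := by
    rw [sum_act I (fun i => Disjoint (Z i) R) (fun o => ∑ o' ∈ Finset.insertNone I',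
      (oA S W A' h' o' (S.lam W * (B o * S.mo M)) +
        oA S W A h o (S.lam W * (B' o' * S.mo M))))
      (Finset.sum_eq_zero fun o' ho' => by rw [Bn]; exact cr2 o' ho' hob0)
      (fun i hi hdi => Finset.sum_eq_zero fun o' ho' => by
        rw [Bi i hdi]; exact cr2 o' ho' (hob1 i hi hdi))]
    refine Finset.sum_congr rfl fun i hi => ?_
    obtain ⟨hi1, hi2⟩ := Finset.mem_filter.1 hi
    have hio : some i ∈ Finset.insertNone I := Finset.some_mem_insertNone.2 hi1
    rw [sum_act I' (fun j => Disjoint (Z' j) R) (fun o' =>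
      (oA S W A' h' o' (S.lam W * (B (some i) * S.mo M)) +
        oA S W A h (some i) (S.lam W * (B' o' * S.mo M))))
      (by rw [Bn']; exact cr1 _ hio hob0')
      (fun j hj hdj => by rw [Bi' j hdj]; exact cr1 _ hio (hob2 j hj hdj))]
    refine Finset.sum_congr rfl fun j hj => ?_
    obtain ⟨hj1, hj2⟩ := Finset.mem_filter.1 hj
    rw [Ba i hi2, Ba' j hj2]
    obtain ⟨k1, k2, k3, k4⟩ := hν3 (Z i) (Z' j) (act1 i hi1 hi2) (act2 j hj1 hj2)
    have hc := (hH i hi1).cross (hH' j hj1) hww (ν := ν3 (Z i) (Z' j))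
      (fun u hu => k1.zero ((hz.cs i hi1).VZ u hu)) (fun u hu => k2.zero ((hz'.cs j hj1).VZ u hu))
      k3 k4 hd
    change A' j (S.lam W * (Lf S (ν1 i) (H i) * S.mo M)) +
      A i (S.lam W * (Lf S (ν2 j + Pi.single w 1) (H' j) * S.mo M)) = _
    have e1 : ν1 i = (ν1 i + ν3 (Z i) (Z' j)) + ν3 (Z i) (Z' j) := by
      funext u
      simp only [Pi.add_apply]
      rw [add_assoc, CharTwo.add_self_eq_zero, add_zero]
    have e2 : ν2 j + Pi.single w 1 = (ν2 j + ν3 (Z i) (Z' j)) +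
        (ν3 (Z i) (Z' j) + Pi.single w 1) := by
      funext u
      simp only [Pi.add_apply]
      have h1 := CharTwo.add_self_eq_zero (ν3 (Z i) (Z' j) u)
      linear_combination -h1
    have e3 : A' j (S.lam W * (Lf S (ν1 i) (H i) * S.mo M)) =
        A' j (S.lam W * (Lf S (ν1 i + ν3 (Z i) (Z' j)) (H i) * S.mo M)) +
        A' j (S.lam W * (Lf S (ν3 (Z i) (Z' j)) (H i) * S.mo M)) := by
      conv_lhs => rw [e1, Lf_add, add_mul, mul_add, map_add]
    have e4 : A i (S.lam W * (Lf S (ν2 j + Pi.single w 1) (H' j) * S.mo M)) =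
        A i (S.lam W * (Lf S (ν2 j + ν3 (Z i) (Z' j)) (H' j) * S.mo M)) +
        A i (S.lam W * (Lf S (ν3 (Z i) (Z' j) + Pi.single w 1) (H' j) * S.mo M)) := by
      rw [e2, Lf_add (ν2 j + ν3 (Z i) (Z' j)), add_mul, mul_add, map_add]
    rw [e3, e4]
    linear_combination hc
  rw [t1, t2, t3]
  -- the brackets
  have b1 : ∀ i ∈ I.filter (fun i => Disjoint (Z i) R),
      sz S W g' I' A' h' (Lf S (ν1 i) (H i) * S.mo M) +
        ∑ j ∈ I'.filter (fun j => Disjoint (Z' j) R),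
          A' j (S.lam W * (Lf S (ν1 i + ν3 (Z i) (Z' j)) (H i) * S.mo M)) = 0 := by
    intro i hi
    obtain ⟨hi1, hi2⟩ := Finset.mem_filter.1 hi
    obtain ⟨c1, c2, c3⟩ := hν1 i hi1 hi2
    have hZi : Z i ⊆ W \ R := ((Finset.mem_powersetCard.1 (act1 i hi1 hi2)).1).trans
      (Finset.sdiff_subset_sdiff hw (Finset.Subset.refl _))
    refine bracket P' hz' hw' (hH i hi1).fam (n := fun Q => ν3 (Z i) Q) hd hwM' h4 c3 ?_ ?_ ?_ ?_
    · intro u hu
      obtain ⟨b, hb, hbu⟩ := c1.exists_mem hu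
      exact ⟨b, hZi hb, hbu⟩
    · intro Q hQ
      exact (hν3 (Z i) Q (act1 i hi1 hi2) hQ).2.2.2
    · intro Q hQ u hu
      exact (hν3 (Z i) Q (act1 i hi1 hi2) hQ).2.1.exists_mem hu
    · intro Q hQ
      obtain ⟨k1, k2, k3, k4⟩ := hν3 (Z i) Q (act1 i hi1 hi2) hQ
      have hle : (S.car w' \ R).card ≤ 4 := by
        rw [← h4]
        exact Finset.card_le_card (Finset.sdiff_subset_sdiff hw' (Finset.Subset.refl _))
      refine kap hT (hz.cs i hi1) (hH i hi1)
        (gz_Gt hT P' hz' hw' (Finset.mem_powersetCard.1 hQ).2) (c1.add k1) ?_ ?_ hd hi2 hle ?_ h7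
      · rw [Pi.add_apply, c2, k3]
        exact CharTwo.add_self_eq_zero _
      · rw [Pi.add_apply, c3, k4, add_zero]
      · intro h8
        have h9 : S.car w' \ R = W \ R := Finset.eq_of_subset_of_card_le
          (Finset.sdiff_subset_sdiff hw' (Finset.Subset.refl _)) (by rw [h4]; exact h8.ge)
        rw [← h9] at hZi
        exact hZi.trans Finset.sdiff_subset
  have b2 : ∀ j ∈ I'.filter (fun j => Disjoint (Z' j) R),
      sz S W g I A h (Lf S (ν2 j + Pi.single w 1) (H' j) * S.mo M) +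
        ∑ i ∈ I.filter (fun i => Disjoint (Z i) R),
          A i (S.lam W * (Lf S (ν2 j + ν3 (Z i) (Z' j)) (H' j) * S.mo M)) = 0 := by
    intro j hj
    obtain ⟨hj1, hj2⟩ := Finset.mem_filter.1 hj
    obtain ⟨c1, c2, c3⟩ := hν2 j hj1 hj2
    have hZj : Z' j ⊆ W \ R := ((Finset.mem_powersetCard.1 (act2 j hj1 hj2)).1).trans
      (Finset.sdiff_subset_sdiff hw' (Finset.Subset.refl _))
    have e1 : ∀ Q : Finset Ω, (ν2 j + Pi.single w 1) + (ν3 Q (Z' j) + Pi.single w 1) =
        ν2 j + ν3 Q (Z' j) := by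
      intro Q
      funext u
      simp only [Pi.add_apply]
      have h1 := CharTwo.add_self_eq_zero ((Pi.single w 1 : X → S.K) u)
      linear_combination h1
    have e0 : (ν2 j + Pi.single w 1 : X → S.K) w = 0 := by
      rw [Pi.add_apply, c2, Pi.single_eq_same]
      exact CharTwo.add_self_eq_zero _
    have hne : ∀ {ν : X → S.K} {Q : Finset Ω}, NZ S Q ν → ν w = 1 → ∀ u,
        (ν + Pi.single w 1 : X → S.K) u ≠ 0 → ∃ b ∈ Q, b ∈ S.car u := by
      intro ν Q hν hνw u hu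
      have huw : u ≠ w := by
        rintro rfl
        refine hu ?_
        rw [Pi.add_apply, hνw, Pi.single_eq_same]
        exact CharTwo.add_self_eq_zero _
      rw [Pi.add_apply, Pi.single_eq_of_ne huw, add_zero] at hu
      exact hν.exists_mem hu
    have h5 := bracket P hz hw (hH' j hj1).fam (ν := ν2 j + Pi.single w 1)
      (n := fun Q => ν3 Q (Z' j) + Pi.single w 1) hd hwM h4 e0 ?_ ?_ ?_ ?_
    · simp only [e1] at h5
      exact h5
    · intro u hu
      obtain ⟨b, hb, hbu⟩ := hne c1 c2 u hu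
      exact ⟨b, hZj hb, hbu⟩
    · intro Q hQ
      rw [Pi.add_apply, (hν3 Q (Z' j) hQ (act2 j hj1 hj2)).2.2.1, Pi.single_eq_same]
      exact CharTwo.add_self_eq_zero _
    · intro Q hQ u hu
      have k := hν3 Q (Z' j) hQ (act2 j hj1 hj2)
      exact hne k.1 k.2.2.1 u hu
    · intro Q hQ
      obtain ⟨k1, k2, k3, k4⟩ := hν3 Q (Z' j) hQ (act2 j hj1 hj2)
      rw [e1]
      have hle : (S.car w \ R).card ≤ 4 := by
        rw [← h4]
        exact Finset.card_le_card (Finset.sdiff_subset_sdiff hw (Finset.Subset.refl _))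
      refine kap hT (hz'.cs j hj1) (hH' j hj1)
        (gz_Gt hT P hz hw (Finset.mem_powersetCard.1 hQ).2) (c1.add k2) ?_ ?_ hd hj2 hle ?_ h7
      · rw [Pi.add_apply, c3, k4, add_zero]
      · rw [Pi.add_apply, c2, k3]
        exact CharTwo.add_self_eq_zero _
      · intro h8
        have h9 : S.car w \ R = W \ R := Finset.eq_of_subset_of_card_le
          (Finset.sdiff_subset_sdiff hw (Finset.Subset.refl _)) (by rw [h4]; exact h8.ge)
        rw [← h9] at hZj
        exact hZj.trans Finset.sdiff_subset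
  have f1 := Finset.sum_eq_zero b1
  have f2 := Finset.sum_eq_zero b2
  rw [Finset.sum_add_distrib] at f1 f2
  rw [Finset.sum_comm (s := I'.filter (fun j => Disjoint (Z' j) R))] at f2
  simp only [Finset.sum_add_distrib]
  linear_combination f1 + f2

end Pool.Agent.LH4
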