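import Pool.Agent.LH4.Zk4
import Pool.Agent.LH4.Zc2

/-!
# Every piece is decomposed into classes
-/

set_option autoImplicit false

open Finset

namespace Pool.Agent.LH4

open Pool.Agent.LocH

variable {X Ω : Type} [Fintype X] [DecidableEq X] [Fintype Ω] [DecidableEq Ω] {S : Sub X Ω}
  {W : Finset Ω} {w : X} {al s : S.T →ₗ[S.K] S.K} {g : S.T}

/-- The decomposition of a piece into classes, from the theorem on classes of cocycles. -/
theorem Pce.zd_cls (P : Pce S W w al s g) (hT : S.Top S.K) (hC : ClsP S) (hW : 7 ≤ W.card)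
    (hw : S.car w ⊆ W) :
    ∃ (ι : Type) (I : Finset ι) (Z : ι → Finset Ω) (V : ι → Finset X)
      (A : ι → S.T →ₗ[S.K] S.K) (h : S.T), Zd S W w al I Z V A h := by
  obtain ⟨k, hk⟩ : ∃ k, W.card = k + 4 := ⟨W.card - 4, by omega⟩
  exact P.zd_one hT hk hw fun Z hZ hZ3 => oneZ hT hC hk (by omega) hw hZ hZ3

end Pool.Agent.LH4
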