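import Pool.Agent.LH4.Dd5
import Pool.Agent.LH4.Zk5
import Pool.Agent.LH4.Ed8

/-!
# (D) of row 1250 in the form used by `Cm8`
-/

set_option autoImplicit false

open Finset

namespace Pool.Agent.LH4

open Pool.Agent.LocH

variable {X Ω : Type} [Fintype X] [DecidableEq X] [Fintype Ω] [DecidableEq Ω] {S : Sub X Ω}
  {W : Finset Ω}

theorem DD4_of (hT : S.Top S.K) (hC : ClsP S) (hW : 7 ≤ W.card) : DD4 S W := by
  intro w w' al s al' s' g g' hw hw' hww P P' M hd hf hwM hwM' h4 hq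
  obtain ⟨ι, I, Z, V, A, h, hz⟩ := P.zd_cls hT hC hW hw
  obtain ⟨ι', I', Z', V', A', h', hz'⟩ := P'.zd_cls hT hC hW hw'
  exact P.dd4 P' hT hz hz' hww hw hw' hW hd hf hwM hwM' h4 hq

end Pool.Agent.LH4
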