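import Pool.Agent.LH4.Gz

/-!
# Lifts along a colour, and the sum over the classes

`nu S w T`: the form `a (., b) / a (w, b)` for a chosen `b ∈ T`.  `ee_sum`: the value of `e_w` at `w M`
as a sum over the classes.
-/

set_option autoImplicit false

open Finset

namespace Pool.Agent.LH4

open Pool.Agent.LocH

variable {X Ω : Type} [Fintype X] [DecidableEq X] [Fintype Ω] [DecidableEq Ω] {S : Sub X Ω}
  {W : Finset Ω} {w : X}

/-! ### The form `nu` -/

/-- The form `a (., b) / a (w, b)` for a chosen `b ∈ T`. -/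
noncomputable def nu (S : Sub X Ω) (w : X) (T : Finset Ω) : X → S.K := by
  classical
  exact if hT : T.Nonempty then fun u => (S.a w hT.choose)⁻¹ * S.a u hT.choose else 0

omit [Fintype X] [Fintype Ω] in
theorem nu_eq {T : Finset Ω} (hT : T.Nonempty) :
    nu S w T = fun u => (S.a w hT.choose)⁻¹ * S.a u hT.choose := by
  unfold nu
  rw [dif_pos hT]

omit [Fintype X] [Fintype Ω] in
theorem nu_NZ {T Z' : Finset Ω} (hTZ : T ⊆ Z') : NZ S Z' (nu S w T) := by
  by_cases hT : T.Nonempty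
  · refine ⟨fun b => if b = hT.choose then (S.a w hT.choose)⁻¹ else 0, fun u => ?_⟩
    rw [nu_eq hT, Finset.sum_eq_single hT.choose]
    · beta_reduce
      rw [if_pos rfl]
    · intro b _ hb
      beta_reduce
      rw [if_neg hb, zero_mul]
    · intro h1
      exact absurd (hTZ hT.choose_spec) h1
  · refine ⟨fun _ => 0, fun u => ?_⟩
    unfold nu
    rw [dif_neg hT]
    exact (Finset.sum_eq_zero fun b _ => zero_mul _).symm

theorem nu_one {T : Finset Ω} (hT : T.Nonempty) (hw : T ⊆ S.car w) : nu S w T w = 1 := by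
  rw [nu_eq hT]
  exact inv_mul_cancel₀ (S.a_ne (hw hT.choose_spec))

theorem nu_mem {T : Finset Ω} {u : X} (h : nu S w T u ≠ 0) : ∃ b ∈ T, b ∈ S.car u := by
  by_cases hT : T.Nonempty
  · refine ⟨hT.choose, hT.choose_spec, ?_⟩
    by_contra h1
    rw [nu_eq hT] at h
    exact h (by beta_reduce; rw [S.a_zero h1, mul_zero])
  · unfold nu at h
    rw [dif_neg hT] at h
    exact absurd rfl h

omit [Fintype X] [Fintype Ω] in
theorem NZ.add_e {Z' : Finset Ω} {ν ν' : X → S.K} (h : NZ S Z' ν) (h' : NZ S Z' ν') :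
    NZ S Z' (ν + ν') := by
  obtain ⟨μ, hμ⟩ := h
  obtain ⟨μ', hμ'⟩ := h'
  refine ⟨μ + μ', fun u => ?_⟩
  rw [Pi.add_apply, hμ, hμ', ← Finset.sum_add_distrib]
  exact Finset.sum_congr rfl fun b _ => by rw [Pi.add_apply, add_mul]

theorem NZ.mem_e {Z' : Finset Ω} {ν : X → S.K} (h : NZ S Z' ν) {u : X} (hu : ν u ≠ 0) :
    ∃ b ∈ Z', b ∈ S.car u := by
  obtain ⟨μ, hμ⟩ := h
  rw [hμ] at hu
  obtain ⟨b, hb, hb0⟩ := Finset.exists_ne_zero_of_sum_ne_zero hu
  refine ⟨b, hb, ?_⟩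
  by_contra h1
  exact hb0 (by rw [S.a_zero h1, mul_zero])

/-! ### The lifts -/

omit [Fintype Ω] in
theorem Lf_add_e (ν ν' : X → S.K) (H : X → S.T) : Lf S (ν + ν') H = Lf S ν H + Lf S ν' H := by
  unfold Lf
  rw [← Finset.sum_add_distrib]
  exact Finset.sum_congr rfl fun u _ => by rw [Pi.add_apply, add_smul]

omit [Fintype Ω] in
theorem Lf_zero_e (H : X → S.T) : Lf S (0 : X → S.K) H = 0 := by
  unfold Lf
  exact Finset.sum_eq_zero fun u _ => by rw [Pi.zero_apply, zero_smul]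

omit [Fintype X] [Fintype Ω] in
theorem fun_two_zero_e (ν : X → S.K) : ν + ν = 0 := by
  funext u
  exact two_zero _

theorem mem_Lf_e {ν : X → S.K} {H : X → S.T} {N : X →₀ ℕ} (h : N ∈ (Lf S ν H).support) :
    ∃ u, ν u ≠ 0 ∧ ∃ n ∈ (H u).support, N = Finsupp.single u 1 + n := by
  unfold Lf at h
  obtain ⟨u, -, hu⟩ := Finset.mem_biUnion.1 (MvPolynomial.support_sum h)
  have h1 : ν u ≠ 0 := by
    intro h1
    rw [h1, zero_smul, MvPolynomial.support_zero] at hu
    exact absurd hu (Finset.notMem_empty _)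
  exact ⟨u, h1, mem_mul_X (MvPolynomial.support_smul hu)⟩

variable {V : Finset X} {A : S.T →ₗ[S.K] S.K} {H : X → S.T}

omit [Fintype Ω] in
theorem Lr.ne_e (hL : Lr S W w V A H) {u : X} {n : X →₀ ℕ} (hn : n ∈ (H u).support) :
    u ≠ w ∧ u ∉ V ∧ S.car u ⊆ W := by
  by_contra h1
  rw [hL.zero u h1, MvPolynomial.support_zero] at hn
  exact absurd hn (Finset.notMem_empty _)

/-- The monomials of a lift. -/
theorem Lr.mem_e (hL : Lr S W w V A H) {ν : X → S.K} {N : X →₀ ℕ}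
    (h : N ∈ (Lf S ν H).support) : ∃ u n, ν u ≠ 0 ∧ u ≠ w ∧ N = Finsupp.single u 1 + n ∧
      N.degree = 3 ∧ (N.support ∈ S.fcs W → W ⊆ S.cr N.support) := by
  obtain ⟨u, hu, n, hn, rfl⟩ := mem_Lf_e h
  obtain ⟨h1, h2, h3⟩ := hL.ne_e hn
  have h4 := hL.hon u h1 h2 h3
  refine ⟨u, n, hu, h1, rfl, ?_, fun hf => ?_⟩
  · rw [deg_single_add, deg_of_H h4.H hn]
  · have h5 : (Finsupp.single u 1 + n).support = n.support ∪ {u} := by
      rw [supp_single_add, Finset.insert_eq, Finset.union_comm]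
    rw [h5] at hf ⊢
    exact S.mem_JT.1 h4.JT n hn hf

theorem Lr.J3 (hL : Lr S W w V A H) (ν : X → S.K) : Lf S ν H ∈ S.J W W := by
  refine S.mem_J.2 fun N hN => ?_
  obtain ⟨-, -, -, -, -, -, h1⟩ := hL.mem_e hN
  exact h1

theorem Lr.H3 (hL : Lr S W w V A H) (ν : X → S.K) : Lf S ν H ∈ S.H 3 := by
  refine (MvPolynomial.mem_homogeneousSubmodule _ _).2 fun N hN => ?_
  obtain ⟨-, -, -, -, -, h1, -⟩ := hL.mem_e (MvPolynomial.mem_support_iff.2 hN)
  rw [← h1, Finsupp.degree_eq_weight_one]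
  rfl

/-! ### Sums over pairs -/

omit [Fintype X] [Fintype Ω] in
theorem sum_pairs_e {κ : Type} [DecidableEq κ] (J : Finset κ) (U : κ → κ → S.K)
    (h : ∀ i ∈ J, ∀ j ∈ J, U i j = U j i) :
    ∑ i ∈ J, ∑ j ∈ J, U i j = ∑ i ∈ J, U i i := by
  induction J using Finset.induction_on with
  | empty => simp
  | insert i0 J hi0 ih =>
    have h1 := ih fun i hi j hj => h i (Finset.mem_insert_of_mem hi) j (Finset.mem_insert_of_mem hj)
    have h2 : ∑ i ∈ J, ∑ j ∈ insert i0 J, U i j = ∑ i ∈ J, U i i0 + ∑ i ∈ J, ∑ j ∈ J, U i j := by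
      rw [← Finset.sum_add_distrib]
      exact Finset.sum_congr rfl fun i _ => Finset.sum_insert hi0
    rw [Finset.sum_insert hi0, Finset.sum_insert hi0, Finset.sum_insert hi0, h2, h1]
    have h3 : ∑ i ∈ J, U i i0 = ∑ j ∈ J, U i0 j :=
      Finset.sum_congr rfl fun i hi => h i (Finset.mem_insert_of_mem hi) i0
        (Finset.mem_insert_self _ _)
    rw [h3]
    have h4 : U i0 i0 + ∑ j ∈ J, U i0 j + (∑ j ∈ J, U i0 j + ∑ i ∈ J, U i i) =
        U i0 i0 + ∑ i ∈ J, U i i + (∑ j ∈ J, U i0 j + ∑ j ∈ J, U i0 j) := by ring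
    rw [h4, two_zero, add_zero]

theorem sqL_sum_e {κ : Type} [DecidableEq κ] (t : Finset κ) (A' : κ → S.T →ₗ[S.K] S.K) (y : S.T) :
    sqL S.a W (∑ i ∈ t, A' i) y = ∑ i ∈ t, sqL S.a W (A' i) y := by
  have := S.charP_K
  induction t using Finset.induction_on with
  | empty =>
    rw [Finset.sum_empty, Finset.sum_empty]
    refine form_zero fun s _ => ?_
    change mon (sqL S.a W 0) s = 0
    rw [sqL_mon]
    exact sq_zero S.a _ s
  | insert i t hi ih => rw [Finset.sum_insert hi, Finset.sum_insert hi, sqL_add, ih]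

end Pool.Agent.LH4
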