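import Pool.Agent.LH4.Ee4a

/-!
# The value of `e_w` at `w M` as a sum over the classes
-/

set_option autoImplicit false

open Finset

namespace Pool.Agent.LH4

open Pool.Agent.LocH

variable {X Ω : Type} [Fintype X] [DecidableEq X] [Fintype Ω] [DecidableEq Ω] {S : Sub X Ω}
  {W : Finset Ω} {w : X} {al s : S.T →ₗ[S.K] S.K} {g : S.T} {ι : Type} {I : Finset ι}
  {Z : ι → Finset Ω} {V : ι → Finset X} {A : ι → S.T →ₗ[S.K] S.K} {h : S.T}

/-- `B` represents the form `A (w .)` at the multiples of `M`. -/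
structure Rb (S : Sub X Ω) (W : Finset Ω) (w : X) (M : X →₀ ℕ) (A : S.T →ₗ[S.K] S.K)
    (B : S.T) : Prop where
  ok : Ok S W M.support (3 + M.degree) (B * S.mo M)
  eq : ∀ (k : ℕ) (y : S.T), Ok S W M.support k y → k + 3 = W.card →
    A (MvPolynomial.X w * y) = S.Tr W (B * y)
  sq : sqL S.a W A (S.lam W * S.mo (Finsupp.single w 1 + M)) = A (S.lam W * (B * S.mo M))

/-- The value of `e_w` at `w M` as a sum over the classes. -/
theorem ee_sum (hT : S.Top S.K) (P : Pce S W w al s g) (hz : Zd S W w al I Z V A h)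
    (hw : S.car w ⊆ W) {M : X →₀ ℕ} (hd : M.degree + 6 = W.card) {B : ι → S.T}
    (hB : ∀ i ∈ I, Rb S W w M (A i) (B i)) :
    ee S W al g (S.mo (Finsupp.single w 1 + M)) =
      ∑ i ∈ I, sz S W g I A h (B i * S.mo M) +
        (∑ i ∈ I, ∑ j ∈ I, A j (S.lam W * (B i * S.mo M)) +
          ∑ i ∈ I, A i (S.lam W * (B i * S.mo M))) := by
  classical
  have hne : Nonempty X := ⟨w⟩
  have hX : ∀ p : S.T, p * S.mo (Finsupp.single w 1 + M) = MvPolynomial.X w * (p * S.mo M) := by
    intro p
    rw [← X_mul_mo w M]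
    ring
  have hkh : Ok S W M.support (2 + M.degree) (h * S.mo M) := Ok.of_J hz.hJ hz.hH M
  have hkg : Ok S W M.support (3 + M.degree) (g * S.mo M) := Ok.of_J P.gJ P.gH M
  -- the square functional
  have e1 : sqL S.a W al (S.lam W * S.mo (Finsupp.single w 1 + M)) =
      ∑ i ∈ I, A i (S.lam W * (B i * S.mo M)) +
        S.Tr W (h * (S.lam W * (MvPolynomial.X w * (h * S.mo M)))) := by
    have h1 : sqL S.a W al (S.lam W * S.mo (Finsupp.single w 1 + M)) =
        sqL S.a W (∑ i ∈ I, A i + ml (S.Tr W) h)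
          (S.lam W * S.mo (Finsupp.single w 1 + M)) := by
      refine sqL_congr fun t ht N hN => ?_
      obtain ⟨u, -, rfl⟩ := mem_lam_mo ht
      have h2 := hN.degree_eq
      rw [deg_single_add, deg_single_add] at h2
      rw [LinearMap.add_apply, LinearMap.sum_apply, ml_apply]
      by_cases hf : N.support ∈ S.fcs W
      · exact hz.tot N (by omega) (fun _ => hN.subset_cr) (hN.not_Ty hf Finset.sdiff_subset)
      · rw [P.face N (by omega) hf, S.Tr_I (S.mul_I (mo_I hf) h), add_zero]
        exact (Finset.sum_eq_zero fun i hi => (hz.cs i hi).nf N (by omega) hf).symm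
    have h2 : sqL S.a W (ml (S.Tr W) h) (S.lam W * S.mo (Finsupp.single w 1 + M)) =
        S.Tr W (h ^ 2 * (S.lam W * S.mo (Finsupp.single w 1 + M))) := by
      refine sqL_lam_tr hT (k := 2) ?_ hz.hH (by rw [deg_single_add]; omega)
        fun N _ _ _ => rfl
      rw [S.mem_JT]
      intro m hm hf
      exact (S.mem_J.1 hz.hJ m hm (face_mono Finset.subset_union_left hf)).trans
        (cr_mono Finset.subset_union_left)
    have h3 : h ^ 2 * (S.lam W * S.mo (Finsupp.single w 1 + M)) =
        h * (S.lam W * (MvPolynomial.X w * (h * S.mo M))) := by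
      rw [← X_mul_mo w M]
      ring
    rw [h1, sqL_add, sqL_sum_e, h2, h3, Finset.sum_congr rfl fun i hi => (hB i hi).sq]
  -- the form al
  have e2 : al (g * S.mo (Finsupp.single w 1 + M)) =
      ∑ i ∈ I, A i (g * S.mo (Finsupp.single w 1 + M)) +
        S.Tr W (h * (g * S.mo (Finsupp.single w 1 + M))) := by
    refine Zd.al_eq P hz fun N hN => ?_
    obtain ⟨n, hn, h1⟩ := mem_mul_mo hN
    have h2 : n.support ⊆ N.support := by
      rw [h1, supp_add_sup]
      exact Finset.subset_union_left
    refine ⟨?_, fun hf => ⟨?_, not_ty_J P.gJ hN hf⟩⟩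
    · rw [h1, map_add, deg_of_H P.gH hn, deg_single_add]
      omega
    · exact (S.mem_J.1 P.gJ n hn (face_mono h2 hf)).trans (cr_mono h2)
  have e3 : ∀ i ∈ I, A i (g * S.mo (Finsupp.single w 1 + M)) =
      sz S W g I A h (B i * S.mo M) + ∑ j ∈ I, A j (S.lam W * (B i * S.mo M)) +
        S.Tr W (h * (S.lam W * (B i * S.mo M))) := by
    intro i hi
    have h1 : B i * (g * S.mo M) = g * (B i * S.mo M) := by ring
    rw [hX, (hB i hi).eq _ _ hkg (by omega), h1, sz_apply]
    have h2 : ∀ a b c : S.K, a = a + b + c + b + c := by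
      intro a b c
      have h3 : a + b + c + b + c = a + (b + b) + (c + c) := by ring
      rw [h3, two_zero, two_zero, add_zero, add_zero]
    exact h2 _ _ _
  have e4 : S.Tr W (h * (g * S.mo (Finsupp.single w 1 + M))) =
      ∑ i ∈ I, S.Tr W (h * (S.lam W * (B i * S.mo M))) +
        S.Tr W (h * (S.lam W * (MvPolynomial.X w * (h * S.mo M)))) := by
    have h1 : h * (g * S.mo (Finsupp.single w 1 + M)) =
        g * (MvPolynomial.X w * (h * S.mo M)) := by
      rw [← X_mul_mo w M]
      ring
    have h2 : sz S W g I A h (MvPolynomial.X w * (h * S.mo M)) = 0 := by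
      refine form_zero fun N hN => ?_
      have h3 : N ∈ (h * S.mo (Finsupp.single w 1 + M)).support := by
        rwa [hX]
      have h4 := hkh.mul_X w N hN
      by_cases hf : N.support ∈ S.fcs W
      · exact sz_zero P hz hw (by omega) h4.2.2 (not_ty_J hz.hJ h3 hf)
      · exact sz_face hz (by omega) hf
    have h3 : ∀ i ∈ I, A i (S.lam W * (MvPolynomial.X w * (h * S.mo M))) =
        S.Tr W (h * (S.lam W * (B i * S.mo M))) := by
      intro i hi
      have h4 : S.lam W * (MvPolynomial.X w * (h * S.mo M)) =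
          MvPolynomial.X w * (S.lam W * (h * S.mo M)) := by ring
      have h5 : B i * (S.lam W * (h * S.mo M)) = h * (S.lam W * (B i * S.mo M)) := by ring
      rw [h4, (hB i hi).eq _ _ hkh.mul_lam (by omega), h5]
    have h4 := sz_apply (S := S) (W := W) (g := g) (I := I) (A := A) (h := h)
      (MvPolynomial.X w * (h * S.mo M))
    rw [h2, Finset.sum_congr rfl h3, add_assoc] at h4
    rw [h1]
    exact eq_of_add_zero h4.symm
  rw [ee_apply, e1, e2, e4, Finset.sum_congr rfl e3, Finset.sum_add_distrib,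
    Finset.sum_add_distrib]
  have h2 : ∀ a b c d e : S.K, a + e + (b + c + d + (d + e)) = b + (c + a) := by
    intro a b c d e
    have h3 : a + e + (b + c + d + (d + e)) = b + (c + a) + (d + d) + (e + e) := by ring
    rw [h3, two_zero, two_zero, add_zero, add_zero]
  exact h2 _ _ _ _ _

end Pool.Agent.LH4
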