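import Pool.Agent.LH4.Ee4b
import Pool.Agent.LH4.Kap

/-!
# The value of `e_w` at `w M` is zero if `w` has exactly four private colours
-/

set_option autoImplicit false

open Finset

namespace Pool.Agent.LH4

open Pool.Agent.LocH

variable {X Ω : Type} [Fintype X] [DecidableEq X] [Fintype Ω] [DecidableEq Ω] {S : Sub X Ω}
  {W : Finset Ω} {w : X} {al s : S.T →ₗ[S.K] S.K} {g : S.T} {ι : Type} {I : Finset ι}
  {Z : ι → Finset Ω} {V : ι → Finset X} {A : ι → S.T →ₗ[S.K] S.K} {h : S.T}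

/-- Two classes and a common lift. -/
theorem lr_comm {Z1 Z2 : Finset Ω} {V1 V2 : Finset X} {A1 A2 : S.T →ₗ[S.K] S.K}
    {H1 H2 : X → S.T} (hC1 : Cs S W w Z1 V1 A1) (hC2 : Cs S W w Z2 V2 A2)
    (hL1 : Lr S W w V1 A1 H1) (hL2 : Lr S W w V2 A2 H2) {ν : X → S.K}
    (hν : ∀ u, ν u ≠ 0 → ∃ b ∈ Z1 ∩ Z2, b ∈ S.car u) {M : X →₀ ℕ}
    (hd : M.degree + 6 = W.card) :
    A2 (S.lam W * (Lf S ν H1 * S.mo M)) = A1 (S.lam W * (Lf S ν H2 * S.mo M)) := by
  have h0 : ∀ H : X → S.T, S.lam W * (Lf S ν H * S.mo M) = Lf S ν H * (S.lam W * S.mo M) :=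
    fun H => by ring
  rw [h0, h0, Lf_apply, Lf_apply]
  refine Finset.sum_congr rfl fun u _ => ?_
  by_cases hu : ν u = 0
  · rw [hu, zero_mul, zero_mul]
  congr 1
  obtain ⟨b, hb, hbu⟩ := hν u hu
  obtain ⟨hb1, hb2⟩ := Finset.mem_inter.1 hb
  have n1 : u ∉ V1 := fun h1 => Finset.disjoint_left.1 (hC1.VZ u h1) hbu hb1
  have n2 : u ∉ V2 := fun h1 => Finset.disjoint_left.1 (hC2.VZ u h1) hbu hb2
  by_cases hu2 : u ≠ w ∧ S.car u ⊆ W
  swap
  · rw [hL1.zero u fun h1 => hu2 ⟨h1.1, h1.2.2⟩, hL2.zero u fun h1 => hu2 ⟨h1.1, h1.2.2⟩,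
      mul_zero, zero_mul, map_zero, map_zero]
  have k1 := hL1.hon u hu2.1 n1 hu2.2
  have k2 := hL2.hon u hu2.1 n2 hu2.2
  have key : ∀ H : S.T, H ∈ S.JT {u} W W → H ∈ S.H 2 →
      Ok S W {u} (W.card - 2) (S.lam W * (MvPolynomial.X u * H * S.mo M)) := by
    intro H hH1 hH2
    have h1 : MvPolynomial.X u * H * S.mo M = S.mo M * (MvPolynomial.X u * H) := by ring
    rw [h1]
    have h2 := ((Ok.X_JT hH1 hH2).mul_H (mo_H M)).mul_lam
    have h3 : M.degree + (2 + 1) + 1 = W.card - 2 := by omega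
    rwa [h3] at h2
  have e1 : MvPolynomial.X u * H1 u * (S.lam W * S.mo M) =
      S.lam W * (MvPolynomial.X u * H1 u * S.mo M) := by ring
  have e2 : MvPolynomial.X u * H2 u * (S.lam W * S.mo M) =
      S.lam W * (MvPolynomial.X u * H2 u * S.mo M) := by ring
  rw [e1, e2, k2.eq _ _ (key _ k1.JT k1.H) (by omega), k1.eq _ _ (key _ k2.JT k2.H) (by omega)]
  congr 1
  ring

/-- The sum of the parts of `s'` over the triples of private colours. -/
theorem tz_sum (P : Pce S W w al s g) (hz : Zd S W w al I Z V A h) (hw : S.car w ⊆ W)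
    {M : X →₀ ℕ} (hd : M.degree + 6 = W.card) (h4 : (S.car w \ S.cr M.support).card = 4)
    (hwM : w ∉ M.support) {i : ι} {H : X → S.T} (hL : Lr S W w (V i) (A i) H) {ν : X → S.K}
    (hν : ∀ u, ν u ≠ 0 → ∃ b ∈ S.car w \ S.cr M.support, b ∈ S.car u) :
    ∑ Z' ∈ (S.car w \ S.cr M.support).powersetCard 3, tz S W w g I A h Z' (Lf S ν H * S.mo M) =
      sz S W g I A h (Lf S ν H * S.mo M) := by
  rw [← LinearMap.sum_apply]
  refine form_eq fun N' hN => ?_
  rw [LinearMap.sum_apply]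
  simp only [tz_mo]
  obtain ⟨n', hn', rfl⟩ := mem_mul_mo hN
  obtain ⟨u, n, hu, huw, rfl, h1, h2⟩ := hL.mem_e hn'
  set N := Finsupp.single u 1 + n + M with hNd
  have hsub : (Finsupp.single u 1 + n : X →₀ ℕ).support ⊆ N.support := by
    rw [hNd, supp_add_sup (a := Finsupp.single u 1 + n) (b := M)]
    exact Finset.subset_union_left
  have hMs : M.support ⊆ N.support.erase w := by
    intro v hv
    refine Finset.mem_erase.2 ⟨fun h3 => hwM (h3 ▸ hv), ?_⟩
    rw [hNd, supp_add_sup]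
    exact Finset.mem_union_right _ hv
  have huN : u ∈ N.support.erase w := by
    refine Finset.mem_erase.2 ⟨huw, hsub ?_⟩
    rw [supp_single_add]
    exact Finset.mem_insert_self _ _
  obtain ⟨b, hb, hbu⟩ := hν u hu
  have hpz : pz S w N ⊆ (S.car w \ S.cr M.support).erase b := by
    intro c hc
    obtain ⟨hc1, hc2⟩ := Finset.mem_sdiff.1 hc
    refine Finset.mem_erase.2 ⟨fun h3 => hc2 ?_, Finset.mem_sdiff.2 ⟨hc1, fun h3 => hc2 ?_⟩⟩
    · rw [h3]
      exact Finset.mem_biUnion.2 ⟨u, huN, hbu⟩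
    · exact cr_mono hMs h3
  have hcard := Finset.card_le_card hpz
  rw [Finset.card_erase_of_mem hb, h4] at hcard
  by_cases h5 : N w = 1 ∧ pz S w N ∈ (S.car w \ S.cr M.support).powersetCard 3
  · rw [Finset.sum_eq_single (pz S w N)]
    · rw [if_pos ⟨h5.1, rfl⟩]
    · intro Z' _ hZ'
      rw [if_neg fun h6 => hZ' h6.2.symm]
    · exact fun h6 => absurd h5.2 h6
  · have h6 : sz S W g I A h (S.mo N) = 0 := by
      have hdN : N.degree + 3 = W.card := by
        rw [hNd, map_add, h1]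
        omega
      refine sz_zero P hz hw hdN (fun hf => (h2 (face_mono hsub hf)).trans (cr_mono hsub))
        fun ht => h5 ⟨ht.one_z, ?_⟩
      have h7 := (ty_pz ht.one_z).1 ht
      rw [Finset.sdiff_empty] at h7
      rw [Finset.mem_powersetCard]
      exact ⟨hpz.trans (Finset.erase_subset _ _), by omega⟩
    rw [h6]
    refine Finset.sum_eq_zero fun Z' _ => ?_
    split_ifs <;> rfl

/-- A part of `s'` does not see a lift along one of its colours. -/
theorem tz_lift {M : X →₀ ℕ} {i : ι} {H : X → S.T} (hL : Lr S W w (V i) (A i) H) {ν : X → S.K}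
    {Z' : Finset Ω} (hν : ∀ u, ν u ≠ 0 → ∃ b ∈ Z', b ∈ S.car u) :
    tz S W w g I A h Z' (Lf S ν H * S.mo M) = 0 := by
  refine form_zero fun N hN => ?_
  rw [tz_mo]
  refine if_neg fun h5 => ?_
  obtain ⟨n', hn', rfl⟩ := mem_mul_mo hN
  obtain ⟨u, n, hu, huw, rfl, -, -⟩ := hL.mem_e hn'
  obtain ⟨b, hb, hbu⟩ := hν u hu
  rw [← h5.2] at hb
  refine (Finset.mem_sdiff.1 hb).2 (Finset.mem_biUnion.2 ⟨u, Finset.mem_erase.2 ⟨huw, ?_⟩, hbu⟩)
  rw [supp_add_sup, supp_single_add]
  exact Finset.mem_union_left _ (Finset.mem_insert_self _ _)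

/-- The local representative at `M` of a class with a missing colour covered by `M`. -/
theorem Cs.honM (hT : S.Top S.K) {Z' : Finset Ω} {V' : Finset X} {A' : S.T →ₗ[S.K] S.K}
    (hC : Cs S W w Z' V' A') {M : X →₀ ℕ} (hd : M.degree + 6 = W.card) (hwM : w ∉ M.support)
    (hZ : ¬ Z' ⊆ S.car w \ S.cr M.support) : ∃ k, Hon S W 2 A' M.support k := by
  have hcs := supp_card_le_deg M
  refine kap_ld hT (by omega) hC.nf fun c hc N hN hMN _ hcov => ?_
  by_contra hcon
  obtain ⟨-, -, h1⟩ := hC.th c hc N (by omega) hcov hcon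
  refine hZ fun b hb => Finset.mem_sdiff.2 ⟨hC.Zs hb, fun hbM => ?_⟩
  obtain ⟨v, hv, hbv⟩ := Finset.mem_biUnion.1 hbM
  have h2 : v ∈ V' := h1 (Finset.mem_erase.2 ⟨fun h3 => hwM (h3 ▸ hv), hMN hv⟩)
  exact Finset.disjoint_left.1 (hC.VZ v h2) hbv hb

/-- The lift of a class which is represented at `M`. -/
theorem Hon.rb (hT : S.Top S.K) {A' : S.T →ₗ[S.K] S.K} {M : X →₀ ℕ} {k : S.T}
    (hk : Hon S W 2 A' M.support k) (hd : M.degree + 6 = W.card) :
    Rb S W w M A' (MvPolynomial.X w * k) := by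
  have hne : Nonempty X := ⟨w⟩
  have h1 : Ok S W M.support (2 + M.degree) (k * S.mo M) := Ok.of_JT hk.JT hk.H rfl
  have h2 : MvPolynomial.X w * k * S.mo M = MvPolynomial.X w * (k * S.mo M) := by ring
  refine ⟨?_, fun j y hy hj => ?_, ?_⟩
  · rw [h2]
    have h3 := h1.mul_X w
    have h4 : 2 + M.degree + 1 = 3 + M.degree := by ring
    rwa [h4] at h3
  · have h3 : MvPolynomial.X w * k * y = k * (MvPolynomial.X w * y) := by ring
    rw [h3]
    exact hk.eq _ _ (hy.mul_X w) (by omega)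
  · have h3 : (Finsupp.single w 1 + M).support ∪ M.support = (Finsupp.single w 1 + M).support := by
      rw [supp_single_add]
      exact Finset.union_eq_left.2 (Finset.subset_insert _ _)
    have h4 : k ∈ S.JT (Finsupp.single w 1 + M).support W W := by
      rw [S.mem_JT]
      intro m hm hf
      have h5 : m.support ∪ M.support ⊆ m.support ∪ (Finsupp.single w 1 + M).support := by
        refine Finset.union_subset_union (Finset.Subset.refl _) ?_
        rw [supp_single_add]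
        exact Finset.subset_insert _ _
      exact (S.mem_JT.1 hk.JT m hm (face_mono h5 hf)).trans (cr_mono h5)
    rw [sqL_lam_tr hT h4 hk.H (by rw [deg_single_add]; omega)]
    · have h5 : k ^ 2 * (S.lam W * S.mo (Finsupp.single w 1 + M)) =
          k * (S.lam W * (MvPolynomial.X w * k * S.mo M)) := by
        rw [← X_mul_mo w M]
        ring
      rw [h5, h2]
      exact (hk.eq _ _ (h1.mul_X w).mul_lam (by omega)).symm
    · intro N hN hs hc
      refine hk.eq _ _ (ok_mo ((Finset.Subset.trans ?_ hs)) fun _ => hc) hN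
      rw [supp_single_add]
      exact Finset.subset_insert _ _

/-- `e_w (w M) = 0` if `w` has exactly four private colours, from the lift rules. -/
theorem ee4_core (hT : S.Top S.K) (P : Pce S W w al s g) (hz : Zd S W w al I Z V A h)
    (hW : 7 ≤ W.card) (hw : S.car w ⊆ W) {M : X →₀ ℕ} (hd : M.degree + 6 = W.card)
    (h4 : (S.car w \ S.cr M.support).card = 4)
    (hlr : ∀ i ∈ I, ∃ H, Lr S W w (V i) (A i) H)
    (hrb : ∀ i ∈ I, ∀ H, Lr S W w (V i) (A i) H → ∀ ν, NZ S (Z i) ν → ν w = 1 →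
      Rb S W w M (A i) (Lf S ν H)) :
    ee S W al g (S.mo (Finsupp.single w 1 + M)) = 0 := by
  classical
  set Q := S.car w \ S.cr M.support with hQ
  have hwM : w ∉ M.support := by
    intro h1
    have h2 : Q = ∅ := by
      rw [hQ, Finset.sdiff_eq_empty_iff_subset]
      exact Finset.subset_biUnion_of_mem S.car h1
    rw [h2, Finset.card_empty] at h4
    omega
  choose! H hH using hlr
  have hhon : ∀ i ∈ I, ¬ Z i ⊆ Q → ∃ k, Hon S W 2 (A i) M.support k :=
    fun i hi h1 => (hz.cs i hi).honM hT hd hwM h1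
  choose! k hk using hhon
  set δ : Finset Ω → Finset Ω → X → S.K := fun Z1 Z2 => nu S w (Z1 ∩ Z1) + nu S w (Z1 ∩ Z2)
    with hδ
  set B : ι → S.T := fun i => if Z i ⊆ Q then Lf S (nu S w (Z i ∩ Z i)) (H i)
    else MvPolynomial.X w * k i with hBd
  have hBa : ∀ i, Z i ⊆ Q → B i = Lf S (nu S w (Z i ∩ Z i)) (H i) := fun i h1 => if_pos h1
  have hBn : ∀ i, ¬ Z i ⊆ Q → B i = MvPolynomial.X w * k i := fun i h1 => if_neg h1
  have hcar : ∀ i ∈ I, Z i ⊆ S.car w := fun i hi => (hz.cs i hi).Zs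
  have hne : ∀ i ∈ I, (Z i ∩ Z i).Nonempty := by
    intro i hi
    rw [Finset.inter_self, ← Finset.card_pos, (hz.cs i hi).Zc]
    omega
  have hinter : ∀ i ∈ I, Z i ⊆ Q → ∀ Z', Z' ⊆ Q → Z'.card = 3 → (Z i ∩ Z').Nonempty := by
    intro i hi h1 Z' h2 h3
    rw [← Finset.card_pos]
    have h5 := Finset.card_union_add_card_inter (Z i) Z'
    have h6 := Finset.card_le_card (Finset.union_subset h1 h2)
    have h7 := (hz.cs i hi).Zc
    omega
  have hB : ∀ i ∈ I, Rb S W w M (A i) (B i) := by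
    intro i hi
    by_cases h1 : Z i ⊆ Q
    · rw [hBa i h1]
      refine hrb i hi _ (hH i hi) _ (nu_NZ Finset.inter_subset_left) (nu_one (hne i hi) ?_)
      exact Finset.inter_subset_left.trans (hcar i hi)
    · rw [hBn i h1]
      exact (hk i hi h1).rb hT hd
  rw [ee_sum hT P hz hw hd hB]
  -- the corrections
  set D : ι → ι → S.K := fun i j => if Z i ⊆ Q ∧ Z j ⊆ Q then
    A j (S.lam W * (Lf S (δ (Z i) (Z j)) (H i) * S.mo M)) else 0 with hD
  set T : ι → ι → S.K := fun i j => A j (S.lam W * (B i * S.mo M)) with hTd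
  have hact : ∀ i ∈ I, ∀ j, Z i ⊆ Q → Z j ⊆ Q →
      T i j + D i j = A j (S.lam W * (Lf S (nu S w (Z i ∩ Z j)) (H i) * S.mo M)) := by
    intro i _ j h1 h2
    have h3 : D i j = A j (S.lam W * (Lf S (δ (Z i) (Z j)) (H i) * S.mo M)) := if_pos ⟨h1, h2⟩
    have h5 : T i j = A j (S.lam W * (Lf S (nu S w (Z i ∩ Z i)) (H i) * S.mo M)) := by
      rw [← hBa i h1]
    have h6 : S.lam W * (Lf S (δ (Z i) (Z j)) (H i) * S.mo M) =
        S.lam W * (Lf S (nu S w (Z i ∩ Z i)) (H i) * S.mo M) +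
          S.lam W * (Lf S (nu S w (Z i ∩ Z j)) (H i) * S.mo M) := by
      rw [hδ]
      beta_reduce
      rw [Lf_add_e]
      ring
    rw [h3, h5, h6, map_add, ← add_assoc, two_zero, zero_add]
  have hina : ∀ i ∈ I, ∀ j ∈ I, ¬ Z i ⊆ Q → T i j = T j i := by
    intro i hi j hj h1
    have h2 := hk i hi h1
    have h3 : Ok S W M.support (2 + M.degree) (k i * S.mo M) := Ok.of_JT h2.JT h2.H rfl
    have h5 : S.lam W * (B i * S.mo M) = MvPolynomial.X w * (S.lam W * (k i * S.mo M)) := by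
      rw [hBn i h1]
      ring
    have h6 : B j * (S.lam W * (k i * S.mo M)) = k i * (S.lam W * (B j * S.mo M)) := by ring
    change A j (S.lam W * (B i * S.mo M)) = A i (S.lam W * (B j * S.mo M))
    rw [h5, (hB j hj).eq _ _ h3.mul_lam (by omega), h6,
      h2.eq _ _ (hB j hj).ok.mul_lam (by omega)]
  have hD0 : ∀ i j, ¬ (Z i ⊆ Q ∧ Z j ⊆ Q) → D i j = 0 := fun i j h1 => if_neg h1
  have hsym : ∀ i ∈ I, ∀ j ∈ I, T i j + D i j = T j i + D j i := by
    intro i hi j hj
    by_cases h1 : Z i ⊆ Q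
    · by_cases h2 : Z j ⊆ Q
      · rw [hact i hi j h1 h2, hact j hj i h2 h1, Finset.inter_comm (Z j) (Z i)]
        exact lr_comm (hz.cs i hi) (hz.cs j hj) (hH i hi) (hH j hj) (fun u hu => nu_mem hu) hd
      · rw [hD0 i j fun h3 => h2 h3.2, hD0 j i fun h3 => h2 h3.1, add_zero, add_zero]
        exact (hina j hj i hi h2).symm
    · rw [hD0 i j fun h3 => h1 h3.1, hD0 j i fun h3 => h1 h3.2, add_zero, add_zero]
      exact hina i hi j hj h1
  have hDd : ∀ i, D i i = 0 := by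
    intro i
    by_cases h1 : Z i ⊆ Q
    · have h2 : D i i = A i (S.lam W * (Lf S (δ (Z i) (Z i)) (H i) * S.mo M)) :=
        if_pos ⟨h1, h1⟩
      have h3 : δ (Z i) (Z i) = 0 := fun_two_zero_e _
      rw [h2, h3, Lf_zero_e, zero_mul, mul_zero, map_zero]
    · exact hD0 i i fun h3 => h1 h3.1
  have hsum : ∑ i ∈ I, ∑ j ∈ I, T i j + ∑ i ∈ I, T i i = ∑ i ∈ I, ∑ j ∈ I, D i j := by
    have h1 := sum_pairs_e I (fun i j => T i j + D i j) hsym
    have h2 : ∑ i ∈ I, ∑ j ∈ I, (T i j + D i j) =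
        ∑ i ∈ I, ∑ j ∈ I, T i j + ∑ i ∈ I, ∑ j ∈ I, D i j := by
      rw [← Finset.sum_add_distrib]
      exact Finset.sum_congr rfl fun i _ => Finset.sum_add_distrib
    have h3 : ∑ i ∈ I, (T i i + D i i) = ∑ i ∈ I, T i i :=
      Finset.sum_congr rfl fun i _ => by rw [hDd, add_zero]
    rw [h2, h3] at h1
    rw [← h1, add_comm (∑ i ∈ I, ∑ j ∈ I, T i j) (∑ i ∈ I, ∑ j ∈ I, D i j), ← add_assoc,
      add_comm (∑ i ∈ I, ∑ j ∈ I, T i j), add_assoc, two_zero, add_zero]
  change ∑ i ∈ I, sz S W g I A h (B i * S.mo M) +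
    (∑ i ∈ I, ∑ j ∈ I, T i j + ∑ i ∈ I, T i i) = 0
  rw [hsum, ← Finset.sum_add_distrib]
  refine Finset.sum_eq_zero fun i hi => ?_
  by_cases h1 : Z i ⊆ Q
  swap
  · -- an inactive class
    rw [Finset.sum_eq_zero fun j _ => hD0 i j fun h3 => h1 h3.1, add_zero, hBn i h1]
    have h2 := hk i hi h1
    have h3 : Ok S W M.support (2 + M.degree) (k i * S.mo M) := Ok.of_JT h2.JT h2.H rfl
    have h5 : MvPolynomial.X w * k i * S.mo M = MvPolynomial.X w * (k i * S.mo M) := by ring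
    rw [h5]
    refine form_zero fun N hN => ?_
    obtain ⟨n, hn, rfl⟩ := mem_mul_X hN
    obtain ⟨h6, -, h7⟩ := h3 n hn
    have hns : n.support ⊆ (Finsupp.single w 1 + n).support := by
      rw [supp_single_add]
      exact Finset.subset_insert _ _
    by_cases hf : (Finsupp.single w 1 + n).support ∈ S.fcs W
    · refine sz_zero P hz hw (by rw [deg_single_add]; omega) (fun _ =>
        (h7 (face_mono hns hf)).trans (cr_mono hns)) (not_ty_single ?_)
      exact (hw.trans (h7 (face_mono hns hf))).trans Finset.subset_union_left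
    · exact sz_face hz (by rw [deg_single_add]; omega) hf
  · -- an active class
    have hsplit : ∀ Z' ∈ Q.powersetCard 3,
        gz S W w g I Z A h Z' (Lf S (δ (Z i) Z') (H i) * S.mo M) = 0 := by
      intro Z' hZ'
      obtain ⟨hZ1, hZ2⟩ := Finset.mem_powersetCard.1 hZ'
      have h2 := hinter i hi h1 Z' hZ1 hZ2
      have h3 : δ (Z i) Z' w = 0 := by
        rw [hδ]
        beta_reduce
        rw [Pi.add_apply, nu_one (hne i hi) (Finset.inter_subset_left.trans (hcar i hi)),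
          nu_one h2 (Finset.inter_subset_left.trans (hcar i hi))]
        exact two_zero _
      refine kap hT (hz.cs i hi) (hH i hi) (gz_Gt hT P hz hw hZ2)
        ((nu_NZ Finset.inter_subset_left).add_e (nu_NZ Finset.inter_subset_left)) h3 h3 hd ?_
        (by rw [h4]) (fun _ => hcar i hi) hW
      exact Finset.disjoint_left.2 fun b hb => (Finset.mem_sdiff.1 (h1 hb)).2
    have e1 : ∑ Z' ∈ Q.powersetCard 3, gz S W w g I Z A h Z'
        (Lf S (δ (Z i) Z') (H i) * S.mo M) = 0 := Finset.sum_eq_zero hsplit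
    rw [← e1]
    have e2 : ∀ Z' ∈ Q.powersetCard 3, gz S W w g I Z A h Z'
        (Lf S (δ (Z i) Z') (H i) * S.mo M) =
        tz S W w g I A h Z' (Lf S (nu S w (Z i ∩ Z i)) (H i) * S.mo M) +
          ∑ j ∈ (I.filter fun j => Z j ⊆ Q).filter (fun j => Z j = Z'), D i j := by
      intro Z' hZ'
      obtain ⟨hZ1, hZ2⟩ := Finset.mem_powersetCard.1 hZ'
      rw [gz_apply]
      congr 1
      · have h2 : Lf S (δ (Z i) Z') (H i) * S.mo M =
            Lf S (nu S w (Z i ∩ Z i)) (H i) * S.mo M +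
              Lf S (nu S w (Z i ∩ Z')) (H i) * S.mo M := by
          rw [hδ]
          beta_reduce
          rw [Lf_add_e]
          ring
        rw [h2, map_add, tz_lift (hH i hi) (ν := nu S w (Z i ∩ Z')), add_zero]
        intro u hu
        obtain ⟨b, hb, hbu⟩ := nu_mem hu
        exact ⟨b, (Finset.mem_inter.1 hb).2, hbu⟩
      · rw [Finset.filter_filter]
        refine Finset.sum_congr ?_ fun j hj => ?_
        · ext j
          rw [Finset.mem_filter, Finset.mem_filter]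
          constructor
          · rintro ⟨h2, h3⟩
            exact ⟨h2, by rw [h3]; exact hZ1, h3⟩
          · rintro ⟨h2, -, h3⟩
            exact ⟨h2, h3⟩
        · obtain ⟨-, h2, h3⟩ := Finset.mem_filter.1 hj
          have h5 : D i j = A j (S.lam W * (Lf S (δ (Z i) (Z j)) (H i) * S.mo M)) :=
            if_pos ⟨h1, h2⟩
          rw [h5, h3]
    rw [Finset.sum_congr rfl e2, Finset.sum_add_distrib,
      tz_sum P hz hw hd h4 hwM (hH i hi) (ν := nu S w (Z i ∩ Z i))]
    swap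
    · intro u hu
      obtain ⟨b, hb, hbu⟩ := nu_mem hu
      exact ⟨b, h1 (Finset.mem_inter.1 hb).1, hbu⟩
    rw [hBa i h1]
    congr 1
    rw [Finset.sum_fiberwise_of_maps_to (fun j hj => ?_), Finset.sum_filter]
    · refine Finset.sum_congr rfl fun j _ => ?_
      split_ifs with h2
      · rfl
      · exact hD0 i j fun h3 => h2 h3.2
    · obtain ⟨h2, h3⟩ := Finset.mem_filter.1 hj
      exact Finset.mem_powersetCard.2 ⟨h3, (hz.cs j h2).Zc⟩

end Pool.Agent.LH4
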