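import Pool.Agent.LH4.Kap
import Pool.Agent.LH4.Ed

/-!
# Local representatives of a class and the lift rules (P4 of row 1265)
-/

set_option autoImplicit false

open Finset

namespace Pool.Agent.LH4

open Pool.Agent.LocH

variable {X Ω : Type} [Fintype X] [DecidableEq X] [Fintype Ω] [DecidableEq Ω] {S : Sub X Ω}
  {W : Finset Ω}

/-- Local duality for a form which kills the relations at the multiples of `τ`. -/
theorem ldG (hT : S.Top S.K) {k : ℕ} {A : S.T →ₗ[S.K] S.K} {τ : Finset X}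
    (hc : τ.card + k ≤ W.card)
    (hnf : ∀ M : X →₀ ℕ, M.degree + k = W.card → M.support ∉ S.fcs W → A (S.mo M) = 0)
    (hth : ∀ c ∈ W, ∀ M : X →₀ ℕ, M.degree + k + 1 = W.card → τ ⊆ M.support →
      M.support ∈ S.fcs W → W.erase c ⊆ S.cr M.support → A (S.th c * S.mo M) = 0) :
    ∃ h, Hon S W k A τ h :=
  kap_ld hT hc hnf hth

theorem JT_mono {τ τ' : Finset X} (h : τ ⊆ τ') {y : S.T} (hy : y ∈ S.JT τ W W) :
    y ∈ S.JT τ' W W := by
  rw [S.mem_JT] at hy ⊢
  intro m hm hf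
  have h1 : m.support ∪ τ ⊆ m.support ∪ τ' := Finset.union_subset_union_right h
  exact (hy m hm (face_mono h1 hf)).trans (cr_mono h1)

section Cls

variable {w : X} {Z : Finset Ω} {V : Finset X} {A : S.T →ₗ[S.K] S.K} {H : X → S.T}

/-- Local representatives of a class. -/
theorem Cs.lr (hT : S.Top S.K) (hC : Cs S W w Z V A) (hW : 3 ≤ W.card) : ∃ H, Lr S W w V A H := by
  have key : ∀ u, ∃ h : S.T, (u ≠ w ∧ u ∉ V ∧ S.car u ⊆ W → Hon S W 2 A {u} h) ∧
      (¬ (u ≠ w ∧ u ∉ V ∧ S.car u ⊆ W) → h = 0) := by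
    intro u
    by_cases hu : u ≠ w ∧ u ∉ V ∧ S.car u ⊆ W
    · obtain ⟨h, hh⟩ := ldG hT (k := 2) (A := A) (τ := {u})
        (by rw [Finset.card_singleton]; omega) hC.nf fun c hc M hM huM _ hcov => by
          by_contra hcon
          obtain ⟨-, -, h7⟩ := hC.th c hc M (by omega) hcov hcon
          exact hu.2.1 (h7 (Finset.mem_erase.2 ⟨hu.1, huM (Finset.mem_singleton_self u)⟩))
      exact ⟨h, fun _ => hh, fun h' => absurd hu h'⟩
    · exact ⟨0, fun h' => absurd h' hu, fun _ => rfl⟩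
  choose H hH using key
  exact ⟨H, ⟨fun u h1 h2 h3 => (hH u).1 ⟨h1, h2, h3⟩, fun u hu => (hH u).2 hu⟩⟩

/-- The terms of a lift. -/
theorem Lr.term (hC : Cs S W w Z V A) (hL : Lr S W w V A H) {δ : X → S.K} (hd : NZ S Z δ) {u : X}
    (huw : u ≠ w) {n : ℕ} (hn : n + 3 = W.card) {y : S.T} (hy : y ∈ S.J W W) (hyn : y ∈ S.H n) :
    δ u * S.Tr W (MvPolynomial.X u * H u * y) = δ u * A (MvPolynomial.X u * y) := by
  by_cases hu : δ u = 0
  · rw [hu, zero_mul, zero_mul]
  have huV : u ∉ V := fun h => hu (hd.zero (hC.VZ u h))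
  have hok : Ok S W {u} (n + 1) (MvPolynomial.X u * y) := Ok.X_J hy hyn u
  by_cases hcu : S.car u ⊆ W
  · rw [(hL.hon u huw huV hcu).eq _ _ hok (by omega)]
    congr 2
    ring
  · rw [hL.zero u fun h => hcu h.2.2, mul_zero, zero_mul, map_zero,
      car_zero (hC.nf' (n := n + 1) (by omega)) hcu (Finset.mem_singleton_self u) hok]

theorem NZ.sum (hC : Cs S W w Z V A) {δ : X → S.K} (hd : NZ S Z δ) {n : ℕ} (hn : n + 3 = W.card)
    {y : S.T} (hy : y ∈ S.J W W) (hyn : y ∈ S.H n) :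
    ∑ u, δ u * A (MvPolynomial.X u * y) = 0 := by
  obtain ⟨μ, hμ⟩ := hd
  rw [F_NZ hμ]
  exact Finset.sum_eq_zero fun c hc => by rw [hC.thZ hc hn hy hyn, mul_zero]

/-- The lift represents the class at the multiples of `w`. -/
theorem Lr.lift (hC : Cs S W w Z V A) (hL : Lr S W w V A H) {ν : X → S.K} (hν : NZ S Z ν)
    (hw : ν w = 1) {n : ℕ} (hn : n + 3 = W.card) {y : S.T} (hy : y ∈ S.J W W)
    (hyn : y ∈ S.H n) : A (MvPolynomial.X w * y) = S.Tr W (Lf S ν H * y) := by
  have h1 := hν.sum hC hn hy hyn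
  have h2 : S.Tr W (Lf S ν H * y) = ∑ u ∈ univ.erase w, ν u * A (MvPolynomial.X u * y) := by
    rw [Lf_apply, ← Finset.add_sum_erase univ _ (Finset.mem_univ w), hL.zero w fun h => h.1 rfl,
      mul_zero, zero_mul, map_zero, mul_zero, zero_add]
    exact Finset.sum_congr rfl fun u hu =>
      Lr.term hC hL hν (Finset.ne_of_mem_erase hu) hn hy hyn
  rw [← Finset.add_sum_erase univ _ (Finset.mem_univ w), hw, one_mul, ← h2] at h1
  have h3 : A (MvPolynomial.X w * y) = A (MvPolynomial.X w * y) +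
      (S.Tr W (Lf S ν H * y) + S.Tr W (Lf S ν H * y)) := by
    rw [add_self, add_zero]
  rw [h3, ← add_assoc, h1, zero_add]

/-- A lift along a vector which is zero at `w` is zero on the interior ideal. -/
theorem Lr.lift_zero (hC : Cs S W w Z V A) (hL : Lr S W w V A H) {δ : X → S.K} (hd : NZ S Z δ)
    (hw : δ w = 0) {n : ℕ} (hn : n + 3 = W.card) {y : S.T} (hy : y ∈ S.J W W)
    (hyn : y ∈ S.H n) : S.Tr W (Lf S δ H * y) = 0 := by
  rw [← hd.sum hC hn hy hyn, Lf_apply]
  refine Finset.sum_congr rfl fun u _ => ?_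
  by_cases hu : u = w
  · rw [hu, hw, zero_mul, zero_mul]
  · exact Lr.term hC hL hd hu hn hy hyn

/-- The square functional of a class kills the relations of its colours. -/
theorem Cs.sq_th (hC : Cs S W w Z V A) [Nonempty X] {b : Ω} (hb : b ∈ Z) {y : S.T} {d : ℕ}
    (hy : y ∈ S.H d) (hd : d + 5 = W.card) : sqL S.a W A (S.th b * y) = 0 := by
  have := S.charP_K
  have hD := drv_sub S
  by_cases hbW : b ∈ W
  · rw [← lf_sub]
    refine sqL_th_zero hD hbW A y fun t ht M hM => ?_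
    rw [lf_sub]
    have h1 := hM.degree_eq
    rw [Finset.card_erase_of_mem hbW, deg_of_H hy ht] at h1
    have h2 : M.degree + 3 = W.card := by omega
    change A (S.th b * S.mo M) = 0
    by_contra hcon
    exact (hC.th b hbW M h2 hM.subset_cr hcon).2.1 hb
  · rw [F_th]
    refine Finset.sum_eq_zero fun u _ => ?_
    by_cases hu : b ∈ S.car u
    swap
    · rw [S.a_zero hu, zero_mul]
    have h0 : sqL S.a W A (MvPolynomial.X u * y) = 0 := by
      refine apply_zero fun s hs => (sqL_mon_zero hD _ s).2 fun N hN => ?_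
      obtain ⟨n, hn, rfl⟩ := mem_mul_X hs
      have h1 := hN.degree_eq
      rw [deg_single_add, deg_of_H hy hn] at h1
      refine hC.nf N (by omega) fun h => hbW ?_
      refine car_sub_of_mem h (v := u) (hN.support ?_) hu
      rw [supp_single_add]
      exact Finset.mem_insert_self _ _
    rw [h0, mul_zero]

/-- The square functional at the multiples of an honest vertex. -/
theorem Hon.sq (hT : S.Top S.K) [Nonempty X] {A : S.T →ₗ[S.K] S.K} {u : X} {h : S.T}
    (hh : Hon S W 2 A {u} h) {M : X →₀ ℕ} (hM : M.degree + 6 = W.card) :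
    sqL S.a W A (MvPolynomial.X u * (S.lam W * S.mo M)) =
      A (MvPolynomial.X u * h * (S.lam W * S.mo M)) := by
  have h1 : MvPolynomial.X u * (S.lam W * S.mo M) =
      S.lam W * S.mo (Finsupp.single u 1 + M) := by
    rw [← X_mul_mo]
    ring
  have hu : {u} ⊆ (Finsupp.single u 1 + M).support := by
    rw [supp_single_add, Finset.singleton_subset_iff]
    exact Finset.mem_insert_self _ _
  have h2 : Ok S W {u} (M.degree + (3 + 1)) (S.mo M * (S.lam W * (MvPolynomial.X u * h))) :=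
    (Ok.X_JT hh.JT hh.H).mul_lam.mul_H (mo_H M)
  have h3 : MvPolynomial.X u * h * (S.lam W * S.mo M) =
      S.mo M * (S.lam W * (MvPolynomial.X u * h)) := by ring
  have h4 : h ^ 2 * (S.lam W * S.mo (Finsupp.single u 1 + M)) =
      h * (S.mo M * (S.lam W * (MvPolynomial.X u * h))) := by
    rw [← X_mul_mo]
    ring
  rw [h1, sqL_lam_tr hT (JT_mono hu hh.JT) hh.H (by rw [deg_single_add]; omega), h4, h3,
    hh.eq _ _ h2 (by omega)]
  intro N hN hs hc
  exact hh.eq N.degree _ (ok_mo (hu.trans hs) fun _ => hc) hN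

theorem Lr.sq_term (hT : S.Top S.K) [Nonempty X] (hC : Cs S W w Z V A) (hL : Lr S W w V A H)
    {δ : X → S.K} (hd : NZ S Z δ) {u : X} (huw : u ≠ w) {M : X →₀ ℕ}
    (hM : M.degree + 6 = W.card) :
    δ u * A (MvPolynomial.X u * H u * (S.lam W * S.mo M)) =
      δ u * sqL S.a W A (MvPolynomial.X u * (S.lam W * S.mo M)) := by
  have := S.charP_K
  have hD := drv_sub S
  by_cases hu : δ u = 0
  · rw [hu, zero_mul, zero_mul]
  have huV : u ∉ V := fun h => hu (hd.zero (hC.VZ u h))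
  by_cases hcu : S.car u ⊆ W
  · rw [(hL.hon u huw huV hcu).sq hT hM]
  · rw [hL.zero u fun h => hcu h.2.2, mul_zero, zero_mul, map_zero]
    have h0 : sqL S.a W A (MvPolynomial.X u * (S.lam W * S.mo M)) = 0 := by
      refine apply_zero fun s hs => (sqL_mon_zero hD _ s).2 fun N hN => ?_
      obtain ⟨n, hn, rfl⟩ := mem_mul_X hs
      have h1 := hN.degree_eq
      have h2 : n.degree = 1 + M.degree :=
        deg_of_H (S.mul_H (lam_H W) (mo_H M)) hn
      rw [deg_single_add] at h1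
      refine hC.nf N (by omega) fun h => hcu ?_
      refine car_sub_of_mem h (v := u) (hN.support ?_)
      rw [supp_single_add]
      exact Finset.mem_insert_self _ _
    rw [h0]

theorem NZ.sq_sum (hC : Cs S W w Z V A) [Nonempty X] {δ : X → S.K} (hd : NZ S Z δ)
    {M : X →₀ ℕ} (hM : M.degree + 6 = W.card) :
    ∑ u, δ u * sqL S.a W A (MvPolynomial.X u * (S.lam W * S.mo M)) = 0 := by
  obtain ⟨μ, hμ⟩ := hd
  rw [F_NZ hμ]
  exact Finset.sum_eq_zero fun c hc => by
    rw [hC.sq_th hc (S.mul_H (lam_H W) (mo_H M)) (by omega), mul_zero]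

theorem Lf_mul_apply (δ : X → S.K) (F : S.T →ₗ[S.K] S.K) (M : X →₀ ℕ) :
    F (S.lam W * Lf S δ H * S.mo M) =
      ∑ u, δ u * F (MvPolynomial.X u * H u * (S.lam W * S.mo M)) := by
  have h1 : S.lam W * Lf S δ H * S.mo M = Lf S δ H * (S.lam W * S.mo M) := by ring
  rw [h1, Lf_apply]

/-- The square functional of a class at `λ w M`. -/
theorem Lr.lift_sq (hT : S.Top S.K) [Nonempty X] (hC : Cs S W w Z V A) (hL : Lr S W w V A H)
    {ν : X → S.K} (hν : NZ S Z ν) (hw : ν w = 1) {M : X →₀ ℕ} (hM : M.degree + 6 = W.card) :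
    sqL S.a W A (S.lam W * S.mo (Finsupp.single w 1 + M)) =
      A (S.lam W * Lf S ν H * S.mo M) := by
  have h1 := hν.sq_sum hC hM
  have h2 : A (S.lam W * Lf S ν H * S.mo M) =
      ∑ u ∈ univ.erase w, ν u * sqL S.a W A (MvPolynomial.X u * (S.lam W * S.mo M)) := by
    rw [Lf_mul_apply, ← Finset.add_sum_erase univ _ (Finset.mem_univ w),
      hL.zero w fun h => h.1 rfl, mul_zero, zero_mul, map_zero, mul_zero, zero_add]
    exact Finset.sum_congr rfl fun u hu =>
      Lr.sq_term hT hC hL hν (Finset.ne_of_mem_erase hu) hM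
  have h3 : S.lam W * S.mo (Finsupp.single w 1 + M) =
      MvPolynomial.X w * (S.lam W * S.mo M) := by
    rw [← X_mul_mo]
    ring
  rw [← Finset.add_sum_erase univ _ (Finset.mem_univ w), hw, one_mul, ← h2, ← h3] at h1
  have h4 : sqL S.a W A (S.lam W * S.mo (Finsupp.single w 1 + M)) =
      sqL S.a W A (S.lam W * S.mo (Finsupp.single w 1 + M)) +
      (A (S.lam W * Lf S ν H * S.mo M) + A (S.lam W * Lf S ν H * S.mo M)) := by
    rw [add_self, add_zero]
  rw [h4, ← add_assoc, h1, zero_add]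

/-- The class at a lift along a vector which is zero at `w`. -/
theorem Lr.lift_sq_zero (hT : S.Top S.K) [Nonempty X] (hC : Cs S W w Z V A)
    (hL : Lr S W w V A H) {δ : X → S.K} (hd : NZ S Z δ) (hw : δ w = 0) {M : X →₀ ℕ}
    (hM : M.degree + 6 = W.card) : A (S.lam W * Lf S δ H * S.mo M) = 0 := by
  rw [← hd.sq_sum hC hM, Lf_mul_apply]
  refine Finset.sum_congr rfl fun u _ => ?_
  by_cases hu : u = w
  · rw [hu, hw, zero_mul, zero_mul]
  · exact Lr.sq_term hT hC hL hd hu hM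

/-- Two classes with a common lift vector. -/
theorem Lf_comm {A' : S.T →ₗ[S.K] S.K} {H' : X → S.T} {ν : X → S.K}
    (h : ∀ u, ν u ≠ 0 → (H u = 0 ∧ H' u = 0) ∨
      (Hon S W 2 A {u} (H u) ∧ Hon S W 2 A' {u} (H' u))) {M : X →₀ ℕ}
    (hM : M.degree + 6 = W.card) :
    A' (S.lam W * Lf S ν H * S.mo M) = A (S.lam W * Lf S ν H' * S.mo M) := by
  rw [Lf_mul_apply, Lf_mul_apply]
  refine Finset.sum_congr rfl fun u _ => ?_
  by_cases hu : ν u = 0
  · rw [hu, zero_mul, zero_mul]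
  obtain ⟨h1, h2⟩ | ⟨h1, h2⟩ := h u hu
  · rw [h1, h2, mul_zero, zero_mul, map_zero, map_zero]
  · have e1 : ∀ p : S.T, MvPolynomial.X u * p * (S.lam W * S.mo M) =
        S.mo M * (S.lam W * (MvPolynomial.X u * p)) := fun p => by ring
    have o1 : Ok S W {u} (M.degree + (3 + 1)) (S.mo M * (S.lam W * (MvPolynomial.X u * H u))) :=
      (Ok.X_JT h1.JT h1.H).mul_lam.mul_H (mo_H M)
    have o2 : Ok S W {u} (M.degree + (3 + 1)) (S.mo M * (S.lam W * (MvPolynomial.X u * H' u))) :=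
      (Ok.X_JT h2.JT h2.H).mul_lam.mul_H (mo_H M)
    rw [e1, e1, h2.eq _ _ o1 (by omega), h1.eq _ _ o2 (by omega)]
    congr 2
    ring

/-- The same for the local representatives of two classes of the same vertex. -/
theorem Lr.comm (hL : Lr S W w V A H) (hC : Cs S W w Z V A) {Z' : Finset Ω} {V' : Finset X}
    {A' : S.T →ₗ[S.K] S.K} {H' : X → S.T} (hC' : Cs S W w Z' V' A') (hL' : Lr S W w V' A' H')
    {ν : X → S.K} (hν : NZ S Z ν) (hν' : NZ S Z' ν) {M : X →₀ ℕ} (hM : M.degree + 6 = W.card) :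
    A' (S.lam W * Lf S ν H * S.mo M) = A (S.lam W * Lf S ν H' * S.mo M) := by
  refine Lf_comm (fun u hu => ?_) hM
  have huV : u ∉ V := fun h => hu (hν.zero (hC.VZ u h))
  have huV' : u ∉ V' := fun h => hu (hν'.zero (hC'.VZ u h))
  by_cases h1 : u ≠ w ∧ S.car u ⊆ W
  · exact Or.inr ⟨hL.hon u h1.1 huV h1.2, hL'.hon u h1.1 huV' h1.2⟩
  · exact Or.inl ⟨hL.zero u fun h => h1 ⟨h.1, h.2.2⟩, hL'.zero u fun h => h1 ⟨h.1, h.2.2⟩⟩

/-- The same for two classes of different vertices and a vector which is zero at one of them. -/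
theorem Lr.comm2 (hL : Lr S W w V A H) (hC : Cs S W w Z V A) {w' : X} {Z' : Finset Ω}
    {V' : Finset X} {A' : S.T →ₗ[S.K] S.K} {H' : X → S.T} (hC' : Cs S W w' Z' V' A')
    (hL' : Lr S W w' V' A' H') {ν : X → S.K} (hν : NZ S Z ν) (hν' : NZ S Z' ν) (h1 : ν w = 0)
    (h2 : ν w' = 0) {M : X →₀ ℕ} (hM : M.degree + 6 = W.card) :
    A' (S.lam W * Lf S ν H * S.mo M) = A (S.lam W * Lf S ν H' * S.mo M) := by
  refine Lf_comm (fun u hu => ?_) hM
  have huV : u ∉ V := fun h => hu (hν.zero (hC.VZ u h))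
  have huV' : u ∉ V' := fun h => hu (hν'.zero (hC'.VZ u h))
  have hw : u ≠ w := fun h => hu (by rw [h, h1])
  have hw' : u ≠ w' := fun h => hu (by rw [h, h2])
  by_cases hc : S.car u ⊆ W
  · exact Or.inr ⟨hL.hon u hw huV hc, hL'.hon u hw' huV' hc⟩
  · exact Or.inl ⟨hL.zero u fun h => hc h.2.2, hL'.zero u fun h => hc h.2.2⟩

end Cls

end Pool.Agent.LH4
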