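import Pool.Agent.LH4.Ee4c
import Pool.Agent.LH4.Lft

/-!
# The lifts represent the classes, and `e_w (w M) = 0` if `w` has exactly four private colours
-/

set_option autoImplicit false

open Finset

namespace Pool.Agent.LH4

open Pool.Agent.LocH

variable {X Ω : Type} [Fintype X] [DecidableEq X] [Fintype Ω] [DecidableEq Ω] {S : Sub X Ω}
  {W : Finset Ω} {w : X} {Z : Finset Ω} {V : Finset X} {A : S.T →ₗ[S.K] S.K} {H : X → S.T}

/-- The square functional of a class at the multiples of a vertex outside its vertices. -/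
theorem Lr.sq_one (hT : S.Top S.K) (hC : Cs S W w Z V A) (hL : Lr S W w V A H) {u : X}
    (huw : u ≠ w) (huV : u ∉ V) {M : X →₀ ℕ} (hd : M.degree + 6 = W.card) :
    sqL S.a W A (MvPolynomial.X u * (S.lam W * S.mo M)) =
      A (MvPolynomial.X u * H u * (S.lam W * S.mo M)) := by
  have hne : Nonempty X := ⟨w⟩
  have := S.charP_K
  have e0 : MvPolynomial.X u * (S.lam W * S.mo M) =
      S.lam W * S.mo (Finsupp.single u 1 + M) := by
    rw [← X_mul_mo u M]
    ring
  have hu1 : u ∈ (Finsupp.single u 1 + M).support := by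
    rw [supp_single_add]
    exact Finset.mem_insert_self _ _
  by_cases hu : S.car u ⊆ W
  swap
  · rw [hL.zero u fun h1 => hu h1.2.2, mul_zero, zero_mul, map_zero, e0]
    refine form_zero fun t ht => ?_
    obtain ⟨x, -, rfl⟩ := mem_lam_mo ht
    refine (sqL_mon_zero (drv_sub S) _ _).2 fun N hN => ?_
    have h1 := hN.degree_eq
    rw [deg_single_add, deg_single_add] at h1
    refine hC.nf N (by omega) fun h2 => hu (car_sub_of_mem h2 (hN.support ?_))
    rw [supp_single_add]
    exact Finset.mem_insert_of_mem hu1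
  · have k1 := hL.hon u huw huV hu
    have h1 : H u ∈ S.JT (Finsupp.single u 1 + M).support W W := by
      rw [S.mem_JT]
      intro m hm hf
      have h2 : m.support ∪ {u} ⊆ m.support ∪ (Finsupp.single u 1 + M).support :=
        Finset.union_subset_union (Finset.Subset.refl _) (Finset.singleton_subset_iff.2 hu1)
      exact (S.mem_JT.1 k1.JT m hm (face_mono h2 hf)).trans (cr_mono h2)
    rw [e0, sqL_lam_tr hT h1 k1.H (by rw [deg_single_add]; omega) fun N hN hs hc =>
      k1.eq _ _ (ok_mo (Finset.singleton_subset_iff.2 (hs hu1)) fun _ => hc) hN]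
    have e1 : H u ^ 2 * (S.lam W * S.mo (Finsupp.single u 1 + M)) =
        H u * (S.lam W * (S.mo M * (MvPolynomial.X u * H u))) := by
      rw [← X_mul_mo u M]
      ring
    have e2 : MvPolynomial.X u * H u * (S.lam W * S.mo M) =
        S.lam W * (S.mo M * (MvPolynomial.X u * H u)) := by ring
    have h2 := ((Ok.X_JT k1.JT k1.H).mul_H (mo_H M)).mul_lam
    rw [e1, e2]
    exact (k1.eq _ _ h2 (by omega)).symm

/-- The square functional of a class, and its lift. -/
theorem Lr.sq (hT : S.Top S.K) (hC : Cs S W w Z V A) (hL : Lr S W w V A H) (hZW : Z ⊆ W)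
    {ν : X → S.K} (hν : NZ S Z ν) (hν1 : ν w = 1) {M : X →₀ ℕ} (hd : M.degree + 6 = W.card) :
    sqL S.a W A (S.lam W * S.mo (Finsupp.single w 1 + M)) =
      A (S.lam W * (Lf S ν H * S.mo M)) := by
  have hne : Nonempty X := ⟨w⟩
  have := S.charP_K
  obtain ⟨μ, hμ⟩ := hν
  have hν' : NZ S Z ν := ⟨μ, hμ⟩
  have h0 : ∀ b ∈ Z, sqL S.a W A (S.th b * (S.lam W * S.mo M)) = 0 := by
    intro b hb
    rw [← lf_sub]
    refine sqL_th_zero (drv_sub S) (hZW hb) A _ fun t ht N hN => ?_
    rw [lf_sub]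
    have h1 := hN.degree_eq
    rw [Finset.card_erase_of_mem (hZW hb), deg_of_H (lam_H' W (mo_H M)) ht] at h1
    change A (S.th b * S.mo N) = 0
    by_contra hcon
    exact (hC.th b (hZW hb) N (by omega) hN.subset_cr hcon).2.1 hb
  have h1 : ∑ u, ν u * sqL S.a W A (MvPolynomial.X u * (S.lam W * S.mo M)) = 0 := by
    rw [F_NZ hμ]
    exact Finset.sum_eq_zero fun b hb => by rw [h0 b hb, mul_zero]
  have h2 : S.lam W * (Lf S ν H * S.mo M) = Lf S ν H * (S.lam W * S.mo M) := by ring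
  have h3 : S.lam W * S.mo (Finsupp.single w 1 + M) =
      MvPolynomial.X w * (S.lam W * S.mo M) := by
    rw [← X_mul_mo w M]
    ring
  rw [h2, Lf_apply, h3]
  rw [← Finset.add_sum_erase _ _ (Finset.mem_univ w), hν1, one_mul] at h1
  rw [← Finset.add_sum_erase _ _ (Finset.mem_univ w), hL.zero w fun h4 => h4.1 rfl, mul_zero,
    zero_mul, map_zero, mul_zero, zero_add]
  rw [eq_of_add_zero h1]
  refine Finset.sum_congr rfl fun u hu => ?_
  by_cases hu0 : ν u = 0
  · rw [hu0, zero_mul, zero_mul]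
  obtain ⟨b, hb, hbu⟩ := hν'.mem_e hu0
  rw [hL.sq_one hT hC (Finset.mem_erase.1 hu).1
    (fun h4 => Finset.disjoint_left.1 (hC.VZ u h4) hbu hb) hd]

/-- The lift represents the class. -/
theorem Lr.rb (hT : S.Top S.K) (hC : Cs S W w Z V A) (hL : Lr S W w V A H) (hZW : Z ⊆ W)
    {ν : X → S.K} (hν : NZ S Z ν) (hν1 : ν w = 1) {M : X →₀ ℕ} (hd : M.degree + 6 = W.card) :
    Rb S W w M A (Lf S ν H) := by
  refine ⟨Ok.of_J (hL.J3 ν) (hL.H3 ν) M, fun k y hy hk => ?_, hL.sq hT hC hZW hν hν1 hd⟩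
  exact Lr.lift hC hL hν hν1 hk hy.mem_J hy.mem_H

variable {al s : S.T →ₗ[S.K] S.K} {g : S.T} {ι : Type} {I : Finset ι}
  {Zf : ι → Finset Ω} {Vf : ι → Finset X} {Af : ι → S.T →ₗ[S.K] S.K} {h : S.T}

/-- P6: `e_w (w M) = 0` if `w` has exactly four private colours. -/
theorem Pce.ee4 (P : Pce S W w al s g) (hT : S.Top S.K) (hz : Zd S W w al I Zf Vf Af h)
    (hW : 7 ≤ W.card) (hw : S.car w ⊆ W) {M : X →₀ ℕ} (hd : M.degree + 6 = W.card)
    (h4 : 4 = (S.car w \ S.cr M.support).card) :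
    ee S W al g (S.mo (Finsupp.single w 1 + M)) = 0 := by
  refine ee4_core hT P hz hW hw hd h4.symm
    (fun i hi => Cs.lr hT (hz.cs i hi) (by omega)) fun i hi H hH ν hν hν1 => ?_
  exact hH.rb hT (hz.cs i hi) ((hz.cs i hi).Zs.trans hw) hν hν1 hd

end Pool.Agent.LH4
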