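import Pool.Agent.LH4.Ee4d
import Pool.Agent.LH4.Zk5
import Pool.Agent.LH4.Ed8

/-!
# (E) of row 1250 in the form used by `Cm8`
-/

set_option autoImplicit false

open Finset

namespace Pool.Agent.LH4

open Pool.Agent.LocH

variable {X Ω : Type} [Fintype X] [DecidableEq X] [Fintype Ω] [DecidableEq Ω] {S : Sub X Ω}
  {W : Finset Ω}

theorem EE4_of (hT : S.Top S.K) (hC : ClsP S) (hW : 7 ≤ W.card) : EE4 S W := by
  intro w al s g hw P M hd _ h4
  obtain ⟨ι, I, Z, V, A, h, hz⟩ := P.zd_cls hT hC hW hw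
  exact P.ee4 hT hz hW hw hd h4

end Pool.Agent.LH4
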