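import Pool.Agent.LH4.Pi2
import Pool.Agent.LH4.Br
import Pool.Agent.LH4.Cm2

/-!
# Injectivity of the multiplication by `λ` in degree four

`tf_of`: the linear form `Tr (g ·)` of an element `g` of degree four with `λ g` orthogonal to everything
satisfies `Tf`.  `tj4_of`: injectivity in degree four if such forms vanish on the interior ideal.
`step4_of`: the inequality for the coefficients `4` and `5`.  `tj4`, `step4`: both for `12 ≤ |V|`.
-/

set_option autoImplicit false
set_option linter.unusedSectionVars false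

open Finset

namespace Pool.Agent.LH4

open Pool.Agent.LocH

variable {X Ω : Type} [Fintype X] [DecidableEq X] [Fintype Ω] [DecidableEq Ω] {S : Sub X Ω}
  {V : Finset Ω}

/-- The linear form `Tr (g ·)`. -/
noncomputable def trg (S : Sub X Ω) (V : Finset Ω) (g : S.T) : S.T →ₗ[S.K] S.K :=
  S.Tr V ∘ₗ LinearMap.mulLeft S.K g

theorem trg_apply (g y : S.T) : trg S V g y = S.Tr V (g * y) := rfl

theorem tf_of (hT : S.Top S.K) (hV : 9 ≤ V.card) {g : S.T} (hg : g ∈ S.J V V) (hg' : g ∈ S.H 4)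
    (hl : S.lam V * g ∈ S.N V 5) : Tf S V (trg S V g) := by
  have hP := S.trP hT
  refine ⟨fun n _ hs => ?_, fun c hc M hd hM => ?_, fun M hd hM => ?_, fun n hd hn => ?_⟩
  · rw [trg_apply]
    exact hP.I V _ (S.mul_I (mo_I hs) g)
  · rw [trg_apply, mul_left_comm, hP.th V c hc]
    have h1 : g * S.mo M ∈ S.J V V := by
      rw [mul_comm]
      exact S.mul_J hg _
    rw [hP.res V (4 + M.degree) (by omega) _ h1 (S.mul_H hg' (mo_H M)), mul_zero]
  · rw [trg_apply, ← mul_assoc, mul_comm g]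
    refine hl.2.2 (S.mo M) (mo_J fun _ => hM) ?_
    have h1 : V.card - 5 = M.degree := by omega
    rw [h1]
    exact mo_H M
  · rw [trg_apply]
    exact hP.an V 4 (by omega) g hg hg' hl n hn (by omega)

/-- Injectivity in degree four if all forms with `Tf` vanish on the interior ideal. -/
theorem tj4_of (hT : S.Top S.K) (hV : 9 ≤ V.card)
    (hp : ∀ t : S.T →ₗ[S.K] S.K, Tf S V t → ∀ n : X →₀ ℕ, n.degree + 4 = V.card →
      (n.support ∈ S.fcs V → V ⊆ S.cr n.support) → t (S.mo n) = 0) : TJ S V 4 := by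
  intro g hg hg' hl
  refine ⟨hg, hg', fun y hy hy' => ?_⟩
  rw [← trg_apply]
  refine form_zero fun s hs => hp _ (tf_of hT hV hg hg' hl) s ?_ (S.mem_J.1 hy s hs)
  rw [deg_of_H hy' hs]
  omega

/-- The inequality for the coefficients `4` and `5`. -/
theorem step4_of (hT : S.Top S.K) (hV : 9 ≤ V.card) (hj : TJ S V 4) :
    (S.ell V).coeff 4 ≤ (S.ell V).coeff 5 :=
  S.step_of_inj hT (Sub.dim hT) (by omega) hj

/-- A good monomial has no type. -/
theorem not_ty_of_good {U : Finset Ω} {N : X →₀ ℕ} (hs : N.support ∈ S.fcs U)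
    (hg : ∀ C ⊆ U, C.card ≤ 2 * S.dgC C N) (v : X) : ¬ Ty S v ∅ N := by
  rintro ⟨hv, hb⟩
  set C : Finset Ω := (S.car v \ S.cr (N - Finsupp.single v 1).support) \ ∅ with hC
  have hCc : ∀ e ∈ C, e ∈ S.car v ∧ e ∉ S.cr (N - Finsupp.single v 1).support := by
    intro e he
    rw [hC, Finset.mem_sdiff, Finset.mem_sdiff] at he
    exact he.1
  have hCU : C ⊆ U := fun e he => car_sub_of_mem hs hv (hCc e he).1
  have h1 : N v ≤ 1 := by
    by_contra hcon
    push Not at hcon
    have h2 : v ∈ (N - Finsupp.single v 1).support := by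
      rw [Finsupp.mem_support_iff, Finsupp.tsub_apply, Finsupp.single_eq_same]
      omega
    obtain ⟨e, he⟩ : C.Nonempty := Finset.card_pos.1 (by omega)
    exact (hCc e he).2 (Finset.mem_biUnion.2 ⟨v, h2, (hCc e he).1⟩)
  have h2 : S.dgC C N ≤ N v := by
    unfold Sub.dgC
    refine (Finset.sum_le_sum_of_ne_zero (t := {v}) fun u hu hne => ?_).trans
      (Finset.sum_singleton _ _).le
    rw [Finset.mem_filter, Finset.not_disjoint_iff] at hu
    obtain ⟨-, e, he1, he2⟩ := hu
    rw [Finset.mem_singleton]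
    by_contra huv
    refine (hCc e he2).2 (Finset.mem_biUnion.2 ⟨u, ?_, he1⟩)
    rw [Finsupp.mem_support_iff, Finsupp.tsub_apply, Finsupp.single_eq_of_ne huv]
    omega
  have h3 := hg C hCU
  omega

/-- A good monomial covers all colours. -/
theorem cov_of_good {U : Finset Ω} {N : X →₀ ℕ} (hg : ∀ C ⊆ U, C.card ≤ 2 * S.dgC C N) :
    U ⊆ S.cr N.support := by
  intro e he
  by_contra hcon
  have h1 := hg {e} (Finset.singleton_subset_iff.2 he)
  have h2 : S.dgC {e} N = 0 := by
    unfold Sub.dgC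
    refine Finset.sum_eq_zero fun v hv => ?_
    rw [Finset.mem_filter, Finset.disjoint_singleton_right, not_not] at hv
    by_contra h3
    exact hcon (Finset.mem_biUnion.2 ⟨v, Finsupp.mem_support_iff.2 h3, hv.2⟩)
  rw [h2, Finset.card_singleton] at h1
  omega

/-- The third hypothesis of `pi2` from the branch and the vanishing at the good monomials. -/
theorem h3_of {w : X} {Z : Finset Ω} (hZ : Z ⊆ V) (hZc : Z.card = 3)
    {t A0 : S.T →ₗ[S.K] S.K}
    (hb : ∀ N : X →₀ ℕ, N.degree + 5 = V.card → N.support ∈ S.fcs (V \ Z) →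
      V \ Z ⊆ S.cr N.support → (∀ v, ¬ Ty S v ∅ N) →
      A0 (S.mo N) = t (S.mo (Finsupp.single w 1 + N)))
    (hc : ∀ N : X →₀ ℕ, N.degree + 2 = (V \ Z).card →
      (∀ U ⊆ V \ Z, 2 * S.dgI U N + 4 ≤ (V \ Z).card + U.card) → A0 (S.mo N) = 0)
    {N : X →₀ ℕ} (hd : N.degree + 5 = V.card) (hs : N.support ∈ S.fcs (V \ Z))
    (hg : ∀ C ⊆ V \ Z, C.card ≤ 2 * S.dgC C N) : t (S.mo (Finsupp.single w 1 + N)) = 0 := by
  have h0 : (V \ Z).card + 3 = V.card := by
    have := Finset.card_sdiff_add_card_eq_card hZ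
    omega
  rw [← hb N hd hs (cov_of_good hg) (not_ty_of_good hs hg)]
  refine hc N (by omega) fun U hU => ?_
  have h1 := hg ((V \ Z) \ U) Finset.sdiff_subset
  have h2 := dgI_add_dgC (C := (V \ Z) \ U) hs
  rw [Finset.sdiff_sdiff_eq_self hU] at h2
  have h3 := Finset.card_sdiff_add_card_eq_card hU
  omega

/-- The multiplication by `lam` is injective in degree four, for `12 ≤ |V|`. -/
theorem tj4 (hT : S.Top S.K) (hV : 12 ≤ V.card) : TJ S V 4 := by
  refine tj4_of hT (by omega) fun t ht => pi2 hT (by omega) ht ?_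
  intro w Z hZ hZc hw N hd hs hg
  obtain ⟨A0, hA, hb⟩ := br hT hV ht (pi1 hT (by omega) ht) hZ hZc hw
  have h0 := Finset.card_sdiff_add_card_eq_card hZ
  exact h3_of hZ hZc hb (cm2 hT (by omega) A0 hA) hd hs hg

/-- The step `i = 4` for `12 ≤ |V|`. -/
theorem step4 (hT : S.Top S.K) (hV : 12 ≤ V.card) :
    (S.ell V).coeff 4 ≤ (S.ell V).coeff 5 :=
  step4_of hT (by omega) (tj4 hT hV)

end Pool.Agent.LH4
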