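import Pool.Agent.LH4.Fi2

/-!
# Injectivity in degree four from the vanishing on the restrictions to `V \ Z`

`Vn S W`: a linear form in degree `|W| - 2` with the properties `Inp` vanishes at the good monomials.
`tj4_of_vn`: injectivity in degree four for `V` if `Vn` holds for all subsets with three elements less.
-/

set_option autoImplicit false

open Finset

namespace Pool.Agent.LH4

open Pool.Agent.LocH

variable {X Ω : Type} [Fintype X] [DecidableEq X] [Fintype Ω] [DecidableEq Ω] {S : Sub X Ω}
  {V : Finset Ω}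

/-- A linear form in degree `|W| - 2` with the properties `Inp` vanishes at the good monomials. -/
def Vn (S : Sub X Ω) (W : Finset Ω) : Prop :=
  ∀ A : S.T →ₗ[S.K] S.K, Inp S W A →
    ∀ N : X →₀ ℕ, N.degree + 2 = W.card → (∀ U ⊆ W, 2 * S.dgI U N + 4 ≤ W.card + U.card) →
      A (S.mo N) = 0

theorem tj4_of_vn (hT : S.Top S.K) (hV : 9 ≤ V.card)
    (hc : ∀ W ⊆ V, W.card + 3 = V.card → Vn S W) : TJ S V 4 := by
  refine tj4_of hT hV fun t ht => pi2 hT hV ht ?_
  intro w Z hZ hZc hw N hd hs hg
  obtain ⟨A0, hA, hb⟩ := br0 ht (pi1 hT hV ht) hZ hZc hw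
  have h0 := Finset.card_sdiff_add_card_eq_card hZ
  exact h3_of hZ hZc hb (hc (V \ Z) Finset.sdiff_subset (by omega) A0 hA) hd hs hg

/-- The step `i = 4` from the vanishing on the restrictions to the sets with three elements less. -/
theorem step4_of_vn (hT : S.Top S.K) (hV : 9 ≤ V.card)
    (hc : ∀ W ⊆ V, W.card + 3 = V.card → Vn S W) : (S.ell V).coeff 4 ≤ (S.ell V).coeff 5 :=
  step4_of hT hV (tj4_of_vn hT hV hc)

end Pool.Agent.LH4
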