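import Pool.Agent.LH4.Cm8

/-!
# The terms of one vertex and of two vertices for seven points, at the monomials whose factors are
heavy
-/

set_option autoImplicit false

open Finset

namespace Pool.Agent.LH4

open Pool.Agent.LocH

variable {X Ω : Type} [Fintype X] [DecidableEq X] [Fintype Ω] [DecidableEq Ω] {S : Sub X Ω}

/-! ### The terms of one vertex -/

/-- The terms of one vertex. -/
theorem we_e7 {W : Finset Ω} {w : X} (hw : S.car w ⊆ W) {e : S.T →ₗ[S.K] S.K}
    (hface : ∀ M : X →₀ ℕ, M.degree + 5 = W.card → M.support ∉ S.fcs W → e (S.mo M) = 0)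
    (hth : ∀ c ∈ W, ∀ M : X →₀ ℕ, M.degree + 6 = W.card → M.support ∈ S.fcs W →
      ((S.car w \ S.cr M.support) \ {c}).card ≤ 2 → e (S.th c * S.mo M) = 0)
    (hho : ∀ M : X →₀ ℕ, M.degree + 5 = W.card → M.support ∈ S.fcs W →
      (S.car w \ S.cr (M.support.erase w)).card ≤ 2 → e (S.mo M) = 0)
    (htwo : ∀ M : X →₀ ℕ, M.degree + 7 = W.card →
      e (S.mo (Finsupp.single w 1 + (Finsupp.single w 1 + M))) = 0)
    (hfour : ∀ M : X →₀ ℕ, M.degree + 6 = W.card → M.support ∈ S.fcs W →
      4 = (S.car w \ S.cr M.support).card → e (S.mo (Finsupp.single w 1 + M)) = 0)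
    {M : X →₀ ℕ} (hM : M.degree + 6 = W.card) (hM4 : (W \ S.cr M.support).card ≤ 4) :
    e (S.mo (Finsupp.single w 1 + M)) = 0 := by
  classical
  by_cases hf : (Finsupp.single w 1 + M).support ∈ S.fcs W
  swap
  · exact hface _ (by rw [deg_single_add]; omega) hf
  have hMf : M.support ∈ S.fcs W := fcs_of_single hf
  by_cases hwM : w ∈ M.support
  · obtain ⟨M2, hM2⟩ := exists_single_add hwM
    rw [hM2]
    refine htwo M2 ?_
    rw [hM2, deg_single_add] at hM
    omega
  have herase : (Finsupp.single w 1 + M).support.erase w = M.support := by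
    rw [supp_single_add, Finset.erase_insert hwM]
  by_cases h2 : (S.car w \ S.cr M.support).card ≤ 2
  · exact hho _ (by rw [deg_single_add]; omega) hf (by rw [herase]; exact h2)
  have hc2 := Finset.card_le_card (Finset.sdiff_subset_sdiff hw
    (Finset.Subset.refl (S.cr M.support)))
  by_cases h30 : (S.car w \ S.cr M.support).card = 3
  · exact we_t3 hw hface hth hho hM hMf hwM h30
  · exact hfour M hM hMf (by omega)

/-! ### Two vertices -/

theorem we_d17 {W : Finset Ω} {w w' : X} (hww : w ≠ w')
    (hw : S.car w ⊆ W) (hw' : S.car w' ⊆ W) {d : S.T →ₗ[S.K] S.K} (hd : DH S W w w' d)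
    (hfour : ∀ M : X →₀ ℕ, M.degree + 6 = W.card → M.support ∈ S.fcs W → w ∉ M.support →
      w' ∉ M.support → (W \ S.cr M.support).card = 4 →
      (S.car w' \ (S.car w ∪ S.cr M.support)).card ≤ 2 →
      d (S.mo (Finsupp.single w 1 + M)) = 0)
    {M : X →₀ ℕ} (hM : M.degree + 6 = W.card) (hM4 : (W \ S.cr M.support).card ≤ 4)
    (hdom : (S.car w' \ (S.car w ∪ S.cr M.support)).card ≤ 2) :
    d (S.mo (Finsupp.single w 1 + M)) = 0 := by
  classical
  by_cases hf : (Finsupp.single w 1 + M).support ∈ S.fcs W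
  swap
  · exact hd.face _ (by rw [deg_single_add]; omega) hf
  have hMf : M.support ∈ S.fcs W := fcs_of_single hf
  by_cases hw'M : w' ∈ M.support
  · obtain ⟨M2, hM2⟩ := exists_single_add hw'M
    rw [hM2]
    refine hd.ww M2 ?_
    rw [hM2, deg_single_add] at hM
    omega
  have herase' : (Finsupp.single w 1 + M).support.erase w' = insert w M.support := by
    rw [supp_single_add, Finset.erase_insert_of_ne hww, Finset.erase_eq_of_notMem hw'M]
  by_cases hwM : w ∈ M.support
  · obtain ⟨M2, hM2⟩ := exists_single_add hwM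
    rw [hM2]
    refine hd.two M2 ?_ ?_
    · rw [hM2, deg_single_add] at hM
      omega
    · have h1 : insert w M2.support = M.support := by
        rw [hM2, supp_single_add]
      rw [h1, Finset.erase_eq_of_notMem hw'M]
      refine (Finset.card_le_card ?_).trans hdom
      refine Finset.sdiff_subset_sdiff (Finset.Subset.refl _) ?_
      exact Finset.union_subset (Finset.subset_biUnion_of_mem S.car hwM) (Finset.Subset.refl _)
  have herase : (Finsupp.single w 1 + M).support.erase w = M.support := by
    rw [supp_single_add, Finset.erase_insert hwM]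
  by_cases h2 : (S.car w \ S.cr M.support).card ≤ 2
  · exact hd.ho _ (by rw [deg_single_add]; omega) hf (by rw [herase]; exact h2)
      (by rw [herase', cr_insert]; exact hdom)
  have hsub : S.car w \ S.cr M.support ⊆ W \ S.cr M.support := Finset.sdiff_subset_sdiff hw
    (Finset.Subset.refl _)
  have hsub' : S.car w' \ S.cr M.support ⊆ W \ S.cr M.support := Finset.sdiff_subset_sdiff hw'
    (Finset.Subset.refl _)
  have hc2 := Finset.card_le_card hsub
  by_cases h40 : (W \ S.cr M.support).card = 4
  · exact hfour M hM hMf hwM hw'M h40 hdom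
  -- the relations of the points outside
  have h4 : (W \ S.cr M.support).card = 3 := by omega
  have h5 : ∀ b ∈ S.car w \ S.cr M.support, ((W \ S.cr M.support) \ {b}).card = 2 := by
    intro b hb
    rw [Finset.card_sdiff_of_subset (Finset.singleton_subset_iff.2 (hsub hb)), h4,
      Finset.card_singleton]
  have hrel : ∀ b ∈ S.car w \ S.cr M.support,
      S.a w b * d (S.mo (Finsupp.single w 1 + M)) +
        S.a w' b * d (S.mo (Finsupp.single w' 1 + M)) = 0 := by
    intro b hb
    have hb' := Finset.mem_sdiff.1 hb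
    have h6 := hd.th b (hw hb'.1) M hM hMf
      ((Finset.card_le_card (Finset.sdiff_subset_sdiff hsub (Finset.Subset.refl _))).trans
        (h5 b hb).le)
      ((Finset.card_le_card (Finset.sdiff_subset_sdiff hsub' (Finset.Subset.refl _))).trans
        (h5 b hb).le)
    rw [th_mul_mo', map_sum, ← Finset.sum_subset (Finset.subset_univ ({w, w'} : Finset X)),
      Finset.sum_pair hww] at h6
    · rw [map_smul, map_smul, smul_eq_mul, smul_eq_mul] at h6
      exact h6
    · intro v _ hv
      rw [Finset.mem_insert, Finset.mem_singleton, not_or] at hv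
      rw [map_smul]
      by_cases hvb : b ∈ S.car v
      · by_cases hvf : (Finsupp.single v 1 + M).support ∈ S.fcs W
        · have h8 : ∀ x : X, S.car x ⊆ W →
              (S.car x \ S.cr (insert v M.support)).card ≤ 2 := by
            intro x hx
            rw [cr_insert]
            refine (Finset.card_le_card ?_).trans (h5 b hb).le
            intro c hc
            rw [Finset.mem_sdiff, Finset.mem_union, not_or] at hc
            rw [Finset.mem_sdiff, Finset.mem_sdiff, Finset.mem_singleton]
            refine ⟨⟨hx hc.1, hc.2.2⟩, fun h8 => hc.2.1 (h8 ▸ hvb)⟩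
          rw [hd.ho _ (by rw [deg_single_add]; omega) hvf, smul_zero]
          · rw [supp_single_add, Finset.erase_insert_of_ne hv.1,
              Finset.erase_eq_of_notMem hwM]
            exact h8 w hw
          · rw [supp_single_add, Finset.erase_insert_of_ne hv.2,
              Finset.erase_eq_of_notMem hw'M]
            exact h8 w' hw'
        · rw [hd.face _ (by rw [deg_single_add]; omega) hvf, smul_zero]
      · rw [S.a_zero hvb, zero_smul]
  obtain ⟨b, hb, b', hb', hbb⟩ := Finset.one_lt_card.1
    (show 1 < (S.car w \ S.cr M.support).card by omega)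
  have r1 := hrel b hb
  have r2 := hrel b' hb'
  have hbw := (Finset.mem_sdiff.1 hb).1
  have hbw' := (Finset.mem_sdiff.1 hb').1
  by_cases h6 : b ∈ S.car w'
  · by_cases h7 : b' ∈ S.car w'
    · have h8 := minor_two hww hbb hbw hbw' h6 h7
      have h9 : (S.a w b * S.a w' b' + S.a w b' * S.a w' b) *
          d (S.mo (Finsupp.single w 1 + M)) = 0 := by
        have h10 : (S.a w b * S.a w' b' + S.a w b' * S.a w' b) *
            d (S.mo (Finsupp.single w 1 + M)) =
            S.a w' b' * (S.a w b * d (S.mo (Finsupp.single w 1 + M)) +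
              S.a w' b * d (S.mo (Finsupp.single w' 1 + M))) +
            S.a w' b * (S.a w b' * d (S.mo (Finsupp.single w 1 + M)) +
              S.a w' b' * d (S.mo (Finsupp.single w' 1 + M))) -
            (2 : S.K) * (S.a w' b * S.a w' b' * d (S.mo (Finsupp.single w' 1 + M))) := by ring
        have := S.charP_K
        have h11 : (2 : S.K) = 0 := CharTwo.two_eq_zero
        rw [h10, r1, r2, h11, zero_mul, mul_zero, mul_zero, add_zero, sub_zero]
      exact (mul_eq_zero.1 h9).resolve_left h8
    · rw [S.a_zero h7, zero_mul, add_zero] at r2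
      exact (mul_eq_zero.1 r2).resolve_left (S.a_ne hbw')
  · rw [S.a_zero h6, zero_mul, add_zero] at r1
    exact (mul_eq_zero.1 r1).resolve_left (S.a_ne hbw)

/-- A monomial without one factor. -/
theorem erase_four {W : Finset Ω} {M M2 : X →₀ ℕ} {v : X} (hf : M.support ∈ S.fcs W)
    (h4 : ∀ v ∈ M.support, W.card ≤ (S.cr (M - Finsupp.single v 1).support).card + 4)
    (hv : v ∈ M.support) (hM2 : M = Finsupp.single v 1 + M2) :
    (W \ S.cr M2.support).card ≤ 4 := by
  have h1 := h4 v hv
  have h2 : M - Finsupp.single v 1 = M2 := by rw [hM2, add_tsub_cancel_left]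
  rw [h2] at h1
  have h3 : M2.support ∈ S.fcs W := by
    rw [hM2] at hf
    exact fcs_of_single hf
  have h5 := Finset.card_sdiff_add_card_eq_card (mem_fcs'.1 h3).2
  omega

/-- The terms of two vertices. -/
theorem we_d7 {W : Finset Ω} {w w' : X} (hww : w ≠ w')
    (hw : S.car w ⊆ W) (hw' : S.car w' ⊆ W) {d : S.T →ₗ[S.K] S.K} (hd : DH S W w w' d)
    (hfour : ∀ M : X →₀ ℕ, M.degree + 6 = W.card → M.support ∈ S.fcs W → w ∉ M.support →
      w' ∉ M.support → (W \ S.cr M.support).card = 4 →
      (S.car w' \ (S.car w ∪ S.cr M.support)).card ≤ 2 →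
      d (S.mo (Finsupp.single w 1 + M)) = 0)
    (hfour' : ∀ M : X →₀ ℕ, M.degree + 6 = W.card → M.support ∈ S.fcs W → w' ∉ M.support →
      w ∉ M.support → (W \ S.cr M.support).card = 4 →
      (S.car w \ (S.car w' ∪ S.cr M.support)).card ≤ 2 →
      d (S.mo (Finsupp.single w' 1 + M)) = 0)
    (M : X →₀ ℕ) (hM : M.degree + 5 = W.card) (hc : W.card ≤ (S.cr M.support).card + 2)
    (h4 : ∀ v ∈ M.support, W.card ≤ (S.cr (M - Finsupp.single v 1).support).card + 4) :
    d (S.mo M) = 0 := by
  classical
  by_cases hf : M.support ∈ S.fcs W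
  swap
  · exact hd.face M hM hf
  have hMW := (mem_fcs'.1 hf).2
  have h1 : (W \ S.cr M.support).card + (S.cr M.support).card = W.card :=
    Finset.card_sdiff_add_card_eq_card hMW
  have h2 : ∀ x : X, S.car x ⊆ W → (S.car x \ S.cr M.support).card ≤ 2 := fun x hx =>
    (Finset.card_le_card (Finset.sdiff_subset_sdiff hx (Finset.Subset.refl _))).trans (by omega)
  by_cases hwM : w ∈ M.support
  · obtain ⟨M2, hM2⟩ := exists_single_add hwM
    have h5 := erase_four hf h4 hwM hM2
    have h3 := h2 w' hw'
    rw [hM2, supp_single_add, cr_insert] at h3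
    rw [hM2]
    refine we_d17 hww hw hw' hd hfour (M := M2) ?_ h5 h3
    rw [hM2, deg_single_add] at hM
    omega
  by_cases hw'M : w' ∈ M.support
  · obtain ⟨M2, hM2⟩ := exists_single_add hw'M
    have h5 := erase_four hf h4 hw'M hM2
    have h3 := h2 w hw
    rw [hM2, supp_single_add, cr_insert] at h3
    rw [hM2]
    refine we_d17 hww.symm hw' hw hd.symm hfour' (M := M2) ?_ h5 h3
    rw [hM2, deg_single_add] at hM
    omega
  · refine hd.ho M hM hf ?_ ?_
    · rw [Finset.erase_eq_of_notMem hwM]
      exact h2 w hw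
    · rw [Finset.erase_eq_of_notMem hw'M]
      exact h2 w' hw'

variable {W : Finset Ω} {w w' : X} {al s al' s' : S.T →ₗ[S.K] S.K} {g g' : S.T}

/-- The terms of one vertex are zero. -/
theorem Pce.ee_zero7 (P : Pce S W w al s g) (hT : S.Top S.K) [Nonempty X] (hW : 2 ≤ W.card)
    (hE : EE4 S W) {M : X →₀ ℕ} (hd : M.degree + 5 = W.card)
    (hM : W.card ≤ (S.cr M.support).card + 2)
    (h4 : ∀ v ∈ M.support, W.card ≤ (S.cr (M - Finsupp.single v 1).support).card + 4) :
    ee S W al g (S.mo M) = 0 := by
  classical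
  obtain ⟨v, hv, P⟩ : ∃ v, S.car v ⊆ W ∧ Pce S W v al s g := by
    by_cases hw : S.car w ⊆ W
    · exact ⟨w, hw, P⟩
    · obtain ⟨v, -, h2⟩ := exists_vertex hT hW w
      exact ⟨v, h2, P.change hw (fun M hM hf => P.s_face hM hf)
        (fun c _ M hM hf => P.al_th c hM hf) v⟩
  by_cases hf : M.support ∈ S.fcs W
  swap
  · exact P.ee_face hd hf
  have hMW := (mem_fcs'.1 hf).2
  by_cases hvM : v ∈ M.support
  · obtain ⟨M2, hM2⟩ := exists_single_add hvM
    have h5 := erase_four hf h4 hvM hM2
    rw [hM2]
    refine we_e7 hv (fun M hM hf => P.ee_face hM hf)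
      (fun c hc M hM _ h => P.ee_th hc hM h)
      (fun M hM _ h => P.ho hT hM h) (fun M hM => P.two hT hM)
      (fun M hM hf h => hE v al s g hv P M hM hf h) (M := M2) ?_ h5
    rw [hM2, deg_single_add] at hd
    omega
  · refine P.ho hT hd ?_
    rw [Finset.erase_eq_of_notMem hvM]
    have h1 : (W \ S.cr M.support).card + (S.cr M.support).card = W.card :=
      Finset.card_sdiff_add_card_eq_card hMW
    exact (Finset.card_le_card (Finset.sdiff_subset_sdiff hv (Finset.Subset.refl _))).trans
      (by omega)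

/-- The terms of two vertices are zero. -/
theorem Pce.dd_zero7 (P : Pce S W w al s g) (P' : Pce S W w' al' s' g') (hww : w ≠ w')
    (hT : S.Top S.K) (hW : 2 ≤ W.card) (hD : DD4 S W) {M : X →₀ ℕ}
    (hd : M.degree + 5 = W.card) (hM : W.card ≤ (S.cr M.support).card + 2)
    (h4 : ∀ v ∈ M.support, W.card ≤ (S.cr (M - Finsupp.single v 1).support).card + 4) :
    dd2 S al al' g g' (S.mo M) = 0 := by
  obtain ⟨v, hvw, hv, P⟩ := P.vertex hT hW hww
  obtain ⟨v', hvw', hv', P'⟩ := P'.vertex hT hW hvw.symm
  refine we_d7 hvw'.symm hv hv' (P.dH P' hT) (fun M hM hf h1 h2 h3 h4 => ?_)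
    (fun M hM hf h1 h2 h3 h4 => ?_) M hd hM h4
  · exact hD v v' al s al' s' g g' hv hv' hvw'.symm P P' M hM hf h1 h2 h3 h4
  · rw [dd2_comm]
    exact hD v' v al' s' al s g' g hv' hv hvw' P' P M hM hf h1 h2 h3 h4

/-- The values of `A` at the square roots of `x_J u M` for the heavy `M` are zero. -/
theorem base7 (hT : S.Top S.K) (hW : W.card = 7) (hE : EE4 S W) (hD : DD4 S W)
    (A : S.T →ₗ[S.K] S.K) (hA : Inp S W A) :
    ∀ M : X →₀ ℕ, M.degree = 2 → M.support ∈ S.fcs W → 5 ≤ (S.cr M.support).card →
      (∀ v ∈ M.support, 3 ≤ (S.car v).card) → ∀ (u : X) (N : X →₀ ℕ),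
      NN S.car W (Finsupp.single u 1 + M) N → A (S.mo N) = 0 := by
  intro M hd hf hc hh u N hN
  have hX : Nonempty X := ⟨u⟩
  obtain ⟨al, s, g, h, hs⟩ := spl_exists hT (splitP S) (show W.card = 3 + 4 by omega) hA
  have h4 : ∀ v ∈ M.support, W.card ≤ (S.cr (M - Finsupp.single v 1).support).card + 4 := by
    intro v hv
    obtain ⟨M2, hM2⟩ := exists_single_add hv
    have h1 : M - Finsupp.single v 1 = M2 := by rw [hM2, add_tsub_cancel_left]
    have h2 : M2.degree = 1 := by
      rw [hM2, deg_single_add] at hd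
      omega
    obtain ⟨x, hx⟩ : M2.support.Nonempty := by
      rw [Finsupp.support_nonempty_iff]
      rintro rfl
      rw [map_zero] at h2
      omega
    have h3 : x ∈ M.support := by
      rw [hM2, supp_single_add]
      exact Finset.mem_insert_of_mem hx
    have h5 := hh x h3
    have h6 := Finset.card_le_card (Finset.subset_biUnion_of_mem S.car hx)
    rw [h1]
    change W.card ≤ (M2.support.biUnion S.car).card + 4
    omega
  have h0 : sqL S.a W A (S.lam W * S.mo M) = 0 :=
    hs.zero hT hA (by omega) (by omega)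
      (fun w => (hs.pce w).ee_zero7 hT (by omega) hE (by omega) (by omega) h4)
      fun w w' hww => (hs.pce w).dd_zero7 (hs.pce w') hww hT (by omega) hD (by omega) (by omega) h4
  by_cases hu : S.car u ⊆ W
  · exact lam_NN h0 hu hN
  · have h1 := hN.degree_eq
    rw [deg_single_add] at h1
    refine hA.face N (by omega) fun h2 => hu ?_
    refine car_sub_of_mem h2 (nn_supp hN ?_)
    rw [supp_single_add]
    exact Finset.mem_insert_self u _

end Pool.Agent.LH4
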