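import Pool.Agent.LH4.Fi3
import Pool.Agent.LH4.Cm8
import Pool.Agent.LH4.We7
import Pool.Agent.LH4.Dd6
import Pool.Agent.LH4.Eeo

/-!
# The step `i = 4` for ten and more points, from the statement on the classes of missing faces and the
descent for seven points
-/

set_option autoImplicit false

open Finset

namespace Pool.Agent.LH4

open Pool.Agent.LocH

variable {X Ω : Type} [Fintype X] [DecidableEq X] [Fintype Ω] [DecidableEq Ω] {S : Sub X Ω}
  {V W : Finset Ω}

/-- The descent for seven points. -/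
def Vg7 (S : Sub X Ω) : Prop :=
  ∀ W : Finset Ω, W.card = 7 → ∀ A : S.T →ₗ[S.K] S.K,
    (∀ N : X →₀ ℕ, N.degree + 2 = W.card → N.support ∉ S.fcs W → A (S.mo N) = 0) →
    (∀ c ∈ W, ∀ M : X →₀ ℕ, M.degree + 3 = W.card →
      (∀ U ⊆ W, c ∈ U → 2 * S.dgI U M + 6 ≤ W.card + U.card) → A (S.th c * S.mo M) = 0) →
    (∀ M : X →₀ ℕ, M.degree + 3 = W.card →
      (∀ U ⊆ W, 2 * S.dgI U M + 6 ≤ W.card + U.card) → A (S.lam W * S.mo M) = 0) →
    (∀ M : X →₀ ℕ, M.degree = 2 → M.support ∈ S.fcs W → 5 ≤ (S.cr M.support).card →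
      (∀ v ∈ M.support, 3 ≤ (S.car v).card) → ∀ (u : X) (N : X →₀ ℕ),
      NN S.car W (Finsupp.single u 1 + M) N → A (S.mo N) = 0) →
    ∀ N : X →₀ ℕ, N.degree + 2 = W.card → (∀ U ⊆ W, 2 * S.dgI U N + 4 ≤ W.card + U.card) →
      A (S.mo N) = 0

/-- The vanishing for eight points. -/
theorem vn8 (hT : S.Top S.K) (hC : ClsP S) (hW : 8 ≤ W.card) : Vn S W :=
  fun A hA => cm2_of hT hW (EE4_of hT hC (by omega)) (DD4_of hT hC (by omega)) A hA

/-- The vanishing for seven points. -/
theorem vn7 (hT : S.Top S.K) (hC : ClsP S) (hG : Vg7 S) (hW : W.card = 7) : Vn S W := by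
  intro A hA
  rcases isEmpty_or_nonempty X with hX | hX
  · intro N hN
    rw [show N = 0 from Finsupp.ext fun v => hX.elim v, map_zero] at hN
    omega
  obtain ⟨k, hk⟩ : ∃ k, W.card = k + 4 := ⟨W.card - 4, by omega⟩
  have hA0 : Nf S W (k + 2) A := fun M hM h => hA.face M (by omega) h
  refine hG W hW A hA.face (fun c hc M hM hU => ?_) (fun M hM hU => ?_)
    (base7 hT hW (EE4_of hT hC (by omega)) (DD4_of hT hC (by omega)) A hA)
  · by_cases hf : M.support ∈ S.fcs W
    · have h1 := untyped_of_dg (C := {c}) (Finset.singleton_subset_iff.2 hc) hf hM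
        fun U hUW hcU => hU U hUW (Finset.singleton_subset_iff.1 hcU)
      refine hA.th c hc M hM hf ?_ h1.2
      rw [Finset.erase_eq]
      exact h1.1
    · exact hA0.th_mo c (by omega) hf
  · by_cases hf : M.support ∈ S.fcs W
    · have h1 := untyped_of_dg (C := ∅) (Finset.empty_subset _) hf hM fun U hUW _ => hU U hUW
      refine hA.lam M hM hf ?_ h1.2
      have h2 := h1.1
      rwa [Finset.sdiff_empty] at h2
    · exact hA0.lam_mo (by omega) hf

/-- The step `i = 4` for eleven and more points. -/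
theorem step4_11 (hT : S.Top S.K) (hC : ClsP S) (hV : 11 ≤ V.card) :
    (S.ell V).coeff 4 ≤ (S.ell V).coeff 5 :=
  step4_of_vn hT (by omega) fun _ _ hW => vn8 hT hC (by omega)

/-- The step `i = 4` for ten and more points. -/
theorem step4_10 (hT : S.Top S.K) (hC : ClsP S) (hG : Vg7 S) (hV : 10 ≤ V.card) :
    (S.ell V).coeff 4 ≤ (S.ell V).coeff 5 := by
  refine step4_of_vn hT (by omega) fun W _ hW => ?_
  rcases Nat.lt_or_ge W.card 8 with h | h
  · exact vn7 hT hC hG (by omega)
  · exact vn8 hT hC h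

end Pool.Agent.LH4
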