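import Pool.Agent.LH4.Fi4
import Pool.Agent.LH4.Cls

/-!
# The step `i = 4` for eleven and more points
-/

set_option autoImplicit false

namespace Pool.Agent.LH4

open Pool.Agent.LocH

variable {X Ω : Type} [Fintype X] [DecidableEq X] [Fintype Ω] [DecidableEq Ω] {S : Sub X Ω}
  {V : Finset Ω}

/-- The step `i = 4` for eleven and more points. -/
theorem step4_ge11 (hT : S.Top S.K) (hV : 11 ≤ V.card) :
    (S.ell V).coeff 4 ≤ (S.ell V).coeff 5 :=
  step4_11 hT (cls hT) hV

/-- The step `i = 4` for ten and more points, from the descent for seven points. -/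
theorem step4_of_vg7 (hT : S.Top S.K) (hG : Vg7 S) (hV : 10 ≤ V.card) :
    (S.ell V).coeff 4 ≤ (S.ell V).coeff 5 :=
  step4_10 hT (cls hT) hG hV

end Pool.Agent.LH4
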