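import Pool.Agent.LH4.V7b

/-!
# Forms on the monomials of degree `|W| - 2`, `|W| = 7`: all good monomials
-/

set_option autoImplicit false
set_option linter.unusedSectionVars false

open Finset

namespace Pool.Agent.LH4

open Pool.Agent.LocH

variable {X Ω : Type} [Fintype X] [DecidableEq X] [Fintype Ω] [DecidableEq Ω] {S : Sub X Ω}
  {W : Finset Ω} {F : S.T →ₗ[S.K] S.K}

/-! ### Products with two large vertices -/

/-- The products with the vertices `a` and `b` of a wide pair. -/
theorem stY (hT : S.Top S.K) (hW : W.card = 7) (hF : In7 S W F) {a b : X} (hab : Wide S a b)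
    (hB : ∀ q : X →₀ ℕ, q.degree = 3 → (∀ E ⊆ W, E.card ≤ 2 * S.dgC E q +
      S.dgC E (Finsupp.single a 1 + Finsupp.single b 1)) →
      F (S.mo (Finsupp.single a 1 + Finsupp.single b 1 + q)) = 0) :
    ∀ q : X →₀ ℕ, q.degree = 3 →
      F (S.mo (Finsupp.single a 1 + Finsupp.single b 1 + q)) = 0 := by
  have key : ∀ k : ℕ, ∀ q : X →₀ ℕ, q.degree = 3 → 7 ≤ (S.cr q.support).card + k →
      F (S.mo (Finsupp.single a 1 + Finsupp.single b 1 + q)) = 0 := by
    intro k
    induction k with
    | zero =>
      intro q hq hk
      exact stX hT hW hF hab hB hq (by omega)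
    | succ k ih =>
      intro q hq hk
      rcases Nat.lt_or_ge 5 (S.cr q.support).card with h6 | h6
      · exact stX hT hW hF hab hB hq (by omega)
      by_cases hsg : (Finsupp.single a 1 + Finsupp.single b 1 + q).support ∈ S.fcs W ∧
          S.Good W (Finsupp.single a 1 + Finsupp.single b 1 + q)
      swap
      · refine hF.bad _ ?_ hsg
        rw [map_add, map_add, Finsupp.degree_single, Finsupp.degree_single, hq]
      obtain ⟨hs, hg⟩ := hsg
      have hcar : ∀ v ∈ (Finsupp.single a 1 + Finsupp.single b 1 + q).support, S.car v ⊆ W :=
        fun v hv => car_sub_of_mem hs hv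
      have haW : S.car a ⊆ W := hcar a (by
        rw [Finsupp.mem_support_iff, Finsupp.add_apply, Finsupp.add_apply, Finsupp.single_eq_same]
        omega)
      have hbW : S.car b ⊆ W := hcar b (by
        rw [Finsupp.mem_support_iff, Finsupp.add_apply, Finsupp.add_apply, Finsupp.single_eq_same]
        omega)
      have hqs : q.support ∈ S.fcs W :=
        face_sub (fun v hv => mem_supp_addP.2 (Or.inr hv)) hs
      have hqW := (mem_fcs'.1 hqs).2
      have h0 : (W \ S.cr q.support).card + (S.cr q.support).card = W.card :=
        Finset.card_sdiff_add_card_eq_card hqW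
      have h1 : 3 ≤ (S.cr q.support).card := by
        have h2 := hg (W \ S.cr q.support) Finset.sdiff_subset
        have h3 : S.dgC (W \ S.cr q.support) q = 0 := dgC_of_cr Finset.disjoint_sdiff
        have h4 := dgC_one_le (S := S) (E := W \ S.cr q.support) a
        have h5 := dgC_one_le (S := S) (E := W \ S.cr q.support) b
        rw [S.dgC_add, S.dgC_add, h3] at h2
        omega
      refine hF.mx hT hqW (z := Finsupp.single a 1 + Finsupp.single b 1) (d := 2)
        (by rw [map_add, Finsupp.degree_single, Finsupp.degree_single]) (by omega) (by omega)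
        (by omega) ?_ hq (mem_fcs'.2 ⟨(mem_fcs'.1 hqs).1, Finset.Subset.refl _⟩)
        (Finset.Subset.refl _)
      intro C t v hC hC1 _ ht htU htc hv hvW hs' hg' hE
      have hcov := cov_add htc hv
      have hd : (Finsupp.single v 1 + t).degree = 3 := by rw [deg_single_add, ht]
      by_cases hvU : S.car v ⊆ S.cr q.support
      · exfalso
        rcases hE with hE | ⟨E, hEW, hE0, hE⟩
        · exact hE hvU
        have h2 := hg' E hEW
        rw [S.dgC_add, S.dgC_add, S.dgC_add (n := Finsupp.single v 1)] at h2
        rw [S.dgC_add, S.dgC_add] at hE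
        have h3 : ¬ Disjoint (S.car v) E := by
          intro h
          rw [dgC_nil h] at h2
          omega
        have h4 : S.dgC E t ≠ 0 := by
          intro h
          obtain ⟨c, hc, hcE⟩ := Finset.not_disjoint_iff.1 h3
          have hcC : c ∉ C := fun hcC => Finset.disjoint_left.1 hE0 hcE hcC
          exact Finset.disjoint_left.1 (cr_disj h) (htc (Finset.mem_sdiff.2 ⟨hvU hc, hcC⟩)) hcE
        have h5 := Finset.card_le_card hEW
        have h8 : (W \ E).card + E.card = W.card := Finset.card_sdiff_add_card_eq_card hEW
        have h6 : E.card = 7 → S.dgC E t = 2 := by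
          intro h
          have h7 : E = W := Finset.eq_of_subset_of_card_le hEW (by omega)
          rw [dgC_eq_degree, ht]
          intro w hw hd
          have h8 : S.car w ⊆ E := by
            rw [h7]
            exact (Finset.subset_biUnion_of_mem S.car hw).trans ((mem_fcs'.1 htU).2.trans hqW)
          obtain ⟨c, hc⟩ := Finset.card_pos.1 (car_pos (S := S) w)
          exact Finset.disjoint_left.1 hd hc (h8 hc)
        have ha1 := hab.l
        have hb1 := hab.r
        have hu1 := hab.u
        by_cases hda : Disjoint (S.car a) E
        · have h9 := Finset.card_le_card (Finset.subset_sdiff.2 ⟨haW, hda⟩)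
          rw [dgC_nil hda] at h2 hE
          by_cases hdb : Disjoint (S.car b) E
          · have h10 := Finset.card_le_card (Finset.union_subset
              (Finset.subset_sdiff.2 ⟨haW, hda⟩) (Finset.subset_sdiff.2 ⟨hbW, hdb⟩))
            rw [dgC_nil hdb] at h2 hE
            omega
          · rw [dgC_one hdb] at h2 hE
            omega
        · rw [dgC_one hda] at h2 hE
          by_cases hdb : Disjoint (S.car b) E
          · have h9 := Finset.card_le_card (Finset.subset_sdiff.2 ⟨hbW, hdb⟩)
            rw [dgC_nil hdb] at h2 hE
            omega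
          · rw [dgC_one hdb] at h2 hE
            omega
      · refine ih _ hd ?_
        have h2 : S.cr q.support ⊂ S.cr (Finsupp.single v 1 + t).support := by
          refine ⟨hcov, fun h => hvU (Finset.Subset.trans ?_ h)⟩
          rw [cr_single_add]
          exact Finset.subset_union_left
        have h3 := Finset.card_lt_card h2
        omega
  exact fun q hq => key 7 q hq (by omega)

/-! ### Products with one large vertex -/

theorem st2 (hT : S.Top S.K) (hW : W.card = 7) (hF : In7 S W F)
    (h2w : ∀ a b : X, Wide S a b → ∀ q : X →₀ ℕ, q.degree = 3 →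
      F (S.mo (Finsupp.single a 1 + Finsupp.single b 1 + q)) = 0)
    {a : X} (ha : 3 ≤ (S.car a).card) :
    ∀ q : X →₀ ℕ, q.degree = 4 → F (S.mo (Finsupp.single a 1 + q)) = 0 := by
  have key : ∀ k : ℕ, ∀ q : X →₀ ℕ, q.degree = 4 → 8 ≤ (S.cr q.support).card + k →
      F (S.mo (Finsupp.single a 1 + q)) = 0 := by
    intro k
    induction k with
    | zero =>
      intro q hq hk
      refine hF.bad _ (by rw [deg_single_add, hq]) fun h => ?_
      have h1 := Finset.card_le_card (mem_fcs'.1 h.1).2
      rw [cr_single_add] at h1
      have h2 := Finset.card_le_card (Finset.subset_union_right :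
        S.cr q.support ⊆ S.car a ∪ S.cr q.support)
      omega
    | succ k ih =>
      intro q hq hk
      by_cases hsg : (Finsupp.single a 1 + q).support ∈ S.fcs W ∧
          S.Good W (Finsupp.single a 1 + q)
      swap
      · exact hF.bad _ (by rw [deg_single_add, hq]) hsg
      obtain ⟨hs, hg⟩ := hsg
      have haW : S.car a ⊆ W := car_sub_of_mem hs (by
        rw [supp_single_add]
        exact Finset.mem_insert_self _ _)
      have hqs : q.support ∈ S.fcs W :=
        face_sub (fun v hv => mem_supp_addP.2 (Or.inr hv)) hs
      have hqW := (mem_fcs'.1 hqs).2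
      have h0 : (W \ S.cr q.support).card + (S.cr q.support).card = W.card :=
        Finset.card_sdiff_add_card_eq_card hqW
      have h1 : 5 ≤ (S.cr q.support).card := by
        have h2 := hg (W \ S.cr q.support) Finset.sdiff_subset
        have h3 : S.dgC (W \ S.cr q.support) q = 0 := dgC_of_cr Finset.disjoint_sdiff
        have h4 := dgC_one_le (S := S) (E := W \ S.cr q.support) a
        rw [S.dgC_add, h3] at h2
        omega
      have h1' := Finset.card_le_card hqW
      refine hF.mx hT hqW (z := Finsupp.single a 1) (d := 3)
        (by rw [Finsupp.degree_single]) (by omega) (by omega)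
        (by omega) ?_ hq (mem_fcs'.2 ⟨(mem_fcs'.1 hqs).1, Finset.Subset.refl _⟩)
        (Finset.Subset.refl _)
      intro C t v hC hC1 _ ht htU htc hv hvW hs' hg' hE
      have hcov := cov_add htc hv
      by_cases hvU : S.car v ⊆ S.cr q.support
      · rcases hE with hE | ⟨E, hEW, hE0, hE⟩
        · exact absurd hvU hE
        have h2 := hg' E hEW
        rw [S.dgC_add, S.dgC_add (n := Finsupp.single v 1)] at h2
        rw [S.dgC_add] at hE
        have h3 : ¬ Disjoint (S.car v) E := by
          intro h
          rw [dgC_nil h] at h2
          omega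
        have h4 : S.dgC E t ≠ 0 := by
          intro h
          obtain ⟨c, hc, hcE⟩ := Finset.not_disjoint_iff.1 h3
          have hcC : c ∉ C := fun hcC => Finset.disjoint_left.1 hE0 hcE hcC
          exact Finset.disjoint_left.1 (cr_disj h) (htc (Finset.mem_sdiff.2 ⟨hvU hc, hcC⟩)) hcE
        obtain ⟨w, t', rfl, hw, hw'⟩ := fac_one (S := S) (E := E) (q := t) (by omega)
        have h5 := Finset.card_le_card hEW
        have h8 : (W \ E).card + E.card = W.card := Finset.card_sdiff_add_card_eq_card hEW
        -- the colours outside of `U`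
        have hout : W \ S.cr q.support ⊆ S.car a := by
          intro c hc
          rw [Finset.mem_sdiff] at hc
          by_contra hca
          have h9 := hg' {c} (Finset.singleton_subset_iff.2 hc.1)
          have h10 : S.dgC {c} (Finsupp.single v 1 + (Finsupp.single w 1 + t')) = 0 := by
            refine dgC_of_cr ?_
            rw [Finset.disjoint_singleton_right, cr_single_add, Finset.mem_union, not_or]
            exact ⟨fun h => hc.2 (hvU h), fun h => hc.2 ((mem_fcs'.1 htU).2 h)⟩
          rw [S.dgC_add, h10, dgC_nil (Finset.disjoint_singleton_right.2 hca),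
            Finset.card_singleton] at h9
          omega
        have hp : S.dgC E t' = 0 := by
          have h6 : E.card = 7 → S.dgC E (Finsupp.single w 1 + t') = 3 := by
            intro h
            have h7 : E = W := Finset.eq_of_subset_of_card_le hEW (by omega)
            rw [dgC_eq_degree, ht]
            intro w' hw' hd
            have h8 : S.car w' ⊆ E := by
              rw [h7]
              exact (Finset.subset_biUnion_of_mem S.car hw').trans ((mem_fcs'.1 htU).2.trans hqW)
            obtain ⟨c, hc⟩ := Finset.card_pos.1 (car_pos (S := S) w')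
            exact Finset.disjoint_left.1 hd hc (h8 hc)
          by_cases hda : Disjoint (S.car a) E
          · have h9 := Finset.card_le_card (Finset.subset_sdiff.2 ⟨haW, hda⟩)
            rw [dgC_nil hda] at h2 hE
            omega
          · rw [dgC_one hda] at h2 hE
            omega
        -- the other colours of `E`
        have hin : E ∩ S.cr q.support ⊆ S.car w := by
          intro c hc
          rw [Finset.mem_inter] at hc
          have hcC : c ∉ C := fun hcC => Finset.disjoint_left.1 hE0 hc.1 hcC
          have h9 := htc (Finset.mem_sdiff.2 ⟨hc.2, hcC⟩)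
          rw [cr_single_add, Finset.mem_union] at h9
          exact h9.resolve_right fun h => Finset.disjoint_left.1 (cr_disj hp) h hc.1
        have hEu : E ⊆ S.car a ∪ S.car w := by
          intro c hc
          by_cases hcU : c ∈ S.cr q.support
          · exact Finset.mem_union_right _ (hin (Finset.mem_inter.2 ⟨hc, hcU⟩))
          · exact Finset.mem_union_left _ (hout (Finset.mem_sdiff.2 ⟨hEW hc, hcU⟩))
        have hwide : Wide S a w := by
          by_cases hda : Disjoint (S.car a) E
          · have hEw : E ⊆ S.car w := fun c hc =>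
              (Finset.mem_union.1 (hEu hc)).resolve_left fun h => Finset.disjoint_left.1 hda h hc
            have h9 := Finset.card_le_card (Finset.subset_sdiff.2 ⟨haW, hda⟩)
            have h10 := Finset.card_le_card hEw
            have h11 : (S.car a ∪ E).card = (S.car a).card + E.card :=
              Finset.card_union_of_disjoint hda
            have h12 := Finset.card_le_card (Finset.union_subset_union
              (Finset.Subset.refl (S.car a)) hEw)
            rw [dgC_nil hda] at h2 hE
            exact ⟨ha, by omega, by omega⟩
          · have h9 : (E ∩ S.cr q.support).card + (E \ S.cr q.support).card = E.card :=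
              Finset.card_inter_add_card_sdiff E _
            have h10 := Finset.card_le_card hin
            have h11 := Finset.card_le_card (Finset.sdiff_subset_sdiff hEW
              (Finset.Subset.refl (S.cr q.support)))
            have h12 := Finset.card_le_card hEu
            rw [dgC_one hda] at h2 hE
            exact ⟨ha, by omega, by omega⟩
        have h9 : (Finsupp.single a 1 + (Finsupp.single v 1 + (Finsupp.single w 1 + t')) :
            X →₀ ℕ) = Finsupp.single a 1 + Finsupp.single w 1 + (Finsupp.single v 1 + t') := by
          rw [add_left_comm (Finsupp.single v 1), add_assoc]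
        rw [h9]
        refine h2w a w hwide _ ?_
        rw [deg_single_add] at ht ⊢
        omega
      · refine ih _ (by rw [deg_single_add, ht]) ?_
        have h2 : S.cr q.support ⊂ S.cr (Finsupp.single v 1 + t).support := by
          refine ⟨hcov, fun h => hvU (Finset.Subset.trans ?_ h)⟩
          rw [cr_single_add]
          exact Finset.subset_union_left
        have h3 := Finset.card_lt_card h2
        omega
  exact fun q hq => key 8 q hq (by omega)

/-! ### All good monomials -/

/-- A monomial with small carriers. -/
theorem light_le {E : Finset Ω} {t : X →₀ ℕ} (hE : E ⊆ S.cr t.support)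
    (h : ∀ v ∈ t.support, (S.car v).card ≤ 2) : E.card ≤ 2 * S.dgC E t := by
  classical
  have h1 : E ⊆ (t.support.filter fun v => ¬ Disjoint (S.car v) E).biUnion S.car := by
    intro c hc
    obtain ⟨v, hv, hcv⟩ := Finset.mem_biUnion.1 (hE hc)
    exact Finset.mem_biUnion.2 ⟨v, Finset.mem_filter.2 ⟨hv, fun h =>
      Finset.disjoint_left.1 h hcv hc⟩, hcv⟩
  have h2 := (Finset.card_le_card h1).trans (Finset.card_biUnion_le_card_mul _ _ 2 fun v hv =>
    h v (Finset.mem_filter.1 hv).1)
  have h3 : (t.support.filter fun v => ¬ Disjoint (S.car v) E).card ≤ S.dgC E t := by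
    rw [Finset.card_eq_sum_ones]
    unfold Sub.dgC
    refine (Finset.sum_le_sum (f := fun _ => 1) (g := fun v => t v) fun v hv => ?_).trans
      (Finset.sum_le_sum_of_subset fun v hv => ?_)
    · have := Finsupp.mem_support_iff.1 (Finset.mem_filter.1 hv).1
      omega
    · exact Finset.mem_filter.2 ⟨Finset.mem_univ _, (Finset.mem_filter.1 hv).2⟩
  omega

/-- A good monomial covers all colours. -/
theorem good_cov {N : X →₀ ℕ} (hg : S.Good W N) : W ⊆ S.cr N.support := by
  intro c hc
  have h1 := hg {c} (Finset.singleton_subset_iff.2 hc)
  rw [Finset.card_singleton] at h1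
  exact mem_cr_of_dgC (S := S) (by omega)

theorem st3 (hT : S.Top S.K) (hW : W.card = 7) (hF : In7 S W F)
    (h1 : ∀ a : X, 3 ≤ (S.car a).card → ∀ q : X →₀ ℕ, q.degree = 4 →
      F (S.mo (Finsupp.single a 1 + q)) = 0) :
    ∀ N : X →₀ ℕ, N.degree = 5 → F (S.mo N) = 0 := by
  intro N hN
  by_cases hsg : N.support ∈ S.fcs W ∧ S.Good W N
  swap
  · exact hF.bad _ hN hsg
  obtain ⟨hs, hg⟩ := hsg
  have h2 := hF.mx hT (Finset.Subset.refl W) (z := 0) (d := 4) (by rw [map_zero]) (by omega)
    (by omega) (by omega) ?_ hN hs (good_cov hg)
  · rwa [zero_add] at h2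
  intro C t v hC hC1 _ ht htU htc hv hvW hs' hg' hE
  rw [zero_add]
  by_cases hl : ∀ w ∈ t.support, (S.car w).card ≤ 2
  · exfalso
    rcases hE with hE | ⟨E, hEW, hE0, hE⟩
    · exact hE hvW
    rw [zero_add] at hE
    have h3 : E ⊆ S.cr t.support := fun c hc =>
      htc (Finset.mem_sdiff.2 ⟨hEW hc, fun h => Finset.disjoint_left.1 hE0 hc h⟩)
    have h4 := light_le h3 hl
    omega
  · push Not at hl
    obtain ⟨w, hw, hw'⟩ := hl
    obtain ⟨t', ht', -⟩ := exists_s1 (v := w) (M := t) (by
      have := Finsupp.mem_support_iff.1 hw
      omega)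
    rw [ht', add_left_comm]
    refine h1 w (by omega) _ ?_
    rw [ht', deg_single_add] at ht
    rw [deg_single_add]
    omega

/-- The form `A` on the monomials of degree `5` which kills the relations that are available,
and is zero at the monomials `N` with `N ^ 2 = x_I u M` for all monomials `M` of degree two whose
factors have at least three colours, together at least five, is zero at all good monomials. -/
theorem vgf7 (hT : S.Top S.K) (hW : W.card = 7) (A : S.T →ₗ[S.K] S.K)
    (hface : ∀ N : X →₀ ℕ, N.degree + 2 = W.card → N.support ∉ S.fcs W → A (S.mo N) = 0)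
    (hth : ∀ c ∈ W, ∀ M : X →₀ ℕ, M.degree + 3 = W.card →
      (∀ U ⊆ W, c ∈ U → 2 * S.dgI U M + 6 ≤ W.card + U.card) → A (S.th c * S.mo M) = 0)
    (hlam : ∀ M : X →₀ ℕ, M.degree + 3 = W.card →
      (∀ U ⊆ W, 2 * S.dgI U M + 6 ≤ W.card + U.card) → A (S.lam W * S.mo M) = 0)
    (H0 : ∀ M : X →₀ ℕ, M.degree = 2 → M.support ∈ S.fcs W → 5 ≤ (S.cr M.support).card →
      (∀ v ∈ M.support, 3 ≤ (S.car v).card) → ∀ (u : X) (N : X →₀ ℕ),
      NN S.car W (Finsupp.single u 1 + M) N → A (S.mo N) = 0) :
    ∀ N : X →₀ ℕ, N.degree + 2 = W.card → (∀ U ⊆ W, 2 * S.dgI U N + 4 ≤ W.card + U.card) →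
      A (S.mo N) = 0 := by
  classical
  rcases isEmpty_or_nonempty X with hX | hX
  · intro N hN
    rw [show N = 0 from Finsupp.ext fun v => hX.elim v, map_zero] at hN
    omega
  -- the form at the good monomials
  set F : S.T →ₗ[S.K] S.K := lfm S fun N =>
    if N.support ∈ S.fcs W ∧ S.Good W N then A (S.mo N) else 0 with hF
  have hFm : ∀ N, F (S.mo N) = if N.support ∈ S.fcs W ∧ S.Good W N then A (S.mo N) else 0 :=
    fun N => by rw [hF, lfm_mo]
  have hFA : ∀ N : X →₀ ℕ, N.degree = 5 → S.Good W N → F (S.mo N) = A (S.mo N) := by
    intro N hN hg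
    rw [hFm]
    by_cases h : N.support ∈ S.fcs W
    · rw [if_pos ⟨h, hg⟩]
    · rw [if_neg fun h' => h h'.1, hface N (by omega) h]
  -- the two ways to count
  have hcnt : ∀ M : X →₀ ℕ, M.support ∈ S.fcs W → ∀ E ⊆ W,
      S.dgI E M + S.dgC (W \ E) M = M.degree := by
    intro M hM E hE
    have h1 := dgI_add_dgC (C := W \ E) hM
    rwa [Finset.sdiff_sdiff_eq_self hE] at h1
  have hIn : In7 S W F := by
    refine ⟨fun N _ h => by rw [hFm, if_neg h], fun c hc M hM h => ?_, fun M hM h => ?_⟩
    · by_cases hMs : M.support ∈ S.fcs W
      · have h1 := hth c hc M (by omega) fun U hU hcU => by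
          have h2 := hcnt M hMs U hU
          have h3 := h (W \ U) Finset.sdiff_subset fun h => (Finset.mem_sdiff.1 h).2 hcU
          have h4 : (W \ U).card + U.card = W.card := Finset.card_sdiff_add_card_eq_card hU
          omega
        rw [th_apply] at h1
        rw [← h1]
        refine Finset.sum_congr rfl fun v _ => ?_
        by_cases hv : c ∈ S.car v
        · rw [hFA _ (by rw [deg_single_add, hM])]
          intro E hE
          rw [S.dgC_add]
          by_cases hcE : c ∈ E
          · have h2 := h (E.erase c) ((Finset.erase_subset c E).trans hE)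
              (Finset.notMem_erase c E)
            have h3 := dgC_mono (S := S) (Finset.erase_subset c E) M
            have h4 := Finset.card_erase_add_one hcE
            rw [dgC_one fun h => Finset.disjoint_left.1 h hv hcE]
            omega
          · have h2 := h E hE hcE
            omega
        · rw [S.a_zero hv, zero_mul, zero_mul]
      · refine Finset.sum_eq_zero fun v _ => ?_
        rw [hFm, if_neg fun h => nface_add hMs v h.1, mul_zero]
    · by_cases hMs : M.support ∈ S.fcs W
      · have h1 := hlam M (by omega) fun U hU => by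
          have h2 := hcnt M hMs U hU
          have h3 := h (W \ U) Finset.sdiff_subset
          have h4 : (W \ U).card + U.card = W.card := Finset.card_sdiff_add_card_eq_card hU
          omega
        rw [lam_apply] at h1
        rw [← h1]
        refine Finset.sum_congr rfl fun v _ => ?_
        rw [hFA _ (by rw [deg_single_add, hM])]
        intro E hE
        rw [S.dgC_add]
        have h2 := h E hE
        omega
      · refine Finset.sum_eq_zero fun v _ => ?_
        rw [hFm, if_neg fun h => nface_add hMs v h.1]
  -- the pairs
  have hB : ∀ a b : X, Wide S a b → ∀ q : X →₀ ℕ, q.degree = 3 →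
      (∀ E ⊆ W, E.card ≤ 2 * S.dgC E q + S.dgC E (Finsupp.single a 1 + Finsupp.single b 1)) →
      F (S.mo (Finsupp.single a 1 + Finsupp.single b 1 + q)) = 0 := by
    intro a b hab q hq h
    rw [hFm]
    by_cases hsg : (Finsupp.single a 1 + Finsupp.single b 1 + q).support ∈ S.fcs W ∧
        S.Good W (Finsupp.single a 1 + Finsupp.single b 1 + q)
    swap
    · rw [if_neg hsg]
    rw [if_pos hsg]
    obtain ⟨J, r, hJ, hr⟩ := hall_cap (car := S.car) (W := W)
      (m := Finsupp.single a 1 + Finsupp.single b 1 + 2 • q) fun C hC => by
        have h1 := h C hC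
        have h2 : S.dgC C (Finsupp.single a 1 + Finsupp.single b 1 + 2 • q) =
            S.dgC C (Finsupp.single a 1 + Finsupp.single b 1) + 2 * S.dgC C q := by
          rw [S.dgC_add, two_nsmul, S.dgC_add (n := q)]
          omega
        have h3 : C.card ≤ S.dgC C (Finsupp.single a 1 + Finsupp.single b 1 + 2 • q) := by omega
        exact h3
    have h1 : r.degree = 1 := by
      have h2 := congrArg Finsupp.degree hr
      rw [map_add, map_sum, map_add, map_add, two_nsmul, map_add, Finsupp.degree_single,
        Finsupp.degree_single, hq] at h2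
      rw [Finset.sum_congr rfl fun c _ => Finsupp.degree_single (J c) 1, Finset.sum_const, hW,
        smul_eq_mul] at h2
      omega
    obtain ⟨u, rfl⟩ : ∃ u, r = Finsupp.single u 1 := by
      have h2 : r ≠ 0 := by
        rintro rfl
        rw [map_zero] at h1
        omega
      obtain ⟨u, hu⟩ := Finsupp.support_nonempty_iff.2 h2
      obtain ⟨r', hr', -⟩ := exists_s1 (v := u) (M := r) (by
        have := Finsupp.mem_support_iff.1 hu
        omega)
      refine ⟨u, ?_⟩
      rw [hr', deg_single_add] at h1
      rw [hr', (Finsupp.degree_eq_zero_iff _).1 (by omega : r'.degree = 0), add_zero]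
    refine H0 (Finsupp.single a 1 + Finsupp.single b 1) ?_ ?_ ?_ ?_ u _ ⟨J, hJ, ?_⟩
    · rw [map_add, Finsupp.degree_single, Finsupp.degree_single]
    · exact face_sub (fun v hv => mem_supp_addP.2 (Or.inl hv)) hsg.1
    · rw [cr_single_add]
      have h2 : S.cr (Finsupp.single b 1 : X →₀ ℕ).support = S.car b := by
        have h3 := cr_single_add (S := S) b 0
        rw [add_zero, Finsupp.support_zero] at h3
        rw [h3]
        unfold Sub.cr
        rw [Finset.biUnion_empty, Finset.union_empty]
      rw [h2]
      exact hab.u
    · intro v hv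
      rcases mem_supp_addP.1 hv with h2 | h2
      · rw [Finset.mem_singleton.1 (Finsupp.support_single_subset h2)]
        exact hab.l
      · rw [Finset.mem_singleton.1 (Finsupp.support_single_subset h2)]
        exact hab.r
    · rw [← add_assoc, hr, two_nsmul, two_nsmul]
      abel
  have hall := st3 hT hW hIn fun a ha => st2 hT hW hIn
    (fun a b hab => stY hT hW hIn hab (hB a b hab)) ha
  intro N hN hU
  have hN5 : N.degree = 5 := by omega
  by_cases hs : N.support ∈ S.fcs W
  · rw [← hFA N hN5 fun E hE => ?_]
    · exact hall N hN5
    · have h1 := hcnt N hs (W \ E) Finset.sdiff_subset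
      rw [Finset.sdiff_sdiff_eq_self hE] at h1
      have h2 := hU (W \ E) Finset.sdiff_subset
      have h3 : (W \ E).card + E.card = W.card := Finset.card_sdiff_add_card_eq_card hE
      omega
  · exact hface N hN hs

end Pool.Agent.LH4
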