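import Pool.Agent.LH4.Fi5
import Pool.Agent.LH4.V7c

/-!
# The step `i = 4` for ten and more points
-/

set_option autoImplicit false

namespace Pool.Agent.LH4

open Pool.Agent.LocH

variable {X Ω : Type} [Fintype X] [DecidableEq X] [Fintype Ω] [DecidableEq Ω] {S : Sub X Ω}
  {V : Finset Ω}

/-- The descent for seven points. -/
theorem vg7 (hT : S.Top S.K) : Vg7 S :=
  fun _ hW A hface hth hlam H0 => vgf7 hT hW A hface hth hlam H0

/-- The step `i = 4` for ten and more points. -/
theorem step4_ge10 (hT : S.Top S.K) (hV : 10 ≤ V.card) :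
    (S.ell V).coeff 4 ≤ (S.ell V).coeff 5 :=
  step4_of_vg7 hT (vg7 hT) hV

end Pool.Agent.LH4
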