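import Pool.Agent.LocH.GDef
import Pool.Agent.LocH.Var

/-!
# The sheets of a vertex, the formal faces, relations

`W` is a set of coordinates with `m` elements.  Text: `/team-store/h97_Cm9_text.md`, section 0.
-/

set_option autoImplicit false

open Finset

namespace Pool.Agent.LH4

open Pool.Agent.LocH

variable {X Ω : Type} [Fintype X] [DecidableEq X] [Fintype Ω] [DecidableEq Ω] (S : Sub X Ω)

/-- The sheets of the vertex `w`: the sets `Y` of `|W| - 3` coordinates such that the carrier of `w`
contains the three other coordinates of `W`. -/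
def shs (W : Finset Ω) (w : X) : Finset (Finset Ω) :=
  W.powerset.filter fun Y => S.car w ⊆ W ∧ Y.card + 3 = W.card ∧ W \ Y ⊆ S.car w

/-- The faces of the restrictions to the sheets of `w`. -/
def Bw (W : Finset Ω) (w : X) : Finset (Finset X) :=
  (S.fcs W).filter fun ρ => ∃ Y ∈ shs S W w, S.cr ρ ⊆ Y

/-- The faces of the restriction to `W` and the formal faces `w ∪ ρ`. -/
def Fw (W : Finset Ω) (w : X) : Finset (Finset X) :=
  S.fcs W ∪ (Bw S W w).image (insert w)

/-- The formal faces for all vertices. -/
def Fp (W : Finset Ω) : Finset (Finset X) :=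
  S.fcs W ∪ univ.biUnion fun w => (Bw S W w).image (insert w)

/-- `N` is the product of `w` and a monomial on `B_w`. -/
def Iw (W : Finset Ω) (w : X) (N : X →₀ ℕ) : Prop :=
  ∃ M : X →₀ ℕ, M.support ∈ Bw S W w ∧ N = Finsupp.single w 1 + M

/-- The value of the functional `ω` at the vector of `u`. -/
noncomputable def ev (ω : Ω → S.K) (u : X) : S.K := ∑ c, ω c * S.a u c

/-- The functionals whose relations are used at the support `σ`; `C` is an additional part of the
carrier (`∅`, or the carrier of a vertex). -/
def Om (W C : Finset Ω) (σ : Finset X) (ω : Ω → S.K) : Prop :=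
  ∀ c, ω c ≠ 0 → c ∈ W ∧ W.erase c ⊆ C ∪ S.cr σ

/-- `L` kills the relations at the monomial `M`. -/
def Rl (W C : Finset Ω) (L : (X →₀ ℕ) → S.K) (M : X →₀ ℕ) : Prop :=
  ∀ ω : Ω → S.K, Om S W C M.support ω → ∑ u, ev S ω u * L (Finsupp.single u 1 + M) = 0

end Pool.Agent.LH4
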