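import Pool.Agent.LH4.Rep

/-!
# Exactness of `⊕ J_(U - c - c') → ⊕ J_(U - c) → J_U`

`kos_G`: if the linear forms `ρ c` kill the ideal of the complex and satisfy
`ρ_c (θ_c' z) = ρ_c' (θ_c z)`, `z ∈ J_(U - c - c')`, then `∑ ρ_c (y_c) = 0` whenever
`y_c ∈ J_(U - c)`, `∑ θ_c y_c ∈ I`.  By induction on `U` from the properties (alpha), (beta).
`kos`: then there is a linear form `φ` which kills the ideal of the complex, with
`φ (θ_c y) = ρ_c (y)` for `y ∈ J_(U - c)`.
-/

set_option autoImplicit false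

open Finset

namespace Pool.Agent.LH4

section gen

variable {Nd V K : Type} [Fintype Nd] [DecidableEq Nd] [Fintype V] [DecidableEq V] [Field K]
variable {S : LocG.Sub Nd V} {a : Nd → V → K}

open LocG LocG.Sub

/-- The elements of `K(W, U, Q)`. -/
theorem mem_KU {W U Q : Finset V} {n : ℕ} {y : MvPolynomial Nd K}
    (hy : y ∈ S.KU a W U Q (n + 1)) : ∃ z : V → MvPolynomial Nd K,
      (∀ c ∈ U, z c ∈ S.J K W (U.erase c ∪ Q) n) ∧
      y - ∑ c ∈ U, mth a c (z c) ∈ S.I K W (n + 1) := by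
  induction U using Finset.induction_on generalizing Q y with
  | empty =>
    rw [KU_empty] at hy
    exact ⟨0, fun c hc => absurd hc (Finset.notMem_empty c), by simpa using hy⟩
  | insert b U hb ih =>
    rw [KU_insert a W hb] at hy
    obtain ⟨u, hu, w, hw, rfl⟩ := Submodule.mem_sup.1 hy
    obtain ⟨x, hx, rfl⟩ := mem_sh.1 hu
    obtain ⟨z, hz, hz'⟩ := ih hw
    refine ⟨Function.update z b x, fun c hc => ?_, ?_⟩
    · rcases Finset.mem_insert.1 hc with rfl | hc'
      · rw [Function.update_self, Finset.erase_insert hb]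
        exact hx
      · have hcb : c ≠ b := fun h => hb (h ▸ hc')
        rw [Function.update_of_ne hcb, Finset.erase_insert_of_ne hcb.symm,
          Finset.insert_union, ← Finset.union_insert]
        exact hz c hc'
    · rw [Finset.sum_insert hb, Function.update_self]
      have h1 : ∑ c ∈ U, mth a c (Function.update z b x c) = ∑ c ∈ U, mth a c (z c) :=
        Finset.sum_congr rfl fun c hc => by
          have hcb : c ≠ b := fun h => hb (h ▸ hc)
          rw [Function.update_of_ne hcb]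
      rw [h1, add_sub_add_left_eq_sub]
      exact hz'

theorem KU_zero' (a : Nd → V → K) (W U Q : Finset V) : S.KU a W U Q 0 ≤ S.I K W 0 := by
  induction U using Finset.induction_on generalizing Q with
  | empty => rw [KU_empty]
  | insert b U hb ih =>
    rw [KU_insert a W hb]
    exact sup_le bot_le (ih (insert b Q))

omit [Fintype V] in
theorem sum_mem_KU {W U Q : Finset V} {n : ℕ} {z : V → MvPolynomial Nd K}
    (hz : ∀ c ∈ U, z c ∈ S.J K W (U.erase c ∪ Q) n) :
    ∑ c ∈ U, mth a c (z c) ∈ S.KU a W U Q (n + 1) := by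
  refine Submodule.sum_mem _ fun c hc => ?_
  have h1 : sh (mth a c) (S.J K W (U.erase c ∪ Q)) ≤ S.KU a W U Q :=
    le_sup_of_le_right (Finset.le_sup (f := fun b => sh (mth a b) (S.J K W (U.erase b ∪ Q))) hc)
  exact h1 (n + 1) (mem_sh.2 ⟨z c, hz c hc, rfl⟩)

theorem kos_G [CharP K 2] [Infinite K] (hT : S.Top K) (hg : S.Gen a) (U : Finset V)
    {W Q : Finset V} (hUW : U ⊆ W) (hQ : Q ⊆ W \ U) {n : ℕ}
    (ρ : V → MvPolynomial Nd K →ₗ[K] K) (h1 : ∀ c ∈ U, ∀ y ∈ S.I K W n, ρ c y = 0)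
    (h2 : ∀ c ∈ U, ∀ c' ∈ U, c ≠ c' → ∀ k, k + 1 = n →
      ∀ z ∈ S.J K W ((U.erase c).erase c' ∪ Q) k, ρ c (mth a c' z) = ρ c' (mth a c z))
    (y : V → MvPolynomial Nd K) (hy : ∀ c ∈ U, y c ∈ S.J K W (U.erase c ∪ Q) n)
    (hs : ∑ c ∈ U, mth a c (y c) ∈ S.I K W (n + 1)) : ∑ c ∈ U, ρ c (y c) = 0 := by
  induction U using Finset.induction_on generalizing Q y with
  | empty => exact Finset.sum_empty
  | insert b U hb ih =>
    have hbW : b ∈ W := hUW (Finset.mem_insert_self b U)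
    have hUW' : U ⊆ W := (Finset.subset_insert b U).trans hUW
    have hQ1 : Q ⊆ W \ U := fun q hq => by
      have h := Finset.mem_sdiff.1 (hQ hq)
      exact Finset.mem_sdiff.2 ⟨h.1, fun h' => h.2 (Finset.mem_insert_of_mem h')⟩
    have hQb : insert b Q ⊆ W \ U := Finset.insert_subset (Finset.mem_sdiff.2 ⟨hbW, hb⟩) hQ1
    have he : ∀ c ∈ U, (insert b U).erase c ∪ Q = U.erase c ∪ insert b Q := fun c hc => by
      have hcb : b ≠ c := fun h => hb (h ▸ hc)
      rw [Finset.erase_insert_of_ne hcb, Finset.insert_union, Finset.union_insert]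
    have hy' : ∀ c ∈ U, y c ∈ S.J K W (U.erase c ∪ insert b Q) n := fun c hc => by
      have h := hy c (Finset.mem_insert_of_mem hc)
      rwa [he c hc] at h
    have hyb : y b ∈ S.J K W (U ∪ Q) n := by
      have h := hy b (Finset.mem_insert_self b U)
      rwa [Finset.erase_insert hb] at h
    rw [Finset.sum_insert hb] at hs
    have h3 : mth a b (y b) ∈ S.KU a W U Q (n + 1) := by
      have h4 : mth a b (y b) = (mth a b (y b) + ∑ c ∈ U, mth a c (y c))
          - ∑ c ∈ U, mth a c (y c) := by abel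
      rw [h4]
      exact Submodule.sub_mem _ (I_le_KU a W U Q (n + 1) hs)
        (KU_anti a W U (Finset.subset_insert b Q) (n + 1) (sum_mem_KU hy'))
    have hab := alpha_beta hT hg U
    have h4 : y b ∈ S.KU a W U Q n :=
      alpha' (hab.1 W hUW') (fun Q' e' j1 j2 j3 j4 => hab.2 W Q' e' hUW' j1 j2 j3 j4) hQ1 hbW hb
        n (y b) hyb h3
    have h1b : ∀ y ∈ S.I K W n, ρ b y = 0 := h1 b (Finset.mem_insert_self b U)
    have h1U : ∀ c ∈ U, ∀ y ∈ S.I K W n, ρ c y = 0 :=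
      fun c hc => h1 c (Finset.mem_insert_of_mem hc)
    rw [Finset.sum_insert hb]
    cases n with
    | zero =>
      rw [h1b (y b) (KU_zero' a W U Q h4), zero_add]
      refine ih hUW' hQb h1U (fun _ _ _ _ _ k hk => absurd hk (Nat.succ_ne_zero k)) y hy' ?_
      have h5 : ∑ c ∈ U, mth a c (y c) = (mth a b (y b) + ∑ c ∈ U, mth a c (y c))
          - mth a b (y b) := by abel
      rw [h5]
      exact Submodule.sub_mem _ hs (S.sh_I a W b 1 (mem_sh.2 ⟨y b, KU_zero' a W U Q h4, rfl⟩))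
    | succ k =>
      obtain ⟨z, hz, hz'⟩ := mem_KU h4
      have h2' : ∀ c ∈ U, ∀ c' ∈ U, c ≠ c' → ∀ k', k' + 1 = k + 1 →
          ∀ z ∈ S.J K W ((U.erase c).erase c' ∪ insert b Q) k',
          ρ c (mth a c' z) = ρ c' (mth a c z) := by
        intro c hc c' hc' hcc k' hk' z hz
        refine h2 c (Finset.mem_insert_of_mem hc) c' (Finset.mem_insert_of_mem hc') hcc k' hk' z ?_
        have hcb : b ≠ c := fun h => hb (h ▸ hc)
        have hcb' : b ≠ c' := fun h => hb (h ▸ hc')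
        rw [Finset.erase_insert_of_ne hcb, Finset.erase_insert_of_ne hcb', Finset.insert_union,
          ← Finset.union_insert]
        exact hz
      have h5 := ih hUW' hQb h1U h2' (fun c => y c + mth a b (z c)) (fun c hc => ?_) ?_
      · rw [Finset.sum_congr rfl fun c _ => map_add (ρ c) (y c) (mth a b (z c)),
          Finset.sum_add_distrib] at h5
        have h6 : ρ b (y b) = ∑ c ∈ U, ρ c (mth a b (z c)) := by
          have h7 := h1b _ hz'
          rw [map_sub, map_sum, sub_eq_zero] at h7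
          rw [h7]
          refine Finset.sum_congr rfl fun c hc => ?_
          refine h2 b (Finset.mem_insert_self b U) c (Finset.mem_insert_of_mem hc)
            (fun h => hb (h ▸ hc)) k rfl (z c) ?_
          rw [Finset.erase_insert hb]
          exact hz c hc
        rw [h6, add_comm]
        exact h5
      · refine Submodule.add_mem _ (hy' c hc) ?_
        have h6 := S.sh_J hg W (U.erase c ∪ Q) b (k + 1) (mem_sh.2 ⟨z c, hz c hc, rfl⟩)
        rwa [← Finset.union_insert] at h6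
      · have h6 : ∑ c ∈ U, mth a c (y c + mth a b (z c)) =
            (mth a b (y b) + ∑ c ∈ U, mth a c (y c)) -
              mth a b (y b - ∑ c ∈ U, mth a c (z c)) := by
          rw [Finset.sum_congr rfl fun c _ => map_add (mth a c) (y c) (mth a b (z c)),
            Finset.sum_add_distrib, map_sub, map_sum]
          have h7 : ∀ c ∈ U, mth a c (mth a b (z c)) = mth a b (mth a c (z c)) := fun c _ => by
            have h8 := LinearMap.congr_fun (mth_comm a c b) (z c)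
            exact h8
          rw [Finset.sum_congr rfl h7]
          abel
        rw [h6]
        exact Submodule.sub_mem _ hs (S.sh_I a W b (k + 2) (mem_sh.2 ⟨_, hz', rfl⟩))

end gen

/-- Extension of a linear form. -/
theorem ext_form {K E V : Type} [Field K] [AddCommGroup E] [Module K E] [AddCommGroup V]
    [Module K V] (L : E →ₗ[K] V) (R : E →ₗ[K] K) (h : ∀ x, L x = 0 → R x = 0) :
    ∃ φ : V →ₗ[K] K, ∀ x, φ (L x) = R x := by
  have h1 : R ∈ LinearMap.range L.dualMap := by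
    rw [LinearMap.range_dualMap_eq_dualAnnihilator_ker, Submodule.mem_dualAnnihilator]
    exact fun x hx => h x (LinearMap.mem_ker.1 hx)
  obtain ⟨φ, hφ⟩ := h1
  exact ⟨φ, fun x => LinearMap.congr_fun hφ x⟩

open Pool.Agent.LocH

variable {X Ω : Type} [Fintype X] [DecidableEq X] [Fintype Ω] [DecidableEq Ω] {S : Sub X Ω}

theorem kos_sum (hT : S.Top S.K) {W U : Finset Ω} (hU : U ⊆ W) {n : ℕ}
    (ρ : Ω → S.T →ₗ[S.K] S.K) (h1 : ∀ c ∈ U, ∀ y ∈ S.I W, y ∈ S.H n → ρ c y = 0)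
    (h2 : ∀ c ∈ U, ∀ c' ∈ U, c ≠ c' → ∀ k, k + 1 = n →
      ∀ z ∈ S.J W ((U.erase c).erase c'), z ∈ S.H k → ρ c (S.th c' * z) = ρ c' (S.th c * z))
    (y : Ω → S.T) (hy : ∀ c ∈ U, y c ∈ S.J W (U.erase c)) (hn : ∀ c ∈ U, y c ∈ S.H n)
    (hs : ∑ c ∈ U, S.th c * y c ∈ S.I W) : ∑ c ∈ U, ρ c (y c) = 0 := by
  rcases isEmpty_or_nonempty Ω with hΩ | hΩ
  · rw [Finset.eq_empty_of_isEmpty U]
    exact Finset.sum_empty
  · have := S.charP_K
    have := S.infinite_K
    refine kos_G (S := S.toG) (a := S.a) (Q := ∅) (Sub.top_toG hT) S.gen_toG U hU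
      (Finset.empty_subset _) ρ ?_ ?_ y ?_ ?_ (n := n)
    · intro c hc y hy
      rw [← S.fm_I] at hy
      exact h1 c hc y hy.1 hy.2
    · intro c hc c' hc' hcc k hk z hz
      rw [Finset.union_empty, ← S.fm_J] at hz
      exact h2 c hc c' hc' hcc k hk z hz.1 hz.2
    · intro c hc
      rw [Finset.union_empty, ← S.fm_J]
      exact ⟨hy c hc, hn c hc⟩
    · rw [← S.fm_I]
      refine ⟨hs, ?_⟩
      refine Submodule.sum_mem _ fun c hc => ?_
      exact S.th_H c (hn c hc)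

/-- Extension of the linear forms `ρ c`. -/
theorem kos (hT : S.Top S.K) {W U : Finset Ω} (hU : U ⊆ W) {n : ℕ}
    (ρ : Ω → S.T →ₗ[S.K] S.K) (h1 : ∀ c ∈ U, ∀ y ∈ S.I W, y ∈ S.H n → ρ c y = 0)
    (h2 : ∀ c ∈ U, ∀ c' ∈ U, c ≠ c' → ∀ k, k + 1 = n →
      ∀ z ∈ S.J W ((U.erase c).erase c'), z ∈ S.H k → ρ c (S.th c' * z) = ρ c' (S.th c * z)) :
    ∃ φ : S.T →ₗ[S.K] S.K, (∀ y ∈ S.I W, y ∈ S.H (n + 1) → φ y = 0) ∧
      ∀ c ∈ U, ∀ y ∈ S.J W (U.erase c), y ∈ S.H n → φ (S.th c * y) = ρ c y := by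
  classical
  let P : {c // c ∈ U} → Submodule S.K S.T := fun c => S.J W (U.erase c.1) ⊓ S.H n
  let L : (∀ c, P c) →ₗ[S.K] (S.T ⧸ S.I W) :=
    ∑ c, (S.I W).mkQ ∘ₗ LinearMap.mulLeft S.K (S.th c.1) ∘ₗ (P c).subtype ∘ₗ LinearMap.proj c
  let R : (∀ c, P c) →ₗ[S.K] S.K := ∑ c, ρ c.1 ∘ₗ (P c).subtype ∘ₗ LinearMap.proj c
  have hL : ∀ y, L y = (S.I W).mkQ (∑ c, S.th c.1 * (y c : S.T)) := by
    intro y
    rw [map_sum]
    change (∑ c, (S.I W).mkQ ∘ₗ LinearMap.mulLeft S.K (S.th c.1) ∘ₗ (P c).subtype ∘ₗ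
      LinearMap.proj c) y = _
    rw [LinearMap.sum_apply]
    rfl
  have hR : ∀ y, R y = ∑ c, ρ c.1 (y c : S.T) := by
    intro y
    change (∑ c, ρ c.1 ∘ₗ (P c).subtype ∘ₗ LinearMap.proj c) y = _
    rw [LinearMap.sum_apply]
    rfl
  have hk : ∀ x, L x = 0 → R x = 0 := by
    intro x hx
    rw [hL, Submodule.mkQ_apply, Submodule.Quotient.mk_eq_zero] at hx
    rw [hR]
    have h3 := kos_sum hT hU ρ h1 h2 (fun c => if h : c ∈ U then (x ⟨c, h⟩ : S.T) else 0)
      (fun c hc => by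
        rw [dif_pos hc]
        exact (x ⟨c, hc⟩).2.1) (fun c hc => by
        rw [dif_pos hc]
        exact (x ⟨c, hc⟩).2.2) (by
        rw [← Finset.sum_attach]
        refine Set.mem_of_eq_of_mem ?_ hx
        refine Finset.sum_congr rfl fun c _ => ?_
        rw [dif_pos c.2])
    rw [← Finset.sum_attach] at h3
    rw [← h3]
    refine Finset.sum_congr rfl fun c _ => ?_
    rw [dif_pos c.2]
  obtain ⟨φ, hφ⟩ := ext_form (K := S.K) (E := ∀ c, P c) (V := S.T ⧸ S.I W) L R hk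
  refine ⟨φ ∘ₗ (S.I W).mkQ, fun y hy _ => ?_, fun c hc y hy hn => ?_⟩
  · have h3 : (S.I W).mkQ y = 0 := by
      rw [Submodule.mkQ_apply, Submodule.Quotient.mk_eq_zero]
      exact hy
    change φ ((S.I W).mkQ y) = 0
    rw [h3, map_zero]
  · have h3 := hφ (Pi.single ⟨c, hc⟩ ⟨y, hy, hn⟩)
    rw [hL, hR] at h3
    have h4 : ∀ c' : {c // c ∈ U}, c' ≠ ⟨c, hc⟩ →
        ((Pi.single (M := fun c => P c) ⟨c, hc⟩ ⟨y, hy, hn⟩ c' : P c') : S.T) = 0 := by
      intro c' hc'
      rw [Pi.single_eq_of_ne hc']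
      rfl
    rw [Finset.sum_eq_single ⟨c, hc⟩ (fun c' _ h => by rw [h4 c' h, mul_zero])
      (fun h => absurd (Finset.mem_univ _) h),
      Finset.sum_eq_single ⟨c, hc⟩ (fun c' _ h => by rw [h4 c' h, map_zero])
      (fun h => absurd (Finset.mem_univ _) h), Pi.single_eq_same] at h3
    exact h3

end Pool.Agent.LH4
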