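import Pool.Agent.LocG.SubM
import Pool.Agent.LocG.Trans
import Pool.Agent.LocG.Reso
import Pool.Agent.LocG.PolyR

/-!
# The star of a face: definitions, ideals, the complex of the rings `K[σ]`

Everything is divided by the product of the vertices of the face `t`: the carrier of a set `F` is that of
`F ∪ t`.  This is `LocG` with one more datum.
-/

set_option autoImplicit false

namespace Pool.Agent.LH4

open Finset
open Pool.Agent.LocG

/-- The combinatorial data of a subdivision, with a face `t`. -/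
structure SubT (Nd V : Type) [DecidableEq Nd] [DecidableEq V] where
  faces : Finset (Finset Nd)
  car : Nd → Finset V
  t : Finset Nd
  t_mem : t ∈ faces
  down : ∀ F ∈ faces, ∀ G, G ⊆ F → G ∈ faces
  card_le : ∀ F ∈ faces, F.card ≤ (F.biUnion car).card

namespace SubT

section

variable {Nd V : Type} [DecidableEq Nd] [DecidableEq V] (S : SubT Nd V)

/-- The carrier of `F ∪ t`. -/
def c (F : Finset Nd) : Finset V := (F ∪ S.t).biUnion S.car

/-- The faces of the star in `Γ_W`. -/
def inW (W : Finset V) (F : Finset Nd) : Prop := F ∪ S.t ∈ S.faces ∧ S.c F ⊆ W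

/-- The `W`-interior faces containing `t`. -/
def int (W : Finset V) (F : Finset Nd) : Prop := F ∈ S.faces ∧ S.t ⊆ F ∧ S.c F = W

instance (W : Finset V) (F : Finset Nd) : Decidable (S.inW W F) :=
  inferInstanceAs (Decidable (F ∪ S.t ∈ S.faces ∧ S.c F ⊆ W))

instance (W : Finset V) (F : Finset Nd) : Decidable (S.int W F) :=
  inferInstanceAs (Decidable (F ∈ S.faces ∧ S.t ⊆ F ∧ S.c F = W))

/-- The `W`-interior faces containing `t`, with one vertex more than `τ`, which contain `τ`. -/
def up (W : Finset V) (τ : Finset Nd) : Finset (Finset Nd) :=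
  S.faces.filter fun σ => S.t ⊆ σ ∧ S.c σ = W ∧ τ ⊆ σ ∧ σ.card = τ.card + 1

/-- The topological property. -/
structure Top (K : Type) [Field K] : Prop where
  exact : ∀ (W : Finset V) (G : Finset Nd), S.inW W G → ∀ j : ℕ, j < W.card → ∀ z : Finset Nd → K,
    (∀ τ, S.int W τ → G ⊆ τ → τ.card + 1 = j → ∑ σ ∈ S.up W τ, z σ = 0) →
    ∃ y : Finset Nd → K, ∀ σ, S.int W σ → G ⊆ σ → σ.card = j → z σ = ∑ ρ ∈ S.up W σ, y ρ
  const : ∀ (W : Finset V) (G : Finset Nd), S.inW W G → ∀ z : Finset Nd → K,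
    (∀ τ, S.int W τ → G ⊆ τ → τ.card + 1 = W.card → ∑ σ ∈ S.up W τ, z σ = 0) →
    ∀ σ σ', S.int W σ → G ⊆ σ → σ.card = W.card → S.int W σ' → G ⊆ σ' → σ'.card = W.card →
      z σ = z σ'
  facet : ∀ (W : Finset V) (G : Finset Nd), S.inW W G →
    ∃ σ, S.int W σ ∧ G ⊆ σ ∧ σ.card = W.card
  even : ∀ (W : Finset V) (τ : Finset Nd), S.int W τ → τ.card + 1 = W.card →
    Even (S.up W τ).card

end

variable {Nd V K : Type} [Fintype Nd] [DecidableEq Nd] [Fintype V] [DecidableEq V] [Field K]
  (S : SubT Nd V)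

variable (K) in
/-- The ideal of the star in `Γ_W`. -/
def I (W : Finset V) : Fam K (MvPolynomial Nd K) := mf K fun F => ¬S.inW W F

variable (K) in
/-- The monomials whose support is not in the star or has carrier containing `U`. -/
def J (W U : Finset V) : Fam K (MvPolynomial Nd K) := mf K fun F => S.inW W F → U ⊆ S.c F

/-- The matrix has the right zeros, and its rows are independent for every face. -/
structure Gen (a : Nd → V → K) : Prop where
  zero : ∀ v c, c ∉ S.car v → a v c = 0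
  minor : ∀ σ ∈ S.faces, ∃ f : σ → V, (Matrix.of fun u v : σ => a v (f u)).det ≠ 0

theorem c_mono {F G : Finset Nd} (h : F ⊆ G) : S.c F ⊆ S.c G :=
  Finset.biUnion_subset_biUnion_of_subset_left _ (Finset.union_subset_union_left h)

private theorem inW_erase {W : Finset V} {b : V} {F : Finset Nd} :
    S.inW (W.erase b) F ↔ S.inW W F ∧ b ∉ S.c F := by
  unfold inW
  rw [Finset.subset_erase, and_assoc]

theorem J_empty (W : Finset V) : S.J K W ∅ = TT K Nd :=
  mf_congr fun F => ⟨fun _ => trivial, fun _ _ => Finset.empty_subset _⟩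

theorem I_le_J (W U : Finset V) : S.I K W ≤ S.J K W U :=
  mf_mono fun F h1 h2 => absurd h2 h1

theorem J_le_T (W U : Finset V) : S.J K W U ≤ TT K Nd :=
  mf_mono fun F _ => trivial

theorem J_anti (W : Finset V) {U U' : Finset V} (h : U ⊆ U') : S.J K W U' ≤ S.J K W U :=
  mf_mono fun F h1 h2 => h.trans (h1 h2)

theorem J_inf (W U U' : Finset V) : S.J K W U ⊓ S.J K W U' = S.J K W (U ∪ U') := by
  refine (mf_inf _ _).trans (mf_congr fun F => ?_)
  exact ⟨fun h1 h2 => Finset.union_subset (h1.1 h2) (h1.2 h2),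
    fun h1 => ⟨fun h2 => (Finset.union_subset_iff.1 (h1 h2)).1,
      fun h2 => (Finset.union_subset_iff.1 (h1 h2)).2⟩⟩

theorem I_erase (W : Finset V) (b : V) : S.I K (W.erase b) = S.J K W {b} := by
  refine mf_congr fun F => ?_
  rw [inW_erase, Finset.singleton_subset_iff]
  tauto

theorem J_erase (W U : Finset V) (b : V) :
    S.J K (W.erase b) U = S.J K W U ⊔ S.J K W {b} := by
  refine Eq.trans ?_ (mf_sup _ _).symm
  refine mf_congr fun F => ?_
  rw [inW_erase, Finset.singleton_subset_iff]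
  tauto

theorem J_erase_le (W U : Finset V) (b : V) : S.J K W U ≤ S.J K (W.erase b) U := by
  rw [J_erase]
  exact le_sup_left

private theorem inW_insert {W : Finset V} {v : Nd} {F : Finset Nd}
    (h : S.inW W (insert v F)) : S.inW W F :=
  ⟨S.down _ h.1 _ (Finset.union_subset_union_left (Finset.subset_insert v F)),
    (S.c_mono (Finset.subset_insert v F)).trans h.2⟩

private theorem mem_c_insert {a : Nd → V → K} (hg : S.Gen a) {v : Nd} {b : V} (h : a v b ≠ 0)
    (F : Finset Nd) : b ∈ S.c (insert v F) := by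
  have h1 : b ∈ S.car v := by
    by_contra h2
    exact h (hg.zero v b h2)
  exact Finset.mem_biUnion.2 ⟨v, Finset.mem_union_left _ (Finset.mem_insert_self v F), h1⟩

theorem sh_J {a : Nd → V → K} (hg : S.Gen a) (W U : Finset V) (b : V) :
    sh (mth a b) (S.J K W U) ≤ S.J K W (insert b U) := by
  refine sh_mth fun F v h1 h2 h3 => ?_
  refine Finset.insert_subset (S.mem_c_insert hg h2 F) ?_
  exact (h1 (S.inW_insert h3)).trans (S.c_mono (Finset.subset_insert v F))

theorem sh_I (a : Nd → V → K) (W : Finset V) (b : V) :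
    sh (mth a b) (S.I K W) ≤ S.I K W :=
  sh_mth fun F v h1 _ h3 => h1 (S.inW_insert h3)

theorem sh_I_lf (l : Nd → K) (W : Finset V) :
    sh (LinearMap.mulLeft K (lf l)) (S.I K W) ≤ S.I K W :=
  sh_lf fun F v h1 _ h3 => h1 (S.inW_insert h3)

theorem indep {a : Nd → V → K} (hg : S.Gen a) {σ : Finset Nd} (hσ : σ ∈ S.faces) :
    LinearIndependent K fun v : σ => a v := by
  obtain ⟨f, hf⟩ := hg.minor σ hσ
  have h1 := Matrix.linearIndependent_cols_of_det_ne_zero hf
  exact LinearIndependent.of_comp (LinearMap.funLeft K K f) h1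

/-! ### The complex -/

variable (K) in
/-- the direct sum of the `K[σ]`, `σ` interior with `|W| - k` vertices -/
noncomputable def Mk (W : Finset V) (k : ℕ) : Fam K (EE Nd K) := fun n =>
  { carrier := {z | ∀ σ, (S.int W σ ∧ σ.card + k = W.card → z σ ∈ mf K (fun F => F ⊆ σ) n) ∧
      (¬(S.int W σ ∧ σ.card + k = W.card) → z σ = 0)}
    add_mem' := by
      intro z z' h h' σ
      refine ⟨fun hs => (mf K (fun F => F ⊆ σ) n).add_mem ((h σ).1 hs) ((h' σ).1 hs),
        fun hs => ?_⟩
      show z σ + z' σ = 0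
      rw [(h σ).2 hs, (h' σ).2 hs, add_zero]
    zero_mem' := fun σ => ⟨fun _ => (mf K (fun F => F ⊆ σ) n).zero_mem, fun _ => rfl⟩
    smul_mem' := by
      intro r z h σ
      refine ⟨fun hs => (mf K (fun F => F ⊆ σ) n).smul_mem r ((h σ).1 hs), fun hs => ?_⟩
      show r • z σ = 0
      rw [(h σ).2 hs, smul_zero] }

variable (K) in
/-- the boundary map -/
noncomputable def dd (W : Finset V) : EE Nd K →ₗ[K] EE Nd K :=
  LinearMap.pi fun τ => if S.int W τ then
    ∑ σ ∈ S.up W τ, (rs τ).toLinearMap ∘ₗ LinearMap.proj σ else 0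

variable (K) in
/-- the restriction to the facets -/
noncomputable def ff (W : Finset V) : MvPolynomial Nd K →ₗ[K] EE Nd K :=
  LinearMap.pi fun σ => if S.int W σ ∧ σ.card = W.card then (rs σ).toLinearMap else 0

omit [Fintype V] in
private theorem mf_rs {p : Finset Nd → Prop} {n : ℕ} {f : MvPolynomial Nd K} (σ : Finset Nd)
    (hf : f ∈ mf K p n) : rs σ f ∈ mf K (fun F => F ⊆ σ) n := by
  intro m hm
  rw [coeff_rs] at hm
  by_cases h : m.support ⊆ σ
  · rw [if_pos h] at hm
    exact ⟨(hf m hm).1, h⟩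
  · rw [if_neg h] at hm
    exact absurd rfl hm

theorem dd_apply (W : Finset V) (z : EE Nd K) (τ : Finset Nd) :
    S.dd K W z τ = if S.int W τ then ∑ σ ∈ S.up W τ, rs τ (z σ) else 0 := by
  show (if S.int W τ then
    ∑ σ ∈ S.up W τ, (rs τ).toLinearMap ∘ₗ LinearMap.proj σ else 0 : EE Nd K →ₗ[K] _) z = _
  split_ifs with h
  · rw [LinearMap.sum_apply]
    rfl
  · rfl

theorem ff_apply (W : Finset V) (f : MvPolynomial Nd K) (σ : Finset Nd) :
    S.ff K W f σ = if S.int W σ ∧ σ.card = W.card then rs σ f else 0 := by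
  show (if S.int W σ ∧ σ.card = W.card then (rs σ).toLinearMap else 0 :
    MvPolynomial Nd K →ₗ[K] _) f = _
  split_ifs with h
  · rfl
  · rfl

theorem mem_up {W : Finset V} {τ σ : Finset Nd} :
    σ ∈ S.up W τ ↔ S.int W σ ∧ τ ⊆ σ ∧ σ.card = τ.card + 1 := by
  unfold SubT.up SubT.int
  rw [Finset.mem_filter]
  tauto

theorem dd_op (W : Finset V) (l : Nd → K) : S.dd K W ∘ₗ op l = op l ∘ₗ S.dd K W := by
  refine LinearMap.ext fun z => funext fun τ => ?_
  rw [LinearMap.comp_apply, LinearMap.comp_apply, dd_apply, op_apply, dd_apply]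
  split_ifs with h
  · rw [map_mul, map_sum, Finset.mul_sum]
    refine Finset.sum_congr rfl fun σ hσ => ?_
    have h1 := (S.mem_up.1 hσ).2.1
    rw [op_apply, rs_rs h1, map_mul, rs_rs (Subset.refl τ)]
  · rw [mul_zero, map_zero]

theorem ff_op (W : Finset V) (l : Nd → K) :
    S.ff K W ∘ₗ LinearMap.mulLeft K (lf l) = op l ∘ₗ S.ff K W := by
  refine LinearMap.ext fun f => funext fun σ => ?_
  rw [LinearMap.comp_apply, LinearMap.comp_apply, ff_apply, op_apply, ff_apply,
    LinearMap.mulLeft_apply]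
  split_ifs with h
  · rw [map_mul, map_mul, rs_rs (Subset.refl σ)]
  · rw [mul_zero, map_zero]

private theorem Mk_mem {W : Finset V} {k n : ℕ} {z : EE Nd K} (hz : z ∈ S.Mk K W k n)
    (σ : Finset Nd) : z σ ∈ mf K (fun F => F ⊆ σ) n := by
  by_cases h : S.int W σ ∧ σ.card + k = W.card
  · exact (hz σ).1 h
  · rw [(hz σ).2 h]
    exact (mf K (fun F => F ⊆ σ) n).zero_mem

theorem sh_op_Mk (W : Finset V) (k : ℕ) (l : Nd → K) : sh (op l) (S.Mk K W k) ≤ S.Mk K W k := by
  intro n
  rcases n with _ | n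
  · exact bot_le
  · rintro _ ⟨z, hz, rfl⟩ σ
    refine ⟨fun _ => ?_, fun h => ?_⟩
    · rw [op_apply]
      have h1 : sh (LinearMap.mulLeft K (lf l)) (mf K (fun F => F ⊆ σ)) ≤
          mf K (fun _ => True) := sh_lf fun _ _ _ _ => trivial
      exact mf_rs σ (h1 (n + 1) ⟨z σ, S.Mk_mem hz σ, rfl⟩)
    · rw [op_apply, (hz σ).2 h, mul_zero, map_zero]

theorem dd_Mk (W : Finset V) (k : ℕ) : mapF (S.dd K W) (S.Mk K W k) ≤ S.Mk K W (k + 1) := by
  intro n
  rintro _ ⟨z, hz, rfl⟩ τ
  refine ⟨fun h => ?_, fun h => ?_⟩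
  · rw [dd_apply, if_pos h.1]
    exact Submodule.sum_mem _ fun σ _ => mf_rs τ (S.Mk_mem hz σ)
  · rw [dd_apply]
    split_ifs with h1
    · refine Finset.sum_eq_zero fun σ hσ => ?_
      have h2 := (S.mem_up.1 hσ).2.2
      rw [(hz σ).2 fun h3 => h ⟨h1, by omega⟩, map_zero]
    · rfl

theorem regSeq_Mk (W : Finset V) (k : ℕ) (l : ℕ → Nd → K)
    (hl : ∀ σ, S.int W σ → σ.card + k = W.card →
      LinearIndependent K fun (j : Fin (W.card - k)) (v : σ) => l j v) :
    RegSeq (S.Mk K W k) ⊥ ((List.range (W.card - k)).map fun j => op (l j)) := by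
  have hpi : ∀ {A : Finset Nd → Fam K (MvPolynomial Nd K)} {n : ℕ} {z : EE Nd K},
      z ∈ piF A n ↔ ∀ i, z i ∈ A i n := by
    intro A n z
    exact ⟨fun h i => h i (Set.mem_univ i), fun h i _ => h i⟩
  have h1 : S.Mk K W k = piF fun σ =>
      if S.int W σ ∧ σ.card + k = W.card then mf K (fun F => F ⊆ σ) else ⊥ := by
    funext n
    ext z
    rw [hpi]
    change (∀ σ, _ ∧ _) ↔ _
    refine forall_congr' fun σ => ?_
    by_cases h : S.int W σ ∧ σ.card + k = W.card
    · rw [if_pos h]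
      exact ⟨fun h2 => h2.1 h, fun h2 => ⟨fun _ => h2, fun h3 => absurd h h3⟩⟩
    · rw [if_neg h]
      exact ⟨fun h2 => h2.2 h, fun h2 => ⟨fun h3 => absurd h3 h, fun _ => h2⟩⟩
  have h2 : (⊥ : Fam K (EE Nd K)) = piF fun _ => ⊥ := by
    funext n
    ext z
    rw [hpi]
    constructor
    · intro h i
      have h3 : z = 0 := h
      rw [h3]
      exact zero_mem _
    · intro h
      have h3 : z = 0 := funext fun i => h i
      rw [h3]
      exact zero_mem _
  have h3 : ((List.range (W.card - k)).map fun j => op (l j)) =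
      ((List.range (W.card - k)).map fun j σ => opS σ (l j)).map piOp := by
    rw [List.map_map]
    rfl
  rw [h1, h2, h3]
  refine regSeq_pi _ _ _ fun σ => ?_
  rw [List.map_map]
  by_cases h : S.int W σ ∧ σ.card + k = W.card
  · rw [if_pos h]
    have h4 := hl σ h.1 h.2
    have h5 : W.card - k = σ.card := by omega
    rw [h5] at h4 ⊢
    exact regSeq_poly σ l h4
  · rw [if_neg h]
    exact regSeq_bot _ _

end SubT

end Pool.Agent.LH4
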