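import Pool.Agent.LH4.LD1b
import Pool.Agent.LocG.P2

/-!
# The star of a face: `T / I` is regular for `θ_c`, `c ∈ W`; its Hilbert function

As `LocG.P2`, for the faces which contain `t`.
-/

set_option autoImplicit false

namespace Pool.Agent.LH4

open Finset
open Pool.Agent.LocG

namespace SubT

variable {Nd V K : Type} [Fintype Nd] [DecidableEq Nd] [Fintype V] [DecidableEq V] [Field K]
  {S : SubT Nd V} {a : Nd → V → K}

/-- The `h`-polynomial of the star. -/
noncomputable def hW (S : SubT Nd V) (W : Finset V) : Polynomial ℤ :=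
  ∑ F ∈ univ.filter (S.inW W), Polynomial.X ^ F.card * (1 - Polynomial.X) ^ (W.card - F.card)

private theorem gl_le_iff {l : List (MvPolynomial Nd K →ₗ[K] MvPolynomial Nd K)}
    {A C : Fam K (MvPolynomial Nd K)} (h : ∀ η ∈ l, sh η A ≤ C) : gl l A ≤ C := by
  induction l with
  | nil => exact bot_le
  | cons η l ih =>
    rw [gl_cons]
    exact sup_le (h η List.mem_cons_self) (ih fun η' h' => h η' (List.mem_cons_of_mem η h'))

private theorem sh_le_gl {l : List (MvPolynomial Nd K →ₗ[K] MvPolynomial Nd K)}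
    {A : Fam K (MvPolynomial Nd K)} {η : MvPolynomial Nd K →ₗ[K] MvPolynomial Nd K}
    (h : η ∈ l) : sh η A ≤ gl l A := by
  induction l with
  | nil => exact absurd h List.not_mem_nil
  | cons η' l ih =>
    rw [gl_cons]
    rcases List.mem_cons.1 h with rfl | h
    · exact le_sup_left
    · exact (ih h).trans le_sup_right

/-- the linear form defined by a functional -/
private theorem lf_sum (a : Nd → V → K) (x : V → K) :
    lf (fun v => ∑ b, x b * a v b) = ∑ b, x b • th a b := by
  unfold th lf
  simp_rw [Finset.smul_sum]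
  rw [Finset.sum_comm]
  refine Finset.sum_congr rfl fun v _ => ?_
  rw [map_sum, Finset.sum_mul]
  refine Finset.sum_congr rfl fun b _ => ?_
  rw [map_mul, MvPolynomial.smul_eq_C_mul, mul_assoc]

/-- the functionals whose linear forms send `A` to `C` -/
private def NN (a : Nd → V → K) (A C : Submodule K (MvPolynomial Nd K)) :
    Submodule K (V → K) where
  carrier := {x | ∀ f ∈ A, (∑ b, x b • th a b) * f ∈ C}
  add_mem' := by
    intro x y hx hy f hf
    have h1 : (∑ b, (x + y) b • th a b) * f =
        (∑ b, x b • th a b) * f + (∑ b, y b • th a b) * f := by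
      rw [← add_mul, ← Finset.sum_add_distrib]
      congr 1
      refine Finset.sum_congr rfl fun b _ => ?_
      rw [Pi.add_apply, add_smul]
    rw [h1]
    exact C.add_mem (hx f hf) (hy f hf)
  zero_mem' := by
    intro f _
    have h1 : (∑ b, (0 : V → K) b • th a b) * f = 0 := by
      rw [Finset.sum_eq_zero, zero_mul]
      intro b _
      rw [Pi.zero_apply, zero_smul]
    rw [h1]
    exact C.zero_mem
  smul_mem' := by
    intro r x hx f hf
    have h1 : (∑ b, (r • x) b • th a b) * f = r • ((∑ b, x b • th a b) * f) := by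
      rw [← smul_mul_assoc, Finset.smul_sum]
      congr 1
      refine Finset.sum_congr rfl fun b _ => ?_
      rw [Pi.smul_apply, smul_eq_mul, mul_smul]
    rw [h1]
    exact C.smul_mem r (hx f hf)

private theorem single_sum (a : Nd → V → K) (b : V) :
    ∑ c, (Pi.single b (1 : K) : V → K) c • th a c = th a b := by
  rw [Finset.sum_eq_single b]
  · rw [Pi.single_eq_same, one_smul]
  · intro c _ hc
    rw [Pi.single_eq_of_ne hc, zero_smul]
  · intro h
    exact absurd (Finset.mem_univ b) h

private theorem gl_eq_gn (a : Nd → V → K) (W : Finset V) (ω : ℕ → V → K)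
    (hω : ∀ j, ∀ b, b ∉ W → ω j b = 0)
    (hs : ∀ x : V → K, (∀ b, b ∉ W → x b = 0) →
      x ∈ Submodule.span K (Set.range fun j : Fin W.card => ω j))
    (A : Fam K (MvPolynomial Nd K)) :
    gl ((List.range W.card).map fun j =>
      LinearMap.mulLeft K (lf fun v => ∑ b, ω j b * a v b)) A = gn (mth a) W A := by
  refine le_antisymm (gl_le_iff ?_) (gn_le ?_)
  · intro η hη
    obtain ⟨j, -, rfl⟩ := List.mem_map.1 hη
    intro n
    cases n with
    | zero => exact bot_le
    | succ n =>
      rintro _ ⟨f, hf, rfl⟩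
      have h1 : ω j ∈ NN a (A n) (gn (mth a) W A (n + 1)) := by
        rw [pi_eq_sum_univ' (ω j)]
        refine Submodule.sum_mem _ fun b _ => ?_
        by_cases hb : b ∈ W
        · refine Submodule.smul_mem _ _ ?_
          intro g hg
          rw [single_sum]
          exact (sh_le_gn (θ := mth a) (A := A) hb) (n + 1) (mem_sh.2 ⟨g, hg, rfl⟩)
        · rw [hω j b hb, zero_smul]
          exact Submodule.zero_mem _
      have h3 := h1 f hf
      rw [← lf_sum] at h3
      exact h3
  · intro b hb n
    cases n with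
    | zero => exact bot_le
    | succ n =>
      rintro _ ⟨f, hf, rfl⟩
      have h1 : (Pi.single b (1 : K) : V → K) ∈ NN a (A n) (gl ((List.range W.card).map fun j =>
          LinearMap.mulLeft K (lf fun v => ∑ b, ω j b * a v b)) A (n + 1)) := by
        have h2 := hs (Pi.single b 1) (by
          intro c hc
          refine Pi.single_eq_of_ne ?_ _
          rintro rfl
          exact hc hb)
        refine (Submodule.span_le.2 ?_) h2
        rintro _ ⟨j, rfl⟩
        intro g hg
        rw [← lf_sum]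
        exact (sh_le_gl (A := A) (List.mem_map.2 ⟨(j : ℕ), List.mem_range.2 j.2, rfl⟩)) (n + 1)
          (mem_sh.2 ⟨g, hg, rfl⟩)
      have h3 := h1 f hf
      rw [single_sum] at h3
      exact h3

theorem reg_T [CharP K 2] [Infinite K] (hT : S.Top K) (hg : S.Gen a) (W : Finset V) :
    Reg (mth a) W (TT K Nd) (S.I K W) := by
  have hIT : S.I K W ≤ TT K Nd := mf_mono fun _ _ => trivial
  by_cases hW : S.inW W ∅
  swap
  · have hI : TT K Nd ≤ S.I K W := mf_mono fun F _ hF => hW ⟨S.down _ hF.1 _ (by
      rw [Finset.empty_union]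
      exact Finset.subset_union_right), (S.c_mono (Finset.empty_subset F)).trans hF.2⟩
    intro Q _ e _ _ n y hy _
    exact (le_sup_left : S.I K W ≤ S.I K W ⊔ gn (mth a) Q (TT K Nd)) n (hI n hy)
  obtain ⟨ω, hω, hli⟩ := exists_eta a W (S.faces.filter fun σ => S.c σ ⊆ W)
    (fun σ hσ => S.indep hg (Finset.mem_filter.1 hσ).1)
    (fun σ hσ v hv b hb => hg.zero v b fun hb' => hb ((Finset.mem_filter.1 hσ).2
      (Finset.mem_biUnion.2 ⟨v, Finset.mem_union_left _ hv, hb'⟩)))
  have hint : ∀ σ, S.int W σ → σ ∈ S.faces.filter fun σ => S.c σ ⊆ W := fun σ hσ =>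
    Finset.mem_filter.2 ⟨hσ.1, hσ.2.2.subset⟩
  have hZ : ∀ k, k + 1 ≤ W.card → mapF (S.dd K W) (S.Mk K W k) =
      S.Mk K W (k + 1) ⊓ kerF (S.dd K W) := by
    intro k hk
    refine le_antisymm ?_ ?_
    · intro n
      rintro _ ⟨z, hz, rfl⟩
      exact ⟨S.dd_Mk W k n ⟨z, hz, rfl⟩, dd_dd W k n z hz⟩
    · rintro n z ⟨h1, h2⟩
      obtain ⟨y, hy, hy'⟩ := exact_Mk hT W hk n z h1 h2
      exact ⟨y, hy, hy'⟩
  have key : ∀ r, r ≤ W.card → RegSeq (S.Mk K W (W.card - r) ⊓ kerF (S.dd K W)) ⊥
      ((List.range r).map fun j => op fun v => ∑ b, ω j b * a v b) := by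
    intro r
    induction r with
    | zero =>
      intro _
      trivial
    | succ r ih =>
      intro hr
      have ih' := ih (by omega)
      obtain ⟨k, hk⟩ : ∃ k, W.card = k + (r + 1) := ⟨W.card - (r + 1), by omega⟩
      have e1 : W.card - r = k + 1 := by omega
      have e2 : W.card - (r + 1) = k := by omega
      have e3 : W.card - k = r + 1 := by omega
      rw [e1, ← hZ k (by omega)] at ih'
      rw [e2]
      have hb : mapF (S.dd K W) (⊥ : Fam K (EE Nd K)) = ⊥ := by
        funext n
        exact Submodule.map_bot _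
      have h1 := (regSeq_map (θ := fun j : ℕ => op fun v => ∑ b, ω j b * a v b)
        (θ' := fun j : ℕ => op fun v => ∑ b, ω j b * a v b) (S.dd K W)
        (fun j => S.dd_op W _) (A := S.Mk K W k) (B := ⊥) (List.range r)
        (fun j _ => S.sh_op_Mk W k _) bot_le).1 (by rw [hb]; exact ih')
      rw [bot_sup_eq] at h1
      have h2 := S.regSeq_Mk W k (fun j v => ∑ b, ω j b * a v b) (by
        intro σ hσ hc
        exact hli σ (hint σ hσ) (W.card - k) (by omega))
      rw [e3, List.range_succ, List.map_append] at h2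
      rw [List.range_succ, List.map_append]
      have hmem : ∀ α ∈ ((List.range r).map fun j => op fun v => ∑ b, ω j b * a v b) ++
          [op fun v => ∑ b, ω r b * a v b], ∃ l, α = op l := by
        intro α hα
        rcases List.mem_append.1 hα with h | h
        · obtain ⟨j, -, rfl⟩ := List.mem_map.1 h
          exact ⟨_, rfl⟩
        · rw [List.mem_singleton] at h
          exact ⟨_, h⟩
      refine regSeq_N (A := S.Mk K W k) ?_ ?_ ?_ ?_ bot_le inf_le_left h2 h1
      · intro α hα β hβ
        obtain ⟨l, rfl⟩ := hmem α hα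
        obtain ⟨l', rfl⟩ := hmem β hβ
        exact op_comm l l'
      · intro α hα
        obtain ⟨l, rfl⟩ := hmem α hα
        exact S.sh_op_Mk W k l
      · intro α hα
        obtain ⟨l, rfl⟩ := hmem α hα
        intro n
        cases n with
        | zero => exact bot_le
        | succ n =>
          rintro _ ⟨z, hz, rfl⟩
          refine ⟨S.sh_op_Mk W k l (n + 1) (mem_sh.2 ⟨z, hz.1, rfl⟩), ?_⟩
          have h3 : S.dd K W (op l z) = op l (S.dd K W z) :=
            LinearMap.congr_fun (S.dd_op W l) z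
          have h4 : S.dd K W z = 0 := hz.2
          change S.dd K W (op l z) = 0
          rw [h3, h4, map_zero]
      · intro α _
        rw [sh_bot]
  have key0 := key W.card le_rfl
  rw [Nat.sub_self] at key0
  have hf : mapF (S.ff K W) (TT K Nd) = S.Mk K W 0 ⊓ kerF (S.dd K W) := by
    refine le_antisymm ?_ ?_
    · intro n
      rintro _ ⟨f, hf, rfl⟩
      exact ⟨ff_mem W n f hf, dd_ff hT W f⟩
    · rintro n z ⟨h1, h2⟩
      obtain ⟨f, hf, hf'⟩ := ff_surj hT W n z h1 h2
      exact ⟨f, hf, hf'⟩
  have hker : TT K Nd ⊓ kerF (S.ff K W) = S.I K W := by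
    refine le_antisymm ?_ ?_
    · rintro n f ⟨h1, h2⟩
      exact (ff_ker hT W n f h1).1 h2
    · intro n f hf
      exact ⟨hIT n hf, (ff_ker hT W n f (hIT n hf)).2 hf⟩
  have hb : mapF (S.ff K W) (⊥ : Fam K (MvPolynomial Nd K)) = ⊥ := by
    funext n
    exact Submodule.map_bot _
  have hTT : ∀ l : Nd → K, sh (LinearMap.mulLeft K (lf l)) (TT K Nd) ≤ TT K Nd := fun l =>
    sh_lf fun _ _ _ _ => trivial
  have h5 := (regSeq_map
    (θ := fun j : ℕ => LinearMap.mulLeft K (lf fun v : Nd => ∑ b, ω j b * a v b))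
    (θ' := fun j : ℕ => op fun v => ∑ b, ω j b * a v b) (S.ff K W)
    (fun j => S.ff_op W _) (A := TT K Nd) (B := ⊥) (List.range W.card)
    (fun j _ => hTT _) bot_le).1 (by rw [hb, hf]; exact key0)
  rw [bot_sup_eq, hker] at h5
  obtain ⟨σ, hσ, -, hc⟩ := hT.facet W ∅ hW
  have hs := eta_span a W hω (hli σ (hint σ hσ) W.card hc.ge)
  have hmem : ∀ α ∈ (List.range W.card).map (fun j =>
      LinearMap.mulLeft K (lf fun v : Nd => ∑ b, ω j b * a v b)),
      ∃ l, α = LinearMap.mulLeft K (lf l) := by
    intro α hα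
    obtain ⟨j, -, rfl⟩ := List.mem_map.1 hα
    exact ⟨_, rfl⟩
  refine reg_of_regSeq (mth_comm a) (mf_fd _) ?_ ?_ ?_ ?_ ?_ hIT ?_ (gl_eq_gn a W ω hω hs _) h5
  · intro α hα β hβ
    obtain ⟨l, rfl⟩ := hmem α hα
    obtain ⟨l', rfl⟩ := hmem β hβ
    refine LinearMap.ext fun f => ?_
    change lf l * (lf l' * f) = lf l' * (lf l * f)
    exact mul_left_comm _ _ _
  · intro α hα
    obtain ⟨l, rfl⟩ := hmem α hα
    exact hTT l
  · intro α hα
    obtain ⟨l, rfl⟩ := hmem α hα
    exact S.sh_I_lf l W
  · intro c _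
    exact sh_mth fun _ _ _ _ => trivial
  · intro c _
    exact S.sh_I a W c
  · rw [List.length_map, List.length_range]

theorem dq_T [CharP K 2] [Infinite K] (hT : S.Top K) (hg : S.Gen a) (W : Finset V) (n : ℕ) :
    dq (TT K Nd) (S.I K W ⊔ gn (mth a) W (TT K Nd)) n = (S.hW W).coeff n := by
  have hIT : S.I K W ≤ TT K Nd := mf_mono fun _ _ => trivial
  have hle : ∀ F, S.inW W F → F.card ≤ W.card := fun F hF =>
    (Finset.card_le_card Finset.subset_union_left).trans
      ((S.card_le _ hF.1).trans (Finset.card_le_card hF.2))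
  refine psum_iter_inj W.card ?_ n
  intro n
  have h1 := reg_dq (A := TT K Nd) (mth_comm a) (mf_fd _) (fun c _ => sh_mth fun _ _ _ _ => trivial)
    (fun c _ => S.sh_I a W c) hIT (reg_T hT hg W) n
  rw [← h1]
  have h2 : dq (TT K Nd) (S.I K W) n = Module.finrank K (mf K (S.inW W) n) := by
    have h3 := dq_mf (K := K) (p := fun F => ¬S.inW W F) (q := fun _ => True)
      (fun _ _ => trivial) n
    rw [mf_congr (p := fun F => True ∧ ¬¬S.inW W F) (q := S.inW W) (fun F => by simp)] at h3
    exact h3
  rw [h2, card_mono (S.inW W) W.card hle n]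
  rfl

end SubT

end Pool.Agent.LH4
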