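import Pool.Agent.LH4.LD1c
import Pool.Agent.LocG.P3D

/-!
# The star of a face: the submodules `K(W, U, Q)`, the statements (alpha) and (beta)

As `LocG.P3A`, `LocG.P3B`, `LocG.P3C`, for the faces which contain `t`.
-/

set_option autoImplicit false

namespace Pool.Agent.LH4

open Finset
open Pool.Agent.LocG

namespace SubT

variable {Nd V K : Type} [Fintype Nd] [DecidableEq Nd] [Fintype V] [DecidableEq V] [Field K]

/-- `K(W, U, Q) = I^W + ∑_{b ∈ U} θ_b J_{(U - b) ∪ Q}^W` -/
noncomputable def KU (S : SubT Nd V) (a : Nd → V → K) (W U Q : Finset V) :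
    Fam K (MvPolynomial Nd K) :=
  S.I K W ⊔ U.sup fun b => sh (mth a b) (S.J K W (U.erase b ∪ Q))

/-- `K(W, U, ∅) + ∑_{b ∈ W - U} θ_b J_U^W` -/
noncomputable def XU (S : SubT Nd V) (a : Nd → V → K) (W U : Finset V) :
    Fam K (MvPolynomial Nd K) :=
  S.KU a W U ∅ ⊔ gn (mth a) (W \ U) (S.J K W U)

variable {S : SubT Nd V} {a : Nd → V → K}

private theorem sh_fsup {K' E ι : Type} [Field K'] [AddCommGroup E] [Module K' E]
    [DecidableEq ι] (η : E →ₗ[K'] E) (U : Finset ι) (f : ι → Fam K' E) :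
    sh η (U.sup f) = U.sup fun b => sh η (f b) := by
  induction U using Finset.induction_on with
  | empty => rw [Finset.sup_empty, Finset.sup_empty, sh_bot]
  | insert c U _ ih => rw [Finset.sup_insert, Finset.sup_insert, sh_sup, ih]

theorem KU_empty (a : Nd → V → K) (W Q : Finset V) : S.KU a W ∅ Q = S.I K W := by
  unfold KU
  rw [Finset.sup_empty, sup_bot_eq]

theorem I_le_KU (a : Nd → V → K) (W U Q : Finset V) : S.I K W ≤ S.KU a W U Q := by
  exact le_sup_left

theorem KU_le_J (hg : S.Gen a) (W U Q : Finset V) : S.KU a W U Q ≤ S.J K W (U ∪ Q) := by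
  refine sup_le (S.I_le_J W (U ∪ Q)) (Finset.sup_le fun b hb => ?_)
  refine (S.sh_J hg W (U.erase b ∪ Q) b).trans ?_
  rw [← Finset.insert_union, Finset.insert_erase hb]

theorem KU_anti (a : Nd → V → K) (W U : Finset V) {Q Q' : Finset V} (h : Q ⊆ Q') :
    S.KU a W U Q' ≤ S.KU a W U Q := by
  refine sup_le le_sup_left (Finset.sup_le fun b hb => ?_)
  refine le_trans (sh_mono (mth a b) (S.J_anti W (Finset.union_subset_union_right h))) ?_
  exact le_sup_of_le_right
    (Finset.le_sup (f := fun b => sh (mth a b) (S.J K W (U.erase b ∪ Q))) hb)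

theorem sh_KU_insert (hg : S.Gen a) (W U Q : Finset V) (e : V) :
    sh (mth a e) (S.KU a W U Q) ≤ S.KU a W U (insert e Q) := by
  unfold KU
  rw [sh_sup, sh_fsup]
  refine sup_le ((S.sh_I a W e).trans le_sup_left) (Finset.sup_le fun b hb => ?_)
  rw [sh_comm (mth_comm a e b)]
  refine le_trans (sh_mono (mth a b) (S.sh_J hg W (U.erase b ∪ Q) e)) ?_
  rw [← Finset.union_insert]
  exact le_sup_of_le_right
    (Finset.le_sup (f := fun b => sh (mth a b) (S.J K W (U.erase b ∪ insert e Q))) hb)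

theorem sh_KU (hg : S.Gen a) (W U Q : Finset V) (e : V) :
    sh (mth a e) (S.KU a W U Q) ≤ S.KU a W U Q := by
  exact (sh_KU_insert hg W U Q e).trans (KU_anti a W U (Finset.subset_insert e Q))

theorem KU_insert (a : Nd → V → K) (W : Finset V) {U : Finset V} {b : V} (hb : b ∉ U)
    (Q : Finset V) :
    S.KU a W (insert b U) Q = sh (mth a b) (S.J K W (U ∪ Q)) ⊔ S.KU a W U (insert b Q) := by
  unfold KU
  rw [Finset.sup_insert, Finset.erase_insert hb, sup_left_comm]
  congr 2
  refine Finset.sup_congr rfl fun b' hb' => ?_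
  have hne : b ≠ b' := fun h => hb (h ▸ hb')
  rw [Finset.erase_insert_of_ne hne, Finset.insert_union, Finset.union_insert]

theorem KU_erase (hg : S.Gen a) (W U Q : Finset V) (e : V) :
    S.KU a (W.erase e) U Q = S.J K W {e} ⊔ S.KU a W U Q := by
  unfold KU
  rw [S.I_erase]
  refine le_antisymm (sup_le le_sup_left (Finset.sup_le fun b hb => ?_))
    (sup_le le_sup_left (sup_le ((S.I_le_J W {e}).trans le_sup_left)
      (Finset.sup_le fun b hb => ?_)))
  · rw [S.J_erase, sh_sup]
    refine sup_le (le_sup_of_le_right (le_sup_of_le_right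
      (Finset.le_sup (f := fun b => sh (mth a b) (S.J K W (U.erase b ∪ Q))) hb))) ?_
    exact ((S.sh_J hg W {e} b).trans (S.J_anti W (Finset.subset_insert b {e}))).trans le_sup_left
  · refine le_trans (sh_mono (mth a b) (S.J_erase_le W (U.erase b ∪ Q) e)) ?_
    exact le_sup_of_le_right
      (Finset.le_sup (f := fun b => sh (mth a b) (S.J K (W.erase e) (U.erase b ∪ Q))) hb)

theorem XU_le_J (hg : S.Gen a) (W U : Finset V) : S.XU a W U ≤ S.J K W U := by
  refine sup_le ?_ (gn_le fun b _ => ?_)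
  · have h := KU_le_J (S := S) hg W U ∅
    rwa [Finset.union_empty] at h
  · exact (S.sh_J hg W U b).trans (S.J_anti W (Finset.subset_insert b U))

end SubT

namespace SubT

variable {Nd V K : Type} [Fintype Nd] [DecidableEq Nd] [Fintype V] [DecidableEq V] [Field K]

/-- `J_U^W / K(W, U, ∅)` is regular for `W \ U` -/
def Alpha (S : SubT Nd V) (a : Nd → V → K) (W U : Finset V) : Prop :=
  Reg (mth a) (W \ U) (S.J K W U) (S.KU a W U ∅)

/-- `J_{U ∪ Q + e}^W ∩ K(W, U, Q) ⊆ K(W, U, Q + e)` -/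
def Beta (S : SubT Nd V) (a : Nd → V → K) (W U Q : Finset V) (e : V) : Prop :=
  S.J K W (insert e (U ∪ Q)) ⊓ S.KU a W U Q ≤ S.KU a W U (insert e Q)

variable {S : SubT Nd V} {a : Nd → V → K}

theorem beta_iter {W U : Finset V}
    (hβ : ∀ Q e, Q ⊆ W \ U → e ∈ W → e ∉ U → e ∉ Q → S.Beta a W U Q e) (Q : Finset V)
    (hQ : Q ⊆ W \ U) : S.J K W (U ∪ Q) ⊓ S.KU a W U ∅ ≤ S.KU a W U Q := by
  induction Q using Finset.induction_on with
  | empty => exact inf_le_right
  | insert e Q he ih =>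
    have h1 := hQ (Finset.mem_insert_self e Q)
    rw [Finset.mem_sdiff] at h1
    have hQ' := (Finset.subset_insert e Q).trans hQ
    refine le_trans (le_inf ?_ ?_) (hβ Q e hQ' h1.1 h1.2 he)
    · rw [Finset.union_insert]
      exact inf_le_left
    · refine le_trans (inf_le_inf_right _ (S.J_anti W ?_)) (ih hQ')
      exact Finset.union_subset_union_right (Finset.subset_insert e Q)

theorem alpha' {W U : Finset V} (hα : S.Alpha a W U)
    (hβ : ∀ Q e, Q ⊆ W \ U → e ∈ W → e ∉ U → e ∉ Q → S.Beta a W U Q e) {Q : Finset V}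
    (hQ : Q ⊆ W \ U) {b : V} (hb : b ∈ W) (hbU : b ∉ U) :
    InjQ (mth a b) (S.J K W (U ∪ Q)) (S.KU a W U Q) := by
  intro n y hy h1
  have h2 : y ∈ S.J K W U n := S.J_anti W Finset.subset_union_left n hy
  have h3 : mth a b y ∈ (S.KU a W U ∅ ⊔ gn (mth a) ∅ (S.J K W U)) (n + 1) := by
    rw [gn_empty, sup_bot_eq]
    exact KU_anti a W U (Finset.empty_subset Q) (n + 1) h1
  have h4 := hα ∅ (Finset.empty_subset _) b (Finset.mem_sdiff.2 ⟨hb, hbU⟩)
    (Finset.notMem_empty b) n y h2 h3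
  rw [gn_empty, sup_bot_eq] at h4
  exact beta_iter hβ Q hQ n ⟨hy, h4⟩

private theorem KU_zero (a : Nd → V → K) (W U Q : Finset V) :
    S.KU a W U Q 0 ≤ S.I K W 0 := by
  induction U using Finset.induction_on generalizing Q with
  | empty => rw [KU_empty]
  | insert b U hb ih =>
    rw [KU_insert a W hb]
    exact sup_le bot_le (ih (insert b Q))

theorem beta_step (hg : S.Gen a) {U : Finset V} {b : V} (hb : b ∉ U)
    (hα : ∀ W, U ⊆ W → S.Alpha a W U)
    (hβ : ∀ W Q e, U ⊆ W → Q ⊆ W \ U → e ∈ W → e ∉ U → e ∉ Q → S.Beta a W U Q e)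
    {W Q : Finset V} {e : V} (hW : insert b U ⊆ W) (hQ : Q ⊆ W \ insert b U) (he : e ∈ W)
    (heU : e ∉ insert b U) (heQ : e ∉ Q) : S.Beta a W (insert b U) Q e := by
  have hbW : b ∈ W := hW (Finset.mem_insert_self b U)
  have hUW : U ⊆ W := (Finset.subset_insert b U).trans hW
  have heb : e ≠ b := fun h => heU (h ▸ Finset.mem_insert_self b U)
  have heU' : e ∉ U := fun h => heU (Finset.mem_insert_of_mem h)
  have hQ1 : Q ⊆ W \ U := fun q hq => by
    have h := Finset.mem_sdiff.1 (hQ hq)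
    exact Finset.mem_sdiff.2 ⟨h.1, fun h' => h.2 (Finset.mem_insert_of_mem h')⟩
  intro n y hy
  have hy1 : y ∈ S.J K W (insert e (insert b U ∪ Q)) n := hy.1
  have hy2 : y ∈ S.KU a W (insert b U) Q n := hy.2
  cases n with
  | zero => exact I_le_KU a W (insert b U) (insert e Q) 0 (KU_zero a W (insert b U) Q hy2)
  | succ k =>
    rw [KU_insert a W hb] at hy2
    obtain ⟨u, hu, w, hw, huw⟩ := Submodule.mem_sup.1 hy2
    obtain ⟨z, hz, hzu⟩ := mem_sh.1 hu
    have hWe : U ⊆ W.erase e := Finset.subset_erase.2 ⟨hUW, heU'⟩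
    have h1 : y ∈ S.I K (W.erase e) (k + 1) := by
      rw [I_erase]
      exact S.J_anti W (Finset.singleton_subset_iff.2 (Finset.mem_insert_self e _)) (k + 1) hy1
    have h2 : w ∈ S.KU a (W.erase e) U Q (k + 1) := by
      rw [KU_erase hg]
      exact (le_sup_right : S.KU a W U Q ≤ S.J K W {e} ⊔ S.KU a W U Q) (k + 1)
        (KU_anti a W U (Finset.subset_insert b Q) (k + 1) hw)
    have h3 : mth a b z ∈ S.KU a (W.erase e) U Q (k + 1) := by
      have h4 : mth a b z = y - w := by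
        rw [hzu, ← huw]
        abel
      rw [h4]
      exact Submodule.sub_mem _ (I_le_KU a _ U Q (k + 1) h1) h2
    have h4 : z ∈ S.J K (W.erase e) (U ∪ Q) k := S.J_erase_le W (U ∪ Q) e k hz
    have hQe : Q ⊆ W.erase e \ U := fun q hq => by
      have h := Finset.mem_sdiff.1 (hQ1 hq)
      exact Finset.mem_sdiff.2 ⟨Finset.mem_erase.2 ⟨fun h' => heQ (h' ▸ hq), h.1⟩, h.2⟩
    have h5 : z ∈ S.KU a (W.erase e) U Q k :=
      alpha' (hα _ hWe) (fun Q' e' j1 j2 j3 j4 => hβ _ Q' e' hWe j1 j2 j3 j4) hQe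
        (Finset.mem_erase.2 ⟨heb.symm, hbW⟩) hb k z h4 h3
    rw [KU_erase hg] at h5
    obtain ⟨z1, hz1, z2, hz2, hzz⟩ := Submodule.mem_sup.1 h5
    have h6 : z1 ∈ S.J K W (U ∪ Q) k := by
      have h7 : z1 = z - z2 := by
        rw [← hzz]
        abel
      rw [h7]
      exact Submodule.sub_mem _ hz (KU_le_J hg W U Q k hz2)
    have h7 : z1 ∈ S.J K W (U ∪ insert e Q) k := by
      have h8 : S.J K W (U ∪ Q) ⊓ S.J K W {e} = S.J K W (U ∪ insert e Q) := by
        rw [J_inf]
        congr 1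
        ext x
        simp only [Finset.mem_union, Finset.mem_insert, Finset.mem_singleton]
        tauto
      rw [← h8]
      exact ⟨h6, hz1⟩
    have h9 : mth a b z1 ∈ sh (mth a b) (S.J K W (U ∪ insert e Q)) (k + 1) :=
      mem_sh.2 ⟨z1, h7, rfl⟩
    have h10 : y - mth a b z1 = mth a b z2 + w := by
      rw [← huw, ← hzu, ← hzz, map_add]
      abel
    have h11 : mth a b z2 ∈ S.KU a W U (insert b Q) (k + 1) :=
      sh_KU_insert hg W U Q b (k + 1) (mem_sh.2 ⟨z2, hz2, rfl⟩)
    have h12 : y - mth a b z1 ∈ S.KU a W U (insert b Q) (k + 1) := by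
      rw [h10]
      exact Submodule.add_mem _ h11 hw
    have h13 : y - mth a b z1 ∈ S.J K W (insert e (U ∪ insert b Q)) (k + 1) := by
      have e1 : insert e (insert b U ∪ Q) = insert e (U ∪ insert b Q) := by
        ext x
        simp only [Finset.mem_union, Finset.mem_insert]
        tauto
      rw [← e1]
      refine Submodule.sub_mem _ hy1 ?_
      have h14 := S.sh_J hg W (U ∪ insert e Q) b (k + 1) h9
      have e2 : insert b (U ∪ insert e Q) = insert e (insert b U ∪ Q) := by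
        ext x
        simp only [Finset.mem_union, Finset.mem_insert]
        tauto
      rwa [e2] at h14
    have hQb : insert b Q ⊆ W \ U := Finset.insert_subset (Finset.mem_sdiff.2 ⟨hbW, hb⟩) hQ1
    have heQb : e ∉ insert b Q := fun h => by
      rcases Finset.mem_insert.1 h with h | h
      · exact heb h
      · exact heQ h
    have h15 : y - mth a b z1 ∈ S.KU a W U (insert e (insert b Q)) (k + 1) :=
      hβ W (insert b Q) e hUW hQb he heU' heQb (k + 1) ⟨h13, h12⟩
    rw [KU_insert a W hb, Finset.insert_comm b e]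
    have h16 : y = mth a b z1 + (y - mth a b z1) := by abel
    rw [h16]
    exact Submodule.add_mem_sup h9 h15

end SubT

private theorem fam_mod {K E : Type} [Field K] [AddCommGroup E] [Module K E]
    {A X G : Fam K E} (h : G ≤ A) : A ⊓ X ⊔ G = A ⊓ (X ⊔ G) :=
  funext fun n => inf_sup_assoc_of_le (X n) (h n)

private theorem fr_sup {K E : Type} [Field K] [AddCommGroup E] [Module K E]
    {A B : Submodule K E} [FiniteDimensional K A] [FiniteDimensional K B] :
    (Module.finrank K (A ⊔ B : Submodule K E) : ℤ) + Module.finrank K (A ⊓ B : Submodule K E) =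
      Module.finrank K A + Module.finrank K B := by
  exact_mod_cast Submodule.finrank_sup_add_finrank_inf_eq A B

namespace SubT

variable {Nd V K : Type} [Fintype Nd] [DecidableEq Nd] [Fintype V] [DecidableEq V] [Field K]
  {S : SubT Nd V} {a : Nd → V → K}

private theorem er_sd (W U : Finset V) (e : V) : W.erase e \ U = W \ insert e U := by
  ext x
  simp only [Finset.mem_sdiff, Finset.mem_erase, Finset.mem_insert, not_or]
  tauto

private theorem in_sd {W U : Finset V} {e : V} (he : e ∈ W) (heU : e ∉ U) :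
    insert e (W \ insert e U) = W \ U := by
  ext x
  simp only [Finset.mem_sdiff, Finset.mem_insert, not_or]
  constructor
  · rintro (rfl | h)
    · exact ⟨he, heU⟩
    · exact ⟨h.1, h.2.2⟩
  · intro h
    by_cases hx : x = e
    · exact Or.inl hx
    · exact Or.inr ⟨h.1, hx, h.2⟩

private theorem shJ (hg : S.Gen a) (W U : Finset V) (b : V) :
    sh (mth a b) (S.J K W U) ≤ S.J K W U :=
  (S.sh_J hg W U b).trans (S.J_anti W (Finset.subset_insert b U))

private theorem B_le (hg : S.Gen a) (W U : Finset V) : S.KU a W U ∅ ≤ S.J K W U := by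
  have h := KU_le_J hg W U ∅
  rwa [Finset.union_empty] at h

private theorem inf_B (hg : S.Gen a) {W U : Finset V} {e : V} (hβ : S.Beta a W U ∅ e) :
    S.J K W (insert e U) ⊓ S.KU a W U ∅ = S.KU a W U (insert e ∅) := by
  refine le_antisymm ?_ (le_inf ?_ (KU_anti a W U (Finset.empty_subset _)))
  · have h := hβ
    unfold Beta at h
    rwa [Finset.union_empty] at h
  · refine (KU_le_J hg W U (insert e ∅)).trans (S.J_anti W ?_)
    intro x hx
    rcases Finset.mem_insert.1 hx with h | h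
    · exact Finset.mem_union_right _ (Finset.mem_insert.2 (Or.inl h))
    · exact Finset.mem_union_left _ h

private theorem inf_X (hg : S.Gen a) {W U : Finset V} {e : V} (heU : e ∉ U)
    (hβ : S.Beta a W U ∅ e) :
    S.J K W (insert e U) ⊓ (S.KU a W U ∅ ⊔ sh (mth a e) (S.J K W U)) =
      S.KU a W (insert e U) ∅ := by
  rw [← fam_mod (S.sh_J hg W U e), inf_B hg hβ, KU_insert a W heU, Finset.union_empty,
    sup_comm]

private theorem sup_X (hg : S.Gen a) (W U : Finset V) (e : V) :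
    S.J K W (insert e U) ⊔ (S.KU a W U ∅ ⊔ sh (mth a e) (S.J K W U)) =
      S.J K W (insert e U) ⊔ S.KU a W U ∅ := by
  rw [← sup_assoc]
  exact sup_eq_left.2 ((S.sh_J hg W U e).trans le_sup_left)

private theorem er_sup (hg : S.Gen a) (W U : Finset V) (e : V) :
    S.J K W U ⊔ S.KU a (W.erase e) U ∅ = S.J K (W.erase e) U := by
  rw [KU_erase hg, S.J_erase, sup_comm (S.J K W {e}), ← sup_assoc, sup_eq_left.2 (B_le hg W U)]

private theorem er_inf (hg : S.Gen a) (W U : Finset V) (e : V) :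
    S.J K W U ⊓ S.KU a (W.erase e) U ∅ = S.J K W (insert e U) ⊔ S.KU a W U ∅ := by
  rw [KU_erase hg, ← fam_mod (B_le hg W U), S.J_inf]
  congr 2
  rw [Finset.union_comm]
  rfl

private theorem regA (hg : S.Gen a) {W U : Finset V} {e : V}
    (hα' : S.Alpha a (W.erase e) U) :
    Reg (mth a) (W \ insert e U) (S.J K W U) (S.J K W (insert e U) ⊔ S.KU a W U ∅) := by
  rw [← er_inf hg W U e]
  refine reg_inf (fun b _ => shJ hg W U b) (fun b _ => sh_KU hg (W.erase e) U ∅ b) ?_
  rw [er_sup hg W U e, ← er_sd W U e]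
  exact hα'

private theorem shA' (hg : S.Gen a) (W U : Finset V) (e b : V) :
    sh (mth a b) (S.J K W (insert e U) ⊔ S.KU a W U ∅) ≤
      S.J K W (insert e U) ⊔ S.KU a W U ∅ := by
  rw [sh_sup]
  exact sup_le_sup (shJ hg W (insert e U) b) (sh_KU hg W U ∅ b)

private theorem shX' (hg : S.Gen a) (W U : Finset V) (e b : V) :
    sh (mth a b) (S.KU a W U ∅ ⊔ sh (mth a e) (S.J K W U)) ≤
      S.KU a W U ∅ ⊔ sh (mth a e) (S.J K W U) := by
  rw [sh_sup, sh_comm (mth_comm a b e)]
  exact sup_le_sup (sh_KU hg W U ∅ b) (sh_mono _ (shJ hg W U b))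

private theorem A'_le (hg : S.Gen a) (W U : Finset V) (e : V) :
    S.J K W (insert e U) ⊔ S.KU a W U ∅ ≤ S.J K W U :=
  sup_le (S.J_anti W (Finset.subset_insert e U)) (B_le hg W U)

private theorem X'_le (hg : S.Gen a) (W U : Finset V) (e : V) :
    S.KU a W U ∅ ⊔ sh (mth a e) (S.J K W U) ≤ S.J K W (insert e U) ⊔ S.KU a W U ∅ :=
  sup_le le_sup_right ((S.sh_J hg W U e).trans le_sup_left)

private theorem lem (hg : S.Gen a) {W U : Finset V} {e : V} (he : e ∈ W)
    (heU : e ∉ U) (hα : S.Alpha a W U) (hα' : S.Alpha a (W.erase e) U) :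
    (∀ Q ⊆ W \ insert e U, (S.J K W (insert e U) ⊔ S.KU a W U ∅) ⊓
      (S.KU a W U ∅ ⊔ sh (mth a e) (S.J K W U) ⊔ gn (mth a) Q (S.J K W U)) ≤
      S.KU a W U ∅ ⊔ sh (mth a e) (S.J K W U) ⊔
        gn (mth a) Q (S.J K W (insert e U) ⊔ S.KU a W U ∅)) ∧
      Reg (mth a) (W \ insert e U) (S.J K W (insert e U) ⊔ S.KU a W U ∅)
        (S.KU a W U ∅ ⊔ sh (mth a e) (S.J K W U)) := by
  refine lemR (mth_comm a) (fun h => (Finset.mem_sdiff.1 h).2 (Finset.mem_insert_self e U))
    (fun b _ => shJ hg W U b) (fun b _ => shA' hg W U e b) (X'_le hg W U e) (A'_le hg W U e)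
    ?_ (regA hg hα')
  rw [in_sd he heU]
  exact hα

theorem alpha_step (hg : S.Gen a) {W U : Finset V} {e : V} (hU : U ⊆ W) (he : e ∈ W)
    (heU : e ∉ U) (hα : S.Alpha a W U) (hα' : S.Alpha a (W.erase e) U)
    (hβ : S.Beta a W U ∅ e) : S.Alpha a W (insert e U) := by
  unfold Alpha
  rw [← inf_X hg heU hβ]
  refine reg_inf (fun b _ => shJ hg W (insert e U) b) (fun b _ => shX' hg W U e b) ?_
  rw [sup_X hg W U e]
  exact (lem hg he heU hα hα').2

private theorem XU_eq {W U : Finset V} {e : V} (he : e ∈ W) (heU : e ∉ U) :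
    S.XU a W U = S.KU a W U ∅ ⊔ sh (mth a e) (S.J K W U) ⊔
      gn (mth a) (W \ insert e U) (S.J K W U) := by
  unfold XU
  rw [← in_sd he heU, gn_insert, sup_assoc]

private theorem gnA' (hg : S.Gen a) (W U : Finset V) (e : V) :
    S.KU a W U ∅ ⊔ sh (mth a e) (S.J K W U) ⊔
        gn (mth a) (W \ insert e U) (S.J K W (insert e U) ⊔ S.KU a W U ∅) =
      S.KU a W U ∅ ⊔ sh (mth a e) (S.J K W U) ⊔
        gn (mth a) (W \ insert e U) (S.J K W (insert e U)) := by
  refine le_antisymm (sup_le le_sup_left ?_) (sup_le_sup_left ?_ _)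
  · rw [gn_sup]
    refine sup_le le_sup_right (le_trans ?_ (le_sup_left.trans le_sup_left))
    exact gn_le fun b _ => sh_KU hg W U ∅ b
  · exact gn_mono _ (Finset.Subset.refl _) le_sup_left

theorem inf_XU (hg : S.Gen a) {W U : Finset V} {e : V} (hU : U ⊆ W) (he : e ∈ W)
    (heU : e ∉ U) (hα : S.Alpha a W U) (hα' : S.Alpha a (W.erase e) U)
    (hβ : S.Beta a W U ∅ e) : S.J K W (insert e U) ⊓ S.XU a W U ≤ S.XU a W (insert e U) := by
  have h1 : S.J K W (insert e U) ⊓ S.XU a W U ≤ S.J K W (insert e U) ⊓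
      (S.KU a W U ∅ ⊔ sh (mth a e) (S.J K W U) ⊔
        gn (mth a) (W \ insert e U) (S.J K W (insert e U))) := by
    refine le_inf inf_le_left ?_
    rw [← gnA' hg W U e, XU_eq he heU]
    exact (inf_le_inf_right _ le_sup_left).trans
      ((lem hg he heU hα hα').1 _ (Finset.Subset.refl _))
  refine h1.trans ?_
  rw [← fam_mod (gn_le fun b _ => shJ hg W (insert e U) b), inf_X hg heU hβ]
  exact le_refl _

theorem dq_XU (hg : S.Gen a) {W U : Finset V} {e : V} (hU : U ⊆ W) (he : e ∈ W)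
    (heU : e ∉ U) (hα : S.Alpha a W U) (hα' : S.Alpha a (W.erase e) U)
    (hβ : S.Beta a W U ∅ e) (n : ℕ) :
    dq (S.J K W (insert e U)) (S.XU a W (insert e U)) n =
      dq (S.J K W U) (S.XU a W U) n - dq (S.J K (W.erase e) U) (S.XU a (W.erase e) U) n := by
  have hfA : Fd (S.J K W U) := mf_fd _
  have hfA' : Fd (S.J K W (insert e U) ⊔ S.KU a W U ∅) := fun n => by
    have := hfA n
    exact Submodule.finiteDimensional_of_le (A'_le hg W U e n)
  -- the left side
  have h1 := dq_inf (θ := mth a) (A := S.J K W (insert e U))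
    (X := S.KU a W U ∅ ⊔ sh (mth a e) (S.J K W U)) (P := W \ insert e U)
    (fun b _ => shJ hg W (insert e U) b) (fun b _ => shX' hg W U e b)
    (by rw [sup_X hg W U e]; exact hfA') n
  rw [sup_X hg W U e, inf_X hg heU hβ] at h1
  -- the restriction
  have h2 := dq_inf (θ := mth a) (A := S.J K W U)
    (X := S.KU a (W.erase e) U ∅) (P := W \ insert e U)
    (fun b _ => shJ hg W U b) (fun b _ => sh_KU hg (W.erase e) U ∅ b)
    (by rw [er_sup hg W U e]; exact mf_fd _) n
  rw [er_sup hg W U e, er_inf hg W U e] at h2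
  have e1 : S.XU a W (insert e U) = S.KU a W (insert e U) ∅ ⊔
      gn (mth a) (W \ insert e U) (S.J K W (insert e U)) := rfl
  have e2 : S.XU a (W.erase e) U = S.KU a (W.erase e) U ∅ ⊔
      gn (mth a) (W \ insert e U) (S.J K (W.erase e) U) := by
    unfold XU
    rw [er_sd]
  rw [e1, e2, ← h1, h2, XU_eq he heU]
  -- the lattice identity
  set A := S.J K W U
  set A' := S.J K W (insert e U) ⊔ S.KU a W U ∅
  set X' := S.KU a W U ∅ ⊔ sh (mth a e) A
  set G := gn (mth a) (W \ insert e U) A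
  set G' := gn (mth a) (W \ insert e U) A'
  have k1 : A' ⊓ (X' ⊔ G) = X' ⊔ G' := by
    refine le_antisymm ((lem hg he heU hα hα').1 _ (Finset.Subset.refl _)) ?_
    refine le_inf (sup_le (X'_le hg W U e) (gn_le fun b _ => shA' hg W U e b)) ?_
    exact sup_le_sup_left (gn_mono _ (Finset.Subset.refl _) (A'_le hg W U e)) _
  have k2 : A' ⊔ (X' ⊔ G) = A' ⊔ G := by
    rw [← sup_assoc, sup_eq_left.2 (X'_le hg W U e)]
  have f0 := hfA n
  have f1 := hfA' n
  have f2 : FiniteDimensional K ((X' ⊔ G) n) := Submodule.finiteDimensional_of_le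
    ((sup_le ((X'_le hg W U e).trans (A'_le hg W U e))
      (gn_le fun b _ => shJ hg W U b) : X' ⊔ G ≤ A) n)
  have k3 := fr_sup (A := A' n) (B := (X' ⊔ G) n)
  have k4 : (A' n ⊔ (X' ⊔ G) n : Submodule K (MvPolynomial Nd K)) = (A' ⊔ G) n := congrFun k2 n
  have k5 : (A' n ⊓ (X' ⊔ G) n : Submodule K (MvPolynomial Nd K)) = (X' ⊔ G') n :=
    congrFun k1 n
  rw [k4, k5] at k3
  unfold dq
  linarith

end SubT

end Pool.Agent.LH4
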