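import Pool.Agent.LH4.LD1d

/-!
# The star of a face: the induction, and the results

As `LocG.P3D`, for the faces which contain `t`.
-/

set_option autoImplicit false

namespace Pool.Agent.LH4

open Finset
open Pool.Agent.LocG

namespace SubT

variable {Nd V K : Type} [Fintype Nd] [DecidableEq Nd] [Fintype V] [DecidableEq V] [Field K]

/-- The faces of the star of `t` in `Γ_W` with the carrier `W`. -/
def inC (S : SubT Nd V) (W : Finset V) (F : Finset Nd) : Prop := S.inW W F ∧ S.c F = W

instance (S : SubT Nd V) (W : Finset V) (F : Finset Nd) : Decidable (S.inC W F) :=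
  inferInstanceAs (Decidable (S.inW W F ∧ S.c F = W))

/-- The polynomial of the interior of the star. -/
noncomputable def hI (S : SubT Nd V) (W : Finset V) : Polynomial ℤ :=
  ∑ F ∈ univ.filter (S.inC W), Polynomial.X ^ F.card * (1 - Polynomial.X) ^ (W.card - F.card)

variable {S : SubT Nd V} {a : Nd → V → K}

omit [Fintype V] in
private theorem sub_erase {W U : Finset V} {e : V} (hU : U ⊆ W) (he : e ∉ U) :
    U ⊆ W.erase e := fun _ hx =>
  Finset.mem_erase.2 ⟨fun h => he (h ▸ hx), hU hx⟩

private theorem XU_empty (S : SubT Nd V) (a : Nd → V → K) (W : Finset V) :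
    S.XU a W ∅ = S.I K W ⊔ gn (mth a) W (TT K Nd) := by
  unfold XU
  rw [Finset.sdiff_empty, J_empty, KU_empty]

omit [Fintype V] in
private theorem XU_self (S : SubT Nd V) (a : Nd → V → K) (W : Finset V) :
    S.XU a W W = S.KU a W W ∅ := by
  unfold XU
  rw [Finset.sdiff_self, gn_empty, sup_bot_eq]

theorem alpha_beta [CharP K 2] [Infinite K] (hT : S.Top K) (hg : S.Gen a) (U : Finset V) :
    (∀ W, U ⊆ W → S.Alpha a W U) ∧
      ∀ W Q e, U ⊆ W → Q ⊆ W \ U → e ∈ W → e ∉ U → e ∉ Q → S.Beta a W U Q e := by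
  induction U using Finset.induction_on with
  | empty =>
    refine ⟨fun W _ => ?_, fun W Q e _ _ _ _ _ => ?_⟩
    · unfold Alpha
      rw [Finset.sdiff_empty, J_empty, KU_empty]
      exact reg_T hT hg W
    · unfold Beta
      rw [KU_empty, KU_empty]
      exact inf_le_right
  | insert b U hb ih =>
    obtain ⟨hα, hβ⟩ := ih
    refine ⟨fun W hW => ?_,
      fun W Q e hW hQ he heU heQ => beta_step hg hb hα hβ hW hQ he heU heQ⟩
    have hbW : b ∈ W := hW (Finset.mem_insert_self b U)
    have hUW : U ⊆ W := (Finset.subset_insert b U).trans hW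
    exact alpha_step hg hUW hbW hb (hα W hUW) (hα (W.erase b) (sub_erase hUW hb))
      (hβ W ∅ b hUW (Finset.empty_subset _) hbW hb (Finset.notMem_empty b))

theorem J_inf_X [CharP K 2] [Infinite K] (hT : S.Top K) (hg : S.Gen a) {W U : Finset V}
    (hU : U ⊆ W) : S.J K W W ⊓ (S.I K W ⊔ gn (mth a) W (TT K Nd)) ≤ S.XU a W U := by
  induction U using Finset.induction_on with
  | empty =>
    rw [XU_empty]
    exact inf_le_right
  | insert e U he ih =>
    have heW : e ∈ W := hU (Finset.mem_insert_self e U)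
    have hUW : U ⊆ W := (Finset.subset_insert e U).trans hU
    obtain ⟨hα, hβ⟩ := alpha_beta hT hg U
    have h1 := inf_XU hg hUW heW he (hα W hUW) (hα (W.erase e) (sub_erase hUW he))
      (hβ W ∅ e hUW (Finset.empty_subset _) heW he (Finset.notMem_empty e))
    refine le_trans (le_inf ?_ (ih hUW)) h1
    exact inf_le_left.trans (S.J_anti W hU)

theorem J_inf_eq [CharP K 2] [Infinite K] (hT : S.Top K) (hg : S.Gen a) (W : Finset V) :
    S.J K W W ⊓ (S.I K W ⊔ gn (mth a) W (TT K Nd)) = S.KU a W W ∅ := by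
  refine le_antisymm ?_ (le_inf ?_ ?_)
  · have h := J_inf_X hT hg (subset_refl W)
    rwa [XU_self] at h
  · have h := KU_le_J hg W W ∅
    rwa [Finset.union_empty] at h
  · unfold KU
    refine sup_le_sup_left ?_ _
    refine Finset.sup_le fun b hb => ?_
    exact (sh_mono _ (S.J_le_T W _)).trans (sh_le_gn hb)

theorem reg_JI [CharP K 2] [Infinite K] (hT : S.Top K) (hg : S.Gen a) {W U : Finset V}
    (hU : U ⊆ W) : Reg (mth a) W (S.J K W U) (S.I K W) := by
  induction U using Finset.induction_on generalizing W with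
  | empty =>
    rw [J_empty]
    exact reg_T hT hg W
  | insert e U he ih =>
    have heW : e ∈ W := hU (Finset.mem_insert_self e U)
    have hUW : U ⊆ W := (Finset.subset_insert e U).trans hU
    have hs : ∀ (U' : Finset V) (b : V), sh (mth a b) (S.J K W U') ≤ S.J K W U' := fun U' b =>
      (S.sh_J hg W U' b).trans (S.J_anti W (Finset.subset_insert b U'))
    have ih1 := ih hUW
    have ih2 := ih (sub_erase hUW he)
    rw [J_erase, I_erase] at ih2
    have h1 := reg_inf (fun b _ => hs U b) (fun b _ => hs {e} b) ih2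
    rw [J_inf, Finset.union_comm, ← Finset.insert_eq] at h1
    have hrP : Reg (mth a) (W.erase e) (S.J K W U) (S.I K W) := fun Q hQ b hb hbQ =>
      ih1 Q (hQ.trans (Finset.erase_subset e W)) b (Finset.mem_of_mem_erase hb) hbQ
    obtain ⟨h2, h3⟩ := lemN (mth_comm a) (fun b _ => hs U b) (fun b _ => hs (insert e U) b)
      (S.I_le_J W (insert e U)) (S.J_anti W (Finset.subset_insert e U)) hrP h1
    have h4 : InjQ (mth a e) (S.J K W (insert e U))
        (S.I K W ⊔ gn (mth a) (W.erase e) (S.J K W (insert e U))) := by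
      intro n y hy hy1
      refine h2 (W.erase e) (subset_refl _) n ⟨hy, ?_⟩
      refine ih1 (W.erase e) (Finset.erase_subset e W) e heW (Finset.notMem_erase e W) n y
        (S.J_anti W (Finset.subset_insert e U) n hy) ?_
      exact sup_le_sup_left (gn_mono (mth a) (subset_refl (W.erase e))
        (S.J_anti W (Finset.subset_insert e U))) (S.I K W) (n + 1) hy1
    have h5 := reg_insert (mth_comm a) (Finset.notMem_erase e W) (mf_fd _)
      (fun b _ => hs (insert e U) b) (fun b _ => S.sh_I a W b) (S.I_le_J W (insert e U)) h3 h4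
    rwa [Finset.insert_erase heW] at h5

/-- (S) -/
theorem dq_JI [CharP K 2] [Infinite K] (hT : S.Top K) (hg : S.Gen a) (W : Finset V) (n : ℕ) :
    dq (S.J K W W) (S.I K W ⊔ gn (mth a) W (S.J K W W)) n = (S.hI W).coeff n := by
  have hs : ∀ (b : V), sh (mth a b) (S.J K W W) ≤ S.J K W W := fun b =>
    (S.sh_J hg W W b).trans (S.J_anti W (Finset.subset_insert b W))
  refine psum_iter_inj W.card (fun m => ?_) n
  have hfd : Fd (S.J K W W) := mf_fd _
  rw [← reg_dq (mth_comm a) hfd (fun b _ => hs b) (fun b _ => S.sh_I a W b)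
    (S.I_le_J W W) (reg_JI hT hg (subset_refl W))]
  have h1 : ∀ F : Finset Nd, ((S.inW W F → W ⊆ S.c F) ∧ ¬¬S.inW W F) ↔ S.inC W F := by
    intro F
    unfold inC
    constructor
    · rintro ⟨h2, h3⟩
      rw [not_not] at h3
      exact ⟨h3, subset_antisymm h3.2 (h2 h3)⟩
    · rintro ⟨h2, h3⟩
      exact ⟨fun _ => h3.ge, not_not.2 h2⟩
  have h2 : dq (S.J K W W) (S.I K W) m = Module.finrank K (mf K (S.inC W) m) := by
    unfold J I
    rw [dq_mf (fun F hF h => absurd h hF), mf_congr h1]
  rw [h2, card_mono (S.inC W) W.card]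
  · rfl
  · rintro F ⟨hF, hc⟩
    exact (Finset.card_le_card Finset.subset_union_left).trans
      ((S.card_le _ hF.1).trans (Finset.card_le_card hF.2))

end SubT

end Pool.Agent.LH4
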