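import Pool.Agent.LH4.LDdef
import Pool.Agent.LH4.LD1e
import Pool.Agent.LocH.Bridge

/-!
# The star of a face: the dimension formulas and the exactness for `LocH.Sub`
-/

set_option autoImplicit false

open Finset

namespace Pool.Agent.LH4

open Pool.Agent.LocH

section Poly

variable {X : Type} [Fintype X] [DecidableEq X]

open Polynomial in
/-- The sum over the star is the sum over the faces containing `τ`. -/
theorem star_sum (τ : Finset X) (P : Finset (Finset X)) (m : ℕ)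
    (hP : ∀ F ∈ P, τ ⊆ F ∧ F.card ≤ m) :
    ∑ F ∈ univ.filter (fun F => F ∪ τ ∈ P), (Polynomial.X : ℤ[X]) ^ F.card *
        (1 - Polynomial.X) ^ (m - F.card) =
      ∑ F ∈ P, (Polynomial.X : ℤ[X]) ^ (F.card - τ.card) * (1 - Polynomial.X) ^ (m - F.card) := by
  rw [← Finset.sum_fiberwise_of_maps_to (g := fun F => F ∪ τ) (t := P)
    (fun F hF => (Finset.mem_filter.1 hF).2)]
  refine Finset.sum_congr rfl fun F' hF' => ?_
  obtain ⟨h1, h2⟩ := hP F' hF'
  have h3 : ∑ F ∈ (univ.filter (fun F => F ∪ τ ∈ P)).filter (fun F => F ∪ τ = F'),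
      (Polynomial.X : ℤ[X]) ^ F.card * (1 - Polynomial.X) ^ (m - F.card) =
      ∑ A ∈ τ.powerset, (Polynomial.X : ℤ[X]) ^ (F'.card - τ.card + A.card) *
        (1 - Polynomial.X) ^ (m - F'.card + (τ.card - A.card)) := by
    refine Finset.sum_nbij' (fun F => F ∩ τ) (fun A => (F' \ τ) ∪ A) ?_ ?_ ?_ ?_ ?_
    · intro F _
      exact Finset.mem_powerset.2 Finset.inter_subset_right
    · intro A hA
      have hA' := Finset.mem_powerset.1 hA
      have h4 : F' \ τ ∪ A ∪ τ = F' := by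
        rw [Finset.union_assoc, Finset.union_eq_right.2 hA', Finset.sdiff_union_of_subset h1]
      rw [Finset.mem_filter, Finset.mem_filter]
      refine ⟨⟨Finset.mem_univ _, ?_⟩, h4⟩
      rw [h4]
      exact hF'
    · intro F hF
      have h4 := (Finset.mem_filter.1 hF).2
      beta_reduce
      rw [← h4, Finset.union_sdiff_right]
      ext x
      simp only [Finset.mem_union, Finset.mem_sdiff, Finset.mem_inter]
      tauto
    · intro A hA
      have hA' := Finset.mem_powerset.1 hA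
      ext x
      simp only [Finset.mem_union, Finset.mem_sdiff, Finset.mem_inter]
      constructor
      · rintro ⟨h4 | h4, h5⟩
        · exact absurd h5 h4.2
        · exact h4
      · intro h4
        exact ⟨Or.inr h4, hA' h4⟩
    · intro F hF
      have h4 := (Finset.mem_filter.1 hF).2
      have h5 : F.card + τ.card = F'.card + (F ∩ τ).card := by
        rw [← h4]
        exact (Finset.card_union_add_card_inter F τ).symm
      have h6 : (F ∩ τ).card ≤ τ.card := Finset.card_le_card Finset.inter_subset_right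
      have h7 := Finset.card_le_card h1
      have e1 : F.card = F'.card - τ.card + (F ∩ τ).card := by omega
      have e2 : m - F.card = m - F'.card + (τ.card - (F ∩ τ).card) := by omega
      rw [← e1, ← e2]
  rw [h3]
  have h4 : ∀ A ∈ τ.powerset, (Polynomial.X : ℤ[X]) ^ (F'.card - τ.card + A.card) *
      (1 - Polynomial.X) ^ (m - F'.card + (τ.card - A.card)) =
      ((Polynomial.X : ℤ[X]) ^ (F'.card - τ.card) * (1 - Polynomial.X) ^ (m - F'.card)) *
        ((Polynomial.X : ℤ[X]) ^ A.card * (1 - Polynomial.X) ^ (τ.card - A.card)) := by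
    intro A _
    rw [pow_add, pow_add]
    ring
  rw [Finset.sum_congr rfl h4, ← Finset.mul_sum, Finset.sum_pow_mul_eq_add_pow,
    add_sub_cancel, one_pow, mul_one]

end Poly

variable {X Ω : Type} [Fintype X] [DecidableEq X] [Fintype Ω] [DecidableEq Ω] {S : Sub X Ω}
  {τ : Finset X}

/-- the star in the form of `SubT` -/
def toT (S : Sub X Ω) (τ : Finset X) (hτ : τ ∈ S.Gam) : SubT X Ω :=
  ⟨S.Gam, S.car, τ, hτ, S.down, S.card_le⟩

private theorem inW_iff {hτ : τ ∈ S.Gam} {W : Finset Ω} {F : Finset X} :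
    (toT S τ hτ).inW W F ↔ F ∪ τ ∈ S.fcs W := by
  unfold Sub.fcs
  rw [Finset.mem_filter]
  rfl

private theorem int_iff {hτ : τ ∈ S.Gam} {W : Finset Ω} {F : Finset X} :
    (toT S τ hτ).int W F ↔ S.toG.int W F ∧ τ ⊆ F := by
  constructor
  · rintro ⟨h1, h2, h3⟩
    have h4 : F ∪ τ = F := Finset.union_eq_left.2 h2
    refine ⟨⟨h1, ?_⟩, h2⟩
    have h5 : (F ∪ τ).biUnion S.car = W := h3
    rw [h4] at h5
    exact h5
  · rintro ⟨⟨h1, h3⟩, h2⟩
    have h4 : F ∪ τ = F := Finset.union_eq_left.2 h2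
    refine ⟨h1, h2, ?_⟩
    change (F ∪ τ).biUnion S.car = W
    rw [h4]
    exact h3

private theorem up_eq {hτ : τ ∈ S.Gam} {W : Finset Ω} {ρ : Finset X} (h : τ ⊆ ρ) :
    (toT S τ hτ).up W ρ = S.toG.up W ρ := by
  ext σ
  rw [SubT.mem_up, int_iff]
  unfold LocG.Sub.up LocG.Sub.int
  rw [Finset.mem_filter]
  constructor
  · rintro ⟨⟨⟨h1, h2⟩, -⟩, h3, h4⟩
    exact ⟨h1, h2, h3, h4⟩
  · rintro ⟨h1, h2, h3, h4⟩
    exact ⟨⟨⟨h1, h2⟩, h.trans h3⟩, h3, h4⟩

theorem top_toT {K : Type} [Field K] [CharP K 2] (hT : S.Top K) (hτ : τ ∈ S.Gam) :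
    (toT S τ hτ).Top K := by
  have hG := Sub.top_toG hT
  have hin : ∀ {W : Finset Ω} {G : Finset X}, (toT S τ hτ).inW W G → S.toG.inW W (G ∪ τ) :=
    fun {W G} h => ⟨h.1, h.2⟩
  refine ⟨?_, ?_, ?_, ?_⟩
  · intro W G h j hj z hz
    obtain ⟨y, hy⟩ := hG.exact W (G ∪ τ) (hin h) j hj z (by
      intro ρ h1 h2 h3
      obtain ⟨h4, h5⟩ := Finset.union_subset_iff.1 h2
      rw [← up_eq (hτ := hτ) h5]
      exact hz ρ (int_iff.2 ⟨h1, h5⟩) h4 h3)
    refine ⟨y, fun σ h1 h2 h3 => ?_⟩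
    obtain ⟨h4, h5⟩ := int_iff.1 h1
    rw [up_eq h5]
    exact hy σ h4 (Finset.union_subset h2 h5) h3
  · intro W G h z hz σ σ' h1 h2 h3 h1' h2' h3'
    obtain ⟨h4, h5⟩ := int_iff.1 h1
    obtain ⟨h4', h5'⟩ := int_iff.1 h1'
    refine hG.const W (G ∪ τ) (hin h) z ?_ σ σ' h4 (Finset.union_subset h2 h5) h3 h4'
      (Finset.union_subset h2' h5') h3'
    intro ρ h6 h7 h8
    obtain ⟨h9, h10⟩ := Finset.union_subset_iff.1 h7
    rw [← up_eq (hτ := hτ) h10]
    exact hz ρ (int_iff.2 ⟨h6, h10⟩) h9 h8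
  · intro W G h
    obtain ⟨σ, h1, h2, h3⟩ := hG.facet W (G ∪ τ) (hin h)
    obtain ⟨h4, h5⟩ := Finset.union_subset_iff.1 h2
    exact ⟨σ, int_iff.2 ⟨h1, h5⟩, h4, h3⟩
  · intro W ρ h1 h2
    obtain ⟨h3, h4⟩ := int_iff.1 h1
    rw [up_eq h4]
    exact hG.even W ρ h3 h2

theorem gen_toT (hτ : τ ∈ S.Gam) : (toT S τ hτ).Gen S.a :=
  ⟨S.gen_toG.zero, S.gen_toG.minor⟩

private theorem mem_H {f : S.T} {n : ℕ} : f ∈ S.H n ↔ ∀ m, f.coeff m ≠ 0 → m.degree = n := by
  constructor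
  · intro hf m hm
    by_contra h
    exact hm (MvPolynomial.IsHomogeneous.coeff_eq_zero hf h)
  · intro h
    have h1 : MvPolynomial.homogeneousComponent n f = f := by
      refine MvPolynomial.ext _ _ fun m => ?_
      rw [MvPolynomial.coeff_homogeneousComponent]
      split_ifs with h2
      · rfl
      · by_contra h3
        exact h2 (h m (Ne.symm h3))
    rw [← h1]
    exact MvPolynomial.homogeneousComponent_isHomogeneous n f

private theorem mem_rs {s : Set (X →₀ ℕ)} {f : S.T} :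
    f ∈ MvPolynomial.restrictSupport S.K s ↔ ∀ m, f.coeff m ≠ 0 → m ∈ s := by
  rw [MvPolynomial.mem_restrictSupport_iff]
  constructor
  · intro h m hm
    exact h (MvPolynomial.mem_support_iff.2 hm)
  · intro h m hm
    exact h m (MvPolynomial.mem_support_iff.1 hm)

private theorem fm_rs (s : Set (X →₀ ℕ)) (p : Finset X → Prop) (h : ∀ m, m ∈ s ↔ p m.support) :
    S.fm (MvPolynomial.restrictSupport S.K s) = LocG.mf S.K p := by
  funext n
  ext f
  change f ∈ MvPolynomial.restrictSupport S.K s ⊓ S.H n ↔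
    ∀ m : X →₀ ℕ, f.coeff m ≠ 0 → m.degree = n ∧ p m.support
  rw [Submodule.mem_inf, mem_rs, mem_H]
  exact ⟨fun h1 m hm => ⟨h1.2 m hm, (h m).1 (h1.1 m hm)⟩,
    fun h1 => ⟨fun m hm => (h m).2 (h1 m hm).2, fun m hm => (h1 m hm).1⟩⟩

private theorem hom_rs (s : Set (X →₀ ℕ)) : S.HomS (MvPolynomial.restrictSupport S.K s) := by
  intro f hf n
  rw [mem_rs] at hf ⊢
  intro m hm
  rw [MvPolynomial.coeff_homogeneousComponent] at hm
  split_ifs at hm with h
  · exact hf m hm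
  · exact absurd rfl hm

theorem hom_IT (W : Finset Ω) : S.HomS (IT S τ W) := hom_rs _

theorem hom_JT (W U : Finset Ω) : S.HomS (JT S τ W U) := hom_rs _

theorem fm_IT (hτ : τ ∈ S.Gam) (W : Finset Ω) :
    S.fm (IT S τ W) = (toT S τ hτ).I S.K W :=
  fm_rs _ _ fun _ => not_congr inW_iff.symm

theorem fm_JT (hτ : τ ∈ S.Gam) (W U : Finset Ω) :
    S.fm (JT S τ W U) = (toT S τ hτ).J S.K W U :=
  fm_rs _ _ fun _ => imp_congr inW_iff.symm Iff.rfl

private theorem fm_R (hτ : τ ∈ S.Gam) (W : Finset Ω) : S.fm (IT S τ W ⊔ S.thm W ⊤) =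
    (toT S τ hτ).I S.K W ⊔ LocG.gn (LocG.mth S.a) W (LocG.TT S.K X) := by
  rw [S.fm_sup (hom_IT W) (S.hom_thm S.hom_top W), fm_IT hτ, S.fm_thm S.hom_top, S.fm_top]

private theorem fm_S (hτ : τ ∈ S.Gam) (W : Finset Ω) :
    S.fm (IT S τ W ⊔ S.thm W (JT S τ W W)) =
    (toT S τ hτ).I S.K W ⊔ LocG.gn (LocG.mth S.a) W ((toT S τ hτ).J S.K W W) := by
  rw [S.fm_sup (hom_IT W) (S.hom_thm (hom_JT W W) W), fm_IT hτ, S.fm_thm (hom_JT W W), fm_JT hτ]

private theorem card_le_W {W : Finset Ω} {F : Finset X} (h : F ∈ S.fcs W) : F.card ≤ W.card := by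
  obtain ⟨h1, h2⟩ := Finset.mem_filter.1 h
  exact (S.card_le F h1).trans (Finset.card_le_card h2)

private theorem hW_eq (hτ : τ ∈ S.Gam) (W : Finset Ω) : (toT S τ hτ).hW W = hTW S τ W := by
  unfold SubT.hW hTW
  rw [← star_sum τ ((S.fcs W).filter fun F => τ ⊆ F) W.card fun F hF =>
    ⟨(Finset.mem_filter.1 hF).2, card_le_W (Finset.mem_filter.1 hF).1⟩]
  refine Finset.sum_congr ?_ fun _ _ => rfl
  ext F
  rw [Finset.mem_filter, Finset.mem_filter, inW_iff, Finset.mem_filter]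
  exact ⟨fun h => ⟨h.1, h.2, Finset.subset_union_right⟩, fun h => ⟨h.1, h.2.1⟩⟩

private theorem hI_eq (hτ : τ ∈ S.Gam) (W : Finset Ω) : (toT S τ hτ).hI W = hTI S τ W := by
  unfold SubT.hI hTI
  rw [← star_sum τ ((S.fcs W).filter fun F => τ ⊆ F ∧ S.cr F = W) W.card fun F hF =>
    ⟨(Finset.mem_filter.1 hF).2.1, card_le_W (Finset.mem_filter.1 hF).1⟩]
  refine Finset.sum_congr ?_ fun _ _ => rfl
  ext F
  rw [Finset.mem_filter, Finset.mem_filter, Finset.mem_filter]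
  unfold SubT.inC
  rw [inW_iff]
  exact ⟨fun h => ⟨h.1, h.2.1, Finset.subset_union_right, h.2.2⟩,
    fun h => ⟨h.1, h.2.1, h.2.2.2⟩⟩

/-- the empty set of coordinates -/
private theorem empty_data [IsEmpty Ω] (hτ : τ ∈ S.Gam) (W : Finset Ω) :
    IsEmpty X ∧ IT S τ W = S.I W ∧ JT S τ W W = S.J W W ∧ hTW S τ W = S.hW W ∧
      hTI S τ W = S.hI W := by
  have hX : IsEmpty X := by
    refine ⟨fun v => ?_⟩
    have h1 := S.card_le {v} (S.vert v)
    rw [Finset.eq_empty_of_isEmpty (({v} : Finset X).biUnion S.car), Finset.card_empty,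
      Finset.card_singleton] at h1
    omega
  have h0 : τ = ∅ := Finset.eq_empty_of_isEmpty τ
  subst h0
  refine ⟨hX, ?_, ?_, ?_, ?_⟩
  · unfold IT Sub.I
    simp only [Finset.union_empty]
  · unfold JT Sub.J
    simp only [Finset.union_empty]
  · unfold hTW Sub.hW
    rw [Finset.filter_true_of_mem fun F _ => Finset.empty_subset F]
    simp only [Finset.card_empty, Nat.sub_zero]
  · unfold hTI Sub.hI
    refine Finset.sum_congr ?_ fun F _ => by rw [Finset.card_empty, Nat.sub_zero]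
    refine Finset.filter_congr fun F _ => ?_
    exact ⟨fun h => h.2, fun h => ⟨Finset.empty_subset F, h⟩⟩

/-- (R) for the star. -/
theorem dm_T (hT : S.Top S.K) (hτ : τ ∈ S.Gam) (W : Finset Ω) (n : ℕ) :
    (S.dm n ⊤ (IT S τ W ⊔ S.thm W ⊤) : ℤ) = (hTW S τ W).coeff n := by
  rcases isEmpty_or_nonempty Ω with hΩ | hΩ
  · obtain ⟨-, h1, -, h3, -⟩ := empty_data hτ W
    rw [h1, h3, Sub.dim_R hT]
  · have := S.charP_K
    have := S.infinite_K
    have hle : S.fm (IT S τ W ⊔ S.thm W ⊤) ≤ S.fm ⊤ := fun k => inf_le_inf_right _ le_top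
    rw [S.dm_eq, inf_eq_right.2 hle, fm_R hτ, S.fm_top,
      SubT.dq_T (top_toT hT hτ) (gen_toT hτ), hW_eq]

/-- (S) for the star. -/
theorem dm_J (hT : S.Top S.K) (hτ : τ ∈ S.Gam) (W : Finset Ω) (n : ℕ) :
    (S.dm n (JT S τ W W) (IT S τ W ⊔ S.thm W (JT S τ W W)) : ℤ) = (hTI S τ W).coeff n := by
  rcases isEmpty_or_nonempty Ω with hΩ | hΩ
  · obtain ⟨-, h1, h2, -, h4⟩ := empty_data hτ W
    rw [h1, h2, h4, Sub.dim_S hT]
  · have := S.charP_K
    have := S.infinite_K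
    have hle : (toT S τ hτ).I S.K W ⊔ LocG.gn (LocG.mth S.a) W ((toT S τ hτ).J S.K W W) ≤
        (toT S τ hτ).J S.K W W := by
      refine sup_le ((toT S τ hτ).I_le_J _ _) (LocG.gn_le fun c _ => ?_)
      exact ((toT S τ hτ).sh_J (gen_toT hτ) W W c).trans
        ((toT S τ hτ).J_anti _ (Finset.subset_insert c W))
    rw [S.dm_eq, fm_S hτ, fm_JT hτ, inf_eq_right.2 hle,
      SubT.dq_JI (top_toT hT hτ) (gen_toT hτ), hI_eq]

/-- (J) for the star: a relation in the interior ideal of the star is a combination of elements of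
the ideal of the star and of `θ_c y`, `y` in `JT W (W - c)`. -/
theorem J_inf (hT : S.Top S.K) (hτ : τ ∈ S.Gam) {W : Finset Ω} {n : ℕ} {F : S.T →ₗ[S.K] S.K}
    (hI : ∀ y ∈ IT S τ W, y ∈ S.H n → F y = 0)
    (hth : ∀ c ∈ W, ∀ k, k + 1 = n → ∀ y ∈ JT S τ W (W.erase c), y ∈ S.H k →
      F (S.th c * y) = 0)
    {y : S.T} (hy : y ∈ JT S τ W W) (hn : y ∈ S.H n) (h : y ∈ IT S τ W ⊔ S.thm W ⊤) :
    F y = 0 := by
  rcases isEmpty_or_nonempty Ω with hΩ | hΩ
  · have hA : W = ∅ := Finset.eq_empty_of_isEmpty W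
    refine hI y ?_ hn
    rw [hA] at h ⊢
    have h1 : S.thm ∅ ⊤ = ⊥ := by
      unfold Sub.thm
      simp
    rwa [h1, sup_bot_eq] at h
  · have := S.charP_K
    have := S.infinite_K
    have h1 : y ∈ ((toT S τ hτ).J S.K W W ⊓
        ((toT S τ hτ).I S.K W ⊔ LocG.gn (LocG.mth S.a) W (LocG.TT S.K X))) n := by
      rw [← fm_R hτ, ← fm_JT hτ]
      exact ⟨⟨hy, hn⟩, ⟨h, hn⟩⟩
    rw [SubT.J_inf_eq (top_toT hT hτ) (gen_toT hτ)] at h1
    have h2 : ((toT S τ hτ).KU S.a W W ∅) n ≤ LinearMap.ker F := by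
      unfold SubT.KU
      rw [Pi.sup_apply, Finset.sup_apply]
      refine sup_le ?_ (Finset.sup_le fun c hc => ?_)
      · rw [← fm_IT hτ]
        rintro z ⟨hz1, hz2⟩
        exact hI z hz1 hz2
      · rw [Finset.union_empty, ← fm_JT hτ]
        cases n with
        | zero => exact bot_le
        | succ k =>
          rintro _ ⟨z, ⟨hz1, hz2⟩, rfl⟩
          exact hth c hc k rfl z hz1 hz2
    exact h2 h1

end Pool.Agent.LH4
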