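import Pool.Agent.LocH.Defs

/-!
# The star of a face, divided by the product of its vertices: definitions
-/

set_option autoImplicit false

open Finset

namespace Pool.Agent.LH4

open Pool.Agent.LocH

variable {X Ω : Type} [Fintype X] [DecidableEq X] [Fintype Ω] [DecidableEq Ω] (S : Sub X Ω)
  (τ : Finset X)

/-- The ideal of the star of `τ` in the restriction to `W`. -/
noncomputable def IT (W : Finset Ω) : Submodule S.K S.T :=
  MvPolynomial.restrictSupport S.K {m | m.support ∪ τ ∉ S.fcs W}

/-- The monomials whose product with `τ` is not in the restriction to `W`, or has a carrier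
containing `U`. -/
noncomputable def JT (W U : Finset Ω) : Submodule S.K S.T :=
  MvPolynomial.restrictSupport S.K
    {m | m.support ∪ τ ∈ S.fcs W → U ⊆ S.cr (m.support ∪ τ)}

open Polynomial in
/-- The `h`-polynomial of the link of `τ` in the restriction to `W`. -/
noncomputable def hTW (W : Finset Ω) : ℤ[X] :=
  ∑ F ∈ (S.fcs W).filter (fun F => τ ⊆ F),
    (Polynomial.X : ℤ[X]) ^ (F.card - τ.card) * (1 - Polynomial.X) ^ (W.card - F.card)

open Polynomial in
/-- The `h`-polynomial of the interior of the link of `τ` in the restriction to `W`. -/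
noncomputable def hTI (W : Finset Ω) : ℤ[X] :=
  ∑ F ∈ (S.fcs W).filter (fun F => τ ⊆ F ∧ S.cr F = W),
    (Polynomial.X : ℤ[X]) ^ (F.card - τ.card) * (1 - Polynomial.X) ^ (W.card - F.card)

end Pool.Agent.LH4
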