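import Pool.Agent.LocG.PolyR

/-!
# The dual Koszul complex of a regular sequence

`KEx A η B0 U N`: cocycles `R` (linear forms `R_B` on `A_(N - |B|)`, `B ⊆ U`, zero on `B0`) of the
differential `(δ R)_B (y) = ∑_{c ∈ B} R_(B - c) (η_c y)` are coboundaries.
`KEx_step`: one form `η_c` at a time.  `KEx_poly`: the linear forms on `K[σ]`.
-/

set_option autoImplicit false

open Finset

namespace Pool.Agent.LH4

open Pool.Agent.LocG

section kz

variable {K E Ω : Type} [Field K] [AddCommGroup E] [Module K E] [DecidableEq Ω]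

omit [DecidableEq Ω] in
/-- Extension of a linear form along a map which is injective modulo subspaces. -/
theorem ext_forms (A B B' : Submodule K E) (η : E →ₗ[K] E) (h : ∀ y ∈ A, η y ∈ B' → y ∈ B)
    (φ : E →ₗ[K] K) (hφ : ∀ y ∈ B, φ y = 0) :
    ∃ ψ : E →ₗ[K] K, (∀ y ∈ B', ψ y = 0) ∧ ∀ y ∈ A, ψ (η y) = φ y := by
  let g : A →ₗ[K] (E ⧸ B') := B'.mkQ ∘ₗ η ∘ₗ A.subtype
  have h1 : (φ ∘ₗ A.subtype : Module.Dual K A) ∈ LinearMap.range g.dualMap := by
    rw [LinearMap.range_dualMap_eq_dualAnnihilator_ker, Submodule.mem_dualAnnihilator]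
    intro y hy
    rw [LinearMap.mem_ker] at hy
    have h2 : η (y : E) ∈ B' := (Submodule.Quotient.mk_eq_zero B').1 hy
    exact hφ _ (h y y.2 h2)
  obtain ⟨ψ, hψ⟩ := h1
  refine ⟨ψ ∘ₗ B'.mkQ, fun y hy => ?_, fun y hy => ?_⟩
  · have h2 : B'.mkQ y = 0 := (Submodule.Quotient.mk_eq_zero B').2 hy
    rw [LinearMap.comp_apply, h2, map_zero]
  · exact LinearMap.congr_fun hψ ⟨y, hy⟩

/-- The dual Koszul complex is exact in the total degree `N`. -/
def KEx (A : Fam K E) (η : Ω → E →ₗ[K] E) (B0 : Fam K E) (U : Finset Ω) (N : ℕ) : Prop :=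
  ∀ R : Finset Ω → E →ₗ[K] K,
    (∀ B ⊆ U, ∀ j, j + B.card = N → ∀ y ∈ B0 j, R B y = 0) →
    (∀ B ⊆ U, ∀ j, j + B.card = N → ∀ y ∈ A j, ∑ c ∈ B, R (B.erase c) (η c y) = 0) →
    ∃ G : Finset Ω → E →ₗ[K] K,
      (∀ B ⊆ U, ∀ j, j + B.card = N → ∀ y ∈ B0 j, G B y = 0) ∧
      ∀ B ⊆ U, ∀ j, j + B.card = N → ∀ y ∈ A j, R B y = ∑ c ∈ B, G (B.erase c) (η c y)

theorem KEx_base {A : Fam K E} {η : Ω → E →ₗ[K] E} {B0 : Fam K E} {U : Finset Ω} {N : ℕ}
    (hB : ∀ j, 1 ≤ j → A j ≤ B0 j) (hU : U.card < N) : KEx A η B0 U N := by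
  intro R hR _
  refine ⟨fun _ => 0, fun _ _ _ _ _ _ => rfl, fun B hB' j hj y hy => ?_⟩
  have h1 := Finset.card_le_card hB'
  rw [hR B hB' j hj y (hB j (by omega) hy)]
  exact (Finset.sum_eq_zero fun _ _ => rfl).symm

omit [DecidableEq Ω] in
/-- A symmetric sum over the pairs of different elements is zero in characteristic two. -/
theorem sum_pairs [CharP K 2] [DecidableEq Ω] (B : Finset Ω) (F : Ω → Ω → K)
    (h : ∀ c ∈ B, ∀ c' ∈ B, c ≠ c' → F c c' = F c' c) :
    ∑ c ∈ B, ∑ c' ∈ B.erase c, F c c' = 0 := by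
  induction B using Finset.induction_on with
  | empty => exact Finset.sum_empty
  | insert b B hb ih =>
    rw [Finset.sum_insert hb, Finset.erase_insert hb]
    have h1 : ∀ c ∈ B, ∑ c' ∈ (insert b B).erase c, F c c' = F c b + ∑ c' ∈ B.erase c, F c c' := by
      intro c hc
      have hcb : c ≠ b := fun h => hb (h ▸ hc)
      rw [Finset.erase_insert_of_ne hcb.symm, Finset.sum_insert]
      exact fun h => hb (Finset.mem_of_mem_erase h)
    rw [Finset.sum_congr rfl h1, Finset.sum_add_distrib,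
      ih fun c hc c' hc' => h c (Finset.mem_insert_of_mem hc) c' (Finset.mem_insert_of_mem hc'),
      add_zero]
    have h2 : ∑ c ∈ B, F c b = ∑ c ∈ B, F b c := Finset.sum_congr rfl fun c hc =>
      h c (Finset.mem_insert_of_mem hc) b (Finset.mem_insert_self b B)
        (fun h => hb (h ▸ hc))
    rw [h2]
    exact CharTwo.add_self_eq_zero _

theorem KEx_step [CharP K 2] {A : Fam K E} {η : Ω → E →ₗ[K] E} {B0 : Fam K E} {U : Finset Ω}
    {N : ℕ} (hA : ∀ c ∈ U, ∀ j, ∀ y ∈ A j, η c y ∈ A (j + 1))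
    (hB : ∀ c ∈ U, ∀ j, ∀ y ∈ B0 j, η c y ∈ B0 (j + 1))
    (hcomm : ∀ c c', ∀ y, η c (η c' y) = η c' (η c y)) {b : Ω} (hb : b ∈ U)
    (hinj : InjQ (η b) A B0) (hK : KEx A η (B0 ⊔ sh (η b) A) (U.erase b) N) :
    KEx A η B0 U N := by
  intro R hR hRc
  have hG0 : ∀ B : Finset Ω, ∃ ψ : E →ₗ[K] K, b ∉ B → B ⊆ U →
      (∀ j, j + B.card = N → ∀ y ∈ B0 j, ψ y = 0) ∧
      (∀ j, j + (B.card + 1) = N → ∀ y ∈ A j, ψ (η b y) = R (insert b B) y) := by
    intro B
    by_cases hB1 : b ∉ B ∧ B ⊆ U
    · by_cases hN : B.card + 1 ≤ N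
      · obtain ⟨j, hj⟩ : ∃ j, j + (B.card + 1) = N := ⟨N - (B.card + 1), by omega⟩
        obtain ⟨ψ, h1, h2⟩ := ext_forms (A j) (B0 j) (B0 (j + 1)) (η b) (hinj j)
          (R (insert b B)) (fun y hy => by
            refine hR _ (Finset.insert_subset hb hB1.2) j ?_ y hy
            rw [Finset.card_insert_of_notMem hB1.1]
            exact hj)
        refine ⟨ψ, fun _ _ => ⟨fun j' hj' y hy => ?_, fun j' hj' y hy => ?_⟩⟩
        · have : j' = j + 1 := by omega
          subst this
          exact h1 y hy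
        · have : j' = j := by omega
          subst this
          exact h2 y hy
      · exact ⟨0, fun _ _ => ⟨fun _ _ _ _ => rfl, fun j hj => by omega⟩⟩
    · exact ⟨0, fun h1 h2 => absurd ⟨h1, h2⟩ hB1⟩
  choose G0 hG0 using hG0
  let G1 : Finset Ω → E →ₗ[K] K := fun B => if b ∈ B then 0 else G0 B
  have hG1b : ∀ B, b ∈ B → G1 B = 0 := fun B h => if_pos h
  have hG1 : ∀ B, b ∉ B → G1 B = G0 B := fun B h => if_neg h
  have hG1B : ∀ B ⊆ U, ∀ j, j + B.card = N → ∀ y ∈ B0 j, G1 B y = 0 := by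
    intro B hBU j hj y hy
    by_cases h : b ∈ B
    · rw [hG1b B h]
      rfl
    · rw [hG1 B h]
      exact (hG0 B h hBU).1 j hj y hy
  let R' : Finset Ω → E →ₗ[K] K := fun B => R B + ∑ c ∈ B, G1 (B.erase c) ∘ₗ η c
  have hR' : ∀ B y, R' B y = R B y + ∑ c ∈ B, G1 (B.erase c) (η c y) := by
    intro B y
    change (R B + ∑ c ∈ B, G1 (B.erase c) ∘ₗ η c) y = _
    rw [LinearMap.add_apply, LinearMap.sum_apply]
    rfl
  -- (1)
  have h1 : ∀ B ⊆ U, b ∈ B → ∀ j, j + B.card = N → ∀ y ∈ A j, R' B y = 0 := by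
    intro B hBU hbB j hj y hy
    rw [hR', ← Finset.add_sum_erase B _ hbB, Finset.sum_eq_zero (s := B.erase b), add_zero]
    · have h2 := (hG0 (B.erase b) (Finset.notMem_erase b B)
        ((Finset.erase_subset b B).trans hBU)).2 j (by
          rw [Finset.card_erase_add_one hbB]
          exact hj) y hy
      rw [hG1 _ (Finset.notMem_erase b B), h2, Finset.insert_erase hbB]
      exact CharTwo.add_self_eq_zero _
    · intro c hc
      rw [hG1b _ (Finset.mem_erase.2 ⟨(Finset.ne_of_mem_erase hc).symm, hbB⟩)]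
      rfl
  -- (2)
  have h2 : ∀ B ⊆ U, ∀ j, j + B.card = N → ∀ y ∈ A j,
      ∑ c ∈ B, R' (B.erase c) (η c y) = 0 := by
    intro B hBU j hj y hy
    rw [Finset.sum_congr rfl fun c _ => hR' (B.erase c) (η c y), Finset.sum_add_distrib,
      hRc B hBU j hj y hy, zero_add]
    refine sum_pairs B (fun c c' => G1 ((B.erase c).erase c') (η c' (η c y))) ?_
    intro c _ c' _ _
    rw [Finset.erase_right_comm, hcomm]
  -- (3)
  have h3 : ∀ B ⊆ U.erase b, ∀ j, j + B.card = N → ∀ y ∈ (B0 ⊔ sh (η b) A) j, R' B y = 0 := by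
    intro B hBU j hj y hy
    have hBU' : B ⊆ U := hBU.trans (Finset.erase_subset b U)
    have hbB : b ∉ B := fun h => Finset.notMem_erase b U (hBU h)
    obtain ⟨y1, hy1, y2, hy2, rfl⟩ := Submodule.mem_sup.1 hy
    rw [map_add]
    have h4 : R' B y1 = 0 := by
      rw [hR', hR B hBU' j hj y1 hy1, zero_add]
      refine Finset.sum_eq_zero fun c hc => ?_
      refine hG1B _ ((Finset.erase_subset c B).trans hBU') (j + 1) ?_ _
        (hB c (hBU' hc) j y1 hy1)
      have := Finset.card_erase_add_one hc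
      omega
    rw [h4, zero_add]
    cases j with
    | zero =>
      have h5 : y2 = 0 := hy2
      rw [h5, map_zero]
    | succ j =>
      obtain ⟨x, hx, rfl⟩ := mem_sh.1 hy2
      have h5 := h2 (insert b B) (Finset.insert_subset hb hBU') j (by
        rw [Finset.card_insert_of_notMem hbB]
        omega) x hx
      rw [Finset.sum_insert hbB, Finset.erase_insert hbB, Finset.sum_eq_zero (s := B),
        add_zero] at h5
      · exact h5
      · intro c hc
        have hcb : c ≠ b := fun h => hbB (h ▸ hc)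
        refine h1 _ ((Finset.erase_subset _ _).trans (Finset.insert_subset hb hBU'))
          (Finset.mem_erase.2 ⟨hcb.symm, Finset.mem_insert_self b B⟩) (j + 1) ?_ _
          (hA c (hBU' hc) j x hx)
        have h6 := Finset.card_erase_add_one (Finset.mem_insert_of_mem hc : c ∈ insert b B)
        rw [Finset.card_insert_of_notMem hbB] at h6
        omega
  obtain ⟨G', hG'1, hG'2⟩ := hK R' h3 (fun B hBU => h2 B (hBU.trans (Finset.erase_subset b U)))
  refine ⟨fun B => G1 B + if b ∈ B then 0 else G' B, fun B hBU j hj y hy => ?_,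
    fun B hBU j hj y hy => ?_⟩
  · rw [LinearMap.add_apply, hG1B B hBU j hj y hy, zero_add]
    split_ifs with h
    · rfl
    · refine hG'1 B (fun c hc => Finset.mem_erase.2 ⟨fun h' => h (h' ▸ hc), hBU hc⟩) j hj y ?_
      exact Submodule.mem_sup_left hy
  · have h4 : R B y = R' B y + ∑ c ∈ B, G1 (B.erase c) (η c y) := by
      rw [hR', add_assoc, CharTwo.add_self_eq_zero, add_zero]
    rw [h4]
    have h5 : ∑ c ∈ B, (G1 (B.erase c) + if b ∈ B.erase c then 0 else G' (B.erase c)) (η c y) =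
        ∑ c ∈ B, G1 (B.erase c) (η c y) +
        ∑ c ∈ B, (if b ∈ B.erase c then 0 else G' (B.erase c)) (η c y) := by
      rw [← Finset.sum_add_distrib]
      rfl
    rw [h5, add_comm]
    congr 1
    by_cases hbB : b ∈ B
    · rw [h1 B hBU hbB j hj y hy]
      symm
      refine Finset.sum_eq_zero fun c hc => ?_
      by_cases hcb : c = b
      · subst hcb
        rw [if_neg (Finset.notMem_erase c B)]
        refine hG'1 _ (Finset.erase_subset_erase c hBU) (j + 1) ?_ _
          (Submodule.mem_sup_right (mem_sh.2 ⟨y, hy, rfl⟩))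
        have := Finset.card_erase_add_one hc
        omega
      · rw [if_pos (Finset.mem_erase.2 ⟨fun h => hcb h.symm, hbB⟩)]
        rfl
    · have hBU' : B ⊆ U.erase b := fun c hc =>
        Finset.mem_erase.2 ⟨fun h => hbB (h ▸ hc), hBU hc⟩
      rw [hG'2 B hBU' j hj y hy]
      refine Finset.sum_congr rfl fun c _ => ?_
      rw [if_neg fun h => hbB (Finset.mem_of_mem_erase h)]

theorem KEx_list [CharP K 2] {A : Fam K E} {η : Ω → E →ₗ[K] E} {N : ℕ}
    (hA : ∀ c j, ∀ y ∈ A j, η c y ∈ A (j + 1))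
    (hcomm : ∀ c c', ∀ y, η c (η c' y) = η c' (η c y)) (l : List Ω) {B0 : Fam K E}
    {U : Finset Ω} (hB : ∀ c j, ∀ y ∈ B0 j, η c y ∈ B0 (j + 1)) (hl : l.Nodup)
    (hlU : ∀ c ∈ l, c ∈ U) (hreg : RegSeq A B0 (l.map η))
    (hend : ∀ j, 1 ≤ j → A j ≤ (B0 ⊔ gl (l.map η) A) j) (hU : U.card < N + l.length) :
    KEx A η B0 U N := by
  induction l generalizing B0 U with
  | nil =>
    refine KEx_base (fun j hj => ?_) (by simpa using hU)
    have h := hend j hj
    have h1 : gl (([] : List Ω).map η) A = ⊥ := rfl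
    rwa [h1, sup_bot_eq] at h
  | cons b l ih =>
    rw [List.nodup_cons] at hl
    have hbU := hlU b List.mem_cons_self
    refine KEx_step (fun c _ => hA c) (fun c _ => hB c) hcomm hbU hreg.1 ?_
    refine ih (fun c j y hy => ?_) hl.2 (fun c hc => ?_) hreg.2 (fun j hj => ?_) ?_
    · obtain ⟨y1, hy1, y2, hy2, rfl⟩ := Submodule.mem_sup.1 hy
      rw [map_add]
      refine Submodule.add_mem _ (Submodule.mem_sup_left (hB c j y1 hy1)) ?_
      cases j with
      | zero =>
        have h5 : y2 = 0 := hy2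
        rw [h5, map_zero]
        exact zero_mem _
      | succ j =>
        obtain ⟨x, hx, rfl⟩ := mem_sh.1 hy2
        rw [hcomm]
        exact Submodule.mem_sup_right (mem_sh.2 ⟨η c x, hA c j x hx, rfl⟩)
    · exact Finset.mem_erase.2 ⟨fun h => hl.1 (h ▸ hc), hlU c (List.mem_cons_of_mem _ hc)⟩
    · have h := hend j hj
      rw [List.map_cons, gl_cons, ← sup_assoc] at h
      exact h
    · rw [List.length_cons] at hU
      have := Finset.card_erase_add_one hbU
      omega

end kz

section poly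

variable {Nd Ω K : Type} [Fintype Nd] [DecidableEq Nd] [DecidableEq Ω] [Field K]

omit [Fintype Nd] in
private theorem ks_X (σ : Finset Nd) (u : Nd) :
    rs σ (MvPolynomial.X u : MvPolynomial Nd K) = if u ∈ σ then MvPolynomial.X u else 0 := by
  unfold rs
  rw [MvPolynomial.aeval_X]

theorem opS_ap (σ : Finset Nd) (l : Nd → K) (f : MvPolynomial Nd K) :
    opS σ l f = rs σ (lf l * f) := rfl

/-- The action on the monomials of `K[σ]`. -/
theorem opS_mono (σ : Finset Nd) (w : Nd → K) {m : Nd →₀ ℕ} (h : m.support ⊆ σ) :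
    opS σ w (MvPolynomial.monomial m 1) =
      ∑ u ∈ σ, w u • MvPolynomial.monomial (Finsupp.single u 1 + m) 1 := by
  have h1 : rs σ (lf w) = ∑ u ∈ σ, MvPolynomial.C (w u) * MvPolynomial.X u := by
    unfold lf
    rw [map_sum, ← Finset.sum_filter_add_sum_filter_not univ (fun u => u ∈ σ)]
    have h1 : ∑ u ∈ univ.filter (fun u => ¬ u ∈ σ),
        rs σ (MvPolynomial.C (w u) * MvPolynomial.X u) = 0 := by
      refine Finset.sum_eq_zero fun u hu => ?_
      rw [map_mul, ks_X, if_neg (Finset.mem_filter.1 hu).2, mul_zero]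
    rw [h1, add_zero, Finset.filter_mem_eq_inter, Finset.univ_inter]
    refine Finset.sum_congr rfl fun u hu => ?_
    rw [map_mul, ks_X, if_pos hu]
    congr 1
    exact MvPolynomial.algHom_C _ _
  have h2 : rs σ (MvPolynomial.monomial m (1 : K)) = MvPolynomial.monomial m 1 := by
    refine MvPolynomial.ext _ _ fun m' => ?_
    rw [coeff_rs]
    split_ifs with h1
    · rfl
    · rw [MvPolynomial.coeff_monomial, if_neg]
      rintro rfl
      exact h1 h
  rw [opS_ap, map_mul, h1, h2, Finset.sum_mul]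
  refine Finset.sum_congr rfl fun u _ => ?_
  rw [mul_assoc, MvPolynomial.X, MvPolynomial.monomial_mul, one_mul, MvPolynomial.smul_eq_C_mul]

/-- The linear forms generate everything in positive degrees. -/
theorem le_gl (σ : Finset Nd) (l : ℕ → Nd → K)
    (hl : LinearIndependent K fun (j : Fin σ.card) (v : σ) => l j v) (n : ℕ) :
    mf K (fun F => F ⊆ σ) (n + 1) ≤
    gl ((List.range σ.card).map fun j => opS σ (l j)) (mf K fun F => F ⊆ σ) (n + 1) := by
  have hgl : ∀ {L : List (MvPolynomial Nd K →ₗ[K] MvPolynomial Nd K)}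
      {A : Fam K (MvPolynomial Nd K)} {η : MvPolynomial Nd K →ₗ[K] MvPolynomial Nd K},
      η ∈ L → sh η A ≤ gl L A := by
    intro L A η h
    induction L with
    | nil => exact absurd h List.not_mem_nil
    | cons η' L ih =>
      rw [gl_cons]
      rcases List.mem_cons.1 h with rfl | h
      · exact le_sup_left
      · exact (ih h).trans le_sup_right
  rw [mf_span, Submodule.span_le]
  rintro _ ⟨m, hm, hms, rfl⟩
  have hne : m.support.Nonempty := by
    rw [Finset.nonempty_iff_ne_empty]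
    intro h
    rw [Finsupp.support_eq_empty] at h
    rw [h, map_zero] at hm
    omega
  obtain ⟨v, hv⟩ := hne
  have hvσ : v ∈ σ := hms hv
  obtain ⟨m', rfl⟩ : ∃ m', m = Finsupp.single v 1 + m' := by
    refine ⟨m - Finsupp.single v 1, ?_⟩
    rw [add_comm]
    refine (tsub_add_cancel_of_le ?_).symm
    rw [Finsupp.single_le_iff]
    exact Nat.one_le_iff_ne_zero.2 (Finsupp.mem_support_iff.1 hv)
  have hm1 : m'.degree = n := by
    rw [map_add, Finsupp.degree_single] at hm
    omega
  have hms' : m'.support ⊆ σ := by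
    intro u hu
    apply hms
    rw [Finsupp.mem_support_iff] at hu ⊢
    rw [Finsupp.add_apply]
    omega
  have hspan := hl.span_eq_top_of_card_eq_finrank' (by
    rw [Fintype.card_fin, Module.finrank_fintype_fun_eq_card, Fintype.card_coe])
  have hmem : (Pi.single ⟨v, hvσ⟩ 1 : σ → K) ∈
      Submodule.span K (Set.range fun (j : Fin σ.card) (v : σ) => l j v) := by
    rw [hspan]
    trivial
  obtain ⟨κ, hκ⟩ := (Submodule.mem_span_range_iff_exists_fun K).1 hmem
  have hκ' : ∀ u ∈ σ, ∑ j, κ j * l j u = if u = v then 1 else 0 := by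
    intro u hu
    have h1 := congrFun hκ ⟨u, hu⟩
    rw [Finset.sum_apply] at h1
    simp only [Pi.smul_apply, smul_eq_mul] at h1
    rw [h1, Pi.single_apply]
    simp only [Subtype.mk.injEq]
  have hsum : MvPolynomial.monomial (Finsupp.single v 1 + m') (1 : K) =
      ∑ j : Fin σ.card, κ j • opS σ (l j) (MvPolynomial.monomial m' 1) := by
    have h1 : ∀ j : Fin σ.card, κ j • opS σ (l j) (MvPolynomial.monomial m' 1) =
        ∑ u ∈ σ, (κ j * l j u) • MvPolynomial.monomial (Finsupp.single u 1 + m') (1 : K) := by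
      intro j
      rw [opS_mono σ _ hms', Finset.smul_sum]
      refine Finset.sum_congr rfl fun u _ => ?_
      rw [smul_smul]
    rw [Finset.sum_congr rfl fun j _ => h1 j, Finset.sum_comm]
    have h2 : ∀ u ∈ σ, ∑ j : Fin σ.card, (κ j * l j u) •
        (MvPolynomial.monomial (Finsupp.single u 1 + m') (1 : K)) =
        if u = v then MvPolynomial.monomial (Finsupp.single u 1 + m') (1 : K) else 0 := by
      intro u hu
      rw [← Finset.sum_smul, hκ' u hu]
      split_ifs with h3
      · rw [one_smul]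
      · rw [zero_smul]
    rw [Finset.sum_congr rfl h2, Finset.sum_ite_eq' σ v, if_pos hvσ]
  change MvPolynomial.monomial (Finsupp.single v 1 + m') (1 : K) ∈ _
  rw [hsum]
  refine Submodule.sum_mem _ fun j _ => Submodule.smul_mem _ _ ?_
  have h3 : sh (opS σ (l j)) (mf K fun F => F ⊆ σ) ≤
      gl ((List.range σ.card).map fun j => opS σ (l j)) (mf K fun F => F ⊆ σ) :=
    hgl (List.mem_map.2 ⟨j, List.mem_range.2 j.2, rfl⟩)
  exact h3 (n + 1) (mem_sh.2 ⟨_, mono_mem hm1 hms' 1, rfl⟩)

/-- The dual Koszul complex of linear forms on `K[σ]` which contain a coordinate system is exact in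
the total degrees `N > |U| - |σ|`. -/
theorem KEx_poly [CharP K 2] (a : Nd → Ω → K) (σ : Finset Nd) {U : Finset Ω} {N : ℕ}
    (hU : U.card < N + σ.card) (f : σ → Ω) (hf : ∀ v, f v ∈ U)
    (hdet : (Matrix.of fun u v : σ => a v (f u)).det ≠ 0) :
    KEx (mf K fun F => F ⊆ σ) (fun c => opS σ fun v => a v c) ⊥ U N := by
  have hinj : Function.Injective f := by
    intro u u' h
    by_contra hne
    refine hdet (Matrix.det_zero_of_row_eq hne ?_)
    ext v
    rw [Matrix.of_apply, Matrix.of_apply, h]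
  let e : Fin σ.card ≃ σ := (Fintype.equivFinOfCardEq (Fintype.card_coe σ)).symm
  rcases σ.eq_empty_or_nonempty with hσ | hσ
  · subst hσ
    refine KEx_base (fun j hj => ?_) (by simpa using hU)
    rw [mf_span, Submodule.span_le]
    rintro _ ⟨m, hm, hms, rfl⟩
    have h1 : m = 0 := by
      rw [← Finsupp.support_eq_empty]
      exact Finset.subset_empty.1 hms
    rw [h1, map_zero] at hm
    omega
  · have hne : Nonempty Ω := ⟨f ⟨hσ.choose, hσ.choose_spec⟩⟩
    let g : ℕ → Ω := fun j => if h : j < σ.card then f (e ⟨j, h⟩) else Classical.arbitrary Ω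
    have hg : ∀ j : Fin σ.card, g j = f (e j) := fun j => dif_pos j.2
    have hlin : LinearIndependent K fun (j : Fin σ.card) (v : σ) => a v (g j) := by
      have h1 : LinearIndependent K (Matrix.of fun u v : σ => a v (f u)).row :=
        Matrix.linearIndependent_rows_of_isUnit ((Matrix.isUnit_iff_isUnit_det _).2
          (isUnit_iff_ne_zero.2 hdet))
      have h2 := h1.comp e e.injective
      have h3 : (fun (j : Fin σ.card) (v : σ) => a v (g j)) =
          (Matrix.of fun u v : σ => a v (f u)).row ∘ e := by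
        funext j v
        rw [hg]
        rfl
      rw [h3]
      exact h2
    have hmap : ((List.range σ.card).map g).map (fun c => opS σ fun v => a v c) =
        (List.range σ.card).map fun j => opS σ ((fun (j : ℕ) (v : Nd) => a v (g j)) j) := by
      rw [List.map_map]
      rfl
    refine KEx_list (fun c j y hy => ?_) (fun c c' y => ?_) ((List.range σ.card).map g)
      (fun c j y hy => ?_) ?_ ?_ ?_ ?_ ?_
    · exact sh_opS σ _ (j + 1) (mem_sh.2 ⟨y, hy, rfl⟩)
    · exact LinearMap.congr_fun (opS_comm σ (fun v => a v c) (fun v => a v c')) y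
    · have h1 : y = 0 := hy
      rw [h1, map_zero]
      exact zero_mem _
    · refine (List.nodup_range).map_on ?_
      intro j hj j' hj' h
      rw [List.mem_range] at hj hj'
      have h1 := hg ⟨j, hj⟩
      have h2 := hg ⟨j', hj'⟩
      have h3 : f (e ⟨j, hj⟩) = f (e ⟨j', hj'⟩) := h1.symm.trans (h.trans h2)
      have h4 := e.injective (hinj h3)
      exact congrArg Fin.val h4
    · intro c hc
      obtain ⟨j, hj, rfl⟩ := List.mem_map.1 hc
      rw [List.mem_range] at hj
      have h1 := hg ⟨j, hj⟩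
      change g j = _ at h1
      rw [h1]
      exact hf _
    · rw [hmap]
      exact regSeq_poly σ (fun (j : ℕ) (v : Nd) => a v (g j)) hlin
    · intro j hj
      rw [hmap, bot_sup_eq]
      obtain ⟨n, rfl⟩ : ∃ n, j = n + 1 := ⟨j - 1, by omega⟩
      exact le_gl σ (fun (j : ℕ) (v : Nd) => a v (g j)) hlin n
    · rw [List.length_map, List.length_range]
      exact hU

end poly

end Pool.Agent.LH4
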