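import Pool.Agent.LH4.Ov1
import Pool.Agent.LH4.Ty
import Pool.Agent.LocH.GInd

/-!
# The coboundary on the pairs typed by several vertices, one support at a time
-/

set_option autoImplicit false

open Finset

namespace Pool.Agent.LH4

section mono

variable {Nd Ω K : Type} [Fintype Nd] [DecidableEq Nd] [DecidableEq Ω] [Field K]

open Pool.Agent.LocG in
/-- `KEx_poly` for functions on monomials. -/
theorem KEx_mono [CharP K 2] (a : Nd → Ω → K) (σ : Finset Nd) {U : Finset Ω} {N : ℕ}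
    (hU : U.card < N + σ.card) (f : σ → Ω) (hf : ∀ v, f v ∈ U)
    (hdet : (Matrix.of fun u v : σ => a v (f u)).det ≠ 0) (ρ : Finset Ω → (Nd →₀ ℕ) → K)
    (hρ : ∀ B ⊆ U, ∀ μ : Nd →₀ ℕ, μ.support ⊆ σ → μ.degree + B.card = N →
      ∑ c ∈ B, ∑ v ∈ σ, a v c * ρ (B.erase c) (Finsupp.single v 1 + μ) = 0) :
    ∃ G : Finset Ω → (Nd →₀ ℕ) → K, ∀ B ⊆ U, ∀ μ : Nd →₀ ℕ, μ.support ⊆ σ →
      μ.degree + B.card = N →
      ρ B μ = ∑ c ∈ B, ∑ v ∈ σ, a v c * G (B.erase c) (Finsupp.single v 1 + μ) := by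
  let R : Finset Ω → MvPolynomial Nd K →ₗ[K] K := fun B =>
    (MvPolynomial.basisMonomials Nd K).constr K (ρ B)
  have hR : ∀ B μ, R B (MvPolynomial.monomial μ 1) = ρ B μ := by
    intro B μ
    have h := (MvPolynomial.basisMonomials Nd K).constr_basis K (ρ B) μ
    rwa [MvPolynomial.coe_basisMonomials] at h
  have hop : ∀ (L : MvPolynomial Nd K →ₗ[K] K) (c : Ω) (μ : Nd →₀ ℕ), μ.support ⊆ σ →
      L (opS σ (fun v => a v c) (MvPolynomial.monomial μ 1)) =
      ∑ v ∈ σ, a v c * L (MvPolynomial.monomial (Finsupp.single v 1 + μ) 1) := by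
    intro L c μ hμ
    rw [opS_mono σ _ hμ, map_sum]
    refine Finset.sum_congr rfl fun v _ => ?_
    rw [map_smul, smul_eq_mul]
  obtain ⟨G, -, hG⟩ := KEx_poly a σ hU f hf hdet R (fun B _ j _ y hy => by
    have h1 : y = 0 := hy
    rw [h1, map_zero]) (fun B hB j hj y hy => by
    rw [mf_span] at hy
    induction hy using Submodule.span_induction with
    | mem y hy =>
      obtain ⟨μ, hμ, hμs, rfl⟩ := hy
      refine Eq.trans (Finset.sum_congr rfl fun c _ => ?_) (hρ B hB μ hμs (by rw [hμ]; exact hj))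
      rw [hop _ c μ hμs]
      refine Finset.sum_congr rfl fun v _ => ?_
      rw [hR]
    | zero => exact Finset.sum_eq_zero fun c _ => by rw [map_zero, map_zero]
    | add x y _ _ hx hy =>
      have h1 : ∀ c ∈ B, R (B.erase c) (opS σ (fun v => a v c) (x + y)) =
          R (B.erase c) (opS σ (fun v => a v c) x) +
          R (B.erase c) (opS σ (fun v => a v c) y) := fun c _ => by
        rw [map_add, map_add]
      rw [Finset.sum_congr rfl h1, Finset.sum_add_distrib, hx, hy, add_zero]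
    | smul r x _ hx =>
      have h1 : ∀ c ∈ B, R (B.erase c) (opS σ (fun v => a v c) (r • x)) =
          r * R (B.erase c) (opS σ (fun v => a v c) x) := fun c _ => by
        rw [map_smul, map_smul, smul_eq_mul]
      rw [Finset.sum_congr rfl h1, ← Finset.mul_sum, hx, mul_zero])
  refine ⟨fun B μ => G B (MvPolynomial.monomial μ 1), fun B hB μ hμ hd => ?_⟩
  have h1 := hG B hB μ.degree hd (MvPolynomial.monomial μ 1) (mono_mem rfl hμ 1)
  rw [hR] at h1
  rw [h1]
  exact Finset.sum_congr rfl fun c _ => hop _ c μ hμ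

end mono

open Pool.Agent.LocH

variable {X Ω : Type} [Fintype X] [DecidableEq X] [Fintype Ω] [DecidableEq Ω] {S : Sub X Ω}
  {W : Finset Ω} {n : ℕ} {C : Finset Ω} {M : X →₀ ℕ} {w v : X} {Y : Finset X}

omit [Fintype X] [Fintype Ω] in
theorem supp_add1 (v : X) (M : X →₀ ℕ) :
    (Finsupp.single v 1 + M).support = insert v M.support := by
  ext u
  rw [Finsupp.mem_support_iff, Finsupp.add_apply, Finset.mem_insert, Finsupp.mem_support_iff,
    Finsupp.single_apply]
  by_cases h : v = u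
  · rw [if_pos h]
    exact ⟨fun _ => Or.inl h.symm, fun _ => by omega⟩
  · rw [if_neg h, zero_add]
    exact ⟨Or.inr, fun h' => h'.resolve_left fun h'' => h h''.symm⟩

omit [Fintype X] [Fintype Ω] in
theorem mem_cr {F : Finset X} {c : Ω} : c ∈ S.cr F ↔ ∃ v ∈ F, c ∈ S.car v :=
  Finset.mem_biUnion

omit [Fintype X] [Fintype Ω] in
theorem supp_sub1 (h : M w = 1) : (M - Finsupp.single w 1).support = M.support.erase w := by
  ext u
  rw [Finsupp.mem_support_iff, Finsupp.tsub_apply, Finset.mem_erase, Finsupp.mem_support_iff,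
    Finsupp.single_apply]
  by_cases hu : w = u
  · subst hu
    rw [if_pos rfl, h]
    exact ⟨fun h' => absurd rfl h', fun h' => absurd rfl h'.1⟩
  · rw [if_neg hu, Nat.sub_zero]
    exact ⟨fun h' => ⟨fun h'' => hu h''.symm, h'⟩, fun h' => h'.2⟩

theorem Ty.one (h : Ty S w C M) : M w = 1 := by
  by_contra hne
  have h1 : M w ≠ 0 := Finsupp.mem_support_iff.1 h.mem
  have h2 : w ∈ (M - Finsupp.single w 1).support := by
    rw [Finsupp.mem_support_iff, Finsupp.tsub_apply, Finsupp.single_eq_same]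
    omega
  have h3 : S.car w \ S.cr (M - Finsupp.single w 1).support = ∅ := by
    rw [Finset.sdiff_eq_empty_iff_subset]
    intro c hc
    exact mem_cr.2 ⟨w, h2, hc⟩
  have h4 := h.big
  rw [h3, Finset.empty_sdiff, Finset.card_empty] at h4
  omega

theorem ty_iff : Ty S w C M ↔ M w = 1 ∧ 3 ≤ ((S.car w \ S.cr (M.support.erase w)) \ C).card := by
  constructor
  · intro h
    have h1 := h.big
    rw [supp_sub1 h.one] at h1
    exact ⟨h.one, h1⟩
  · rintro ⟨h1, h2⟩
    refine ⟨Finsupp.mem_support_iff.2 (by rw [h1]; exact one_ne_zero), ?_⟩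
    rw [supp_sub1 h1]
    exact h2

omit [Fintype X] [Fintype Ω] in
theorem fcs_sub {F G : Finset X} (hF : F ∈ S.fcs W) (h : G ⊆ F) : G ∈ S.fcs W := by
  have h1 := Finset.mem_filter.1 hF
  refine Finset.mem_filter.2 ⟨S.down F h1.1 G h, ?_⟩
  exact (Finset.biUnion_subset_biUnion_of_subset_left _ h).trans h1.2

omit [Fintype X] [Fintype Ω] in
theorem a_mem {c : Ω} (h : S.a v c ≠ 0) : c ∈ S.car v := by
  by_contra h'
  exact h (dif_neg h')

/-- The coboundary of a valid pair: the terms are valid or their support is not a face. -/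
theorem VP.up {c : Ω} (h : VP S W n C M) (hc : c ∈ C) (hv : c ∈ S.car v)
    (hf : (Finsupp.single v 1 + M).support ∈ S.fcs W) :
    VP S W n (C.erase c) (Finsupp.single v 1 + M) := by
  refine ⟨(Finset.erase_subset c C).trans h.sub, hf, fun b hb => ?_, ?_⟩
  · rw [supp_add1]
    rw [Finset.mem_sdiff, Finset.mem_erase] at hb
    by_cases hbc : b = c
    · exact mem_cr.2 ⟨v, Finset.mem_insert_self v _, hbc ▸ hv⟩
    · have h1 : b ∈ S.cr M.support := h.cov (Finset.mem_sdiff.2 ⟨hb.1, fun h' => hb.2 ⟨hbc, h'⟩⟩)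
      obtain ⟨u, hu, hu'⟩ := mem_cr.1 h1
      exact mem_cr.2 ⟨u, Finset.mem_insert_of_mem hu, hu'⟩
  · have h1 := h.deg
    have h2 := Finset.card_erase_add_one hc
    rw [map_add, Finsupp.degree_single]
    omega

theorem cl_OS (S : Sub X Ω) (W : Finset Ω) (n : ℕ) (Y : Finset X) : Cl S W n (OS S W n Y) := by
  refine ⟨fun C M h => h.1, fun C M c v hVP hc hv h => ⟨hVP, fun w hw => ?_⟩⟩
  obtain ⟨h1, h2⟩ := ty_iff.1 (h.2 w hw)
  rw [supp_add1] at h2
  rw [Finsupp.add_apply, Finsupp.single_apply] at h1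
  by_cases hvw : v = w
  · subst hvw
    rw [if_pos rfl] at h1
    have h3 : M v = 0 := by omega
    have h4 : v ∉ M.support := by
      rw [Finsupp.mem_support_iff]
      exact fun h => h h3
    rw [Finset.erase_insert h4] at h2
    have h5 : (S.car v \ S.cr M.support) \ C.erase c ⊆ {c} := by
      intro b hb
      rw [Finset.mem_sdiff, Finset.mem_sdiff, Finset.mem_erase] at hb
      rw [Finset.mem_singleton]
      by_contra hbc
      have hbW : b ∈ W := (Finset.mem_filter.1 h.1.fcs).2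
        (mem_cr.2 ⟨v, by rw [supp_add1]; exact Finset.mem_insert_self v _, hb.1.1⟩)
      have hbC : b ∉ C := fun h' => hb.2 ⟨hbc, h'⟩
      exact hb.1.2 (hVP.cov (Finset.mem_sdiff.2 ⟨hbW, hbC⟩))
    have h6 := Finset.card_le_card h5
    rw [Finset.card_singleton] at h6
    omega
  · rw [if_neg hvw, zero_add] at h1
    refine ty_iff.2 ⟨h1, h2.trans (Finset.card_le_card ?_)⟩
    intro b hb
    rw [Finset.erase_insert_of_ne hvw] at hb
    rw [Finset.mem_sdiff, Finset.mem_sdiff, Finset.mem_erase] at hb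
    rw [Finset.mem_sdiff, Finset.mem_sdiff]
    refine ⟨⟨hb.1.1, fun h' => hb.1.2 ?_⟩, fun h' => hb.2 ⟨?_, h'⟩⟩
    · obtain ⟨u, hu, hu'⟩ := mem_cr.1 h'
      exact mem_cr.2 ⟨u, Finset.mem_insert_of_mem hu, hu'⟩
    · rintro rfl
      exact hb.1.2 (mem_cr.2 ⟨v, Finset.mem_insert_self v _, hv⟩)

/-- The colours of `F` which are not private for a member of `Y`. -/
def UF (S : Sub X Ω) (Y F : Finset X) : Finset Ω :=
  S.cr F \ Y.biUnion fun w => S.car w \ S.cr (F.erase w)

theorem car_UF {F : Finset X} (hv : v ∈ F) (hvY : v ∉ Y) : S.car v ⊆ UF S Y F := by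
  intro c hc
  refine Finset.mem_sdiff.2 ⟨mem_cr.2 ⟨v, hv, hc⟩, fun h => ?_⟩
  obtain ⟨w, hw, hw'⟩ := Finset.mem_biUnion.1 h
  refine (Finset.mem_sdiff.1 hw').2 (mem_cr.2 ⟨v, Finset.mem_erase.2 ⟨?_, hv⟩, hc⟩)
  rintro rfl
  exact hvY hw

/-- The coboundary of a cochain whose supports have at most `k` vertices. -/
theorem dl_piece {g : Finset Ω → (X →₀ ℕ) → S.K} (hg : ∀ C M, g C M ≠ 0 → OS S W n Y C M)
    (hk : ∀ C M', g C M' ≠ 0 → M'.support.card ≤ M.support.card) (C : Finset Ω) :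
    dl S g C M = ∑ c ∈ C ∩ UF S Y M.support, ∑ v ∈ M.support \ Y,
      S.a v c * g (C.erase c) (Finsupp.single v 1 + M) := by
  have h1 : ∀ c v, v ∉ M.support \ Y → S.a v c * g (C.erase c) (Finsupp.single v 1 + M) = 0 := by
    intro c v hv
    by_contra hne
    have hg' := right_ne_zero_of_mul hne
    by_cases hvM : v ∈ M.support
    · have hvY : v ∈ Y := by
        by_contra h
        exact hv (Finset.mem_sdiff.2 ⟨hvM, h⟩)
      have h2 := ((hg _ _ hg').2 v hvY).one
      rw [Finsupp.add_apply, Finsupp.single_eq_same] at h2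
      have h3 := Finsupp.mem_support_iff.1 hvM
      omega
    · have h2 := hk _ _ hg'
      rw [supp_add1, Finset.card_insert_of_notMem hvM] at h2
      omega
  have h2 : ∀ c, ∑ v, S.a v c * g (C.erase c) (Finsupp.single v 1 + M) =
      ∑ v ∈ M.support \ Y, S.a v c * g (C.erase c) (Finsupp.single v 1 + M) := fun c =>
    (Finset.sum_subset (Finset.subset_univ _) fun v _ hv => h1 c v hv).symm
  unfold dl
  rw [Finset.sum_congr rfl fun c _ => h2 c]
  refine (Finset.sum_subset Finset.inter_subset_left fun c hc hc' => ?_).symm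
  refine Finset.sum_eq_zero fun v hv => ?_
  have hv' := Finset.mem_sdiff.1 hv
  have h3 : c ∉ S.car v := fun h =>
    hc' (Finset.mem_inter.2 ⟨hc, car_UF hv'.1 hv'.2 h⟩)
  have h4 : S.a v c = 0 := dif_neg h3
  rw [h4, zero_mul]

end Pool.Agent.LH4
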