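import Pool.Agent.LH4.Ov2
import Pool.Agent.LocH.BrGen
import Pool.Agent.LocH.GBasA

/-!
# Cocycles supported on the pairs typed by two vertices or more are coboundaries
-/

set_option autoImplicit false

open Finset

namespace Pool.Agent.LH4

open Pool.Agent.LocH

open Pool.Agent.LocH.Sub (ch ch_support ch_degree)

variable {X Ω : Type} [Fintype X] [DecidableEq X] [Fintype Ω] [DecidableEq Ω] {S : Sub X Ω}
  {W : Finset Ω} {n : ℕ} {Y : Finset X}

/-- The restriction of the coboundary to the valid pairs. -/
noncomputable def dv (S : Sub X Ω) (W : Finset Ω) (n : ℕ) (r : Finset Ω → (X →₀ ℕ) → S.K)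
    (C : Finset Ω) (M : X →₀ ℕ) : S.K :=
  open Classical in if VP S W n C M then dl S r C M else 0

theorem dv_pos {r : Finset Ω → (X →₀ ℕ) → S.K} {C : Finset Ω} {M : X →₀ ℕ}
    (h : VP S W n C M) : dv S W n r C M = dl S r C M := if_pos h

theorem dv_neg {r : Finset Ω → (X →₀ ℕ) → S.K} {C : Finset Ω} {M : X →₀ ℕ}
    (h : ¬ VP S W n C M) : dv S W n r C M = 0 := if_neg h

theorem dl_add (r r' : Finset Ω → (X →₀ ℕ) → S.K) (C : Finset Ω) (M : X →₀ ℕ) :
    dl S (fun C M => r C M + r' C M) C M = dl S r C M + dl S r' C M := by
  unfold dl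
  rw [← Finset.sum_add_distrib]
  refine Finset.sum_congr rfl fun c _ => ?_
  rw [← Finset.sum_add_distrib]
  exact Finset.sum_congr rfl fun v _ => mul_add _ _ _

theorem dl_sum {κ : Type} (t : Finset κ) (r : κ → Finset Ω → (X →₀ ℕ) → S.K) (C : Finset Ω)
    (M : X →₀ ℕ) :
    dl S (fun C M => ∑ i ∈ t, r i C M) C M = ∑ i ∈ t, dl S (r i) C M := by
  have h1 : ∀ c v, S.a v c * ∑ i ∈ t, r i (C.erase c) (Finsupp.single v 1 + M) =
      ∑ i ∈ t, S.a v c * r i (C.erase c) (Finsupp.single v 1 + M) := fun c v =>
    Finset.mul_sum _ _ _
  unfold dl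
  rw [Finset.sum_congr rfl fun c _ => Finset.sum_congr rfl fun v _ => h1 c v,
    Finset.sum_congr rfl fun c _ => Finset.sum_comm, Finset.sum_comm]

/-- The coboundary of a coboundary is zero. -/
theorem dl_dv {r : Finset Ω → (X →₀ ℕ) → S.K} (hr : ∀ C M, r C M ≠ 0 → VP S W n C M)
    {C : Finset Ω} {M : X →₀ ℕ} (h : VP S W n C M) : dl S (dv S W n r) C M = 0 := by
  have := S.charP_K
  have h1 : ∀ c ∈ C, ∀ v, S.a v c * dv S W n r (C.erase c) (Finsupp.single v 1 + M) =
      S.a v c * dl S r (C.erase c) (Finsupp.single v 1 + M) := by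
    intro c hc v
    by_cases ha : S.a v c = 0
    · rw [ha, zero_mul, zero_mul]
    · by_cases hf : (Finsupp.single v 1 + M).support ∈ S.fcs W
      · rw [dv_pos (h.up hc (a_mem ha) hf)]
      · have h2 : dl S r (C.erase c) (Finsupp.single v 1 + M) = 0 := by
          unfold dl
          refine Finset.sum_eq_zero fun c' _ => Finset.sum_eq_zero fun v' _ => ?_
          by_contra hne
          have h3 := (hr _ _ (right_ne_zero_of_mul hne)).fcs
          refine hf (fcs_sub h3 ?_)
          rw [supp_add1 v' (Finsupp.single v 1 + M)]
          exact Finset.subset_insert _ _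
        rw [h2, dv_neg fun h3 => hf h3.fcs]
  have h2 : dl S (dv S W n r) C M =
      ∑ c ∈ C, ∑ c' ∈ C.erase c, ∑ v, ∑ v', S.a v c * (S.a v' c' *
        r ((C.erase c).erase c') (Finsupp.single v' 1 + (Finsupp.single v 1 + M))) := by
    unfold dl
    refine Finset.sum_congr rfl fun c hc => ?_
    rw [Finset.sum_congr rfl fun v _ => h1 c hc v, Finset.sum_comm]
    refine Finset.sum_congr rfl fun v _ => ?_
    unfold dl
    rw [Finset.mul_sum]
    exact Finset.sum_congr rfl fun c' _ => Finset.mul_sum _ _ _
  rw [h2]
  refine sum_pairs C (fun c c' => ∑ v, ∑ v', S.a v c * (S.a v' c' *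
        r ((C.erase c).erase c') (Finsupp.single v' 1 + (Finsupp.single v 1 + M)))) ?_
  intro c _ c' _ _
  beta_reduce
  rw [Finset.sum_comm]
  refine Finset.sum_congr rfl fun v' _ => Finset.sum_congr rfl fun v _ => ?_
  rw [Finset.erase_right_comm, add_left_comm (Finsupp.single v' 1) (Finsupp.single v 1) M,
    mul_left_comm]

/-- One step: the supports with exactly `k` vertices. -/
theorem exa_step (hn : W.card ≤ n + 3) (hY : 2 ≤ Y.card) {g : Finset Ω → (X →₀ ℕ) → S.K}
    (hg : ∀ C M, g C M ≠ 0 → OS S W n Y C M) (hc : ∀ C M, VP S W n C M → dl S g C M = 0) {k : ℕ}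
    (hk : ∀ C M, g C M ≠ 0 → M.support.card ≤ k) :
    ∃ e : Finset Ω → (X →₀ ℕ) → S.K, (∀ C M, e C M ≠ 0 → OS S W n Y C M) ∧
      (∀ C M, e C M ≠ 0 → M.support.card ≤ k) ∧
      ∀ C M, VP S W n C M → k ≤ M.support.card → g C M = dl S e C M := by
  classical
  have := S.charP_K
  -- the pieces
  have hG : ∀ F : Finset X, ∀ E : Finset Ω, ∃ G : Finset Ω → (X →₀ ℕ) → S.K,
      ∀ C M, OS S W n Y C M → M.support = F → F.card = k → C \ UF S Y F = E →
      g C M = ∑ c ∈ C ∩ UF S Y F, ∑ v ∈ F \ Y, S.a v c *
        G ((C ∩ UF S Y F).erase c) (Finsupp.single v 1 + (M - ch F)) := by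
    intro F E
    by_cases hex : ∃ C M, OS S W n Y C M ∧ M.support = F ∧ F.card = k ∧ C \ UF S Y F = E
    · obtain ⟨C0, M0, hO, hF, hFk, hE⟩ := hex
      have hFW : F ∈ S.fcs W := hF ▸ hO.1.fcs
      have hYF : Y ⊆ F := fun w hw => hF ▸ (hO.2 w hw).mem
      have hUE : ∀ c ∈ E, c ∉ UF S Y F := fun c hc => by
        rw [← hE] at hc
        exact (Finset.mem_sdiff.1 hc).2
      have hUW : UF S Y F ⊆ W := Finset.sdiff_subset.trans (Finset.mem_filter.1 hFW).2
      have hEW : E ⊆ W := by
        rw [← hE]
        exact Finset.sdiff_subset.trans hO.1.sub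
      have hWE : W \ E ⊆ S.cr F := by
        intro c hc
        rw [Finset.mem_sdiff] at hc
        by_cases hcC : c ∈ C0
        · have h1 : c ∈ UF S Y F := by
            by_contra h
            exact hc.2 (hE ▸ Finset.mem_sdiff.2 ⟨hcC, h⟩)
          exact (Finset.mem_sdiff.1 h1).1
        · have h1 := hO.1.cov (Finset.mem_sdiff.2 ⟨hc.1, hcC⟩)
          rwa [hF] at h1
      have hP : ∀ w ∈ Y, 3 ≤ ((S.car w \ S.cr (F.erase w)) \ E).card := by
        intro w hw
        have h1 := (ty_iff.1 (hO.2 w hw)).2
        rw [hF] at h1
        refine h1.trans (Finset.card_le_card ?_)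
        intro c hc
        rw [Finset.mem_sdiff] at hc ⊢
        refine ⟨hc.1, fun h => hc.2 ?_⟩
        rw [← hE] at h
        exact (Finset.mem_sdiff.1 h).1
      -- the count
      have hcount : (UF S Y F).card + E.card + 3 * Y.card ≤ W.card := by
        have hd : ∀ w ∈ Y, ∀ w' ∈ Y, w ≠ w' →
            Disjoint ((S.car w \ S.cr (F.erase w)) \ E) ((S.car w' \ S.cr (F.erase w')) \ E) := by
          intro w hw w' hw' hne
          rw [Finset.disjoint_left]
          intro c hc hc'
          rw [Finset.mem_sdiff, Finset.mem_sdiff] at hc hc'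
          exact hc.1.2 (mem_cr.2 ⟨w', Finset.mem_erase.2 ⟨hne.symm, hYF hw'⟩, hc'.1.1⟩)
        have h1 : 3 * Y.card ≤
            (Y.biUnion fun w => (S.car w \ S.cr (F.erase w)) \ E).card := by
          rw [Finset.card_biUnion hd, mul_comm]
          exact Finset.card_nsmul_le_sum Y _ 3 hP
        have h2 : Disjoint (UF S Y F ∪ E)
            (Y.biUnion fun w => (S.car w \ S.cr (F.erase w)) \ E) := by
          rw [Finset.disjoint_left]
          intro c hc hc'
          obtain ⟨w, hw, hw'⟩ := Finset.mem_biUnion.1 hc'
          rw [Finset.mem_sdiff] at hw'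
          rcases Finset.mem_union.1 hc with h | h
          · exact (Finset.mem_sdiff.1 h).2 (Finset.mem_biUnion.2 ⟨w, hw, hw'.1⟩)
          · exact hw'.2 h
        have h3 : UF S Y F ∪ E ∪ (Y.biUnion fun w => (S.car w \ S.cr (F.erase w)) \ E) ⊆ W := by
          refine Finset.union_subset (Finset.union_subset hUW hEW) fun c hc => ?_
          obtain ⟨w, hw, hw'⟩ := Finset.mem_biUnion.1 hc
          rw [Finset.mem_sdiff, Finset.mem_sdiff] at hw'
          exact (Finset.mem_filter.1 hFW).2 (mem_cr.2 ⟨w, hYF hw, hw'.1.1⟩)
        have h4 := Finset.card_le_card h3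
        rw [Finset.card_union_of_disjoint h2, Finset.card_union_of_disjoint
          (Finset.disjoint_left.2 fun c hc hc' => hUE c hc' hc)] at h4
        omega
      have hcF : (F \ Y).card + Y.card = F.card := Finset.card_sdiff_add_card_eq_card hYF
      obtain ⟨N, hN⟩ : ∃ N, N + F.card + E.card = n := by
        have h1 := hO.1.deg
        have h2 : F.card ≤ M0.degree := by
          rw [← hF, Finsupp.degree, Finset.card_eq_sum_ones]
          exact Finset.sum_le_sum fun v hv => Nat.one_le_iff_ne_zero.2
            (Finsupp.mem_support_iff.1 hv)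
        have h3 : E.card ≤ C0.card := by
          rw [← hE]
          exact Finset.card_le_card Finset.sdiff_subset
        exact ⟨n - F.card - E.card, by omega⟩
      have hFY : F \ Y ∈ S.Gam := S.down F (Finset.mem_filter.1 hFW).1 _ Finset.sdiff_subset
      obtain ⟨f, hf1, hf2⟩ := S.exists_inj hFY
      have hdet := S.minor_ne hf1 hf2
      rw [← Matrix.det_transpose] at hdet
      have hkey : ∀ B ⊆ UF S Y F, ∀ μ : X →₀ ℕ, μ.support ⊆ F \ Y → μ.degree + B.card = N →
          OS S W n Y (E ∪ B) (ch F + μ) ∧ (ch F + μ).support = F := by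
        intro B hB μ hμ hd
        have hs : (ch F + μ).support = F := by
          ext u
          rw [Finsupp.mem_support_iff, Finsupp.add_apply]
          by_cases hu : u ∈ F
          · have h1 : (ch F : X →₀ ℕ) u ≠ 0 := by
              rw [← Finsupp.mem_support_iff, ch_support]
              exact hu
            exact ⟨fun _ => hu, fun _ => by omega⟩
          · have h1 : (ch F : X →₀ ℕ) u = 0 := by
              rw [← Finsupp.notMem_support_iff, ch_support]
              exact hu
            have h2 : μ u = 0 := by
              rw [← Finsupp.notMem_support_iff]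
              exact fun h => hu (Finset.mem_sdiff.1 (hμ h)).1
            exact ⟨fun h => absurd (by omega) h, fun h => absurd h hu⟩
        have hEB : Disjoint E B := Finset.disjoint_left.2 fun c hc hc' => hUE c hc (hB hc')
        refine ⟨⟨⟨Finset.union_subset hEW (hB.trans hUW), hs.symm ▸ hFW, ?_, ?_⟩, ?_⟩, hs⟩
        · rw [hs]
          exact (Finset.sdiff_subset_sdiff subset_rfl Finset.subset_union_left).trans hWE
        · rw [map_add, ch_degree, Finset.card_union_of_disjoint hEB]
          omega
        · intro w hw
          refine ty_iff.2 ⟨?_, ?_⟩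
          · have h1 : (ch F : X →₀ ℕ) w = 1 := by
              unfold ch
              rw [Finsupp.finset_sum_apply, Finset.sum_eq_single w]
              · exact Finsupp.single_eq_same
              · intro b _ hb
                exact Finsupp.single_eq_of_ne hb.symm
              · exact fun h => absurd (hYF hw) h
            have h2 : μ w = 0 := by
              rw [← Finsupp.notMem_support_iff]
              exact fun h => (Finset.mem_sdiff.1 (hμ h)).2 hw
            rw [Finsupp.add_apply, h1, h2]
          · rw [hs]
            refine (hP w hw).trans (Finset.card_le_card ?_)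
            intro c hc
            rw [Finset.mem_sdiff] at hc ⊢
            refine ⟨hc.1, fun h => ?_⟩
            rcases Finset.mem_union.1 h with h | h
            · exact hc.2 h
            · exact (Finset.mem_sdiff.1 (hB h)).2 (Finset.mem_biUnion.2 ⟨w, hw, hc.1⟩)
      have hint : ∀ B ⊆ UF S Y F, (E ∪ B) ∩ UF S Y F = B := by
        intro B hB
        ext c
        rw [Finset.mem_inter, Finset.mem_union]
        exact ⟨fun h => h.1.resolve_left fun h' => hUE c h' h.2, fun h => ⟨Or.inr h, hB h⟩⟩
      obtain ⟨G, hG⟩ := KEx_mono (K := S.K) (fun v c => S.a v c) (F \ Y) (U := UF S Y F) (N := N)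
        (by omega) f (fun v => car_UF (Finset.mem_sdiff.1 v.2).1 (Finset.mem_sdiff.1 v.2).2
          (hf2 v)) hdet (fun B μ => g (E ∪ B) (ch F + μ)) (by
          intro B hB μ hμ hd
          obtain ⟨h1, h2⟩ := hkey B hB μ hμ hd
          have h3 := hc _ _ h1.1
          rw [dl_piece hg (fun C M' h => by rw [h2, hFk]; exact hk C M' h), h2, hint B hB] at h3
          refine Eq.trans (Finset.sum_congr rfl fun c hcB => Finset.sum_congr rfl fun v _ => ?_) h3
          have h4 : E ∪ B.erase c = (E ∪ B).erase c := by
            rw [Finset.erase_union_distrib, Finset.erase_eq_of_notMem fun h => hUE c h (hB hcB)]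
          rw [h4, add_left_comm])
      refine ⟨G, fun C M hO' hF' _ hE' => ?_⟩
      have h1 : ch F ≤ M := by
        intro u
        by_cases hu : u ∈ F
        · have h2 : (ch F : X →₀ ℕ) u = 1 := by
            unfold ch
            rw [Finsupp.finset_sum_apply, Finset.sum_eq_single u]
            · exact Finsupp.single_eq_same
            · intro b _ hb
              exact Finsupp.single_eq_of_ne hb.symm
            · exact fun h => absurd hu h
          rw [h2]
          exact Nat.one_le_iff_ne_zero.2 (Finsupp.mem_support_iff.1 (hF' ▸ hu))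
        · have h2 : (ch F : X →₀ ℕ) u = 0 := by
            rw [← Finsupp.notMem_support_iff, ch_support]
            exact hu
          rw [h2]
          exact Nat.zero_le _
      obtain ⟨μ, rfl⟩ : ∃ μ, M = ch F + μ := ⟨M - ch F, (add_tsub_cancel_of_le h1).symm⟩
      have h2 : μ.support ⊆ F \ Y := by
        intro u hu
        have hu' := Finsupp.mem_support_iff.1 hu
        have huF : u ∈ F := by
          rw [← hF', Finsupp.mem_support_iff, Finsupp.add_apply]
          omega
        refine Finset.mem_sdiff.2 ⟨huF, fun hY' => ?_⟩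
        have h3 := (hO'.2 u hY').one
        have h4 : (ch F : X →₀ ℕ) u ≠ 0 := by
          rw [← Finsupp.mem_support_iff, ch_support]
          exact huF
        rw [Finsupp.add_apply] at h3
        omega
      have h3 : C = E ∪ (C ∩ UF S Y F) := by
        rw [← hE', Finset.sdiff_union_inter]
      have h4 : μ.degree + (C ∩ UF S Y F).card = N := by
        have h5 := hO'.1.deg
        have h6 : C.card = E.card + (C ∩ UF S Y F).card := by
          rw [← hE']
          exact (Finset.card_sdiff_add_card_inter C (UF S Y F)).symm
        rw [map_add, ch_degree] at h5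
        omega
      rw [add_tsub_cancel_left, ← hG _ Finset.inter_subset_right μ h2 h4, ← h3]
    · refine ⟨fun _ _ => 0, fun C M h1 h2 h3 h4 => absurd ⟨C, M, h1, h2, h3, h4⟩ hex⟩
  choose G hG using hG
  let e : Finset Ω → (X →₀ ℕ) → S.K := fun C M =>
    if OS S W n Y C M ∧ M.support.card = k then
      G M.support (C \ UF S Y M.support) (C ∩ UF S Y M.support) (M - ch M.support) else 0
  have he : ∀ C M, e C M ≠ 0 → OS S W n Y C M ∧ M.support.card = k := by
    intro C M h
    by_contra h'
    exact h (if_neg h')
  refine ⟨e, fun C M h => (he C M h).1, fun C M h => (he C M h).2.le, fun C M hV hkM => ?_⟩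
  by_cases hO : OS S W n Y C M
  · rcases hkM.lt_or_eq with hlt | heq
    · have h1 : g C M = 0 := by
        by_contra h
        exact absurd (hk C M h) (not_le.2 hlt)
      rw [h1]
      refine (Finset.sum_eq_zero fun c _ => Finset.sum_eq_zero fun v _ => ?_).symm
      by_contra hne
      have h2 := (he _ _ (right_ne_zero_of_mul hne)).2
      rw [supp_add1] at h2
      have h3 := Finset.card_le_card (Finset.subset_insert v M.support)
      omega
    · rw [dl_piece (fun C M h => (he C M h).1) (fun C M' h => by rw [← heq]; exact (he C M' h).2.le),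
        hG M.support (C \ UF S Y M.support) C M hO rfl heq.symm rfl]
      refine Finset.sum_congr rfl fun c hcC => Finset.sum_congr rfl fun v hv => ?_
      rw [Finset.mem_inter] at hcC
      rw [Finset.mem_sdiff] at hv
      by_cases ha : S.a v c = 0
      · rw [ha, zero_mul, zero_mul]
      · congr 1
        have hsup : (Finsupp.single v 1 + M).support = M.support := by
          rw [supp_add1, Finset.insert_eq_of_mem hv.1]
        have hVP := hV.up hcC.1 (a_mem ha) (hsup.symm ▸ hV.fcs)
        have hO2 : OS S W n Y (C.erase c) (Finsupp.single v 1 + M) := by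
          refine ⟨hVP, fun w hw => ?_⟩
          obtain ⟨h1, h2⟩ := ty_iff.1 (hO.2 w hw)
          refine ty_iff.2 ⟨?_, ?_⟩
          · have hne : v ≠ w := by
              rintro rfl
              exact hv.2 hw
            rw [Finsupp.add_apply, Finsupp.single_eq_of_ne hne.symm, zero_add]
            exact h1
          · rw [hsup]
            refine h2.trans (Finset.card_le_card ?_)
            exact Finset.sdiff_subset_sdiff subset_rfl (Finset.erase_subset c C)
        have h3 : e (C.erase c) (Finsupp.single v 1 + M) =
            G (Finsupp.single v 1 + M).support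
              (C.erase c \ UF S Y (Finsupp.single v 1 + M).support)
              (C.erase c ∩ UF S Y (Finsupp.single v 1 + M).support)
              ((Finsupp.single v 1 + M) - ch (Finsupp.single v 1 + M).support) :=
          if_pos ⟨hO2, by rw [hsup]; exact heq.symm⟩
        rw [h3, hsup]
        have h4 : C.erase c \ UF S Y M.support = C \ UF S Y M.support := by
          ext b
          rw [Finset.mem_sdiff, Finset.mem_sdiff, Finset.mem_erase]
          exact ⟨fun h => ⟨h.1.2, h.2⟩, fun h => ⟨⟨fun h' => h.2 (h' ▸ hcC.2), h.1⟩, h.2⟩⟩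
        have h5 : C.erase c ∩ UF S Y M.support = (C ∩ UF S Y M.support).erase c :=
          Finset.erase_inter ..
        have h6 : (Finsupp.single v 1 + M) - ch M.support =
            Finsupp.single v 1 + (M - ch M.support) := by
          refine add_tsub_assoc_of_le ?_ _
          intro u
          by_cases hu : u ∈ M.support
          · have h2 : (ch M.support : X →₀ ℕ) u = 1 := by
              unfold ch
              rw [Finsupp.finset_sum_apply, Finset.sum_eq_single u]
              · exact Finsupp.single_eq_same
              · intro b _ hb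
                exact Finsupp.single_eq_of_ne hb.symm
              · exact fun h => absurd hu h
            rw [h2]
            exact Nat.one_le_iff_ne_zero.2 (Finsupp.mem_support_iff.1 hu)
          · have h2 : (ch M.support : X →₀ ℕ) u = 0 := by
              rw [← Finsupp.notMem_support_iff, ch_support]
              exact hu
            rw [h2]
            exact Nat.zero_le _
        rw [h4, h5, h6]
  · have h1 : g C M = 0 := by
      by_contra h
      exact hO (hg C M h)
    rw [h1]
    refine (Finset.sum_eq_zero fun c hc' => Finset.sum_eq_zero fun v _ => ?_).symm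
    by_contra hne
    exact hO ((cl_OS S W n Y).cl C M c v hV hc' (a_mem (left_ne_zero_of_mul hne))
      (he _ _ (right_ne_zero_of_mul hne)).1)

/-- Cocycles supported on the pairs typed by two vertices or more are coboundaries. -/
theorem exa_OS (hn : W.card ≤ n + 3) (hY : 2 ≤ Y.card) : Exa S W n (OS S W n Y) := by
  have := S.charP_K
  have key : ∀ k : ℕ, ∀ g : Finset Ω → (X →₀ ℕ) → S.K, (∀ C M, g C M ≠ 0 → OS S W n Y C M) →
      (∀ C M, VP S W n C M → dl S g C M = 0) → (∀ C M, g C M ≠ 0 → M.support.card < k) →
      ∃ e : Finset Ω → (X →₀ ℕ) → S.K, (∀ C M, e C M ≠ 0 → OS S W n Y C M) ∧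
        ∀ C M, VP S W n C M → g C M = dl S e C M := by
    intro k
    induction k with
    | zero =>
      intro g _ _ hk
      have h0 : ∀ C M, g C M = 0 := fun C M => by
        by_contra h
        exact Nat.not_lt_zero _ (hk C M h)
      refine ⟨fun _ _ => 0, fun _ _ h => absurd rfl h, fun C M _ => ?_⟩
      rw [h0]
      exact (Finset.sum_eq_zero fun c _ => Finset.sum_eq_zero fun v _ => mul_zero _).symm
    | succ k ih =>
      intro g hg hc hk
      obtain ⟨e, he1, he2, he3⟩ := exa_step hn hY hg hc (k := k)
        (fun C M h => Nat.lt_succ_iff.1 (hk C M h))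
      have hdv : ∀ C M, dv S W n e C M ≠ 0 → OS S W n Y C M := by
        intro C M h
        have hV : VP S W n C M := by
          by_contra h'
          exact h (dv_neg h')
        rw [dv_pos hV] at h
        obtain ⟨c, hcC, hc'⟩ := Finset.exists_ne_zero_of_sum_ne_zero h
        obtain ⟨v, -, hv⟩ := Finset.exists_ne_zero_of_sum_ne_zero hc'
        exact (cl_OS S W n Y).cl C M c v hV hcC (a_mem (left_ne_zero_of_mul hv))
          (he1 _ _ (right_ne_zero_of_mul hv))
      obtain ⟨e', he'1, he'2⟩ := ih (fun C M => g C M + dv S W n e C M) (fun C M h => by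
          by_cases h1 : g C M = 0
          · beta_reduce at h
            rw [h1, zero_add] at h
            exact hdv C M h
          · exact hg C M h1) (fun C M hV => by
          rw [dl_add, hc C M hV, dl_dv (fun C M h => (he1 C M h).1) hV, add_zero])
        (fun C M h => by
          by_contra hle
          rw [not_lt] at hle
          by_cases hV : VP S W n C M
          · rw [dv_pos hV, he3 C M hV hle] at h
            exact h (CharTwo.add_self_eq_zero _)
          · rw [dv_neg hV, add_zero] at h
            exact hV (hg C M h).1)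
      refine ⟨fun C M => e C M + e' C M, fun C M h => ?_, fun C M hV => ?_⟩
      · by_cases h1 : e C M = 0
        · beta_reduce at h
          rw [h1, zero_add] at h
          exact he'1 C M h
        · exact he1 C M h1
      · rw [dl_add, ← he'2 C M hV, dv_pos hV, add_comm (dl S e C M), add_assoc,
          CharTwo.add_self_eq_zero, add_zero]
  intro g hg hc
  refine key (Fintype.card X + 1) g hg hc fun C M _ => ?_
  exact Nat.lt_succ_iff.2 (Finset.card_le_univ _)

end Pool.Agent.LH4
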