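import Pool.Agent.LH4.Ho

/-!
# The classes of the flux of a piece (row 1250): definitions
-/

set_option autoImplicit false

open Finset

namespace Pool.Agent.LH4

open Pool.Agent.LocH

variable {X Ω : Type} [Fintype X] [DecidableEq X] [Fintype Ω] [DecidableEq Ω]

/-- `h` represents the form `A` of degree `|W| - k` at the multiples of `τ`. -/
structure Hon (S : Sub X Ω) (W : Finset Ω) (k : ℕ) (A : S.T →ₗ[S.K] S.K) (τ : Finset X)
    (h : S.T) : Prop where
  JT : h ∈ S.JT τ W W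
  H : h ∈ S.H k
  eq : ∀ (j : ℕ) (y : S.T), Ok S W τ j y → j + k = W.card → A y = S.Tr W (h * y)

/-- The vector `ν` is in the span of the `θ_b`, `b ∈ Z`. -/
def NZ (S : Sub X Ω) (Z : Finset Ω) (ν : X → S.K) : Prop :=
  ∃ μ : Ω → S.K, ∀ u, ν u = ∑ b ∈ Z, μ b * S.a u b

/-- The lift along `ν` of a family of local representatives. -/
noncomputable def Lf (S : Sub X Ω) (ν : X → S.K) (H : X → S.T) : S.T :=
  ∑ u, ν u • (MvPolynomial.X u * H u)

/-- A class of the flux at `w` with the missing colours `Z`; `V` is the set of its vertices. -/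
structure Cs (S : Sub X Ω) (W : Finset Ω) (w : X) (Z : Finset Ω) (V : Finset X)
    (A : S.T →ₗ[S.K] S.K) : Prop where
  Zs : Z ⊆ S.car w
  Zc : Z.card = 3
  VZ : ∀ v ∈ V, Disjoint (S.car v) Z
  ind : ∀ v ∈ V, S.car v ≠ W \ Z → ∃ μ : Ω → S.K, ∀ u ∈ V, S.car u ≠ W \ Z →
    ∑ c ∈ W, μ c * S.a u c = if u = v then 1 else 0
  nf : ∀ M : X →₀ ℕ, M.degree + 2 = W.card → M.support ∉ S.fcs W → A (S.mo M) = 0
  th : ∀ c ∈ W, ∀ M : X →₀ ℕ, M.degree + 3 = W.card → W.erase c ⊆ S.cr M.support →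
    A (S.th c * S.mo M) ≠ 0 → M w = 1 ∧ c ∉ Z ∧ M.support.erase w ⊆ V

/-- Local representatives of a class outside its vertices. -/
structure Lr (S : Sub X Ω) (W : Finset Ω) (w : X) (V : Finset X) (A : S.T →ₗ[S.K] S.K)
    (H : X → S.T) : Prop where
  hon : ∀ u, u ≠ w → u ∉ V → S.car u ⊆ W → Hon S W 2 A {u} (H u)
  zero : ∀ u, ¬ (u ≠ w ∧ u ∉ V ∧ S.car u ⊆ W) → H u = 0

/-- A form of degree `|W| - 3` whose coboundary lives at pairs in which `w` has at least four private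
colours. -/
structure Gt (S : Sub X Ω) (W : Finset Ω) (w : X) (G : S.T →ₗ[S.K] S.K) : Prop where
  nf : ∀ M : X →₀ ℕ, M.degree + 3 = W.card → M.support ∉ S.fcs W → G (S.mo M) = 0
  th : ∀ c ∈ W, ∀ M : X →₀ ℕ, M.degree + 4 = W.card → W.erase c ⊆ S.cr M.support →
    G (S.th c * S.mo M) ≠ 0 →
    M w = 1 ∧ 4 ≤ ((S.car w \ S.cr (M.support.erase w)) \ {c}).card

/-- The decomposition of a piece into classes. -/
structure Zd (S : Sub X Ω) (W : Finset Ω) (w : X) (al : S.T →ₗ[S.K] S.K) {ι : Type}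
    (I : Finset ι) (Z : ι → Finset Ω) (V : ι → Finset X) (A : ι → S.T →ₗ[S.K] S.K)
    (h : S.T) : Prop where
  cs : ∀ i ∈ I, Cs S W w (Z i) (V i) (A i)
  hJ : h ∈ S.J W W
  hH : h ∈ S.H 2
  tot : ∀ N : X →₀ ℕ, N.degree + 2 = W.card → (N.support ∈ S.fcs W → W ⊆ S.cr N.support) →
    ¬ Ty S w ∅ N → al (S.mo N) = ∑ i ∈ I, A i (S.mo N) + S.Tr W (h * S.mo N)

/-- The valid pairs in which the vertex `w` has multiplicity one, no colour of `Z` is in `C` or covered
by another vertex, and the other vertices are in `V`. -/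
def OZ (S : Sub X Ω) (W : Finset Ω) (n : ℕ) (w : X) (V : Finset X) (Z C : Finset Ω)
    (M : X →₀ ℕ) : Prop :=
  VP S W n C M ∧ M w = 1 ∧ Disjoint Z C ∧ Disjoint Z (S.cr (M.support.erase w)) ∧
    M.support.erase w ⊆ V

end Pool.Agent.LH4
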