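import Pool.Agent.LH4.Ov4
import Pool.Agent.LH4.Zdef

/-!
# Cocycles supported on the pairs in which one vertex has many given private colours

`exa_OZ`: at level `n` the cocycles supported on `OZ S W n w V Z` are coboundaries if
`|W| + 2 ≤ n + |Z|`.  `exa_UZ`: the same for finite unions.  `splitZ`: the splitting of a cocycle.
-/

set_option autoImplicit false

open Finset

namespace Pool.Agent.LH4

open Pool.Agent.LocH

open Pool.Agent.LocH.Sub (ch ch_support ch_degree)

variable {X Ω : Type} [Fintype X] [DecidableEq X] [Fintype Ω] [DecidableEq Ω] {S : Sub X Ω}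
  {W : Finset Ω} {n : ℕ} {w : X} {V : Finset X} {Z : Finset Ω}

omit [Fintype X] [Fintype Ω] in
theorem OZ.mem {C : Finset Ω} {M : X →₀ ℕ} (h : OZ S W n w V Z C M) : w ∈ M.support :=
  Finsupp.mem_support_iff.2 (by rw [h.2.1]; exact one_ne_zero)

/-- The private colours outside `C`. -/
theorem OZ.car (hZ : Z ⊆ W) {C : Finset Ω} {M : X →₀ ℕ} (h : OZ S W n w V Z C M) :
    Z ⊆ S.car w := by
  intro c hc
  have h1 : c ∈ S.cr M.support := h.1.cov (Finset.mem_sdiff.2 ⟨hZ hc, fun h' =>
    Finset.disjoint_left.1 h.2.2.1 hc h'⟩)
  obtain ⟨u, hu, hu'⟩ := mem_cr.1 h1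
  by_cases huw : u = w
  · exact huw ▸ hu'
  · exact absurd (mem_cr.2 ⟨u, Finset.mem_erase.2 ⟨huw, hu⟩, hu'⟩)
      (Finset.disjoint_left.1 h.2.2.2.1 hc)

theorem cl_OZ (S : Sub X Ω) (W : Finset Ω) (n : ℕ) (w : X) (V : Finset X) {Z : Finset Ω}
    (hZ : Z ⊆ W) (hZ2 : 2 ≤ Z.card) : Cl S W n (OZ S W n w V Z) := by
  refine ⟨fun C M h => h.1, fun C M c v hVP hc hv h => ?_⟩
  obtain ⟨h0, h1, h2, h3, h4⟩ := h
  rw [Finsupp.add_apply, Finsupp.single_apply] at h1
  rw [supp_add1] at h3 h4
  by_cases hvw : v = w
  · subst hvw
    rw [if_pos rfl] at h1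
    have h5 : v ∉ M.support := by
      rw [Finsupp.mem_support_iff]
      omega
    rw [Finset.erase_insert h5] at h3
    exfalso
    have h6 : Z ⊆ {c} := by
      intro b hb
      rw [Finset.mem_singleton]
      by_contra hbc
      have hbC : b ∉ C := fun h' => Finset.disjoint_left.1 h2 hb
        (Finset.mem_erase.2 ⟨hbc, h'⟩)
      exact Finset.disjoint_left.1 h3 hb (hVP.cov (Finset.mem_sdiff.2 ⟨hZ hb, hbC⟩))
    have h7 := Finset.card_le_card h6
    rw [Finset.card_singleton] at h7
    omega
  · rw [if_neg hvw, zero_add] at h1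
    rw [Finset.erase_insert_of_ne hvw] at h3 h4
    have hcZ : c ∉ Z := fun h => Finset.disjoint_left.1 h3 h
      (mem_cr.2 ⟨v, Finset.mem_insert_self v _, hv⟩)
    refine ⟨hVP, h1, ?_, ?_, (Finset.subset_insert v _).trans h4⟩
    · rw [Finset.disjoint_left] at h2 ⊢
      exact fun b hb hbC => h2 hb (Finset.mem_erase.2 ⟨fun h => hcZ (h ▸ hb), hbC⟩)
    · rw [Finset.disjoint_left] at h3 ⊢
      intro b hb hb'
      obtain ⟨u, hu, hu'⟩ := mem_cr.1 hb'
      exact h3 hb (mem_cr.2 ⟨u, Finset.mem_insert_of_mem hu, hu'⟩)

/-- The coboundary of a cochain whose supports have at most `k` vertices. -/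
theorem dl_pieceZ {g : Finset Ω → (X →₀ ℕ) → S.K} {M : X →₀ ℕ}
    (hg : ∀ C M, g C M ≠ 0 → M w = 1)
    (hk : ∀ C M', g C M' ≠ 0 → M'.support.card ≤ M.support.card) (C : Finset Ω) :
    dl S g C M = ∑ c ∈ C ∩ S.cr (M.support.erase w), ∑ v ∈ M.support.erase w,
      S.a v c * g (C.erase c) (Finsupp.single v 1 + M) := by
  have h1 : ∀ c v, v ∉ M.support.erase w →
      S.a v c * g (C.erase c) (Finsupp.single v 1 + M) = 0 := by
    intro c v hv
    by_contra hne
    have hg' := right_ne_zero_of_mul hne
    by_cases hvM : v ∈ M.support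
    · have hvY : v = w := by
        by_contra h
        exact hv (Finset.mem_erase.2 ⟨h, hvM⟩)
      have h2 := hg _ _ hg'
      rw [Finsupp.add_apply, hvY, Finsupp.single_eq_same] at h2
      have h3 := Finsupp.mem_support_iff.1 hvM
      rw [hvY] at h3
      omega
    · have h2 := hk _ _ hg'
      rw [supp_add1, Finset.card_insert_of_notMem hvM] at h2
      omega
  have h2 : ∀ c, ∑ v, S.a v c * g (C.erase c) (Finsupp.single v 1 + M) =
      ∑ v ∈ M.support.erase w, S.a v c * g (C.erase c) (Finsupp.single v 1 + M) := fun c =>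
    (Finset.sum_subset (Finset.subset_univ _) fun v _ hv => h1 c v hv).symm
  unfold dl
  rw [Finset.sum_congr rfl fun c _ => h2 c]
  refine (Finset.sum_subset Finset.inter_subset_left fun c hc hc' => ?_).symm
  refine Finset.sum_eq_zero fun v hv => ?_
  have h3 : c ∉ S.car v := fun h =>
    hc' (Finset.mem_inter.2 ⟨hc, mem_cr.2 ⟨v, hv, h⟩⟩)
  have h4 : S.a v c = 0 := dif_neg h3
  rw [h4, zero_mul]

/-- One step: the supports with exactly `k` vertices. -/
theorem exa_stepZ (hZ : Z ⊆ W) (hn : W.card + 2 ≤ n + Z.card)
    {g : Finset Ω → (X →₀ ℕ) → S.K} (hg : ∀ C M, g C M ≠ 0 → OZ S W n w V Z C M)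
    (hc : ∀ C M, VP S W n C M → dl S g C M = 0) {k : ℕ}
    (hk : ∀ C M, g C M ≠ 0 → M.support.card ≤ k) :
    ∃ e : Finset Ω → (X →₀ ℕ) → S.K, (∀ C M, e C M ≠ 0 → OZ S W n w V Z C M) ∧
      (∀ C M, e C M ≠ 0 → M.support.card ≤ k) ∧
      ∀ C M, OZ S W n w V Z C M → k ≤ M.support.card → g C M = dl S e C M := by
  classical
  have := S.charP_K
  -- the pieces
  have hG : ∀ F : Finset X, ∀ E : Finset Ω, ∃ G : Finset Ω → (X →₀ ℕ) → S.K,
      ∀ C M, OZ S W n w V Z C M → M.support = F → F.card = k → C \ S.cr (F.erase w) = E →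
      g C M = ∑ c ∈ C ∩ S.cr (F.erase w), ∑ v ∈ F.erase w, S.a v c *
        G ((C ∩ S.cr (F.erase w)).erase c) (Finsupp.single v 1 + (M - ch F)) := by
    intro F E
    by_cases hex : ∃ C M, OZ S W n w V Z C M ∧ M.support = F ∧ F.card = k ∧
        C \ S.cr (F.erase w) = E
    · obtain ⟨C0, M0, hO, hF, hFk, hE⟩ := hex
      have hFW : F ∈ S.fcs W := hF ▸ hO.1.fcs
      have hwF : w ∈ F := hF ▸ hO.mem
      have hFV : F.erase w ⊆ V := hF ▸ hO.2.2.2.2
      have hZF : Disjoint Z (S.cr (F.erase w)) := hF ▸ hO.2.2.2.1
      have hUE : ∀ c ∈ E, c ∉ S.cr (F.erase w) := fun c hc => by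
        rw [← hE] at hc
        exact (Finset.mem_sdiff.1 hc).2
      have hUF : S.cr (F.erase w) ⊆ S.cr F :=
        Finset.biUnion_subset_biUnion_of_subset_left _ (Finset.erase_subset w F)
      have hUW : S.cr (F.erase w) ⊆ W := hUF.trans (Finset.mem_filter.1 hFW).2
      have hEW : E ⊆ W := by
        rw [← hE]
        exact Finset.sdiff_subset.trans hO.1.sub
      have hWE : W \ E ⊆ S.cr F := by
        intro c hc
        rw [Finset.mem_sdiff] at hc
        by_cases hcC : c ∈ C0
        · have h1 : c ∈ S.cr (F.erase w) := by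
            by_contra h
            exact hc.2 (hE ▸ Finset.mem_sdiff.2 ⟨hcC, h⟩)
          exact hUF h1
        · have h1 := hO.1.cov (Finset.mem_sdiff.2 ⟨hc.1, hcC⟩)
          rwa [hF] at h1
      have hZE : Disjoint Z E := by
        rw [Finset.disjoint_left]
        intro c hcZ hcE
        rw [← hE] at hcE
        exact Finset.disjoint_left.1 hO.2.2.1 hcZ (Finset.mem_sdiff.1 hcE).1
      -- the count
      have hcount : (S.cr (F.erase w)).card + E.card + Z.card ≤ W.card := by
        have h2 : Disjoint (S.cr (F.erase w) ∪ E) Z := by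
          rw [Finset.disjoint_union_left]
          exact ⟨hZF.symm, hZE.symm⟩
        have h3 : S.cr (F.erase w) ∪ E ∪ Z ⊆ W :=
          Finset.union_subset (Finset.union_subset hUW hEW) hZ
        have h4 := Finset.card_le_card h3
        rwa [Finset.card_union_of_disjoint h2, Finset.card_union_of_disjoint
          (Finset.disjoint_left.2 fun c hc hc' => hUE c hc' hc)] at h4
      have hcF : (F.erase w).card + 1 = F.card := Finset.card_erase_add_one hwF
      obtain ⟨N, hN⟩ : ∃ N, N + F.card + E.card = n := by
        have h1 := hO.1.deg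
        have h2 : F.card ≤ M0.degree := by
          rw [← hF, Finsupp.degree, Finset.card_eq_sum_ones]
          exact Finset.sum_le_sum fun v hv => Nat.one_le_iff_ne_zero.2
            (Finsupp.mem_support_iff.1 hv)
        have h3 : E.card ≤ C0.card := by
          rw [← hE]
          exact Finset.card_le_card Finset.sdiff_subset
        exact ⟨n - F.card - E.card, by omega⟩
      have hFY : F.erase w ∈ S.Gam :=
        S.down F (Finset.mem_filter.1 hFW).1 _ (Finset.erase_subset w F)
      obtain ⟨f, hf1, hf2⟩ := S.exists_inj hFY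
      have hdet := S.minor_ne hf1 hf2
      rw [← Matrix.det_transpose] at hdet
      have hkey : ∀ B ⊆ S.cr (F.erase w), ∀ μ : X →₀ ℕ, μ.support ⊆ F.erase w →
          μ.degree + B.card = N →
          OZ S W n w V Z (E ∪ B) (ch F + μ) ∧ (ch F + μ).support = F := by
        intro B hB μ hμ hd
        have hs : (ch F + μ).support = F := by
          ext u
          rw [Finsupp.mem_support_iff, Finsupp.add_apply]
          by_cases hu : u ∈ F
          · have h1 : (ch F : X →₀ ℕ) u ≠ 0 := by
              rw [← Finsupp.mem_support_iff, ch_support]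
              exact hu
            exact ⟨fun _ => hu, fun _ => by omega⟩
          · have h1 : (ch F : X →₀ ℕ) u = 0 := by
              rw [← Finsupp.notMem_support_iff, ch_support]
              exact hu
            have h2 : μ u = 0 := by
              rw [← Finsupp.notMem_support_iff]
              exact fun h => hu (Finset.mem_erase.1 (hμ h)).2
            exact ⟨fun h => absurd (by omega) h, fun h => absurd h hu⟩
        have hEB : Disjoint E B := Finset.disjoint_left.2 fun c hc hc' => hUE c hc (hB hc')
        refine ⟨⟨⟨Finset.union_subset hEW (hB.trans hUW), hs.symm ▸ hFW, ?_, ?_⟩, ?_, ?_, ?_, ?_⟩,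
          hs⟩
        · rw [hs]
          exact (Finset.sdiff_subset_sdiff subset_rfl Finset.subset_union_left).trans hWE
        · rw [map_add, ch_degree, Finset.card_union_of_disjoint hEB]
          omega
        · have h1 : (ch F : X →₀ ℕ) w = 1 := by
            unfold ch
            rw [Finsupp.finset_sum_apply, Finset.sum_eq_single w]
            · exact Finsupp.single_eq_same
            · intro b _ hb
              exact Finsupp.single_eq_of_ne hb.symm
            · exact fun h => absurd hwF h
          have h2 : μ w = 0 := by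
            rw [← Finsupp.notMem_support_iff]
            exact fun h => (Finset.mem_erase.1 (hμ h)).1 rfl
          rw [Finsupp.add_apply, h1, h2]
        · rw [Finset.disjoint_union_right]
          exact ⟨hZE, Finset.disjoint_of_subset_right hB hZF⟩
        · rw [hs]
          exact hZF
        · rw [hs]
          exact hFV
      have hint : ∀ B ⊆ S.cr (F.erase w), (E ∪ B) ∩ S.cr (F.erase w) = B := by
        intro B hB
        ext c
        rw [Finset.mem_inter, Finset.mem_union]
        exact ⟨fun h => h.1.resolve_left fun h' => hUE c h' h.2, fun h => ⟨Or.inr h, hB h⟩⟩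
      obtain ⟨G, hG⟩ := KEx_mono (K := S.K) (fun v c => S.a v c) (F.erase w)
        (U := S.cr (F.erase w)) (N := N)
        (by omega) f (fun v => mem_cr.2 ⟨v.1, v.2, hf2 v⟩) hdet
        (fun B μ => g (E ∪ B) (ch F + μ)) (by
          intro B hB μ hμ hd
          obtain ⟨h1, h2⟩ := hkey B hB μ hμ hd
          have h3 := hc _ _ h1.1
          rw [dl_pieceZ (w := w) (fun C M h => (hg C M h).2.1)
            (fun C M' h => by rw [h2, hFk]; exact hk C M' h), h2, hint B hB] at h3
          refine Eq.trans (Finset.sum_congr rfl fun c hcB => Finset.sum_congr rfl fun v _ => ?_) h3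
          have h4 : E ∪ B.erase c = (E ∪ B).erase c := by
            rw [Finset.erase_union_distrib, Finset.erase_eq_of_notMem fun h => hUE c h (hB hcB)]
          rw [h4, add_left_comm])
      refine ⟨G, fun C M hO' hF' _ hE' => ?_⟩
      have h1 : ch F ≤ M := by
        intro u
        by_cases hu : u ∈ F
        · have h2 : (ch F : X →₀ ℕ) u = 1 := by
            unfold ch
            rw [Finsupp.finset_sum_apply, Finset.sum_eq_single u]
            · exact Finsupp.single_eq_same
            · intro b _ hb
              exact Finsupp.single_eq_of_ne hb.symm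
            · exact fun h => absurd hu h
          rw [h2]
          exact Nat.one_le_iff_ne_zero.2 (Finsupp.mem_support_iff.1 (hF' ▸ hu))
        · have h2 : (ch F : X →₀ ℕ) u = 0 := by
            rw [← Finsupp.notMem_support_iff, ch_support]
            exact hu
          rw [h2]
          exact Nat.zero_le _
      obtain ⟨μ, rfl⟩ : ∃ μ, M = ch F + μ := ⟨M - ch F, (add_tsub_cancel_of_le h1).symm⟩
      have h2 : μ.support ⊆ F.erase w := by
        intro u hu
        have hu' := Finsupp.mem_support_iff.1 hu
        have huF : u ∈ F := by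
          rw [← hF', Finsupp.mem_support_iff, Finsupp.add_apply]
          omega
        refine Finset.mem_erase.2 ⟨fun huw => ?_, huF⟩
        have h3 := hO'.2.1
        have h4 : (ch F : X →₀ ℕ) u ≠ 0 := by
          rw [← Finsupp.mem_support_iff, ch_support]
          exact huF
        rw [← huw, Finsupp.add_apply] at h3
        omega
      have h3 : C = E ∪ (C ∩ S.cr (F.erase w)) := by
        rw [← hE', Finset.sdiff_union_inter]
      have h4 : μ.degree + (C ∩ S.cr (F.erase w)).card = N := by
        have h5 := hO'.1.deg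
        have h6 : C.card = E.card + (C ∩ S.cr (F.erase w)).card := by
          rw [← hE']
          exact (Finset.card_sdiff_add_card_inter C (S.cr (F.erase w))).symm
        rw [map_add, ch_degree] at h5
        omega
      rw [add_tsub_cancel_left, ← hG _ Finset.inter_subset_right μ h2 h4, ← h3]
    · refine ⟨fun _ _ => 0, fun C M h1 h2 h3 h4 => absurd ⟨C, M, h1, h2, h3, h4⟩ hex⟩
  choose G hG using hG
  let e : Finset Ω → (X →₀ ℕ) → S.K := fun C M =>
    if OZ S W n w V Z C M ∧ M.support.card = k then
      G M.support (C \ S.cr (M.support.erase w)) (C ∩ S.cr (M.support.erase w))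
        (M - ch M.support) else 0
  have he : ∀ C M, e C M ≠ 0 → OZ S W n w V Z C M ∧ M.support.card = k := by
    intro C M h
    by_contra h'
    exact h (if_neg h')
  refine ⟨e, fun C M h => (he C M h).1, fun C M h => (he C M h).2.le, fun C M hO hkM => ?_⟩
  have hV := hO.1
  rcases hkM.lt_or_eq with hlt | heq
  · have h1 : g C M = 0 := by
      by_contra h
      exact absurd (hk C M h) (not_le.2 hlt)
    rw [h1]
    refine (Finset.sum_eq_zero fun c _ => Finset.sum_eq_zero fun v _ => ?_).symm
    by_contra hne
    have h2 := (he _ _ (right_ne_zero_of_mul hne)).2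
    rw [supp_add1] at h2
    have h3 := Finset.card_le_card (Finset.subset_insert v M.support)
    omega
  · rw [dl_pieceZ (w := w) (fun C M h => (he C M h).1.2.1)
        (fun C M' h => by rw [← heq]; exact (he C M' h).2.le),
      hG M.support (C \ S.cr (M.support.erase w)) C M hO rfl heq.symm rfl]
    refine Finset.sum_congr rfl fun c hcC => Finset.sum_congr rfl fun v hv => ?_
    rw [Finset.mem_inter] at hcC
    rw [Finset.mem_erase] at hv
    by_cases ha : S.a v c = 0
    · rw [ha, zero_mul, zero_mul]
    · congr 1
      have hsup : (Finsupp.single v 1 + M).support = M.support := by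
        rw [supp_add1, Finset.insert_eq_of_mem hv.2]
      have hVP := hV.up hcC.1 (a_mem ha) (hsup.symm ▸ hV.fcs)
      have hO2 : OZ S W n w V Z (C.erase c) (Finsupp.single v 1 + M) := by
        refine ⟨hVP, ?_, ?_, ?_, ?_⟩
        · rw [Finsupp.add_apply, Finsupp.single_eq_of_ne hv.1.symm, zero_add]
          exact hO.2.1
        · exact Finset.disjoint_of_subset_right (Finset.erase_subset c C) hO.2.2.1
        · rw [hsup]
          exact hO.2.2.2.1
        · rw [hsup]
          exact hO.2.2.2.2
      have h3 : e (C.erase c) (Finsupp.single v 1 + M) =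
          G (Finsupp.single v 1 + M).support
            (C.erase c \ S.cr ((Finsupp.single v 1 + M).support.erase w))
            (C.erase c ∩ S.cr ((Finsupp.single v 1 + M).support.erase w))
            ((Finsupp.single v 1 + M) - ch (Finsupp.single v 1 + M).support) :=
        if_pos ⟨hO2, by rw [hsup]; exact heq.symm⟩
      rw [h3, hsup]
      have h4 : C.erase c \ S.cr (M.support.erase w) = C \ S.cr (M.support.erase w) := by
        ext b
        rw [Finset.mem_sdiff, Finset.mem_sdiff, Finset.mem_erase]
        exact ⟨fun h => ⟨h.1.2, h.2⟩, fun h => ⟨⟨fun h' => h.2 (h' ▸ hcC.2), h.1⟩, h.2⟩⟩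
      have h5 : C.erase c ∩ S.cr (M.support.erase w) =
          (C ∩ S.cr (M.support.erase w)).erase c :=
        Finset.erase_inter ..
      have h6 : (Finsupp.single v 1 + M) - ch M.support =
          Finsupp.single v 1 + (M - ch M.support) := by
        refine add_tsub_assoc_of_le ?_ _
        intro u
        by_cases hu : u ∈ M.support
        · have h2 : (ch M.support : X →₀ ℕ) u = 1 := by
            unfold ch
            rw [Finsupp.finset_sum_apply, Finset.sum_eq_single u]
            · exact Finsupp.single_eq_same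
            · intro b _ hb
              exact Finsupp.single_eq_of_ne hb.symm
            · exact fun h => absurd hu h
          rw [h2]
          exact Nat.one_le_iff_ne_zero.2 (Finsupp.mem_support_iff.1 hu)
        · have h2 : (ch M.support : X →₀ ℕ) u = 0 := by
            rw [← Finsupp.notMem_support_iff, ch_support]
            exact hu
          rw [h2]
          exact Nat.zero_le _
      rw [h4, h5, h6]

end Pool.Agent.LH4
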