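import Pool.Agent.LH4.Oz1

/-!
# Exactness for the pairs with many given private colours, for finite unions, and the splitting

`exa_OZ`, `exa_UZ`, `splitZ`.
-/

set_option autoImplicit false

open Finset

namespace Pool.Agent.LH4

open Pool.Agent.LocH

variable {X Ω : Type} [Fintype X] [DecidableEq X] [Fintype Ω] [DecidableEq Ω] {S : Sub X Ω}
  {W : Finset Ω} {n : ℕ} {w : X} {V : Finset X} {Z : Finset Ω}

/-- The coboundary of a cochain supported on a closed set, at a pair outside. -/
theorem dl_off {P : Finset Ω → (X →₀ ℕ) → Prop} (hP : Cl S W n P)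
    {r : Finset Ω → (X →₀ ℕ) → S.K} (hr : ∀ C M, r C M ≠ 0 → P C M) {C : Finset Ω}
    {M : X →₀ ℕ} (hV : VP S W n C M) (h : ¬ P C M) : dl S r C M = 0 := by
  by_contra hne
  rw [← dv_pos hV] at hne
  exact h (dv_supp hP hr C M hne)

/-- Cocycles supported on the pairs with many given private colours are coboundaries. -/
theorem exa_OZ (hZ : Z ⊆ W) (hZ2 : 2 ≤ Z.card) (hn : W.card + 2 ≤ n + Z.card) :
    Exa S W n (OZ S W n w V Z) := by
  have := S.charP_K
  have hcl := cl_OZ S W n w V hZ hZ2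
  have key : ∀ k : ℕ, ∀ g : Finset Ω → (X →₀ ℕ) → S.K, (∀ C M, g C M ≠ 0 → OZ S W n w V Z C M) →
      (∀ C M, VP S W n C M → dl S g C M = 0) → (∀ C M, g C M ≠ 0 → M.support.card < k) →
      ∃ e : Finset Ω → (X →₀ ℕ) → S.K, (∀ C M, e C M ≠ 0 → OZ S W n w V Z C M) ∧
        ∀ C M, VP S W n C M → g C M = dl S e C M := by
    intro k
    induction k with
    | zero =>
      intro g _ _ hk
      have h0 : ∀ C M, g C M = 0 := fun C M => by
        by_contra h
        exact Nat.not_lt_zero _ (hk C M h)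
      refine ⟨fun _ _ => 0, fun _ _ h => absurd rfl h, fun C M _ => ?_⟩
      rw [h0]
      exact (Finset.sum_eq_zero fun c _ => Finset.sum_eq_zero fun v _ => mul_zero _).symm
    | succ k ih =>
      intro g hg hc hk
      obtain ⟨e, he1, he2, he3⟩ := exa_stepZ hZ hn hg hc (k := k)
        (fun C M h => Nat.lt_succ_iff.1 (hk C M h))
      have hdv : ∀ C M, dv S W n e C M ≠ 0 → OZ S W n w V Z C M :=
        fun C M h => dv_supp hcl he1 C M h
      obtain ⟨e', he'1, he'2⟩ := ih (fun C M => g C M + dv S W n e C M) (fun C M h => by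
          by_cases h1 : g C M = 0
          · beta_reduce at h
            rw [h1, zero_add] at h
            exact hdv C M h
          · exact hg C M h1) (fun C M hV => by
          rw [dl_add, hc C M hV, dl_dv (fun C M h => (he1 C M h).1) hV, add_zero])
        (fun C M h => by
          by_contra hle
          rw [not_lt] at hle
          by_cases hO : OZ S W n w V Z C M
          · rw [dv_pos hO.1, he3 C M hO hle] at h
            exact h (CharTwo.add_self_eq_zero _)
          · have h1 : g C M = 0 := by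
              by_contra h'
              exact hO (hg C M h')
            have h2 : dv S W n e C M = 0 := by
              by_contra h'
              exact hO (hdv C M h')
            rw [h1, h2, add_zero] at h
            exact h rfl)
      refine ⟨fun C M => e C M + e' C M, fun C M h => ?_, fun C M hV => ?_⟩
      · by_cases h1 : e C M = 0
        · beta_reduce at h
          rw [h1, zero_add] at h
          exact he'1 C M h
        · exact he1 C M h1
      · rw [dl_add, ← he'2 C M hV, dv_pos hV, add_comm (dl S e C M), add_assoc,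
          CharTwo.add_self_eq_zero, add_zero]
  intro g hg hc
  refine key (Fintype.card X + 1) g hg hc fun C M _ => ?_
  exact Nat.lt_succ_iff.2 (Finset.card_le_univ _)

/-! ### Families of closed sets -/

section family

variable {κ : Type} [DecidableEq κ] {R : κ → Finset Ω → (X →₀ ℕ) → Prop}

/-- The pairs which are in all members `R k`, `k ∈ Y`, and in some member `R k`, `k ∈ T`. -/
def UR (S : Sub X Ω) (W : Finset Ω) (n : ℕ) (R : κ → Finset Ω → (X →₀ ℕ) → Prop)
    (Y T : Finset κ) (C : Finset Ω) (M : X →₀ ℕ) : Prop :=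
  VP S W n C M ∧ (∀ k ∈ Y, R k C M) ∧ ∃ k ∈ T, R k C M

theorem cl_OR {T0 : Finset κ} (hR : ∀ k ∈ T0, Cl S W n (R k)) {Y : Finset κ} (hY : Y ⊆ T0) :
    Cl S W n (fun C M => VP S W n C M ∧ ∀ k ∈ Y, R k C M) :=
  ⟨fun _ _ h => h.1, fun C M c v hV hc hv h =>
    ⟨hV, fun k hk => (hR k (hY hk)).cl C M c v hV hc hv (h.2 k hk)⟩⟩

theorem cl_UR {T0 : Finset κ} (hR : ∀ k ∈ T0, Cl S W n (R k)) {Y T : Finset κ} (hY : Y ⊆ T0)
    (hT : T ⊆ T0) : Cl S W n (UR S W n R Y T) := by
  refine ⟨fun _ _ h => h.1, fun C M c v hV hc hv h => ?_⟩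
  obtain ⟨-, h2, k, hk, h3⟩ := h
  exact ⟨hV, fun k hk => (hR k (hY hk)).cl C M c v hV hc hv (h2 k hk), k, hk,
    (hR k (hT hk)).cl C M c v hV hc hv h3⟩

theorem exa_UR {T0 : Finset κ} (hR : ∀ k ∈ T0, Cl S W n (R k)) {j : ℕ} (hj : 1 ≤ j)
    (hex : ∀ Y ⊆ T0, j ≤ Y.card → Exa S W n (fun C M => VP S W n C M ∧ ∀ k ∈ Y, R k C M))
    (T : Finset κ) : T ⊆ T0 → ∀ Y : Finset κ, Y ⊆ T0 → j ≤ Y.card + 1 → Disjoint Y T →
      Exa S W n (UR S W n R Y T) := by
  induction T using Finset.induction_on with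
  | empty =>
    intro _ Y _ _ _ r hr _
    have h0 : ∀ C M, r C M = 0 := fun C M => by
      by_contra h
      obtain ⟨_, _, k, hk, _⟩ := hr C M h
      exact Finset.notMem_empty k hk
    refine ⟨fun _ _ => 0, fun _ _ h => absurd rfl h, fun C M _ => ?_⟩
    rw [h0]
    exact (Finset.sum_eq_zero fun c _ => Finset.sum_eq_zero fun v _ => mul_zero _).symm
  | insert t T htT ih =>
    intro hT Y hY hYj hYT
    rw [Finset.disjoint_insert_right] at hYT
    have htT0 : t ∈ T0 := hT (Finset.mem_insert_self t T)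
    have hTT0 : T ⊆ T0 := (Finset.subset_insert t T).trans hT
    have hYt : insert t Y ⊆ T0 := Finset.insert_subset htT0 hY
    have h3 : (insert t Y).card = Y.card + 1 := Finset.card_insert_of_notMem hYT.1
    have h1 : UR S W n R Y (insert t T) =
        fun C M => (VP S W n C M ∧ ∀ k ∈ insert t Y, R k C M) ∨ UR S W n R Y T C M := by
      funext C M
      refine propext ⟨?_, ?_⟩
      · rintro ⟨h1, h2, k, hk, h4⟩
        rcases Finset.mem_insert.1 hk with rfl | hk
        · refine Or.inl ⟨h1, fun k' hk' => ?_⟩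
          rcases Finset.mem_insert.1 hk' with rfl | hk'
          · exact h4
          · exact h2 k' hk'
        · exact Or.inr ⟨h1, h2, k, hk, h4⟩
      · rintro (h | ⟨h1, h2, k, hk, h4⟩)
        · exact ⟨h.1, fun k hk => h.2 k (Finset.mem_insert_of_mem hk), t,
            Finset.mem_insert_self t T, h.2 t (Finset.mem_insert_self t Y)⟩
        · exact ⟨h1, h2, k, Finset.mem_insert_of_mem hk, h4⟩
    have h2 : UR S W n R (insert t Y) T =
        fun C M => (VP S W n C M ∧ ∀ k ∈ insert t Y, R k C M) ∧ UR S W n R Y T C M := by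
      funext C M
      refine propext ⟨?_, ?_⟩
      · rintro ⟨h1, h2, k, hk, h4⟩
        exact ⟨⟨h1, h2⟩, h1, fun k hk => h2 k (Finset.mem_insert_of_mem hk), k, hk, h4⟩
      · rintro ⟨⟨h1, h2⟩, -, -, k, hk, h4⟩
        exact ⟨h1, h2, k, hk, h4⟩
    rw [h1]
    refine mv (cl_OR hR hYt) (cl_UR hR hY hTT0) (hex _ hYt (by omega))
      (ih hTT0 Y hY hYj hYT.2) ?_
    rw [← h2]
    refine ih hTT0 (insert t Y) hYt (by omega) ?_
    rw [Finset.disjoint_insert_left]
    exact ⟨htT, hYT.2⟩

/-- The splitting theorem for a family of closed sets, for a cocycle. -/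
theorem splitR {T0 : Finset κ} (hR : ∀ k ∈ T0, Cl S W n (R k))
    (hex : ∀ Y ⊆ T0, 2 ≤ Y.card → Exa S W n (fun C M => VP S W n C M ∧ ∀ k ∈ Y, R k C M))
    (T : Finset κ) (hT : T ⊆ T0) (r : Finset Ω → (X →₀ ℕ) → S.K)
    (hr : ∀ C M, r C M ≠ 0 → ∃ k ∈ T, R k C M)
    (hdr : ∀ C M, VP S W n C M → dl S r C M = 0) :
    ∃ r' : κ → Finset Ω → (X →₀ ℕ) → S.K,
      (∀ k ∈ T, ∀ C M, r' k C M ≠ 0 → R k C M) ∧
      (∀ k ∈ T, ∀ C M, VP S W n C M → dl S (r' k) C M = 0) ∧
      ∀ C M, r C M = ∑ k ∈ T, r' k C M := by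
  have := S.charP_K
  induction T using Finset.induction_on generalizing r with
  | empty =>
    refine ⟨fun _ _ _ => 0, fun k hk => absurd hk (Finset.notMem_empty k),
      fun k hk => absurd hk (Finset.notMem_empty k), fun C M => ?_⟩
    rw [Finset.sum_empty]
    by_contra h
    obtain ⟨k, hk, _⟩ := hr C M h
    exact Finset.notMem_empty k hk
  | insert t T htT ih =>
    have htT0 : t ∈ T0 := hT (Finset.mem_insert_self t T)
    have hTT0 : T ⊆ T0 := (Finset.subset_insert t T).trans hT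
    have hvp : ∀ C M, r C M ≠ 0 → VP S W n C M := by
      intro C M h
      obtain ⟨k, hk, h1⟩ := hr C M h
      exact (hR k (hT hk)).vp C M h1
    have h1 : ∀ C M, onP (R t) r C M ≠ 0 → R t C M := fun C M h => (onP_ne h).1
    have h2 : ∀ C M, offP (R t) r C M ≠ 0 → UR S W n R ∅ T C M := by
      intro C M h
      obtain ⟨h3, h4⟩ := offP_ne h
      obtain ⟨k, hk, h5⟩ := hr C M h4
      refine ⟨hvp C M h4, fun x hx => absurd hx (Finset.notMem_empty x), k, ?_, h5⟩
      rcases Finset.mem_insert.1 hk with rfl | hk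
      · exact absurd h5 h3
      · exact hk
    have hg : ∀ C M, VP S W n C M → dl S (onP (R t) r) C M = dl S (offP (R t) r) C M := by
      intro C M hV
      have h3 := dl_on_off (R t) r C M
      rw [hdr C M hV] at h3
      exact CharTwo.add_eq_zero.1 h3
    obtain ⟨e, he1, he2⟩ := exa_UR hR (j := 2) (by omega) hex T hTT0 {t}
      (Finset.singleton_subset_iff.2 htT0) (by rw [Finset.card_singleton])
      (Finset.disjoint_singleton_left.2 htT) (dv S W n (onP (R t) r))
      (fun C M h => by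
        have hV : VP S W n C M := by
          by_contra hV
          exact h (dv_neg hV)
        refine ⟨hV, fun k hk => ?_, ?_⟩
        · rw [Finset.mem_singleton.1 hk]
          exact dv_supp (hR t htT0) h1 C M h
        · rw [dv_pos hV, hg C M hV, ← dv_pos hV] at h
          exact (dv_supp (cl_UR hR (Finset.empty_subset _) hTT0) h2 C M h).2.2)
      (fun C M hV => dl_dv (fun C M h => hvp C M (onP_ne h).2) hV)
    obtain ⟨r'', hr1, hr2, hr3⟩ := ih hTT0 (fun C M => offP (R t) r C M + e C M)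
      (fun C M h => by
        by_cases h3 : offP (R t) r C M = 0
        · rw [h3, zero_add] at h
          exact (he1 C M h).2.2
        · exact (h2 C M h3).2.2)
      (fun C M hV => by
        rw [dl_add, ← he2 C M hV, dv_pos hV, hg C M hV, CharTwo.add_self_eq_zero])
    refine ⟨fun x => if x = t then fun C M => onP (R t) r C M + e C M else r'' x, ?_, ?_, ?_⟩
    · intro x hx C M h
      beta_reduce at h
      by_cases hxw : x = t
      · subst hxw
        rw [if_pos rfl] at h
        by_cases h3 : onP (R x) r C M = 0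
        · rw [h3, zero_add] at h
          exact (he1 C M h).2.1 x (Finset.mem_singleton_self x)
        · exact h1 C M h3
      · rw [if_neg hxw] at h
        exact hr1 x ((Finset.mem_insert.1 hx).resolve_left hxw) C M h
    · intro x hx C M hV
      beta_reduce
      by_cases hxw : x = t
      · subst hxw
        rw [if_pos rfl, dl_add, ← he2 C M hV, dv_pos hV, CharTwo.add_self_eq_zero]
      · rw [if_neg hxw]
        exact hr2 x ((Finset.mem_insert.1 hx).resolve_left hxw) C M hV
    · intro C M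
      beta_reduce
      have h4 : ∀ x ∈ T, (if x = t then fun C M => onP (R t) r C M + e C M else r'' x) C M =
          r'' x C M := fun x hx => by
        have hxw : x ≠ t := fun h => htT (h ▸ hx)
        rw [if_neg hxw]
      rw [Finset.sum_insert htT, if_pos rfl, Finset.sum_congr rfl h4, ← hr3 C M,
        add_add_add_comm, CharTwo.add_self_eq_zero, add_zero, on_add_off]

end family

/-! ### Unions for one vertex -/

/-- An intersection of the sets of one vertex. -/
theorem OZ_biUnion (Y : Finset (Finset Ω)) (hY : Y.Nonempty) :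
    (fun C M => VP S W n C M ∧ ∀ Z ∈ Y, OZ S W n w V Z C M) =
      OZ S W n w V (Y.biUnion id) := by
  funext C M
  refine propext ⟨?_, ?_⟩
  · rintro ⟨h1, h2⟩
    obtain ⟨Z0, hZ0⟩ := hY
    refine ⟨h1, (h2 Z0 hZ0).2.1, ?_, ?_, (h2 Z0 hZ0).2.2.2.2⟩
    · rw [Finset.disjoint_biUnion_left]
      exact fun Z hZ => (h2 Z hZ).2.2.1
    · rw [Finset.disjoint_biUnion_left]
      exact fun Z hZ => (h2 Z hZ).2.2.2.1
  · rintro ⟨h1, h2, h3, h4, h5⟩
    rw [Finset.disjoint_biUnion_left] at h3 h4
    exact ⟨h1, fun Z hZ => ⟨h1, h2, h3 Z hZ, h4 Z hZ, h5⟩⟩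

/-- Cocycles supported on a union of the sets of one vertex are coboundaries. -/
theorem exa_UZ (T : Finset (Finset Ω)) (hTW : ∀ Z ∈ T, Z ⊆ W) (hT2 : ∀ Z ∈ T, 2 ≤ Z.card)
    (hT : ∀ Z ∈ T, W.card + 2 ≤ n + Z.card) :
    Exa S W n (fun C M => ∃ Z ∈ T, OZ S W n w V Z C M) := by
  have h1 := exa_UR (S := S) (W := W) (n := n) (R := OZ S W n w V) (T0 := T)
    (fun Z hZ => cl_OZ S W n w V (hTW Z hZ) (hT2 Z hZ)) (j := 1) le_rfl (fun Y hY hY1 => by
      have hYn : Y.Nonempty := Finset.card_pos.1 hY1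
      rw [OZ_biUnion Y hYn]
      obtain ⟨Z0, hZ0⟩ := hYn
      have h2 : Z0.card ≤ (Y.biUnion id).card :=
        Finset.card_le_card (Finset.subset_biUnion_of_mem id hZ0)
      have h3 := hT Z0 (hY hZ0)
      have h4 := hT2 Z0 (hY hZ0)
      refine exa_OZ (Finset.biUnion_subset.2 fun Z hZ => hTW Z (hY hZ)) (by omega) (by omega))
    T subset_rfl ∅ (Finset.empty_subset _) (by omega) (Finset.disjoint_empty_left _)
  have h2 : UR S W n (OZ S W n w V) ∅ T = fun C M => ∃ Z ∈ T, OZ S W n w V Z C M := by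
    funext C M
    refine propext ⟨fun h => h.2.2, fun h => ?_⟩
    obtain ⟨Z, hZ, h⟩ := h
    exact ⟨h.1, fun x hx => absurd hx (Finset.notMem_empty x), Z, hZ, h⟩
  rwa [h2] at h1

/-- The splitting of a cocycle supported on a union of the sets of one vertex. -/
theorem splitZ (T : Finset (Finset Ω)) (hTW : ∀ Z ∈ T, Z ⊆ W) (hT2 : ∀ Z ∈ T, 2 ≤ Z.card)
    (hT : ∀ Z ∈ T, ∀ Z' ∈ T, Z ≠ Z' → W.card + 2 ≤ n + (Z ∪ Z').card)
    (r : Finset Ω → (X →₀ ℕ) → S.K) (hr : ∀ C M, r C M ≠ 0 → ∃ Z ∈ T, OZ S W n w V Z C M)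
    (hdr : ∀ C M, VP S W n C M → dl S r C M = 0) :
    ∃ r' : Finset Ω → Finset Ω → (X →₀ ℕ) → S.K,
      (∀ Z ∈ T, ∀ C M, r' Z C M ≠ 0 → OZ S W n w V Z C M) ∧
      (∀ Z ∈ T, ∀ C M, VP S W n C M → dl S (r' Z) C M = 0) ∧
      ∀ C M, r C M = ∑ Z ∈ T, r' Z C M := by
  refine splitR (R := OZ S W n w V) (T0 := T)
    (fun Z hZ => cl_OZ S W n w V (hTW Z hZ) (hT2 Z hZ)) (fun Y hY hY2 => ?_) T subset_rfl r hr hdr
  have hYn : Y.Nonempty := Finset.card_pos.1 (by omega)
  rw [OZ_biUnion Y hYn]
  obtain ⟨Z1, hZ1, Z2, hZ2, hne⟩ := Finset.one_lt_card.1 (show 1 < Y.card by omega)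
  have h2 : Z1 ∪ Z2 ⊆ Y.biUnion id := Finset.union_subset
    (Finset.subset_biUnion_of_mem id hZ1) (Finset.subset_biUnion_of_mem id hZ2)
  have h3 := Finset.card_le_card h2
  have h4 := hT Z1 (hY hZ1) Z2 (hY hZ2) hne
  have h5 := hT2 Z1 (hY hZ1)
  have h6 : Z1.card ≤ (Y.biUnion id).card :=
    Finset.card_le_card (Finset.subset_biUnion_of_mem id hZ1)
  exact exa_OZ (Finset.biUnion_subset.2 fun Z hZ => hTW Z (hY hZ)) (by omega) (by omega)

end Pool.Agent.LH4
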