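import Pool.Agent.LH4.Frm

/-!
# Squarefree presentation (LEMMA P)

Text: `/team-store/h97_Cm9_text.md`, section 1.  `𝒮` is a convex family of supports; the function `A` on
the squarefree monomials of degree `n` with full supports in `𝒮` which satisfies the squarefree
relations extends to all monomials of degree `n`.
-/

set_option autoImplicit false
set_option linter.unusedSectionVars false

open Finset

namespace Pool.Agent.LH4

open Pool.Agent.LocH

variable {X Ω : Type} [Fintype X] [DecidableEq X] [Fintype Ω] [DecidableEq Ω] {S : Sub X Ω}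

/-! ### Functionals -/

theorem ev_add (ω ω' : Ω → S.K) (u : X) : ev S (ω + ω') u = ev S ω u + ev S ω' u := by
  unfold ev
  rw [← Finset.sum_add_distrib]
  exact Finset.sum_congr rfl fun c _ => add_mul _ _ _

theorem ev_smul (r : S.K) (ω : Ω → S.K) (u : X) : ev S (r • ω) u = r * ev S ω u := by
  unfold ev
  rw [Finset.mul_sum]
  exact Finset.sum_congr rfl fun c _ => mul_assoc _ _ _

theorem ev_sub (ω ω' : Ω → S.K) (u : X) : ev S (ω - ω') u = ev S ω u - ev S ω' u := by
  unfold ev
  rw [← Finset.sum_sub_distrib]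
  exact Finset.sum_congr rfl fun c _ => sub_mul _ _ _

theorem ev_sum {κ : Type} (t : Finset κ) (f : κ → Ω → S.K) (u : X) :
    ev S (∑ k ∈ t, f k) u = ∑ k ∈ t, ev S (f k) u := by
  unfold ev
  rw [Finset.sum_comm]
  refine Finset.sum_congr rfl fun c _ => ?_
  rw [Finset.sum_apply, Finset.sum_mul]

variable {W C : Finset Ω}

theorem Om.mono {σ τ : Finset X} (h : σ ⊆ τ) {ω : Ω → S.K} (hω : Om S W C σ ω) :
    Om S W C τ ω := fun c hc =>
  ⟨(hω c hc).1, (hω c hc).2.trans (Finset.union_subset_union_right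
    (Finset.biUnion_subset_biUnion_of_subset_left _ h))⟩

theorem Om.full {σ : Finset X} (h : W ⊆ C ∪ S.cr σ) {ω : Ω → S.K} (hω : ∀ c, ω c ≠ 0 → c ∈ W) :
    Om S W C σ ω := fun c hc => ⟨hω c hc, (Finset.erase_subset c W).trans h⟩

/-- The value of an admissible functional at a new vertex is zero unless the support becomes full. -/
theorem Om.full_insert {σ : Finset X} {ω : Ω → S.K} (hω : Om S W C σ ω) {u : X}
    (hu : ev S ω u ≠ 0) : W ⊆ C ∪ S.cr (insert u σ) := by
  obtain ⟨c, -, hc⟩ := Finset.exists_ne_zero_of_sum_ne_zero hu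
  obtain ⟨h1, h2⟩ := hω c (left_ne_zero_of_mul hc)
  have h3 : c ∈ S.car u := by
    by_contra h
    exact right_ne_zero_of_mul hc (S.a_zero h)
  intro b hb
  by_cases hbc : b = c
  · subst hbc
    refine Finset.mem_union_right _ ?_
    exact Finset.mem_biUnion.2 ⟨u, Finset.mem_insert_self u σ, h3⟩
  · have h4 := h2 (Finset.mem_erase.2 ⟨hbc, hb⟩)
    rcases Finset.mem_union.1 h4 with h5 | h5
    · exact Finset.mem_union_left _ h5
    · exact Finset.mem_union_right _
        (Finset.biUnion_subset_biUnion_of_subset_left _ (Finset.subset_insert u σ) h5)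

/-- If the support is not full then the admissible functionals vanish on it. -/
theorem Om.ev_zero {σ : Finset X} {ω : Ω → S.K} (hω : Om S W C σ ω) (hn : ¬W ⊆ C ∪ S.cr σ)
    {v : X} (hv : v ∈ σ) : ev S ω v = 0 := by
  by_contra h
  have h1 := hω.full_insert h
  rw [Finset.insert_eq_of_mem hv] at h1
  exact hn h1

/-! ### Monomials -/

theorem supp_s1 (u : X) (M : X →₀ ℕ) : (Finsupp.single u 1 + M).support = insert u M.support := by
  ext x
  rw [Finsupp.mem_support_iff, Finset.mem_insert, Finsupp.mem_support_iff, Finsupp.add_apply,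
    Finsupp.single_apply]
  by_cases hx : u = x
  · simp [hx]
  · simp [hx, Ne.symm hx]

theorem deg_s1 (u : X) (M : X →₀ ℕ) : (Finsupp.single u 1 + M).degree = M.degree + 1 := by
  rw [map_add, Finsupp.degree_single, add_comm]

theorem s1_swap (u v : X) (M : X →₀ ℕ) :
    Finsupp.single u 1 + (Finsupp.single v 1 + M) = Finsupp.single v 1 + (Finsupp.single u 1 + M) :=
  add_left_comm _ _ _

/-- Division by a vertex. -/
theorem exists_s1 {M : X →₀ ℕ} {v : X} (hv : 1 ≤ M v) :
    ∃ M0 : X →₀ ℕ, M = Finsupp.single v 1 + M0 ∧ M0 v + 1 = M v := by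
  have h1 : Finsupp.single v 1 ≤ M := Finsupp.single_le_iff.2 hv
  obtain ⟨M0, hM0⟩ := exists_add_of_le h1
  refine ⟨M0, hM0, ?_⟩
  rw [hM0, Finsupp.add_apply, Finsupp.single_eq_same, add_comm]

theorem card_supp_le (M : X →₀ ℕ) : M.support.card ≤ M.degree := by
  rw [Finsupp.degree]
  change M.support.card ≤ ∑ i ∈ M.support, M i
  rw [Finset.card_eq_sum_ones]
  exact Finset.sum_le_sum fun x hx => Nat.one_le_iff_ne_zero.2 (Finsupp.mem_support_iff.1 hx)

theorem ch_apply (F : Finset X) (v : X) : Sub.ch F v = if v ∈ F then 1 else 0 := by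
  unfold Sub.ch
  rw [Finsupp.finsetSum_apply]
  simp only [Finsupp.single_apply]
  rw [Finset.sum_ite_eq']

theorem supp_ch (F : Finset X) : (Sub.ch F).support = F := by
  ext v
  rw [Finsupp.mem_support_iff, ch_apply]
  by_cases h : v ∈ F <;> simp [h]

theorem s1_ch {F : Finset X} {u : X} (hu : u ∉ F) :
    Finsupp.single u 1 + Sub.ch F = Sub.ch (insert u F) := by
  unfold Sub.ch
  rw [Finset.sum_insert hu]

/-- A monomial is squarefree or has a multiple vertex. -/
theorem eq_ch_or (M : X →₀ ℕ) : M = Sub.ch M.support ∨ ∃ v, 2 ≤ M v := by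
  by_cases h : ∃ v, 2 ≤ M v
  · exact Or.inr h
  · push Not at h
    left
    ext v
    rw [ch_apply]
    have h1 := h v
    by_cases h2 : v ∈ M.support
    · rw [if_pos h2]
      have h3 := Finsupp.mem_support_iff.1 h2
      omega
    · rw [if_neg h2]
      exact Finsupp.notMem_support_iff.1 h2

theorem deg_ch (F : Finset X) : (Sub.ch F).degree = F.card := by
  unfold Sub.ch
  rw [map_sum, Finset.card_eq_sum_ones]
  exact Finset.sum_congr rfl fun v _ => Finsupp.degree_single v 1

/-! ### The lemma -/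

/-- The hypotheses on the family of supports. -/
structure Fam (S : Sub X Ω) (W C : Finset Ω) (𝒮 : Finset (Finset X)) : Prop where
  conv : ∀ σ ∈ 𝒮, ∀ τ ∈ 𝒮, ∀ ρ, σ ⊆ ρ → ρ ⊆ τ → ρ ∈ 𝒮
  ind : ∀ σ ∈ 𝒮, W ⊆ C ∪ S.cr σ → ∀ v ∈ σ, ∃ ω : Ω → S.K, (∀ c, ω c ≠ 0 → c ∈ W) ∧
    ev S ω v = 1 ∧ ∀ x ∈ σ, x ≠ v → ev S ω x = 0

/-- `α` is zero outside the full supports of `𝒮`. -/
def Zr (S : Sub X Ω) (W C : Finset Ω) (𝒮 : Finset (Finset X)) (α : (X →₀ ℕ) → S.K) : Prop :=
  ∀ N : X →₀ ℕ, ¬(N.support ∈ 𝒮 ∧ W ⊆ C ∪ S.cr N.support) → α N = 0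

section P

variable {𝒮 : Finset (Finset X)} {α : (X →₀ ℕ) → S.K} {n j : ℕ}

/-- The relations at the monomials with at least `j` vertices in the support. -/
def Rj (S : Sub X Ω) (W C : Finset Ω) (𝒮 : Finset (Finset X)) (n j : ℕ)
    (α : (X →₀ ℕ) → S.K) : Prop :=
  ∀ M : X →₀ ℕ, M.degree + 1 = n → M.support ∈ 𝒮 → j ≤ M.support.card → Rl S W C α M

/-- One step: the relation of a functional `ω₀` which is the coordinate `v₀` on the support. -/
theorem sqp_one (hF : Fam S W C 𝒮) (hZ : Zr S W C 𝒮 α) (hR : Rj S W C 𝒮 n (j + 1) α)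
    {M₀ : X →₀ ℕ} {σ : Finset X} (hσ : M₀.support = σ) (hσS : σ ∈ 𝒮) (hj : σ.card = j)
    (hn : M₀.degree + 2 = n) {v₀ : X} (hv : v₀ ∈ σ) {ω₀ : Ω → S.K}
    (h1 : ∀ c, ω₀ c ≠ 0 → c ∈ W) (h2 : ev S ω₀ v₀ = 1) (h3 : ∀ x ∈ σ, x ≠ v₀ → ev S ω₀ x = 0)
    {u : X} (hu : u ∉ σ) (hfull : insert u σ ∈ 𝒮 → W ⊆ C ∪ S.cr (insert u σ)) :
    α (Finsupp.single u 1 + (Finsupp.single v₀ 1 + M₀)) =
      -∑ x ∈ univ \ σ, ev S ω₀ x * α (Finsupp.single x 1 + (Finsupp.single u 1 + M₀)) := by
  by_cases h4 : insert u σ ∈ 𝒮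
  · have h5 : (Finsupp.single u 1 + M₀).support = insert u σ := by rw [supp_s1, hσ]
    have h6 := hR (Finsupp.single u 1 + M₀) (by rw [deg_s1]; omega) (by rw [h5]; exact h4)
      (by rw [h5, Finset.card_insert_of_notMem hu]; omega) ω₀
      (by rw [h5]; exact Om.full (hfull h4) h1)
    rw [← Finset.sum_sdiff (Finset.subset_univ σ)] at h6
    have h7 : ∑ x ∈ σ, ev S ω₀ x * α (Finsupp.single x 1 + (Finsupp.single u 1 + M₀)) =
        α (Finsupp.single u 1 + (Finsupp.single v₀ 1 + M₀)) := by
      rw [Finset.sum_eq_single_of_mem v₀ hv fun x hx hxv => by rw [h3 x hx hxv, zero_mul], h2,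
        one_mul, s1_swap]
    rw [h7] at h6
    exact eq_neg_of_add_eq_zero_right h6
  · have h5 : ∀ τ : Finset X, insert u σ ⊆ τ → τ ∉ 𝒮 := fun τ hτ h =>
      h4 (hF.conv σ hσS τ h _ (Finset.subset_insert u σ) hτ)
    have h6 : ∀ N : X →₀ ℕ, insert u σ ⊆ N.support → α N = 0 := fun N hN =>
      hZ N fun h => h5 _ hN h.1
    rw [h6 _ (by
      rw [supp_s1, supp_s1, hσ]
      exact Finset.insert_subset_insert u (Finset.subset_insert v₀ σ))]
    rw [Finset.sum_eq_zero, neg_zero]
    intro x _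
    rw [h6 _ (by
      rw [supp_s1, supp_s1, hσ]
      exact Finset.subset_insert x _), mul_zero]

/-- The relations of the functionals which vanish on the support. -/
theorem sqp_perp (hF : Fam S W C 𝒮) (hZ : Zr S W C 𝒮 α) (hR : Rj S W C 𝒮 n (j + 1) α)
    (hA : ∀ σ ∈ 𝒮, σ.card + 1 = n → ∀ ω : Ω → S.K, Om S W C σ ω → (∀ v ∈ σ, ev S ω v = 0) →
      ∑ u ∈ univ \ σ, ev S ω u * α (Sub.ch (insert u σ)) = 0)
    {M : X →₀ ℕ} (hM : M.degree + 1 = n) (hMS : M.support ∈ 𝒮) (hj : M.support.card = j)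
    {ω : Ω → S.K} (hω : Om S W C M.support ω) (h0 : ∀ v ∈ M.support, ev S ω v = 0) :
    ∑ u ∈ univ \ M.support, ev S ω u * α (Finsupp.single u 1 + M) = 0 := by
  rcases eq_ch_or M with hsq | ⟨v₀, hv₀⟩
  · set σ := M.support with hσ
    have h1 : σ.card + 1 = n := by
      rw [← hM]
      conv_rhs => rw [hsq, deg_ch]
    rw [← hA σ hMS h1 ω hω h0]
    refine Finset.sum_congr rfl fun u hu => ?_
    rw [hsq, s1_ch (Finset.mem_sdiff.1 hu).2]
  · obtain ⟨M₀, hM₀, hM₀'⟩ := exists_s1 (v := v₀) (M := M) (by omega)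
    have hvM₀ : v₀ ∈ M₀.support := by
      rw [Finsupp.mem_support_iff]
      omega
    have hsupp : M.support = M₀.support := by
      rw [hM₀, supp_s1, Finset.insert_eq_of_mem hvM₀]
    have hdeg : M₀.degree + 2 = n := by
      rw [hM₀, deg_s1] at hM
      omega
    set σ := M₀.support with hσ
    rw [hsupp] at hMS hj hω h0 ⊢
    by_cases hex : ∃ u, u ∉ σ ∧ insert u σ ∈ 𝒮 ∧ ev S ω u ≠ 0
    · obtain ⟨u₁, hu₁, hu₁', hu₁''⟩ := hex
      obtain ⟨ω₀, e1, e2, e3⟩ := hF.ind _ hu₁' (hω.full_insert hu₁'') v₀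
        (Finset.mem_insert_of_mem hvM₀)
      have e3' : ∀ x ∈ σ, x ≠ v₀ → ev S ω₀ x = 0 := fun x hx => e3 x (Finset.mem_insert_of_mem hx)
      have h1 : ∀ u ∈ univ \ σ, ev S ω u * α (Finsupp.single u 1 + M) =
          -∑ x ∈ univ \ σ, ev S ω₀ x * (ev S ω u *
            α (Finsupp.single u 1 + (Finsupp.single x 1 + M₀))) := by
        intro u hu
        have hu' := (Finset.mem_sdiff.1 hu).2
        by_cases h2 : ev S ω u = 0
        · rw [h2, zero_mul, Finset.sum_eq_zero, neg_zero]
          intro x _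
          rw [zero_mul, mul_zero]
        · rw [hM₀, sqp_one hF hZ hR rfl hMS hj hdeg hvM₀ e1 e2 e3' hu'
            (fun _ => hω.full_insert h2), mul_neg, Finset.mul_sum]
          refine congrArg Neg.neg (Finset.sum_congr rfl fun x _ => ?_)
          rw [s1_swap x u]
          ring
      rw [Finset.sum_congr rfl h1, Finset.sum_neg_distrib, Finset.sum_comm, neg_eq_zero]
      refine Finset.sum_eq_zero fun x hx => ?_
      rw [← Finset.mul_sum]
      have hx' := (Finset.mem_sdiff.1 hx).2
      have h5 : (Finsupp.single x 1 + M₀).support = insert x σ := supp_s1 x M₀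
      by_cases h4 : insert x σ ∈ 𝒮
      · have h6 := hR (Finsupp.single x 1 + M₀) (by rw [deg_s1]; omega) (by rw [h5]; exact h4)
          (by rw [h5, Finset.card_insert_of_notMem hx']; omega) ω
          (by rw [h5]; exact hω.mono (Finset.subset_insert x σ))
        rw [← Finset.sum_sdiff (Finset.subset_univ σ)] at h6
        rw [Finset.sum_eq_zero (s := σ) fun v hv => by rw [h0 v hv, zero_mul], add_zero] at h6
        rw [h6, mul_zero]
      · rw [Finset.sum_eq_zero, mul_zero]
        intro u _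
        rw [hZ, mul_zero]
        rintro ⟨h6, -⟩
        refine h4 (hF.conv σ hMS _ h6 _ (Finset.subset_insert x σ) ?_)
        rw [supp_s1, h5]
        exact Finset.subset_insert u _
    · push Not at hex
      refine Finset.sum_eq_zero fun u hu => ?_
      have hu' := (Finset.mem_sdiff.1 hu).2
      by_cases h4 : insert u σ ∈ 𝒮
      · rw [hex u hu' h4, zero_mul]
      · rw [hZ, mul_zero]
        rintro ⟨h6, -⟩
        rw [supp_s1, hsupp] at h6
        exact h4 h6

/-- The value at a monomial of the next level does not depend on the choices. -/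
theorem sqp_wd (hF : Fam S W C 𝒮) (hZ : Zr S W C 𝒮 α) (hR : Rj S W C 𝒮 n (j + 1) α)
    (hA : ∀ σ ∈ 𝒮, σ.card + 1 = n → ∀ ω : Ω → S.K, Om S W C σ ω → (∀ v ∈ σ, ev S ω v = 0) →
      ∑ u ∈ univ \ σ, ev S ω u * α (Sub.ch (insert u σ)) = 0)
    {σ : Finset X} (hσS : σ ∈ 𝒮) (hfull : W ⊆ C ∪ S.cr σ) (hj : σ.card = j)
    {v v' : X} {ω ω' : Ω → S.K} {M M' : X →₀ ℕ} (hM : M.support = σ) (hM' : M'.support = σ)
    (hn : M.degree + 1 = n) (hv : v ∈ σ) (hv' : v' ∈ σ)
    (hMM : Finsupp.single v 1 + M = Finsupp.single v' 1 + M')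
    (h1 : ∀ c, ω c ≠ 0 → c ∈ W) (h2 : ev S ω v = 1) (h3 : ∀ x ∈ σ, x ≠ v → ev S ω x = 0)
    (h1' : ∀ c, ω' c ≠ 0 → c ∈ W) (h2' : ev S ω' v' = 1)
    (h3' : ∀ x ∈ σ, x ≠ v' → ev S ω' x = 0) :
    ∑ u ∈ univ \ σ, ev S ω u * α (Finsupp.single u 1 + M) =
      ∑ u ∈ univ \ σ, ev S ω' u * α (Finsupp.single u 1 + M') := by
  by_cases hvv : v = v'
  · subst hvv
    have hM2 : M = M' := add_left_cancel hMM
    subst hM2
    rw [← sub_eq_zero, ← Finset.sum_sub_distrib]
    have h4 : ∀ u ∈ univ \ σ, ev S ω u * α (Finsupp.single u 1 + M) -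
        ev S ω' u * α (Finsupp.single u 1 + M) =
        ev S (ω - ω') u * α (Finsupp.single u 1 + M) := fun u _ => by
      rw [ev_sub, sub_mul]
    rw [Finset.sum_congr rfl h4]
    subst hM
    refine sqp_perp hF hZ hR hA hn hσS hj (Om.full hfull fun c hc => ?_) fun x hx => ?_
    · by_contra h5
      have h6 : ω c = 0 := by
        by_contra h7
        exact h5 (h1 c h7)
      have h8 : ω' c = 0 := by
        by_contra h7
        exact h5 (h1' c h7)
      exact hc (by rw [Pi.sub_apply, h6, h8, sub_zero])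
    · rw [ev_sub]
      by_cases hxv : x = v
      · rw [hxv, h2, h2', sub_self]
      · rw [h3 x hx hxv, h3' x hx hxv, sub_zero]
  · have hMv' : 1 ≤ M v' := Nat.one_le_iff_ne_zero.2 (Finsupp.mem_support_iff.1 (hM ▸ hv'))
    obtain ⟨M₀, hM₀, hM₀'⟩ := exists_s1 hMv'
    have hM₁ : M' = Finsupp.single v 1 + M₀ := by
      rw [hM₀, s1_swap] at hMM
      exact (add_left_cancel hMM).symm
    -- the support of `M₀`
    have hsupp : M₀.support = σ := by
      have hle : M₀.support ⊆ σ := by
        rw [← hM, hM₀, supp_s1]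
        exact Finset.subset_insert _ _
      refine Finset.Subset.antisymm hle fun x hx => ?_
      by_cases hxv : x = v'
      · have h5 : x ∈ M'.support := hM' ▸ hx
        rw [hM₁, supp_s1, Finset.mem_insert] at h5
        exact h5.resolve_left fun h6 => hvv (h6 ▸ hxv)
      · have h5 : x ∈ M.support := hM ▸ hx
        rw [hM₀, supp_s1, Finset.mem_insert] at h5
        exact h5.resolve_left hxv
    have hdeg : M₀.degree + 2 = n := by
      rw [hM₀, deg_s1] at hn
      omega
    have hf : ∀ u : X, insert u σ ∈ 𝒮 → W ⊆ C ∪ S.cr (insert u σ) := fun u _ =>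
      hfull.trans (Finset.union_subset_union_right
        (Finset.biUnion_subset_biUnion_of_subset_left _ (Finset.subset_insert u σ)))
    have e1 : ∀ u ∈ univ \ σ, ev S ω u * α (Finsupp.single u 1 + M) =
        -∑ x ∈ univ \ σ, ev S ω u * ev S ω' x *
          α (Finsupp.single x 1 + (Finsupp.single u 1 + M₀)) := by
      intro u hu
      rw [hM₀, sqp_one hF hZ hR hsupp hσS hj hdeg hv' h1' h2' h3' (Finset.mem_sdiff.1 hu).2 (hf u),
        mul_neg, Finset.mul_sum]
      refine congrArg Neg.neg (Finset.sum_congr rfl fun x _ => ?_)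
      rw [mul_assoc]
    have e2 : ∀ u ∈ univ \ σ, ev S ω' u * α (Finsupp.single u 1 + M') =
        -∑ x ∈ univ \ σ, ev S ω x * ev S ω' u *
          α (Finsupp.single u 1 + (Finsupp.single x 1 + M₀)) := by
      intro u hu
      rw [hM₁, sqp_one hF hZ hR hsupp hσS hj hdeg hv h1 h2 h3 (Finset.mem_sdiff.1 hu).2 (hf u),
        mul_neg, Finset.mul_sum]
      refine congrArg Neg.neg (Finset.sum_congr rfl fun x _ => ?_)
      rw [s1_swap x u]
      ring
    rw [Finset.sum_congr rfl e1, Finset.sum_congr rfl e2, Finset.sum_neg_distrib,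
      Finset.sum_neg_distrib, Finset.sum_comm]

open Classical in
/-- LEMMA P, the induction. -/
theorem sqp_ind (hF : Fam S W C 𝒮) (n : ℕ) (A : Finset X → S.K)
    (hA0 : ∀ σ : Finset X, ¬(σ ∈ 𝒮 ∧ W ⊆ C ∪ S.cr σ) → A σ = 0)
    (hA : ∀ σ ∈ 𝒮, σ.card + 1 = n → ∀ ω : Ω → S.K, Om S W C σ ω → (∀ v ∈ σ, ev S ω v = 0) →
      ∑ u ∈ univ \ σ, ev S ω u * A (insert u σ) = 0) (d j : ℕ) (hd : j + d = n) :
    ∃ α : (X →₀ ℕ) → S.K, Zr S W C 𝒮 α ∧ (∀ σ : Finset X, σ.card = n → α (Sub.ch σ) = A σ) ∧
      Rj S W C 𝒮 n j α := by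
  induction d generalizing j with
  | zero =>
    refine ⟨fun N => A N.support, fun N hN => hA0 _ hN, fun σ _ => by
      beta_reduce
      rw [supp_ch], ?_⟩
    intro M hM _ hj
    have h1 := card_supp_le M
    omega
  | succ d ih =>
    obtain ⟨α, hZ, hV, hR⟩ := ih (j + 1) (by omega)
    have hA' : ∀ σ ∈ 𝒮, σ.card + 1 = n → ∀ ω : Ω → S.K, Om S W C σ ω → (∀ v ∈ σ, ev S ω v = 0) →
        ∑ u ∈ univ \ σ, ev S ω u * α (Sub.ch (insert u σ)) = 0 := by
      intro σ hσ hc ω hω h0
      rw [← hA σ hσ hc ω hω h0]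
      refine Finset.sum_congr rfl fun u hu => ?_
      rw [hV (insert u σ) (by rw [Finset.card_insert_of_notMem (Finset.mem_sdiff.1 hu).2, hc])]
    -- the new values
    let P : (X →₀ ℕ) → (X × (X →₀ ℕ) × (Ω → S.K)) → Prop := fun N t =>
      t.2.1.support = N.support ∧ t.1 ∈ N.support ∧ Finsupp.single t.1 1 + t.2.1 = N ∧
        (∀ c, t.2.2 c ≠ 0 → c ∈ W) ∧ ev S t.2.2 t.1 = 1 ∧
        ∀ x ∈ N.support, x ≠ t.1 → ev S t.2.2 x = 0
    let Q : (X →₀ ℕ) → Prop := fun N => N.support ∈ 𝒮 ∧ W ⊆ C ∪ S.cr N.support ∧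
      N.support.card = j ∧ N.degree = n
    have hex : ∀ N, Q N → ∃ t, P N t := by
      rintro N ⟨q1, q2, q3, q4⟩
      rcases eq_ch_or N with h | ⟨v, hv⟩
      · exfalso
        rw [h, deg_ch] at q4
        omega
      · obtain ⟨M, hM, hM'⟩ := exists_s1 (v := v) (M := N) (by omega)
        have hvM : v ∈ M.support := by
          rw [Finsupp.mem_support_iff]
          omega
        have hs : M.support = N.support := by
          rw [hM, supp_s1, Finset.insert_eq_of_mem hvM]
        obtain ⟨ω, e1, e2, e3⟩ := hF.ind _ q1 q2 v (hs ▸ hvM)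
        exact ⟨(v, M, ω), hs, hs ▸ hvM, hM.symm, e1, e2, e3⟩
    let β : (X →₀ ℕ) → S.K := fun N =>
      if h : Q N then
        -∑ u ∈ univ \ N.support, ev S (hex N h).choose.2.2 u *
          α (Finsupp.single u 1 + (hex N h).choose.2.1)
      else α N
    have hβ : ∀ N, N.support.card ≠ j → β N = α N := fun N hN =>
      dif_neg fun h => hN h.2.2.1
    have hβ' : ∀ (N : X →₀ ℕ), Q N → ∀ t, P N t →
        β N = -∑ u ∈ univ \ N.support, ev S t.2.2 u * α (Finsupp.single u 1 + t.2.1) := by
      intro N hN t ht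
      obtain ⟨p1, p2, p3, p4, p5, p6⟩ := (hex N hN).choose_spec
      obtain ⟨t1, t2, t3, t4, t5, t6⟩ := ht
      have e : β N = -∑ u ∈ univ \ N.support, ev S (hex N hN).choose.2.2 u *
          α (Finsupp.single u 1 + (hex N hN).choose.2.1) := dif_pos hN
      rw [e]
      refine congrArg Neg.neg ?_
      refine sqp_wd hF hZ hR hA' hN.1 hN.2.1 hN.2.2.1 p1 t1 ?_ p2 t2 (p3.trans t3.symm)
        p4 p5 p6 t4 t5 t6
      have h1 := congrArg Finsupp.degree p3
      rw [deg_s1, hN.2.2.2] at h1
      exact h1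
    refine ⟨β, ?_, ?_, ?_⟩
    · intro N hN
      have h1 : ¬Q N := fun h => hN ⟨h.1, h.2.1⟩
      have h2 : β N = α N := dif_neg h1
      rw [h2]
      exact hZ N hN
    · intro σ hσ
      rw [hβ _ (by rw [supp_ch, hσ]; omega)]
      exact hV σ hσ
    · intro M hM hMS hMj ω hω
      by_cases hcard : M.support.card = j
      · rw [← Finset.sum_sdiff (Finset.subset_univ M.support)]
        have h1 : ∀ u ∈ univ \ M.support, ev S ω u * β (Finsupp.single u 1 + M) =
            ev S ω u * α (Finsupp.single u 1 + M) := by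
          intro u hu
          rw [hβ _ (by
            rw [supp_s1, Finset.card_insert_of_notMem (Finset.mem_sdiff.1 hu).2, hcard]
            omega)]
        rw [Finset.sum_congr rfl h1]
        by_cases hfull : W ⊆ C ∪ S.cr M.support
        · -- dual functionals
          have hdual : ∀ v : X, ∃ ωv : Ω → S.K, v ∈ M.support →
              (∀ c, ωv c ≠ 0 → c ∈ W) ∧ ev S ωv v = 1 ∧
                ∀ x ∈ M.support, x ≠ v → ev S ωv x = 0 := by
            intro v
            by_cases hv : v ∈ M.support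
            · obtain ⟨ωv, e⟩ := hF.ind _ hMS hfull v hv
              exact ⟨ωv, fun _ => e⟩
            · exact ⟨0, fun h => absurd h hv⟩
          choose D hD using hdual
          have h2 : ∀ v ∈ M.support, ev S ω v * β (Finsupp.single v 1 + M) =
              -∑ u ∈ univ \ M.support, ev S ω v * ev S (D v) u *
                α (Finsupp.single u 1 + M) := by
            intro v hv
            have hs : (Finsupp.single v 1 + M).support = M.support := by
              rw [supp_s1, Finset.insert_eq_of_mem hv]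
            rw [hβ' (Finsupp.single v 1 + M) ⟨by rw [hs]; exact hMS, by rw [hs]; exact hfull,
              by rw [hs]; exact hcard, by rw [deg_s1]; exact hM⟩ (v, M, D v)
              ⟨hs.symm, by rw [hs]; exact hv, rfl, (hD v hv).1, (hD v hv).2.1,
                by rw [hs]; exact (hD v hv).2.2⟩, hs, mul_neg, Finset.mul_sum]
            refine congrArg Neg.neg (Finset.sum_congr rfl fun x _ => ?_)
            rw [mul_assoc]
          rw [Finset.sum_congr rfl h2, Finset.sum_neg_distrib, Finset.sum_comm]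
          have h3 : ∀ u ∈ univ \ M.support,
              ∑ v ∈ M.support, ev S ω v * ev S (D v) u * α (Finsupp.single u 1 + M) =
              ev S (∑ v ∈ M.support, ev S ω v • D v) u * α (Finsupp.single u 1 + M) := by
            intro u _
            rw [ev_sum, Finset.sum_mul]
            refine Finset.sum_congr rfl fun v _ => ?_
            rw [ev_smul]
          rw [Finset.sum_congr rfl h3, ← sub_eq_add_neg, ← Finset.sum_sub_distrib]
          have h4 : ∀ u ∈ univ \ M.support, ev S ω u * α (Finsupp.single u 1 + M) -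
              ev S (∑ v ∈ M.support, ev S ω v • D v) u * α (Finsupp.single u 1 + M) =
              ev S (ω - ∑ v ∈ M.support, ev S ω v • D v) u * α (Finsupp.single u 1 + M) := by
            intro u _
            rw [ev_sub, sub_mul]
          rw [Finset.sum_congr rfl h4]
          refine sqp_perp hF hZ hR hA' hM hMS hcard (Om.full hfull fun c hc => ?_) fun x hx => ?_
          · by_contra h5
            apply hc
            rw [Pi.sub_apply, Finset.sum_apply]
            have h6 : ω c = 0 := by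
              by_contra h7
              exact h5 (hω c h7).1
            rw [h6, Finset.sum_eq_zero, sub_zero]
            intro v hv
            rw [Pi.smul_apply, smul_eq_mul]
            have h8 : D v c = 0 := by
              by_contra h7
              exact h5 ((hD v hv).1 c h7)
            rw [h8, mul_zero]
          · rw [ev_sub, ev_sum, Finset.sum_eq_single_of_mem x hx fun v hv hvx => by
              rw [ev_smul, (hD v hv).2.2 x hx (Ne.symm hvx), mul_zero], ev_smul, (hD x hx).2.1,
              mul_one, sub_self]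
        · rw [Finset.sum_eq_zero (s := M.support) fun v hv => by
            rw [hω.ev_zero hfull hv, zero_mul], add_zero]
          exact sqp_perp hF hZ hR hA' hM hMS hcard hω fun v hv => hω.ev_zero hfull hv
      · rw [← hR M hM hMS (by omega) ω hω]
        refine Finset.sum_congr rfl fun u _ => ?_
        rw [hβ _ (by
          rw [supp_s1]
          have h1 := Finset.card_le_card (Finset.subset_insert u M.support)
          omega)]

/-- LEMMA P: a function on the squarefree monomials with the squarefree relations extends to all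
monomials of degree `n`. -/
theorem sqp (hF : Fam S W C 𝒮) (n : ℕ) (A : Finset X → S.K)
    (hA0 : ∀ σ : Finset X, ¬(σ ∈ 𝒮 ∧ W ⊆ C ∪ S.cr σ) → A σ = 0)
    (hA : ∀ σ ∈ 𝒮, σ.card + 1 = n → ∀ ω : Ω → S.K, Om S W C σ ω → (∀ v ∈ σ, ev S ω v = 0) →
      ∑ u ∈ univ \ σ, ev S ω u * A (insert u σ) = 0) :
    ∃ α : (X →₀ ℕ) → S.K, Zr S W C 𝒮 α ∧ (∀ σ : Finset X, σ.card = n → α (Sub.ch σ) = A σ) ∧
      ∀ M : X →₀ ℕ, M.degree + 1 = n → M.support ∈ 𝒮 → Rl S W C α M := by
  obtain ⟨α, h1, h2, h3⟩ := sqp_ind hF n A hA0 hA n 0 (by omega)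
  exact ⟨α, h1, h2, fun M hM hMS => h3 M hM hMS (Nat.zero_le _)⟩

/-- (Sq) A function which kills the relations and is zero on the squarefree monomials is zero. -/
theorem sq_zero_all (hF : Fam S W C 𝒮) {L : (X →₀ ℕ) → S.K} {n : ℕ}
    (hZ : ∀ N : X →₀ ℕ, N.degree = n → N.support ∉ 𝒮 → (∃ σ ∈ 𝒮, σ ⊆ N.support) → L N = 0)
    (hR : ∀ M : X →₀ ℕ, M.degree + 1 = n → M.support ∈ 𝒮 → Rl S W C L M)
    (hs : ∀ σ ∈ 𝒮, W ⊆ C ∪ S.cr σ → σ.card = n → L (Sub.ch σ) = 0) :
    ∀ N : X →₀ ℕ, N.degree = n → N.support ∈ 𝒮 → W ⊆ C ∪ S.cr N.support → L N = 0 := by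
  have key : ∀ d : ℕ, ∀ N : X →₀ ℕ, N.degree = n → N.support ∈ 𝒮 → W ⊆ C ∪ S.cr N.support →
      N.support.card + d = n → L N = 0 := by
    intro d
    induction d with
    | zero =>
      intro N hN hS hf hc
      rcases eq_ch_or N with h | ⟨v, hv⟩
      · rw [h]
        exact hs _ hS hf (by omega)
      · exfalso
        obtain ⟨M, hM, hM'⟩ := exists_s1 (v := v) (M := N) (by omega)
        have hvM : v ∈ M.support := by
          rw [Finsupp.mem_support_iff]
          omega
        have h1 : M.support = N.support := by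
          rw [hM, supp_s1, Finset.insert_eq_of_mem hvM]
        have h2 := card_supp_le M
        have h3 : N.degree = M.degree + 1 := by rw [hM, deg_s1]
        rw [h1] at h2
        omega
    | succ d ih =>
      intro N hN hS hf hc
      rcases eq_ch_or N with h | ⟨v, hv⟩
      · rw [h]
        refine hs _ hS hf ?_
        rw [h, deg_ch] at hN
        exact hN
      · obtain ⟨M, hM, hM'⟩ := exists_s1 (v := v) (M := N) (by omega)
        have hvM : v ∈ M.support := by
          rw [Finsupp.mem_support_iff]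
          omega
        have h1 : M.support = N.support := by
          rw [hM, supp_s1, Finset.insert_eq_of_mem hvM]
        have h3 : N.degree = M.degree + 1 := by rw [hM, deg_s1]
        obtain ⟨ω, e1, e2, e3⟩ := hF.ind _ hS hf v (h1 ▸ hvM)
        have h4 := hR M (by omega) (by rw [h1]; exact hS) ω (by rw [h1]; exact Om.full hf e1)
        rw [← Finset.sum_sdiff (Finset.subset_univ M.support),
          Finset.sum_eq_single_of_mem (s := M.support) v hvM fun x hx hxv => by
            rw [e3 x (h1 ▸ hx) hxv, zero_mul], e2, one_mul, ← hM] at h4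
        rw [Finset.sum_eq_zero, zero_add] at h4
        · exact h4
        · intro u hu
          have hu' := (Finset.mem_sdiff.1 hu).2
          have h5 : (Finsupp.single u 1 + M).support = insert u N.support := by
            rw [supp_s1, h1]
          have h6 : (Finsupp.single u 1 + M).degree = n := by rw [deg_s1]; omega
          by_cases h7 : insert u N.support ∈ 𝒮
          · rw [ih _ h6 (by rw [h5]; exact h7) (by
              rw [h5]
              exact hf.trans (Finset.union_subset_union_right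
                (Finset.biUnion_subset_biUnion_of_subset_left _ (Finset.subset_insert u _))))
              (by
                rw [h5, Finset.card_insert_of_notMem (h1 ▸ hu')]
                omega), mul_zero]
          · rw [hZ _ h6 (by rw [h5]; exact h7) ⟨_, hS, by rw [h5]; exact Finset.subset_insert u _⟩,
              mul_zero]
  intro N hN hS hf
  have h1 := card_supp_le N
  exact key (n - N.support.card) N hN hS hf (by omega)

end P

end Pool.Agent.LH4
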