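import Pool.Agent.LocH.TopC
import Pool.Agent.LocH.BrGen

/-!
# The homology of the restriction `Γ_Y` in the two top degrees

A function on all faces with `|Y| - 1` vertices of the restriction to `Y` which is a cycle is the
boundary of exactly one function on the facets.
-/

set_option autoImplicit false

open Finset

namespace Pool.Agent.LH4

open Pool.Agent.LocH

variable {X Ω : Type} [Fintype X] [DecidableEq X] [Fintype Ω] [DecidableEq Ω] {S : Sub X Ω}

/-- The faces of the restriction to `Y` with `n` vertices which contain `L`. -/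
def fo (S : Sub X Ω) (Y : Finset Ω) (L : Finset X) (n : ℕ) : Finset (Finset X) :=
  (S.fcs Y).filter fun R => L ⊆ R ∧ R.card = n

theorem mem_fo {Y : Finset Ω} {L R : Finset X} {n : ℕ} :
    R ∈ fo S Y L n ↔ R ∈ S.fcs Y ∧ L ⊆ R ∧ R.card = n := by
  rw [fo, Finset.mem_filter]

theorem cr_mono' {F G : Finset X} (h : F ⊆ G) : S.cr F ⊆ S.cr G :=
  Finset.biUnion_subset_biUnion_of_subset_left _ h

theorem fac_mem_fcs {Y : Finset Ω} {G : Finset X} (h : G ∈ S.fac Y) : G ∈ S.fcs Y :=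
  Sub.mem_fcs.2 ⟨(Sub.mem_st.1 h).1, (Sub.mem_st.1 h).2.2.1.le⟩

theorem fac_of_fcs {Y : Finset Ω} {G : Finset X} (h : G ∈ S.fcs Y) (hc : G.card = Y.card) :
    G ∈ S.fac Y := by
  obtain ⟨h1, h2⟩ := Sub.mem_fcs.1 h
  refine Sub.mem_st.2 ⟨h1, Finset.empty_subset _, ?_, hc⟩
  refine Finset.eq_of_subset_of_card_le h2 ?_
  rw [← hc]
  exact S.card_le G h1

/-- The carrier of a ridge is `Y` or `Y` without one point. -/
theorem ridge_cr {Y : Finset Ω} {R : Finset X} (h : R ∈ S.fcs Y) (hc : R.card + 1 = Y.card)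
    (hne : S.cr R ≠ Y) : ∃ j ∈ Y, S.cr R = Y.erase j := by
  obtain ⟨h1, h2⟩ := Sub.mem_fcs.1 h
  have h3 : R.card ≤ (S.cr R).card := S.card_le R h1
  have h4 : S.cr R ⊂ Y := lt_of_le_of_ne h2 hne
  obtain ⟨j, hj, hj'⟩ := Finset.exists_of_ssubset h4
  refine ⟨j, hj, Finset.eq_of_subset_of_card_le (fun c hc' => ?_) ?_⟩
  · exact Finset.mem_erase.2 ⟨fun h5 => hj' (h5 ▸ hc'), h2 hc'⟩
  · rw [Finset.card_erase_of_mem hj]
    omega

/-- The faces between. -/
theorem between {L G : Finset X} (hL : L ⊆ G) (hc : L.card + 2 = G.card) :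
    (G.powerset.filter fun R => L ⊆ R ∧ R.card = L.card + 1).card = 2 := by
  have h1 : (G \ L).card = 2 := by
    rw [Finset.card_sdiff_of_subset hL]
    omega
  rw [← h1]
  symm
  refine Finset.card_bij (fun v _ => insert v L) ?_ ?_ ?_
  · intro v hv
    rw [Finset.mem_sdiff] at hv
    refine Finset.mem_filter.2 ⟨Finset.mem_powerset.2 (Finset.insert_subset hv.1 hL),
      Finset.subset_insert v L, Finset.card_insert_of_notMem hv.2⟩
  · intro v hv w hw h
    rw [Finset.mem_sdiff] at hv hw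
    have h2 : v ∈ insert w L := h ▸ Finset.mem_insert_self v L
    exact (Finset.mem_insert.1 h2).resolve_right hv.2
  · intro R hR
    rw [Finset.mem_filter, Finset.mem_powerset] at hR
    obtain ⟨h2, h3, h4⟩ := hR
    obtain ⟨v, hv, hv'⟩ := Finset.exists_eq_insert_iff.2 ⟨h3, h4.symm⟩
    refine ⟨v, Finset.mem_sdiff.2 ⟨h2 (hv' ▸ Finset.mem_insert_self v L), hv⟩, hv'⟩

theorem sum_two (hT : S.Top S.K) {Y : Finset Ω} {R : Finset X} (hR : S.cr R = Y)
    (hRf : R ∈ S.fcs Y) (hc : R.card + 1 = Y.card) (c : S.K) :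
    ∑ _G ∈ (S.fac Y).filter (R ⊆ ·), c = 0 := by
  have := S.charP_K
  rw [Finset.sum_const, Sub.ridge_two hT (Sub.mem_st.2 ⟨(Sub.mem_fcs.1 hRf).1,
    Finset.empty_subset _, hR, rfl⟩) hc, two_nsmul]
  exact CharTwo.add_self_eq_zero c

variable {Y : Finset Ω}

/-- The boundary of the boundary. -/
theorem bd_bd (y : Finset X → S.K) {L : Finset X} (hc : L.card + 2 = Y.card) :
    ∑ R ∈ fo S Y L (L.card + 1), ∑ G ∈ (S.fac Y).filter (R ⊆ ·), y G = 0 := by
  have := S.charP_K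
  have h1 : ∑ R ∈ fo S Y L (L.card + 1), ∑ G ∈ (S.fac Y).filter (R ⊆ ·), y G =
      ∑ G ∈ S.fac Y, ∑ R ∈ (fo S Y L (L.card + 1)).filter (· ⊆ G), y G := by
    simp only [Finset.sum_filter]
    rw [Finset.sum_comm]
  rw [h1]
  refine Finset.sum_eq_zero fun G hG => ?_
  rw [Finset.sum_const]
  have hGf := fac_mem_fcs hG
  have hGc : G.card = Y.card := (Sub.mem_st.1 hG).2.2.2
  by_cases hL : L ⊆ G
  · have h2 : (fo S Y L (L.card + 1)).filter (· ⊆ G) =
        G.powerset.filter fun R => L ⊆ R ∧ R.card = L.card + 1 := by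
      ext R
      rw [Finset.mem_filter, mem_fo, Finset.mem_filter, Finset.mem_powerset]
      constructor
      · rintro ⟨⟨-, h3⟩, h4⟩
        exact ⟨h4, h3⟩
      · rintro ⟨h4, h3⟩
        refine ⟨⟨Sub.mem_fcs.2 ⟨S.down G (Sub.mem_fcs.1 hGf).1 R h4, ?_⟩, h3⟩, h4⟩
        exact (cr_mono' h4).trans (Sub.mem_fcs.1 hGf).2
    rw [h2, between hL (by omega), two_nsmul]
    exact CharTwo.add_self_eq_zero _
  · have h2 : (fo S Y L (L.card + 1)).filter (· ⊆ G) = ∅ := by
      refine Finset.filter_eq_empty_iff.2 fun R hR h => hL ?_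
      exact (mem_fo.1 hR).2.1.trans h
    rw [h2, Finset.card_empty, zero_nsmul]

/-- (T) A cycle on the faces with `|Y| - 1` vertices is a boundary. -/
theorem topB (hT : S.Top S.K) (hY : Y.Nonempty) (s : Finset X → S.K)
    (hs : ∀ L ∈ S.fcs Y, L.card + 2 = Y.card → ∑ R ∈ fo S Y L (L.card + 1), s R = 0) :
    ∃ ψ : Finset X → S.K, ∀ R ∈ S.fcs Y, R.card + 1 = Y.card →
      s R = ∑ G ∈ (S.fac Y).filter (R ⊆ ·), ψ G := by
  have := S.charP_K
  have hY1 : 1 ≤ Y.card := Finset.card_pos.2 hY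
  have hempty : ∀ W : Finset Ω, (∅ : Finset X) ∈ S.fcs W := fun W =>
    Sub.mem_fcs.2 ⟨S.empty_mem, by rw [Sub.cr, Finset.biUnion_empty]; exact Finset.empty_subset _⟩
  obtain ⟨y, hy⟩ := hT.exact Y ∅ hY (hempty Y) (Y.card - 1) (by omega) s (by
    intro k hk τ hτ
    obtain ⟨h1, -, h2, h3⟩ := Sub.mem_st.1 hτ
    have h4 := hs τ (Sub.mem_fcs.2 ⟨h1, h2.le⟩) (by omega)
    have h5 : (S.st Y ∅ (Y.card - 1)).filter (τ ⊆ ·) = fo S Y τ (τ.card + 1) := by
      ext R
      rw [Finset.mem_filter, Sub.mem_st, mem_fo, Sub.mem_fcs]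
      constructor
      · rintro ⟨⟨h5, -, h6, h7⟩, h8⟩
        exact ⟨⟨h5, h6.le⟩, h8, by omega⟩
      · rintro ⟨⟨h5, h6⟩, h8, h7⟩
        exact ⟨⟨h5, Finset.empty_subset _, Finset.Subset.antisymm h6 (h2 ▸ cr_mono' h8),
          by omega⟩, h8⟩
    rw [h5]
    exact h4)
  have hst : ∀ σ : Finset X, (S.st Y ∅ (Y.card - 1 + 1)).filter (σ ⊆ ·) =
      (S.fac Y).filter (σ ⊆ ·) := by
    intro σ
    have h1 : Y.card - 1 + 1 = Y.card := by omega
    rw [h1]
    rfl
  -- the rest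
  set r : Finset X → S.K := fun R => s R + ∑ G ∈ (S.fac Y).filter (R ⊆ ·), y G with hr
  have hr0 : ∀ R ∈ S.fcs Y, R.card + 1 = Y.card → S.cr R = Y → r R = 0 := by
    intro R hR hc hcr
    have h1 := hy R (Sub.mem_st.2 ⟨(Sub.mem_fcs.1 hR).1, Finset.empty_subset _, hcr, by omega⟩)
    rw [hst] at h1
    rw [hr]
    beta_reduce
    rw [h1]
    exact CharTwo.add_self_eq_zero _
  have hrc : ∀ L ∈ S.fcs Y, L.card + 2 = Y.card → ∑ R ∈ fo S Y L (L.card + 1), r R = 0 := by
    intro L hL hc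
    rw [hr]
    rw [Finset.sum_add_distrib, hs L hL hc, bd_bd y hc, add_zero]
  have hrj : ∀ j ∈ Y, ∀ σ ∈ S.fac (Y.erase j), ∀ σ' ∈ S.fac (Y.erase j), r σ = r σ' := by
    intro j hj σ hσ σ' hσ'
    rcases (Y.erase j).eq_empty_or_nonempty with h0 | h0
    · have h1 := (Sub.mem_st.1 hσ).2.2.2
      have h2 := (Sub.mem_st.1 hσ').2.2.2
      rw [h0, Finset.card_empty, Finset.card_eq_zero] at h1 h2
      rw [h1, h2]
    · refine hT.const (Y.erase j) ∅ h0 (hempty _) r ?_ σ hσ σ' hσ'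
      intro k hk τ hτ
      obtain ⟨h1, -, h2, h3⟩ := Sub.mem_st.1 hτ
      have hcj : (Y.erase j).card = Y.card - 1 := Finset.card_erase_of_mem hj
      have h4 := hrc τ (Sub.mem_fcs.2 ⟨h1, h2 ▸ Finset.erase_subset j Y⟩) (by omega)
      rw [← h4]
      refine Finset.sum_subset ?_ ?_
      · intro R hR
        obtain ⟨h5, h6⟩ := Finset.mem_filter.1 hR
        obtain ⟨h7, -, h8, h9⟩ := Sub.mem_st.1 h5
        exact mem_fo.2 ⟨Sub.mem_fcs.2 ⟨h7, h8 ▸ Finset.erase_subset j Y⟩, h6, by omega⟩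
      · intro R hR hR'
        obtain ⟨h5, h6, h7⟩ := mem_fo.1 hR
        refine hr0 R h5 (by omega) ?_
        by_contra hne
        obtain ⟨i, hi, hi'⟩ := ridge_cr h5 (by omega) hne
        have h8 : Y.erase j ⊆ Y.erase i := by
          rw [← hi', ← h2]
          exact cr_mono' h6
        have h9 : i = j := by
          by_contra h10
          have h11 : i ∈ Y.erase j := Finset.mem_erase.2 ⟨h10, hi⟩
          exact Finset.notMem_erase i Y (h8 h11)
        subst h9
        exact hR' (Finset.mem_filter.2 ⟨Sub.mem_st.2 ⟨(Sub.mem_fcs.1 h5).1,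
          Finset.empty_subset _, hi', by omega⟩, h6⟩)
  have hrjk : ∀ j ∈ Y, ∀ k ∈ Y, ∀ σ ∈ S.fac (Y.erase j), ∀ σ' ∈ S.fac (Y.erase k),
      r σ = r σ' := by
    intro j hj k hk σ hσ σ' hσ'
    by_cases hjk : j = k
    · subst hjk
      exact hrj j hj σ hσ σ' hσ'
    · have hkj : k ∈ Y.erase j := Finset.mem_erase.2 ⟨fun h => hjk h.symm, hk⟩
      have hjk' : j ∈ Y.erase k := Finset.mem_erase.2 ⟨hjk, hj⟩
      have hcj : (Y.erase j).card = Y.card - 1 := Finset.card_erase_of_mem hj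
      have hck : (Y.erase k).card = Y.card - 1 := Finset.card_erase_of_mem hk
      have hcjk : ((Y.erase j).erase k).card = (Y.erase j).card - 1 :=
        Finset.card_erase_of_mem hkj
      have hpos : 1 ≤ (Y.erase j).card := Finset.card_pos.2 ⟨k, hkj⟩
      obtain ⟨L, hL, -⟩ := Sub.exists_fac hT (hempty ((Y.erase j).erase k))
      obtain ⟨hL1, -, hL2, hL3⟩ := Sub.mem_st.1 hL
      have hLY : S.cr L ⊆ Y := by
        rw [hL2]
        exact (Finset.erase_subset _ _).trans (Finset.erase_subset _ _)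
      have hLj : L ∈ S.fcs (Y.erase j) :=
        Sub.mem_fcs.2 ⟨hL1, by rw [hL2]; exact Finset.erase_subset _ _⟩
      have hLk : L ∈ S.fcs (Y.erase k) :=
        Sub.mem_fcs.2 ⟨hL1, by rw [hL2, Finset.erase_right_comm]; exact Finset.erase_subset _ _⟩
      have hj1 := Sub.bdry_one hT hLj (fun h => by
        rw [h] at hL2
        have := Finset.notMem_erase k (Y.erase j)
        rw [← hL2] at this
        exact this hkj) (by omega)
      have hk1 := Sub.bdry_one hT hLk (fun h => by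
        rw [h, Finset.erase_right_comm] at hL2
        have := Finset.notMem_erase j (Y.erase k)
        rw [← hL2] at this
        exact this hjk') (by omega)
      obtain ⟨ρ, hρ⟩ := Finset.card_eq_one.1 hj1
      obtain ⟨ρ', hρ'⟩ := Finset.card_eq_one.1 hk1
      have hρm : ρ ∈ (S.fac (Y.erase j)).filter (L ⊆ ·) := hρ ▸ Finset.mem_singleton_self ρ
      have hρm' : ρ' ∈ (S.fac (Y.erase k)).filter (L ⊆ ·) := hρ' ▸ Finset.mem_singleton_self ρ'
      obtain ⟨hρ1, hρ2⟩ := Finset.mem_filter.1 hρm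
      obtain ⟨hρ1', hρ2'⟩ := Finset.mem_filter.1 hρm'
      have hne : ρ ≠ ρ' := by
        rintro rfl
        have h1 := (Sub.mem_st.1 hρ1).2.2.1
        have h2 := (Sub.mem_st.1 hρ1').2.2.1
        rw [h1] at h2
        rw [h2] at hkj
        exact Finset.notMem_erase k Y hkj
      have h3 : ∑ R ∈ fo S Y L (L.card + 1), r R = r ρ + r ρ' := by
        rw [← Finset.sum_pair hne]
        symm
        refine Finset.sum_subset ?_ ?_
        · intro R hR
          rw [Finset.mem_insert, Finset.mem_singleton] at hR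
          rcases hR with rfl | rfl
          · obtain ⟨h7, -, h8, h9⟩ := Sub.mem_st.1 hρ1
            exact mem_fo.2 ⟨Sub.mem_fcs.2 ⟨h7, h8 ▸ Finset.erase_subset j Y⟩, hρ2, by omega⟩
          · obtain ⟨h7, -, h8, h9⟩ := Sub.mem_st.1 hρ1'
            exact mem_fo.2 ⟨Sub.mem_fcs.2 ⟨h7, h8 ▸ Finset.erase_subset k Y⟩, hρ2', by omega⟩
        · intro R hR hR'
          obtain ⟨h5, h6, h7⟩ := mem_fo.1 hR
          refine hr0 R h5 (by omega) ?_
          by_contra hne'
          obtain ⟨i, hi, hi'⟩ := ridge_cr h5 (by omega) hne'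
          have h8 : (Y.erase j).erase k ⊆ Y.erase i := by
            rw [← hi', ← hL2]
            exact cr_mono' h6
          have h9 : i = j ∨ i = k := by
            by_contra h10
            push Not at h10
            have h11 : i ∈ (Y.erase j).erase k :=
              Finset.mem_erase.2 ⟨h10.2, Finset.mem_erase.2 ⟨h10.1, hi⟩⟩
            exact Finset.notMem_erase i Y (h8 h11)
          refine hR' ?_
          rw [Finset.mem_insert, Finset.mem_singleton]
          rcases h9 with rfl | rfl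
          · left
            rw [← Finset.mem_singleton, ← hρ]
            exact Finset.mem_filter.2 ⟨Sub.mem_st.2 ⟨(Sub.mem_fcs.1 h5).1,
              Finset.empty_subset _, hi', by omega⟩, h6⟩
          · right
            rw [← Finset.mem_singleton, ← hρ']
            exact Finset.mem_filter.2 ⟨Sub.mem_st.2 ⟨(Sub.mem_fcs.1 h5).1,
              Finset.empty_subset _, hi', by omega⟩, h6⟩
      rw [hrc L (Sub.mem_fcs.2 ⟨hL1, hLY⟩) (by omega)] at h3
      rw [hrj j hj σ hσ ρ hρ1, hrj k hk σ' hσ' ρ' hρ1']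
      exact CharTwo.add_eq_zero.1 h3.symm
  obtain ⟨j0, hj0⟩ := hY
  obtain ⟨σ0, hσ0, -⟩ := Sub.exists_fac hT (hempty (Y.erase j0))
  refine ⟨fun G => y G + r σ0, fun R hR hc => ?_⟩
  rw [Finset.sum_add_distrib]
  by_cases hcr : S.cr R = Y
  · rw [sum_two hT hcr hR hc, add_zero]
    have h1 := hr0 R hR hc hcr
    exact CharTwo.add_eq_zero.1 h1
  · obtain ⟨i, hi, hi'⟩ := ridge_cr hR hc hcr
    have hci : (Y.erase i).card = Y.card - 1 := Finset.card_erase_of_mem hi
    have h1 : r R = r σ0 := hrjk i hi j0 hj0 R (Sub.mem_st.2 ⟨(Sub.mem_fcs.1 hR).1,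
      Finset.empty_subset _, hi', by omega⟩) σ0 hσ0
    rw [Finset.sum_const, Sub.bdry_one hT hR hcr hc, one_nsmul, ← h1, hr]
    beta_reduce
    rw [add_comm, add_assoc, CharTwo.add_self_eq_zero, add_zero]

/-- (T) The function on the facets is unique. -/
theorem topB_unique (hT : S.Top S.K) (hY : Y.Nonempty) (ψ : Finset X → S.K)
    (h : ∀ R ∈ S.fcs Y, R.card + 1 = Y.card → ∑ G ∈ (S.fac Y).filter (R ⊆ ·), ψ G = 0) :
    ∀ G ∈ S.fac Y, ψ G = 0 := by
  have hY1 : 1 ≤ Y.card := Finset.card_pos.2 hY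
  have hempty : ∀ W : Finset Ω, (∅ : Finset X) ∈ S.fcs W := fun W =>
    Sub.mem_fcs.2 ⟨S.empty_mem, by rw [Sub.cr, Finset.biUnion_empty]; exact Finset.empty_subset _⟩
  have hconst := hT.const Y ∅ hY (hempty Y) ψ (by
    intro k hk τ hτ
    obtain ⟨h1, -, h2, h3⟩ := Sub.mem_st.1 hτ
    exact h τ (Sub.mem_fcs.2 ⟨h1, h2.le⟩) (by omega))
  obtain ⟨j, hj⟩ := hY
  obtain ⟨R, hR, -⟩ := Sub.exists_fac hT (hempty (Y.erase j))
  obtain ⟨h1, -, h2, h3⟩ := Sub.mem_st.1 hR
  have hcj : (Y.erase j).card = Y.card - 1 := Finset.card_erase_of_mem hj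
  have hRf : R ∈ S.fcs Y := Sub.mem_fcs.2 ⟨h1, h2 ▸ Finset.erase_subset j Y⟩
  have hne : S.cr R ≠ Y := by
    rw [h2]
    intro h4
    have h5 := Finset.notMem_erase j Y
    rw [h4] at h5
    exact h5 hj
  have h4 := h R hRf (by omega)
  obtain ⟨ρ, hρ⟩ := Finset.card_eq_one.1 (Sub.bdry_one hT hRf hne (by omega))
  rw [hρ, Finset.sum_singleton] at h4
  have hρm : ρ ∈ (S.fac Y).filter (R ⊆ ·) := hρ ▸ Finset.mem_singleton_self ρ
  intro G hG
  rw [hconst G hG ρ (Finset.mem_filter.1 hρm).1, h4]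

end Pool.Agent.LH4
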