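import Pool.Agent.LH4.Red
import Pool.Agent.LH4.TopB
import Pool.Agent.LH4.SqP
import Pool.Agent.LocH.GC3
import Pool.Agent.LocH.Fin

/-!
# Functions on the good monomials of codegree at most one

`CK.zero`: a function on the monomials of degree `d ≥ |U| - 1` on the restriction to `U` which kills the
available relations (and, for `d = |U| - 1`, the products of `λ` and the good monomials) is zero at the
good monomials.
-/

set_option autoImplicit false
set_option linter.unusedSectionVars false

open Finset

namespace Pool.Agent.LH4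

open Pool.Agent.LocH

variable {X Ω : Type} [Fintype X] [DecidableEq X] [Fintype Ω] [DecidableEq Ω] {S : Sub X Ω}

/-! ### Two ways to count -/

theorem dgI_add_dgC {A C : Finset Ω} {n : X →₀ ℕ} (hn : n.support ∈ S.fcs A) :
    S.dgI (A \ C) n + S.dgC C n = n.degree := by
  rw [Finsupp.degree_eq_sum]
  unfold Sub.dgI Sub.dgC
  rw [Finset.sum_filter, Finset.sum_filter, ← Finset.sum_add_distrib]
  refine Finset.sum_congr rfl fun v _ => ?_
  by_cases h3 : n v = 0
  · simp [h3]
  · have h4 : S.car v ⊆ A := (Finset.subset_biUnion_of_mem S.car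
      (Finsupp.mem_support_iff.2 h3)).trans (Sub.mem_fcs.1 hn).2
    by_cases h5 : Disjoint (S.car v) C
    · rw [if_pos (Finset.subset_sdiff.2 ⟨h4, h5⟩), if_neg (not_not.2 h5), add_zero]
    · rw [if_neg (fun h => h5 (Finset.subset_sdiff.1 h).2), if_pos h5, zero_add]

theorem ex_iff {A U : Finset Ω} (hU : U ⊆ A) {n : X →₀ ℕ} (hn : n.support ∈ S.fcs A) :
    S.ex A U n ≤ 0 ↔ (A \ U).card ≤ 2 * S.dgC (A \ U) n := by
  have h1 := dgI_add_dgC (C := A \ U) hn
  rw [Finset.sdiff_sdiff_eq_self hU] at h1
  have h2 : (A \ U).card + U.card = A.card := Finset.card_sdiff_add_card_eq_card hU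
  unfold Sub.ex
  omega

theorem Gd_of_Good {A : Finset Ω} {n : X →₀ ℕ} (hn : n.support ∈ S.fcs A) (h : S.Good A n) :
    S.Gd A n :=
  ⟨hn, fun U hU => (ex_iff hU hn).2 (h (A \ U) Finset.sdiff_subset)⟩

/-! ### A vertex that meets no tight set -/

/-- A good monomial of degree at least `|W| - 1` with a multiple vertex has a multiple vertex that
meets no tight set. -/
theorem red_ge {W : Finset Ω} {N : X →₀ ℕ} (hN : W.card ≤ N.degree + 1)
    (hs : N.support ∈ S.fcs W) (hg : S.Good W N) (hnr : ∃ v, 2 ≤ N v) :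
    ∃ v, 2 ≤ N v ∧ ∀ C ⊆ W, C.card = 2 * S.dgC C N → Disjoint (S.car v) C := by
  classical
  by_contra hcon
  push Not at hcon
  set 𝔗 : Finset (Finset Ω) := W.powerset.filter fun C => C.card = 2 * S.dgC C N with h𝔗
  have hne : 𝔗.Nonempty := by
    refine ⟨∅, Finset.mem_filter.2 ⟨Finset.mem_powerset.2 (Finset.empty_subset _), ?_⟩⟩
    have : S.dgC ∅ N = 0 := by
      unfold Sub.dgC
      simp
    rw [this]
    rfl
  obtain ⟨T, hT𝔗, hmax⟩ := Finset.exists_max_image 𝔗 Finset.card hne
  have hTW : T ⊆ W := Finset.mem_powerset.1 (Finset.mem_filter.1 hT𝔗).1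
  have hTc : T.card = 2 * S.dgC T N := (Finset.mem_filter.1 hT𝔗).2
  have hsub : ∀ C ⊆ W, C.card = 2 * S.dgC C N → C ⊆ T := by
    intro C hCW hC
    have h1 := S.dgC_submod C T N
    have h2 := Finset.card_union_add_card_inter C T
    have h3 := hg (C ∪ T) (Finset.union_subset hCW hTW)
    have h4 := hg (C ∩ T) (Finset.inter_subset_left.trans hCW)
    have h5 : (C ∪ T).card = 2 * S.dgC (C ∪ T) N := by omega
    have h6 := hmax (C ∪ T) (Finset.mem_filter.2
      ⟨Finset.mem_powerset.2 (Finset.union_subset hCW hTW), h5⟩)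
    have h7 : T = C ∪ T := Finset.eq_of_subset_of_card_le Finset.subset_union_right h6
    rw [h7]
    exact Finset.subset_union_left
  have hmeet : ∀ v, 2 ≤ N v → ¬ Disjoint (S.car v) T := by
    intro v hv h
    obtain ⟨C, hCW, hC, hvC⟩ := hcon v hv
    exact hvC (h.mono_right (hsub C hCW hC))
  obtain ⟨v, hv⟩ := hnr
  have hvT := hmeet v hv
  set R : Finset X := N.support.filter fun u => Disjoint (S.car u) T with hR
  have hsG : N.support ∈ S.Gam := (Sub.mem_fcs.1 hs).1
  have hsW : S.cr N.support ⊆ W := (Sub.mem_fcs.1 hs).2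
  have hRG : R ∈ S.Gam := S.down _ hsG _ (Finset.filter_subset _ _)
  have hRc : S.cr R ⊆ W \ T := by
    intro c hc
    obtain ⟨u, hu, hcu⟩ := Finset.mem_biUnion.1 hc
    rw [hR, Finset.mem_filter] at hu
    rw [Finset.mem_sdiff]
    exact ⟨hsW (Finset.mem_biUnion.2 ⟨u, hu.1, hcu⟩), fun hcT => Finset.disjoint_left.1 hu.2 hcu hcT⟩
  have hR1 : ∀ u ∈ R, N u = 1 := by
    intro u hu
    rw [hR, Finset.mem_filter] at hu
    have h1 := Finsupp.mem_support_iff.1 hu.1
    by_contra hcon
    exact hmeet u (by omega) hu.2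
  have hdeg : N.degree = S.dgC T N + R.card := by
    have h1 : ∑ u ∈ univ.filter (fun u => Disjoint (S.car u) T), N u = R.card := by
      rw [Finset.card_eq_sum_ones, hR]
      symm
      rw [← Finset.sum_congr rfl hR1]
      apply Finset.sum_subset
      · intro u hu
        rw [Finset.mem_filter] at hu ⊢
        exact ⟨Finset.mem_univ _, hu.2⟩
      · intro u hu huR
        by_contra hcon
        apply huR
        rw [Finset.mem_filter] at hu ⊢
        exact ⟨Finsupp.mem_support_iff.2 hcon, hu.2⟩
    rw [Finsupp.degree_eq_sum, ← h1]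
    unfold Sub.dgC
    rw [add_comm]
    exact (Finset.sum_filter_add_sum_filter_not univ (fun u => Disjoint (S.car u) T) _).symm
  have hcW : (W \ T).card + T.card = W.card := Finset.card_sdiff_add_card_eq_card hTW
  have hRle : R.card ≤ (S.cr R).card := S.card_le _ hRG
  have hRle' : (S.cr R).card ≤ (W \ T).card := Finset.card_le_card hRc
  have hvle := S.le_dgC hvT N
  omega

/-! ### Functions which kill the available relations -/

/-- The relation of the coordinate `c` at `M` is available. -/
def Av (S : Sub X Ω) (U : Finset Ω) (M : X →₀ ℕ) (c : Ω) : Prop :=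
  ∀ C ⊆ U, c ∉ C → C.card ≤ 2 * S.dgC C M

/-- The hypotheses on the function `L` on the monomials of degree `d`. -/
structure CK (S : Sub X Ω) (U : Finset Ω) (d : ℕ) (L : (X →₀ ℕ) → S.K) : Prop where
  out : ∀ N : X →₀ ℕ, N.support ∉ S.fcs U → L N = 0
  th : ∀ M : X →₀ ℕ, M.degree + 1 = d → M.support ∈ S.fcs U → ∀ c ∈ U, Av S U M c →
    ∑ u, S.a u c * L (Finsupp.single u 1 + M) = 0
  lam : d + 1 = U.card → ∀ M : X →₀ ℕ, M.degree + 1 = d → M.support ∈ S.fcs U → S.Good U M →
    ∑ u, L (Finsupp.single u 1 + M) = 0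

section

variable {U : Finset Ω} {d : ℕ} {L : (X →₀ ℕ) → S.K}

/-- The relations of a functional whose coordinates are available. -/
theorem CK.rel (hL : CK S U d L) {M : X →₀ ℕ} (hM : M.degree + 1 = d) (hs : M.support ∈ S.fcs U)
    {B : Finset Ω} (hB : B ⊆ U) {ω : Ω → S.K} (hω : ∀ c ∈ B, ω c ≠ 0 → Av S U M c) :
    ∑ u, S.lf B ω u * L (Finsupp.single u 1 + M) = 0 := by
  unfold Sub.lf
  simp only [Finset.sum_mul]
  rw [Finset.sum_comm]
  refine Finset.sum_eq_zero fun c hc => ?_
  by_cases h : ω c = 0
  · refine Finset.sum_eq_zero fun u _ => ?_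
    rw [h, zero_mul, zero_mul]
  · have h1 := hL.th M hM hs c (hB hc) (hω c hc h)
    have h2 : ∑ u, ω c * S.a u c * L (Finsupp.single u 1 + M) =
        ω c * ∑ u, S.a u c * L (Finsupp.single u 1 + M) := by
      rw [Finset.mul_sum]
      exact Finset.sum_congr rfl fun u _ => mul_assoc _ _ _
    rw [h2, h1, mul_zero]

/-- The number of vertices of a face which meet a set. -/
theorem card_le_dgC_ch {R : Finset X} (hR : R ∈ S.fcs U) {C D : Finset Ω} (hCD : C ⊆ D)
    (hDU : D ⊆ U) (hD : ∀ v ∈ R, Disjoint (S.car v) C → Disjoint (S.car v) D) :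
    R.card + D.card ≤ U.card + S.dgC C (Sub.ch R) := by
  classical
  set R' := R.filter fun v => Disjoint (S.car v) C with hR'
  have h1 : S.dgC C (Sub.ch R) = (R \ R').card := by
    have h2 : R \ R' = R.filter fun v => ¬Disjoint (S.car v) C := by
      ext v
      rw [Finset.mem_sdiff, hR', Finset.mem_filter, Finset.mem_filter]
      tauto
    rw [h2, Finset.card_eq_sum_ones]
    unfold Sub.dgC
    simp only [ch_apply]
    rw [Finset.sum_filter, Finset.sum_filter]
    rw [← Finset.sum_subset (Finset.subset_univ R)]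
    · refine Finset.sum_congr rfl fun v hv => ?_
      rw [if_pos hv]
    · intro v _ hv
      rw [if_neg hv]
      split_ifs <;> rfl
  have h3 : (R \ R').card + R'.card = R.card :=
    Finset.card_sdiff_add_card_eq_card (Finset.filter_subset _ _)
  have h4 : R' ∈ S.Gam := S.down _ (Sub.mem_fcs.1 hR).1 _ (Finset.filter_subset _ _)
  have h5 : S.cr R' ⊆ U \ D := by
    intro c hc
    obtain ⟨u, hu, hcu⟩ := Finset.mem_biUnion.1 hc
    rw [hR', Finset.mem_filter] at hu
    rw [Finset.mem_sdiff]
    refine ⟨(Sub.mem_fcs.1 hR).2 (Finset.mem_biUnion.2 ⟨u, hu.1, hcu⟩), fun hcT => ?_⟩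
    exact Finset.disjoint_left.1 (hD u hu.1 hu.2) hcu hcT
  have h6 := S.card_le _ h4
  have h7 : (S.cr R').card ≤ (U \ D).card := Finset.card_le_card h5
  have h8 : (U \ D).card + D.card = U.card := Finset.card_sdiff_add_card_eq_card hDU
  have h9 : R'.card ≤ (S.cr R').card := h6
  omega

theorem Av_ridge {R : Finset X} (hR : R ∈ S.fcs U) (hc : R.card + 1 = U.card) {c : Ω} (hcU : c ∈ U)
    (h : U.erase c ⊆ S.cr R) : Av S U (Sub.ch R) c := by
  intro C hC hcC
  rcases C.eq_empty_or_nonempty with rfl | hne
  · rw [Finset.card_empty]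
    exact Nat.zero_le _
  by_cases hcR : c ∈ S.cr R
  · -- the carrier is `U`
    have h1 := card_le_dgC_ch hR (Finset.Subset.refl C) hC fun _ _ h => h
    have h2 : 1 ≤ S.dgC C (Sub.ch R) := by
      obtain ⟨b, hb⟩ := hne
      have hb1 : b ∈ S.cr R := h (Finset.mem_erase.2 ⟨fun h3 => hcC (h3 ▸ hb), hC hb⟩)
      obtain ⟨v, hv, hbv⟩ := Finset.mem_biUnion.1 hb1
      have h3 : ¬Disjoint (S.car v) C := fun h4 => Finset.disjoint_left.1 h4 hbv hb
      have h4 := S.le_dgC h3 (Sub.ch R)
      rw [ch_apply, if_pos hv] at h4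
      exact h4
    omega
  · have h1 := card_le_dgC_ch (D := insert c C) hR (Finset.subset_insert c C)
      (Finset.insert_subset hcU hC) fun v hv h3 => by
        rw [Finset.disjoint_insert_right]
        exact ⟨fun h4 => hcR (Finset.mem_biUnion.2 ⟨v, hv, h4⟩), h3⟩
    rw [Finset.card_insert_of_notMem hcC] at h1
    omega

/-- The facets over a ridge. -/
theorem sum_fac_ridge {R : Finset X} (hR : R ∈ S.fcs U) (hc : R.card + 1 = U.card)
    (ψ : Finset X → S.K) :
    ∑ G ∈ (S.fac U).filter (R ⊆ ·), ψ G =
      ∑ u ∈ univ.filter (fun u => u ∉ R ∧ insert u R ∈ S.fcs U), ψ (insert u R) := by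
  symm
  refine Finset.sum_bij (fun u _ => insert u R) ?_ ?_ ?_ (fun _ _ => rfl)
  · intro u hu
    obtain ⟨-, h1, h2⟩ := Finset.mem_filter.1 hu
    refine Finset.mem_filter.2 ⟨fac_of_fcs h2 ?_, Finset.subset_insert u R⟩
    rw [Finset.card_insert_of_notMem h1, hc]
  · intro u hu u' hu' h
    obtain ⟨-, h1, -⟩ := Finset.mem_filter.1 hu
    obtain ⟨-, h1', -⟩ := Finset.mem_filter.1 hu'
    have h2 : u ∈ insert u' R := h ▸ Finset.mem_insert_self u R
    exact (Finset.mem_insert.1 h2).resolve_right h1
  · intro G hG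
    obtain ⟨h1, h2⟩ := Finset.mem_filter.1 hG
    have h3 : G.card = U.card := (Sub.mem_st.1 h1).2.2.2
    obtain ⟨u, hu, hu'⟩ := Finset.exists_eq_insert_iff.2 ⟨h2, by omega⟩
    refine ⟨u, Finset.mem_filter.2 ⟨Finset.mem_univ u, hu, ?_⟩, hu'⟩
    rw [hu']
    exact fac_mem_fcs h1

theorem om_bd {R : Finset X} {j c : Ω} (hj : j ∈ U) (hR : j ∉ S.cr R) (hc : c ≠ j) :
    S.om U R c = 0 := by
  unfold Sub.om
  rw [pr_col U hj _ _ fun v => S.a_eq_zero fun h => hR (Finset.mem_biUnion.2 ⟨v.1, v.2, h⟩),
    Pi.single_apply, if_neg (Ne.symm hc), zero_mul]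

/-- The values at the facets. -/
theorem CK.facet (hT : S.Top S.K) (hL : CK S U d L) (hU : U.Nonempty) (hd : d = U.card)
    {G : Finset X} (hG : G ∈ S.fac U) : L (Sub.ch G) = 0 := by
  have h1 := topB_unique hT hU (fun G => S.dA G * L (Sub.ch G)) (fun R hR hc => ?_) G hG
  · exact (mul_eq_zero.1 h1).resolve_left (S.dA_ne hG)
  · rw [sum_fac_ridge hR hc]
    have h2 := hL.rel (M := Sub.ch R) (by rw [deg_ch, hc, hd]) (by rw [supp_ch]; exact hR)
      (Finset.Subset.refl U) (ω := S.om U R) (fun c hcU hne => ?_)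
    · rw [← h2, Finset.sum_filter]
      refine Finset.sum_congr rfl fun u _ => ?_
      by_cases hu : u ∈ R
      · rw [if_neg (fun h => h.1 hu), S.om_self U R u hu, zero_mul]
      · by_cases hi : insert u R ∈ S.fcs U
        · have h3 : insert u R ∈ S.fac U := fac_of_fcs hi (by
            rw [Finset.card_insert_of_notMem hu, hc])
          rw [if_pos ⟨hu, hi⟩, S.om_new U R u hu (Sub.mem_st.1 h3).2.2.1, s1_ch hu]
        · rw [if_neg (fun h => hi h.2), s1_ch hu, hL.out _ (by rw [supp_ch]; exact hi), mul_zero]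
    · refine Av_ridge hR hc hcU ?_
      by_cases hcr : S.cr R = U
      · rw [hcr]
        exact Finset.erase_subset c U
      · obtain ⟨j, hj, hj'⟩ := ridge_cr hR hc hcr
        have h4 : c = j := by
          by_contra h5
          exact hne (om_bd hj (by rw [hj']; exact Finset.notMem_erase j U) h5)
        rw [h4, hj']

/-- The values at the interior ridges (LEMMA C). -/
theorem CK.ridge (hT : S.Top S.K) (hL : CK S U d L) (hU : 4 ≤ U.card) (hd : d + 1 = U.card)
    {R : Finset X} (hR : R ∈ S.fcs U) (hc : R.card = d) (hcr : S.cr R = U) :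
    L (Sub.ch R) = 0 := by
  have h1 := S.lem_C hT S.qp (S.trP hT) hU (M := R) (Sub.mem_st.2 ⟨(Sub.mem_fcs.1 hR).1,
    Finset.empty_subset _, hcr, by omega⟩)
  let φ : S.T →ₗ[S.K] S.K := (MvPolynomial.basisMonomials X S.K).constr S.K L
  have hφ : ∀ N, φ (S.mo N) = L N := by
    intro N
    have h := (MvPolynomial.basisMonomials X S.K).constr_basis S.K L N
    rw [MvPolynomial.coe_basisMonomials] at h
    exact h
  have hI : ∀ f ∈ S.I U, φ f = 0 := by
    intro f hf
    rw [← MvPolynomial.support_sum_monomial_coeff f, map_sum]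
    refine Finset.sum_eq_zero fun m hm => ?_
    have h2 : MvPolynomial.monomial m (MvPolynomial.coeff m f) =
        MvPolynomial.coeff m f • S.mo m := by
      unfold Sub.mo
      rw [MvPolynomial.smul_monomial, smul_eq_mul, mul_one]
    rw [h2, map_smul, hφ, hL.out m ((MvPolynomial.mem_restrictSupport_iff _).1 hf hm), smul_zero]
  rw [← hφ]
  have h2 : S.BC U ≤ LinearMap.ker φ := by
    unfold Sub.BC
    refine sup_le (sup_le ?_ ?_) (fun f hf => LinearMap.mem_ker.2 (hI f hf))
    · rw [Submodule.map_le_iff_le_comap]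
      unfold Sub.GM
      rw [Submodule.span_le]
      rintro _ ⟨m, h3, h4, rfl⟩
      change S.lam U * S.mo m ∈ LinearMap.ker φ
      rw [LinearMap.mem_ker]
      have h5 := hL.lam hd m (by omega) h3.1 (S.Good_of_Gd h3)
      unfold Sub.lam
      rw [Finset.sum_mul, map_sum, ← h5, Finset.sum_filter]
      refine Finset.sum_congr rfl fun u _ => ?_
      by_cases hu : S.car u ⊆ U
      · rw [if_pos hu, ← hφ]
        congr 1
        unfold Sub.mo
        rw [MvPolynomial.X, MvPolynomial.monomial_mul, mul_one]
      · rw [if_neg hu, hL.out]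
        intro h6
        refine hu ((Finset.subset_biUnion_of_mem S.car ?_).trans (Sub.mem_fcs.1 h6).2)
        rw [supp_s1]
        exact Finset.mem_insert_self _ _
    · refine iSup_le fun c => iSup_le fun hcU => ?_
      rw [Submodule.map_le_iff_le_comap]
      unfold Sub.XC
      rw [Submodule.span_le]
      rintro _ ⟨m, h3, h4, h5, rfl⟩
      change S.th c * S.mo m ∈ LinearMap.ker φ
      rw [LinearMap.mem_ker]
      have h6 := hL.th m (by omega) h3 c hcU (fun C hC hcC => by
        have h7 := h5 (U \ C) Finset.sdiff_subset (Finset.mem_sdiff.2 ⟨hcU, hcC⟩)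
        rw [ex_iff Finset.sdiff_subset h3, Finset.sdiff_sdiff_eq_self hC] at h7
        exact h7)
      unfold Sub.th
      rw [Finset.sum_mul, map_sum, ← h6]
      refine Finset.sum_congr rfl fun u _ => ?_
      have h7 : (MvPolynomial.C (S.a u c) * MvPolynomial.X u : S.T) * S.mo m =
          S.a u c • S.mo (Finsupp.single u 1 + m) := by
        unfold Sub.mo
        rw [MvPolynomial.X, MvPolynomial.C_mul_monomial, MvPolynomial.monomial_mul, mul_one,
          mul_one, MvPolynomial.smul_monomial, smul_eq_mul, mul_one]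
      rw [h7, map_smul, hφ, smul_eq_mul]
  exact LinearMap.mem_ker.1 (h2 h1)

/-- (C) in the codegrees at most one. -/
theorem CK.zero (hT : S.Top S.K) (hL : CK S U d L) (hU : 4 ≤ U.card ∨ (U.card ≤ d ∧ 0 < d))
    (hd : U.card ≤ d + 1) : ∀ N : X →₀ ℕ, N.degree = d → S.Good U N → L N = 0 := by
  have key : ∀ k : ℕ, ∀ N : X →₀ ℕ, N.degree = d → N.support ∈ S.fcs U → S.Good U N →
      N.support.card + k = d → L N = 0 := by
    intro k
    induction k with
    | zero =>
      intro N hN hs hg hc
      rcases eq_ch_or N with h | ⟨v, hv⟩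
      · have h1 : N.support.card ≤ U.card :=
          (S.card_le _ (Sub.mem_fcs.1 hs).1).trans (Finset.card_le_card (Sub.mem_fcs.1 hs).2)
        rw [h]
        by_cases h2 : d = U.card
        · exact hL.facet hT (Finset.card_pos.1 (by omega)) h2 (fac_of_fcs hs (by omega))
        · exact hL.ridge hT (by omega) (by omega) hs (by omega) (S.Gd_cr (Gd_of_Good hs hg))
      · exfalso
        obtain ⟨M, hM, hM'⟩ := exists_s1 (v := v) (M := N) (by omega)
        have hvM : v ∈ M.support := by
          rw [Finsupp.mem_support_iff]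
          omega
        have h1 : M.support = N.support := by
          rw [hM, supp_s1, Finset.insert_eq_of_mem hvM]
        have h2 := card_supp_le M
        have h3 : N.degree = M.degree + 1 := by rw [hM, deg_s1]
        rw [h1] at h2
        omega
    | succ k ih =>
      intro N hN hs hg hc
      have hnr : ∃ v, 2 ≤ N v := by
        rcases eq_ch_or N with h | h
        · exfalso
          have h1 := deg_ch N.support
          rw [← h] at h1
          omega
        · exact h
      obtain ⟨v, hv, hd'⟩ := red_ge (by omega) hs hg hnr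
      obtain ⟨B, hB, ω, e1, e2, e3⟩ := S.red_one hs hg hv hd'
      obtain ⟨M, hM, hM'⟩ := exists_s1 (v := v) (M := N) (by omega)
      have hNM : N - Finsupp.single v 1 = M := by
        rw [hM, add_tsub_cancel_left]
      rw [hNM] at e3
      have hvM : v ∈ M.support := by
        rw [Finsupp.mem_support_iff]
        omega
      have hsupp : M.support = N.support := by
        rw [hM, supp_s1, Finset.insert_eq_of_mem hvM]
      have hdM : M.degree + 1 = d := by
        rw [← hN, hM, deg_s1]
      have h4 := hL.rel hdM (by rw [hsupp]; exact hs) hB (ω := ω) fun c hcB _ => e3 c hcB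
      rw [← Finset.sum_sdiff (Finset.subset_univ M.support),
        Finset.sum_eq_single_of_mem (s := M.support) v hvM fun x hx hxv => by
          rw [e2 x (hsupp ▸ hx) hxv, zero_mul], e1, one_mul, ← hM] at h4
      rw [Finset.sum_eq_zero, zero_add] at h4
      · exact h4
      · intro u hu
        have hu' := (Finset.mem_sdiff.1 hu).2
        by_cases hlf : S.lf B ω u = 0
        · rw [hlf, zero_mul]
        · have h5 : (Finsupp.single u 1 + M).support = insert u N.support := by
            rw [supp_s1, hsupp]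
          by_cases h7 : insert u N.support ∈ S.fcs U
          · -- the monomial is good
            obtain ⟨c, hcB, hc0⟩ := Finset.exists_ne_zero_of_sum_ne_zero hlf
            have hcu : c ∈ S.car u := by
              by_contra h
              exact right_ne_zero_of_mul hc0 (S.a_eq_zero h)
            have hgood : S.Good U (Finsupp.single u 1 + M) := by
              intro C hC
              rw [S.dgC_add, S.dgC_single]
              by_cases hcC : c ∈ C
              · have h8 := e3 c hcB (C.erase c) ((Finset.erase_subset c C).trans hC)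
                  (Finset.notMem_erase c C)
                have h9 : S.dgC (C.erase c) M ≤ S.dgC C M := by
                  unfold Sub.dgC
                  refine Finset.sum_le_sum_of_subset fun x hx => ?_
                  rw [Finset.mem_filter] at hx ⊢
                  exact ⟨hx.1, fun h => hx.2 (h.mono_right (Finset.erase_subset c C))⟩
                have h10 := Finset.card_erase_add_one hcC
                rw [if_neg (fun h => Finset.disjoint_left.1 h hcu hcC)]
                omega
              · have h8 := e3 c hcB C hC hcC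
                omega
            rw [ih _ (by rw [deg_s1]; exact hdM) (by rw [h5]; exact h7) hgood (by
              rw [h5, Finset.card_insert_of_notMem (hsupp ▸ hu')]
              omega), mul_zero]
          · rw [hL.out _ (by rw [h5]; exact h7), mul_zero]
  intro N hN hg
  by_cases hs : N.support ∈ S.fcs U
  · have h1 := card_supp_le N
    exact key (d - N.support.card) N hN hs hg (by omega)
  · exact hL.out N hs

end

end Pool.Agent.LH4
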