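import Pool.Agent.LH4.Pi1
import Pool.Agent.LH4.As1

/-!
# Linear forms in the degree `|V| - 4` which kill the relations, `λ J` and the good monomials

`pi1`: they are zero at the interior monomials without a vertex that covers alone at least three
coordinates.  `pi2`: if they are zero at the products of a vertex which covers the set `Z` of three
coordinates and a good monomial of the restriction to `V \ Z`, then they are zero at all interior
monomials.
-/

set_option autoImplicit false
set_option linter.unusedSectionVars false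

open Finset

namespace Pool.Agent.LH4

open Pool.Agent.LocH

variable {X Ω : Type} [Fintype X] [DecidableEq X] [Fintype Ω] [DecidableEq Ω] {S : Sub X Ω}

/-! ### Counting -/

theorem dgC_mono {C C' : Finset Ω} (h : C ⊆ C') (n : X →₀ ℕ) : S.dgC C n ≤ S.dgC C' n := by
  unfold Sub.dgC
  refine Finset.sum_le_sum_of_subset fun x hx => ?_
  rw [Finset.mem_filter] at hx ⊢
  exact ⟨hx.1, fun h' => hx.2 (h'.mono_right h)⟩

theorem dgC_zero_of {C : Finset Ω} {n : X →₀ ℕ} (h : ∀ v ∈ n.support, Disjoint (S.car v) C) :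
    S.dgC C n = 0 := by
  by_contra h1
  obtain ⟨v, hv, hv'⟩ := S.exists_of_dgC_pos (Nat.pos_of_ne_zero h1)
  exact hv' (h v hv)

theorem dgC_eq_degree {C : Finset Ω} {n : X →₀ ℕ} (h : ∀ v ∈ n.support, ¬ Disjoint (S.car v) C) :
    S.dgC C n = n.degree := by
  unfold Sub.dgC
  rw [Finsupp.degree_eq_sum]
  refine Finset.sum_subset (Finset.subset_univ _) fun v _ hv => ?_
  by_contra h1
  exact hv (Finset.mem_filter.2 ⟨Finset.mem_univ v, h v (Finsupp.mem_support_iff.2 h1)⟩)

theorem mem_cr_of_dgC {b : Ω} {n : X →₀ ℕ} (h : 0 < S.dgC {b} n) : b ∈ S.cr n.support := by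
  obtain ⟨v, hv, hv'⟩ := S.exists_of_dgC_pos h
  rw [Finset.disjoint_singleton_right, not_not] at hv'
  exact Finset.mem_biUnion.2 ⟨v, hv, hv'⟩

theorem mem_supp_addP {n m : X →₀ ℕ} {v : X} :
    v ∈ (n + m).support ↔ v ∈ n.support ∨ v ∈ m.support := by
  rw [Finsupp.mem_support_iff, Finsupp.mem_support_iff, Finsupp.mem_support_iff, Finsupp.add_apply]
  omega

theorem mem_supp_sub {n : X →₀ ℕ} {v w : X} :
    v ∈ (n - Finsupp.single w 1).support ↔ (v ≠ w ∧ 1 ≤ n v) ∨ (v = w ∧ 2 ≤ n v) := by
  rw [Finsupp.mem_support_iff, Finsupp.tsub_apply, Finsupp.single_apply]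
  by_cases h : w = v
  · rw [if_pos h]
    constructor
    · intro h1
      exact Or.inr ⟨h.symm, by omega⟩
    · rintro (h1 | h1)
      · exact absurd h.symm h1.1
      · omega
  · rw [if_neg h]
    constructor
    · intro h1
      exact Or.inl ⟨Ne.symm h, by omega⟩
    · rintro (h1 | h1)
      · omega
      · exact absurd h1.1.symm h

/-! ### The error terms -/

section

variable {V Q : Finset Ω} {e : ℕ} {nT M : X →₀ ℕ} {u : X}

theorem err_ex (hmax : ∀ C ⊆ Q, C ≠ Q → C.card ≤ 2 * S.dgC C nT + e)
    (hQ : Q.card ≤ 2 * S.dgC Q nT + (e + 1)) (hu : ¬ Disjoint (S.car u) Q)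
    (hM1 : ∀ C ⊆ V \ Q, Disjoint (S.car u) C → C.card ≤ 2 * S.dgC C M)
    (hM2 : ∀ C ⊆ V \ Q, C.card ≤ 2 * S.dgC C M + 1) :
    ∀ C ⊆ V, C.card ≤ 2 * S.dgC C (nT + (Finsupp.single u 1 + M)) + e := by
  intro C hC
  have h1 : (C ∩ Q).card + (C \ Q).card = C.card := Finset.card_inter_add_card_sdiff C Q
  have h2 : S.dgC (C ∩ Q) nT ≤ S.dgC C nT := dgC_mono Finset.inter_subset_left nT
  have h3 : S.dgC (C \ Q) M ≤ S.dgC C M := dgC_mono Finset.sdiff_subset M
  have h4 : C \ Q ⊆ V \ Q := Finset.sdiff_subset_sdiff hC (Finset.Subset.refl Q)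
  rw [S.dgC_add, S.dgC_add, S.dgC_single]
  by_cases h5 : Disjoint (S.car u) C
  · rw [if_pos h5]
    have h6 : C ∩ Q ≠ Q := by
      intro h
      exact hu (h5.mono_right (by rw [← h]; exact Finset.inter_subset_left))
    have h7 := hmax _ Finset.inter_subset_right h6
    have h8 := hM1 _ h4 (h5.mono_right Finset.sdiff_subset)
    omega
  · rw [if_neg h5]
    have h7 : (C ∩ Q).card ≤ 2 * S.dgC (C ∩ Q) nT + (e + 1) := by
      by_cases h6 : C ∩ Q = Q
      · rw [h6]
        exact hQ
      · have := hmax _ Finset.inter_subset_right h6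
        omega
    have h8 := hM2 _ h4
    omega

theorem err_cov (hQT : Q ⊆ S.cr nT.support)
    (hM1 : ∀ C ⊆ V \ Q, Disjoint (S.car u) C → C.card ≤ 2 * S.dgC C M) :
    V ⊆ S.cr (nT + (Finsupp.single u 1 + M)).support := by
  intro b hb
  by_cases hbQ : b ∈ Q
  · obtain ⟨v, hv, hbv⟩ := Finset.mem_biUnion.1 (hQT hbQ)
    exact Finset.mem_biUnion.2 ⟨v, mem_supp_addP.2 (Or.inl hv), hbv⟩
  by_cases hbu : b ∈ S.car u
  · exact Finset.mem_biUnion.2 ⟨u, mem_supp_addP.2 (Or.inr (by
      rw [supp_s1]
      exact Finset.mem_insert_self u _)), hbu⟩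
  · have h1 := hM1 {b} (Finset.singleton_subset_iff.2 (Finset.mem_sdiff.2 ⟨hb, hbQ⟩))
      (Finset.disjoint_singleton_right.2 hbu)
    rw [Finset.card_singleton] at h1
    obtain ⟨v, hv, hbv⟩ := Finset.mem_biUnion.1 (mem_cr_of_dgC (S := S) (b := b) (n := M) (by omega))
    exact Finset.mem_biUnion.2 ⟨v, mem_supp_addP.2 (Or.inr (by
      rw [supp_s1]
      exact Finset.mem_insert_of_mem hv)), hbv⟩

theorem err_ty (hs : (nT + (Finsupp.single u 1 + M)).support ∈ S.fcs V)
    (hQT : Q ⊆ S.cr nT.support)
    (hnT : ∀ w ∈ nT.support,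
      ((S.car w ∩ Q) \ S.cr (nT - Finsupp.single w 1).support).card ≤ 2)
    (hM1 : ∀ C ⊆ V \ Q, Disjoint (S.car u) C → C.card ≤ 2 * S.dgC C M)
    (hM2 : ∀ C ⊆ V \ Q, C.card ≤ 2 * S.dgC C M + 1) (w : X) :
    ¬ Ty S w ∅ (nT + (Finsupp.single u 1 + M)) := by
  rintro ⟨hw, hbig⟩
  rw [Finset.sdiff_empty] at hbig
  set n' := nT + (Finsupp.single u 1 + M) with hn'
  set B := S.car w \ S.cr (n' - Finsupp.single w 1).support with hB
  have hval : ∀ v, n' v = nT v + ((if u = v then 1 else 0) + M v) := by
    intro v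
    rw [hn', Finsupp.add_apply, Finsupp.add_apply, Finsupp.single_apply]
  have hw1 : n' w = 1 := by
    by_contra h1
    have h2 := Finsupp.mem_support_iff.1 hw
    have h3 : B = ∅ := by
      rw [hB, Finset.sdiff_eq_empty_iff_subset]
      exact Finset.subset_biUnion_of_mem S.car (mem_supp_sub.2 (Or.inr ⟨rfl, by omega⟩))
    rw [h3, Finset.card_empty] at hbig
    omega
  have hBw : ∀ b ∈ B, b ∈ S.car w := fun b hb => (Finset.mem_sdiff.1 hb).1
  have hBn : ∀ b ∈ B, ∀ v, v ≠ w → 1 ≤ n' v → b ∉ S.car v := by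
    intro b hb v hv hv' hbv
    exact (Finset.mem_sdiff.1 hb).2 (Finset.mem_biUnion.2 ⟨v, mem_supp_sub.2 (Or.inl ⟨hv, hv'⟩),
      hbv⟩)
  have hBV : B ⊆ V := fun b hb => (Sub.mem_fcs.1 hs).2
    (Finset.mem_biUnion.2 ⟨w, hw, hBw b hb⟩)
  have hvw := hval w
  by_cases hwT : w ∈ nT.support
  · -- a vertex of `nT`
    have h1 := Finsupp.mem_support_iff.1 hwT
    have huw : u ≠ w := by
      intro h
      rw [if_pos h] at hvw
      omega
    have h2 := hnT w hwT
    have h3 : B ⊆ (S.car w ∩ Q) \ S.cr (nT - Finsupp.single w 1).support := by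
      intro b hb
      rw [Finset.mem_sdiff, Finset.mem_inter]
      refine ⟨⟨hBw b hb, ?_⟩, ?_⟩
      · by_contra hbQ
        have h4 : b ∉ S.car u := hBn b hb u huw (by
          rw [hval u, if_pos rfl]
          omega)
        have h5 := hM1 {b} (Finset.singleton_subset_iff.2 (Finset.mem_sdiff.2 ⟨hBV hb, hbQ⟩))
          (Finset.disjoint_singleton_right.2 h4)
        rw [Finset.card_singleton] at h5
        obtain ⟨v, hv, hbv⟩ := Finset.mem_biUnion.1
          (mem_cr_of_dgC (S := S) (b := b) (n := M) (by omega))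
        have h6 := Finsupp.mem_support_iff.1 hv
        refine hBn b hb v ?_ (by rw [hval v]; omega) hbv
        rintro rfl
        omega
      · intro h4
        obtain ⟨v, hv, hbv⟩ := Finset.mem_biUnion.1 h4
        rcases mem_supp_sub.1 hv with h5 | h5
        · exact hBn b hb v h5.1 (by rw [hval v]; omega) hbv
        · obtain ⟨h5, h6⟩ := h5
          subst h5
          omega
    have h4 := Finset.card_le_card h3
    omega
  · have hBQ : B ⊆ V \ Q := by
      intro b hb
      refine Finset.mem_sdiff.2 ⟨hBV hb, fun hbQ => ?_⟩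
      obtain ⟨v, hv, hbv⟩ := Finset.mem_biUnion.1 (hQT hbQ)
      have h6 := Finsupp.mem_support_iff.1 hv
      refine hBn b hb v ?_ (by rw [hval v]; omega) hbv
      rintro rfl
      exact hwT hv
    have h0 : nT w = 0 := by
      by_contra h
      exact hwT (Finsupp.mem_support_iff.2 h)
    by_cases huw : u = w
    · -- the new vertex
      rw [if_pos huw] at hvw
      have h1 : S.dgC B M = 0 := by
        refine dgC_zero_of fun v hv => ?_
        rw [Finset.disjoint_left]
        intro b hbv hb
        have h6 := Finsupp.mem_support_iff.1 hv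
        refine hBn b hb v ?_ (by rw [hval v]; omega) hbv
        rintro rfl
        omega
      have h2 := hM2 B hBQ
      omega
    · rw [if_neg huw] at hvw
      obtain ⟨M', hM', hM''⟩ := exists_s1 (v := w) (M := M) (by omega)
      have h1 : S.dgC B M' = 0 := by
        refine dgC_zero_of fun v hv => ?_
        rw [Finset.disjoint_left]
        intro b hbv hb
        have h6 := Finsupp.mem_support_iff.1 hv
        have h7 : v ≠ w := by
          rintro rfl
          omega
        refine hBn b hb v h7 ?_ hbv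
        rw [hval v, hM', Finsupp.add_apply]
        omega
      have h2 := hM1 B hBQ (by
        rw [Finset.disjoint_left]
        intro b hbu hb
        exact hBn b hb u huw (by rw [hval u, if_pos rfl]; omega) hbu)
      rw [hM', S.dgC_add, S.dgC_single, h1] at h2
      split_ifs at h2 <;> omega

end

/-! ### The induction -/

section

variable {V : Finset Ω} {t : S.T →ₗ[S.K] S.K}

theorem pi0 (hT : S.Top S.K) (hV : 9 ≤ V.card) (ht : Tf S V t) {P : Prop}
    (h3 : P → ∀ w Z, Z ⊆ V → Z.card = 3 → Z ⊆ S.car w → ∀ N : X →₀ ℕ, N.degree + 5 = V.card →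
      N.support ∈ S.fcs (V \ Z) → (∀ C ⊆ V \ Z, C.card ≤ 2 * S.dgC C N) →
      t (S.mo (Finsupp.single w 1 + N)) = 0) :
    ∀ e : ℕ, ∀ n : X →₀ ℕ, n.degree + 4 = V.card → n.support ∈ S.fcs V → V ⊆ S.cr n.support →
      (P ∨ ∀ w, ¬ Ty S w ∅ n) → (∀ C ⊆ V, C.card ≤ 2 * S.dgC C n + e) → t (S.mo n) = 0 := by
  classical
  intro e
  induction e with
  | zero =>
    intro n hn _ _ _ hC
    exact ht.gd n hn fun C hC' => by
      have := hC C hC'
      omega
  | succ e ih =>
    intro n hn hs hcov hP hC
    by_cases hall : ∀ C ⊆ V, C.card ≤ 2 * S.dgC C n + e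
    · exact ih n hn hs hcov hP hall
    push Not at hall
    obtain ⟨C0, hC0, hC0'⟩ := hall
    -- a smallest set of largest excess
    obtain ⟨Q, hQ, hQmin⟩ := Finset.exists_min_image
      (V.powerset.filter fun C => C.card = 2 * S.dgC C n + (e + 1)) Finset.card
      ⟨C0, Finset.mem_filter.2 ⟨Finset.mem_powerset.2 hC0, by
        have := hC C0 hC0
        omega⟩⟩
    have hQV : Q ⊆ V := Finset.mem_powerset.1 (Finset.mem_filter.1 hQ).1
    have hQc : Q.card = 2 * S.dgC Q n + (e + 1) := (Finset.mem_filter.1 hQ).2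
    have hQs : ∀ C ⊆ Q, C ≠ Q → C.card ≤ 2 * S.dgC C n + e := by
      intro C hCQ hne
      by_contra hcon
      have h1 : C.card = 2 * S.dgC C n + (e + 1) := by
        have := hC C (hCQ.trans hQV)
        omega
      have h2 := hQmin C (Finset.mem_filter.2 ⟨Finset.mem_powerset.2 (hCQ.trans hQV), h1⟩)
      exact hne (Finset.eq_of_subset_of_card_le hCQ h2)
    have hVG := Sub.mem_fcs.1 hs
    -- the vertices that meet `Q`
    set nT : X →₀ ℕ := n.filter (fun v => ¬ Disjoint (S.car v) Q) with hnT
    set N : X →₀ ℕ := n.filter (fun v => Disjoint (S.car v) Q) with hN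
    have hsum : nT + N = n := by
      rw [add_comm]
      exact Finsupp.filter_pos_add_filter_neg n _
    have hTs : ∀ v, v ∈ nT.support ↔ v ∈ n.support ∧ ¬ Disjoint (S.car v) Q := by
      intro v
      rw [hnT, Finsupp.support_filter, Finset.mem_filter]
    have hNs : ∀ v, v ∈ N.support ↔ v ∈ n.support ∧ Disjoint (S.car v) Q := by
      intro v
      rw [hN, Finsupp.support_filter, Finset.mem_filter]
    have hTv : ∀ v, ¬ Disjoint (S.car v) Q → nT v = n v := fun v hv =>
      Finsupp.filter_apply_pos _ _ hv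
    have hdTC : ∀ C ⊆ Q, S.dgC C nT = S.dgC C n := by
      intro C hCQ
      have h1 : S.dgC C N = 0 := dgC_zero_of fun v hv => ((hNs v).1 hv).2.mono_right hCQ
      rw [← hsum, S.dgC_add, h1, add_zero]
    have hdT : S.dgC Q nT = nT.degree := dgC_eq_degree fun v hv => ((hTs v).1 hv).2
    have hdQ : S.dgC Q n = nT.degree := by rw [← hdTC Q (Finset.Subset.refl Q), hdT]
    have hdeg : nT.degree + N.degree = n.degree := by rw [← hsum, map_add]
    have hUc : (V \ Q).card + Q.card = V.card := Finset.card_sdiff_add_card_eq_card hQV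
    have hQT : Q ⊆ S.cr nT.support := by
      intro b hb
      obtain ⟨v, hv, hbv⟩ := Finset.mem_biUnion.1 (hcov (hQV hb))
      exact Finset.mem_biUnion.2 ⟨v, (hTs v).2 ⟨hv, fun h => Finset.disjoint_left.1 h hbv hb⟩, hbv⟩
    have hp : 1 ≤ nT.degree := by
      have h1 : 0 < Q.card := by omega
      obtain ⟨b, hb⟩ := Finset.card_pos.1 h1
      obtain ⟨v, hv, -⟩ := Finset.mem_biUnion.1 (hQT hb)
      have h2 := Finset.card_pos.2 ⟨v, hv⟩
      have h3 := card_supp_le nT
      omega
    have hNU : N.support ∈ S.fcs (V \ Q) := by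
      refine Sub.mem_fcs.2 ⟨S.down _ hVG.1 _ fun v hv => ((hNs v).1 hv).1, ?_⟩
      intro b hb
      obtain ⟨v, hv, hbv⟩ := Finset.mem_biUnion.1 hb
      refine Finset.mem_sdiff.2 ⟨hVG.2 (Finset.mem_biUnion.2 ⟨v, ((hNs v).1 hv).1, hbv⟩),
        fun h => Finset.disjoint_left.1 ((hNs v).1 hv).2 hbv h⟩
    have hNg : ∀ C ⊆ V \ Q, C.card ≤ 2 * S.dgC C N := by
      intro C hCU
      have h1 : Disjoint C Q := Finset.disjoint_left.2 fun b hb hbQ =>
        (Finset.mem_sdiff.1 (hCU hb)).2 hbQ
      have h2 := hC (C ∪ Q) (Finset.union_subset (hCU.trans Finset.sdiff_subset) hQV)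
      have h3 : (C ∪ Q).card = C.card + Q.card := Finset.card_union_of_disjoint h1
      have h4 : S.dgC (C ∪ Q) nT ≤ nT.degree := by
        rw [← dgC_eq_degree (S := S) (C := C ∪ Q) (n := nT) fun v hv h =>
          ((hTs v).1 hv).2 (h.mono_right Finset.subset_union_right)]
      have h5 : S.dgC (C ∪ Q) N ≤ S.dgC C N := by
        have h6 := S.dgC_submod C Q N
        have h7 : S.dgC Q N = 0 := dgC_zero_of fun v hv => ((hNs v).1 hv).2
        omega
      have h6 : S.dgC (C ∪ Q) n = S.dgC (C ∪ Q) nT + S.dgC (C ∪ Q) N := by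
        rw [← hsum, S.dgC_add]
      omega
    -- the error terms are zero
    have hnTy : (∀ w, ¬ Ty S w ∅ n) → ∀ w ∈ nT.support,
        ((S.car w ∩ Q) \ S.cr (nT - Finsupp.single w 1).support).card ≤ 2 := by
      intro hty w hw
      by_contra hcon
      refine hty w ⟨((hTs w).1 hw).1, ?_⟩
      rw [Finset.sdiff_empty]
      have h1 : (S.car w ∩ Q) \ S.cr (nT - Finsupp.single w 1).support ⊆
          S.car w \ S.cr (n - Finsupp.single w 1).support := by
        intro b hb
        rw [Finset.mem_sdiff, Finset.mem_inter] at hb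
        rw [Finset.mem_sdiff]
        refine ⟨hb.1.1, fun h => hb.2 ?_⟩
        obtain ⟨v, hv, hbv⟩ := Finset.mem_biUnion.1 h
        refine Finset.mem_biUnion.2 ⟨v, ?_, hbv⟩
        rw [mem_supp_sub] at hv ⊢
        rwa [hTv v fun h' => Finset.disjoint_left.1 h' hbv hb.1.2]
      have h2 := Finset.card_le_card h1
      omega
    have herr : ∀ (M : X →₀ ℕ) (u : X), M.degree + 1 = N.degree → ¬ Disjoint (S.car u) Q →
        (∀ C ⊆ V \ Q, Disjoint (S.car u) C → C.card ≤ 2 * S.dgC C M) →
        (∀ C ⊆ V \ Q, C.card ≤ 2 * S.dgC C M + 1) →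
        t (S.mo (nT + (Finsupp.single u 1 + M))) = 0 := by
      intro M u hM hu hM1 hM2
      have hd' : (nT + (Finsupp.single u 1 + M)).degree + 4 = V.card := by
        rw [map_add, deg_s1]
        omega
      by_cases hs' : (nT + (Finsupp.single u 1 + M)).support ∈ S.fcs V
      · refine ih _ hd' hs' (err_cov hQT hM1) ?_
          (err_ex (fun C hC1 hC2 => by rw [hdTC C hC1]; exact hQs C hC1 hC2)
            (by rw [hdTC Q (Finset.Subset.refl Q)]; omega) hu hM1 hM2)
        rcases hP with hP | hP
        · exact Or.inl hP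
        · exact Or.inr (err_ty hs' hQT (hnTy hP) hM1 hM2)
      · exact ht.face _ hd' hs'
    -- a nonface of the restriction
    have hnf : ∀ (M : X →₀ ℕ) (u : X), M.degree + 1 = N.degree → Disjoint (S.car u) Q →
        M.support ∈ S.fcs (V \ Q) → (Finsupp.single u 1 + M).support ∉ S.fcs (V \ Q) →
        t (S.mo (nT + (Finsupp.single u 1 + M))) = 0 := by
      intro M u hM hu hMs hns
      refine ht.face _ (by
        rw [map_add, deg_s1]
        omega) fun h => hns ?_
      have h1 := Sub.mem_fcs.1 h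
      refine Sub.mem_fcs.2 ⟨S.down _ h1.1 _ fun v hv => mem_supp_addP.2 (Or.inr hv), ?_⟩
      intro b hb
      refine Finset.mem_sdiff.2 ⟨h1.2 (Finset.biUnion_subset_biUnion_of_subset_left S.car
        (fun v hv => mem_supp_addP.2 (Or.inr hv)) hb), fun hbQ => ?_⟩
      obtain ⟨v, hv, hbv⟩ := Finset.mem_biUnion.1 hb
      rw [supp_s1, Finset.mem_insert] at hv
      rcases hv with rfl | hv
      · exact Finset.disjoint_left.1 hu hbv hbQ
      · exact (Finset.mem_sdiff.1 ((Sub.mem_fcs.1 hMs).2
          (Finset.mem_biUnion.2 ⟨v, hv, hbv⟩))).2 hbQ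
    -- the function on the restriction
    by_cases hk : 3 ≤ nT.degree + (e + 1)
    · have hCK : CK S (V \ Q) N.degree fun N' =>
          if N'.support ∈ S.fcs (V \ Q) then t (S.mo (nT + N')) else 0 := by
        refine ⟨fun N' hN' => if_neg hN', ?_, ?_⟩
        · intro M hM hMs c hc hAv
          have hcov' : V.erase c ⊆ S.cr (nT + M).support := by
            intro b hb
            rw [Finset.mem_erase] at hb
            by_cases hbQ : b ∈ Q
            · obtain ⟨v, hv, hbv⟩ := Finset.mem_biUnion.1 (hQT hbQ)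
              exact Finset.mem_biUnion.2 ⟨v, mem_supp_addP.2 (Or.inl hv), hbv⟩
            · have h1 := hAv {b} (Finset.singleton_subset_iff.2 (Finset.mem_sdiff.2 ⟨hb.2, hbQ⟩))
                (fun h => hb.1 (Finset.mem_singleton.1 h).symm)
              rw [Finset.card_singleton] at h1
              obtain ⟨v, hv, hbv⟩ := Finset.mem_biUnion.1
                (mem_cr_of_dgC (S := S) (b := b) (n := M) (by omega))
              exact Finset.mem_biUnion.2 ⟨v, mem_supp_addP.2 (Or.inr hv), hbv⟩
          have h1 := ht.th c (Finset.mem_sdiff.1 hc).1 (nT + M) (by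
            rw [map_add]
            omega) hcov'
          rw [th_apply] at h1
          refine Eq.trans (Finset.sum_congr rfl fun u _ => ?_) h1
          by_cases hcu : c ∈ S.car u
          · congr 1
            rw [add_left_comm (Finsupp.single u 1) nT M]
            beta_reduce
            by_cases hf : (Finsupp.single u 1 + M).support ∈ S.fcs (V \ Q)
            · rw [if_pos hf]
            · rw [if_neg hf]
              by_cases hu : Disjoint (S.car u) Q
              · exact (hnf M u hM hu hMs hf).symm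
              · refine (herr M u hM hu (fun C hCU hd => hAv C hCU fun h =>
                  Finset.disjoint_left.1 hd hcu h) fun C hCU => ?_).symm
                have h5 := hAv (C.erase c) ((Finset.erase_subset c C).trans hCU)
                  (Finset.notMem_erase c C)
                have h6 := dgC_mono (S := S) (Finset.erase_subset c C) M
                have h7 := Finset.pred_card_le_card_erase (s := C) (a := c)
                omega
          · rw [S.a_eq_zero hcu, zero_mul, zero_mul]
        · intro hd M hM hMs hg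
          have hcov' : V ⊆ S.cr (nT + M).support := by
            intro b hb
            by_cases hbQ : b ∈ Q
            · obtain ⟨v, hv, hbv⟩ := Finset.mem_biUnion.1 (hQT hbQ)
              exact Finset.mem_biUnion.2 ⟨v, mem_supp_addP.2 (Or.inl hv), hbv⟩
            · have h1 := hg {b} (Finset.singleton_subset_iff.2 (Finset.mem_sdiff.2 ⟨hb, hbQ⟩))
              rw [Finset.card_singleton] at h1
              obtain ⟨v, hv, hbv⟩ := Finset.mem_biUnion.1
                (mem_cr_of_dgC (S := S) (b := b) (n := M) (by omega))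
              exact Finset.mem_biUnion.2 ⟨v, mem_supp_addP.2 (Or.inr hv), hbv⟩
          have h1 := ht.lam (nT + M) (by
            rw [map_add]
            omega) hcov'
          rw [lam_apply, Finset.sum_filter] at h1
          refine Eq.trans (Finset.sum_congr rfl fun u _ => ?_) h1
          rw [add_left_comm (Finsupp.single u 1) nT M]
          by_cases hf : (Finsupp.single u 1 + M).support ∈ S.fcs (V \ Q)
          · have hu : S.car u ⊆ V := by
              refine (Finset.subset_biUnion_of_mem S.car ?_).trans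
                ((Sub.mem_fcs.1 hf).2.trans Finset.sdiff_subset)
              rw [supp_s1]
              exact Finset.mem_insert_self _ _
            rw [if_pos hf, if_pos hu]
          · rw [if_neg hf]
            by_cases hu : Disjoint (S.car u) Q
            · rw [hnf M u hM hu hMs hf]
              split_ifs <;> rfl
            · rw [herr M u hM hu (fun C hCU _ => hg C hCU) fun C hCU => (hg C hCU).trans
                (Nat.le_succ _)]
              split_ifs <;> rfl
      have h4 := hCK.zero hT (by omega) (by omega) N rfl hNg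
      rw [if_pos hNU, hsum] at h4
      exact h4
    · -- three coordinates which are covered by one vertex only
      have hp1 : nT.degree = 1 := by omega
      have hQ3 : Q.card = 3 := by omega
      obtain ⟨b, hb⟩ := Finset.card_pos.1 (show 0 < Q.card by omega)
      obtain ⟨w, hw, hbw⟩ := Finset.mem_biUnion.1 (hQT hb)
      obtain ⟨M', hM', -⟩ := exists_s1 (v := w) (M := nT) (by
        have := Finsupp.mem_support_iff.1 hw
        omega)
      have hM0 : M' = 0 := by
        rw [← Finsupp.degree_eq_zero_iff]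
        have h1 : nT.degree = M'.degree + 1 := by rw [hM', deg_s1]
        omega
      rw [hM0, add_zero] at hM'
      have hQw : Q ⊆ S.car w := by
        intro c hc
        obtain ⟨v, hv, hcv⟩ := Finset.mem_biUnion.1 (hQT hc)
        rw [hM', Finsupp.support_single_ne_zero _ one_ne_zero, Finset.mem_singleton] at hv
        rwa [hv] at hcv
      rcases hP with hP | hP
      · have h5 := h3 hP w Q hQV hQ3 hQw N (by omega) hNU hNg
        rwa [← hM', hsum] at h5
      · exfalso
        refine hP w ⟨((hTs w).1 hw).1, ?_⟩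
        rw [Finset.sdiff_empty, ← hQ3]
        refine Finset.card_le_card fun c hc => Finset.mem_sdiff.2 ⟨hQw hc, fun h => ?_⟩
        have h5 : n - Finsupp.single w 1 = N := by
          rw [← hsum, hM', add_tsub_cancel_left]
        rw [h5] at h
        exact (Finset.mem_sdiff.1 ((Sub.mem_fcs.1 hNU).2 h)).2 hc

theorem pi1 (hT : S.Top S.K) (hV : 9 ≤ V.card) (ht : Tf S V t) :
    ∀ n : X →₀ ℕ, n.degree + 4 = V.card → (n.support ∈ S.fcs V → V ⊆ S.cr n.support) →
      (∀ w, ¬ Ty S w ∅ n) → t (S.mo n) = 0 := by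
  intro n hn hcov hty
  by_cases hs : n.support ∈ S.fcs V
  · exact pi0 hT hV ht (P := False) False.elim V.card n hn hs (hcov hs) (Or.inr hty)
      fun C hC => (Finset.card_le_card hC).trans (Nat.le_add_left _ _)
  · exact ht.face n hn hs

theorem pi2 (hT : S.Top S.K) (hV : 9 ≤ V.card) (ht : Tf S V t)
    (h3 : ∀ w Z, Z ⊆ V → Z.card = 3 → Z ⊆ S.car w → ∀ N : X →₀ ℕ, N.degree + 5 = V.card →
      N.support ∈ S.fcs (V \ Z) → (∀ C ⊆ V \ Z, C.card ≤ 2 * S.dgC C N) →
      t (S.mo (Finsupp.single w 1 + N)) = 0) :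
    ∀ n : X →₀ ℕ, n.degree + 4 = V.card → (n.support ∈ S.fcs V → V ⊆ S.cr n.support) →
      t (S.mo n) = 0 := by
  intro n hn hcov
  by_cases hs : n.support ∈ S.fcs V
  · exact pi0 hT hV ht (P := True) (fun _ => h3) V.card n hn hs (hcov hs) (Or.inl trivial)
      fun C hC => (Finset.card_le_card hC).trans (Nat.le_add_left _ _)
  · exact ht.face n hn hs

end

end Pool.Agent.LH4
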