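import Pool.Agent.LocH.GInd

/-!
# (RED) The reduction of a good monomial of degree `W.card - 2` with a multiple vertex

For a good monomial `N` of degree `W.card - 2`, whose support is a face of the restriction to `W`, and
which has a vertex of multiplicity at least two, either there are a vertex `v` of multiplicity at least two,
a set `B` of coordinates and a form `ω` on `B` with `ω(v) = 1` that vanishes at the other vertices of the
support, such that the pair `(N / v, c)` is available for every `c ∈ B`; or `N = x_v ^ 2 x_R`, where `R` is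
a facet of the restriction to `W \ T`, `T` has four elements and is contained in the carrier of `v`.
-/

set_option autoImplicit false

open Finset

namespace Pool.Agent.LocH.Sub

variable {X Ω : Type} [Fintype X] [DecidableEq X] [Fintype Ω] [DecidableEq Ω] (S : Sub X Ω)

/-! ### The degree in the vertices that meet `C` -/

omit [Fintype Ω] in
theorem dgC_add (C : Finset Ω) (n m : X →₀ ℕ) : S.dgC C (n + m) = S.dgC C n + S.dgC C m := by
  unfold dgC
  rw [← Finset.sum_add_distrib]
  rfl

omit [Fintype Ω] in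
theorem dgC_single (C : Finset Ω) (v : X) (k : ℕ) :
    S.dgC C (Finsupp.single v k) = if Disjoint (S.car v) C then 0 else k := by
  unfold dgC
  simp only [Finsupp.single_apply]
  rw [Finset.sum_ite_eq]
  by_cases h : Disjoint (S.car v) C
  · rw [if_pos h, if_neg]
    simp [h]
  · rw [if_neg h, if_pos]
    simp [h]

omit [Fintype Ω] in
/-- The degree in the vertices that meet `C` is submodular. -/
theorem dgC_submod (C C' : Finset Ω) (n : X →₀ ℕ) :
    S.dgC (C ∪ C') n + S.dgC (C ∩ C') n ≤ S.dgC C n + S.dgC C' n := by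
  unfold dgC
  simp only [Finset.sum_filter]
  rw [← Finset.sum_add_distrib, ← Finset.sum_add_distrib]
  apply Finset.sum_le_sum
  intro v _
  by_cases h1 : Disjoint (S.car v) C <;> by_cases h2 : Disjoint (S.car v) C'
  · have h3 : Disjoint (S.car v) (C ∪ C') := Finset.disjoint_union_right.2 ⟨h1, h2⟩
    have h4 : Disjoint (S.car v) (C ∩ C') := h1.mono_right Finset.inter_subset_left
    simp [h1, h2, h3, h4]
  · have h4 : Disjoint (S.car v) (C ∩ C') := h1.mono_right Finset.inter_subset_left
    have h3 : ¬ Disjoint (S.car v) (C ∪ C') := fun h => h2 (Finset.disjoint_union_right.1 h).2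
    simp [h1, h2, h3, h4]
  · have h4 : Disjoint (S.car v) (C ∩ C') := h2.mono_right Finset.inter_subset_right
    have h3 : ¬ Disjoint (S.car v) (C ∪ C') := fun h => h1 (Finset.disjoint_union_right.1 h).1
    simp [h1, h2, h3, h4]
  · rw [if_pos h1, if_pos h2]
    split_ifs <;> omega

omit [Fintype Ω] in
/-- Vertices that meet `B` and not `C ⊆ B`. -/
theorem dgC_add_card_le {B C : Finset Ω} (hCB : C ⊆ B) {n : X →₀ ℕ} {s : Finset X}
    (h1 : ∀ u ∈ s, ¬ Disjoint (S.car u) B) (h2 : ∀ u ∈ s, Disjoint (S.car u) C)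
    (h3 : ∀ u ∈ s, 1 ≤ n u) : S.dgC C n + s.card ≤ S.dgC B n := by
  unfold dgC
  have h4 : s.card ≤ ∑ u ∈ s, n u := by
    calc s.card = ∑ u ∈ s, 1 := (Finset.card_eq_sum_ones s)
      _ ≤ ∑ u ∈ s, n u := Finset.sum_le_sum h3
  have h5 : Disjoint (univ.filter (fun v => ¬ Disjoint (S.car v) C)) s := by
    rw [Finset.disjoint_left]
    intro u hu hus
    exact (Finset.mem_filter.1 hu).2 (h2 u hus)
  calc ∑ v ∈ univ.filter (fun v => ¬ Disjoint (S.car v) C), n v + s.card
      ≤ ∑ v ∈ univ.filter (fun v => ¬ Disjoint (S.car v) C), n v + ∑ u ∈ s, n u := by omega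
    _ = ∑ v ∈ univ.filter (fun v => ¬ Disjoint (S.car v) C) ∪ s, n v :=
      (Finset.sum_union h5).symm
    _ ≤ _ := by
      apply Finset.sum_le_sum_of_subset
      intro u hu
      rw [Finset.mem_union] at hu
      rw [Finset.mem_filter]
      refine ⟨Finset.mem_univ _, ?_⟩
      rcases hu with hu | hu
      · exact fun h => (Finset.mem_filter.1 hu).2 (h.mono_right hCB)
      · exact h1 u hu

omit [Fintype Ω] in
theorem le_dgC {C : Finset Ω} {v : X} (h : ¬ Disjoint (S.car v) C) (n : X →₀ ℕ) :
    n v ≤ S.dgC C n := by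
  unfold dgC
  exact Finset.single_le_sum (f := fun v => n v) (fun _ _ => Nat.zero_le _)
    (Finset.mem_filter.2 ⟨Finset.mem_univ _, h⟩)

omit [Fintype Ω] in
theorem exists_of_dgC_pos {C : Finset Ω} {n : X →₀ ℕ} (h : 0 < S.dgC C n) :
    ∃ v ∈ n.support, ¬ Disjoint (S.car v) C := by
  unfold dgC at h
  obtain ⟨v, hv, hv'⟩ := Finset.exists_ne_zero_of_sum_ne_zero h.ne'
  exact ⟨v, Finsupp.mem_support_iff.2 hv', (Finset.mem_filter.1 hv).2⟩

/-! ### Forms with prescribed values -/

omit [Fintype X] [Fintype Ω] in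
private theorem red_lf {F : Finset X} {A : Finset Ω} {f : {v // v ∈ F} → Ω}
    (hf : Function.Injective f) (hA : ∀ w, f w ∈ A) {ω : Ω → S.K}
    (h0 : ∀ c ∈ A, (∀ w, f w ≠ c) → ω c = 0) (u : X) :
    S.lf A ω u = ∑ w, S.a u (f w) * ω (f w) := by
  have h1 : ∑ c ∈ Finset.univ.image f, S.a u c * ω c = ∑ w, S.a u (f w) * ω (f w) :=
    Finset.sum_image fun a _ b _ hab => hf hab
  rw [← h1, lf]
  symm
  have h2 : ∀ c, S.a u c * ω c = ω c * S.a u c := fun c => mul_comm _ _
  simp only [h2]
  apply Finset.sum_subset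
  · intro c hc
    obtain ⟨w, -, rfl⟩ := Finset.mem_image.1 hc
    exact hA w
  · intro c hc hc'
    rw [h0 c hc, zero_mul]
    intro w hw
    exact hc' (Finset.mem_image.2 ⟨w, Finset.mem_univ _, hw⟩)

/-- Dual forms on `A` of a set of vertices with a system of distinct representatives in `A`. -/
theorem form_of_inj {A : Finset Ω} {F : Finset X} {f : {v // v ∈ F} → Ω}
    (hf : Function.Injective f) (hc : ∀ w : {v // v ∈ F}, f w ∈ S.car w) (hA : ∀ w, f w ∈ A)
    {v : X} (hv : v ∈ F) :
    ∃ ω : Ω → S.K, S.lf A ω v = 1 ∧ ∀ u ∈ F, u ≠ v → S.lf A ω u = 0 := by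
  classical
  set M : Matrix {v // v ∈ F} {v // v ∈ F} S.K := Matrix.of fun u v => S.a u (f v) with hM
  have hMu : IsUnit M.det := (S.minor_ne hf hc).isUnit
  have hMM : M * M⁻¹ = 1 := Matrix.mul_nonsing_inv M hMu
  let ω : Ω → S.K := fun c => if h : ∃ w, f w = c then M⁻¹ h.choose ⟨v, hv⟩ else 0
  have hω : ∀ w, ω (f w) = M⁻¹ w ⟨v, hv⟩ := by
    intro w
    have h : ∃ w', f w' = f w := ⟨w, rfl⟩
    change (if h : ∃ w', f w' = f w then M⁻¹ h.choose ⟨v, hv⟩ else 0) = _
    rw [dif_pos h]
    exact congrArg (fun w' => M⁻¹ w' ⟨v, hv⟩) (hf h.choose_spec)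
  have h0 : ∀ c ∈ A, (∀ w, f w ≠ c) → ω c = 0 := by
    intro c _ hcw
    change (if h : ∃ w', f w' = c then M⁻¹ h.choose ⟨v, hv⟩ else 0) = _
    rw [dif_neg]
    rintro ⟨w, hw⟩
    exact hcw w hw
  have h1 : ∀ u (hu : u ∈ F), S.lf A ω u = if u = v then 1 else 0 := by
    intro u hu
    rw [S.red_lf hf hA h0 u]
    have h2 := congrFun (congrFun hMM ⟨u, hu⟩) ⟨v, hv⟩
    rw [Matrix.mul_apply, Matrix.one_apply] at h2
    have h3 : ∀ w, S.a u (f w) * ω (f w) = M ⟨u, hu⟩ w * M⁻¹ w ⟨v, hv⟩ := by
      intro w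
      rw [hω]
      rfl
    rw [Finset.sum_congr rfl fun w _ => h3 w, h2]
    simp only [Subtype.mk.injEq]
  refine ⟨ω, ?_, ?_⟩
  · rw [h1 v hv, if_pos rfl]
  · intro u hu huv
    rw [h1 u hu, if_neg huv]

omit [Fintype X] [Fintype Ω] in
theorem lf_disj {B : Finset Ω} {u : X} (h : Disjoint (S.car u) B) (ω : Ω → S.K) :
    S.lf B ω u = 0 := by
  unfold lf
  apply Finset.sum_eq_zero
  intro c hc
  have hcu : c ∉ S.car u := fun hcu => (Finset.disjoint_left.1 h) hcu hc
  have : S.a u c = 0 := by
    unfold a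
    exact dif_neg hcu
  rw [this, mul_zero]

/-! ### The two cases -/

/-- The first case: a vertex of multiplicity at least two that meets no tight set. -/
theorem red_one {W : Finset Ω} {N : X →₀ ℕ} (hs : N.support ∈ S.fcs W) (hg : S.Good W N) {v : X}
    (hv : 2 ≤ N v) (hd : ∀ C ⊆ W, C.card = 2 * S.dgC C N → Disjoint (S.car v) C) :
    ∃ B ⊆ W, ∃ ω : Ω → S.K, S.lf B ω v = 1 ∧ (∀ u ∈ N.support, u ≠ v → S.lf B ω u = 0) ∧
      ∀ c ∈ B, ∀ C ⊆ W, c ∉ C → C.card ≤ 2 * S.dgC C (N - Finsupp.single v 1) := by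
  classical
  set M : X →₀ ℕ := N - Finsupp.single v 1 with hM
  have hNM : N = M + Finsupp.single v 1 := by
    rw [hM, tsub_add_cancel_of_le]
    rw [Finsupp.single_le_iff]
    omega
  have hdg : ∀ C, S.dgC C N = S.dgC C M + if Disjoint (S.car v) C then 0 else 1 := by
    intro C
    rw [← dgC_single, ← dgC_add, ← hNM]
  have hvs : v ∈ N.support := Finsupp.mem_support_iff.2 (by omega)
  have hle : ∀ C ⊆ W, C.card ≤ 2 * S.dgC C M + 1 := by
    intro C hC
    have h1 := hg C hC
    have h2 := hdg C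
    by_cases h : Disjoint (S.car v) C
    · rw [if_pos h] at h2
      omega
    · rw [if_neg h] at h2
      have h3 : C.card ≠ 2 * S.dgC C N := fun h3 => h (hd C hC h3)
      omega
  by_cases hB : ∃ B ⊆ W, 2 * S.dgC B M < B.card
  · set 𝔹 : Finset (Finset Ω) := W.powerset.filter fun B => 2 * S.dgC B M < B.card with h𝔹
    have hne : 𝔹.Nonempty := by
      obtain ⟨B, hBW, hB⟩ := hB
      exact ⟨B, Finset.mem_filter.2 ⟨Finset.mem_powerset.2 hBW, hB⟩⟩
    obtain ⟨B, hB𝔹, hmin⟩ := Finset.exists_min_image 𝔹 Finset.card hne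
    have hBW : B ⊆ W := Finset.mem_powerset.1 (Finset.mem_filter.1 hB𝔹).1
    have hBc : 2 * S.dgC B M < B.card := (Finset.mem_filter.1 hB𝔹).2
    have hmin' : ∀ C ⊆ W, C.card < B.card → C.card ≤ 2 * S.dgC C M := by
      intro C hC hlt
      by_contra hcon
      push Not at hcon
      have := hmin C (Finset.mem_filter.2 ⟨Finset.mem_powerset.2 hC, hcon⟩)
      omega
    have hvB : ¬ Disjoint (S.car v) B := by
      intro h
      have h1 := hg B hBW
      have h2 := hdg B
      rw [if_pos h] at h2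
      omega
    -- the representatives
    set F : Finset X := N.support.filter fun u => ¬ Disjoint (S.car u) B with hF
    have hMu : ∀ u ∈ F, 1 ≤ M u := by
      intro u hu
      have h1 := Finsupp.mem_support_iff.1 (Finset.mem_filter.1 hu).1
      have h2 : N u = M u + Finsupp.single v 1 u := by
        conv_lhs => rw [hNM]
        rfl
      by_cases huv : u = v
      · subst huv
        rw [Finsupp.single_eq_same] at h2
        omega
      · rw [Finsupp.single_apply, if_neg (fun h => huv h.symm)] at h2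
        omega
    have hall : ∀ s : Finset {u // u ∈ F}, s.card ≤ (s.biUnion fun u => S.car u ∩ B).card := by
      intro s
      rcases s.eq_empty_or_nonempty with rfl | hsn
      · simp
      set s' : Finset X := s.map (Function.Embedding.subtype _) with hs'
      have hcard : s'.card = s.card := Finset.card_map _
      have hs'F : ∀ u ∈ s', u ∈ F := by
        intro u hu
        rw [hs', Finset.mem_map] at hu
        obtain ⟨w, -, rfl⟩ := hu
        exact w.2
      set E : Finset Ω := s.biUnion fun u => S.car u ∩ B with hE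
      have hEB : E ⊆ B := Finset.biUnion_subset.2 fun u _ => Finset.inter_subset_right
      have hEne : E.Nonempty := by
        obtain ⟨u, hu⟩ := hsn
        have h1 := (Finset.mem_filter.1 u.2).2
        rw [Finset.not_disjoint_iff] at h1
        obtain ⟨c, hc1, hc2⟩ := h1
        exact ⟨c, Finset.mem_biUnion.2 ⟨u, hu, Finset.mem_inter.2 ⟨hc1, hc2⟩⟩⟩
      have hcd : (B \ E).card + E.card = B.card := Finset.card_sdiff_add_card_eq_card hEB
      have hE0 : 0 < E.card := hEne.card_pos
      have h1 := hmin' (B \ E) (Finset.sdiff_subset.trans hBW) (by omega)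
      have h2 := S.dgC_add_card_le (B := B) (C := B \ E) Finset.sdiff_subset (n := M) (s := s')
        (fun u hu => (Finset.mem_filter.1 (hs'F u hu)).2)
        (fun u hu => by
          rw [Finset.disjoint_left]
          intro c hc hcB
          rw [Finset.mem_sdiff] at hcB
          apply hcB.2
          rw [hs', Finset.mem_map] at hu
          obtain ⟨w, hw, rfl⟩ := hu
          exact Finset.mem_biUnion.2 ⟨w, hw, Finset.mem_inter.2 ⟨hc, hcB.1⟩⟩)
        (fun u hu => hMu u (hs'F u hu))
      omega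
    obtain ⟨f, hf, hfc⟩ := (Finset.all_card_le_biUnion_card_iff_exists_injective
      (fun u : {u // u ∈ F} => S.car u ∩ B)).1 hall
    obtain ⟨ω, hω1, hω2⟩ := S.form_of_inj (A := B) hf
      (fun w => (Finset.mem_inter.1 (hfc w)).1) (fun w => (Finset.mem_inter.1 (hfc w)).2)
      (v := v) (Finset.mem_filter.2 ⟨hvs, hvB⟩)
    refine ⟨B, hBW, ω, hω1, ?_, ?_⟩
    · intro u hu huv
      by_cases huB : Disjoint (S.car u) B
      · exact S.lf_disj huB ω
      · exact hω2 u (Finset.mem_filter.2 ⟨hu, huB⟩) huv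
    · intro c hcB C hCW hcC
      by_contra hcon
      push Not at hcon
      have h1 : (C ∩ B).card < B.card := by
        apply Finset.card_lt_card
        refine ⟨Finset.inter_subset_right, fun h => hcC (Finset.mem_inter.1 (h hcB)).1⟩
      have h2 := hmin' (C ∩ B) (Finset.inter_subset_left.trans hCW) h1
      have h3 := hle (C ∪ B) (Finset.union_subset hCW hBW)
      have h4 := S.dgC_submod C B M
      have h5 := Finset.card_union_add_card_inter C B
      have h6 := hle C hCW
      have h7 := hle B hBW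
      omega
  · push Not at hB
    obtain ⟨ω, h1, h2⟩ := S.exists_form hs hvs
    exact ⟨W, Finset.Subset.refl _, ω, h1, h2, fun c _ C hC _ => hB C hC⟩

/-- The second case: every vertex of multiplicity at least two meets a tight set. -/
theorem red_two {W : Finset Ω} {N : X →₀ ℕ} (hN : N.degree + 2 = W.card)
    (hs : N.support ∈ S.fcs W) (hg : S.Good W N) (hnr : ∃ v, 2 ≤ N v)
    (hd : ∀ v, 2 ≤ N v → ∃ C ⊆ W, C.card = 2 * S.dgC C N ∧ ¬ Disjoint (S.car v) C) :
    ∃ (v : X) (R : Finset X) (T : Finset Ω), T ⊆ W ∧ T.card = 4 ∧ T ⊆ S.car v ∧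
      R ∈ S.fac (W \ T) ∧ v ∉ R ∧ N = ch R + Finsupp.single v 2 := by
  classical
  -- the largest tight set
  set 𝔗 : Finset (Finset Ω) := W.powerset.filter fun C => C.card = 2 * S.dgC C N with h𝔗
  have hne : 𝔗.Nonempty := by
    refine ⟨∅, Finset.mem_filter.2 ⟨Finset.mem_powerset.2 (Finset.empty_subset _), ?_⟩⟩
    have : S.dgC ∅ N = 0 := by
      unfold dgC
      simp
    rw [this]
    rfl
  obtain ⟨T, hT𝔗, hmax⟩ := Finset.exists_max_image 𝔗 Finset.card hne
  have hTW : T ⊆ W := Finset.mem_powerset.1 (Finset.mem_filter.1 hT𝔗).1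
  have hTc : T.card = 2 * S.dgC T N := (Finset.mem_filter.1 hT𝔗).2
  have hsub : ∀ C ⊆ W, C.card = 2 * S.dgC C N → C ⊆ T := by
    intro C hCW hC
    have h1 := S.dgC_submod C T N
    have h2 := Finset.card_union_add_card_inter C T
    have h3 := hg (C ∪ T) (Finset.union_subset hCW hTW)
    have h4 := hg (C ∩ T) (Finset.inter_subset_left.trans hCW)
    have h5 : (C ∪ T).card = 2 * S.dgC (C ∪ T) N := by omega
    have h6 := hmax (C ∪ T) (Finset.mem_filter.2
      ⟨Finset.mem_powerset.2 (Finset.union_subset hCW hTW), h5⟩)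
    have h7 : T = C ∪ T := Finset.eq_of_subset_of_card_le Finset.subset_union_right h6
    rw [h7]
    exact Finset.subset_union_left
  have hmeet : ∀ v, 2 ≤ N v → ¬ Disjoint (S.car v) T := by
    intro v hv h
    obtain ⟨C, hCW, hC, hvC⟩ := hd v hv
    exact hvC (h.mono_right (hsub C hCW hC))
  obtain ⟨v, hv⟩ := hnr
  have hvT := hmeet v hv
  set R : Finset X := N.support.filter fun u => Disjoint (S.car u) T with hR
  have hsG : N.support ∈ S.Gam := (Finset.mem_filter.1 hs).1
  have hsW : S.cr N.support ⊆ W := (Finset.mem_filter.1 hs).2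
  have hRG : R ∈ S.Gam := S.down _ hsG _ (Finset.filter_subset _ _)
  have hRc : S.cr R ⊆ W \ T := by
    intro c hc
    obtain ⟨u, hu, hcu⟩ := Finset.mem_biUnion.1 hc
    rw [hR, Finset.mem_filter] at hu
    rw [Finset.mem_sdiff]
    exact ⟨hsW (Finset.mem_biUnion.2 ⟨u, hu.1, hcu⟩), fun hcT => Finset.disjoint_left.1 hu.2 hcu hcT⟩
  have hR1 : ∀ u ∈ R, N u = 1 := by
    intro u hu
    rw [hR, Finset.mem_filter] at hu
    have h1 := Finsupp.mem_support_iff.1 hu.1
    by_contra hcon
    exact hmeet u (by omega) hu.2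
  -- the degree
  have hdeg : N.degree = S.dgC T N + R.card := by
    have h1 : ∑ u ∈ univ.filter (fun u => Disjoint (S.car u) T), N u = R.card := by
      rw [Finset.card_eq_sum_ones, hR]
      symm
      rw [← Finset.sum_congr rfl hR1]
      apply Finset.sum_subset
      · intro u hu
        rw [Finset.mem_filter] at hu ⊢
        exact ⟨Finset.mem_univ _, hu.2⟩
      · intro u hu huR
        by_contra hcon
        apply huR
        rw [Finset.mem_filter] at hu ⊢
        exact ⟨Finsupp.mem_support_iff.2 hcon, hu.2⟩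
    rw [Finsupp.degree_eq_sum, ← h1]
    unfold dgC
    rw [add_comm]
    exact (Finset.sum_filter_add_sum_filter_not univ (fun u => Disjoint (S.car u) T) _).symm
  have hcW : (W \ T).card + T.card = W.card := Finset.card_sdiff_add_card_eq_card hTW
  have hRle : R.card ≤ (S.cr R).card := S.card_le _ hRG
  have hRle' : (S.cr R).card ≤ (W \ T).card := Finset.card_le_card hRc
  have hvle := S.le_dgC hvT N
  have hq : S.dgC T N = 2 := by omega
  have hNv : N v = 2 := by omega
  have hcrR : S.cr R = W \ T := Finset.eq_of_subset_of_card_le hRc (by omega)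
  -- only `v` meets `T`
  have honly : ∀ u ∈ N.support, ¬ Disjoint (S.car u) T → u = v := by
    intro u hu huT
    by_contra huv
    have h1 := Finsupp.mem_support_iff.1 hu
    have h2 : N v + N u ≤ S.dgC T N := by
      unfold dgC
      have h3 : ({v, u} : Finset X) ⊆ univ.filter (fun v => ¬ Disjoint (S.car v) T) := by
        intro w hw
        rw [Finset.mem_insert, Finset.mem_singleton] at hw
        rw [Finset.mem_filter]
        refine ⟨Finset.mem_univ _, ?_⟩
        rcases hw with rfl | rfl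
        · exact hvT
        · exact huT
      have h4 := Finset.sum_le_sum_of_subset (f := fun w => N w) h3
      rw [Finset.sum_pair (fun h => huv h.symm)] at h4
      exact h4
    omega
  have hvR : v ∉ R := fun h => hvT (Finset.mem_filter.1 h).2
  refine ⟨v, R, T, hTW, by omega, ?_, ?_, hvR, ?_⟩
  · intro c hcT
    have h1 := hg {c} (Finset.singleton_subset_iff.2 (hTW hcT))
    rw [Finset.card_singleton] at h1
    obtain ⟨u, hu, huc⟩ := S.exists_of_dgC_pos (C := {c}) (n := N) (by omega)
    rw [Finset.disjoint_singleton_right, not_not] at huc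
    have huT : ¬ Disjoint (S.car u) T := fun h => Finset.disjoint_left.1 h huc hcT
    rw [← honly u hu huT]
    exact huc
  · rw [fac, st, Finset.mem_filter]
    exact ⟨hRG, Finset.empty_subset _, hcrR, by omega⟩
  · ext u
    rw [Finsupp.add_apply, Finsupp.single_apply]
    have hch : (ch R : X →₀ ℕ) u = if u ∈ R then 1 else 0 := by
      unfold ch
      rw [Finsupp.finsetSum_apply]
      simp only [Finsupp.single_apply]
      exact Finset.sum_ite_eq' R u fun _ => 1
    rw [hch]
    by_cases huv : u = v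
    · subst huv
      rw [if_neg hvR, if_pos rfl, hNv]
    · have hvu : ¬ v = u := fun h => huv h.symm
      by_cases huR : u ∈ R
      · rw [if_pos huR, if_neg hvu, hR1 u huR, add_zero]
      · rw [if_neg huR, if_neg hvu]
        by_contra hcon
        have hus : u ∈ N.support := Finsupp.mem_support_iff.2 hcon
        apply huv
        apply honly u hus
        intro h
        exact huR (Finset.mem_filter.2 ⟨hus, h⟩)

/-- **(RED)**. The reduction of a good monomial with a multiple vertex. -/
theorem red {W : Finset Ω} {N : X →₀ ℕ} (hN : N.degree + 2 = W.card)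
    (hs : N.support ∈ S.fcs W) (hg : S.Good W N) (hnr : ∃ v, 2 ≤ N v) :
    (∃ v, 2 ≤ N v ∧ ∃ B ⊆ W, ∃ ω : Ω → S.K, S.lf B ω v = 1 ∧
      (∀ u ∈ N.support, u ≠ v → S.lf B ω u = 0) ∧
      ∀ c ∈ B, ∀ C ⊆ W, c ∉ C → C.card ≤ 2 * S.dgC C (N - Finsupp.single v 1)) ∨
    (∃ (v : X) (R : Finset X) (T : Finset Ω), T ⊆ W ∧ T.card = 4 ∧ T ⊆ S.car v ∧
      R ∈ S.fac (W \ T) ∧ v ∉ R ∧ N = ch R + Finsupp.single v 2) := by
  by_cases h : ∃ v, 2 ≤ N v ∧ ∀ C ⊆ W, C.card = 2 * S.dgC C N → Disjoint (S.car v) C
  · obtain ⟨v, hv, hd⟩ := h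
    exact Or.inl ⟨v, hv, S.red_one hs hg hv hd⟩
  · push Not at h
    exact Or.inr (S.red_two hN hs hg hnr h)

end Pool.Agent.LocH.Sub
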