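import Mathlib

/-!
# The square functional of a function on monomials (characteristic two)

`sq a l α s = ∑_I a_I α (√(x_I s)) ^ 2`, the sum over all functions `I` from the list `l` to the vertices.
-/

set_option autoImplicit false

open Finset

namespace Pool.Agent.LH4

variable {X Ω K : Type}

/-- `α (√m)`, zero if `m` is not a square. -/
noncomputable def rt [Field K] (α : (X →₀ ℕ) → K) (m : X →₀ ℕ) : K :=
  open Classical in if h : ∃ n : X →₀ ℕ, m = 2 • n then α h.choose else 0

theorem two_inj {n m : X →₀ ℕ} (h : 2 • n = 2 • m) : n = m := by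
  ext v
  have h1 := DFunLike.congr_fun h v
  rw [Finsupp.smul_apply, Finsupp.smul_apply, smul_eq_mul, smul_eq_mul] at h1
  omega

section rt

variable [Field K]

theorem rt_two (α : (X →₀ ℕ) → K) (n : X →₀ ℕ) : rt α (2 • n) = α n := by
  have h : ∃ k : X →₀ ℕ, 2 • n = 2 • k := ⟨n, rfl⟩
  rw [rt, dif_pos h, two_inj h.choose_spec.symm]

theorem rt_eq {α : (X →₀ ℕ) → K} {m n : X →₀ ℕ} (h : m = 2 • n) : rt α m = α n := by
  rw [h, rt_two]

theorem rt_non {α : (X →₀ ℕ) → K} {m : X →₀ ℕ} (h : ∀ n : X →₀ ℕ, m ≠ 2 • n) : rt α m = 0 := by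
  rw [rt, dif_neg]
  rintro ⟨n, hn⟩
  exact h n hn

theorem rt_add (α β : (X →₀ ℕ) → K) (m : X →₀ ℕ) :
    rt (fun N => α N + β N) m = rt α m + rt β m := by
  by_cases h : ∃ n : X →₀ ℕ, m = 2 • n
  · obtain ⟨n, rfl⟩ := h
    rw [rt_two, rt_two, rt_two]
  · push Not at h
    rw [rt_non h, rt_non h, rt_non h, add_zero]

theorem rt_zero (m : X →₀ ℕ) : rt (fun _ => (0 : K)) m = 0 := by
  by_cases h : ∃ n : X →₀ ℕ, m = 2 • n
  · obtain ⟨n, rfl⟩ := h
    rw [rt_two]
  · push Not at h
    rw [rt_non h]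

theorem rt_smul (k : K) (α : (X →₀ ℕ) → K) (m : X →₀ ℕ) :
    rt (fun N => k * α N) m = k * rt α m := by
  by_cases h : ∃ n : X →₀ ℕ, m = 2 • n
  · obtain ⟨n, rfl⟩ := h
    rw [rt_two, rt_two]
  · push Not at h
    rw [rt_non h, rt_non h, mul_zero]

/-- A square factor. -/
theorem rt_mul (α : (X →₀ ℕ) → K) (u m : X →₀ ℕ) :
    rt α (2 • u + m) = rt (fun N => α (u + N)) m := by
  by_cases h : ∃ n : X →₀ ℕ, m = 2 • n
  · obtain ⟨n, rfl⟩ := h
    rw [← smul_add, rt_two, rt_two]
  · push Not at h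
    rw [rt_non h, rt_non]
    intro n hn
    refine h (n - u) ?_
    ext v
    have h1 := DFunLike.congr_fun hn v
    rw [Finsupp.add_apply, Finsupp.smul_apply, Finsupp.smul_apply, smul_eq_mul,
      smul_eq_mul] at h1
    rw [Finsupp.smul_apply, Finsupp.tsub_apply, smul_eq_mul]
    omega

end rt

variable [Fintype X]

/-- `∑_I a_I α (√(x_I s)) ^ 2`, the sum over all functions `I` from the list `l` to the vertices. -/
noncomputable def sq [Field K] (a : X → Ω → K) :
    List Ω → ((X →₀ ℕ) → K) → (X →₀ ℕ) → K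
  | [], α, s => rt α s ^ 2
  | c :: l, α, s => ∑ v, a v c * sq a l α (Finsupp.single v 1 + s)

section sq

variable [Field K] (a : X → Ω → K)

theorem sq_nil (α : (X →₀ ℕ) → K) (s : X →₀ ℕ) : sq a [] α s = rt α s ^ 2 := rfl

theorem sq_cons (c : Ω) (l : List Ω) (α : (X →₀ ℕ) → K) (s : X →₀ ℕ) :
    sq a (c :: l) α s = ∑ v, a v c * sq a l α (Finsupp.single v 1 + s) := rfl

theorem sq_perm {l l' : List Ω} (h : l.Perm l') (α : (X →₀ ℕ) → K) :
    ∀ s, sq a l α s = sq a l' α s := by
  induction h with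
  | nil => exact fun _ => rfl
  | cons c _ ih =>
    intro s
    rw [sq_cons, sq_cons]
    exact Finset.sum_congr rfl fun v _ => by rw [ih]
  | swap c c' l =>
    intro s
    rw [sq_cons, sq_cons]
    simp only [sq_cons, Finset.mul_sum]
    rw [Finset.sum_comm]
    refine Finset.sum_congr rfl fun v _ => Finset.sum_congr rfl fun w _ => ?_
    rw [← add_assoc, ← add_assoc, add_comm (Finsupp.single v 1) (Finsupp.single w 1)]
    ring
  | trans _ _ ih1 ih2 => exact fun s => (ih1 s).trans (ih2 s)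

theorem sq_zero (l : List Ω) (s : X →₀ ℕ) : sq a l (fun _ => 0) s = 0 := by
  induction l generalizing s with
  | nil => rw [sq_nil, rt_zero, zero_pow two_ne_zero]
  | cons c l ih =>
    rw [sq_cons]
    exact Finset.sum_eq_zero fun v _ => by rw [ih, mul_zero]

theorem sq_smul (k : K) (l : List Ω) (α : (X →₀ ℕ) → K) (s : X →₀ ℕ) :
    sq a l (fun N => k * α N) s = k ^ 2 * sq a l α s := by
  induction l generalizing s with
  | nil => rw [sq_nil, sq_nil, rt_smul, mul_pow]
  | cons c l ih =>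
    rw [sq_cons, sq_cons, Finset.mul_sum]
    exact Finset.sum_congr rfl fun v _ => by rw [ih]; ring

theorem sq_mul (u : X →₀ ℕ) (l : List Ω) (α : (X →₀ ℕ) → K) (s : X →₀ ℕ) :
    sq a l α (2 • u + s) = sq a l (fun N => α (u + N)) s := by
  induction l generalizing s with
  | nil => rw [sq_nil, sq_nil, rt_mul]
  | cons c l ih =>
    rw [sq_cons, sq_cons]
    refine Finset.sum_congr rfl fun v _ => ?_
    rw [← ih]
    congr 2
    abel

variable [CharP K 2]

theorem sq_add (l : List Ω) (α β : (X →₀ ℕ) → K) (s : X →₀ ℕ) :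
    sq a l (fun N => α N + β N) s = sq a l α s + sq a l β s := by
  induction l generalizing s with
  | nil =>
    rw [sq_nil, sq_nil, sq_nil, rt_add, CharTwo.add_sq]
  | cons c l ih =>
    rw [sq_cons, sq_cons, sq_cons, ← Finset.sum_add_distrib]
    exact Finset.sum_congr rfl fun v _ => by rw [ih]; ring

theorem sq_sum {κ : Type} (t : Finset κ) (l : List Ω) (α : κ → (X →₀ ℕ) → K) (s : X →₀ ℕ) :
    sq a l (fun N => ∑ k ∈ t, α k N) s = ∑ k ∈ t, sq a l (α k) s := by
  classical
  induction t using Finset.induction_on with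
  | empty =>
    simp only [Finset.sum_empty]
    exact sq_zero a l s
  | insert k t hk ih =>
    rw [Finset.sum_insert hk, ← ih, ← sq_add]
    congr 1
    funext N
    rw [Finset.sum_insert hk]

/-- (iii) The square of a linear form. -/
theorem sq_lam (κ : X → K) (l : List Ω) (α : (X →₀ ℕ) → K) (s : X →₀ ℕ) :
    ∑ v, κ v ^ 2 * sq a l α (2 • Finsupp.single v 1 + s) =
      sq a l (fun M => ∑ v, κ v * α (Finsupp.single v 1 + M)) s := by
  rw [sq_sum]
  exact Finset.sum_congr rfl fun v _ => by rw [sq_mul, sq_smul]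

/-- In characteristic two a symmetric double sum is the sum over the diagonal. -/
theorem sum_diag (F : X → X → K) (h : ∀ v w, F v w = F w v) :
    ∑ v, ∑ w, F v w = ∑ v, F v v := by
  classical
  have key : ∀ t : Finset X, ∑ v ∈ t, ∑ w ∈ t, F v w = ∑ v ∈ t, F v v := by
    intro t
    induction t using Finset.induction_on with
    | empty => simp
    | insert x t hx ih =>
      rw [Finset.sum_insert hx, Finset.sum_insert hx, Finset.sum_insert hx]
      have h1 : ∑ v ∈ t, ∑ w ∈ insert x t, F v w = ∑ v ∈ t, F x v + ∑ v ∈ t, ∑ w ∈ t, F v w := by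
        rw [← Finset.sum_add_distrib]
        refine Finset.sum_congr rfl fun v _ => ?_
        rw [Finset.sum_insert hx, h v x]
      rw [h1, ih]
      have h2 : ∑ v ∈ t, F x v + ∑ v ∈ t, F x v = 0 := CharTwo.add_self_eq_zero _
      linear_combination h2
  exact key univ

/-- (ii) The linear form of a coordinate of the list. -/
theorem sq_th (c : Ω) (l : List Ω) (α : (X →₀ ℕ) → K) (s : X →₀ ℕ) :
    ∑ v, a v c * sq a (c :: l) α (Finsupp.single v 1 + s) =
      sq a l (fun M => ∑ v, a v c * α (Finsupp.single v 1 + M)) s := by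
  rw [← sq_lam]
  simp only [sq_cons, Finset.mul_sum]
  rw [sum_diag]
  · refine Finset.sum_congr rfl fun v _ => ?_
    rw [← add_assoc, ← two_nsmul]
    ring
  · intro v w
    rw [← add_assoc, ← add_assoc, add_comm (Finsupp.single v 1) (Finsupp.single w 1)]
    ring

end sq

end Pool.Agent.LH4
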