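import Pool.Agent.LH4.Sq

/-!
# The derivatives of the square functional, the monomials `N(s)`
-/

set_option autoImplicit false

open Finset

namespace Pool.Agent.LH4

variable {X Ω K : Type} [Fintype X] [DecidableEq X] [DecidableEq Ω]

/-- Derivations with respect to the entries `a v c`. -/
structure Drv [Field K] (car : X → Finset Ω) (a : X → Ω → K) (D : X → Ω → K → K) : Prop where
  add : ∀ v c x y, D v c (x + y) = D v c x + D v c y
  mul : ∀ v c x y, D v c (x * y) = x * D v c y + y * D v c x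
  a_zero : ∀ v c, c ∉ car v → a v c = 0
  a_der : ∀ v c, c ∈ car v → ∀ v' c', D v c (a v' c') = if v = v' ∧ c = c' then 1 else 0

omit [Fintype X] [DecidableEq X] [DecidableEq Ω] in
/-- The product of the derivatives with respect to the `a (J c) c`, `c ∈ l`. -/
def DI (D : X → Ω → K → K) (J : Ω → X) (l : List Ω) (x : K) : K :=
  l.foldr (fun c y => D (J c) c y) x

/-- The monomials `N` with `N ^ 2 = x_J s`, `J` a matching of `W`. -/
def NN (car : X → Finset Ω) (W : Finset Ω) (s N : X →₀ ℕ) : Prop :=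
  ∃ J : Ω → X, (∀ c ∈ W, c ∈ car (J c)) ∧ ∑ c ∈ W, Finsupp.single (J c) 1 + s = 2 • N

section der

variable [Field K] [CharP K 2] {car : X → Finset Ω} {a : X → Ω → K} {D : X → Ω → K → K}

omit [Fintype X] [CharP K 2] in
theorem Drv.zero (hD : Drv car a D) (v : X) (c : Ω) : D v c 0 = 0 := by
  have h := hD.add v c 0 0
  rw [add_zero] at h
  exact left_eq_add.1 h

omit [Fintype X] [CharP K 2] in
theorem Drv.sum (hD : Drv car a D) {κ : Type} (v : X) (c : Ω) (t : Finset κ) (f : κ → K) :
    D v c (∑ k ∈ t, f k) = ∑ k ∈ t, D v c (f k) := by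
  classical
  induction t using Finset.induction_on with
  | empty => rw [Finset.sum_empty, Finset.sum_empty, hD.zero]
  | insert k t hk ih => rw [Finset.sum_insert hk, Finset.sum_insert hk, hD.add, ih]

omit [Fintype X] in
theorem Drv.sq (hD : Drv car a D) (v : X) (c : Ω) (x : K) : D v c (x ^ 2) = 0 := by
  rw [pow_two, hD.mul]
  exact CharTwo.add_self_eq_zero _

omit [Fintype X] [CharP K 2] in
theorem DI_zero (hD : Drv car a D) (J : Ω → X) (l : List Ω) : DI D J l 0 = 0 := by
  induction l with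
  | nil => rfl
  | cons c l ih =>
    change D (J c) c (DI D J l 0) = 0
    rw [ih, hD.zero]

omit [Fintype X] [CharP K 2] in
theorem DI_sum (hD : Drv car a D) {κ : Type} (J : Ω → X) (l : List Ω) (t : Finset κ)
    (f : κ → K) : DI D J l (∑ k ∈ t, f k) = ∑ k ∈ t, DI D J l (f k) := by
  induction l with
  | nil => rfl
  | cons c l ih =>
    change D (J c) c (DI D J l (∑ k ∈ t, f k)) = ∑ k ∈ t, D (J c) c (DI D J l (f k))
    rw [ih, hD.sum]

omit [Fintype X] [CharP K 2] in
/-- The entries of the other coordinates are constants. -/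
theorem DI_a_mul (hD : Drv car a D) (J : Ω → X) (l : List Ω) (hJ : ∀ c ∈ l, c ∈ car (J c))
    (v : X) {c : Ω} (hc : c ∉ l) (y : K) : DI D J l (a v c * y) = a v c * DI D J l y := by
  induction l with
  | nil => rfl
  | cons c' l ih =>
    change D (J c') c' (DI D J l (a v c * y)) = a v c * D (J c') c' (DI D J l y)
    rw [ih (fun c h => hJ c (List.mem_cons_of_mem _ h)) (fun h => hc (List.mem_cons_of_mem _ h)),
      hD.mul, hD.a_der _ _ (hJ c' List.mem_cons_self), if_neg, mul_zero, add_zero]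
    rintro ⟨-, rfl⟩
    exact hc List.mem_cons_self

/-- (i) The derivative of the square functional. -/
theorem DI_sq (hD : Drv car a D) (J : Ω → X) (l : List Ω) (hl : l.Nodup)
    (hJ : ∀ c ∈ l, c ∈ car (J c)) (α : (X →₀ ℕ) → K) (s : X →₀ ℕ) :
    DI D J l (sq a l α s) = rt α ((l.map fun c => Finsupp.single (J c) 1).sum + s) ^ 2 := by
  induction l generalizing s with
  | nil =>
    rw [List.map_nil, List.sum_nil, zero_add]
    rfl
  | cons c l ih =>
    have hl' := List.nodup_cons.1 hl
    have hJ' : ∀ c ∈ l, c ∈ car (J c) := fun c h => hJ c (List.mem_cons_of_mem _ h)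
    change D (J c) c (DI D J l (sq a (c :: l) α s)) = _
    rw [sq_cons, DI_sum hD, hD.sum]
    have h1 : ∀ v, D (J c) c (DI D J l (a v c * sq a l α (Finsupp.single v 1 + s))) =
        if J c = v then rt α ((l.map fun c => Finsupp.single (J c) 1).sum +
          (Finsupp.single v 1 + s)) ^ 2 else 0 := by
      intro v
      rw [DI_a_mul hD J l hJ' v hl'.1, ih hl'.2 hJ', hD.mul, hD.sq, mul_zero, zero_add,
        hD.a_der _ _ (hJ c List.mem_cons_self)]
      by_cases h : J c = v
      · rw [if_pos h, if_pos ⟨h, rfl⟩, mul_one]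
      · rw [if_neg h, if_neg fun h' => h h'.1, mul_zero]
    simp only [h1]
    rw [Finset.sum_ite_eq, if_pos (Finset.mem_univ _), List.map_cons, List.sum_cons]
    congr 2
    abel

omit [CharP K 2] in
theorem sq_zero_of (hD : Drv car a D) [Nonempty X] (l : List Ω) (hl : l.Nodup)
    (α : (X →₀ ℕ) → K) (s : X →₀ ℕ)
    (h : ∀ J : Ω → X, (∀ c ∈ l, c ∈ car (J c)) →
      rt α ((l.map fun c => Finsupp.single (J c) 1).sum + s) = 0) : sq a l α s = 0 := by
  induction l generalizing s with
  | nil =>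
    have h1 := h (fun _ => Classical.arbitrary X) (fun c hc => absurd hc List.not_mem_nil)
    rw [List.map_nil, List.sum_nil, zero_add] at h1
    rw [sq_nil, h1, zero_pow two_ne_zero]
  | cons c l ih =>
    have hl' := List.nodup_cons.1 hl
    rw [sq_cons]
    refine Finset.sum_eq_zero fun v _ => ?_
    by_cases hv : c ∈ car v
    · rw [ih hl'.2 _ fun J hJ => ?_, mul_zero]
      have h1 := h (Function.update J c v) fun c' hc' => ?_
      · rw [List.map_cons, List.sum_cons, Function.update_self] at h1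
        have h2 : (l.map fun c' => Finsupp.single (Function.update J c v c') 1) =
            l.map fun c' => (Finsupp.single (J c') 1 : X →₀ ℕ) := by
          refine List.map_congr_left fun c' hc' => ?_
          rw [Function.update_of_ne]
          rintro rfl
          exact hl'.1 hc'
        rw [h2] at h1
        rw [← h1]
        congr 1
        abel
      · by_cases hcc : c' = c
        · rw [hcc, Function.update_self]
          exact hv
        · rw [Function.update_of_ne hcc]
          exact hJ c' ((List.mem_cons.1 hc').resolve_left hcc)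
    · rw [hD.a_zero v c hv, zero_mul]

end der

/-! ### The square functional of a set of coordinates -/

omit [DecidableEq X] [DecidableEq Ω] in
/-- The square functional of `W`. -/
noncomputable def sqW [Field K] (a : X → Ω → K) (W : Finset Ω) (α : (X →₀ ℕ) → K)
    (s : X →₀ ℕ) : K := sq a W.toList α s

section W

variable [Field K] {car : X → Finset Ω} {a : X → Ω → K} {D : X → Ω → K → K} {W : Finset Ω}

omit [DecidableEq X] in
theorem sqW_eq {l : List Ω} (hl : l.Nodup) (hlW : l.toFinset = W) (α : (X →₀ ℕ) → K)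
    (s : X →₀ ℕ) : sqW a W α s = sq a l α s := by
  refine sq_perm a ?_ α s
  rw [List.perm_ext_iff_of_nodup (Finset.nodup_toList W) hl]
  intro c
  rw [Finset.mem_toList, ← hlW, List.mem_toFinset]

omit [Fintype X] [DecidableEq X] [DecidableEq Ω] in
theorem sum_toList (W : Finset Ω) (f : Ω → X →₀ ℕ) : (W.toList.map f).sum = ∑ c ∈ W, f c :=
  Finset.sum_map_toList W f

theorem DI_sqW [CharP K 2] (hD : Drv car a D) (J : Ω → X) {l : List Ω} (hl : l.Nodup)
    (hlW : l.toFinset = W) (hJ : ∀ c ∈ W, c ∈ car (J c)) (α : (X →₀ ℕ) → K) (s : X →₀ ℕ) :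
    DI D J l (sqW a W α s) = rt α (∑ c ∈ W, Finsupp.single (J c) 1 + s) ^ 2 := by
  have hJ' : ∀ c ∈ l, c ∈ car (J c) := fun c hc => hJ c (by rw [← hlW, List.mem_toFinset]; exact hc)
  rw [sqW_eq hl hlW, DI_sq hD J l hl hJ', ← List.sum_toFinset _ hl, hlW]

/-- (i) `f(s) = 0` if and only if `α` is zero on `N(s)`. -/
theorem sqW_eq_zero [CharP K 2] (hD : Drv car a D) [Nonempty X] (α : (X →₀ ℕ) → K)
    (s : X →₀ ℕ) : sqW a W α s = 0 ↔ ∀ N, NN car W s N → α N = 0 := by
  constructor
  · rintro h N ⟨J, hJ, hN⟩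
    have h1 := DI_sqW hD J (Finset.nodup_toList W) (Finset.toList_toFinset W) hJ α s
    rw [h, DI_zero hD, rt_eq hN] at h1
    exact pow_eq_zero_iff two_ne_zero |>.1 h1.symm
  · intro h
    refine sq_zero_of hD W.toList (Finset.nodup_toList W) α s fun J hJ => ?_
    rw [sum_toList]
    by_cases hm : ∃ n : X →₀ ℕ, ∑ c ∈ W, Finsupp.single (J c) 1 + s = 2 • n
    · obtain ⟨n, hn⟩ := hm
      rw [rt_eq hn]
      exact h n ⟨J, fun c hc => hJ c (Finset.mem_toList.2 hc), hn⟩
    · push Not at hm
      exact rt_non hm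

omit [DecidableEq X] in
theorem sqW_insert {c : Ω} (hc : c ∈ W) (α : (X →₀ ℕ) → K) (s : X →₀ ℕ) :
    sqW a W α s = sq a (c :: (W.erase c).toList) α s := by
  refine sqW_eq ?_ ?_ α s
  · rw [List.nodup_cons]
    exact ⟨fun h => Finset.notMem_erase c W (Finset.mem_toList.1 h), Finset.nodup_toList _⟩
  · rw [List.toFinset_cons, Finset.toList_toFinset, Finset.insert_erase hc]

variable [CharP K 2]

omit [DecidableEq X] [DecidableEq Ω] in
theorem sqW_add (α β : (X →₀ ℕ) → K) (s : X →₀ ℕ) :
    sqW a W (fun N => α N + β N) s = sqW a W α s + sqW a W β s := sq_add a _ α β s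

omit [DecidableEq X] [DecidableEq Ω] [CharP K 2] in
theorem sqW_smul (k : K) (α : (X →₀ ℕ) → K) (s : X →₀ ℕ) :
    sqW a W (fun N => k * α N) s = k ^ 2 * sqW a W α s := sq_smul a k _ α s

omit [DecidableEq X] [DecidableEq Ω] in
theorem sqW_sum {κ : Type} (t : Finset κ) (α : κ → (X →₀ ℕ) → K) (s : X →₀ ℕ) :
    sqW a W (fun N => ∑ k ∈ t, α k N) s = ∑ k ∈ t, sqW a W (α k) s := sq_sum a t _ α s

omit [DecidableEq X] in
/-- (ii) The linear form of a coordinate. -/
theorem sqW_th {c : Ω} (hc : c ∈ W) (α : (X →₀ ℕ) → K) (s : X →₀ ℕ) :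
    ∑ v, a v c * sqW a W α (Finsupp.single v 1 + s) =
      sqW a (W.erase c) (fun M => ∑ v, a v c * α (Finsupp.single v 1 + M)) s := by
  simp only [sqW_insert hc]
  exact sq_th a c _ α s

omit [DecidableEq X] [DecidableEq Ω] in
/-- (iii) The square of a linear form. -/
theorem sqW_lam (κ : X → K) (α : (X →₀ ℕ) → K) (s : X →₀ ℕ) :
    ∑ v, κ v ^ 2 * sqW a W α (2 • Finsupp.single v 1 + s) =
      sqW a W (fun M => ∑ v, κ v * α (Finsupp.single v 1 + M)) s := sq_lam a κ _ α s

/-- (ii) `f(θ_c s) = 0` if `α` kills the relations `θ_c M`, `M ∈ N(s)` for `W \ {c}`. -/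
theorem sqW_th_zero (hD : Drv car a D) [Nonempty X] {c : Ω} (hc : c ∈ W) (α : (X →₀ ℕ) → K)
    (s : X →₀ ℕ) (h : ∀ M, NN car (W.erase c) s M → ∑ v, a v c * α (Finsupp.single v 1 + M) = 0) :
    ∑ v, a v c * sqW a W α (Finsupp.single v 1 + s) = 0 := by
  rw [sqW_th hc, sqW_eq_zero hD]
  exact h

/-- (iii) `f(λ² s) = 0` if `α` kills the relations `λ M`, `M ∈ N(s)`. -/
theorem sqW_lam_zero (hD : Drv car a D) [Nonempty X] (κ : X → K) (α : (X →₀ ℕ) → K)
    (s : X →₀ ℕ) (h : ∀ M, NN car W s M → ∑ v, κ v * α (Finsupp.single v 1 + M) = 0) :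
    ∑ v, κ v ^ 2 * sqW a W α (2 • Finsupp.single v 1 + s) = 0 := by
  rw [sqW_lam, sqW_eq_zero hD]
  exact h

end W

end Pool.Agent.LH4
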