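import Pool.Agent.LH4.StD

/-!
# The star of a face: sums of the coefficients of the `h`-polynomials
-/

set_option autoImplicit false

open Finset

namespace Pool.Agent.LocH.Sub

variable {X Ω : Type} [Fintype X] [DecidableEq X] [Fintype Ω] [DecidableEq Ω] (S : Sub X Ω)
  {τ : Finset X} {W : Finset Ω}

private theorem ct_card_le {F : Finset X} (hF : F ∈ S.fcs W) : F.card ≤ W.card := by
  have h := mem_fcs.1 hF
  exact (S.card_le F h.1).trans (card_le_card h.2)

private theorem ct_deg (k D : ℕ) (h : k ≤ D) :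
    ((Polynomial.X : Polynomial ℤ) ^ k * (1 - Polynomial.X) ^ (D - k)).natDegree ≤ D := by
  have h1 : (1 - Polynomial.X : Polynomial ℤ).natDegree ≤ 1 := by
    refine (Polynomial.natDegree_sub_le _ _).trans ?_
    simp
  have h2 := Polynomial.natDegree_pow_le (p := (1 - Polynomial.X : Polynomial ℤ)) (n := D - k)
  have h3 : (D - k) * (1 - Polynomial.X : Polynomial ℤ).natDegree ≤ (D - k) * 1 :=
    Nat.mul_le_mul_left _ h1
  refine Polynomial.natDegree_mul_le.trans ?_
  rw [Polynomial.natDegree_X_pow]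
  omega

private theorem ct_eval (k D : ℕ) (h : k ≤ D) :
    ((Polynomial.X : Polynomial ℤ) ^ k * (1 - Polynomial.X) ^ (D - k)).eval 1 =
      if k = D then 1 else 0 := by
  simp only [Polynomial.eval_mul, Polynomial.eval_pow, Polynomial.eval_X, Polynomial.eval_sub,
    Polynomial.eval_one, one_pow, one_mul, sub_self]
  split_ifs with h1
  · rw [h1, Nat.sub_self, pow_zero]
  · exact zero_pow (by omega)

private theorem ct_der (k D : ℕ) (h : k ≤ D) :
    ((Polynomial.X : Polynomial ℤ) ^ k * (1 - Polynomial.X) ^ (D - k)).derivative.eval 1 =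
      (D : ℤ) * (if k = D then 1 else 0) - (if k + 1 = D then 1 else 0 : ℤ) := by
  obtain ⟨j, rfl⟩ := Nat.exists_eq_add_of_le h
  rw [Nat.add_sub_cancel_left]
  simp only [Polynomial.derivative_mul, Polynomial.derivative_X_pow, Polynomial.derivative_pow,
    Polynomial.derivative_sub, Polynomial.derivative_one, Polynomial.derivative_X,
    Polynomial.eval_add, Polynomial.eval_mul, Polynomial.eval_pow, Polynomial.eval_X,
    Polynomial.eval_sub, Polynomial.eval_one, Polynomial.eval_C, Polynomial.eval_zero,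
    Polynomial.eval_natCast, one_pow, sub_self, mul_one, one_mul]
  rcases j with - | - | j
  · simp
  · simp
  · have h1 : ¬ k = k + (j + 1 + 1) := by omega
    have h2 : ¬ k + 1 = k + (j + 1 + 1) := by omega
    simp

/-- The summand of a face. -/
private theorem ct_term {F : Finset X} (hF : F ∈ S.fcs W) (hτ : τ ⊆ F) :
    (Polynomial.X : Polynomial ℤ) ^ (F.card - τ.card) * (1 - Polynomial.X) ^ (W.card - F.card) =
      Polynomial.X ^ (F.card - τ.card) *
        (1 - Polynomial.X) ^ ((W.card - τ.card) - (F.card - τ.card)) ∧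
      F.card - τ.card ≤ W.card - τ.card := by
  have h1 := S.ct_card_le hF
  have h2 := card_le_card hτ
  refine ⟨?_, by omega⟩
  congr 2
  omega

theorem deg_hRT : (S.hRT τ W).natDegree ≤ W.card - τ.card := by
  refine Polynomial.natDegree_sum_le_of_forall_le _ _ fun F hF => ?_
  obtain ⟨h1, h2⟩ := mem_filter.1 hF
  obtain ⟨h3, h4⟩ := S.ct_term h1 h2
  rw [h3]
  exact ct_deg _ _ h4

theorem deg_hST : (S.hST τ W).natDegree ≤ W.card - τ.card := by
  refine Polynomial.natDegree_sum_le_of_forall_le _ _ fun F hF => ?_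
  obtain ⟨h1, h2⟩ := mem_filter.1 (mem_filter.1 hF).1
  obtain ⟨h3, h4⟩ := S.ct_term h1 h2
  rw [h3]
  exact ct_deg _ _ h4

private theorem ct_fac : ((S.fcs W).filter (fun F => τ ⊆ F)).filter (fun F => F.card = W.card) =
    S.facT τ W := by
  ext F
  rw [mem_filter, mem_filter, mem_facT, mem_fcs, fac, mem_st]
  constructor
  · rintro ⟨⟨⟨h1, h2⟩, h3⟩, h4⟩
    refine ⟨⟨h1, empty_subset _, eq_of_subset_of_card_le h2 ?_, h4⟩, h3⟩
    rw [← h4]
    exact S.card_le F h1
  · rintro ⟨⟨h1, -, h2, h3⟩, h4⟩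
    exact ⟨⟨⟨h1, h2.le⟩, h4⟩, h3⟩

private theorem ct_facI :
    (((S.fcs W).filter (fun F => τ ⊆ F)).filter (fun F => S.cr F = W)).filter
      (fun F => F.card = W.card) = S.facT τ W := by
  rw [Finset.filter_filter, ← ct_fac]
  refine Finset.filter_congr fun F hF => ?_
  refine ⟨fun h => h.2, fun h => ⟨?_, h⟩⟩
  have h1 : F ∈ S.facT τ W := by
    rw [← ct_fac]
    exact Finset.mem_filter.2 ⟨hF, h⟩
  exact (mem_st.1 (S.mem_facT.1 h1).1).2.2.1

private theorem ct_evalA (A : Finset (Finset X)) (hA : ∀ F ∈ A, F ∈ S.fcs W ∧ τ ⊆ F)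
    (hf : A.filter (fun F => F.card = W.card) = S.facT τ W) :
    (∑ F ∈ A, (Polynomial.X : Polynomial ℤ) ^ (F.card - τ.card) *
      (1 - Polynomial.X) ^ (W.card - F.card)).eval 1 = ((S.facT τ W).card : ℤ) := by
  rw [← hf, Polynomial.eval_finsetSum, Finset.card_filter, Nat.cast_sum]
  refine Finset.sum_congr rfl fun F hF => ?_
  obtain ⟨g1, g2⟩ := hA F hF
  obtain ⟨h3, h4⟩ := S.ct_term g1 g2
  rw [h3, ct_eval _ _ h4]
  have h5 := S.ct_card_le g1
  have h6 := card_le_card g2
  have h7 : F.card - τ.card = W.card - τ.card ↔ F.card = W.card := by omega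
  rw [if_congr h7 rfl rfl]
  split_ifs <;> rfl

theorem eval_hRT : (S.hRT τ W).eval 1 = (S.facT τ W).card :=
  S.ct_evalA ((S.fcs W).filter (fun F => τ ⊆ F)) (fun _ hF => mem_filter.1 hF) S.ct_fac

theorem eval_hST : (S.hST τ W).eval 1 = (S.facT τ W).card :=
  S.ct_evalA (((S.fcs W).filter (fun F => τ ⊆ F)).filter (fun F => S.cr F = W))
    (fun _ hF => mem_filter.1 (mem_filter.1 hF).1) S.ct_facI

private theorem ct_sum (A : Finset (Finset X)) (hA : ∀ F ∈ A, F ∈ S.fcs W ∧ τ ⊆ F)
    (hf : A.filter (fun F => F.card = W.card) = S.facT τ W) :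
    (∑ F ∈ A, (Polynomial.X : Polynomial ℤ) ^ (F.card - τ.card) *
      (1 - Polynomial.X) ^ (W.card - F.card)).derivative.eval 1 =
      ((W.card - τ.card : ℕ) : ℤ) * (S.facT τ W).card -
        ((A.filter fun F => F.card + 1 = W.card).card : ℤ) := by
  rw [Polynomial.derivative_sum, Polynomial.eval_finsetSum, ← hf, Finset.card_filter,
    Finset.card_filter, Nat.cast_sum, Nat.cast_sum, Finset.mul_sum, ← Finset.sum_sub_distrib]
  refine Finset.sum_congr rfl fun F hF => ?_
  obtain ⟨g1, g2⟩ := hA F hF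
  obtain ⟨h3, h4⟩ := S.ct_term g1 g2
  rw [h3, ct_der _ _ h4]
  have h5 := S.ct_card_le g1
  have h6 := card_le_card g2
  have h7 : F.card - τ.card = W.card - τ.card ↔ F.card = W.card := by omega
  have h8 : F.card - τ.card + 1 = W.card - τ.card ↔ F.card + 1 = W.card := by omega
  rw [if_congr h7 rfl rfl, if_congr h8 rfl rfl]
  push_cast
  rfl

private theorem ct_dbl (hT : S.Top S.K) : (W.card - τ.card) * (S.facT τ W).card =
    (((S.fcs W).filter (fun F => τ ⊆ F)).filter fun F => F.card + 1 = W.card).card +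
      ((((S.fcs W).filter (fun F => τ ⊆ F)).filter (fun F => S.cr F = W)).filter
        fun F => F.card + 1 = W.card).card := by
  classical
  set Q : Finset (Finset X) :=
    ((S.fcs W).filter (fun F => τ ⊆ F)).filter fun F => F.card + 1 = W.card with hQ
  have h1 := Finset.sum_card_bipartiteAbove_eq_sum_card_bipartiteBelow (s := S.facT τ W) (t := Q)
    (fun σ R => R ⊆ σ)
  have h2 : ∑ σ ∈ S.facT τ W, (Q.bipartiteAbove (fun σ R => R ⊆ σ) σ).card =
      (W.card - τ.card) * (S.facT τ W).card := by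
    rw [mul_comm]
    refine Finset.sum_const_nat fun σ hσ => ?_
    obtain ⟨hσ1, hσ2⟩ := S.mem_facT.1 hσ
    obtain ⟨g1, -, g2, g3⟩ := mem_st.1 hσ1
    have h3 : Q.bipartiteAbove (fun σ R => R ⊆ σ) σ = (σ \ τ).image fun v => σ.erase v := by
      ext R
      rw [Finset.mem_bipartiteAbove, hQ, Finset.mem_filter, Finset.mem_filter, mem_fcs,
        Finset.mem_image]
      constructor
      · rintro ⟨⟨⟨-, h6⟩, h4⟩, h5⟩
        obtain ⟨v, hv, hv'⟩ := Finset.exists_eq_insert_iff.2 ⟨h5, by rw [h4, g3]⟩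
        refine ⟨v, Finset.mem_sdiff.2 ⟨hv' ▸ Finset.mem_insert_self v R, fun h => hv (h6 h)⟩, ?_⟩
        rw [← hv', Finset.erase_insert hv]
      · rintro ⟨v, hv, rfl⟩
        obtain ⟨hv1, hv2⟩ := Finset.mem_sdiff.1 hv
        refine ⟨⟨⟨⟨S.down σ g1 _ (Finset.erase_subset v σ), ?_⟩, ?_⟩, ?_⟩,
          Finset.erase_subset v σ⟩
        · rw [← g2]
          exact Finset.biUnion_subset_biUnion_of_subset_left _ (Finset.erase_subset v σ)
        · exact Finset.subset_erase.2 ⟨hσ2, hv2⟩
        · rw [Finset.card_erase_add_one hv1, g3]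
    rw [h3, Finset.card_image_of_injOn, Finset.card_sdiff_of_subset hσ2, g3]
    intro v hv v' hv' h
    by_contra hne
    have h4 : v' ∈ σ.erase v :=
      Finset.mem_erase.2 ⟨Ne.symm hne, (Finset.mem_sdiff.1 (Finset.mem_coe.1 hv')).1⟩
    have h5 : σ.erase v = σ.erase v' := h
    rw [h5] at h4
    exact Finset.notMem_erase v' σ h4
  have h3 : ∑ R ∈ Q, ((S.facT τ W).bipartiteBelow (fun σ R => R ⊆ σ) R).card =
      Q.card + (Q.filter fun F => S.cr F = W).card := by
    rw [Finset.card_filter (fun F => S.cr F = W) Q, Finset.card_eq_sum_ones Q,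
      ← Finset.sum_add_distrib]
    refine Finset.sum_congr rfl fun R hR => ?_
    obtain ⟨g1, g2⟩ := Finset.mem_filter.1 hR
    obtain ⟨g1, g3⟩ := Finset.mem_filter.1 g1
    have h4 : (S.facT τ W).bipartiteBelow (fun σ R => R ⊆ σ) R = (S.fac W).filter (R ⊆ ·) := by
      ext σ
      rw [Finset.mem_bipartiteBelow, mem_facT, Finset.mem_filter]
      exact ⟨fun h => ⟨h.1.1, h.2⟩, fun h => ⟨⟨h.1, g3.trans h.2⟩, h.2⟩⟩
    rw [h4]
    split_ifs with h5
    · exact ridge_two hT (mem_st.2 ⟨(mem_fcs.1 g1).1, Finset.empty_subset _, h5, rfl⟩) g2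
    · exact bdry_one hT g1 h5 g2
  have h5 : (((S.fcs W).filter (fun F => τ ⊆ F)).filter (fun F => S.cr F = W)).filter
      (fun F => F.card + 1 = W.card) = Q.filter fun F => S.cr F = W := by
    rw [hQ, Finset.filter_comm]
  rw [h5, ← h3, ← h2, h1]

theorem der_sumT (hT : S.Top S.K) :
    (S.hRT τ W).derivative.eval 1 + (S.hST τ W).derivative.eval 1 =
      ((W.card - τ.card : ℕ) : ℤ) * (S.facT τ W).card := by
  have h1 := S.ct_sum (W := W) ((S.fcs W).filter (fun F => τ ⊆ F))
    (fun F hF => mem_filter.1 hF) S.ct_fac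
  have h2 := S.ct_sum (W := W) (((S.fcs W).filter (fun F => τ ⊆ F)).filter fun F => S.cr F = W)
    (fun F hF => mem_filter.1 (mem_filter.1 hF).1) S.ct_facI
  have h3 := S.ct_dbl (τ := τ) (W := W) hT
  rw [hRT, hST, h1, h2]
  have h4 : ((W.card - τ.card : ℕ) : ℤ) * (S.facT τ W).card =
    (((S.fcs W).filter (fun F => τ ⊆ F)).filter fun F => F.card + 1 = W.card).card +
      ((((S.fcs W).filter (fun F => τ ⊆ F)).filter (fun F => S.cr F = W)).filter
        fun F => F.card + 1 = W.card).card := by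
    exact_mod_cast h3
  linear_combination h4

end Pool.Agent.LocH.Sub
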