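import Pool.Agent.LocH.Cnt
import Pool.Agent.LocH.Grd

/-!
# The star of a face: ideals, polynomials, counting the facets

Everything is divided by the monomial of the face `τ`.
-/

set_option autoImplicit false

open Finset

namespace Pool.Agent.LocH.Sub

variable {X Ω : Type} [Fintype X] [DecidableEq X] [Fintype Ω] [DecidableEq Ω] (S : Sub X Ω)

/-- The monomials whose support together with `τ` is not a face of the restriction to `W`. -/
noncomputable def IT (τ : Finset X) (W : Finset Ω) : Submodule S.K S.T :=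
  MvPolynomial.restrictSupport S.K {m | m.support ∪ τ ∉ S.fcs W}

/-- The monomials whose support together with `τ` is not a face of the restriction to `W`, or has a
carrier containing `U`. -/
noncomputable def JT (τ : Finset X) (W U : Finset Ω) : Submodule S.K S.T :=
  MvPolynomial.restrictSupport S.K
    {m | m.support ∪ τ ∈ S.fcs W → U ⊆ S.cr (m.support ∪ τ)}

open Polynomial in
/-- The `h`-polynomial of the star of `τ`. -/
noncomputable def hRT (τ : Finset X) (W : Finset Ω) : ℤ[X] :=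
  ∑ F ∈ (S.fcs W).filter (fun F => τ ⊆ F),
    (Polynomial.X : ℤ[X]) ^ (F.card - τ.card) * (1 - Polynomial.X) ^ (W.card - F.card)

open Polynomial in
/-- The `h`-polynomial of the interior of the star of `τ`. -/
noncomputable def hST (τ : Finset X) (W : Finset Ω) : ℤ[X] :=
  ∑ F ∈ ((S.fcs W).filter (fun F => τ ⊆ F)).filter (fun F => S.cr F = W),
    (Polynomial.X : ℤ[X]) ^ (F.card - τ.card) * (1 - Polynomial.X) ^ (W.card - F.card)

/-- The facets of the restriction to `W` which contain `τ`. -/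
def facT (τ : Finset X) (W : Finset Ω) : Finset (Finset X) := (S.fac W).filter (fun σ => τ ⊆ σ)

/-- A linear form which kills the ideal of the star and all `θ_c J_(W - c)` in degree `n`. -/
structure KilT (τ : Finset X) (W : Finset Ω) (n : ℕ) (F : S.T →ₗ[S.K] S.K) : Prop where
  I : ∀ y ∈ S.IT τ W, y ∈ S.H n → F y = 0
  th : ∀ c ∈ W, ∀ k, k + 1 = n → ∀ y ∈ S.JT τ W (W.erase c), y ∈ S.H k → F (S.th c * y) = 0

/-- The dimensions for the star of `τ`. -/
structure DimT (τ : Finset X) (W : Finset Ω) : Prop where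
  hR : ∀ n : ℕ, (S.dm n ⊤ (S.IT τ W ⊔ S.thm W ⊤) : ℤ) = (S.hRT τ W).coeff n
  hS : ∀ n : ℕ,
    (S.dm n (S.JT τ W W) (S.IT τ W ⊔ S.thm W (S.JT τ W W)) : ℤ) = (S.hST τ W).coeff n
  hZ : ∀ (n : ℕ) (F : S.T →ₗ[S.K] S.K), S.KilT τ W n F → ∀ y ∈ S.JT τ W W, y ∈ S.H n →
    y ∈ S.IT τ W ⊔ S.thm W ⊤ → F y = 0

variable {τ : Finset X} {W U : Finset Ω}

theorem mem_facT {σ : Finset X} : σ ∈ S.facT τ W ↔ σ ∈ S.fac W ∧ τ ⊆ σ := by
  rw [facT, mem_filter]

theorem mem_IT {f : S.T} : f ∈ S.IT τ W ↔ ∀ m ∈ f.support, m.support ∪ τ ∉ S.fcs W :=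
  Iff.rfl

theorem mem_JT {f : S.T} : f ∈ S.JT τ W U ↔
    ∀ m ∈ f.support, m.support ∪ τ ∈ S.fcs W → U ⊆ S.cr (m.support ∪ τ) :=
  Iff.rfl

private theorem gt_ss {a b : X →₀ ℕ} : b.support ⊆ (a + b).support := by
  intro x hx
  rw [Finsupp.mem_support_iff] at hx ⊢
  rw [Finsupp.add_apply]
  omega

private theorem gt_fcs {F G : Finset X} (h : G ⊆ F) (hF : F ∈ S.fcs W) :
    G ∈ S.fcs W ∧ S.cr G ⊆ S.cr F := by
  have h1 : S.cr G ⊆ S.cr F := Finset.biUnion_subset_biUnion_of_subset_left _ h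
  rw [fcs, mem_filter] at hF ⊢
  exact ⟨⟨S.down F hF.1 G h, h1.trans hF.2⟩, h1⟩

private theorem gt_up {s : Set (X →₀ ℕ)} (hs : ∀ a b, b ∈ s → a + b ∈ s) {f : S.T}
    (hf : f ∈ MvPolynomial.restrictSupport S.K s) (g : S.T) :
    g * f ∈ MvPolynomial.restrictSupport S.K s := by
  rw [MvPolynomial.mem_restrictSupport_iff] at hf ⊢
  intro m hm
  obtain ⟨a, ha, b, hb, rfl⟩ := Finset.mem_add.1 (MvPolynomial.support_mul _ _ hm)
  exact hs a b (hf hb)

private theorem gt_grd (s : Set (X →₀ ℕ)) : S.Grd (MvPolynomial.restrictSupport S.K s) := by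
  intro n f hf
  rw [MvPolynomial.mem_restrictSupport_iff] at hf ⊢
  intro m hm
  apply hf
  rw [mem_coe, MvPolynomial.mem_support_iff, MvPolynomial.coeff_homogeneousComponent] at hm
  rw [mem_coe, MvPolynomial.mem_support_iff]
  intro h
  rw [h, ite_self] at hm
  exact hm rfl

theorem mul_IT {f : S.T} (hf : f ∈ S.IT τ W) (g : S.T) : g * f ∈ S.IT τ W := by
  refine S.gt_up (fun a b hb => ?_) hf g
  intro h
  exact hb (S.gt_fcs (union_subset_union gt_ss subset_rfl) h).1

theorem mul_JT {f : S.T} (hf : f ∈ S.JT τ W U) (g : S.T) : g * f ∈ S.JT τ W U := by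
  refine S.gt_up (fun a b hb => ?_) hf g
  intro h
  have h1 := S.gt_fcs (union_subset_union (gt_ss (a := a) (b := b)) (subset_refl τ)) h
  exact (hb h1.1).trans h1.2

theorem grd_IT : S.Grd (S.IT τ W) := S.gt_grd _

theorem grd_JT : S.Grd (S.JT τ W U) := S.gt_grd _

theorem IT_le_JT : S.IT τ W ≤ S.JT τ W U := by
  intro f hf
  rw [mem_IT] at hf
  rw [mem_JT]
  exact fun m hm h => absurd h (hf m hm)

/-- The monomial of `τ`. -/
noncomputable def xT (τ : Finset X) : S.T := ∏ v ∈ τ, MvPolynomial.X v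

private theorem gt_prod (σ : Finset X) : (∏ v ∈ σ, MvPolynomial.X v : S.T) =
    MvPolynomial.monomial (∑ v ∈ σ, Finsupp.single v 1) 1 :=
  (MvPolynomial.monomial_sum_one σ fun v => Finsupp.single v 1).symm

private theorem gt_supp (σ : Finset X) :
    (∑ v ∈ σ, Finsupp.single v 1 : X →₀ ℕ).support = σ := by
  ext x
  rw [Finsupp.mem_support_iff, Finsupp.finsetSum_apply]
  simp [Finsupp.single_apply]

/-- The support of a monomial of `x_τ f` is the union of `τ` and the support of one of `f`. -/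
theorem supp_xT {f : S.T} {m : X →₀ ℕ} (hm : m ∈ (S.xT τ * f).support) :
    ∃ n ∈ f.support, m.support = n.support ∪ τ := by
  rw [xT, gt_prod] at hm
  obtain ⟨a, ha, b, hb, rfl⟩ := Finset.mem_add.1 (MvPolynomial.support_mul _ _ hm)
  have h1 : a = ∑ v ∈ τ, Finsupp.single v 1 := by
    simpa using MvPolynomial.support_monomial_subset ha
  refine ⟨b, hb, ?_⟩
  rw [h1, union_comm]
  ext x
  have h2 : x ∈ (∑ v ∈ τ, Finsupp.single v 1 : X →₀ ℕ).support ↔ x ∈ τ := by rw [gt_supp]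
  rw [Finsupp.mem_support_iff] at h2
  rw [Finsupp.mem_support_iff, mem_union, Finsupp.mem_support_iff, Finsupp.add_apply, ← h2]
  omega

theorem xT_IT {f : S.T} (hf : f ∈ S.IT τ W) : S.xT τ * f ∈ S.I W := by
  rw [mem_I]
  intro m hm
  obtain ⟨n, hn, h1⟩ := S.supp_xT hm
  rw [h1]
  exact S.mem_IT.1 hf n hn

theorem xT_JT {f : S.T} (hf : f ∈ S.JT τ W U) : S.xT τ * f ∈ S.J W U := by
  rw [mem_J]
  intro m hm
  obtain ⟨n, hn, h1⟩ := S.supp_xT hm
  rw [h1]
  exact S.mem_JT.1 hf n hn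

theorem xT_H (τ : Finset X) : S.xT τ ∈ S.H τ.card := by
  refine (MvPolynomial.mem_homogeneousSubmodule _ _).2 ?_
  have h := MvPolynomial.IsHomogeneous.prod τ (fun v => (MvPolynomial.X v : S.T)) (fun _ => 1)
    fun v _ => MvPolynomial.isHomogeneous_X S.K v
  rwa [Finset.sum_const, smul_eq_mul, mul_one] at h

/-- The monomial of a facet, divided by the monomial of `τ`. -/
theorem fac_JT {σ : Finset X} (hσ : σ ∈ S.facT τ W) : S.xT (σ \ τ) ∈ S.JT τ W W := by
  obtain ⟨h1, h2⟩ := S.mem_facT.1 hσ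
  rw [fac, st, mem_filter] at h1
  rw [mem_JT]
  intro m hm _
  rw [xT, gt_prod] at hm
  have h3 : m = ∑ v ∈ σ \ τ, Finsupp.single v 1 := by
    simpa using MvPolynomial.support_monomial_subset hm
  rw [h3, gt_supp, sdiff_union_of_subset h2, h1.2.2.1]

end Pool.Agent.LocH.Sub
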