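import Pool.Agent.LocH.Fin

/-!
# The symmetry of the local `h`-polynomial

The degrees `i` and `|W| - i` of the local face module are dual under the trace.
-/

set_option autoImplicit false

open Finset

namespace Pool.Agent.LH4

open Pool.Agent.LocH

/-- The two ranks of a bilinear form agree. -/
theorem rank_symm {K E F : Type} [Field K] [AddCommGroup E] [Module K E] [AddCommGroup F]
    [Module K F] [FiniteDimensional K E] [FiniteDimensional K F] (b : E →ₗ[K] F →ₗ[K] K)
    (b' : F →ₗ[K] E →ₗ[K] K) (h : ∀ x y, b x y = b' y x) :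
    Module.finrank K (LinearMap.range b) = Module.finrank K (LinearMap.range b') := by
  have h1 : b' = b.dualMap ∘ₗ (Module.evalEquiv K F).toLinearMap := by
    ext y x
    exact (h x y).symm
  rw [h1, LinearMap.range_comp_of_range_eq_top _ (LinearEquiv.range _)]
  exact (LinearMap.finrank_range_dualMap_eq_finrank_range b).symm

/-- Linear maps with the same kernel have the same rank. -/
theorem rank_of_ker {K E V F : Type} [Field K] [AddCommGroup E] [Module K E] [AddCommGroup V]
    [Module K V] [AddCommGroup F] [Module K F] [FiniteDimensional K E] (φ : E →ₗ[K] V)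
    (b : E →ₗ[K] F) (h : ∀ x, φ x = 0 ↔ b x = 0) :
    Module.finrank K (LinearMap.range φ) = Module.finrank K (LinearMap.range b) := by
  have h2 : LinearMap.ker φ = LinearMap.ker b := by
    ext x
    rw [LinearMap.mem_ker, LinearMap.mem_ker]
    exact h x
  have h5 := LinearMap.finrank_range_add_finrank_ker φ
  have h6 := LinearMap.finrank_range_add_finrank_ker b
  rw [h2] at h5
  omega

/-- The dimension of the image in the quotient is the rank of a map with the same kernel. -/
theorem map_rank {K T F : Type} [Field K] [AddCommGroup T] [Module K T] [AddCommGroup F]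
    [Module K F] (V B : Submodule K T) [FiniteDimensional K V] (b : V →ₗ[K] F)
    (h : ∀ x : V, (x : T) ∈ B ↔ b x = 0) :
    Module.finrank K (V.map B.mkQ) = Module.finrank K (LinearMap.range b) := by
  have h1 : V.map B.mkQ = LinearMap.range (B.mkQ ∘ₗ V.subtype) := by
    rw [LinearMap.range_comp, Submodule.range_subtype]
  rw [h1]
  refine rank_of_ker _ _ fun x => ?_
  rw [← h, LinearMap.comp_apply, Submodule.mkQ_apply, Submodule.Quotient.mk_eq_zero]
  rfl

variable {X Ω : Type} [Fintype X] [DecidableEq X] [Fintype Ω] [DecidableEq Ω] {S : Sub X Ω}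

/-- The elements of degree `n` of the interior ideal. -/
noncomputable def VJ (S : Sub X Ω) (W : Finset Ω) (n : ℕ) : Submodule S.K S.T := S.J W W ⊓ S.H n

omit [Fintype Ω] in
theorem VJ_fin (W : Finset Ω) (n : ℕ) : FiniteDimensional S.K (VJ S W n) := by
  have : Module.Finite S.K (S.H n) :=
    Module.Finite.iff_fg.2 (MvPolynomial.homogeneousSubmodule_fg X S.K n)
  exact Submodule.finiteDimensional_of_le inf_le_right

/-- The pairing of the degrees `n` and `k`. -/
noncomputable def bf (S : Sub X Ω) (W : Finset Ω) (n k : ℕ) :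
    VJ S W n →ₗ[S.K] VJ S W k →ₗ[S.K] S.K :=
  ((LinearMap.mul S.K S.T).compr₂ (S.Tr W)).compl₁₂ (VJ S W n).subtype (VJ S W k).subtype

omit [Fintype Ω] in
theorem bf_apply (W : Finset Ω) (n k : ℕ) (g : VJ S W n) (y : VJ S W k) :
    bf S W n k g y = S.Tr W ((g : S.T) * (y : S.T)) := rfl

omit [Fintype Ω] in
theorem bf_swap (W : Finset Ω) (n k : ℕ) (g : VJ S W n) (y : VJ S W k) :
    bf S W n k g y = bf S W k n y g := by
  rw [bf_apply, bf_apply, mul_comm]

omit [Fintype Ω] in
theorem rank_bf (W : Finset Ω) (n k : ℕ) :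
    Module.finrank S.K (LinearMap.range (bf S W n k)) =
      Module.finrank S.K (LinearMap.range (bf S W k n)) := by
  have h1 := VJ_fin (S := S) W n
  have h2 := VJ_fin (S := S) W k
  exact rank_symm (K := S.K) (E := VJ S W n) (F := VJ S W k) _ _ (bf_swap W n k)

theorem bf_zero (hT : S.Top S.K) {W : Finset Ω} {i : ℕ} (hi : i ≤ W.card) (g : VJ S W i) :
    (g : S.T) ∈ S.I W ⊔ S.thm W ⊤ ↔ bf S W i (W.card - i) g = 0 := by
  have h3 : (g : S.T) ∈ S.N W i ↔ (g : S.T) ∈ S.I W ⊔ S.thm W ⊤ := by
    rw [S.N_eq hT (Sub.dim hT) hi, Submodule.mem_inf]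
    exact ⟨fun h => h.2, fun h => ⟨g.2, h⟩⟩
  rw [← h3]
  constructor
  · intro h
    refine LinearMap.ext fun y => ?_
    exact h.2.2 y y.2.1 y.2.2
  · intro h
    refine ⟨g.2.1, g.2.2, fun y hy hyD => ?_⟩
    exact LinearMap.congr_fun h ⟨y, hy, hyD⟩

theorem dm_rank (hT : S.Top S.K) {W : Finset Ω} {i : ℕ} (hi : i ≤ W.card) :
    S.dm i (S.J W W) (S.I W ⊔ S.thm W ⊤) =
      Module.finrank S.K (LinearMap.range (bf S W i (W.card - i))) := by
  have := VJ_fin (S := S) W i
  exact map_rank (K := S.K) (T := S.T) (VJ S W i) (S.I W ⊔ S.thm W ⊤) (bf S W i (W.card - i))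
    (bf_zero hT hi)

/-- The coefficient is the rank of the pairing. -/
theorem coeff_rank (hT : S.Top S.K) {W : Finset Ω} {i : ℕ} (hi : i ≤ W.card) :
    (S.ell W).coeff i = (Module.finrank S.K (LinearMap.range (bf S W i (W.card - i))) : ℤ) := by
  rw [← (Sub.dim hT).hL, dm_rank hT hi]

/-- The symmetry. -/
theorem ell_symm (hT : S.Top S.K) {W : Finset Ω} {i : ℕ} (hi : i ≤ W.card) :
    (S.ell W).coeff i = (S.ell W).coeff (W.card - i) := by
  have h1 := coeff_rank hT hi
  have h2 := coeff_rank hT (Nat.sub_le W.card i)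
  rw [Nat.sub_sub_self hi] at h2
  rw [h1, h2, rank_bf]

/-- The middle step for an odd number of coordinates. -/
theorem ell_mid (hT : S.Top S.K) {W : Finset Ω} {i : ℕ} (hi : 2 * i + 1 = W.card) :
    (S.ell W).coeff i = (S.ell W).coeff (i + 1) := by
  have h := ell_symm hT (W := W) (i := i) (by omega)
  rwa [show W.card - i = i + 1 by omega] at h

end Pool.Agent.LH4
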