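import Pool.Agent.LH4.Pi2
import Pool.Agent.LH4.Vgf4

/-!
# Forms on the monomials of degree `|W| - 2`, `|W| = 7`: tools

`hall_cap`: Hall's theorem with capacities.  `mx`: a function on the monomials of degree `d + 1` of
the restriction to `U` which kills the relations and the products with the sum of the variables is
zero at the monomials with carrier `U`.
-/

set_option autoImplicit false

open Finset

namespace Pool.Agent.LH4

section comb

variable {X Ω : Type} [Fintype X] [DecidableEq X] [DecidableEq Ω] {car : X → Finset Ω}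
  {W : Finset Ω}

/-- Hall's theorem with capacities. -/
theorem hall_cap [Nonempty X] {m : X →₀ ℕ}
    (h : ∀ C ⊆ W, C.card ≤ ∑ v ∈ univ.filter (fun v => ¬ Disjoint (car v) C), m v) :
    ∃ (J : Ω → X) (r : X →₀ ℕ), (∀ c ∈ W, c ∈ car (J c)) ∧
      ∑ c ∈ W, Finsupp.single (J c) 1 + r = m := by
  classical
  let t : {c // c ∈ W} → Finset (Σ _ : X, ℕ) := fun c =>
    (univ.filter (fun v => (c : Ω) ∈ car v)).sigma (fun v => range (m v))
  have hall : ∀ C : Finset {c // c ∈ W}, C.card ≤ (C.biUnion t).card := by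
    intro C
    set C' : Finset Ω := C.map (Function.Embedding.subtype _) with hC'
    have hC'W : C' ⊆ W := by
      intro c hc
      rw [hC', Finset.mem_map] at hc
      obtain ⟨c', _, rfl⟩ := hc
      exact c'.2
    have hcard : C'.card = C.card := Finset.card_map _
    have h1 := h C' hC'W
    have h2 : ((univ.filter (fun v => ¬ Disjoint (car v) C')).sigma (fun v => range (m v))) ⊆
        C.biUnion t := by
      rintro ⟨v, i⟩ hvi
      rw [Finset.mem_sigma, Finset.mem_filter] at hvi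
      obtain ⟨⟨_, hv⟩, hi⟩ := hvi
      rw [Finset.not_disjoint_iff] at hv
      obtain ⟨c, hc, hc'⟩ := hv
      rw [hC', Finset.mem_map] at hc'
      obtain ⟨c', hcs, rfl⟩ := hc'
      rw [Finset.mem_biUnion]
      refine ⟨c', hcs, ?_⟩
      rw [Finset.mem_sigma, Finset.mem_filter]
      exact ⟨⟨Finset.mem_univ _, hc⟩, hi⟩
    refine le_trans ?_ (Finset.card_le_card h2)
    rw [Finset.card_sigma]
    simp only [Finset.card_range]
    rw [← hcard]
    exact h1
  obtain ⟨f, hf, hft⟩ := (Finset.all_card_le_biUnion_card_iff_exists_injective t).1 hall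
  have hft' : ∀ c : {c // c ∈ W}, (c : Ω) ∈ car (f c).1 ∧ (f c).2 < m (f c).1 := by
    intro c
    have h1 := hft c
    rw [Finset.mem_sigma, Finset.mem_filter, Finset.mem_range] at h1
    exact ⟨h1.1.2, h1.2⟩
  set J : Ω → X := fun c => if h : c ∈ W then (f ⟨c, h⟩).1 else Classical.arbitrary X with hJ
  have hJW : ∀ c (h : c ∈ W), J c = (f ⟨c, h⟩).1 := fun c h => by rw [hJ]; exact dif_pos h
  have hle : ∀ v, (W.filter (fun c => J c = v)).card ≤ m v := by
    intro v
    have h1 : m v = (range (m v)).card := (Finset.card_range _).symm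
    rw [h1]
    refine Finset.card_le_card_of_injOn (fun c => if h : c ∈ W then (f ⟨c, h⟩).2 else 0) ?_ ?_
    · intro c hc
      rw [Finset.mem_coe, Finset.mem_filter] at hc
      obtain ⟨hc, hcv⟩ := hc
      rw [hJW c hc] at hcv
      beta_reduce
      rw [dif_pos hc, Finset.mem_coe, Finset.mem_range, ← hcv]
      exact (hft' ⟨c, hc⟩).2
    · intro c hc c' hc' hcc
      rw [Finset.mem_coe, Finset.mem_filter] at hc hc'
      obtain ⟨hc, hcv⟩ := hc
      obtain ⟨hc', hcv'⟩ := hc'
      rw [hJW c hc] at hcv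
      rw [hJW c' hc'] at hcv'
      beta_reduce at hcc
      rw [dif_pos hc, dif_pos hc'] at hcc
      have h1 : f ⟨c, hc⟩ = f ⟨c', hc'⟩ := by
        rw [Sigma.ext_iff]
        exact ⟨hcv.trans hcv'.symm, heq_of_eq hcc⟩
      exact congrArg Subtype.val (hf h1)
  have hcnt : ∀ v, (∑ c ∈ W, Finsupp.single (J c) 1 : X →₀ ℕ) v =
      (W.filter fun c => J c = v).card := by
    intro v
    rw [Finsupp.finsetSum_apply, Finset.card_filter]
    exact Finset.sum_congr rfl fun c _ => by rw [Finsupp.single_apply]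
  refine ⟨J, m - ∑ c ∈ W, Finsupp.single (J c) 1, fun c hc => ?_, ?_⟩
  · rw [hJW c hc]
    exact (hft' ⟨c, hc⟩).1
  · refine add_tsub_cancel_of_le fun v => ?_
    rw [hcnt]
    exact hle v

end comb

open Pool.Agent.LocH

variable {X Ω : Type} [Fintype X] [DecidableEq X] [Fintype Ω] [DecidableEq Ω] {S : Sub X Ω}

/-! ### Monomials with a given carrier -/

theorem face_sub {U : Finset Ω} {F F' : Finset X} (h : F' ⊆ F) (hF : F ∈ S.fcs U) : F' ∈ S.fcs U :=
  mem_fcs'.2 ⟨S.down _ (mem_fcs'.1 hF).1 _ h,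
    (Finset.biUnion_subset_biUnion_of_subset_left _ h).trans (mem_fcs'.1 hF).2⟩

/-- A function on the monomials of degree `d + 1` of the restriction to `U` which kills the
relations and the products with the sum of the variables is zero at the monomials with carrier `U`.
-/
theorem mx (hT : S.Top S.K) {U : Finset Ω} {φ : (X →₀ ℕ) → S.K} {d : ℕ} (h1 : 1 ≤ U.card)
    (h2 : U.card ≤ d + 4) (h3 : U.card < 2 * (d + 1))
    (hf : ∀ s : X →₀ ℕ, s.degree = d + 1 → s.support ∉ S.Gam → φ s = 0)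
    (hth : ∀ c ∈ U, ∀ t : X →₀ ℕ, t.degree = d → t.support ∈ S.fcs U →
      U.erase c ⊆ S.cr t.support →
      ∑ v ∈ univ.filter (fun v => S.car v ⊆ U), S.a v c * φ (Finsupp.single v 1 + t) = 0)
    (hlam : d + 1 < U.card → ∀ t : X →₀ ℕ, t.degree = d → t.support ∈ S.fcs U →
      U ⊆ S.cr t.support →
      ∑ v ∈ univ.filter (fun v => S.car v ⊆ U), φ (Finsupp.single v 1 + t) = 0)
    {s : X →₀ ℕ} (hs : s.degree = d + 1) (hsU : s.support ∈ S.fcs U) (hsc : U ⊆ S.cr s.support) :
    φ s = 0 := by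
  set F : S.T →ₗ[S.K] S.K := lfm S fun s => if s.support ∈ S.fcs U then φ s else 0 with hF
  have hFm : ∀ s, F (S.mo s) = if s.support ∈ S.fcs U then φ s else 0 := fun s => by
    rw [hF, lfm_mo]
  have hFI : ∀ y ∈ S.I U, F y = 0 := fun y hy => form_zero fun s hs => by
    rw [hFm, if_neg (S.mem_I.1 hy s hs)]
  -- the terms at the vertices of the restriction
  have hin : ∀ (v : X) (t : X →₀ ℕ), t.degree = d → t.support ∈ S.fcs U → S.car v ⊆ U →
      F (S.mo (Finsupp.single v 1 + t)) = φ (Finsupp.single v 1 + t) := by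
    intro v t ht htU hv
    rw [hFm]
    by_cases h : (Finsupp.single v 1 + t).support ∈ S.fcs U
    · rw [if_pos h]
    · rw [if_neg h, hf _ (by rw [deg_single_add, ht])]
      intro h'
      refine h (mem_fcs'.2 ⟨h', ?_⟩)
      rw [supp_single_add, cr_insert]
      exact Finset.union_subset hv (mem_fcs'.1 htU).2
  have hex : ∀ (v : X) (t : X →₀ ℕ), ¬ S.car v ⊆ U →
      F (S.mo (Finsupp.single v 1 + t)) = 0 := by
    intro v t hv
    rw [hFm, if_neg]
    intro h
    refine hv ((Finset.subset_biUnion_of_mem S.car ?_).trans (mem_fcs'.1 h).2)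
    rw [supp_single_add]
    exact Finset.mem_insert_self _ _
  have hKil : Kil S U (d + 1) F := by
    refine ⟨fun y hy _ => hFI y hy, fun c hc k hk y hy hyk => ?_⟩
    refine form_mul_zero _ fun s hs => ?_
    have hsk : s.degree = d := by
      rw [deg_of_H hyk hs]
      omega
    by_cases h4 : s.support ∈ S.fcs U
    · rw [th_apply, ← hth c hc s hsk h4 (S.mem_J.1 hy s hs h4), Finset.sum_filter]
      refine Finset.sum_congr rfl fun v _ => ?_
      by_cases hv : S.car v ⊆ U
      · rw [if_pos hv, hin v s hsk h4 hv]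
      · rw [if_neg hv, hex v s hv, mul_zero]
    · exact hFI _ (S.mul_I (mo_I h4) _)
  have hy : S.mo s ∈ S.J U U := mo_J fun _ => hsc
  have hyH : S.mo s ∈ S.H (d + 1) := hs ▸ mo_H s
  have h4 : F (S.mo s) = φ s := by rw [hFm, if_pos hsU]
  rw [← h4]
  rcases Nat.lt_or_ge U.card (d + 1) with h5 | h5
  · exact F_zero hT hKil hy hyH (H_le_top hT h5 hyH)
  rcases Nat.lt_or_ge (d + 1) U.card with h6 | h6
  · obtain ⟨j, hj⟩ := Nat.exists_eq_add_of_lt h6
    refine rep_zero hT (n := d) (j := j + 1) (by omega) (TJ_le hT (by omega) (by omega)) hKil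
      (fun y hy hyn => form_mul_zero _ fun t ht => ?_) hy hyH
    have hdt := deg_of_H hyn ht
    by_cases h7 : t.support ∈ S.fcs U
    · rw [lam_apply, ← hlam h6 t hdt h7 (S.mem_J.1 hy t ht h7)]
      refine Finset.sum_congr rfl fun v hv => ?_
      exact hin v t hdt h7 (Finset.mem_filter.1 hv).2
    · exact hFI _ (S.mul_I (mo_I h7) _)
  · obtain ⟨g, hg1, hg2, hg⟩ := rep hT (j := 0) (n := d + 1) (by omega) hKil
    rw [hg _ hy hyH, J_H_zero h1 hg1 hg2, zero_mul, map_zero]

/-! ### The forms -/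

variable {W : Finset Ω}

/-- A form on the monomials of degree five which is zero at the non-faces and at the bad monomials
and kills the available relations. -/
structure In7 (S : Sub X Ω) (W : Finset Ω) (F : S.T →ₗ[S.K] S.K) : Prop where
  bad : ∀ N : X →₀ ℕ, N.degree = 5 → ¬ (N.support ∈ S.fcs W ∧ S.Good W N) → F (S.mo N) = 0
  th : ∀ c ∈ W, ∀ M : X →₀ ℕ, M.degree = 4 → (∀ E ⊆ W, c ∉ E → E.card ≤ 2 * S.dgC E M) →
    ∑ v, S.a v c * F (S.mo (Finsupp.single v 1 + M)) = 0
  lam : ∀ M : X →₀ ℕ, M.degree = 4 → (∀ E ⊆ W, E.card ≤ 2 * S.dgC E M) →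
    ∑ v ∈ univ.filter (fun v => S.car v ⊆ W), F (S.mo (Finsupp.single v 1 + M)) = 0

/-- The monomials `z + s` where `s` has the carrier `U`. -/
theorem In7.mx (hT : S.Top S.K) {F : S.T →ₗ[S.K] S.K} (hF : In7 S W F) {U : Finset Ω} (hU : U ⊆ W)
    {z : X →₀ ℕ} {d : ℕ} (hz : z.degree + d = 4) (h1 : 1 ≤ U.card) (h2 : U.card ≤ d + 4)
    (h3 : U.card < 2 * (d + 1))
    (h : ∀ (C : Finset Ω) (t : X →₀ ℕ) (v : X), C ⊆ U → C.card ≤ 1 →
      (d + 1 < U.card ∨ C.card = 1) → t.degree = d → t.support ∈ S.fcs U →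
      U \ C ⊆ S.cr t.support → C ⊆ S.car v → S.car v ⊆ W →
      (z + (Finsupp.single v 1 + t)).support ∈ S.fcs W →
      S.Good W (z + (Finsupp.single v 1 + t)) →
      (¬ S.car v ⊆ U ∨ ∃ E ⊆ W, Disjoint E C ∧ 2 * S.dgC E (z + t) < E.card) →
      F (S.mo (z + (Finsupp.single v 1 + t))) = 0)
    {s : X →₀ ℕ} (hs : s.degree = d + 1) (hsU : s.support ∈ S.fcs U) (hsc : U ⊆ S.cr s.support) :
    F (S.mo (z + s)) = 0 := by
  -- the terms of the relations
  have key : ∀ (C : Finset Ω) (t : X →₀ ℕ) (v : X), C ⊆ U → C.card ≤ 1 →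
      (d + 1 < U.card ∨ C.card = 1) → t.degree = d → t.support ∈ S.fcs U →
      U \ C ⊆ S.cr t.support → C ⊆ S.car v →
      (¬ S.car v ⊆ U ∨ ∃ E ⊆ W, Disjoint E C ∧ 2 * S.dgC E (z + t) < E.card) →
      F (S.mo (z + (Finsupp.single v 1 + t))) = 0 := by
    intro C t v hC hC1 hC2 ht htU htc hv hE
    by_cases h4 : (z + (Finsupp.single v 1 + t)).support ∈ S.fcs W ∧
        S.Good W (z + (Finsupp.single v 1 + t))
    · refine h C t v hC hC1 hC2 ht htU htc hv (car_sub_of_mem h4.1 ?_) h4.1 h4.2 hE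
      refine mem_supp_addP.2 (Or.inr ?_)
      rw [supp_single_add]
      exact Finset.mem_insert_self _ _
    · refine hF.bad _ ?_ h4
      rw [map_add, deg_single_add]
      omega
  refine Pool.Agent.LH4.mx hT (U := U) (φ := fun s => F (S.mo (z + s))) (d := d) h1 h2 h3
    (fun s hs h4 => ?_) (fun c hc t ht htU htc => ?_) (fun h4 t ht htU htc => ?_) hs hsU hsc
  · refine hF.bad _ (by rw [map_add]; omega) fun h5 => h4 ?_
    exact S.down _ (mem_fcs'.1 h5.1).1 _ fun v hv => mem_supp_addP.2 (Or.inr hv)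
  · have hk : ∀ v, c ∈ S.car v →
        (¬ S.car v ⊆ U ∨ ∃ E ⊆ W, Disjoint E {c} ∧ 2 * S.dgC E (z + t) < E.card) →
        F (S.mo (z + (Finsupp.single v 1 + t))) = 0 := fun v hv hE =>
      key {c} t v (Finset.singleton_subset_iff.2 hc) (Finset.card_singleton c).le
        (Or.inr (Finset.card_singleton c)) ht htU (by rw [← Finset.erase_eq]; exact htc)
        (Finset.singleton_subset_iff.2 hv) hE
    by_cases h5 : ∃ E ⊆ W, Disjoint E {c} ∧ 2 * S.dgC E (z + t) < E.card
    · refine Finset.sum_eq_zero fun v _ => ?_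
      by_cases hv : c ∈ S.car v
      · rw [hk v hv (Or.inr h5), mul_zero]
      · rw [S.a_zero hv, zero_mul]
    · have h6 := hF.th c (hU hc) (z + t) (by rw [map_add]; omega) fun E hE hcE => by
        by_contra h7
        exact h5 ⟨E, hE, Finset.disjoint_singleton_right.2 hcE, by omega⟩
      rw [← h6, Finset.sum_filter]
      refine Finset.sum_congr rfl fun v _ => ?_
      rw [add_left_comm (Finsupp.single v 1) z t]
      by_cases hv : c ∈ S.car v
      · by_cases hvU : S.car v ⊆ U
        · rw [if_pos hvU]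
        · rw [if_neg hvU, hk v hv (Or.inl hvU), mul_zero]
      · rw [S.a_zero hv, zero_mul]
        exact ite_self _
  · have hk : ∀ v,
        (¬ S.car v ⊆ U ∨ ∃ E ⊆ W, Disjoint E ∅ ∧ 2 * S.dgC E (z + t) < E.card) →
        F (S.mo (z + (Finsupp.single v 1 + t))) = 0 := fun v hE =>
      key ∅ t v (Finset.empty_subset _) (by rw [Finset.card_empty]; omega)
        (Or.inl h4) ht htU (by rw [Finset.sdiff_empty]; exact htc)
        (Finset.empty_subset _) hE
    by_cases h5 : ∃ E ⊆ W, Disjoint E ∅ ∧ 2 * S.dgC E (z + t) < E.card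
    · exact Finset.sum_eq_zero fun v _ => hk v (Or.inr h5)
    · have h6 := hF.lam (z + t) (by rw [map_add]; omega) fun E hE => by
        by_contra h7
        exact h5 ⟨E, hE, Finset.disjoint_empty_right _, by omega⟩
      rw [← h6]
      refine Finset.sum_subset_zero_on_sdiff ?_ (fun v hv => ?_) fun v _ => ?_
      · exact fun v hv => Finset.mem_filter.2 ⟨Finset.mem_univ _,
          (Finset.mem_filter.1 hv).2.trans hU⟩
      · rw [Finset.mem_sdiff, Finset.mem_filter, Finset.mem_filter] at hv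
        rw [add_left_comm (Finsupp.single v 1) z t]
        exact hk v (Or.inl fun h7 => hv.2 ⟨Finset.mem_univ _, h7⟩)
      · rw [add_left_comm (Finsupp.single v 1) z t]

end Pool.Agent.LH4
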