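import Pool.Agent.LH4.V7a

/-!
# Forms on the monomials of degree `|W| - 2`, `|W| = 7`: products with two large vertices
-/

set_option autoImplicit false
set_option linter.unusedSectionVars false

open Finset

namespace Pool.Agent.LH4

open Pool.Agent.LocH

variable {X Ω : Type} [Fintype X] [DecidableEq X] [Fintype Ω] [DecidableEq Ω] {S : Sub X Ω}
  {W : Finset Ω} {F : S.T →ₗ[S.K] S.K}

/-! ### Counting -/

theorem car_pos (v : X) : 1 ≤ (S.car v).card := by
  have h := S.card_le _ (S.vert v)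
  rwa [Finset.card_singleton, Finset.singleton_biUnion] at h

theorem dgC_le_degree (E : Finset Ω) (q : X →₀ ℕ) : S.dgC E q ≤ q.degree := by
  rw [Finsupp.degree_eq_sum]
  exact Finset.sum_le_sum_of_subset (Finset.subset_univ _)

theorem disj_of_dgC {E : Finset Ω} {q : X →₀ ℕ} (h : S.dgC E q = 0) {v : X} (hv : v ∈ q.support) :
    Disjoint (S.car v) E := by
  by_contra h1
  have h2 := S.le_dgC h1 q
  have h3 := Finsupp.mem_support_iff.1 hv
  omega

theorem cr_disj {E : Finset Ω} {q : X →₀ ℕ} (h : S.dgC E q = 0) : Disjoint (S.cr q.support) E := by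
  rw [Finset.disjoint_left]
  intro c hc hcE
  obtain ⟨v, hv, hcv⟩ := Finset.mem_biUnion.1 hc
  exact Finset.disjoint_left.1 (disj_of_dgC h hv) hcv hcE

theorem dgC_of_cr {E : Finset Ω} {q : X →₀ ℕ} (h : Disjoint (S.cr q.support) E) :
    S.dgC E q = 0 :=
  dgC_zero_of fun _ hv => h.mono_left (Finset.subset_biUnion_of_mem S.car hv)

theorem dgC_one_le {E : Finset Ω} (v : X) : S.dgC E (Finsupp.single v 1) ≤ 1 := by
  rw [S.dgC_single]
  split_ifs <;> omega

theorem dgC_one {E : Finset Ω} {v : X} (h : ¬ Disjoint (S.car v) E) :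
    S.dgC E (Finsupp.single v 1) = 1 := by
  rw [S.dgC_single, if_neg h]

theorem dgC_nil {E : Finset Ω} {v : X} (h : Disjoint (S.car v) E) :
    S.dgC E (Finsupp.single v 1) = 0 := by
  rw [S.dgC_single, if_pos h]

/-- A factor that meets `E`. -/
theorem fac_one {E : Finset Ω} {q : X →₀ ℕ} (h : 0 < S.dgC E q) :
    ∃ (x : X) (q' : X →₀ ℕ), q = Finsupp.single x 1 + q' ∧ ¬ Disjoint (S.car x) E ∧
      S.dgC E q = S.dgC E q' + 1 := by
  obtain ⟨x, hx, hx'⟩ := S.exists_of_dgC_pos h
  obtain ⟨q', hq', -⟩ := exists_s1 (v := x) (M := q) (by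
    have := Finsupp.mem_support_iff.1 hx
    omega)
  refine ⟨x, q', hq', hx', ?_⟩
  rw [hq', S.dgC_add, dgC_one hx', add_comm]

theorem cr_single_add (v : X) (t : X →₀ ℕ) :
    S.cr (Finsupp.single v 1 + t).support = S.car v ∪ S.cr t.support := by
  rw [supp_single_add, cr_insert]

theorem cov_add {U C : Finset Ω} {t : X →₀ ℕ} {v : X} (h1 : U \ C ⊆ S.cr t.support)
    (h2 : C ⊆ S.car v) : U ⊆ S.cr (Finsupp.single v 1 + t).support := by
  rw [cr_single_add]
  intro c hc
  by_cases hcC : c ∈ C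
  · exact Finset.mem_union_left _ (h2 hcC)
  · exact Finset.mem_union_right _ (h1 (Finset.mem_sdiff.2 ⟨hc, hcC⟩))

theorem min_viol {wt : Finset Ω → ℕ} {k : ℕ} (h : ∀ E ⊆ W, E.card ≤ wt E + (k + 1))
    (h' : ¬ ∀ E ⊆ W, E.card ≤ wt E + k) : ∃ C ⊆ W, C.card = wt C + (k + 1) ∧
      ∀ E ⊆ C, E.card ≤ wt E + k + if E = C then 1 else 0 := by
  push Not at h'
  obtain ⟨C0, hC0, hC0'⟩ := h'
  obtain ⟨C, hC, hmin⟩ := Finset.exists_min_image
    (W.powerset.filter fun E => wt E + k < E.card) Finset.card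
    ⟨C0, Finset.mem_filter.2 ⟨Finset.mem_powerset.2 hC0, hC0'⟩⟩
  have hCW : C ⊆ W := Finset.mem_powerset.1 (Finset.mem_filter.1 hC).1
  have hCc := (Finset.mem_filter.1 hC).2
  have h1 := h C hCW
  refine ⟨C, hCW, by omega, fun E hE => ?_⟩
  by_cases hEC : E = C
  · rw [if_pos hEC, hEC]
    omega
  · rw [if_neg hEC]
    by_contra h2
    have h3 := hmin E (Finset.mem_filter.2 ⟨Finset.mem_powerset.2 (hE.trans hCW), by omega⟩)
    exact hEC (Finset.eq_of_subset_of_card_le hE h3)

/-! ### The core of the first stage -/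

theorem coreX (hT : S.Top S.K) (hF : In7 S W F) {z z1 z2 : X →₀ ℕ}
    (hz : z = z1 + z2) (hzd : z.degree = 2) {C U : Finset Ω} (hU : U ⊆ W \ C)
    (hU1 : 1 ≤ U.card) (hU3 : U.card ≤ 3) {x : X} {e : ℕ}
    (hg : ∀ E ⊆ C, E.card ≤ 2 * S.dgC E (z1 + Finsupp.single x 1))
    (h1 : ∀ E ⊆ C, E.card ≤ 2 * S.dgC E (Finsupp.single x 1) + S.dgC E z1 + e +
      if E = C then 1 else 0)
    (k1 : ∀ E ⊆ W \ C, E.card ≤ 2 + S.dgC E z2) (k2 : ∀ E ⊆ W \ C, (E \ U).card ≤ S.dgC E z2)
    (hin : ∀ (v : X) (t : X →₀ ℕ), t.degree = 1 → U ⊆ S.cr (Finsupp.single v 1 + t).support →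
      (Finsupp.single v 1 + t).support ∈ S.fcs (W \ C) → ¬ S.car v ⊆ U →
      F (S.mo (z + (Finsupp.single x 1 + (Finsupp.single v 1 + t)))) = 0)
    (herr : ∀ (v : X) (t : X →₀ ℕ), t.degree = 1 → U ⊆ S.cr (Finsupp.single v 1 + t).support →
      (∀ E ⊆ W, E.card ≤ 2 * S.dgC E (Finsupp.single x 1 + (Finsupp.single v 1 + t)) +
        S.dgC E z + e) →
      F (S.mo (z + (Finsupp.single x 1 + (Finsupp.single v 1 + t)))) = 0)
    {s : X →₀ ℕ} (hs : s.degree = 2) (hsU : s.support ∈ S.fcs U) (hsc : U ⊆ S.cr s.support) :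
    F (S.mo (z + (Finsupp.single x 1 + s))) = 0 := by
  rw [← add_assoc]
  have hUW : U ⊆ W := hU.trans Finset.sdiff_subset
  -- the second part of a set
  have h2 : ∀ E ⊆ W \ C, ∀ (C0 : Finset Ω) (t : X →₀ ℕ), C0.card ≤ 1 →
      U \ C0 ⊆ S.cr t.support →
      E.card ≤ 2 * S.dgC E t + S.dgC E z2 + if Disjoint E C0 then 0 else 1 := by
    intro E hE C0 t hC0 ht
    have h3 := k1 E hE
    by_cases h4 : S.dgC E t = 0
    · have h5 : E ∩ U ⊆ C0 ∩ E := by
        intro c hc
        rw [Finset.mem_inter] at hc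
        refine Finset.mem_inter.2 ⟨?_, hc.1⟩
        by_contra hc0
        exact Finset.disjoint_left.1 (cr_disj h4) (ht (Finset.mem_sdiff.2 ⟨hc.2, hc0⟩)) hc.1
      have h6 := Finset.card_le_card h5
      have h7 : (E ∩ U).card + (E \ U).card = E.card := Finset.card_inter_add_card_sdiff E U
      have h8 := k2 E hE
      by_cases h9 : Disjoint E C0
      · rw [if_pos h9]
        rw [Finset.disjoint_iff_inter_eq_empty.1 h9.symm, Finset.card_empty] at h6
        omega
      · rw [if_neg h9]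
        have h10 : (C0 ∩ E).card ≤ C0.card := Finset.card_le_card Finset.inter_subset_left
        omega
    · omega
  refine hF.mx hT (U := U) hUW (z := z + Finsupp.single x 1) (d := 1) (by
    rw [map_add, Finsupp.degree_single]
    omega) hU1 (by omega) (by omega) ?_ hs hsU hsc
  intro C0 t v hC0U hC0 _ ht htU htc hv hvW hs' _ hE
  have hcov := cov_add htc hv
  rw [add_assoc]
  by_cases hvU : S.car v ⊆ U
  · exfalso
    rcases hE with hE | ⟨E, hEW, hE0, hE⟩
    · exact hE hvU
    have h3 := hg (E ∩ C) Finset.inter_subset_right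
    have h4 := h2 (E \ C) (Finset.sdiff_subset_sdiff hEW (Finset.Subset.refl C)) C0 t hC0 htc
    rw [if_pos (hE0.mono_left Finset.sdiff_subset)] at h4
    have h5 : (E ∩ C).card + (E \ C).card = E.card := Finset.card_inter_add_card_sdiff E C
    have h6 := dgC_mono (S := S) (Finset.inter_subset_left : E ∩ C ⊆ E) (z1 + Finsupp.single x 1)
    have h7 := dgC_mono (S := S) (Finset.sdiff_subset : E \ C ⊆ E) t
    have h8 := dgC_mono (S := S) (Finset.sdiff_subset : E \ C ⊆ E) z2
    rw [hz, S.dgC_add, S.dgC_add, S.dgC_add] at hE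
    rw [S.dgC_add, S.dgC_add] at h6
    rw [S.dgC_add] at h3
    omega
  · by_cases hvC : Disjoint (S.car v) C
    · refine hin v t ht hcov ?_ hvU
      have h3 : (Finsupp.single v 1 + t).support ⊆
          (z + Finsupp.single x 1 + (Finsupp.single v 1 + t)).support :=
        fun w hw => mem_supp_addP.2 (Or.inr hw)
      refine mem_fcs'.2 ⟨S.down _ (mem_fcs'.1 hs').1 _ h3, ?_⟩
      rw [cr_single_add]
      exact Finset.union_subset (Finset.subset_sdiff.2 ⟨hvW, hvC⟩) ((mem_fcs'.1 htU).2.trans hU)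
    · refine herr v t ht hcov fun E hEW => ?_
      have h3 := h1 (E ∩ C) Finset.inter_subset_right
      have h4 := h2 (E \ C) (Finset.sdiff_subset_sdiff hEW (Finset.Subset.refl C)) C0 t hC0 htc
      have h5 : (E ∩ C).card + (E \ C).card = E.card := Finset.card_inter_add_card_sdiff E C
      have h6 := dgC_mono (S := S) (Finset.inter_subset_left : E ∩ C ⊆ E) z1
      have h7 := dgC_mono (S := S) (Finset.sdiff_subset : E \ C ⊆ E) t
      have h8 := dgC_mono (S := S) (Finset.sdiff_subset : E \ C ⊆ E) z2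
      have h9 := dgC_mono (S := S) (Finset.inter_subset_left : E ∩ C ⊆ E) (Finsupp.single x 1)
      have h10 : (if E ∩ C = C then 1 else 0) ≤ S.dgC E (Finsupp.single v 1) := by
        by_cases h : E ∩ C = C
        · rw [if_pos h, dgC_one]
          intro h'
          exact hvC (h'.mono_right (Finset.inter_eq_right.1 h))
        · rw [if_neg h]
          exact Nat.zero_le _
      have h11 : (if Disjoint (E \ C) C0 then 0 else 1) ≤ S.dgC E (Finsupp.single v 1) := by
        by_cases h : Disjoint (E \ C) C0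
        · rw [if_pos h]
          exact Nat.zero_le _
        · rw [if_neg h, dgC_one]
          intro h'
          exact h ((h'.mono_left hv).symm.mono_left Finset.sdiff_subset)
      rw [hz, S.dgC_add, S.dgC_add, S.dgC_add]
      omega

/-! ### The first stage -/

/-- The pair `a`, `b` is wide. -/
structure Wide (S : Sub X Ω) (a b : X) : Prop where
  l : 3 ≤ (S.car a).card
  r : 3 ≤ (S.car b).card
  u : 5 ≤ (S.car a ∪ S.car b).card

theorem Wide.symm {a b : X} (h : Wide S a b) : Wide S b a :=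
  ⟨h.r, h.l, by rw [Finset.union_comm]; exact h.u⟩

/-- The counting of the first stage. -/
theorem countX (hW : W.card = 7) {a b : X} (hab : Wide S a b) {q : X →₀ ℕ} (hq : q.degree = 3)
    (hc : 6 ≤ (S.cr q.support).card)
    (hs : (Finsupp.single a 1 + Finsupp.single b 1 + q).support ∈ S.fcs W)
    (hg : S.Good W (Finsupp.single a 1 + Finsupp.single b 1 + q)) {C : Finset Ω} (hC : C ⊆ W)
    {k : ℕ} (hk : k ≤ 1)
    (hCc : C.card = 2 * S.dgC C q + S.dgC C (Finsupp.single a 1 + Finsupp.single b 1) + (k + 1)) :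
    S.dgC C q = 1 ∧ ((C.card = 5 + k ∧ ¬ Disjoint (S.car a) C ∧ ¬ Disjoint (S.car b) C) ∨
      (k = 0 ∧ C.card = 4 ∧ ¬ Disjoint (S.car a) C ∧ Disjoint (S.car b) C) ∨
      (k = 0 ∧ C.card = 4 ∧ Disjoint (S.car a) C ∧ ¬ Disjoint (S.car b) C)) := by
  have hcar : ∀ v ∈ (Finsupp.single a 1 + Finsupp.single b 1 + q).support, S.car v ⊆ W :=
    fun v hv => car_sub_of_mem hs hv
  have haW : S.car a ⊆ W := hcar a (by
    rw [Finsupp.mem_support_iff, Finsupp.add_apply, Finsupp.add_apply, Finsupp.single_eq_same]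
    omega)
  have hbW : S.car b ⊆ W := hcar b (by
    rw [Finsupp.mem_support_iff, Finsupp.add_apply, Finsupp.add_apply, Finsupp.single_eq_same]
    omega)
  have hqW : S.cr q.support ⊆ W := by
    intro c hc
    obtain ⟨v, hv, hcv⟩ := Finset.mem_biUnion.1 hc
    exact hcar v (mem_supp_addP.2 (Or.inr hv)) hcv
  have h0 : (W \ C).card + C.card = W.card := Finset.card_sdiff_add_card_eq_card hC
  have h1 := hg C hC
  have h2 := dgC_le_degree (S := S) C q
  have h3 : S.dgC C q = 0 → C.card ≤ 1 := by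
    intro h
    have h4 : S.cr q.support ⊆ W \ C := Finset.subset_sdiff.2 ⟨hqW, cr_disj h⟩
    have h5 := Finset.card_le_card h4
    omega
  have h4 : C.card = 7 → S.dgC C q = 3 := by
    intro h
    have h5 : C = W := Finset.eq_of_subset_of_card_le hC (by omega)
    rw [dgC_eq_degree, hq]
    intro v hv hd
    have h6 : S.car v ⊆ C := by
      rw [h5]
      exact (Finset.subset_biUnion_of_mem S.car hv).trans hqW
    have h7 := car_pos (S := S) v
    obtain ⟨c, hc⟩ := Finset.card_pos.1 h7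
    exact Finset.disjoint_left.1 hd hc (h6 hc)
  have ha1 := hab.l
  have hb1 := hab.r
  have hu1 := hab.u
  have h5 := Finset.card_le_card hC
  rw [S.dgC_add, S.dgC_add] at h1
  rw [S.dgC_add] at hCc
  by_cases hda : Disjoint (S.car a) C
  · have h6 := Finset.card_le_card (Finset.subset_sdiff.2 ⟨haW, hda⟩)
    rw [dgC_nil hda] at h1 hCc
    by_cases hdb : Disjoint (S.car b) C
    · rw [dgC_nil hdb] at h1 hCc
      omega
    · rw [dgC_one hdb] at h1 hCc
      refine ⟨by omega, Or.inr (Or.inr ⟨by omega, by omega, hda, hdb⟩)⟩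
  · rw [dgC_one hda] at h1 hCc
    by_cases hdb : Disjoint (S.car b) C
    · have h6 := Finset.card_le_card (Finset.subset_sdiff.2 ⟨hbW, hdb⟩)
      rw [dgC_nil hdb] at h1 hCc
      refine ⟨by omega, Or.inr (Or.inl ⟨by omega, by omega, hda, hdb⟩)⟩
    · rw [dgC_one hdb] at h1 hCc
      exact ⟨by omega, Or.inl ⟨by omega, hda, hdb⟩⟩

section

variable {a b x : X} {q2 : X →₀ ℕ} {C : Finset Ω}

/-- The factors of `q2` do not meet `C`. -/
theorem fcs_q2 {z : X →₀ ℕ} (hs : (z + (Finsupp.single x 1 + q2)).support ∈ S.fcs W)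
    (hp : S.dgC C q2 = 0) : q2.support ∈ S.fcs (W \ C) := by
  have h1 : q2.support ⊆ (z + (Finsupp.single x 1 + q2)).support :=
    fun v hv => mem_supp_addP.2 (Or.inr (mem_supp_addP.2 (Or.inr hv)))
  have h2 := mem_fcs'.1 (face_sub h1 hs)
  exact mem_fcs'.2 ⟨h2.1, Finset.subset_sdiff.2 ⟨h2.2, cr_disj hp⟩⟩

theorem dgC_sub_zero {q : X →₀ ℕ} (hp : S.dgC C q = 0) {E : Finset Ω} (hE : E ⊆ C) :
    S.dgC E q = 0 := by
  have := dgC_mono (S := S) hE q
  omega

/-- Both vertices meet `C`. -/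
theorem aux11 (hT : S.Top S.K) (hW : W.card = 7) (hF : In7 S W F)
    (hq2 : q2.degree = 2) (hC : C ⊆ W) (hC5 : 5 ≤ C.card) (hC6 : C.card ≤ 6)
    (hp : S.dgC C q2 = 0) (hU : W \ C ⊆ S.cr q2.support) {k : ℕ}
    (hmin : ∀ E ⊆ C, E.card ≤ 2 * S.dgC E (Finsupp.single x 1 + q2) +
      S.dgC E (Finsupp.single a 1 + Finsupp.single b 1) + k + if E = C then 1 else 0)
    (hs : (Finsupp.single a 1 + Finsupp.single b 1 + (Finsupp.single x 1 + q2)).support ∈ S.fcs W)
    (hg : S.Good W (Finsupp.single a 1 + Finsupp.single b 1 + (Finsupp.single x 1 + q2)))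
    (herr : ∀ (v : X) (t : X →₀ ℕ), t.degree = 1 →
      W \ C ⊆ S.cr (Finsupp.single v 1 + t).support →
      (∀ E ⊆ W, E.card ≤ 2 * S.dgC E (Finsupp.single x 1 + (Finsupp.single v 1 + t)) +
        S.dgC E (Finsupp.single a 1 + Finsupp.single b 1) + k) →
      F (S.mo (Finsupp.single a 1 + Finsupp.single b 1 +
        (Finsupp.single x 1 + (Finsupp.single v 1 + t)))) = 0) :
    F (S.mo (Finsupp.single a 1 + Finsupp.single b 1 + (Finsupp.single x 1 + q2))) = 0 := by
  have h0 : (W \ C).card + C.card = W.card := Finset.card_sdiff_add_card_eq_card hC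
  have hz0 : ∀ E, S.dgC E (0 : X →₀ ℕ) = 0 := fun E => dgC_zero_of fun v hv => by
    rw [Finsupp.support_zero] at hv
    exact absurd hv (Finset.notMem_empty v)
  refine coreX hT hF (z1 := Finsupp.single a 1 + Finsupp.single b 1) (z2 := 0)
    (add_zero _).symm (by rw [map_add, Finsupp.degree_single, Finsupp.degree_single])
    (C := C) (U := W \ C) (Finset.Subset.refl _) (by omega) (by omega) (e := k)
    (fun E hE => ?_) (fun E hE => ?_) (fun E hE => ?_) (fun E hE => ?_)
    (fun v t _ _ h hv => absurd ?_ hv) herr hq2 (fcs_q2 hs hp) hU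
  · have h1 := hg E (hE.trans hC)
    have h2 := dgC_sub_zero hp hE
    rw [S.dgC_add, S.dgC_add (n := Finsupp.single x 1), h2] at h1
    rw [S.dgC_add]
    omega
  · have h1 := hmin E hE
    have h2 := dgC_sub_zero hp hE
    rw [S.dgC_add (n := Finsupp.single x 1), h2] at h1
    omega
  · have h1 := Finset.card_le_card hE
    omega
  · rw [Finset.sdiff_eq_empty_iff_subset.2 hE, Finset.card_empty]
    exact Nat.zero_le _
  · refine (Finset.subset_biUnion_of_mem S.car ?_).trans (mem_fcs'.1 h).2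
    rw [supp_single_add]
    exact Finset.mem_insert_self _ _

/-- Only `a` meets `C`. -/
theorem aux10 (hT : S.Top S.K) (hW : W.card = 7) (hF : In7 S W F) (hab : Wide S a b)
    (hB : ∀ q : X →₀ ℕ, q.degree = 3 → (∀ E ⊆ W, E.card ≤ 2 * S.dgC E q +
      S.dgC E (Finsupp.single a 1 + Finsupp.single b 1)) →
      F (S.mo (Finsupp.single a 1 + Finsupp.single b 1 + q)) = 0)
    (hq2 : q2.degree = 2) (hC : C ⊆ W) (hC4 : C.card = 4) (hbC : Disjoint (S.car b) C)
    (hp : S.dgC C q2 = 0) (hU : 2 ≤ (S.cr q2.support).card)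
    (hmin : ∀ E ⊆ C, E.card ≤ 2 * S.dgC E (Finsupp.single x 1 + q2) +
      S.dgC E (Finsupp.single a 1 + Finsupp.single b 1) + 0 + if E = C then 1 else 0)
    (hs : (Finsupp.single a 1 + Finsupp.single b 1 + (Finsupp.single x 1 + q2)).support ∈ S.fcs W)
    (hg : S.Good W (Finsupp.single a 1 + Finsupp.single b 1 + (Finsupp.single x 1 + q2))) :
    F (S.mo (Finsupp.single a 1 + Finsupp.single b 1 + (Finsupp.single x 1 + q2))) = 0 := by
  have h0 : (W \ C).card + C.card = W.card := Finset.card_sdiff_add_card_eq_card hC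
  have hbW : S.car b ⊆ W := car_sub_of_mem hs (by
    rw [Finsupp.mem_support_iff, Finsupp.add_apply, Finsupp.add_apply, Finsupp.single_eq_same]
    omega)
  have hb3 := hab.r
  have hb : S.car b = W \ C :=
    Finset.eq_of_subset_of_card_le (Finset.subset_sdiff.2 ⟨hbW, hbC⟩) (by omega)
  have hb1 : ∀ E ⊆ W \ C, 1 ≤ E.card → S.dgC E (Finsupp.single b 1) = 1 := by
    intro E hE hE1
    refine dgC_one fun h => ?_
    obtain ⟨c, hc⟩ := Finset.card_pos.1 hE1
    exact Finset.disjoint_left.1 h (hb ▸ hE hc) hc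
  have h2 : ∀ E ⊆ C, E.card ≤ 2 * S.dgC E (Finsupp.single a 1 + Finsupp.single x 1) := by
    intro E hE
    have h1 := hg E (hE.trans hC)
    have h2 := dgC_sub_zero hp hE
    have h3 := dgC_nil (hbC.mono_right hE)
    rw [S.dgC_add, S.dgC_add, S.dgC_add (n := Finsupp.single x 1), h2, h3] at h1
    rw [S.dgC_add]
    omega
  have h3 : ∀ E ⊆ C, E.card ≤ 2 * S.dgC E (Finsupp.single x 1) + S.dgC E (Finsupp.single a 1) +
      0 + if E = C then 1 else 0 := by
    intro E hE
    have h1 := hmin E hE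
    have h2 := dgC_sub_zero hp hE
    have h3 := dgC_nil (hbC.mono_right hE)
    rw [S.dgC_add, S.dgC_add, h2, h3] at h1
    omega
  have h4 : ∀ E ⊆ W \ C, E.card ≤ 2 + S.dgC E (Finsupp.single b 1) := by
    intro E hE
    have h1 := Finset.card_le_card hE
    rcases Nat.lt_or_ge 0 E.card with h5 | h5
    · rw [hb1 E hE h5]
      omega
    · omega
  have hzd : (Finsupp.single a 1 + Finsupp.single b 1 : X →₀ ℕ).degree = 2 := by
    rw [map_add, Finsupp.degree_single, Finsupp.degree_single]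
  have hA : ∀ s : X →₀ ℕ, s.degree = 2 → s.support ∈ S.fcs (W \ C) →
      W \ C ⊆ S.cr s.support →
      F (S.mo (Finsupp.single a 1 + Finsupp.single b 1 + (Finsupp.single x 1 + s))) = 0 := by
    intro s hs1 hs2 hs3
    refine coreX hT hF rfl hzd (C := C) (U := W \ C) (Finset.Subset.refl _) (by omega) (by omega)
      (e := 0) h2 h3 h4 (fun E hE => ?_) (fun v t _ _ h hv => absurd ?_ hv)
      (fun v t ht _ h => hB _ ?_ h) hs1 hs2 hs3
    · rw [Finset.sdiff_eq_empty_iff_subset.2 hE, Finset.card_empty]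
      exact Nat.zero_le _
    · refine (Finset.subset_biUnion_of_mem S.car ?_).trans (mem_fcs'.1 h).2
      rw [supp_single_add]
      exact Finset.mem_insert_self _ _
    · rw [deg_single_add, deg_single_add, ht]
  have h5 := fcs_q2 hs hp
  have h6 := (mem_fcs'.1 h5).2
  have h7 := Finset.card_le_card h6
  refine coreX hT hF rfl hzd (C := C) (U := S.cr q2.support) h6 (by omega) (by omega)
    (e := 0) h2 h3 h4 (fun E hE => ?_) (fun v t ht hcov hs' hv => hA _ ?_ hs' ?_)
    (fun v t ht _ h => hB _ ?_ h) hq2 (mem_fcs'.2 ⟨(mem_fcs'.1 h5).1, Finset.Subset.refl _⟩)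
    (Finset.Subset.refl _)
  · rcases Nat.lt_or_ge 0 E.card with h8 | h8
    · rw [hb1 E hE h8]
      have h9 : ((W \ C) \ S.cr q2.support).card + (S.cr q2.support).card = (W \ C).card :=
        Finset.card_sdiff_add_card_eq_card h6
      have h10 := Finset.card_le_card (Finset.sdiff_subset_sdiff hE
        (Finset.Subset.refl (S.cr q2.support)))
      omega
    · have h9 := Finset.card_le_card (Finset.sdiff_subset : E \ S.cr q2.support ⊆ E)
      omega
  · rw [deg_single_add, ht]
  · have h8 := (mem_fcs'.1 hs').2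
    have h9 : S.cr q2.support ⊂ S.cr (Finsupp.single v 1 + t).support := by
      refine ⟨hcov, fun h => hv (Finset.Subset.trans ?_ h)⟩
      rw [cr_single_add]
      exact Finset.subset_union_left
    have h10 := Finset.card_lt_card h9
    exact (Finset.eq_of_subset_of_card_le h8 (by omega)).symm.subset
  · rw [deg_single_add, deg_single_add, ht]

end

/-- A part of a monomial that does not meet a set of five elements covers the rest. -/
theorem two_le_cr (hW : W.card = 7) {a b x : X} {q2 : X →₀ ℕ}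
    (hs : (Finsupp.single a 1 + Finsupp.single b 1 + (Finsupp.single x 1 + q2)).support ∈ S.fcs W)
    (hD : ∀ E ⊆ W, E.card ≤ 2 * S.dgC E (Finsupp.single x 1 + q2) +
      S.dgC E (Finsupp.single a 1 + Finsupp.single b 1) + 1) :
    2 ≤ (S.cr q2.support).card := by
  have h1 : q2.support ⊆
      (Finsupp.single a 1 + Finsupp.single b 1 + (Finsupp.single x 1 + q2)).support :=
    fun v hv => mem_supp_addP.2 (Or.inr (mem_supp_addP.2 (Or.inr hv)))
  have h2 := (mem_fcs'.1 (face_sub h1 hs)).2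
  have h3 := hD (W \ S.cr q2.support) Finset.sdiff_subset
  have h4 : (W \ S.cr q2.support).card + (S.cr q2.support).card = W.card :=
    Finset.card_sdiff_add_card_eq_card h2
  have h5 : S.dgC (W \ S.cr q2.support) q2 = 0 := dgC_of_cr Finset.disjoint_sdiff
  rw [S.dgC_add, S.dgC_add, h5] at h3
  have h6 := dgC_one_le (S := S) (E := W \ S.cr q2.support) a
  have h7 := dgC_one_le (S := S) (E := W \ S.cr q2.support) b
  have h8 := dgC_one_le (S := S) (E := W \ S.cr q2.support) x
  omega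

theorem stX1 (hT : S.Top S.K) (hW : W.card = 7) (hF : In7 S W F) {a b : X} (hab : Wide S a b)
    (hB : ∀ q : X →₀ ℕ, q.degree = 3 → (∀ E ⊆ W, E.card ≤ 2 * S.dgC E q +
      S.dgC E (Finsupp.single a 1 + Finsupp.single b 1)) →
      F (S.mo (Finsupp.single a 1 + Finsupp.single b 1 + q)) = 0)
    {q : X →₀ ℕ} (hq : q.degree = 3) (hc : 6 ≤ (S.cr q.support).card)
    (hD : ∀ E ⊆ W, E.card ≤ 2 * S.dgC E q +
      S.dgC E (Finsupp.single a 1 + Finsupp.single b 1) + 1) :
    F (S.mo (Finsupp.single a 1 + Finsupp.single b 1 + q)) = 0 := by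
  by_cases hall : ∀ E ⊆ W, E.card ≤ 2 * S.dgC E q +
      S.dgC E (Finsupp.single a 1 + Finsupp.single b 1) + 0
  · exact hB q hq hall
  by_cases hsg : (Finsupp.single a 1 + Finsupp.single b 1 + q).support ∈ S.fcs W ∧
      S.Good W (Finsupp.single a 1 + Finsupp.single b 1 + q)
  swap
  · refine hF.bad _ ?_ hsg
    rw [map_add, map_add, Finsupp.degree_single, Finsupp.degree_single, hq]
  obtain ⟨hs, hg⟩ := hsg
  obtain ⟨C, hC, hCc, hmin⟩ := min_viol (k := 0) hD hall
  obtain ⟨h1, h2⟩ := countX hW hab hq hc hs hg hC (k := 0) (by omega) hCc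
  obtain ⟨x, q2, rfl, hx, hx'⟩ := fac_one (S := S) (E := C) (q := q) (by omega)
  have hp : S.dgC C q2 = 0 := by omega
  rw [deg_single_add] at hq
  have hU := two_le_cr hW hs hD
  have h3 := (mem_fcs'.1 (fcs_q2 hs hp)).2
  have h0 : (W \ C).card + C.card = W.card := Finset.card_sdiff_add_card_eq_card hC
  rcases h2 with ⟨h4, -, -⟩ | ⟨-, h4, -, h5⟩ | ⟨-, h4, h5, -⟩
  · refine aux11 hT hW hF (k := 0) (by omega) hC (by omega) (by omega) hp
      (Finset.eq_of_subset_of_card_le h3 (by omega)).symm.subset hmin hs hg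
      fun v t ht _ h => hB _ ?_ h
    rw [deg_single_add, deg_single_add, ht]
  · exact aux10 hT hW hF hab hB (by omega) hC h4 h5 hp hU hmin hs hg
  · rw [add_comm (Finsupp.single a 1)] at hmin hs hg ⊢
    refine aux10 hT hW hF hab.symm (fun q hq h => ?_) (by omega) hC h4 h5 hp hU hmin hs hg
    rw [add_comm (Finsupp.single b 1)] at h ⊢
    exact hB q hq h

theorem stX (hT : S.Top S.K) (hW : W.card = 7) (hF : In7 S W F) {a b : X} (hab : Wide S a b)
    (hB : ∀ q : X →₀ ℕ, q.degree = 3 → (∀ E ⊆ W, E.card ≤ 2 * S.dgC E q +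
      S.dgC E (Finsupp.single a 1 + Finsupp.single b 1)) →
      F (S.mo (Finsupp.single a 1 + Finsupp.single b 1 + q)) = 0)
    {q : X →₀ ℕ} (hq : q.degree = 3) (hc : 6 ≤ (S.cr q.support).card) :
    F (S.mo (Finsupp.single a 1 + Finsupp.single b 1 + q)) = 0 := by
  by_cases hall : ∀ E ⊆ W, E.card ≤ 2 * S.dgC E q +
      S.dgC E (Finsupp.single a 1 + Finsupp.single b 1) + 1
  · exact stX1 hT hW hF hab hB hq hc hall
  by_cases hsg : (Finsupp.single a 1 + Finsupp.single b 1 + q).support ∈ S.fcs W ∧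
      S.Good W (Finsupp.single a 1 + Finsupp.single b 1 + q)
  swap
  · refine hF.bad _ ?_ hsg
    rw [map_add, map_add, Finsupp.degree_single, Finsupp.degree_single, hq]
  obtain ⟨hs, hg⟩ := hsg
  have hD : ∀ E ⊆ W, E.card ≤ 2 * S.dgC E q +
      S.dgC E (Finsupp.single a 1 + Finsupp.single b 1) + (1 + 1) := by
    intro E hE
    have h1 := hg E hE
    have h2 := dgC_one_le (S := S) (E := E) a
    have h3 := dgC_one_le (S := S) (E := E) b
    rw [S.dgC_add, S.dgC_add] at h1
    rw [S.dgC_add]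
    omega
  obtain ⟨C, hC, hCc, hmin⟩ := min_viol (k := 1) hD hall
  obtain ⟨h1, h2⟩ := countX hW hab hq hc hs hg hC (k := 1) (by omega) hCc
  obtain ⟨x, q2, rfl, hx, hx'⟩ := fac_one (S := S) (E := C) (q := q) (by omega)
  have hp : S.dgC C q2 = 0 := by omega
  rw [deg_single_add] at hq
  have h3 := (mem_fcs'.1 (fcs_q2 hs hp)).2
  have h0 : (W \ C).card + C.card = W.card := Finset.card_sdiff_add_card_eq_card hC
  rcases h2 with ⟨h4, -, -⟩ | ⟨h4, -⟩ | ⟨h4, -⟩
  · have hU : 1 ≤ (S.cr q2.support).card := by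
      have h5 : q2 ≠ 0 := by
        rintro rfl
        rw [map_zero] at hq
        omega
      obtain ⟨v, hv⟩ := Finsupp.support_nonempty_iff.2 h5
      exact (car_pos (S := S) v).trans (Finset.card_le_card (Finset.subset_biUnion_of_mem S.car hv))
    refine aux11 hT hW hF (k := 1) (by omega) hC (by omega) (by omega) hp
      (Finset.eq_of_subset_of_card_le h3 (by omega)).symm.subset hmin hs hg
      fun v t ht hcov h => stX1 hT hW hF hab hB ?_ ?_ h
    · rw [deg_single_add, deg_single_add, ht]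
    · refine hc.trans (Finset.card_le_card ?_)
      rw [cr_single_add, cr_single_add]
      exact Finset.union_subset_union (Finset.Subset.refl _) (h3.trans hcov)
  · omega
  · omega

end Pool.Agent.LH4
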