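import Pool.Agent.LH4.Rep2
import Pool.Agent.LH4.Vgf1

/-!
# Descent: a linear form which is zero at the large carriers is zero
-/

set_option autoImplicit false

open Finset

namespace Pool.Agent.LH4

open Pool.Agent.LocH

variable {X Ω : Type} [Fintype X] [DecidableEq X] [Fintype Ω] [DecidableEq Ω] {S : Sub X Ω}

/-- Above the top degree everything is a relation. -/
theorem H_le_top (hT : S.Top S.K) {A : Finset Ω} {n : ℕ} (hn : A.card < n) :
    S.H n ≤ S.I A ⊔ S.thm A ⊤ := by
  have h1 := (Sub.dim hT).hR A n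
  have h2 : (S.hW A).coeff n = 0 := by
    unfold Sub.hW
    rw [Polynomial.finsetSum_coeff]
    refine Finset.sum_eq_zero fun F hF => ?_
    have h3 := mem_fcs'.1 hF
    have h4 : F.card ≤ A.card := (S.card_le F h3.1).trans (Finset.card_le_card h3.2)
    refine Polynomial.coeff_eq_zero_of_natDegree_lt (lt_of_le_of_lt ?_ hn)
    refine Polynomial.natDegree_mul_le.trans ?_
    rw [Polynomial.natDegree_X_pow]
    have h5 : ((1 - Polynomial.X : Polynomial ℤ) ^ (A.card - F.card)).natDegree ≤
        A.card - F.card := by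
      refine Polynomial.natDegree_pow_le.trans ?_
      have h6 : (1 - Polynomial.X : Polynomial ℤ).natDegree ≤ 1 := by
        refine (Polynomial.natDegree_sub_le _ _).trans ?_
        rw [Polynomial.natDegree_one, Polynomial.natDegree_X]
        exact le_rfl
      calc _ ≤ (A.card - F.card) * 1 := Nat.mul_le_mul_left _ h6
        _ = _ := Nat.mul_one _
    omega
  rw [h2] at h1
  have h3 : S.dm n ⊤ (S.I A ⊔ S.thm A ⊤) = 0 := by exact_mod_cast h1
  unfold Sub.dm at h3
  intro y hy
  have hfd : FiniteDimensional S.K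
      (((⊤ : Submodule S.K S.T) ⊓ S.H n).map (S.I A ⊔ S.thm A ⊤).mkQ) := by
    have h4 : FiniteDimensional S.K ((⊤ : Submodule S.K S.T) ⊓ S.H n : Submodule S.K S.T) := by
      have h5 : ((⊤ : Submodule S.K S.T) ⊓ S.H n) = LocG.TT S.K X n := by
        rw [← S.fm_top]
        rfl
      rw [h5]
      exact LocG.mf_fd _ n
    infer_instance
  rw [Submodule.finrank_eq_zero] at h3
  have h4 : (S.I A ⊔ S.thm A ⊤).mkQ y ∈
      ((⊤ : Submodule S.K S.T) ⊓ S.H n).map (S.I A ⊔ S.thm A ⊤).mkQ :=
    Submodule.mem_map_of_mem ⟨Submodule.mem_top, hy⟩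
  rw [h3, Submodule.mem_bot, Submodule.mkQ_apply, Submodule.Quotient.mk_eq_zero] at h4
  exact h4

section lev

variable {W U : Finset Ω} {d : ℕ} {f : S.T →ₗ[S.K] S.K}

theorem mo_Jcr {s : X →₀ ℕ} : S.mo s ∈ S.J (S.cr s.support) (S.cr s.support) :=
  mo_J fun _ => Finset.Subset.refl _

/-- Carriers of at most `d` elements. -/
theorem lev_zero (hT : S.Top S.K) (hf : Fz S W d f) {s : X →₀ ℕ} (hs : s.degree = d)
    (hsW : s.support ∈ S.fcs W) (hd : Dd S W (S.cr s.support) d f)
    (h1 : 1 ≤ (S.cr s.support).card) (h2 : (S.cr s.support).card ≤ d) : f (S.mo s) = 0 := by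
  have hU := (mem_fcs'.1 hsW).2
  have hK := kil_rs hf hd hU
  have h3 : s.support ∈ S.fcs (S.cr s.support) :=
    mem_fcs'.2 ⟨(mem_fcs'.1 hsW).1, Finset.Subset.refl _⟩
  rw [← rs_mo_eq fun h => absurd h3 h]
  have h4 : S.mo s ∈ S.H d := hs ▸ mo_H s
  rcases Nat.lt_or_ge (S.cr s.support).card d with h5 | h5
  · exact F_zero hT hK mo_Jcr h4 (H_le_top hT h5 h4)
  · obtain ⟨g, hg1, hg2, hg⟩ := rep hT (j := 0) (n := d) (by omega) hK
    rw [hg _ mo_Jcr h4, J_H_zero h1 hg1 hg2, zero_mul, map_zero]

theorem not_fcs_of {F : Finset X} (hF : S.cr F ⊆ U) (h : F ∉ S.fcs U) : F ∉ S.fcs W :=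
  fun h1 => h (mem_fcs'.2 ⟨(mem_fcs'.1 h1).1, hF⟩)

/-- The products with a vertex of `Γ_U`. -/
theorem rs_single (hf : Fz S W d f) {s : X →₀ ℕ} (hs : s.degree = d) (hc : S.cr s.support ⊆ U) :
    rs S U f (S.mo s) = f (S.mo s) :=
  rs_mo_eq fun h => hf.face s hs (not_fcs_of hc h)

/-- Carriers with more elements: the form kills the products with the sum of the variables. -/
theorem lev_one (hT : S.Top S.K) (hf : Fz S W d f) {n j : ℕ} (hn : n + 1 = d)
    {s : X →₀ ℕ} (hs : s.degree = d) (hsW : s.support ∈ S.fcs W)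
    (hd : Dd S W (S.cr s.support) d f) (hj : d + j = (S.cr s.support).card)
    (hTJ : TJ S (S.cr s.support) j)
    (hl : ∀ t : X →₀ ℕ, t.degree = n → t.support ∈ S.fcs W → S.cr t.support = S.cr s.support →
      ∀ v, S.car v ⊆ S.cr s.support → f (S.mo (Finsupp.single v 1 + t)) = 0) :
    f (S.mo s) = 0 := by
  have hU := (mem_fcs'.1 hsW).2
  have hK := kil_rs hf hd hU
  rw [← rs_single hf hs (Finset.Subset.refl _)]
  have h4 : S.mo s ∈ S.H d := hs ▸ mo_H s
  subst hn
  refine rep_zero hT (by omega) hTJ hK (fun y hy hyn => form_mul_zero _ fun t ht => ?_) mo_Jcr h4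
  by_cases h5 : t.support ∈ S.fcs (S.cr s.support)
  · have h6 := mem_fcs'.1 h5
    have h7 : S.cr t.support = S.cr s.support :=
      Finset.Subset.antisymm h6.2 (S.mem_J.1 hy t ht h5)
    rw [lam_mul_mo, map_sum]
    refine Finset.sum_eq_zero fun v hv => ?_
    have hv' := (Finset.mem_filter.1 hv).2
    have hdt := deg_of_H hyn ht
    rw [rs_single hf (by rw [deg_single_add, hdt])
      (by rw [supp_single_add, cr_insert, h7]; exact Finset.union_subset hv' (Finset.Subset.refl _))]
    exact hl t hdt (mem_fcs'.2 ⟨h6.1, h6.2.trans hU⟩) h7 v hv'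
  · exact rs_I f (S.mul_I (mo_I h5) _)

theorem lam_sq_mul_mo (U : Finset Ω) (s : X →₀ ℕ) : S.lam U ^ 2 * S.mo s =
    ∑ v ∈ univ.filter (fun v => S.car v ⊆ U), S.mo (2 • Finsupp.single v 1 + s) := by
  have := S.charP_K
  have h1 : CharP S.T 2 := inferInstance
  unfold Sub.lam
  rw [sum_pow_char 2, Finset.sum_mul]
  refine Finset.sum_congr rfl fun v _ => ?_
  rw [pow_two, mul_assoc, X_mul_mo, X_mul_mo, two_nsmul, add_assoc]

theorem supp_two_add (v : X) (s : X →₀ ℕ) :
    (2 • Finsupp.single v 1 + s).support = insert v s.support := by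
  rw [two_nsmul, add_assoc, supp_single_add, supp_single_add, Finset.insert_idem]

theorem deg_two_add (v : X) (s : X →₀ ℕ) :
    (2 • Finsupp.single v 1 + s).degree = s.degree + 2 := by
  rw [two_nsmul, add_assoc, deg_single_add, deg_single_add]

/-- Carriers with more elements: the form kills the products with the square of the sum of the
variables. -/
theorem lev_two (hT : S.Top S.K) (hf : Fz S W d f) {n j : ℕ} (hn : n + 2 = d)
    {s : X →₀ ℕ} (hs : s.degree = d) (hsW : s.support ∈ S.fcs W)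
    (hd : Dd S W (S.cr s.support) d f) (hj : d + j = (S.cr s.support).card)
    (h1 : TJ S (S.cr s.support) j) (h2 : TJ S (S.cr s.support) (j + 1))
    (hl : ∀ t : X →₀ ℕ, t.degree = n → f (S.lam W ^ 2 * S.mo t) = 0) : f (S.mo s) = 0 := by
  have hU := (mem_fcs'.1 hsW).2
  have hK := kil_rs hf hd hU
  rw [← rs_single hf hs (Finset.Subset.refl _)]
  have h4 : S.mo s ∈ S.H d := hs ▸ mo_H s
  subst hn
  refine rep_sq hT (by omega) h1 h2 hK (fun y hy hyn => form_mul_zero _ fun t ht => ?_) mo_Jcr h4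
  by_cases h5 : t.support ∈ S.fcs (S.cr s.support)
  · have h6 := mem_fcs'.1 h5
    have h7 : S.cr t.support = S.cr s.support :=
      Finset.Subset.antisymm h6.2 (S.mem_J.1 hy t ht h5)
    have hdt := deg_of_H hyn ht
    have h8 := hl t hdt
    rw [lam_sq_mul_mo, map_sum] at h8 ⊢
    rw [← h8]
    have h9 : ∀ v, S.car v ⊆ S.cr s.support → rs S (S.cr s.support) f
        (S.mo (2 • Finsupp.single v 1 + t)) = f (S.mo (2 • Finsupp.single v 1 + t)) := by
      intro v hv
      refine rs_single hf (by rw [deg_two_add, hdt]) ?_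
      rw [supp_two_add, cr_insert, h7]
      exact Finset.union_subset hv (Finset.Subset.refl _)
    rw [Finset.sum_congr rfl fun v hv => h9 v (Finset.mem_filter.1 hv).2]
    refine Finset.sum_subset (fun v hv => ?_) fun v _ hv => ?_
    · exact Finset.mem_filter.2 ⟨Finset.mem_univ _, (Finset.mem_filter.1 hv).2.trans hU⟩
    · have hv' : ¬ S.car v ⊆ S.cr s.support := fun h =>
        hv (Finset.mem_filter.2 ⟨Finset.mem_univ _, h⟩)
      refine hf.zero hd (by rw [deg_two_add, hdt]) ?_ ?_
      · rw [supp_two_add, cr_insert, h7]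
        exact Finset.subset_union_right
      · intro h
        refine hv' (Finset.Subset.trans ?_ (mem_fcs'.1 h).2)
        rw [supp_two_add, cr_insert]
        exact Finset.subset_union_left
  · exact rs_I f (S.mul_I (mo_I h5) _)

/-- The descent: the carriers of at most `t` elements. -/
theorem descent (hT : S.Top S.K) (hf : Fz S W d f) (hd1 : 1 ≤ d)
    (hl : ∀ n, n + 2 = d → ∀ t : X →₀ ℕ, t.degree = n → f (S.lam W ^ 2 * S.mo t) = 0) {t : ℕ}
    (ht : ∀ s : X →₀ ℕ, s.degree = d → s.support ∈ S.fcs W → t < (S.cr s.support).card →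
      f (S.mo s) = 0)
    (hTJ : ∀ U ⊆ W, U.card ≤ t → ∀ j, 1 ≤ j → d + j = U.card →
      2 ≤ d ∧ TJ S U j ∧ TJ S U (j + 1)) :
    ∀ s : X →₀ ℕ, s.degree = d → f (S.mo s) = 0 := by
  have key : ∀ k : ℕ, ∀ s : X →₀ ℕ, s.degree = d → s.support ∈ S.fcs W →
      W.card - (S.cr s.support).card = k → f (S.mo s) = 0 := by
    intro k
    induction k using Nat.strong_induction_on with
    | _ k ih =>
      intro s hs hsW hk
      by_cases h1 : t < (S.cr s.support).card
      · exact ht s hs hsW h1
      · have hd : Dd S W (S.cr s.support) d f := by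
          intro r hr hrW h2
          have h3 := Finset.card_lt_card h2
          have h4 := Finset.card_le_card (mem_fcs'.1 hrW).2
          exact ih _ (by omega) r hr hrW rfl
        by_cases h2 : (S.cr s.support).card ≤ d
        · refine lev_zero hT hf hs hsW hd ?_ h2
          have h3 : s ≠ 0 := by
            rintro rfl
            rw [map_zero] at hs
            omega
          obtain ⟨v, hv⟩ := Finsupp.support_nonempty_iff.2 h3
          have h4 : ({v} : Finset X) ∈ S.Gam := S.vert v
          have h5 := S.card_le _ h4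
          rw [Finset.card_singleton, Finset.singleton_biUnion] at h5
          exact h5.trans (Finset.card_le_card (Finset.subset_biUnion_of_mem S.car hv))
        · obtain ⟨j, hj⟩ := Nat.exists_eq_add_of_lt (Nat.lt_of_not_le h2)
          obtain ⟨h3, h4, h5⟩ := hTJ _ (mem_fcs'.1 hsW).2 (by omega) (j + 1) (by omega) (by omega)
          obtain ⟨n, rfl⟩ := Nat.exists_eq_add_of_le h3
          exact lev_two hT hf (n := n) (by omega) hs hsW hd (by omega) h4 h5 (hl n (by omega))
  intro s hs
  by_cases h : s.support ∈ S.fcs W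
  · exact key _ s hs h rfl
  · exact hf.face s hs h

end lev

end Pool.Agent.LH4
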