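import Pool.Agent.LH4.Vgf2

/-!
# A linear form on the monomials of degree `|W| - 4` which is zero at the products `u M`, `M` a monomial
with large carrier, and kills the square of the sum of the variables, is zero
-/

set_option autoImplicit false

open Finset

namespace Pool.Agent.LH4

open Pool.Agent.LocH

variable {X Ω : Type} [Fintype X] [DecidableEq X] [Fintype Ω] [DecidableEq Ω] {S : Sub X Ω}

/-- The private points of the vertices of a face. -/
theorem priv (F : Finset X) (t : ℕ) (h : ∀ k ∈ F, (S.cr (F.erase k)).card ≤ t) :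
    F.card * ((S.cr F).card - t) ≤ (S.cr F).card := by
  have h1 : ∀ k ∈ F, S.cr (F.erase k) ⊆ S.cr F := fun k _ =>
    Finset.biUnion_subset_biUnion_of_subset_left _ (Finset.erase_subset k F)
  have h2 : ∀ k ∈ F, (S.cr F).card - t ≤ (S.cr F \ S.cr (F.erase k)).card := by
    intro k hk
    rw [Finset.card_sdiff_of_subset (h1 k hk)]
    have := h k hk
    omega
  have h3 : (F.biUnion fun k => S.cr F \ S.cr (F.erase k)).card =
      ∑ k ∈ F, (S.cr F \ S.cr (F.erase k)).card := by
    refine Finset.card_biUnion fun k hk k' hk' hne => ?_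
    refine Finset.disjoint_left.2 ?_
    intro c hc hc'
    rw [Finset.mem_sdiff] at hc hc'
    obtain ⟨v, hv, hcv⟩ := Finset.mem_biUnion.1 hc.1
    by_cases hvk : v = k
    · exact hc'.2 (Finset.mem_biUnion.2 ⟨v, Finset.mem_erase.2 ⟨fun h => hne (hvk.symm.trans h),
        hv⟩, hcv⟩)
    · exact hc.2 (Finset.mem_biUnion.2 ⟨v, Finset.mem_erase.2 ⟨hvk, hv⟩, hcv⟩)
  calc F.card * ((S.cr F).card - t) = ∑ _k ∈ F, ((S.cr F).card - t) := by
        rw [Finset.sum_const, smul_eq_mul]
    _ ≤ ∑ k ∈ F, (S.cr F \ S.cr (F.erase k)).card := Finset.sum_le_sum h2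
    _ = (F.biUnion fun k => S.cr F \ S.cr (F.erase k)).card := h3.symm
    _ ≤ (S.cr F).card := Finset.card_le_card (Finset.biUnion_subset.2 fun k _ =>
        Finset.sdiff_subset)

section

variable {W : Finset Ω} {d : ℕ} {f : S.T →ₗ[S.K] S.K}

/-- Large carriers. -/
theorem large_zero {t : ℕ} (H0 : ∀ M : X →₀ ℕ, M.degree + 1 = d → M.support ∈ S.fcs W →
    t < (S.cr M.support).card → ∀ u, f (S.mo (Finsupp.single u 1 + M)) = 0)
    {s : X →₀ ℕ} (hs : s.degree = d) (hsW : s.support ∈ S.fcs W)
    (h1 : t < (S.cr s.support).card)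
    (h2 : (S.cr s.support).card < d * ((S.cr s.support).card - t)) : f (S.mo s) = 0 := by
  have key : ∀ k ∈ s.support, t < (S.cr (s - Finsupp.single k 1).support).card →
      f (S.mo s) = 0 := by
    intro k hk h3
    have hle : Finsupp.single k 1 ≤ s := by
      rw [Finsupp.single_le_iff]
      have := Finsupp.mem_support_iff.1 hk
      omega
    have h4 : Finsupp.single k 1 + (s - Finsupp.single k 1) = s := add_tsub_cancel_of_le hle
    have h5 := congrArg Finsupp.degree h4
    rw [deg_single_add, hs] at h5
    have h6 : (s - Finsupp.single k 1).support ⊆ s.support := by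
      intro x hx
      rw [Finsupp.mem_support_iff, Finsupp.tsub_apply] at hx
      rw [Finsupp.mem_support_iff]
      omega
    have h7 := mem_fcs'.1 hsW
    have h8 := H0 _ h5 (mem_fcs'.2 ⟨S.down _ h7.1 _ h6,
      (Finset.biUnion_subset_biUnion_of_subset_left _ h6).trans h7.2⟩) h3 k
    rwa [h4] at h8
  by_cases h3 : ∃ k, 2 ≤ s k
  · obtain ⟨k, hk⟩ := h3
    refine key k (by rw [Finsupp.mem_support_iff]; omega) ?_
    have h4 : (s - Finsupp.single k 1).support = s.support := by
      ext x
      rw [Finsupp.mem_support_iff, Finsupp.mem_support_iff, Finsupp.tsub_apply,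
        Finsupp.single_apply]
      by_cases hx : k = x
      · rw [if_pos hx, ← hx]
        omega
      · rw [if_neg hx]
        rfl
    rw [h4]
    exact h1
  · push Not at h3
    by_contra hne
    have h4 : ∀ k ∈ s.support, (S.cr (s.support.erase k)).card ≤ t := by
      intro k hk
      by_contra h5
      refine hne (key k hk ?_)
      have h6 : (s - Finsupp.single k 1).support = s.support.erase k := by
        ext x
        rw [Finset.mem_erase, Finsupp.mem_support_iff, Finsupp.mem_support_iff,
          Finsupp.tsub_apply, Finsupp.single_apply]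
        by_cases hx : k = x
        · rw [if_pos hx, ← hx]
          have := h3 k
          constructor
          · intro h
            omega
          · intro h
            exact absurd rfl h.1
        · rw [if_neg hx]
          constructor
          · intro h
            exact ⟨fun h' => hx h'.symm, h⟩
          · exact fun h => h.2
      rw [h6]
      omega
    have h5 := priv s.support t h4
    have h6 : s.support.card = d := by
      rw [← hs, Finsupp.degree, Finset.card_eq_sum_ones]
      refine Finset.sum_congr rfl fun x hx => ?_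
      have h7 := h3 x
      have h8 := Finsupp.mem_support_iff.1 hx
      change 1 = s x
      omega
    rw [h6] at h5
    omega

/-- The case of degree `|W| - 4`. -/
theorem vgf (hT : S.Top S.K) (hW : 8 ≤ W.card) (hd : d + 4 = W.card) (hf : Fz S W d f)
    (hl : ∀ t : X →₀ ℕ, t.degree + 2 = d → f (S.lam W ^ 2 * S.mo t) = 0)
    (H0 : ∀ M : X →₀ ℕ, M.degree + 1 = d → M.support ∈ S.fcs W →
      W.card ≤ (S.cr M.support).card + 2 → ∀ u, f (S.mo (Finsupp.single u 1 + M)) = 0) :
    ∀ s : X →₀ ℕ, s.degree = d → f (S.mo s) = 0 := by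
  have hA : ∀ s : X →₀ ℕ, s.degree = d → s.support ∈ S.fcs W →
      W.card ≤ (S.cr s.support).card + 1 → f (S.mo s) = 0 := by
    intro s hs hsW h1
    have h2 := Finset.card_le_card (mem_fcs'.1 hsW).2
    refine large_zero (t := W.card - 3) (fun M hM hMW h3 => H0 M hM hMW (by omega)) hs hsW
      (by omega) ?_
    have h3 : (S.cr s.support).card = W.card ∨ (S.cr s.support).card + 1 = W.card := by omega
    rcases h3 with h3 | h3
    · have h4 : (S.cr s.support).card - (W.card - 3) = 3 := by omega
      rw [h4]
      omega
    · have h4 : (S.cr s.support).card - (W.card - 3) = 2 := by omega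
      rw [h4]
      omega
  refine descent hT hf (by omega) (fun n hn t ht => hl t (by omega)) (t := W.card - 3) ?_ ?_
  · intro s hs hsW h1
    by_cases h2 : W.card ≤ (S.cr s.support).card + 1
    · exact hA s hs hsW h2
    · refine lev_one hT hf (n := d - 1) (j := 2) (by omega) hs hsW ?_ (by omega)
        (TJ_le hT (by omega) (by omega)) ?_
      · intro r hr hrW h3
        have h4 := Finset.card_lt_card h3
        exact hA r hr hrW (by omega)
      · intro t ht htW h3 v _
        exact H0 t (by omega) htW (by rw [h3]; omega) v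
  · intro U hU h1 j hj hjU
    have hj1 : j = 1 := by omega
    subst hj1
    exact ⟨by omega, TJ_le hT (by omega) (by omega), TJ_le hT (by omega) (by omega)⟩

end

end Pool.Agent.LH4
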