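import Pool.Agent.LH4.Zk1
import Pool.Agent.LH4.Oz2

/-!
# The classes of the flux of one vertex over one triple of colours: the cochains

A function `b` on the monomials over `U` which lives on the missing monomials and kills the relations
of the missing monomials gives a cochain `rb` of level `|W| - 2`; its coboundary lives on the pairs
with one more private colour (`dl_rb`).
-/

set_option autoImplicit false

open Finset

namespace Pool.Agent.LH4

open Pool.Agent.LocH

variable {X Ω : Type} [Fintype X] [DecidableEq X] [Fintype Ω] [DecidableEq Ω] {S : Sub X Ω}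
  {W U Z : Finset Ω} {n : ℕ} {w : X} {V : Finset X}

/-- The vertices over `U`. -/
noncomputable def vx (S : Sub X Ω) (U : Finset Ω) : Finset X :=
  univ.filter fun v => S.car v ⊆ U

omit [Fintype Ω] in
theorem mem_vx {v : X} : v ∈ vx S U ↔ S.car v ⊆ U := by
  unfold vx
  rw [Finset.mem_filter]
  exact ⟨fun h => h.2, fun h => ⟨Finset.mem_univ v, h⟩⟩

/-- The cochain of a function on the monomials over `U`. -/
noncomputable def rb (S : Sub X Ω) (W : Finset Ω) (n : ℕ) (w : X) (U : Finset Ω)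
    (b : (X →₀ ℕ) → S.K) (C : Finset Ω) (M : X →₀ ℕ) : S.K :=
  open Classical in
  if C.card = 1 ∧ VP S W n C M ∧ M w = 1 ∧ C ⊆ U ∧ M.support.erase w ∈ S.fcs U ∧
      U \ C ⊆ S.cr (M.support.erase w) then
    ∑ c ∈ C, ∑ v ∈ vx S U, S.a v c * b (Finsupp.single v 1 + (M - Finsupp.single w 1))
  else 0

omit [Fintype Ω] in
theorem rb_ne {b : (X →₀ ℕ) → S.K} {C : Finset Ω} {M : X →₀ ℕ} (h : rb S W n w U b C M ≠ 0) :
    (C.card = 1 ∧ VP S W n C M ∧ M w = 1 ∧ C ⊆ U ∧ M.support.erase w ∈ S.fcs U ∧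
      U \ C ⊆ S.cr (M.support.erase w)) ∧
      ∃ v, b (Finsupp.single v 1 + (M - Finsupp.single w 1)) ≠ 0 := by
  unfold rb at h
  by_cases h1 : C.card = 1 ∧ VP S W n C M ∧ M w = 1 ∧ C ⊆ U ∧ M.support.erase w ∈ S.fcs U ∧
      U \ C ⊆ S.cr (M.support.erase w)
  · rw [if_pos h1] at h
    obtain ⟨c, -, hc⟩ := Finset.exists_ne_zero_of_sum_ne_zero h
    obtain ⟨v, -, hv⟩ := Finset.exists_ne_zero_of_sum_ne_zero hc
    exact ⟨h1, v, right_ne_zero_of_mul hv⟩
  · rw [if_neg h1] at h
    exact absurd rfl h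

omit [Fintype Ω] in
theorem rb_one {b : (X →₀ ℕ) → S.K} {c : Ω} {M : X →₀ ℕ} (hV : VP S W n {c} M)
    (hM : M w = 1) (hc : c ∈ U) (hF : M.support.erase w ∈ S.fcs U)
    (hcov : U \ {c} ⊆ S.cr (M.support.erase w)) :
    rb S W n w U b {c} M =
      ∑ v ∈ vx S U, S.a v c * b (Finsupp.single v 1 + (M - Finsupp.single w 1)) := by
  unfold rb
  rw [if_pos ⟨Finset.card_singleton c, hV, hM, Finset.singleton_subset_iff.2 hc, hF, hcov⟩,
    Finset.sum_singleton]

omit [Fintype X] [Fintype Ω] in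
theorem sub_add_w {M : X →₀ ℕ} (hM : M w = 1) {v : X} :
    (Finsupp.single v 1 + M) - Finsupp.single w 1 =
      Finsupp.single v 1 + (M - Finsupp.single w 1) := by
  refine add_tsub_assoc_of_le ?_ _
  intro u
  rw [Finsupp.single_apply]
  by_cases h : w = u
  · rw [if_pos h, ← h, hM]
  · rw [if_neg h]
    exact Nat.zero_le _

omit [Fintype X] [Fintype Ω] in
theorem add_sub_w {M : X →₀ ℕ} (hM : M w = 1) :
    Finsupp.single w 1 + (M - Finsupp.single w 1) = M := by
  refine add_tsub_cancel_of_le ?_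
  intro u
  rw [Finsupp.single_apply]
  by_cases h : w = u
  · rw [if_pos h, ← h, hM]
  · rw [if_neg h]
    exact Nat.zero_le _

/-- The properties of a function on the monomials over `U` which lives on the missing monomials. -/
structure Bp (S : Sub X Ω) (W : Finset Ω) (w : X) (U : Finset Ω) (V : Finset X)
    (b : (X →₀ ℕ) → S.K) : Prop where
  fc : ∀ N, b N ≠ 0 → N.support ∈ S.fcs U
  sup : ∀ N, b N ≠ 0 → N.support ⊆ V
  th : ∀ c ∈ U, ∀ K : X →₀ ℕ, K.degree + 1 = U.card → K.support ∈ S.fcs U →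
    U \ {c} ⊆ S.cr K.support → insert w K.support ∉ S.fcs W →
    ∑ v ∈ vx S U, S.a v c * b (Finsupp.single v 1 + K) = 0

/-- One half of the coboundary of `rb`. -/
theorem rb_sum {b : (X →₀ ℕ) → S.K} (hb : Bp S W w U V b) (hwU : ¬ S.car w ⊆ U)
    (hn : n = U.card + 1) {x x' : Ω}
    (hxx : x ≠ x') {M : X →₀ ℕ} (hV : VP S W n {x, x'} M) (hM : M w = 1) (hx' : x' ∈ U)
    (hF : M.support.erase w ∈ S.fcs U) (hcov : U \ {x, x'} ⊆ S.cr (M.support.erase w)) :
    ∑ v, S.a v x * rb S W n w U b {x'} (Finsupp.single v 1 + M) =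
      ∑ v ∈ vx S U, ∑ v' ∈ vx S U, S.a v x * (S.a v' x' *
        b (Finsupp.single v' 1 + (Finsupp.single v 1 + (M - Finsupp.single w 1)))) := by
  have hdeg : M.degree + 1 = U.card := by
    have h1 := hV.deg
    rw [Finset.card_pair hxx] at h1
    omega
  have hwF : w ∈ M.support := by
    rw [Finsupp.mem_support_iff, hM]
    exact one_ne_zero
  have hout : ∀ v, v ∉ vx S U → S.a v x * rb S W n w U b {x'} (Finsupp.single v 1 + M) = 0 := by
    intro v hv
    rw [mem_vx] at hv
    have h1 : rb S W n w U b {x'} (Finsupp.single v 1 + M) = 0 := by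
      by_contra hne
      obtain ⟨⟨-, -, h1, -, h2, -⟩, -⟩ := rb_ne hne
      have hvw : v ≠ w := by
        rintro rfl
        rw [Finsupp.add_apply, Finsupp.single_eq_same] at h1
        omega
      rw [supp_add1, Finset.erase_insert_of_ne hvw] at h2
      exact hv (car_sub_of_mem h2 (Finset.mem_insert_self v _))
    rw [h1, mul_zero]
  rw [← Finset.sum_subset (Finset.subset_univ (vx S U)) fun v _ hv => hout v hv]
  refine Finset.sum_congr rfl fun v hv => ?_
  rw [← Finset.mul_sum]
  by_cases ha : S.a v x = 0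
  · rw [ha, zero_mul, zero_mul]
  congr 1
  rw [mem_vx] at hv
  have hxv : x ∈ S.car v := a_mem ha
  have hK : (M - Finsupp.single w 1).support = M.support.erase w := supp_sub1 hM
  have hvw : v ≠ w := by
    rintro rfl
    exact hwU hv
  have hsup : (Finsupp.single v 1 + (M - Finsupp.single w 1)).support =
      insert v (M.support.erase w) := by
    rw [supp_add1, hK]
  have hMs : (Finsupp.single v 1 + M).support.erase w = insert v (M.support.erase w) := by
    rw [supp_add1, Finset.erase_insert_of_ne hvw]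
  have hcov' : U \ {x'} ⊆ S.cr (insert v (M.support.erase w)) := by
    intro c hc
    rw [Finset.mem_sdiff, Finset.mem_singleton] at hc
    by_cases hcx : c = x
    · exact mem_cr.2 ⟨v, Finset.mem_insert_self v _, hcx ▸ hxv⟩
    · obtain ⟨u, hu, hu'⟩ := mem_cr.1 (hcov (Finset.mem_sdiff.2 ⟨hc.1, fun h => by
        rcases Finset.mem_insert.1 h with h | h
        · exact hcx h
        · exact hc.2 (Finset.mem_singleton.1 h)⟩))
      exact mem_cr.2 ⟨u, Finset.mem_insert_of_mem hu, hu'⟩
  by_cases hf : (Finsupp.single v 1 + (M - Finsupp.single w 1)).support ∈ S.fcs U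
  · by_cases hg : (Finsupp.single v 1 + M).support ∈ S.fcs W
    · have he : ({x, x'} : Finset Ω).erase x = {x'} :=
        Finset.erase_insert (by rwa [Finset.mem_singleton])
      have hVP := hV.up (Finset.mem_insert_self x {x'}) hxv hg
      rw [he] at hVP
      rw [rb_one hVP (by
        rw [Finsupp.add_apply, Finsupp.single_eq_of_ne (Ne.symm hvw), zero_add]
        exact hM) hx' (by rw [hMs, ← hsup]; exact hf) (by rw [hMs]; exact hcov'), sub_add_w hM]
    · have h1 : rb S W n w U b {x'} (Finsupp.single v 1 + M) = 0 := by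
        by_contra hne
        exact hg (rb_ne hne).1.2.1.fcs
      rw [h1]
      refine (hb.th x' hx' _ ?_ hf (by rw [hsup]; exact hcov') ?_).symm
      · have h2 : (M - Finsupp.single w 1).degree + 1 = M.degree := by
          have h3 : (Finsupp.single w 1 + (M - Finsupp.single w 1)).degree = M.degree := by
            rw [add_sub_w hM]
          rw [map_add, Finsupp.degree_single] at h3
          omega
        rw [map_add, Finsupp.degree_single]
        omega
      · rw [hsup, Finset.insert_comm, Finset.insert_erase hwF, ← supp_add1]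
        exact hg
  · have h1 : rb S W n w U b {x'} (Finsupp.single v 1 + M) = 0 := by
      by_contra hne
      have h2 := (rb_ne hne).1.2.2.2.2.1
      rw [hMs, ← hsup] at h2
      exact hf h2
    rw [h1]
    refine (Finset.sum_eq_zero fun v' _ => ?_).symm
    have h2 : b (Finsupp.single v' 1 + (Finsupp.single v 1 + (M - Finsupp.single w 1))) = 0 := by
      by_contra hne
      refine hf (fcs_sub (hb.fc _ hne) ?_)
      rw [supp_add1 v']
      exact Finset.subset_insert _ _
    rw [h2, mul_zero]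

omit [Fintype X] [Fintype Ω] in
/-- The support of a cochain given by two colours. -/
theorem pair_of {C : Finset Ω} {c : Ω} (hc : c ∈ C) (h : (C.erase c).card = 1) :
    ∃ c', c ≠ c' ∧ C = {c, c'} := by
  obtain ⟨c', hc'⟩ := Finset.card_eq_one.1 h
  refine ⟨c', ?_, ?_⟩
  · have h1 : c' ∈ C.erase c := by rw [hc']; exact Finset.mem_singleton_self c'
    exact (Finset.mem_erase.1 h1).1.symm
  · rw [← Finset.insert_erase hc, hc']

omit [Fintype Ω] in
theorem dl_pair {g : Finset Ω → (X →₀ ℕ) → S.K} {c c' : Ω} (hcc : c ≠ c') (M : X →₀ ℕ) :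
    dl S g {c, c'} M = ∑ v, S.a v c * g {c'} (Finsupp.single v 1 + M) +
      ∑ v, S.a v c' * g {c} (Finsupp.single v 1 + M) := by
  unfold dl
  rw [Finset.sum_pair hcc, Finset.erase_insert (by rwa [Finset.mem_singleton]),
    Finset.pair_comm, Finset.erase_insert (by rwa [Finset.mem_singleton, eq_comm])]

/-- The coboundary of `rb` lives on the pairs with one more private colour. -/
theorem dl_rb {b : (X →₀ ℕ) → S.K} (hb : Bp S W w (W \ Z) V b) (hZW : Z ⊆ W)
    (hZw : Z ⊆ S.car w) (hZ : 3 ≤ Z.card) (hn : n = (W \ Z).card + 1) {C : Finset Ω}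
    {M : X →₀ ℕ} (hV : VP S W n C M) (hne : dl S (rb S W n w (W \ Z) b) C M ≠ 0) :
    ∃ u ∈ W \ Z, OZ S W n w V (insert u Z) C M := by
  have := S.charP_K
  have hwU : ¬ S.car w ⊆ W \ Z := by
    intro h
    obtain ⟨z, hz⟩ := Finset.card_pos.1 (by omega : 0 < Z.card)
    exact (Finset.mem_sdiff.1 (h (hZw hz))).2 hz
  obtain ⟨c, hc, h1⟩ := Finset.exists_ne_zero_of_sum_ne_zero hne
  obtain ⟨v, -, h2⟩ := Finset.exists_ne_zero_of_sum_ne_zero h1
  have ha := left_ne_zero_of_mul h2
  obtain ⟨⟨h3, h4, h5, h6, h7, h8⟩, v', hv'⟩ := rb_ne (right_ne_zero_of_mul h2)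
  obtain ⟨c', hcc, rfl⟩ := pair_of hc h3
  have he : ({c, c'} : Finset Ω).erase c = {c'} :=
    Finset.erase_insert (by rwa [Finset.mem_singleton])
  rw [he] at h3 h4 h6 h8
  have hvw : v ≠ w := by
    rintro rfl
    rw [Finsupp.add_apply, Finsupp.single_eq_same] at h5
    have h9 : v ∉ M.support := by
      rw [Finsupp.mem_support_iff]
      omega
    rw [supp_add1, Finset.erase_insert h9] at h7
    have h10 : Z ⊆ {c, c'} := by
      intro z hz
      by_contra hzc
      have h11 := hV.cov (Finset.mem_sdiff.2 ⟨hZW hz, hzc⟩)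
      exact (Finset.mem_sdiff.1 ((mem_fcs'.1 h7).2 h11)).2 hz
    have h11 := (Finset.card_le_card h10).trans Finset.card_le_two
    omega
  have hM : M w = 1 := by
    rw [Finsupp.add_apply, Finsupp.single_eq_of_ne (Ne.symm hvw), zero_add] at h5
    exact h5
  rw [supp_add1, Finset.erase_insert_of_ne hvw] at h7 h8
  have hF : M.support.erase w ∈ S.fcs (W \ Z) := fcs_sub h7 (Finset.subset_insert _ _)
  have hcU : c ∈ W \ Z := car_sub_of_mem h7 (Finset.mem_insert_self v _) (a_mem ha)
  have hc'U : c' ∈ W \ Z := h6 (Finset.mem_singleton_self c')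
  have hVs : M.support.erase w ⊆ V := by
    refine Finset.Subset.trans ?_ (hb.sup _ hv')
    rw [sub_add_w hM, supp_add1 v', supp_add1 v, supp_sub1 hM]
    exact (Finset.subset_insert _ _).trans (Finset.subset_insert _ _)
  have hZC : Disjoint Z {c, c'} := by
    rw [Finset.disjoint_left]
    intro z hz hzc
    rcases Finset.mem_insert.1 hzc with h | h
    · rw [h] at hz
      exact (Finset.mem_sdiff.1 hcU).2 hz
    · rw [Finset.mem_singleton.1 h] at hz
      exact (Finset.mem_sdiff.1 hc'U).2 hz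
  have hZF : Disjoint Z (S.cr (M.support.erase w)) := by
    rw [Finset.disjoint_left]
    intro z hz hzc
    exact (Finset.mem_sdiff.1 ((mem_fcs'.1 hF).2 hzc)).2 hz
  by_cases hcov : (W \ Z) \ {c, c'} ⊆ S.cr (M.support.erase w)
  · exfalso
    refine hne ?_
    rw [dl_pair hcc, rb_sum hb hwU hn hcc hV hM hc'U hF hcov,
      rb_sum hb hwU hn hcc.symm (by rw [Finset.pair_comm]; exact hV) hM hcU hF
        (by rw [Finset.pair_comm]; exact hcov)]
    have h9 : (∑ v ∈ vx S (W \ Z), ∑ v' ∈ vx S (W \ Z), S.a v c' * (S.a v' c *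
        b (Finsupp.single v' 1 + (Finsupp.single v 1 + (M - Finsupp.single w 1))))) =
        ∑ v ∈ vx S (W \ Z), ∑ v' ∈ vx S (W \ Z), S.a v c * (S.a v' c' *
        b (Finsupp.single v' 1 + (Finsupp.single v 1 + (M - Finsupp.single w 1)))) := by
      rw [Finset.sum_comm]
      refine Finset.sum_congr rfl fun v _ => Finset.sum_congr rfl fun v' _ => ?_
      rw [add_left_comm (Finsupp.single v 1) (Finsupp.single v' 1), mul_left_comm]
    rw [h9, CharTwo.add_self_eq_zero]
  · rw [Finset.not_subset] at hcov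
    obtain ⟨u, hu, hu'⟩ := hcov
    rw [Finset.mem_sdiff] at hu
    refine ⟨u, hu.1, hV, hM, ?_, ?_, hVs⟩
    · rw [Finset.disjoint_insert_left]
      exact ⟨hu.2, hZC⟩
    · rw [Finset.disjoint_insert_left]
      exact ⟨hu', hZF⟩

omit [Fintype X] [DecidableEq X] [Fintype Ω] in
theorem card_ins {u : Ω} (hZ3 : Z.card = 3) (hu : u ∈ W \ Z) : (insert u Z).card = 4 := by
  rw [Finset.card_insert_of_notMem (Finset.mem_sdiff.1 hu).2, hZ3]

/-- Cocycles supported on the pairs with one more private colour are coboundaries. -/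
theorem exa_ins (hZW : Z ⊆ W) (hZ3 : Z.card = 3) (hn : n + 2 = W.card) :
    Exa S W n (fun C M => ∃ u ∈ W \ Z, OZ S W n w V (insert u Z) C M) := by
  classical
  have h1 := exa_UZ (S := S) (W := W) (n := n) (w := w) (V := V)
    ((W \ Z).image fun u => insert u Z) (fun A hA => by
      obtain ⟨u, hu, rfl⟩ := Finset.mem_image.1 hA
      exact Finset.insert_subset (Finset.mem_sdiff.1 hu).1 hZW)
    (fun A hA => by
      obtain ⟨u, hu, rfl⟩ := Finset.mem_image.1 hA
      rw [card_ins hZ3 hu]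
      omega)
    (fun A hA => by
      obtain ⟨u, hu, rfl⟩ := Finset.mem_image.1 hA
      rw [card_ins hZ3 hu]
      omega)
  have h2 : (fun C M => ∃ A ∈ (W \ Z).image (fun u => insert u Z), OZ S W n w V A C M) =
      fun C M => ∃ u ∈ W \ Z, OZ S W n w V (insert u Z) C M := by
    funext C M
    refine propext ⟨?_, ?_⟩
    · rintro ⟨A, hA, h⟩
      obtain ⟨u, hu, rfl⟩ := Finset.mem_image.1 hA
      exact ⟨u, hu, h⟩
    · rintro ⟨u, hu, h⟩
      exact ⟨_, Finset.mem_image_of_mem _ hu, h⟩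
  rw [← h2]
  exact h1

/-- The linear form of a function on the missing monomials. -/
theorem bp_form (hT : S.Top S.K) {k : ℕ} (hk : W.card = k + 4) {b : (X →₀ ℕ) → S.K}
    (hb : Bp S W w (W \ Z) V b) (hZW : Z ⊆ W) (hZw : Z ⊆ S.car w) (hZ3 : Z.card = 3) :
    ∃ A : S.T →ₗ[S.K] S.K, Nf S W (k + 2) A ∧
      (∀ c ∈ W, ∀ M : X →₀ ℕ, M.degree = k + 1 → W.erase c ⊆ S.cr M.support →
        A (S.th c * S.mo M) ≠ 0 → M w = 1 ∧ c ∉ Z ∧ M.support.erase w ⊆ V) ∧
      ∃ e : Finset Ω → (X →₀ ℕ) → S.K,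
        (∀ C M, e C M ≠ 0 → ∃ u ∈ W \ Z, OZ S W (k + 2) w V (insert u Z) C M) ∧
        (∀ C M, VP S W (k + 2) C M →
          dl S (rb S W (k + 2) w (W \ Z) b) C M = dl S e C M) ∧
        ∀ c ∈ W, ∀ M : X →₀ ℕ, M.degree = k + 1 → W.erase c ⊆ S.cr M.support →
          A (S.th c * S.mo M) = rb S W (k + 2) w (W \ Z) b {c} M + e {c} M := by
  have := S.charP_K
  have hU : (W \ Z).card = k + 1 := by
    have h1 := Finset.card_sdiff_add_card_eq_card hZW
    omega
  have hrb : ∀ C M, rb S W (k + 2) w (W \ Z) b C M ≠ 0 → VP S W (k + 2) C M := fun C M h =>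
    (rb_ne h).1.2.1
  obtain ⟨e, he1, he2⟩ := exa_ins (S := S) (w := w) (V := V) hZW hZ3 (n := k + 2) (by omega)
    (dv S W (k + 2) (rb S W (k + 2) w (W \ Z) b))
    (fun C M h => by
      have hV : VP S W (k + 2) C M := by
        by_contra h'
        exact h (dv_neg h')
      rw [dv_pos hV] at h
      exact dl_rb hb hZW hZw hZ3.ge (by omega) hV h)
    (fun C M hV => dl_dv hrb hV)
  have he2' : ∀ C M, VP S W (k + 2) C M →
      dl S (rb S W (k + 2) w (W \ Z) b) C M = dl S e C M := fun C M hV => by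
    rw [← he2 C M hV, dv_pos hV]
  have hOZ : ∀ {C : Finset Ω} {M : X →₀ ℕ}, (∃ u ∈ W \ Z, OZ S W (k + 2) w V (insert u Z) C M) →
      VP S W (k + 2) C M ∧ M w = 1 ∧ Disjoint Z C ∧ M.support.erase w ⊆ V := by
    rintro C M ⟨u, -, h1, h2, h3, -, h4⟩
    exact ⟨h1, h2, (Finset.disjoint_insert_left.1 h3).2, h4⟩
  obtain ⟨A, hA1, hA2⟩ := coc_form hT (W := W) (k := k)
    (r := fun C M => rb S W (k + 2) w (W \ Z) b C M + e C M) (fun C M h => by
      by_cases h1 : rb S W (k + 2) w (W \ Z) b C M = 0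
      · rw [h1, zero_add] at h
        exact (hOZ (he1 C M h)).1
      · exact hrb C M h1) (fun C M hV => by
      rw [dl_add, he2' C M hV, CharTwo.add_self_eq_zero])
  refine ⟨A, hA1, fun c hc M hM hcov hne => ?_, e, he1, he2', hA2⟩
  rw [hA2 c hc M hM hcov] at hne
  by_cases h1 : rb S W (k + 2) w (W \ Z) b {c} M = 0
  · rw [h1, zero_add] at hne
    obtain ⟨-, h2, h3, h4⟩ := hOZ (he1 _ _ hne)
    exact ⟨h2, fun h => Finset.disjoint_left.1 h3 h (Finset.mem_singleton_self c), h4⟩
  · obtain ⟨⟨-, -, h2, h3, -, -⟩, v, hv⟩ := rb_ne h1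
    refine ⟨h2, fun h => ?_, ?_⟩
    · exact (Finset.mem_sdiff.1 (h3 (Finset.mem_singleton_self c))).2 h
    · refine Finset.Subset.trans ?_ (hb.sup _ hv)
      rw [supp_add1 v, supp_sub1 h2]
      exact Finset.subset_insert _ _

end Pool.Agent.LH4
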