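import Pool.Agent.LH4.Zk1
import Pool.Agent.LH4.Zdef
import Pool.Agent.LH4.Ed

/-!
# The flux of a piece at the pairs typed by `w` and `Z`
-/

set_option autoImplicit false

open Finset

namespace Pool.Agent.LH4

open Pool.Agent.LocH

variable {X Ω : Type} [Fintype X] [DecidableEq X] [Fintype Ω] [DecidableEq Ω] {S : Sub X Ω}
  {W : Finset Ω} {w : X} {al s : S.T →ₗ[S.K] S.K} {g : S.T}

/-! ### Types -/

theorem ty_oz {n : ℕ} {C : Finset Ω} {M : X →₀ ℕ} (hV : VP S W n C M) (ht : Ty S w C M) :
    ∃ Z ∈ (S.car w).powersetCard 3, OZ S W n w univ Z C M := by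
  obtain ⟨h1, h2⟩ := ty_iff.1 ht
  obtain ⟨Z, hZ1, hZ2⟩ := Finset.exists_subset_card_eq h2
  have h3 : ∀ c ∈ Z, c ∈ S.car w ∧ c ∉ S.cr (M.support.erase w) ∧ c ∉ C := fun c hc => by
    have h4 := hZ1 hc
    rw [Finset.mem_sdiff, Finset.mem_sdiff] at h4
    exact ⟨h4.1.1, h4.1.2, h4.2⟩
  exact ⟨Z, Finset.mem_powersetCard.2 ⟨fun c hc => (h3 c hc).1, hZ2⟩, hV, h1,
    Finset.disjoint_left.2 fun c hc => (h3 c hc).2.2,
    Finset.disjoint_left.2 fun c hc => (h3 c hc).2.1, Finset.subset_univ _⟩

theorem OZ.ty {n : ℕ} {V : Finset X} {Z C : Finset Ω} {M : X →₀ ℕ} (h : OZ S W n w V Z C M)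
    (hZ : Z ⊆ S.car w) (hZ3 : 3 ≤ Z.card) : Ty S w C M := by
  refine ty_iff.2 ⟨h.2.1, hZ3.trans (Finset.card_le_card fun c hc => ?_)⟩
  exact Finset.mem_sdiff.2 ⟨Finset.mem_sdiff.2 ⟨hZ hc, Finset.disjoint_left.1 h.2.2.2.1 hc⟩,
    Finset.disjoint_left.1 h.2.2.1 hc⟩

omit [Fintype Ω] in
/-- The cochain of the values at the relations is supported at the typed pairs. -/
theorem Pce.r_ty (P : Pce S W w al s g) {k : ℕ} (hk : W.card = k + 4) {C : Finset Ω}
    {M : X →₀ ℕ} (h : co1 S W (k + 2) (fun c => ml al (S.th c)) C M ≠ 0) :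
    VP S W (k + 2) C M ∧ Ty S w C M := by
  have hV : VP S W (k + 2) C M ∧ C.card = 1 := by
    by_contra hcon
    exact h (co1_non hcon)
  obtain ⟨c, rfl⟩ := Finset.card_eq_one.1 hV.2
  refine ⟨hV.1, ?_⟩
  by_contra hcon
  refine h ?_
  have h4 := hV.1.deg
  rw [Finset.card_singleton] at h4
  rw [co1_one hV.1]
  refine P.th c (hV.1.sub (Finset.mem_singleton_self c)) M (by omega) ?_ hcon
  rw [Finset.erase_eq]
  exact hV.1.cov

theorem Pce.r_dl (P : Pce S W w al s g) {k : ℕ} (hk : W.card = k + 4) {C : Finset Ω}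
    {M : X →₀ ℕ} (hV : VP S W (k + 2) C M) :
    dl S (co1 S W (k + 2) (fun c => ml al (S.th c))) C M = 0 := by
  have hA0 : Nf S W (k + 2) al := fun M hM h => P.face M (by omega) h
  have hR : ∀ c ∈ W, Nf S W (k + 1) (ml al (S.th c)) := fun c _ M hM h => hA0.th_mo c hM h
  refine dl_co1 hR (fun c _ c' _ _ M _ => ?_) hV
  rw [ml_apply, ml_apply, ← mul_assoc, ← mul_assoc, mul_comm (S.th c)]

/-- The values of `s` at the relations. -/
theorem Pce.s_th (P : Pce S W w al s g) (hT : S.Top S.K) {c : Ω} (hc : c ∈ W) {M : X →₀ ℕ}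
    (hM : M.degree + 4 = W.card) (hcov : W.erase c ⊆ S.cr M.support) :
    s (S.th c * S.mo M) = al (S.th c * (S.lam W * S.mo M)) := by
  have h1 : ∀ v, S.a v c * s (S.mo (Finsupp.single v 1 + M)) =
      S.a v c * (S.Tr W (g * S.mo (Finsupp.single v 1 + M)) +
        al (S.lam W * S.mo (Finsupp.single v 1 + M))) := by
    intro v
    by_cases hv : c ∈ S.car v
    · have h2 := P.gTr (S.mo (Finsupp.single v 1 + M)) (mo_J fun _ => by
        intro e he
        rw [supp_single_add, cr_insert, Finset.mem_union]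
        by_cases hec : e = c
        · left
          rw [hec]
          exact hv
        · right
          exact hcov (Finset.mem_erase.2 ⟨hec, he⟩)) (by
        have h3 : W.card - 3 = (Finsupp.single v 1 + M).degree := by
          rw [deg_single_add]
          omega
        rw [h3]
        exact mo_H _)
      rw [h2, add_assoc, two_zero, add_zero]
    · rw [S.a_zero hv, zero_mul, zero_mul]
  have h4 : S.Tr W (g * (S.th c * S.mo M)) = 0 := by
    have h5 : g * (S.th c * S.mo M) = S.th c * (S.mo M * g) := by ring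
    have h6 : M.degree + 3 < W.card := by omega
    rw [h5, S.Tr_th hc, S.res hT (S.mul_J P.gJ _) (S.mul_H (mo_H M) P.gH) h6, mul_zero]
  have h7 : S.Tr W (g * (S.th c * S.mo M)) =
      ∑ v, S.a v c * S.Tr W (g * S.mo (Finsupp.single v 1 + M)) :=
    th_apply (S.Tr W ∘ₗ LinearMap.mulLeft S.K g) c M
  have h8 : al (S.th c * (S.lam W * S.mo M)) =
      ∑ v, S.a v c * al (S.lam W * S.mo (Finsupp.single v 1 + M)) := by
    have h9 := th_apply (ml al (S.lam W)) c M
    rw [ml_apply, mul_left_comm] at h9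
    exact h9
  rw [th_apply, Finset.sum_congr rfl fun v _ => h1 v]
  simp only [mul_add]
  rw [Finset.sum_add_distrib, ← h7, h4, zero_add, h8]

/-- The other pairs are not typed. -/
theorem not_ty_out {Z C : Finset Ω} (hZ3 : Z.card = 3) {c : Ω} {K : X →₀ ℕ} {v : X}
    (hwW : S.car w ⊆ W) (hwK : w ∉ K.support) (hcov : (W \ Z) \ {c} ⊆ S.cr K.support)
    (hv : ¬ S.car v ⊆ W \ Z) (hvW : S.car v ⊆ W) (hC : C = {c} ∨ c ∈ S.car v) :
    ¬ Ty S w C (Finsupp.single v 1 + (Finsupp.single w 1 + K)) := by
  by_cases hvw : v = w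
  · subst hvw
    refine not_ty_two ?_
    rw [Finsupp.add_apply, Finsupp.add_apply, Finsupp.single_eq_same]
    omega
  · intro ht
    have h1 := (ty_iff.1 ht).2
    have hsup : (Finsupp.single v 1 + (Finsupp.single w 1 + K)).support.erase w =
        insert v K.support := by
      rw [supp_single_add, supp_single_add, Finset.erase_insert_of_ne hvw,
        Finset.erase_insert hwK]
    rw [hsup, cr_insert] at h1
    obtain ⟨z, hzv, hz⟩ := Finset.not_subset.1 hv
    have hzZ : z ∈ Z := by
      by_contra h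
      exact hz (Finset.mem_sdiff.2 ⟨hvW hzv, h⟩)
    have h2 : (S.car w \ (S.car v ∪ S.cr K.support)) \ C ⊆ Z.erase z := by
      intro e he
      rw [Finset.mem_sdiff, Finset.mem_sdiff, Finset.mem_union] at he
      push Not at he
      refine Finset.mem_erase.2 ⟨fun h => he.1.2.1 (h ▸ hzv), ?_⟩
      by_contra h
      have hec : e ≠ c := by
        rintro rfl
        rcases hC with rfl | hC
        · exact he.2 (Finset.mem_singleton_self e)
        · exact he.1.2.1 hC
      exact he.1.2.2 (hcov (Finset.mem_sdiff.2 ⟨Finset.mem_sdiff.2 ⟨hwW he.1.1, h⟩, by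
        rwa [Finset.mem_singleton]⟩))
    have h3 := Finset.card_le_card h2
    rw [Finset.card_erase_of_mem hzZ, hZ3] at h3
    omega

/-- The data of the classes: the values of `s` and the flux at the missing colours `Z`. -/
theorem Pce.rs (P : Pce S W w al s g) (hT : S.Top S.K) {k : ℕ} (hk : W.card = k + 4)
    (hwW : S.car w ⊆ W) {r' : Finset Ω → Finset Ω → (X →₀ ℕ) → S.K}
    (h1 : ∀ Z ∈ (S.car w).powersetCard 3, ∀ C M, r' Z C M ≠ 0 → OZ S W (k + 2) w univ Z C M)
    (h3 : ∀ C M, co1 S W (k + 2) (fun c => ml al (S.th c)) C M =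
      ∑ Z ∈ (S.car w).powersetCard 3, r' Z C M) {Z : Finset Ω}
    (hZ : Z ∈ (S.car w).powersetCard 3) {c : Ω} (hc : c ∈ W \ Z) {K : X →₀ ℕ}
    (hK : K.degree + 2 = (W \ Z).card) (hKU : K.support ∈ S.fcs (W \ Z))
    (hcov : (W \ Z) \ {c} ⊆ S.cr K.support) :
    ∑ v ∈ univ.filter (fun v => S.car v ⊆ W \ Z), S.a v c *
        (open Classical in if insert w (Finsupp.single v 1 + K).support ∈ S.fcs W then
          s (S.mo (Finsupp.single w 1 + (Finsupp.single v 1 + K))) else 0) =
      ∑ v ∈ univ.filter (fun v => S.car v ⊆ W \ Z),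
        r' Z {c} (Finsupp.single w 1 + (Finsupp.single v 1 + K)) := by
  classical
  obtain ⟨hZw, hZ3⟩ := Finset.mem_powersetCard.1 hZ
  obtain ⟨hcW, hcZ⟩ := Finset.mem_sdiff.1 hc
  have hA0 : Nf S W (k + 2) al := fun M hM h => P.face M (by omega) h
  have hwU : ¬ S.car w ⊆ W \ Z := by
    intro h
    obtain ⟨z, hz⟩ := Finset.card_pos.1 (by omega : 0 < Z.card)
    exact (Finset.mem_sdiff.1 (h (hZw hz))).2 hz
  have hwK : w ∉ K.support := fun h => hwU (car_sub_of_mem hKU h)
  have hUc : (W \ Z).card = k + 1 := by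
    have h4 := Finset.card_sdiff_add_card_eq_card (hZw.trans hwW)
    omega
  set M : X →₀ ℕ := Finsupp.single w 1 + K with hM
  have hMd : M.degree + 4 = W.card := by
    rw [hM, deg_single_add]
    omega
  have hMc : W.erase c ⊆ S.cr M.support := by
    intro e he
    rw [Finset.mem_erase] at he
    rw [hM, supp_single_add, cr_insert, Finset.mem_union]
    by_cases heZ : e ∈ Z
    · exact Or.inl (hZw heZ)
    · exact Or.inr (hcov (Finset.mem_sdiff.2 ⟨Finset.mem_sdiff.2 ⟨he.2, heZ⟩, by
        rw [Finset.mem_singleton]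
        exact he.1⟩))
  have hcomm : ∀ v, Finsupp.single v 1 + M = Finsupp.single w 1 + (Finsupp.single v 1 + K) :=
    fun v => by rw [hM, add_left_comm]
  have hsup : ∀ v, (Finsupp.single v 1 + M).support =
      insert w (Finsupp.single v 1 + K).support := fun v => by rw [hcomm, supp_single_add]
  have hsub : ∀ v, M.support ⊆ (Finsupp.single v 1 + M).support := fun v => by
    rw [supp_single_add v M]
    exact Finset.subset_insert _ _
  have h4 := P.s_th hT hcW hMd hMc
  have h5 : s (S.th c * S.mo M) = ∑ v ∈ univ.filter (fun v => S.car v ⊆ W \ Z), S.a v c *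
      (if insert w (Finsupp.single v 1 + K).support ∈ S.fcs W then
        s (S.mo (Finsupp.single w 1 + (Finsupp.single v 1 + K))) else 0) := by
    rw [th_apply]
    refine (Finset.sum_subset_zero_on_sdiff (Finset.filter_subset _ _) ?_ ?_).symm
    · intro v hv
      rw [Finset.mem_sdiff, Finset.mem_filter] at hv
      have hvU : ¬ S.car v ⊆ W \ Z := fun h => hv.2 ⟨Finset.mem_univ v, h⟩
      by_cases hcv : c ∈ S.car v
      · by_cases hf : (Finsupp.single v 1 + M).support ∈ S.fcs W
        · have hvW : S.car v ⊆ W := car_sub_of_mem hf (by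
            rw [supp_single_add]
            exact Finset.mem_insert_self v _)
          rw [P.s0 (Finsupp.single v 1 + M) (by rw [deg_single_add]; omega) (fun _ => ?_)
            (not_ty_out hZ3 hwW hwK hcov hvU hvW (Or.inr hcv)), mul_zero]
          intro e he
          rw [supp_single_add, cr_insert, Finset.mem_union]
          by_cases hec : e = c
          · left
            rw [hec]
            exact hcv
          · right
            exact hMc (Finset.mem_erase.2 ⟨hec, he⟩)
        · rw [P.s_face (by rw [deg_single_add]; omega) hf, mul_zero]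
      · rw [S.a_zero hcv, zero_mul]
    · intro v _
      congr 1
      rw [hcomm, ← hsup]
      split_ifs with hf
      · rfl
      · rw [hcomm] at hf
        exact (P.s_face (by rw [← hcomm, deg_single_add]; omega) hf).symm
  have h6 : al (S.th c * (S.lam W * S.mo M)) =
      ∑ v ∈ univ.filter (fun v => S.car v ⊆ W \ Z),
        r' Z {c} (Finsupp.single w 1 + (Finsupp.single v 1 + K)) := by
    rw [← ml_apply, lam_apply]
    refine (Finset.sum_subset_zero_on_sdiff (fun v hv => ?_) ?_ ?_).symm
    · rw [Finset.mem_filter] at hv ⊢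
      exact ⟨hv.1, hv.2.trans Finset.sdiff_subset⟩
    · intro v hv
      rw [Finset.mem_sdiff, Finset.mem_filter, Finset.mem_filter] at hv
      have hvU : ¬ S.car v ⊆ W \ Z := fun h => hv.2 ⟨Finset.mem_univ v, h⟩
      rw [ml_apply]
      by_cases hf : (Finsupp.single v 1 + M).support ∈ S.fcs W
      · refine P.th c hcW _ (by rw [deg_single_add]; omega) ?_
          (not_ty_out hZ3 hwW hwK hcov hvU hv.1.2 (Or.inl rfl))
        exact hMc.trans (cr_mono (hsub v))
      · exact hA0.th_mo c (by rw [deg_single_add]; omega) hf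
    · intro v hv
      rw [Finset.mem_filter] at hv
      rw [← hcomm, ml_apply]
      by_cases hf : (Finsupp.single v 1 + M).support ∈ S.fcs W
      · have hV : VP S W (k + 2) {c} (Finsupp.single v 1 + M) := by
          refine ⟨Finset.singleton_subset_iff.2 hcW, hf, ?_, ?_⟩
          · rw [← Finset.erase_eq]
            exact hMc.trans (cr_mono (hsub v))
          · rw [deg_single_add, Finset.card_singleton]
            omega
        have h7 := h3 {c} (Finsupp.single v 1 + M)
        rw [co1_one hV, ml_apply] at h7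
        rw [h7]
        symm
        refine Finset.sum_eq_single_of_mem Z hZ fun Z' hZ' hne => ?_
        by_contra hcon
        obtain ⟨-, -, h8, h9, -⟩ := h1 Z' hZ' _ _ hcon
        obtain ⟨hZ'w, hZ'3⟩ := Finset.mem_powersetCard.1 hZ'
        refine hne (Finset.eq_of_subset_of_card_le (fun e he => ?_) (by rw [hZ3, hZ'3]))
        by_contra h
        refine Finset.disjoint_left.1 h9 he (cr_mono ?_ (hcov (Finset.mem_sdiff.2
          ⟨Finset.mem_sdiff.2 ⟨hwW (hZ'w he), h⟩, Finset.disjoint_left.1 h8 he⟩)))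
        intro u hu
        refine Finset.mem_erase.2 ⟨fun h => hwK (h ▸ hu), ?_⟩
        rw [supp_single_add, hM, supp_single_add]
        exact Finset.mem_insert_of_mem (Finset.mem_insert_of_mem hu)
      · rw [hA0.th_mo c (by rw [deg_single_add]; omega) hf]
        by_contra hcon
        exact hf (h1 Z hZ _ _ hcon).1.fcs
  rw [← h5, h4, h6]

end Pool.Agent.LH4
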