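import Pool.Agent.LH4.Zk3
import Pool.Agent.LH4.Oz2

/-!
# The decomposition of a piece into classes
-/

set_option autoImplicit false

open Finset

namespace Pool.Agent.LH4

open Pool.Agent.LocH

variable {X Ω : Type} [Fintype X] [DecidableEq X] [Fintype Ω] [DecidableEq Ω] {S : Sub X Ω}
  {W : Finset Ω} {w : X} {al s : S.T →ₗ[S.K] S.K} {g : S.T}

/-- The decomposition of a piece, from the decomposition for every set `Z` of three colours. -/
theorem Pce.zd_one (P : Pce S W w al s g) (hT : S.Top S.K) {k : ℕ} (hk : W.card = k + 4)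
    (hwW : S.car w ⊆ W) (h4 : ∀ Z, Z ⊆ S.car w → Z.card = 3 → OneZ S W w k Z) :
    ∃ (ι : Type) (I : Finset ι) (Z : ι → Finset Ω) (V : ι → Finset X)
      (A : ι → S.T →ₗ[S.K] S.K) (h : S.T), Zd S W w al I Z V A h := by
  obtain ⟨r', h1, h2, h3⟩ := splitZ (S := S) (W := W) (n := k + 2) (w := w) (V := univ)
    ((S.car w).powersetCard 3) (fun Z hZ => (Finset.mem_powersetCard.1 hZ).1.trans hwW)
    (fun Z hZ => by
      rw [(Finset.mem_powersetCard.1 hZ).2]
      omega) (fun Z hZ Z' hZ' hne => by
      have h5 := (Finset.mem_powersetCard.1 hZ).2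
      have h6 := (Finset.mem_powersetCard.1 hZ').2
      have h7 : 4 ≤ (Z ∪ Z').card := by
        by_contra h
        have h8 : Z = Z ∪ Z' :=
          Finset.eq_of_subset_of_card_le Finset.subset_union_left (by omega)
        have h9 : Z' = Z ∪ Z' :=
          Finset.eq_of_subset_of_card_le Finset.subset_union_right (by omega)
        exact hne (h8.trans h9.symm)
      omega)
    (co1 S W (k + 2) (fun c => ml al (S.th c)))
    (fun C M h => by
      obtain ⟨h5, h6⟩ := P.r_ty hk h
      exact ty_oz h5 h6) (fun C M hV => P.r_dl hk hV)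
  exact P.zd_of hT hk hwW h1 h2 h3 fun Z hZ =>
    h4 Z (Finset.mem_powersetCard.1 hZ).1 (Finset.mem_powersetCard.1 hZ).2

end Pool.Agent.LH4
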