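import Pool.Agent.LH4.Ov4

/-!
# The splitting theorem for a family of closed sets of valid pairs

`split_fam`: the Mayer-Vietoris argument for a family `P i` of closed sets of valid pairs such that
the intersections of two or more members are exact.
-/

set_option autoImplicit false

open Finset

namespace Pool.Agent.LH4

open Pool.Agent.LocH

variable {X Ω : Type} [Fintype X] [DecidableEq X] [Fintype Ω] [DecidableEq Ω] {S : Sub X Ω}
  {W : Finset Ω} {n : ℕ} {κ : Type} {P : κ → Finset Ω → (X →₀ ℕ) → Prop}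

/-- The valid pairs in all `P i`, `i ∈ Y`. -/
def FOS (S : Sub X Ω) (W : Finset Ω) (n : ℕ) (P : κ → Finset Ω → (X →₀ ℕ) → Prop)
    (Y : Finset κ) (C : Finset Ω) (M : X →₀ ℕ) : Prop :=
  VP S W n C M ∧ ∀ i ∈ Y, P i C M

/-- The valid pairs in all `P i`, `i ∈ Y`, and in some `P i`, `i ∈ T`. -/
def FUS (S : Sub X Ω) (W : Finset Ω) (n : ℕ) (P : κ → Finset Ω → (X →₀ ℕ) → Prop)
    (Y T : Finset κ) (C : Finset Ω) (M : X →₀ ℕ) : Prop :=
  FOS S W n P Y C M ∧ ∃ i ∈ T, P i C M

omit [Fintype X] [Fintype Ω] in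
theorem cl_FOS (hP : ∀ i, Cl S W n (P i)) (Y : Finset κ) : Cl S W n (FOS S W n P Y) :=
  ⟨fun _ _ h => h.1, fun C M c v hV hc hv h =>
    ⟨hV, fun i hi => (hP i).cl C M c v hV hc hv (h.2 i hi)⟩⟩

omit [Fintype X] [Fintype Ω] in
theorem cl_FUS (hP : ∀ i, Cl S W n (P i)) (Y T : Finset κ) :
    Cl S W n (FUS S W n P Y T) := by
  refine ⟨fun C M h => h.1.1, fun C M c v hV hc hv h => ?_⟩
  obtain ⟨h1, i, hi, h2⟩ := h
  exact ⟨(cl_FOS hP Y).cl C M c v hV hc hv h1, i, hi, (hP i).cl C M c v hV hc hv h2⟩

/-- Cocycles supported on the pairs in all `P i`, `i ∈ Y`, and in some `P i`, `i ∈ T`, are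
coboundaries. -/
theorem exa_FUS [DecidableEq κ] (hP : ∀ i, Cl S W n (P i)) (T : Finset κ) : ∀ Y : Finset κ,
    (∀ Y' : Finset κ, Y' ⊆ Y ∪ T → 2 ≤ Y'.card → Exa S W n (FOS S W n P Y')) → 1 ≤ Y.card →
    Disjoint Y T → Exa S W n (FUS S W n P Y T) := by
  induction T using Finset.induction_on with
  | empty =>
    intro Y _ _ _ r hr _
    have h0 : ∀ C M, r C M = 0 := fun C M => by
      by_contra h
      obtain ⟨_, w, hw, _⟩ := hr C M h
      exact Finset.notMem_empty w hw
    refine ⟨fun _ _ => 0, fun _ _ h => absurd rfl h, fun C M _ => ?_⟩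
    rw [h0]
    exact (Finset.sum_eq_zero fun c _ => Finset.sum_eq_zero fun v _ => mul_zero _).symm
  | insert t T htT ih =>
    intro Y hE hY hYT
    rw [Finset.disjoint_insert_right] at hYT
    have h1 : FUS S W n P Y (insert t T) =
        fun C M => FOS S W n P (insert t Y) C M ∨ FUS S W n P Y T C M := by
      funext C M
      refine propext ⟨?_, ?_⟩
      · rintro ⟨h1, w, hw, h2⟩
        rcases Finset.mem_insert.1 hw with rfl | hw
        · refine Or.inl ⟨h1.1, fun w' hw' => ?_⟩
          rcases Finset.mem_insert.1 hw' with rfl | hw'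
          · exact h2
          · exact h1.2 w' hw'
        · exact Or.inr ⟨h1, w, hw, h2⟩
      · rintro (h | ⟨h1, w, hw, h2⟩)
        · exact ⟨⟨h.1, fun w' hw' => h.2 w' (Finset.mem_insert_of_mem hw')⟩, t,
            Finset.mem_insert_self t T, h.2 t (Finset.mem_insert_self t Y)⟩
        · exact ⟨h1, w, Finset.mem_insert_of_mem hw, h2⟩
    have h2 : FUS S W n P (insert t Y) T =
        fun C M => FOS S W n P (insert t Y) C M ∧ FUS S W n P Y T C M := by
      funext C M
      refine propext ⟨?_, ?_⟩
      · rintro ⟨h1, w, hw, h2⟩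
        exact ⟨h1, ⟨h1.1, fun w' hw' => h1.2 w' (Finset.mem_insert_of_mem hw')⟩, w, hw, h2⟩
      · rintro ⟨h1, h2, w, hw, h3⟩
        exact ⟨h1, w, hw, h3⟩
    have h3 : (insert t Y).card = Y.card + 1 := Finset.card_insert_of_notMem hYT.1
    have hsub1 : insert t Y ⊆ Y ∪ insert t T := by
      intro i hi
      rcases Finset.mem_insert.1 hi with rfl | hi
      · exact Finset.mem_union_right _ (Finset.mem_insert_self _ _)
      · exact Finset.mem_union_left _ hi
    have hsub2 : Y ∪ T ⊆ Y ∪ insert t T :=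
      Finset.union_subset_union_right (Finset.subset_insert t T)
    have hsub3 : insert t Y ∪ T ⊆ Y ∪ insert t T := Finset.union_subset hsub1
      ((Finset.subset_insert t T).trans Finset.subset_union_right)
    rw [h1]
    refine mv (cl_FOS hP _) (cl_FUS hP Y T) (hE _ hsub1 (by omega))
      (ih Y (fun Y' h => hE Y' (h.trans hsub2)) hY hYT.2) ?_
    rw [← h2]
    refine ih (insert t Y) (fun Y' h => hE Y' (h.trans hsub3)) (by omega) ?_
    rw [Finset.disjoint_insert_left]
    exact ⟨htT, hYT.2⟩

/-- The splitting theorem for a family of closed sets. -/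
theorem split_fam [DecidableEq κ] (hP : ∀ i, Cl S W n (P i)) (T : Finset κ)
    (hE : ∀ Y : Finset κ, Y ⊆ T → 2 ≤ Y.card → Exa S W n (FOS S W n P Y))
    (r : Finset Ω → (X →₀ ℕ) → S.K) (q : κ → Finset Ω → (X →₀ ℕ) → S.K)
    (hr : ∀ C M, r C M ≠ 0 → ∃ i ∈ T, P i C M)
    (hq : ∀ i ∈ T, ∀ C M, q i C M ≠ 0 → P i C M)
    (hdq : ∀ i ∈ T, ∀ C M, VP S W n C M → dl S (q i) C M = 0)
    (hdr : ∀ C M, VP S W n C M → dl S r C M = ∑ i ∈ T, q i C M) :
    ∃ r' : κ → Finset Ω → (X →₀ ℕ) → S.K,
      (∀ i ∈ T, ∀ C M, r' i C M ≠ 0 → P i C M) ∧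
      (∀ i ∈ T, ∀ C M, VP S W n C M → dl S (r' i) C M = q i C M) ∧
      ∀ C M, r C M = ∑ i ∈ T, r' i C M := by
  have := S.charP_K
  induction T using Finset.induction_on generalizing r with
  | empty =>
    refine ⟨fun _ _ _ => 0, fun w hw => absurd hw (Finset.notMem_empty w),
      fun w hw => absurd hw (Finset.notMem_empty w), fun C M => ?_⟩
    rw [Finset.sum_empty]
    by_contra h
    obtain ⟨w, hw, _⟩ := hr C M h
    exact Finset.notMem_empty w hw
  | insert w T hwT ih =>
    have hos : ∀ C M, FOS S W n P {w} C M ↔ P w C M := by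
      intro C M
      refine ⟨fun h => h.2 w (Finset.mem_singleton_self w), fun h => ⟨(hP w).vp C M h, ?_⟩⟩
      intro w' hw'
      rw [Finset.mem_singleton.1 hw']
      exact h
    have hwI : w ∈ insert w T := Finset.mem_insert_self w T
    have h1 : ∀ C M, onP (P w) r C M ≠ 0 → P w C M := fun C M h => (onP_ne h).1
    have h2 : ∀ C M, offP (P w) r C M ≠ 0 → FUS S W n P ∅ T C M := by
      intro C M h
      obtain ⟨h3, h4⟩ := offP_ne h
      obtain ⟨w', hw', h5⟩ := hr C M h4
      refine ⟨⟨(hP w').vp C M h5, fun x hx => absurd hx (Finset.notMem_empty x)⟩, w', ?_, h5⟩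
      rcases Finset.mem_insert.1 hw' with rfl | hw'
      · exact absurd h5 h3
      · exact hw'
    have hqT : ∀ C M, (∑ x ∈ T, q x C M) ≠ 0 → FUS S W n P ∅ T C M := by
      intro C M h
      obtain ⟨x, hx, hx'⟩ := Finset.exists_ne_zero_of_sum_ne_zero h
      have h3 := hq x (Finset.mem_insert_of_mem hx) C M hx'
      exact ⟨⟨(hP x).vp C M h3, fun y hy => absurd hy (Finset.notMem_empty y)⟩, x, hx, h3⟩
    have hg : ∀ C M, VP S W n C M →
        dl S (onP (P w) r) C M + q w C M = dl S (offP (P w) r) C M + ∑ x ∈ T, q x C M := by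
      intro C M hV
      have h3 := hdr C M hV
      rw [Finset.sum_insert hwT, ← dl_on_off (P w) r C M] at h3
      have h4 : dl S (onP (P w) r) C M =
          q w C M + (∑ x ∈ T, q x C M) + dl S (offP (P w) r) C M := by
        rw [← h3, add_assoc, CharTwo.add_self_eq_zero, add_zero]
      rw [h4]
      have h5 : q w C M + (∑ x ∈ T, q x C M) + dl S (offP (P w) r) C M + q w C M =
          (q w C M + q w C M) + (dl S (offP (P w) r) C M + ∑ x ∈ T, q x C M) := by ring
      rw [h5, CharTwo.add_self_eq_zero, zero_add]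
    obtain ⟨e, he1, he2⟩ := exa_FUS hP T {w} (fun Y' h => hE Y' (by
        rwa [← Finset.insert_eq] at h)) (Finset.card_singleton w).ge
      (Finset.disjoint_singleton_left.2 hwT) (fun C M => dv S W n (onP (P w) r) C M + q w C M)
      (fun C M h => by
        have hV : VP S W n C M := by
          by_contra hV
          rw [dv_neg hV, zero_add] at h
          exact hV ((hP w).vp C M (hq w hwI C M h))
        refine ⟨?_, ?_⟩
        · by_cases h3 : dv S W n (onP (P w) r) C M = 0
          · rw [h3, zero_add] at h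
            exact (hos C M).2 (hq w hwI C M h)
          · exact (hos C M).2 (dv_supp (hP w) h1 C M h3)
        · rw [dv_pos hV, hg C M hV] at h
          by_cases h3 : dl S (offP (P w) r) C M = 0
          · rw [h3, zero_add] at h
            exact (hqT C M h).2
          · rw [← dv_pos hV] at h3
            exact (dv_supp (cl_FUS hP ∅ T) h2 C M h3).2)
      (fun C M hV => by
        rw [dl_add, dl_dv (fun C M h => (hP w).vp C M (h1 C M h)) hV, hdq w hwI C M hV, add_zero])
    obtain ⟨r'', hr1, hr2, hr3⟩ := ih (fun Y h => hE Y (h.trans (Finset.subset_insert w T)))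
      (fun C M => offP (P w) r C M + e C M)
      (fun C M h => by
        by_cases h3 : offP (P w) r C M = 0
        · rw [h3, zero_add] at h
          exact (he1 C M h).2
        · exact (h2 C M h3).2)
      (fun x hx => hq x (Finset.mem_insert_of_mem hx))
      (fun x hx => hdq x (Finset.mem_insert_of_mem hx))
      (fun C M hV => by
        rw [dl_add, ← he2 C M hV, dv_pos hV, hg C M hV, ← add_assoc,
          CharTwo.add_self_eq_zero, zero_add])
    refine ⟨fun x => if x = w then fun C M => onP (P w) r C M + e C M else r'' x, ?_, ?_, ?_⟩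
    · intro x hx C M h
      beta_reduce at h
      by_cases hxw : x = w
      · subst hxw
        rw [if_pos rfl] at h
        by_cases h3 : onP (P x) r C M = 0
        · rw [h3, zero_add] at h
          exact (hos C M).1 (he1 C M h).1
        · exact h1 C M h3
      · rw [if_neg hxw] at h
        exact hr1 x ((Finset.mem_insert.1 hx).resolve_left hxw) C M h
    · intro x hx C M hV
      beta_reduce
      by_cases hxw : x = w
      · subst hxw
        rw [if_pos rfl, dl_add, ← he2 C M hV, dv_pos hV, ← add_assoc,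
          CharTwo.add_self_eq_zero, zero_add]
      · rw [if_neg hxw]
        exact hr2 x ((Finset.mem_insert.1 hx).resolve_left hxw) C M hV
    · intro C M
      beta_reduce
      have h4 : ∀ x ∈ T, (if x = w then fun C M => onP (P w) r C M + e C M else r'' x) C M =
          r'' x C M := fun x hx => by
        have hxw : x ≠ w := fun h => hwT (h ▸ hx)
        rw [if_neg hxw]
      rw [Finset.sum_insert hwT, if_pos rfl, Finset.sum_congr rfl h4, ← hr3 C M,
        add_add_add_comm, CharTwo.add_self_eq_zero, add_zero, on_add_off]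

end Pool.Agent.LH4
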