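import Pool.Agent.LH4.Zs1

/-!
# Cocycles supported on the pairs typed by `w` with the private colours `Z`
-/

set_option autoImplicit false

open Finset

namespace Pool.Agent.LH4

open Pool.Agent.LocH

open Pool.Agent.LocH.Sub (ch ch_support ch_degree)

variable {X Ω : Type} [Fintype X] [DecidableEq X] [Fintype Ω] [DecidableEq Ω] {S : Sub X Ω}
  {W : Finset Ω} {n : ℕ} {w : X} {Z : Finset Ω}

/-- `w` is once in `M`; the colours in `Z` are covered by the factor `w` only and not in `C`. -/
structure TZ (S : Sub X Ω) (w : X) (Z C : Finset Ω) (M : X →₀ ℕ) : Prop where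
  one : M w = 1
  sub : Z ⊆ (S.car w \ S.cr (M.support.erase w)) \ C

/-- The valid pairs typed by `w` and `Z`. -/
def OZ (S : Sub X Ω) (W : Finset Ω) (n : ℕ) (w : X) (Z C : Finset Ω) (M : X →₀ ℕ) : Prop :=
  VP S W n C M ∧ TZ S w Z C M

theorem TZ.ty {C : Finset Ω} {M : X →₀ ℕ} (h : TZ S w Z C M) (hZ : 3 ≤ Z.card) :
    Ty S w C M :=
  ty_iff.2 ⟨h.one, hZ.trans (Finset.card_le_card h.sub)⟩

theorem OZ.os {C : Finset Ω} {M : X →₀ ℕ} (h : OZ S W n w Z C M) (hZ : 3 ≤ Z.card) :
    OS S W n {w} C M :=
  ⟨h.1, fun w' hw' => by rw [Finset.mem_singleton.1 hw']; exact h.2.ty hZ⟩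

omit [Fintype X] [Fintype Ω] in
theorem cl_OZ (hZ : 2 ≤ Z.card) : Cl S W n (OZ S W n w Z) := by
  refine ⟨fun C M h => h.1, fun C M c v hVP hc hv h => ⟨hVP, ?_⟩⟩
  have h1 := h.2.one
  have h2 := h.2.sub
  rw [supp_add1] at h2
  rw [Finsupp.add_apply, Finsupp.single_apply] at h1
  by_cases hvw : v = w
  · subst hvw
    rw [if_pos rfl] at h1
    have h3 : M v = 0 := by omega
    have h4 : v ∉ M.support := by
      rw [Finsupp.mem_support_iff]
      exact fun h => h h3
    rw [Finset.erase_insert h4] at h2
    have h5 : (S.car v \ S.cr M.support) \ C.erase c ⊆ {c} := by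
      intro b hb
      rw [Finset.mem_sdiff, Finset.mem_sdiff, Finset.mem_erase] at hb
      rw [Finset.mem_singleton]
      by_contra hbc
      have hbW : b ∈ W := (Finset.mem_filter.1 h.1.fcs).2
        (mem_cr.2 ⟨v, by rw [supp_add1]; exact Finset.mem_insert_self v _, hb.1.1⟩)
      have hbC : b ∉ C := fun h' => hb.2 ⟨hbc, h'⟩
      exact hb.1.2 (hVP.cov (Finset.mem_sdiff.2 ⟨hbW, hbC⟩))
    have h6 := Finset.card_le_card (h2.trans h5)
    rw [Finset.card_singleton] at h6
    omega
  · rw [if_neg hvw, zero_add] at h1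
    refine ⟨h1, h2.trans ?_⟩
    intro b hb
    rw [Finset.erase_insert_of_ne hvw] at hb
    rw [Finset.mem_sdiff, Finset.mem_sdiff, Finset.mem_erase] at hb
    rw [Finset.mem_sdiff, Finset.mem_sdiff]
    refine ⟨⟨hb.1.1, fun h' => hb.1.2 ?_⟩, fun h' => hb.2 ⟨?_, h'⟩⟩
    · obtain ⟨u, hu, hu'⟩ := mem_cr.1 h'
      exact mem_cr.2 ⟨u, Finset.mem_insert_of_mem hu, hu'⟩
    · rintro rfl
      exact hb.1.2 (mem_cr.2 ⟨v, Finset.mem_insert_self v _, hv⟩)

/-- One step: the supports with exactly `k` vertices. -/
theorem exa_stepZ (hn : W.card + 2 ≤ n + Z.card) (hZ : 3 ≤ Z.card) {g : Finset Ω → (X →₀ ℕ) → S.K}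
    (hg : ∀ C M, g C M ≠ 0 → OZ S W n w Z C M) (hc : ∀ C M, VP S W n C M → dl S g C M = 0) {k : ℕ}
    (hk : ∀ C M, g C M ≠ 0 → M.support.card ≤ k) :
    ∃ e : Finset Ω → (X →₀ ℕ) → S.K, (∀ C M, e C M ≠ 0 → OZ S W n w Z C M) ∧
      (∀ C M, e C M ≠ 0 → M.support.card ≤ k) ∧
      ∀ C M, VP S W n C M → k ≤ M.support.card → g C M = dl S e C M := by
  classical
  have := S.charP_K
  have hcl : Cl S W n (OZ S W n w Z) := cl_OZ (by omega)
  -- the pieces
  have hG : ∀ F : Finset X, ∀ E : Finset Ω, ∃ G : Finset Ω → (X →₀ ℕ) → S.K,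
      ∀ C M, OZ S W n w Z C M → M.support = F → F.card = k → C \ UF S {w} F = E →
      g C M = ∑ c ∈ C ∩ UF S {w} F, ∑ v ∈ F \ {w}, S.a v c *
        G ((C ∩ UF S {w} F).erase c) (Finsupp.single v 1 + (M - ch F)) := by
    intro F E
    by_cases hex : ∃ C M, OZ S W n w Z C M ∧ M.support = F ∧ F.card = k ∧ C \ UF S {w} F = E
    · obtain ⟨C0, M0, hO, hF, hFk, hE⟩ := hex
      have hFW : F ∈ S.fcs W := hF ▸ hO.1.fcs
      have hwF : w ∈ F := by
        rw [← hF, Finsupp.mem_support_iff, hO.2.one]
        exact one_ne_zero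
      have hUE : ∀ c ∈ E, c ∉ UF S {w} F := fun c hc => by
        rw [← hE] at hc
        exact (Finset.mem_sdiff.1 hc).2
      have hUW : UF S {w} F ⊆ W := Finset.sdiff_subset.trans (Finset.mem_filter.1 hFW).2
      have hEW : E ⊆ W := by
        rw [← hE]
        exact Finset.sdiff_subset.trans hO.1.sub
      have hWE : W \ E ⊆ S.cr F := by
        intro c hc
        rw [Finset.mem_sdiff] at hc
        by_cases hcC : c ∈ C0
        · have h1 : c ∈ UF S {w} F := by
            by_contra h
            exact hc.2 (hE ▸ Finset.mem_sdiff.2 ⟨hcC, h⟩)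
          exact (Finset.mem_sdiff.1 h1).1
        · have h1 := hO.1.cov (Finset.mem_sdiff.2 ⟨hc.1, hcC⟩)
          rwa [hF] at h1
      have hP : Z ⊆ (S.car w \ S.cr (F.erase w)) \ E := by
        have h1 := hO.2.sub
        rw [hF] at h1
        refine h1.trans ?_
        intro c hc
        rw [Finset.mem_sdiff] at hc ⊢
        refine ⟨hc.1, fun h => hc.2 ?_⟩
        rw [← hE] at h
        exact (Finset.mem_sdiff.1 h).1
      -- the count
      have hcount : (UF S {w} F).card + E.card + Z.card ≤ W.card := by
        have h2 : Disjoint (UF S {w} F ∪ E) Z := by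
          rw [Finset.disjoint_left]
          intro c hc hc'
          have hc2 := hP hc'
          rw [Finset.mem_sdiff] at hc2
          rcases Finset.mem_union.1 hc with h | h
          · exact (Finset.mem_sdiff.1 h).2
              (Finset.mem_biUnion.2 ⟨w, Finset.mem_singleton_self w, hc2.1⟩)
          · exact hc2.2 h
        have h3 : UF S {w} F ∪ E ∪ Z ⊆ W := by
          refine Finset.union_subset (Finset.union_subset hUW hEW) fun c hc => ?_
          have hc2 := hP hc
          rw [Finset.mem_sdiff, Finset.mem_sdiff] at hc2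
          exact (Finset.mem_filter.1 hFW).2 (mem_cr.2 ⟨w, hwF, hc2.1.1⟩)
        have h4 := Finset.card_le_card h3
        rw [Finset.card_union_of_disjoint h2, Finset.card_union_of_disjoint
          (Finset.disjoint_left.2 fun c hc hc' => hUE c hc' hc)] at h4
        omega
      have hcF : (F \ {w}).card + 1 = F.card := by
        have h1 := Finset.card_sdiff_add_card_eq_card (Finset.singleton_subset_iff.2 hwF)
        rwa [Finset.card_singleton] at h1
      obtain ⟨N, hN⟩ : ∃ N, N + F.card + E.card = n := by
        have h1 := hO.1.deg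
        have h2 : F.card ≤ M0.degree := by
          rw [← hF, Finsupp.degree, Finset.card_eq_sum_ones]
          exact Finset.sum_le_sum fun v hv => Nat.one_le_iff_ne_zero.2
            (Finsupp.mem_support_iff.1 hv)
        have h3 : E.card ≤ C0.card := by
          rw [← hE]
          exact Finset.card_le_card Finset.sdiff_subset
        exact ⟨n - F.card - E.card, by omega⟩
      have hFY : F \ {w} ∈ S.Gam := S.down F (Finset.mem_filter.1 hFW).1 _ Finset.sdiff_subset
      obtain ⟨f, hf1, hf2⟩ := S.exists_inj hFY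
      have hdet := S.minor_ne hf1 hf2
      rw [← Matrix.det_transpose] at hdet
      have hkey : ∀ B ⊆ UF S {w} F, ∀ μ : X →₀ ℕ, μ.support ⊆ F \ {w} → μ.degree + B.card = N →
          OZ S W n w Z (E ∪ B) (ch F + μ) ∧ (ch F + μ).support = F := by
        intro B hB μ hμ hd
        have hs : (ch F + μ).support = F := by
          ext u
          rw [Finsupp.mem_support_iff, Finsupp.add_apply]
          by_cases hu : u ∈ F
          · have h1 : (ch F : X →₀ ℕ) u ≠ 0 := by
              rw [← Finsupp.mem_support_iff, ch_support]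
              exact hu
            exact ⟨fun _ => hu, fun _ => by omega⟩
          · have h1 : (ch F : X →₀ ℕ) u = 0 := by
              rw [← Finsupp.notMem_support_iff, ch_support]
              exact hu
            have h2 : μ u = 0 := by
              rw [← Finsupp.notMem_support_iff]
              exact fun h => hu (Finset.mem_sdiff.1 (hμ h)).1
            exact ⟨fun h => absurd (by omega) h, fun h => absurd h hu⟩
        have hEB : Disjoint E B := Finset.disjoint_left.2 fun c hc hc' => hUE c hc (hB hc')
        refine ⟨⟨⟨Finset.union_subset hEW (hB.trans hUW), hs.symm ▸ hFW, ?_, ?_⟩, ?_⟩, hs⟩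
        · rw [hs]
          exact (Finset.sdiff_subset_sdiff subset_rfl Finset.subset_union_left).trans hWE
        · rw [map_add, ch_degree, Finset.card_union_of_disjoint hEB]
          omega
        · refine ⟨?_, ?_⟩
          · have h1 : (ch F : X →₀ ℕ) w = 1 := by
              unfold ch
              rw [Finsupp.finsetSum_apply, Finset.sum_eq_single w]
              · exact Finsupp.single_eq_same
              · intro b _ hb
                exact Finsupp.single_eq_of_ne hb.symm
              · exact fun h => absurd hwF h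
            have h2 : μ w = 0 := by
              rw [← Finsupp.notMem_support_iff]
              exact fun h => (Finset.mem_sdiff.1 (hμ h)).2 (Finset.mem_singleton_self w)
            rw [Finsupp.add_apply, h1, h2]
          · rw [hs]
            refine hP.trans ?_
            intro c hc
            rw [Finset.mem_sdiff] at hc ⊢
            refine ⟨hc.1, fun h => ?_⟩
            rcases Finset.mem_union.1 h with h | h
            · exact hc.2 h
            · exact (Finset.mem_sdiff.1 (hB h)).2
                (Finset.mem_biUnion.2 ⟨w, Finset.mem_singleton_self w, hc.1⟩)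
      have hint : ∀ B ⊆ UF S {w} F, (E ∪ B) ∩ UF S {w} F = B := by
        intro B hB
        ext c
        rw [Finset.mem_inter, Finset.mem_union]
        exact ⟨fun h => h.1.resolve_left fun h' => hUE c h' h.2, fun h => ⟨Or.inr h, hB h⟩⟩
      obtain ⟨G, hG⟩ := KEx_mono (K := S.K) (fun v c => S.a v c) (F \ {w})
        (U := UF S {w} F) (N := N) (by omega) f (fun v => car_UF (Finset.mem_sdiff.1 v.2).1 (Finset.mem_sdiff.1 v.2).2
          (hf2 v)) hdet (fun B μ => g (E ∪ B) (ch F + μ)) (by
          intro B hB μ hμ hd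
          obtain ⟨h1, h2⟩ := hkey B hB μ hμ hd
          have h3 := hc _ _ h1.1
          rw [dl_piece (Y := {w}) (fun C M h => (hg C M h).os hZ)
            (fun C M' h => by rw [h2, hFk]; exact hk C M' h), h2, hint B hB] at h3
          refine Eq.trans (Finset.sum_congr rfl fun c hcB => Finset.sum_congr rfl fun v _ => ?_) h3
          have h4 : E ∪ B.erase c = (E ∪ B).erase c := by
            rw [Finset.erase_union_distrib, Finset.erase_eq_of_notMem fun h => hUE c h (hB hcB)]
          rw [h4, add_left_comm])
      refine ⟨G, fun C M hO' hF' _ hE' => ?_⟩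
      have h1 : ch F ≤ M := by
        intro u
        by_cases hu : u ∈ F
        · have h2 : (ch F : X →₀ ℕ) u = 1 := by
            unfold ch
            rw [Finsupp.finsetSum_apply, Finset.sum_eq_single u]
            · exact Finsupp.single_eq_same
            · intro b _ hb
              exact Finsupp.single_eq_of_ne hb.symm
            · exact fun h => absurd hu h
          rw [h2]
          exact Nat.one_le_iff_ne_zero.2 (Finsupp.mem_support_iff.1 (hF' ▸ hu))
        · have h2 : (ch F : X →₀ ℕ) u = 0 := by
            rw [← Finsupp.notMem_support_iff, ch_support]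
            exact hu
          rw [h2]
          exact Nat.zero_le _
      obtain ⟨μ, rfl⟩ : ∃ μ, M = ch F + μ := ⟨M - ch F, (add_tsub_cancel_of_le h1).symm⟩
      have h2 : μ.support ⊆ F \ {w} := by
        intro u hu
        have hu' := Finsupp.mem_support_iff.1 hu
        have huF : u ∈ F := by
          rw [← hF', Finsupp.mem_support_iff, Finsupp.add_apply]
          omega
        refine Finset.mem_sdiff.2 ⟨huF, fun hY' => ?_⟩
        have h3 : (ch F + μ) u = 1 := by
          rw [Finset.mem_singleton.1 hY']
          exact hO'.2.one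
        have h4 : (ch F : X →₀ ℕ) u ≠ 0 := by
          rw [← Finsupp.mem_support_iff, ch_support]
          exact huF
        rw [Finsupp.add_apply] at h3
        omega
      have h3 : C = E ∪ (C ∩ UF S {w} F) := by
        rw [← hE', Finset.sdiff_union_inter]
      have h4 : μ.degree + (C ∩ UF S {w} F).card = N := by
        have h5 := hO'.1.deg
        have h6 : C.card = E.card + (C ∩ UF S {w} F).card := by
          rw [← hE']
          exact (Finset.card_sdiff_add_card_inter C (UF S {w} F)).symm
        rw [map_add, ch_degree] at h5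
        omega
      rw [add_tsub_cancel_left, ← hG _ Finset.inter_subset_right μ h2 h4, ← h3]
    · refine ⟨fun _ _ => 0, fun C M h1 h2 h3 h4 => absurd ⟨C, M, h1, h2, h3, h4⟩ hex⟩
  choose G hG using hG
  let e : Finset Ω → (X →₀ ℕ) → S.K := fun C M =>
    if OZ S W n w Z C M ∧ M.support.card = k then
      G M.support (C \ UF S {w} M.support) (C ∩ UF S {w} M.support) (M - ch M.support) else 0
  have he : ∀ C M, e C M ≠ 0 → OZ S W n w Z C M ∧ M.support.card = k := by
    intro C M h
    by_contra h'
    exact h (if_neg h')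
  refine ⟨e, fun C M h => (he C M h).1, fun C M h => (he C M h).2.le, fun C M hV hkM => ?_⟩
  by_cases hO : OZ S W n w Z C M
  · rcases hkM.lt_or_eq with hlt | heq
    · have h1 : g C M = 0 := by
        by_contra h
        exact absurd (hk C M h) (not_le.2 hlt)
      rw [h1]
      refine (Finset.sum_eq_zero fun c _ => Finset.sum_eq_zero fun v _ => ?_).symm
      by_contra hne
      have h2 := (he _ _ (right_ne_zero_of_mul hne)).2
      rw [supp_add1] at h2
      have h3 := Finset.card_le_card (Finset.subset_insert v M.support)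
      omega
    · rw [dl_piece (Y := {w}) (fun C M h => (he C M h).1.os hZ)
          (fun C M' h => by rw [← heq]; exact (he C M' h).2.le),
        hG M.support (C \ UF S {w} M.support) C M hO rfl heq.symm rfl]
      refine Finset.sum_congr rfl fun c hcC => Finset.sum_congr rfl fun v hv => ?_
      rw [Finset.mem_inter] at hcC
      rw [Finset.mem_sdiff] at hv
      by_cases ha : S.a v c = 0
      · rw [ha, zero_mul, zero_mul]
      · congr 1
        have hsup : (Finsupp.single v 1 + M).support = M.support := by
          rw [supp_add1, Finset.insert_eq_of_mem hv.1]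
        have hVP := hV.up hcC.1 (a_mem ha) (hsup.symm ▸ hV.fcs)
        have hO2 : OZ S W n w Z (C.erase c) (Finsupp.single v 1 + M) := by
          refine ⟨hVP, ?_, ?_⟩
          · have hne : v ≠ w := by
              rintro rfl
              exact hv.2 (Finset.mem_singleton_self v)
            rw [Finsupp.add_apply, Finsupp.single_eq_of_ne hne.symm, zero_add]
            exact hO.2.one
          · rw [hsup]
            refine hO.2.sub.trans ?_
            exact Finset.sdiff_subset_sdiff subset_rfl (Finset.erase_subset c C)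
        have h3 : e (C.erase c) (Finsupp.single v 1 + M) =
            G (Finsupp.single v 1 + M).support
              (C.erase c \ UF S {w} (Finsupp.single v 1 + M).support)
              (C.erase c ∩ UF S {w} (Finsupp.single v 1 + M).support)
              ((Finsupp.single v 1 + M) - ch (Finsupp.single v 1 + M).support) :=
          if_pos ⟨hO2, by rw [hsup]; exact heq.symm⟩
        rw [h3, hsup]
        have h4 : C.erase c \ UF S {w} M.support = C \ UF S {w} M.support := by
          ext b
          rw [Finset.mem_sdiff, Finset.mem_sdiff, Finset.mem_erase]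
          exact ⟨fun h => ⟨h.1.2, h.2⟩, fun h => ⟨⟨fun h' => h.2 (h' ▸ hcC.2), h.1⟩, h.2⟩⟩
        have h5 : C.erase c ∩ UF S {w} M.support = (C ∩ UF S {w} M.support).erase c :=
          Finset.erase_inter ..
        have h6 : (Finsupp.single v 1 + M) - ch M.support =
            Finsupp.single v 1 + (M - ch M.support) := by
          refine add_tsub_assoc_of_le ?_ _
          intro u
          by_cases hu : u ∈ M.support
          · have h2 : (ch M.support : X →₀ ℕ) u = 1 := by
              unfold ch
              rw [Finsupp.finsetSum_apply, Finset.sum_eq_single u]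
              · exact Finsupp.single_eq_same
              · intro b _ hb
                exact Finsupp.single_eq_of_ne hb.symm
              · exact fun h => absurd hu h
            rw [h2]
            exact Nat.one_le_iff_ne_zero.2 (Finsupp.mem_support_iff.1 hu)
          · have h2 : (ch M.support : X →₀ ℕ) u = 0 := by
              rw [← Finsupp.notMem_support_iff, ch_support]
              exact hu
            rw [h2]
            exact Nat.zero_le _
        rw [h4, h5, h6]
  · have h1 : g C M = 0 := by
      by_contra h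
      exact hO (hg C M h)
    rw [h1]
    refine (Finset.sum_eq_zero fun c hc' => Finset.sum_eq_zero fun v _ => ?_).symm
    by_contra hne
    exact hO (hcl.cl C M c v hV hc' (a_mem (left_ne_zero_of_mul hne))
      (he _ _ (right_ne_zero_of_mul hne)).1)

/-- Cocycles supported on the pairs typed by `w` and `Z` are coboundaries if `Z` is large. -/
theorem exa_OZ (hn : W.card + 2 ≤ n + Z.card) (hZ : 3 ≤ Z.card) : Exa S W n (OZ S W n w Z) := by
  have := S.charP_K
  have hcl : Cl S W n (OZ S W n w Z) := cl_OZ (by omega)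
  have key : ∀ k : ℕ, ∀ g : Finset Ω → (X →₀ ℕ) → S.K, (∀ C M, g C M ≠ 0 → OZ S W n w Z C M) →
      (∀ C M, VP S W n C M → dl S g C M = 0) → (∀ C M, g C M ≠ 0 → M.support.card < k) →
      ∃ e : Finset Ω → (X →₀ ℕ) → S.K, (∀ C M, e C M ≠ 0 → OZ S W n w Z C M) ∧
        ∀ C M, VP S W n C M → g C M = dl S e C M := by
    intro k
    induction k with
    | zero =>
      intro g _ _ hk
      have h0 : ∀ C M, g C M = 0 := fun C M => by
        by_contra h
        exact Nat.not_lt_zero _ (hk C M h)
      refine ⟨fun _ _ => 0, fun _ _ h => absurd rfl h, fun C M _ => ?_⟩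
      rw [h0]
      exact (Finset.sum_eq_zero fun c _ => Finset.sum_eq_zero fun v _ => mul_zero _).symm
    | succ k ih =>
      intro g hg hc hk
      obtain ⟨e, he1, he2, he3⟩ := exa_stepZ hn hZ hg hc (k := k)
        (fun C M h => Nat.lt_succ_iff.1 (hk C M h))
      have hdv : ∀ C M, dv S W n e C M ≠ 0 → OZ S W n w Z C M := by
        intro C M h
        have hV : VP S W n C M := by
          by_contra h'
          exact h (dv_neg h')
        rw [dv_pos hV] at h
        obtain ⟨c, hcC, hc'⟩ := Finset.exists_ne_zero_of_sum_ne_zero h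
        obtain ⟨v, -, hv⟩ := Finset.exists_ne_zero_of_sum_ne_zero hc'
        exact hcl.cl C M c v hV hcC (a_mem (left_ne_zero_of_mul hv))
          (he1 _ _ (right_ne_zero_of_mul hv))
      obtain ⟨e', he'1, he'2⟩ := ih (fun C M => g C M + dv S W n e C M) (fun C M h => by
          by_cases h1 : g C M = 0
          · rw [h1, zero_add] at h
            exact hdv C M h
          · exact hg C M h1) (fun C M hV => by
          rw [dl_add, hc C M hV, dl_dv (fun C M h => (he1 C M h).1) hV, add_zero])
        (fun C M h => by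
          by_contra hle
          rw [not_lt] at hle
          by_cases hV : VP S W n C M
          · rw [dv_pos hV, he3 C M hV hle] at h
            exact h (CharTwo.add_self_eq_zero _)
          · rw [dv_neg hV, add_zero] at h
            exact hV (hg C M h).1)
      refine ⟨fun C M => e C M + e' C M, fun C M h => ?_, fun C M hV => ?_⟩
      · by_cases h1 : e C M = 0
        · beta_reduce at h
          rw [h1, zero_add] at h
          exact he'1 C M h
        · exact he1 C M h1
      · rw [dl_add, ← he'2 C M hV, dv_pos hV, add_comm (dl S e C M), add_assoc,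
          CharTwo.add_self_eq_zero, add_zero]
  intro g hg hc
  refine key (Fintype.card X + 1) g hg hc fun C M _ => ?_
  exact Nat.lt_succ_iff.2 (Finset.card_le_univ _)


/-- The intersection of the sets of two or more different `Z` of the same size is exact. -/
theorem exa_FOSZ {z : ℕ} (hn : W.card + 1 ≤ n + z) (hz : 2 ≤ z) {Y : Finset (Finset Ω)}
    (hY : 2 ≤ Y.card) (hYz : ∀ Z ∈ Y, Z.card = z) :
    Exa S W n (FOS S W n (OZ S W n w) Y) := by
  have h1 : FOS S W n (OZ S W n w) Y = OZ S W n w (Y.biUnion id) := by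
    obtain ⟨Z0, hZ0⟩ := Finset.card_pos.1 (by omega : 0 < Y.card)
    funext C M
    refine propext ⟨fun h => ⟨h.1, (h.2 Z0 hZ0).2.one, ?_⟩, fun h => ⟨h.1, fun Z hZ => ⟨h.1,
      h.2.one, ?_⟩⟩⟩
    · exact Finset.biUnion_subset.2 fun Z hZ => (h.2 Z hZ).2.sub
    · exact (Finset.subset_biUnion_of_mem id hZ).trans h.2.sub
  have h2 : z + 1 ≤ (Y.biUnion id).card := by
    obtain ⟨Z1, hZ1, Z2, hZ2, hne⟩ := Finset.one_lt_card.1 (by omega : 1 < Y.card)
    have h3 : Z1 ⊂ Y.biUnion id := by
      refine Finset.ssubset_iff_subset_ne.2 ⟨Finset.subset_biUnion_of_mem id hZ1, fun h => hne ?_⟩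
      have h4 : Z2 ⊆ Z1 := by
        rw [h]
        exact Finset.subset_biUnion_of_mem id hZ2
      exact (Finset.eq_of_subset_of_card_le h4 (by rw [hYz Z1 hZ1, hYz Z2 hZ2])).symm
    have h5 := Finset.card_lt_card h3
    rw [hYz Z1 hZ1] at h5
    omega
  rw [h1]
  exact exa_OZ (by omega) (by omega)

/-- The splitting theorem for the sets `Z` of `z` colours. -/
theorem splitZ (S : Sub X Ω) {W : Finset Ω} {n z : ℕ} (w : X) (hn : W.card + 1 ≤ n + z)
    (hz : 2 ≤ z) (T : Finset (Finset Ω)) (hT : ∀ Z ∈ T, Z.card = z)
    (r : Finset Ω → (X →₀ ℕ) → S.K) (q : Finset Ω → Finset Ω → (X →₀ ℕ) → S.K)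
    (hr : ∀ C M, r C M ≠ 0 → ∃ Z ∈ T, OZ S W n w Z C M)
    (hq : ∀ Z ∈ T, ∀ C M, q Z C M ≠ 0 → OZ S W n w Z C M)
    (hdq : ∀ Z ∈ T, ∀ C M, VP S W n C M → dl S (q Z) C M = 0)
    (hdr : ∀ C M, VP S W n C M → dl S r C M = ∑ Z ∈ T, q Z C M) :
    ∃ r' : Finset Ω → Finset Ω → (X →₀ ℕ) → S.K,
      (∀ Z ∈ T, ∀ C M, r' Z C M ≠ 0 → OZ S W n w Z C M) ∧
      (∀ Z ∈ T, ∀ C M, VP S W n C M → dl S (r' Z) C M = q Z C M) ∧
      ∀ C M, r C M = ∑ Z ∈ T, r' Z C M := by
  let P : Finset Ω → Finset Ω → (X →₀ ℕ) → Prop := fun Z =>
    if 2 ≤ Z.card then OZ S W n w Z else fun _ _ => False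
  have hPT : ∀ Z ∈ T, P Z = OZ S W n w Z := fun Z hZ => if_pos (by rw [hT Z hZ]; exact hz)
  have hP : ∀ Z, Cl S W n (P Z) := by
    intro Z
    by_cases h : 2 ≤ Z.card
    · have h1 : P Z = OZ S W n w Z := if_pos h
      rw [h1]
      exact cl_OZ h
    · have h1 : P Z = fun _ _ => False := if_neg h
      rw [h1]
      exact ⟨fun _ _ h => h.elim, fun _ _ _ _ _ _ _ h => h.elim⟩
  obtain ⟨r', h1, h2, h3⟩ := split_fam hP T (fun Y hYT hY => by
      have h4 : FOS S W n P Y = FOS S W n (OZ S W n w) Y := by
        funext C M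
        refine propext ⟨fun h => ⟨h.1, fun Z hZ => ?_⟩, fun h => ⟨h.1, fun Z hZ => ?_⟩⟩
        · rw [← hPT Z (hYT hZ)]
          exact h.2 Z hZ
        · rw [hPT Z (hYT hZ)]
          exact h.2 Z hZ
      rw [h4]
      exact exa_FOSZ hn hz hY fun Z hZ => hT Z (hYT hZ)) r q
    (fun C M h => by
      obtain ⟨Z, hZ, h'⟩ := hr C M h
      exact ⟨Z, hZ, by rw [hPT Z hZ]; exact h'⟩)
    (fun Z hZ C M h => by rw [hPT Z hZ]; exact hq Z hZ C M h) hdq hdr
  exact ⟨r', fun Z hZ C M h => by rw [← hPT Z hZ]; exact h1 Z hZ C M h, h2, h3⟩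

end Pool.Agent.LH4
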